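import Pool.Agent.Lib.KG.AlgD

/-!
# Row AL1: elementary identities
-/

set_option autoImplicit false

namespace Pool.Agent.KG

open Set

variable {n : ℕ}

/-! ## Row AL1: elementary identities -/

theorem mv_Hm {g : Fin n → Fin n → Fin n → ℝ} (hg : Sym g) (X Y : Fin n → ℝ) (j : Fin n) :
    mv (Hm g X) Y j = bil g X Y j := by
  unfold mv Hm bil
  simp only [Finset.sum_mul]
  rw [Finset.sum_comm]
  refine Finset.sum_congr rfl fun k _ => Finset.sum_congr rfl fun l _ => ?_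
  rw [hg.g23 j l k]
  ring

theorem bil_symm {g : Fin n → Fin n → Fin n → ℝ} (hg : Sym g) (X Y : Fin n → ℝ) :
    bil g X Y = bil g Y X := by
  funext j
  unfold bil
  rw [Finset.sum_comm]
  refine Finset.sum_congr rfl fun k _ => Finset.sum_congr rfl fun l _ => ?_
  rw [hg.g23 j l k]
  ring

theorem Hm_symm {g : Fin n → Fin n → Fin n → ℝ} (hg : Sym g) (X : Fin n → ℝ) (j k : Fin n) :
    Hm g X j k = Hm g X k j := by
  unfold Hm
  exact Finset.sum_congr rfl fun l _ => by rw [hg.g12 j k l]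

/-- The largest eigenvalue of `H(e)` is `α` if the determinant is negative. -/
theorem Dir.le {g : Fin 2 → Fin 2 → Fin 2 → ℝ} (hg : Sym g) {e : Fin 2 → ℝ} {α : ℝ}
    (h : Dir g e α) (hd : det2 (Hm g e) < 0) (ξ : Fin 2 → ℝ) :
    qd (Hm g e) ξ ≤ α * dot ξ ξ := by
  have hsym := Hm_symm hg e 0 1
  have h0 : Hm g e 0 0 * e 0 + Hm g e 0 1 * e 1 = α * e 0 := by
    have h1 := mv_Hm hg e e 0
    rw [h.eig 0] at h1
    simpa [mv, Fin.sum_univ_two] using h1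
  have h1 : Hm g e 1 0 * e 0 + Hm g e 1 1 * e 1 = α * e 1 := by
    have h1 := mv_Hm hg e e 1
    rw [h.eig 1] at h1
    simpa [mv, Fin.sum_univ_two] using h1
  have hu : e 0 * e 0 + e 1 * e 1 = 1 := by
    have h2 := h.unit
    simpa [dot, Fin.sum_univ_two] using h2
  have hp := h.pos
  have hq : qd (Hm g e) ξ = Hm g e 0 0 * ξ 0 * ξ 0 + Hm g e 0 1 * ξ 0 * ξ 1 +
      (Hm g e 1 0 * ξ 1 * ξ 0 + Hm g e 1 1 * ξ 1 * ξ 1) := by
    simp [qd, Fin.sum_univ_two]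
  have hdd : dot ξ ξ = ξ 0 * ξ 0 + ξ 1 * ξ 1 := by simp [dot, Fin.sum_univ_two]
  rw [hq, hdd]
  unfold det2 at hd
  rw [← hsym] at h1 hd ⊢
  set a := Hm g e 0 0
  set b := Hm g e 0 1
  set d := Hm g e 1 1
  set x := e 0
  set y := e 1
  set u := ξ 0
  set v := ξ 1
  -- the second eigenvalue
  have ea : a = α * x ^ 2 + (a + d - α) * y ^ 2 := by
    linear_combination (-a) * hu + x * h0 - y * h1
  have eb : b = (α - (a + d - α)) * (x * y) := by
    linear_combination (-b) * hu + y * h0 + x * h1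
  have ed : d = α * y ^ 2 + (a + d - α) * x ^ 2 := by
    linear_combination (-d) * hu - x * h0 + y * h1
  have hβ : a + d - α < 0 := by
    have e1 : a * d - b * b = α * (a + d - α) := by
      linear_combination (-((a - α) * (d - α) - b * b)) * hu + (x * (d - α) - y * b) * h0 +
        (y * (a - α) - x * b) * h1
    rw [e1] at hd
    by_contra hcon
    push Not at hcon
    exact absurd (mul_nonneg hp.le hcon) (not_le.mpr hd)
  have e1 : α - a = (2 * α - a - d) * y ^ 2 := by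
    linear_combination (-α) * hu - ea
  have e3 : α - d = (2 * α - a - d) * x ^ 2 := by
    linear_combination (-α) * hu - ed
  have e4 : α * (u * u + v * v) - (a * u * u + b * u * v + (b * v * u + d * v * v)) =
      (2 * α - a - d) * (x * v - y * u) ^ 2 := by
    linear_combination u ^ 2 * e1 + v ^ 2 * e3 - 2 * u * v * eb
  have e5 : 0 ≤ (2 * α - a - d) * (x * v - y * u) ^ 2 :=
    mul_nonneg (by linarith) (sq_nonneg _)
  linarith

theorem Cube.dir {g : Fin 2 → Fin 2 → Fin 2 → ℝ} {e : Fin 2 → ℝ} {α : ℝ} (h : Cube g e α) :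
    Dir g e α := by
  refine ⟨h.unit, h.pos, fun j => ?_⟩
  unfold bil
  have h1 : ∀ k l, g j k l * (e k * e l) = α * e j * ((e k * e k) * (e l * e l)) := by
    intro k l
    rw [h.eq]
    ring
  simp only [h1]
  have h2 := h.unit
  unfold dot at h2
  simp only [← Finset.mul_sum, h2, mul_one]

/-- Cramer's rule: `H(e) X = Y` can be solved. -/
theorem exists_solve {g : Fin 2 → Fin 2 → Fin 2 → ℝ} (hg : Sym g) {e : Fin 2 → ℝ}
    (hd : det2 (Hm g e) ≠ 0) (Y : Fin 2 → ℝ) : ∃ X : Fin 2 → ℝ, ∀ j, bil g e X j = Y j := by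
  unfold det2 at hd
  have key : ∀ X : Fin 2 → ℝ, ∀ j, bil g e X j = Hm g e j 0 * X 0 + Hm g e j 1 * X 1 := by
    intro X j
    rw [← mv_Hm hg e X j]
    simp [mv, Fin.sum_univ_two]
  refine ⟨![(Hm g e 1 1 * Y 0 - Hm g e 0 1 * Y 1) /
      (Hm g e 0 0 * Hm g e 1 1 - Hm g e 0 1 * Hm g e 1 0),
    (Hm g e 0 0 * Y 1 - Hm g e 1 0 * Y 0) /
      (Hm g e 0 0 * Hm g e 1 1 - Hm g e 0 1 * Hm g e 1 0)], fun j => ?_⟩
  rw [key]
  have h0 : ![(Hm g e 1 1 * Y 0 - Hm g e 0 1 * Y 1) /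
      (Hm g e 0 0 * Hm g e 1 1 - Hm g e 0 1 * Hm g e 1 0),
    (Hm g e 0 0 * Y 1 - Hm g e 1 0 * Y 0) /
      (Hm g e 0 0 * Hm g e 1 1 - Hm g e 0 1 * Hm g e 1 0)] 0 =
      (Hm g e 1 1 * Y 0 - Hm g e 0 1 * Y 1) /
      (Hm g e 0 0 * Hm g e 1 1 - Hm g e 0 1 * Hm g e 1 0) := rfl
  have h1 : ![(Hm g e 1 1 * Y 0 - Hm g e 0 1 * Y 1) /
      (Hm g e 0 0 * Hm g e 1 1 - Hm g e 0 1 * Hm g e 1 0),
    (Hm g e 0 0 * Y 1 - Hm g e 1 0 * Y 0) /
      (Hm g e 0 0 * Hm g e 1 1 - Hm g e 0 1 * Hm g e 1 0)] 1 =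
      (Hm g e 0 0 * Y 1 - Hm g e 1 0 * Y 0) /
      (Hm g e 0 0 * Hm g e 1 1 - Hm g e 0 1 * Hm g e 1 0) := rfl
  rw [h0, h1, ← mul_div_assoc, ← mul_div_assoc, ← add_div, div_eq_iff hd]
  have hj : j = 0 ∨ j = 1 := by omega
  rcases hj with rfl | rfl
  · ring
  · ring

end Pool.Agent.KG
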