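import Pool.Agent.Lib.KG.AL1

/-!
# Row AL2: a frame in which the coefficient of the third power vanishes
-/

set_option autoImplicit false

namespace Pool.Agent.KG

open Set

/-- The determinant of the Hessian in a rotated frame. -/
theorem det_frame {g : Fin 2 → Fin 2 → Fin 2 → ℝ} (hg : Sym g) (x X Y : ℝ) :
    det2 (Hm g fun j => X * uv x j + Y * uw x j) =
      (tri g (uv x) (uv x) (uv x) * X + tri g (uv x) (uv x) (uw x) * Y) *
        (tri g (uv x) (uw x) (uw x) * X + tri g (uw x) (uw x) (uw x) * Y) -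
      (tri g (uv x) (uv x) (uw x) * X + tri g (uv x) (uw x) (uw x) * Y) ^ 2 := by
  have e1 : g 1 0 0 = g 0 0 1 := by rw [hg.g12, hg.g23]
  have e2 : g 0 1 0 = g 0 0 1 := hg.g23 0 1 0
  have e3 : g 1 0 1 = g 0 1 1 := hg.g12 1 0 1
  have e4 : g 1 1 0 = g 0 1 1 := by rw [hg.g23, hg.g12]
  have hs : Real.cos x ^ 2 + Real.sin x ^ 2 = 1 := Real.cos_sq_add_sin_sq x
  have key : ∀ c s : ℝ, c ^ 2 + s ^ 2 = 1 →
      det2 (Hm g fun j => X * (![c, s] : Fin 2 → ℝ) j + Y * (![-s, c] : Fin 2 → ℝ) j) =
      (tri g ![c, s] ![c, s] ![c, s] * X + tri g ![c, s] ![c, s] ![-s, c] * Y) *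
        (tri g ![c, s] ![-s, c] ![-s, c] * X + tri g ![-s, c] ![-s, c] ![-s, c] * Y) -
      (tri g ![c, s] ![c, s] ![-s, c] * X + tri g ![c, s] ![-s, c] ![-s, c] * Y) ^ 2 := by
    intro c s hcs
    have h1 : det2 (Hm g fun j => X * (![c, s] : Fin 2 → ℝ) j + Y * (![-s, c] : Fin 2 → ℝ) j) =
        (c ^ 2 + s ^ 2) ^ 2 *
        det2 (Hm g fun j => X * (![c, s] : Fin 2 → ℝ) j + Y * (![-s, c] : Fin 2 → ℝ) j) := by
      rw [hcs]; ring
    rw [h1]
    simp only [det2, Hm, tri, Fin.sum_univ_two, Matrix.cons_val_zero, Matrix.cons_val_one,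
      e1, e2, e3, e4]
    ring
  exact key _ _ hs

/-- There is a real root: intermediate value theorem, `uw (x + π) = -uw x`. -/
theorem exists_root (g : Fin 2 → Fin 2 → Fin 2 → ℝ) : ∃ x : ℝ, tri g (uw x) (uw x) (uw x) = 0 := by
  have hc : Continuous fun x : ℝ => tri g (uw x) (uw x) (uw x) := by
    simp only [tri, uw, Fin.sum_univ_two, Matrix.cons_val_zero, Matrix.cons_val_one]
    fun_prop
  have hπ : tri g (uw Real.pi) (uw Real.pi) (uw Real.pi) = -tri g (uw 0) (uw 0) (uw 0) := by
    simp only [tri, uw, Fin.sum_univ_two, Matrix.cons_val_zero, Matrix.cons_val_one,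
      Real.sin_pi, Real.cos_pi, Real.sin_zero, Real.cos_zero]
    ring
  rcases le_total (tri g (uw 0) (uw 0) (uw 0)) 0 with h | h
  · obtain ⟨x, _, hx⟩ := intermediate_value_Icc (Real.pi_pos.le) hc.continuousOn
      (show (0 : ℝ) ∈ Icc _ _ from ⟨h, by rw [hπ]; linarith⟩)
    exact ⟨x, hx⟩
  · obtain ⟨x, _, hx⟩ := intermediate_value_Icc' (Real.pi_pos.le) hc.continuousOn
      (show (0 : ℝ) ∈ Icc _ _ from ⟨by rw [hπ]; linarith, h⟩)
    exact ⟨x, hx⟩

/-- The frame for non-cubes of nonpositive discriminant. If the form `-det H` is definite take any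
root; otherwise take `uw x` in the kernel of this form. -/
theorem exists_frame {g : Fin 2 → Fin 2 → Fin 2 → ℝ} (hg : Sym g)
    (h0 : ∀ X, det2 (Hm g X) ≤ 0) (h1 : ∃ X, det2 (Hm g X) < 0) :
    ∃ x : ℝ, tri g (uw x) (uw x) (uw x) = 0 ∧
      (∀ X Y : ℝ, X ≠ 0 → det2 (Hm g fun j => X * uv x j + Y * uw x j) < 0) ∧
      4 * (tri g (uv x) (uv x) (uv x) * tri g (uv x) (uw x) (uw x)) <
        3 * tri g (uv x) (uv x) (uw x) ^ 2 := by
  -- every vector in the frame
  have hV : ∀ (x : ℝ) (V : Fin 2 → ℝ),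
      V = fun j => (V 0 * Real.cos x + V 1 * Real.sin x) * uv x j +
        (V 1 * Real.cos x - V 0 * Real.sin x) * uw x j := by
    intro x V
    have hs : Real.cos x ^ 2 + Real.sin x ^ 2 = 1 := Real.cos_sq_add_sin_sq x
    funext j
    fin_cases j
    · change V 0 = _ * Real.cos x + _ * (-Real.sin x)
      linear_combination -V 0 * hs
    · change V 1 = _ * Real.sin x + _ * Real.cos x
      linear_combination -V 1 * hs
  by_cases hdef : ∀ X : Fin 2 → ℝ, X ≠ 0 → det2 (Hm g X) < 0
  · obtain ⟨x, hx⟩ := exists_root g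
    refine ⟨x, hx, ?_, ?_⟩
    · intro X Y hX
      refine hdef _ fun h => hX ?_
      have h0' := congrFun h 0
      have h1' := congrFun h 1
      have hs : Real.cos x ^ 2 + Real.sin x ^ 2 = 1 := Real.cos_sq_add_sin_sq x
      change X * Real.cos x + Y * (-Real.sin x) = 0 at h0'
      change X * Real.sin x + Y * Real.cos x = 0 at h1'
      linear_combination -X * hs + Real.cos x * h0' + Real.sin x * h1'
    · have hne : ∀ X Y : ℝ, (X ≠ 0 ∨ Y ≠ 0) → (fun j => X * uv x j + Y * uw x j) ≠ 0 := by
        intro X Y hXY h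
        have h0' := congrFun h 0
        have h1' := congrFun h 1
        have hs : Real.cos x ^ 2 + Real.sin x ^ 2 = 1 := Real.cos_sq_add_sin_sq x
        change X * Real.cos x + Y * (-Real.sin x) = 0 at h0'
        change X * Real.sin x + Y * Real.cos x = 0 at h1'
        rcases hXY with hXY | hXY
        · exact hXY (by linear_combination -X * hs + Real.cos x * h0' + Real.sin x * h1')
        · exact hXY (by linear_combination -Y * hs - Real.sin x * h0' + Real.cos x * h1')
      have hr := hdef _ (hne 0 1 (Or.inr one_ne_zero))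
      rw [det_frame hg, hx] at hr
      set p := tri g (uv x) (uv x) (uv x)
      set q := tri g (uv x) (uv x) (uw x)
      set r := tri g (uv x) (uw x) (uw x)
      have hr2 : 0 < r ^ 2 := by nlinarith
      have hr0 : r ≠ 0 := fun h => by rw [h] at hr2; norm_num at hr2
      have h3 := hdef _ (hne (2 * r) (-q) (Or.inl (mul_ne_zero two_ne_zero hr0)))
      rw [det_frame hg, hx] at h3
      change (p * (2 * r) + q * (-q)) * (r * (2 * r) + 0 * (-q)) - (q * (2 * r) + r * (-q)) ^ 2 < 0
        at h3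
      have h4 : 0 < r ^ 2 * (3 * q ^ 2 - 4 * (p * r)) := by nlinarith
      have h5 := (mul_pos_iff_of_pos_left hr2).1 h4
      linarith
  · push Not at hdef
    obtain ⟨Z, hZ, hZ0⟩ := hdef
    have hZe : det2 (Hm g Z) = 0 := le_antisymm (h0 Z) hZ0
    -- the angle
    let z : ℂ := ⟨Z 1, -Z 0⟩
    have hz : z ≠ 0 := by
      intro h
      apply hZ
      have h1' := congrArg Complex.re h
      have h2' := congrArg Complex.im h
      change Z 1 = 0 at h1'
      change -Z 0 = 0 at h2'
      funext j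
      fin_cases j
      · change Z 0 = 0
        linarith
      · exact h1'
    let x : ℝ := Complex.arg z
    have hn : 0 < ‖z‖ := norm_pos_iff.2 hz
    have hc : Real.cos x = Z 1 / ‖z‖ := Complex.cos_arg hz
    have hs' : Real.sin x = -Z 0 / ‖z‖ := Complex.sin_arg z
    have hw : Z = fun j => 0 * uv x j + ‖z‖ * uw x j := by
      funext j
      fin_cases j
      · change Z 0 = 0 * Real.cos x + ‖z‖ * (-Real.sin x)
        rw [hs']
        field_simp
        ring
      · change Z 1 = 0 * Real.sin x + ‖z‖ * Real.cos x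
        rw [hc]
        field_simp
        ring
    have hC : tri g (uv x) (uv x) (uw x) * tri g (uw x) (uw x) (uw x) -
        tri g (uv x) (uw x) (uw x) ^ 2 = 0 := by
      rw [hw, det_frame hg] at hZe
      have h1' : ‖z‖ ^ 2 * (tri g (uv x) (uv x) (uw x) * tri g (uw x) (uw x) (uw x) -
        tri g (uv x) (uw x) (uw x) ^ 2) = 0 := by linear_combination hZe
      exact (mul_eq_zero.1 h1').resolve_left (pow_ne_zero 2 hn.ne')
    have hform : ∀ X Y : ℝ, det2 (Hm g fun j => X * uv x j + Y * uw x j) =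
        (tri g (uv x) (uv x) (uv x) * tri g (uv x) (uw x) (uw x) -
          tri g (uv x) (uv x) (uw x) ^ 2) * X ^ 2 +
        (tri g (uv x) (uv x) (uv x) * tri g (uw x) (uw x) (uw x) -
          tri g (uv x) (uv x) (uw x) * tri g (uv x) (uw x) (uw x)) * (X * Y) := by
      intro X Y
      rw [det_frame hg]
      linear_combination Y ^ 2 * hC
    set p := tri g (uv x) (uv x) (uv x) with hp
    set q := tri g (uv x) (uv x) (uw x) with hq
    set r := tri g (uv x) (uw x) (uw x) with hr
    set d := tri g (uw x) (uw x) (uw x) with hd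
    have hB : p * d - q * r = 0 := by
      by_contra hB
      have h3 := h0 fun j => 1 * uv x j + ((1 - (p * r - q ^ 2)) / (p * d - q * r)) * uw x j
      rw [hform] at h3
      have h4 : (p * d - q * r) * (1 * ((1 - (p * r - q ^ 2)) / (p * d - q * r))) =
          1 - (p * r - q ^ 2) := by
        field_simp
      rw [h4] at h3
      linarith
    have hA : 0 < q ^ 2 - p * r := by
      obtain ⟨V, hVn⟩ := h1
      rw [hV x V, hform, hB] at hVn
      by_contra hA
      push Not at hA
      have h5 : 0 ≤ (p * r - q ^ 2) * (V 0 * Real.cos x + V 1 * Real.sin x) ^ 2 :=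
        mul_nonneg (by linarith) (sq_nonneg _)
      linarith
    have hd0 : d = 0 := by
      by_contra hd0
      -- q d = r², p d = q r
      have h5 : d ^ 2 * (q ^ 2 - p * r) = 0 := by
        linear_combination (q * d) * hC - r * d * hB
      have h6 : 0 < d ^ 2 * (q ^ 2 - p * r) := mul_pos (by positivity) hA
      linarith
    have hr0 : r = 0 := by
      rw [hd0] at hC
      have : r ^ 2 = 0 := by linarith
      exact pow_eq_zero_iff (two_ne_zero) |>.1 this
    refine ⟨x, hd0, ?_, ?_⟩
    · intro X Y hX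
      rw [hform, hB]
      have hX2 : 0 < X ^ 2 := by positivity
      nlinarith
    · change 4 * (p * r) < 3 * q ^ 2
      rw [hr0] at hA ⊢
      linarith

end Pool.Agent.KG
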