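import Pool.Agent.Lib.KG.AL2

/-!
# Row AL3: critical directions
-/

set_option autoImplicit false

namespace Pool.Agent.KG

open Set

/-! ## Row AL3: critical directions -/

private theorem AL3_exists_pos {p q r : ℝ} (h : 4 * (p * r) < 3 * q ^ 2) :
    ∃ t : ℝ, 0 < p + 3 * q * t + 3 * r * t ^ 2 := by
  rcases lt_trichotomy r 0 with hr | hr | hr
  · refine ⟨-(q / (2 * r)), ?_⟩
    have hr' : r ≠ 0 := hr.ne
    have h1 : p + 3 * q * -(q / (2 * r)) + 3 * r * (-(q / (2 * r))) ^ 2 =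
        (4 * (p * r) - 3 * q ^ 2) / (4 * r) := by
      field_simp
      ring
    rw [h1]
    exact div_pos_of_neg_of_neg (by linarith) (by linarith)
  · subst hr
    have hq : q ≠ 0 := by
      rintro rfl
      simp at h
    refine ⟨(1 - p) / (3 * q), ?_⟩
    have h1 : p + 3 * q * ((1 - p) / (3 * q)) + 3 * 0 * ((1 - p) / (3 * q)) ^ 2 = 1 := by
      field_simp
      ring
    rw [h1]
    exact one_pos
  · set m := |p| + |q| + 1 with hm
    have hm1 : 1 ≤ m := by
      have := abs_nonneg p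
      have := abs_nonneg q
      linarith
    have hp : -m ≤ p := by
      have := neg_abs_le p
      have := abs_nonneg q
      linarith
    have hq : -m ≤ q := by
      have := neg_abs_le q
      have := abs_nonneg p
      linarith
    have hmr : 0 < (m + 1) / r := by positivity
    refine ⟨(m + 1) / r + m, ?_⟩
    set t := (m + 1) / r + m with ht
    have ht1 : m ≤ t := by linarith
    have ht2 : r * t = m + 1 + r * m := by
      rw [ht]
      field_simp
    have hrm : 0 < r * m := by positivity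
    have h3 : p + 3 * q * t + 3 * r * t ^ 2 = p + 3 * (t * (q + (m + 1 + r * m))) := by
      rw [← ht2]; ring
    rw [h3]
    have h4 : t * 1 ≤ t * (q + (m + 1 + r * m)) :=
      mul_le_mul_of_nonneg_left (by linarith) (by linarith)
    linarith

/-- The maximum of `p c³ + 3 q c² s + 3 r c s²` over `c = cos y`, `s = sin y`, `y` in
`[-π/2, π/2]`, is positive and interior. -/
theorem half_max {p q r : ℝ} (h : 4 * (p * r) < 3 * q ^ 2) :
    ∃ y ∈ Ioo (-(Real.pi / 2)) (Real.pi / 2),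
      0 < p * Real.cos y ^ 3 + 3 * q * Real.cos y ^ 2 * Real.sin y +
        3 * r * Real.cos y * Real.sin y ^ 2 ∧
      -(p * Real.cos y ^ 2 * Real.sin y) + q * (Real.cos y ^ 3 - 2 * Real.cos y * Real.sin y ^ 2) +
        r * (2 * Real.cos y ^ 2 * Real.sin y - Real.sin y ^ 3) = 0 := by
  set f : ℝ → ℝ := fun y => p * Real.cos y ^ 3 + 3 * q * Real.cos y ^ 2 * Real.sin y +
        3 * r * Real.cos y * Real.sin y ^ 2 with hf
  have hder : ∀ y, HasDerivAt f (3 * (-(p * Real.cos y ^ 2 * Real.sin y) +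
      q * (Real.cos y ^ 3 - 2 * Real.cos y * Real.sin y ^ 2) +
        r * (2 * Real.cos y ^ 2 * Real.sin y - Real.sin y ^ 3))) y := by
    intro y
    have hc := Real.hasDerivAt_cos y
    have hs := Real.hasDerivAt_sin y
    have h1 := ((hc.pow 3).const_mul p).add (((hc.pow 2).const_mul (3 * q)).mul hs)
    have h2 := h1.add ((hc.const_mul (3 * r)).mul (hs.pow 2))
    refine h2.congr_deriv ?_
    simp only [Nat.cast_ofNat, Pi.pow_apply]
    ring
  have hcont : Continuous f := continuous_iff_continuousAt.2 fun y => (hder y).continuousAt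
  obtain ⟨t, ht⟩ := AL3_exists_pos h
  have hpi : -(Real.pi / 2) ≤ Real.pi / 2 := by
    have := Real.pi_pos
    linarith
  have hpos : 0 < f (Real.arctan t) := by
    have hc := Real.cos_arctan_pos t
    have hs : Real.sin (Real.arctan t) = t * Real.cos (Real.arctan t) := by
      have := Real.tan_arctan t
      rw [Real.tan_eq_sin_div_cos] at this
      rw [← this, this]
      field_simp at this ⊢
      linarith
    have h1 : f (Real.arctan t) =
        Real.cos (Real.arctan t) ^ 3 * (p + 3 * q * t + 3 * r * t ^ 2) := by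
      simp only [hf]
      rw [hs]
      ring
    rw [h1]
    positivity
  obtain ⟨y, hy, hmax⟩ := (isCompact_Icc (a := -(Real.pi / 2)) (b := Real.pi / 2)).exists_isMaxOn
    ⟨-(Real.pi / 2), le_rfl, hpi⟩ hcont.continuousOn
  have hmem : Real.arctan t ∈ Icc (-(Real.pi / 2)) (Real.pi / 2) :=
    ⟨(Real.neg_pi_div_two_lt_arctan t).le, (Real.arctan_lt_pi_div_two t).le⟩
  have hfy : 0 < f y := lt_of_lt_of_le hpos (hmax hmem)
  have hl : y ≠ -(Real.pi / 2) := by
    rintro rfl
    simp [hf] at hfy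
  have hr : y ≠ Real.pi / 2 := by
    rintro rfl
    simp [hf] at hfy
  have hyI : y ∈ Ioo (-(Real.pi / 2)) (Real.pi / 2) :=
    ⟨lt_of_le_of_ne hy.1 (Ne.symm hl), lt_of_le_of_ne hy.2 hr⟩
  refine ⟨y, hyI, hfy, ?_⟩
  have hloc : IsLocalMax f y := hmax.isLocalMax (Icc_mem_nhds hyI.1 hyI.2)
  have h0 := hloc.hasDerivAt_eq_zero (hder y)
  linarith

private theorem AL3_uvv {g : Fin 2 → Fin 2 → Fin 2 → ℝ} (hg : Sym g) (x y : ℝ) :
    tri g (uv (x + y)) (uv (x + y)) (uv (x + y)) =
      tri g (uv x) (uv x) (uv x) * Real.cos y ^ 3 +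
        3 * tri g (uv x) (uv x) (uw x) * Real.cos y ^ 2 * Real.sin y +
        3 * tri g (uv x) (uw x) (uw x) * Real.cos y * Real.sin y ^ 2 +
        tri g (uw x) (uw x) (uw x) * Real.sin y ^ 3 := by
  have h1 : g 0 1 0 = g 0 0 1 := (hg.g23 0 0 1).symm
  have h2 : g 1 0 0 = g 0 0 1 := by rw [hg.g12 1 0 0, h1]
  have h3 : g 1 0 1 = g 0 1 1 := hg.g12 1 0 1
  have h4 : g 1 1 0 = g 0 1 1 := by rw [hg.g23 1 1 0, h3]
  simp only [tri, Fin.sum_univ_two, uv, uw, Matrix.cons_val_zero, Matrix.cons_val_one, h1, h2, h3,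
    h4, Real.cos_add, Real.sin_add]
  ring

private theorem AL3_uvw {g : Fin 2 → Fin 2 → Fin 2 → ℝ} (hg : Sym g) (x y : ℝ) :
    tri g (uv (x + y)) (uv (x + y)) (uw (x + y)) =
      -(tri g (uv x) (uv x) (uv x) * Real.cos y ^ 2 * Real.sin y) +
        tri g (uv x) (uv x) (uw x) * (Real.cos y ^ 3 - 2 * Real.cos y * Real.sin y ^ 2) +
        tri g (uv x) (uw x) (uw x) * (2 * Real.cos y ^ 2 * Real.sin y - Real.sin y ^ 3) +
        tri g (uw x) (uw x) (uw x) * (Real.cos y * Real.sin y ^ 2) := by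
  have h1 : g 0 1 0 = g 0 0 1 := (hg.g23 0 0 1).symm
  have h2 : g 1 0 0 = g 0 0 1 := by rw [hg.g12 1 0 0, h1]
  have h3 : g 1 0 1 = g 0 1 1 := hg.g12 1 0 1
  have h4 : g 1 1 0 = g 0 1 1 := by rw [hg.g23 1 1 0, h3]
  simp only [tri, Fin.sum_univ_two, uv, uw, Matrix.cons_val_zero, Matrix.cons_val_one, h1, h2, h3,
    h4, Real.cos_add, Real.sin_add]
  ring

private theorem AL3_eig {g : Fin 2 → Fin 2 → Fin 2 → ℝ} (hg : Sym g) (z : ℝ)
    (h : tri g (uv z) (uv z) (uw z) = 0) (j : Fin 2) :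
    bil g (uv z) (uv z) j = tri g (uv z) (uv z) (uv z) * uv z j := by
  have h1 : g 0 1 0 = g 0 0 1 := (hg.g23 0 0 1).symm
  have h2 : g 1 0 0 = g 0 0 1 := by rw [hg.g12 1 0 0, h1]
  have h3 : g 1 0 1 = g 0 1 1 := hg.g12 1 0 1
  have h4 : g 1 1 0 = g 0 1 1 := by rw [hg.g23 1 1 0, h3]
  have hU : tri g (uv z) (uv z) (uv z) = bil g (uv z) (uv z) 0 * Real.cos z +
      bil g (uv z) (uv z) 1 * Real.sin z := by
    simp only [tri, bil, Fin.sum_univ_two, uv, Matrix.cons_val_zero, Matrix.cons_val_one, h1, h2,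
      h3, h4]
    ring
  have hW : tri g (uv z) (uv z) (uw z) = -(bil g (uv z) (uv z) 0 * Real.sin z) +
      bil g (uv z) (uv z) 1 * Real.cos z := by
    simp only [tri, bil, Fin.sum_univ_two, uv, uw, Matrix.cons_val_zero, Matrix.cons_val_one, h1,
      h2, h3, h4]
    ring
  rw [h] at hW
  have hcs := Real.sin_sq_add_cos_sq z
  rw [hU]
  generalize bil g (uv z) (uv z) = b at hW
  have hj : j = 0 ∨ j = 1 := by
    fin_cases j
    · exact Or.inl rfl
    · exact Or.inr rfl
  rcases hj with rfl | rfl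
  · show b 0 = (b 0 * Real.cos z + b 1 * Real.sin z) * Real.cos z
    linear_combination (-b 0) * hcs + Real.sin z * hW
  · show b 1 = (b 0 * Real.cos z + b 1 * Real.sin z) * Real.sin z
    linear_combination (-b 1) * hcs - Real.cos z * hW

private theorem AL3_unit (z : ℝ) : dot (uv z) (uv z) = 1 := by
  simp only [dot, Fin.sum_univ_two, uv, Matrix.cons_val_zero, Matrix.cons_val_one]
  have := Real.sin_sq_add_cos_sq z
  linarith

private theorem AL3_add (x y : ℝ) (j : Fin 2) :
    uv (x + y) j = Real.cos y * uv x j + Real.sin y * uw x j := by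
  have hj : j = 0 ∨ j = 1 := by
    fin_cases j
    · exact Or.inl rfl
    · exact Or.inr rfl
  rcases hj with rfl | rfl
  · show Real.cos (x + y) = Real.cos y * Real.cos x + Real.sin y * -Real.sin x
    rw [Real.cos_add]
    ring
  · show Real.sin (x + y) = Real.cos y * Real.sin x + Real.sin y * Real.cos x
    rw [Real.sin_add]
    ring

/-- Critical directions in the two half planes. -/
theorem exists_dirs {g : Fin 2 → Fin 2 → Fin 2 → ℝ} (hg : Sym g)
    (h0 : ∀ X, det2 (Hm g X) ≤ 0) (h1 : ∃ X, det2 (Hm g X) < 0) :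
    ∃ (e e' : Fin 2 → ℝ) (α α' : ℝ), Dir g e α ∧ Dir g e' α' ∧
      ∀ v ∈ Icc (0 : ℝ) 1, det2 (Hm g fun j => -(1 - v) * e j + v * e' j) < 0 := by
  obtain ⟨x, hx0, hx1, hx2⟩ := exists_frame hg h0 h1
  obtain ⟨y', hy', hp', hc'⟩ := half_max hx2
  have hx3 : 4 * (-tri g (uv x) (uv x) (uv x) * -tri g (uv x) (uw x) (uw x)) <
        3 * (-tri g (uv x) (uv x) (uw x)) ^ 2 := by
    rw [neg_mul_neg, neg_sq]
    exact hx2
  obtain ⟨y, hy, hp, hc⟩ := half_max hx3
  have hcy : 0 < Real.cos y := Real.cos_pos_of_mem_Ioo hy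
  have hcy' : 0 < Real.cos y' := Real.cos_pos_of_mem_Ioo hy'
  have hw' : tri g (uv (x + y')) (uv (x + y')) (uw (x + y')) = 0 := by
    rw [AL3_uvw hg, hx0]
    linarith
  have hw : tri g (uv (x + y)) (uv (x + y)) (uw (x + y)) = 0 := by
    rw [AL3_uvw hg, hx0]
    linarith
  refine ⟨fun j => -uv (x + y) j, uv (x + y'), -tri g (uv (x + y)) (uv (x + y)) (uv (x + y)),
    tri g (uv (x + y')) (uv (x + y')) (uv (x + y')), ⟨?_, ?_, ?_⟩, ⟨AL3_unit _, ?_, ?_⟩, ?_⟩
  · rw [← AL3_unit (x + y)]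
    simp only [dot, neg_mul_neg]
  · rw [AL3_uvv hg, hx0]
    linarith
  · intro j
    have h2 : bil g (fun j => -uv (x + y) j) (fun j => -uv (x + y) j) j =
        bil g (uv (x + y)) (uv (x + y)) j := by
      simp only [bil, neg_mul_neg]
    rw [h2, AL3_eig hg _ hw j, neg_mul_neg]
  · rw [AL3_uvv hg, hx0]
    linarith
  · exact fun j => AL3_eig hg _ hw' j
  · intro v hv
    have h2 : (fun j => -(1 - v) * -uv (x + y) j + v * uv (x + y') j) = fun j =>
        ((1 - v) * Real.cos y + v * Real.cos y') * uv x j +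
        ((1 - v) * Real.sin y + v * Real.sin y') * uw x j := by
      funext j
      rw [AL3_add, AL3_add]
      ring
    rw [h2]
    refine hx1 _ _ (ne_of_gt ?_)
    rcases eq_or_lt_of_le hv.1 with h3 | h3
    · rw [← h3]
      linarith
    · have h4 : 0 ≤ (1 - v) * Real.cos y := mul_nonneg (sub_nonneg.2 hv.2) hcy.le
      have h5 : 0 < v * Real.cos y' := mul_pos h3 hcy'
      linarith

end Pool.Agent.KG
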