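import Pool.Agent.Lib.KG.AL2

/-!
# Row AL4: cubes
-/

set_option autoImplicit false

namespace Pool.Agent.KG

open Set

/-! ## Row AL4: cubes -/

/-- The product of three components of a multiple of a vector. -/
private theorem AL4_prod (p N : ℝ) (hp : p ≠ 0) (hN : 0 < N) (a b c : ℝ) :
    p * (a * b * c) = |p| * N ^ 3 * (p / |p| / N * a * (p / |p| / N * b) * (p / |p| / N * c)) := by
  have h1 : |p| ≠ 0 := abs_ne_zero.2 hp
  have h2 : p ^ 2 = |p| ^ 2 := (sq_abs p).symm
  have h3 : N ≠ 0 := hN.ne'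
  field_simp
  rw [h2]
  ring

theorem exists_cube {g : Fin 2 → Fin 2 → Fin 2 → ℝ} (hg : Sym g)
    (h0 : ∀ X, det2 (Hm g X) = 0) (h1 : ∃ j k l, g j k l ≠ 0) :
    ∃ (e : Fin 2 → ℝ) (α : ℝ), Cube g e α := by
  obtain ⟨p, hp⟩ : ∃ p, p = g 0 0 0 := ⟨_, rfl⟩
  obtain ⟨q, hq⟩ : ∃ q, q = g 0 0 1 := ⟨_, rfl⟩
  obtain ⟨r, hr⟩ : ∃ r, r = g 0 1 1 := ⟨_, rfl⟩
  obtain ⟨s, hs⟩ : ∃ s, s = g 1 1 1 := ⟨_, rfl⟩
  have e010 : g 0 1 0 = q := by rw [hq, hg.g23]
  have e100 : g 1 0 0 = q := by rw [hg.g12, e010]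
  have e101 : g 1 0 1 = r := by rw [hg.g12, hr]
  have e110 : g 1 1 0 = r := by rw [hg.g23, e101]
  have hdet : ∀ x y : ℝ, (p * x + q * y) * (r * x + s * y) - (q * x + r * y) * (q * x + r * y) = 0 := by
    intro x y
    have h2 := h0 ![x, y]
    simp only [det2, Hm, Fin.sum_univ_two, Matrix.cons_val_zero, Matrix.cons_val_one, ← hp, ← hq,
      ← hr, ← hs, e010, e100, e101, e110] at h2
    linarith
  have hA : p * r = q * q := by have := hdet 1 0; linarith
  have hC : q * s = r * r := by have := hdet 0 1; linarith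
  have hB : p * s = q * r := by have := hdet 1 1; linarith
  by_cases hp0 : p = 0
  · have hq0 : q = 0 := by
      have h2 : q * q = 0 := by rw [← hA, hp0, zero_mul]
      exact mul_self_eq_zero.1 h2
    have hr0 : r = 0 := by
      have h2 : r * r = 0 := by rw [← hC, hq0, zero_mul]
      exact mul_self_eq_zero.1 h2
    have hs0 : s ≠ 0 := by
      intro hs0
      obtain ⟨j, k, l, hjkl⟩ := h1
      refine hjkl ?_
      fin_cases j <;> fin_cases k <;> fin_cases l <;>
        simp [← hp, ← hq, ← hr, ← hs, e010, e100, e101, e110, hp0, hq0, hr0, hs0]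
    have hsa : 0 < |s| := abs_pos.2 hs0
    have hsq : s / |s| * (s / |s|) = 1 := by
      rw [div_mul_div_comm, abs_mul_abs_self, div_self (mul_ne_zero hs0 hs0)]
    refine ⟨![0, s / |s|], |s|, ?_, hsa, ?_⟩
    · simp only [dot, Fin.sum_univ_two, Matrix.cons_val_zero, Matrix.cons_val_one, mul_zero, zero_add]
      exact hsq
    · intro j k l
      have hs3 : s = |s| * (s / |s| * (s / |s|) * (s / |s|)) := by
        rw [hsq, one_mul, mul_div_cancel₀ _ hsa.ne']
      fin_cases j <;> fin_cases k <;> fin_cases l <;>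
        simp [← hp, ← hq, ← hr, ← hs, e010, e100, e101, e110, hp0, hq0, hr0]
      simpa using hs3
  · obtain ⟨t, ht⟩ : ∃ t, t = q / p := ⟨_, rfl⟩
    have hq' : q = p * t := by rw [ht, mul_div_cancel₀ _ hp0]
    have hr' : r = p * (t * t) := by
      have h2 : p * r = p * (p * (t * t)) := by rw [hA, hq']; ring
      exact mul_left_cancel₀ hp0 h2
    have hs' : s = p * (t * t * t) := by
      have h2 : p * s = p * (p * (t * t * t)) := by rw [hB, hq', hr']; ring
      exact mul_left_cancel₀ hp0 h2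
    obtain ⟨N, hN⟩ : ∃ N, N = Real.sqrt (1 + t * t) := ⟨_, rfl⟩
    have ht2 : 0 < 1 + t * t := by nlinarith [mul_self_nonneg t]
    have hN0 : 0 < N := by rw [hN]; exact Real.sqrt_pos.2 ht2
    have hN2 : N * N = 1 + t * t := by rw [hN]; exact Real.mul_self_sqrt ht2.le
    have hpa : 0 < |p| := abs_pos.2 hp0
    have hsq : p / |p| * (p / |p|) = 1 := by
      rw [div_mul_div_comm, abs_mul_abs_self, div_self (mul_ne_zero hp0 hp0)]
    have key := AL4_prod p N hp0 hN0
    refine ⟨fun j => p / |p| / N * (![1, t] : Fin 2 → ℝ) j, |p| * N ^ 3, ?_, by positivity, ?_⟩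
    · simp only [dot, Fin.sum_univ_two, Matrix.cons_val_zero, Matrix.cons_val_one, mul_one]
      have h2 : p / |p| / N * (p / |p| / N) + p / |p| / N * t * (p / |p| / N * t)
          = p / |p| * (p / |p|) * ((1 + t * t) / (N * N)) := by
        field_simp
      rw [h2, hsq, hN2, div_self ht2.ne', one_mul]
    · intro j k l
      have h3 : g j k l = p * ((![1, t] : Fin 2 → ℝ) j * (![1, t] : Fin 2 → ℝ) k *
          (![1, t] : Fin 2 → ℝ) l) := by
        fin_cases j <;> fin_cases k <;> fin_cases l <;>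
          simp [← hp, ← hq, ← hr, ← hs, e010, e100, e101, e110] <;>
          first
            | exact hq'
            | exact hr'
            | exact hs'
      rw [h3, key]

end Pool.Agent.KG
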