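import Pool.Agent.Lib.KG.Defs

/-!
# Binary cubic forms: definitions
-/

set_option autoImplicit false

namespace Pool.Agent.KG

open Set

variable {n : ℕ}

/-- The bilinear map `T(X, Y)`. -/
def bil (g : Fin n → Fin n → Fin n → ℝ) (X Y : Fin n → ℝ) (j : Fin n) : ℝ :=
  ∑ k, ∑ l, g j k l * (X k * Y l)

/-- Matrix times vector. -/
def mv (M : Fin n → Fin n → ℝ) (X : Fin n → ℝ) (j : Fin n) : ℝ := ∑ k, M j k * X k

/-- The scalar product. -/
def dot (X Y : Fin n → ℝ) : ℝ := ∑ j, X j * Y j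

/-- The quadratic form of a matrix. -/
def qd (M : Fin n → Fin n → ℝ) (ξ : Fin n → ℝ) : ℝ := ∑ j, ∑ k, M j k * ξ j * ξ k

/-- The determinant. -/
def det2 (M : Fin 2 → Fin 2 → ℝ) : ℝ := M 0 0 * M 1 1 - M 0 1 * M 1 0

/-- The symmetry of the coefficients. -/
structure Sym (g : Fin n → Fin n → Fin n → ℝ) : Prop where
  g12 : ∀ j k l, g j k l = g k j l
  g23 : ∀ j k l, g j k l = g j l k

theorem Pr.sym (p : Pr n) : Sym p.g := ⟨p.g12, p.g23⟩

/-- A unit vector `e` with `T(e, e) = α e`, `α > 0`. -/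
structure Dir (g : Fin n → Fin n → Fin n → ℝ) (e : Fin n → ℝ) (α : ℝ) : Prop where
  unit : dot e e = 1
  pos : 0 < α
  eig : ∀ j, bil g e e j = α * e j

/-- A cube: `F(X) = α (e·X)³ / 6`. -/
structure Cube (g : Fin 2 → Fin 2 → Fin 2 → ℝ) (e : Fin 2 → ℝ) (α : ℝ) : Prop where
  unit : dot e e = 1
  pos : 0 < α
  eq : ∀ j k l, g j k l = α * (e j * e k * e l)

/-- The trilinear form. -/
def tri (g : Fin 2 → Fin 2 → Fin 2 → ℝ) (X Y Z : Fin 2 → ℝ) : ℝ :=
  ∑ j, ∑ k, ∑ l, g j k l * (X j * Y k * Z l)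

/-- The unit vector of angle `x`, and the orthogonal one. -/
noncomputable def uv (x : ℝ) : Fin 2 → ℝ := ![Real.cos x, Real.sin x]

/-- The orthogonal unit vector. -/
noncomputable def uw (x : ℝ) : Fin 2 → ℝ := ![-Real.sin x, Real.cos x]

end Pool.Agent.KG
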