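import Pool.Agent.Lib.KG.UpD

/-!
# Row D4: elementary facts about the cut-offs
-/

set_option autoImplicit false
set_option linter.unusedVariables false

namespace Pool.Agent.KG

open MeasureTheory Filter Topology Set
open Pool.Agent.Kdv
open scoped ENNReal ContDiff InnerProductSpace

variable {n : ℕ}

theorem D4_st_nonneg (x : ℝ) : 0 ≤ st x := Real.smoothTransition.nonneg x

theorem D4_st_le (x : ℝ) : st x ≤ 1 := Real.smoothTransition.le_one x

theorem D4_st_one {x : ℝ} (h : 1 ≤ x) : st x = 1 := Real.smoothTransition.one_of_one_le h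

theorem D4_st_zero {x : ℝ} (h : x ≤ 0) : st x = 0 := Real.smoothTransition.zero_of_nonpos h

theorem D4_prod (x y : ℝ) : 0 ≤ st x * st y ∧ st x * st y ≤ 1 :=
  ⟨mul_nonneg (D4_st_nonneg x) (D4_st_nonneg y),
    mul_le_one₀ (D4_st_le x) (D4_st_nonneg y) (D4_st_le y)⟩

theorem th_facts {L : ℝ} (hL : 0 < L) : (∀ x, 0 ≤ th L x ∧ th L x ≤ 1) ∧
    (∀ x ∈ Icc (-1 / 2) (L + 1 / 2), th L x = 1) ∧
    (∀ x, x ∉ Ioo (-3 / 4) (L + 3 / 4) → th L x = 0 ∧ deriv (th L) x = 0) ∧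
    (∀ x ∈ Ioo (-1 / 2) (L + 1 / 2), deriv (th L) x = 0) := by
  have h01 : ∀ x, 0 ≤ th L x ∧ th L x ≤ 1 := fun x => D4_prod _ _
  have h1 : ∀ x ∈ Icc (-1 / 2) (L + 1 / 2), th L x = 1 := by
    intro x hx
    unfold th
    rw [D4_st_one (by linarith [hx.1]), D4_st_one (by linarith [hx.2]), one_mul]
  refine ⟨h01, h1, ?_, ?_⟩
  · intro x hx
    have h0 : th L x = 0 := by
      unfold th
      by_cases h : -3 / 4 < x
      · have h2 : L + 3 / 4 ≤ x := by
          by_contra h2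
          exact hx ⟨h, not_le.mp h2⟩
        rw [D4_st_zero (x := 4 * (L - x) + 3) (by linarith), mul_zero]
      · rw [D4_st_zero (x := 4 * x + 3) (by linarith [not_lt.mp h]), zero_mul]
    refine ⟨h0, ?_⟩
    have hm : IsLocalMin (th L) x := Filter.Eventually.of_forall fun y => by
      rw [h0]; exact (h01 y).1
    exact hm.deriv_eq_zero
  · intro x hx
    have hm : IsLocalMax (th L) x := Filter.Eventually.of_forall fun y => by
      rw [h1 x ⟨hx.1.le, hx.2.le⟩]; exact (h01 y).2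
    exact hm.deriv_eq_zero

theorem damp_facts {L : ℝ} (hL : 0 < L) : (∀ x, 0 ≤ damp L x ∧ damp L x ≤ 1) ∧
    (∀ x ∈ Icc 0 L, damp L x = 0) ∧
    (∀ x, x ∉ Ioo (-1 / 4) (L + 1 / 4) → damp L x = 1) ∧
    (∀ x, x ∉ Icc (-1 / 4) (L + 1 / 4) → deriv (damp L) x = 0) := by
  have h01 : ∀ x, 0 ≤ damp L x ∧ damp L x ≤ 1 := by
    intro x
    have h := D4_prod (4 * x + 1) (4 * (L - x) + 1)
    unfold damp
    exact ⟨by linarith [h.2], by linarith [h.1]⟩
  have h1 : ∀ x, x ∉ Ioo (-1 / 4) (L + 1 / 4) → damp L x = 1 := by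
    intro x hx
    unfold damp
    by_cases h : -1 / 4 < x
    · have h2 : L + 1 / 4 ≤ x := by
        by_contra h2
        exact hx ⟨h, not_le.mp h2⟩
      rw [D4_st_zero (x := 4 * (L - x) + 1) (by linarith), mul_zero, sub_zero]
    · rw [D4_st_zero (x := 4 * x + 1) (by linarith [not_lt.mp h]), zero_mul, sub_zero]
  refine ⟨h01, ?_, h1, ?_⟩
  · intro x hx
    unfold damp
    rw [D4_st_one (by linarith [hx.1]), D4_st_one (by linarith [hx.2]), one_mul, sub_self]
  · intro x hx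
    have hm : IsLocalMax (damp L) x := Filter.Eventually.of_forall fun y => by
      rw [h1 x (fun h => hx ⟨h.1.le, h.2.le⟩)]; exact (h01 y).2
    exact hm.deriv_eq_zero

theorem bb_facts' {L : ℝ} (hL : 0 < L) : (∀ x, 0 ≤ bb L x ∧ bb L x ≤ 1) ∧
    (∀ x ∈ Icc (-3) (L + 3), bb L x = 1) ∧
    (∀ x, x ∉ Ioo (-4) (L + 4) → bb L x = 0) ∧
    (∀ x ∈ Ioo (-3) (L + 3), deriv (bb L) x = 0 ∧ iteratedDeriv 2 (bb L) x = 0) := by
  have h01 : ∀ x, 0 ≤ bb L x ∧ bb L x ≤ 1 := fun x => D4_prod _ _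
  have h1 : ∀ x ∈ Icc (-3) (L + 3), bb L x = 1 := by
    intro x hx
    unfold bb
    rw [D4_st_one (by linarith [hx.1]), D4_st_one (by linarith [hx.2]), one_mul]
  refine ⟨h01, h1, ?_, ?_⟩
  · intro x hx
    unfold bb
    by_cases h : -4 < x
    · have h2 : L + 4 ≤ x := by
        by_contra h2
        exact hx ⟨h, not_le.mp h2⟩
      rw [D4_st_zero (x := L + 4 - x) (by linarith), mul_zero]
    · rw [D4_st_zero (x := x + 4) (by linarith [not_lt.mp h]), zero_mul]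
  · intro x hx
    have he : bb L =ᶠ[𝓝 x] fun _ => (1 : ℝ) := by
      filter_upwards [Ioo_mem_nhds hx.1 hx.2] with y hy
      exact h1 y ⟨hy.1.le, hy.2.le⟩
    constructor
    · rw [he.deriv_eq]; simp
    · rw [he.iteratedDeriv_eq 2, iteratedDeriv_const]; simp

end Pool.Agent.KG
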