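import Pool.Agent.Lib.KG.UpD

/-!
# Row U1
-/

set_option autoImplicit false

namespace Pool.Agent.KG

open MeasureTheory Filter Topology Set
open Pool.Agent.Kdv
open scoped ENNReal ContDiff InnerProductSpace

variable {n : ℕ}

lemma U1_bb_cont (L : ℝ) : Continuous (bb L) := by
  unfold bb st
  exact (Real.smoothTransition.continuous.comp (by fun_prop)).mul
    (Real.smoothTransition.continuous.comp (by fun_prop))

lemma U1_bb_nonneg (L x : ℝ) : 0 ≤ bb L x :=
  mul_nonneg (Real.smoothTransition.nonneg _) (Real.smoothTransition.nonneg _)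

lemma U1_bb_le_one (L x : ℝ) : bb L x ≤ 1 :=
  mul_le_one₀ (Real.smoothTransition.le_one _) (Real.smoothTransition.nonneg _)
    (Real.smoothTransition.le_one _)

lemma U1_bb_left {L x : ℝ} (h : x ≤ -4) : bb L x = 0 := by
  unfold bb st
  rw [Real.smoothTransition.zero_of_nonpos (by linarith), zero_mul]

lemma U1_bb_right {L x : ℝ} (h : L + 4 ≤ x) : bb L x = 0 := by
  unfold bb st
  rw [Real.smoothTransition.zero_of_nonpos (x := L + 4 - x) (by linarith), mul_zero]

lemma U1_bb_one {L x : ℝ} (h1 : -3 ≤ x) (h2 : x ≤ L + 3) : bb L x = 1 := by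
  unfold bb st
  rw [Real.smoothTransition.one_of_one_le (by linarith),
    Real.smoothTransition.one_of_one_le (by linarith), one_mul]

lemma U1_int_bb (L a b : ℝ) : IntervalIntegrable (bb L) volume a b :=
  (U1_bb_cont L).intervalIntegrable a b

lemma U1_int_bb_nonneg {L a b : ℝ} (h : a ≤ b) : 0 ≤ ∫ s in a..b, bb L s :=
  intervalIntegral.integral_nonneg h fun x _ => U1_bb_nonneg L x

lemma U1_int_bb_le {L a b : ℝ} (h : a ≤ b) : (∫ s in a..b, bb L s) ≤ b - a := by
  have h1 : (∫ s in a..b, bb L s) ≤ ∫ _s in a..b, (1 : ℝ) :=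
    intervalIntegral.integral_mono_on h (U1_int_bb L a b) (by simp) fun x _ => U1_bb_le_one L x
  simpa using h1

lemma U1_wt_cont (L c : ℝ) : Continuous (wt L c) := by
  unfold wt
  exact continuous_const.add (intervalIntegral.continuous_primitive (fun a b => U1_int_bb L a b) 0)

lemma U1_wt_bd {L : ℝ} (hL : 0 < L) (c x : ℝ) : c - 4 ≤ wt L c x ∧ wt L c x ≤ c + (L + 4) := by
  have hz1 : ∀ y, y ≤ -4 → (∫ s in y..(-4 : ℝ), bb L s) = 0 := by
    intro y hy
    have h : (∫ s in y..(-4 : ℝ), bb L s) = ∫ _s in y..(-4 : ℝ), (0 : ℝ) := by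
      refine intervalIntegral.integral_congr fun s hs => ?_
      rw [uIcc_of_le hy] at hs
      exact U1_bb_left hs.2
    rw [h]
    simp
  have hz2 : ∀ y, L + 4 ≤ y → (∫ s in (L + 4)..y, bb L s) = 0 := by
    intro y hy
    have h : (∫ s in (L + 4)..y, bb L s) = ∫ _s in (L + 4)..y, (0 : ℝ) := by
      refine intervalIntegral.integral_congr fun s hs => ?_
      rw [uIcc_of_le hy] at hs
      exact U1_bb_right hs.1
    rw [h]
    simp
  unfold wt
  constructor
  · rcases le_total 0 x with h | h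
    · have := U1_int_bb_nonneg (L := L) h
      linarith
    · rcases le_total (-4) x with h4 | h4
      · have h1 := U1_int_bb_le (L := L) h
        rw [intervalIntegral.integral_symm]
        linarith
      · have h1 := intervalIntegral.integral_add_adjacent_intervals (U1_int_bb L x (-4))
          (U1_int_bb L (-4) 0)
        have h2 := U1_int_bb_le (L := L) (show (-4 : ℝ) ≤ 0 by norm_num)
        rw [hz1 x h4] at h1
        rw [intervalIntegral.integral_symm]
        linarith
  · rcases le_total 0 x with h | h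
    · rcases le_total x (L + 4) with h4 | h4
      · have h1 := U1_int_bb_le (L := L) h
        linarith
      · have h1 := intervalIntegral.integral_add_adjacent_intervals (U1_int_bb L 0 (L + 4))
          (U1_int_bb L (L + 4) x)
        have h2 := U1_int_bb_le (L := L) (show (0 : ℝ) ≤ L + 4 by linarith)
        rw [hz2 x h4] at h1
        linarith
    · have h1 := U1_int_bb_nonneg (L := L) h
      rw [intervalIntegral.integral_symm]
      linarith

theorem wt_bounds {L : ℝ} (hL : 0 < L) {c : ℝ} (hc : 2 * (L + 4) ≤ c) (x : ℝ) :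
    c / 2 ≤ wt L c x ∧ wt L c x ≤ 2 * c := by
  have h := U1_wt_bd hL c x
  exact ⟨by linarith [h.1], by linarith [h.2]⟩

theorem wt_J {L : ℝ} (hL : 0 < L) {c x : ℝ} (hx : x ∈ Icc (-3) (L + 3)) : wt L c x = x + c := by
  unfold wt
  have h : (∫ s in (0 : ℝ)..x, bb L s) = ∫ _s in (0 : ℝ)..x, (1 : ℝ) := by
    refine intervalIntegral.integral_congr fun s hs => ?_
    have h0 : (0 : ℝ) ∈ Icc (-3) (L + 3) := ⟨by norm_num, by linarith⟩
    have h1 : s ∈ Icc (-3) (L + 3) := (uIcc_subset_Icc h0 hx) hs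
    exact U1_bb_one h1.1 h1.2
  rw [h, intervalIntegral.integral_const]
  simp [add_comm]

lemma U1_th_cont (L : ℝ) : Continuous (th L) := by
  unfold th st
  exact (Real.smoothTransition.continuous.comp (by fun_prop)).mul
    (Real.smoothTransition.continuous.comp (by fun_prop))

lemma U1_th_out {L x : ℝ} (hx : x ∉ Icc (-3 / 4) (L + 3 / 4)) : th L x = 0 := by
  unfold th st
  by_cases h1 : 4 * x + 3 ≤ 0
  · rw [Real.smoothTransition.zero_of_nonpos h1, zero_mul]
  · have h2 : 4 * (L - x) + 3 ≤ 0 := by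
      by_contra h3
      exact hx ⟨by linarith, by linarith⟩
    rw [Real.smoothTransition.zero_of_nonpos h2, mul_zero]

lemma U1_damp_cont (L : ℝ) : Continuous (damp L) := by
  unfold damp st
  exact continuous_const.sub ((Real.smoothTransition.continuous.comp (by fun_prop)).mul
    (Real.smoothTransition.continuous.comp (by fun_prop)))

lemma U1_damp_bd (L x : ℝ) : 0 ≤ damp L x ∧ damp L x ≤ 1 := by
  unfold damp st
  have h1 : Real.smoothTransition (4 * x + 1) * Real.smoothTransition (4 * (L - x) + 1) ≤ 1 :=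
    mul_le_one₀ (Real.smoothTransition.le_one _) (Real.smoothTransition.nonneg _)
      (Real.smoothTransition.le_one _)
  have h2 : 0 ≤ Real.smoothTransition (4 * x + 1) * Real.smoothTransition (4 * (L - x) + 1) :=
    mul_nonneg (Real.smoothTransition.nonneg _) (Real.smoothTransition.nonneg _)
  exact ⟨by linarith, by linarith⟩

lemma U1_int_L2 (f g : L2) : Integrable (fun x => f x * g x) volume :=
  (Lp.memLp f).integrable_mul (Lp.memLp g)

/-- The damping term. -/
lemma U1_damp_le {L c : ℝ} (hL : 0 < L) (hc : 2 * (L + 4) ≤ c) (z : HH n) :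
    c * Dw L z ≤ 2 * inner ℝ (mulH (damp L) z) (mulH (wt L c) z) := by
  have hdm : Measurable (damp L) := (U1_damp_cont L).measurable
  have hdb : ∃ C, ∀ x, |damp L x| ≤ C :=
    ⟨1, fun x => by rw [abs_of_nonneg (U1_damp_bd L x).1]; exact (U1_damp_bd L x).2⟩
  have hwm : Measurable (wt L c) := (U1_wt_cont L c).measurable
  have hwb : ∃ C, ∀ x, |wt L c x| ≤ C := ⟨2 * c, fun x => by
    rw [abs_of_nonneg (by linarith [(wt_bounds hL hc x).1])]
    exact (wt_bounds hL hc x).2⟩
  have key : ∀ j, c * inner ℝ (mulOp (damp L) (z j)) (z j) ≤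
      2 * inner ℝ (mulOp (damp L) (z j)) (mulOp (wt L c) (z j)) := by
    intro j
    rw [Skw.inner_eq, Skw.inner_eq, ← integral_const_mul, ← integral_const_mul]
    refine integral_mono_ae ((U1_int_L2 _ _).const_mul c) ((U1_int_L2 _ _).const_mul 2) ?_
    filter_upwards [mulOp_ae hdm hdb (z j), mulOp_ae hwm hwb (z j)] with x h1 h2
    rw [h1, h2]
    have h3 := (wt_bounds hL hc x).1
    have h4 : 0 ≤ damp L x * (z j x * z j x) := mul_nonneg (U1_damp_bd L x).1 (mul_self_nonneg _)
    have h5 : 0 ≤ (2 * wt L c x - c) * (damp L x * (z j x * z j x)) :=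
      mul_nonneg (by linarith) h4
    nlinarith
  unfold Dw
  rw [PiLp.inner_apply, PiLp.inner_apply, Finset.mul_sum, Finset.mul_sum]
  exact Finset.sum_le_sum fun j _ => key j

/-- Continuity of a bilinear integral with a moving coefficient. -/
lemma U1_cont_bilin {τ : ℝ} {m : ℝ → ℝ → ℝ} (hm : Continuous fun q : ℝ × ℝ => m q.1 q.2)
    {K : Set ℝ} (hK : IsCompact K) (h0 : ∀ r, ∀ x, x ∉ K → m r x = 0) {u v : ℝ → L2}
    (hu : ContinuousOn u (Icc 0 τ)) (hv : ContinuousOn v (Icc 0 τ)) :
    ContinuousOn (fun r => ∫ x, m r x * u r x * v r x) (Icc 0 τ) := by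
  have hmm : ∀ r, Measurable (m r) := fun r =>
    (hm.comp (continuous_const.prodMk continuous_id)).measurable
  have hmb : ∀ r, ∃ C, ∀ x, |m r x| ≤ C := by
    intro r
    obtain ⟨C, hC⟩ := hK.exists_bound_of_continuousOn (f := m r)
      (hm.comp (continuous_const.prodMk continuous_id)).continuousOn
    refine ⟨max C 0, fun x => ?_⟩
    by_cases hx : x ∈ K
    · exact (hC x hx).trans (le_max_left _ _)
    · rw [h0 r x hx, abs_zero]
      exact le_max_right _ _
  have hM : Continuous fun r => mulOp (m r) := by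
    rw [continuous_iff_continuousAt]
    intro r0
    rw [Metric.continuousAt_iff']
    intro ε hε
    have hunif := hK.mem_uniformity_of_prod (f := m) (s := univ) (q := r0)
      (u := {q : ℝ × ℝ | dist q.1 q.2 < ε / 2}) hm.continuousOn (mem_univ r0)
      (Metric.dist_mem_uniformity (half_pos hε))
    obtain ⟨w, hw, hw2⟩ := hunif
    rw [nhdsWithin_univ] at hw
    filter_upwards [hw] with r hr
    have hop : ‖mulOp (m r) - mulOp (m r0)‖ ≤ ε / 2 := by
      refine ContinuousLinearMap.opNorm_le_bound _ (half_pos hε).le fun f => ?_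
      refine Lp.norm_le_mul_norm_of_ae_le_mul ?_
      have e1 : (mulOp (m r) - mulOp (m r0)) f = mulOp (m r) f - mulOp (m r0) f := rfl
      rw [e1]
      filter_upwards [Lp.coeFn_sub (mulOp (m r) f) (mulOp (m r0) f),
        mulOp_ae (hmm r) (hmb r) f, mulOp_ae (hmm r0) (hmb r0) f] with x h1 h2 h3
      rw [h1, Pi.sub_apply, h2, h3, ← sub_mul, norm_mul]
      refine mul_le_mul_of_nonneg_right ?_ (norm_nonneg _)
      by_cases hx : x ∈ K
      · have h4 : dist (m r x) (m r0 x) < ε / 2 := hw2 r hr x hx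
        rw [Real.dist_eq] at h4
        exact h4.le
      · rw [h0 r x hx, h0 r0 x hx, sub_zero, norm_zero]
        exact (half_pos hε).le
    rw [dist_eq_norm]
    linarith
  have h1 : ContinuousOn (fun r => inner ℝ (mulOp (m r) (u r)) (v r)) (Icc 0 τ) :=
    (hM.continuousOn.clm_apply hu).inner hv
  refine h1.congr fun r _ => ?_
  change (∫ x, m r x * u r x * v r x) = inner ℝ (mulOp (m r) (u r)) (v r)
  rw [Skw.inner_eq]
  refine integral_congr_ae ?_
  filter_upwards [mulOp_ae (hmm r) (hmb r) (u r)] with x hx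
  rw [hx]

lemma U1_Hm_cont (g : Fin n → Fin n → Fin n → ℝ) {w : ℝ → ℝ → Fin n → ℝ}
    (hw : ∀ j, Continuous fun q : ℝ × ℝ => w q.1 q.2 j) (j k : Fin n) :
    Continuous fun q : ℝ × ℝ => Hm g (w q.1 q.2) j k := by
  unfold Hm
  exact continuous_finsetSum _ fun l _ => continuous_const.mul (hw l)

/-- The integrands are integrable. -/
theorem wd_int (p : Pr n) {τ : ℝ} (hτ : 0 ≤ τ) {B : Bk p τ} {D : ℝ → ℝ} {z0 : HH n}
    {f : ℝ → HH n} {v : ℝ → VV n p.L} (h : Run p B D z0 f v) (hD : ContinuousOn D (Icc 0 τ))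
    (c : ℝ) :
    ContinuousOn (fun r => p.sm.traj z0 f r) (Icc 0 τ) ∧
    IntegrableOn (fun r => Vx (v r)) (Ioc 0 τ) ∧
    ContinuousOn (fun r => Dw p.L (p.sm.traj z0 f r)) (Icc 0 τ) ∧
    ContinuousOn (fun r => trt p c (B.w r) (B.wx r) (p.sm.traj z0 f r)) (Icc 0 τ) ∧
    IntegrableOn (fun r => inner ℝ (B.r r) (mulH (wt p.L c) (p.sm.traj z0 f r))) (Ioc 0 τ) := by
  have hz : ContinuousOn (fun r => p.sm.traj z0 f r) (Icc 0 τ) :=
    p.sm.traj_cont z0 hτ h.path.int
  have hzj : ∀ j, ContinuousOn (fun r => p.sm.traj z0 f r j) (Icc 0 τ) := fun j =>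
    (prH j).continuous.comp_continuousOn hz
  refine ⟨hz, ?_, ?_, ?_, ?_⟩
  · have h1 := (wbal_int p c 0 0 hτ h hD).2
    rwa [intervalIntegrable_iff_integrableOn_Ioc_of_le hτ] at h1
  · exact ((mulH (damp p.L)).continuous.comp_continuousOn hz).inner hz
  · set m : Fin n → Fin n → ℝ → ℝ → ℝ := fun j k r x =>
      th p.L x * (Hm p.g (B.w r x) j k - wt p.L c x * Hm p.g (B.wx r x) j k) with hm
    have hmc : ∀ j k, Continuous fun q : ℝ × ℝ => m j k q.1 q.2 := by
      intro j k
      exact ((U1_th_cont p.L).comp continuous_snd).mul ((U1_Hm_cont p.g B.cw j k).sub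
        (((U1_wt_cont p.L c).comp continuous_snd).mul (U1_Hm_cont p.g B.cwx j k)))
    have hm0 : ∀ j k r x, x ∉ Icc (-3 / 4) (p.L + 3 / 4) → m j k r x = 0 := by
      intro j k r x hx
      simp only [hm]
      rw [U1_th_out hx, zero_mul]
    have hint : ∀ j k r, Integrable (fun x => m j k r x * p.sm.traj z0 f r j x *
        p.sm.traj z0 f r k x) volume := by
      intro j k r
      have hmm : Measurable (m j k r) :=
        ((hmc j k).comp (continuous_const.prodMk continuous_id)).measurable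
      have hmb : ∃ C, ∀ x, |m j k r x| ≤ C := by
        obtain ⟨C, hC⟩ := (isCompact_Icc (a := (-3 / 4 : ℝ)) (b := p.L + 3 / 4)
          ).exists_bound_of_continuousOn (f := m j k r)
          ((hmc j k).comp (continuous_const.prodMk continuous_id)).continuousOn
        refine ⟨max C 0, fun x => ?_⟩
        by_cases hx : x ∈ Icc (-3 / 4) (p.L + 3 / 4)
        · exact (hC x hx).trans (le_max_left _ _)
        · rw [hm0 j k r x hx, abs_zero]
          exact le_max_right _ _
      refine (U1_int_L2 (mulOp (m j k r) (p.sm.traj z0 f r j)) (p.sm.traj z0 f r k)).congr ?_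
      filter_upwards [mulOp_ae hmm hmb (p.sm.traj z0 f r j)] with x hx
      rw [hx]
    have h1 : ContinuousOn (fun r => ∑ j, ∑ k, ∫ x, m j k r x * p.sm.traj z0 f r j x *
        p.sm.traj z0 f r k x) (Icc 0 τ) :=
      continuousOn_finsetSum _ fun j _ => continuousOn_finsetSum _ fun k _ =>
        U1_cont_bilin (hmc j k) isCompact_Icc (hm0 j k) (hzj j) (hzj k)
    refine h1.congr fun r _ => ?_
    change trt p c (B.w r) (B.wx r) (p.sm.traj z0 f r) = _
    unfold trt
    have h2 : ∀ x, th p.L x * ∑ j, ∑ k, (Hm p.g (B.w r x) j k -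
        wt p.L c x * Hm p.g (B.wx r x) j k) * p.sm.traj z0 f r j x * p.sm.traj z0 f r k x =
        ∑ j, ∑ k, m j k r x * p.sm.traj z0 f r j x * p.sm.traj z0 f r k x := by
      intro x
      simp only [hm, Finset.mul_sum]
      refine Finset.sum_congr rfl fun j _ => Finset.sum_congr rfl fun k _ => ?_
      ring
    simp only [h2]
    rw [integral_finsetSum _ fun j _ => integrable_finsetSum _ fun k _ => hint j k r]
    refine Finset.sum_congr rfl fun j _ => ?_
    rw [integral_finsetSum _ fun k _ => hint j k r]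
  · exact inner_int hτ B.hr ((mulH (wt p.L c)).continuous.comp_continuousOn hz)

/-- The weighted inequality for the perturbation of any background. The constants do not depend on
the weight. -/
theorem wd (p : Pr n) : ∃ (m C : ℝ), 0 < m ∧ 0 ≤ C ∧ ∀ c : ℝ, 2 * (p.L + 4) ≤ c → ∀ (τ : ℝ)
    (B : Bk p τ) (D : ℝ → ℝ) (z0 : HH n) (f : ℝ → HH n) (v : ℝ → VV n p.L), 0 < τ →
    ContinuousOn D (Icc 0 τ) → (∀ t ∈ Icc 0 τ, 0 ≤ D t) → Run p B D z0 f v →
    ∀ s t : ℝ, 0 ≤ s → s ≤ t → t ≤ τ →
      wn p.L c (p.sm.traj z0 f t) + (∫ r in s..t, (m * Vx (v r) +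
          D r * c * Dw p.L (p.sm.traj z0 f r))) ≤
        wn p.L c (p.sm.traj z0 f s) + ∫ r in s..t,
          (C * (‖p.sm.traj z0 f r‖ ^ 2 + ‖p.sm.traj z0 f r‖ ^ (10 / 3 : ℝ)) +
            trt p c (B.w r) (B.wx r) (p.sm.traj z0 f r) +
            2 * |inner ℝ (B.r r) (mulH (wt p.L c) (p.sm.traj z0 f r))|) := by
  obtain ⟨C, m, hC, hm, H⟩ := wbal p
  refine ⟨m, C, hm, hC.le, ?_⟩
  intro c hc τ B D z0 f v hτ hD hD0 h s t hs hst ht
  have h1 := H c hc τ B D z0 f v h hD s t hs hst ht
  obtain ⟨cz, iV, cD, cT, iR⟩ := wd_int p hτ.le h hD c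
  have hci : ∀ {g : ℝ → ℝ}, ContinuousOn g (Icc 0 τ) → IntegrableOn g (Ioc 0 τ) := fun {g} hg =>
    (hg.integrableOn_Icc).mono_set Ioc_subset_Icc_self
  have i1 : IntervalIntegrable (fun r => m * Vx (v r) + D r * c * Dw p.L (p.sm.traj z0 f r))
      volume s t := by
    refine ii_of ?_ hs hst ht
    exact (iV.const_mul m).add (hci ((hD.mul continuousOn_const).mul cD))
  have i2 : IntervalIntegrable (fun r =>
      C * (‖p.sm.traj z0 f r‖ ^ 2 + ‖p.sm.traj z0 f r‖ ^ (10 / 3 : ℝ)) +
        trt p c (B.w r) (B.wx r) (p.sm.traj z0 f r) +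
        2 * |inner ℝ (B.r r) (mulH (wt p.L c) (p.sm.traj z0 f r))|) volume s t := by
    refine ii_of ?_ hs hst ht
    refine ((hci ?_).add (hci cT)).add (iR.abs.const_mul 2)
    exact continuousOn_const.mul ((cz.norm.pow 2).add
      (cz.norm.rpow_const fun x _ => Or.inr (by norm_num)))
  have i0 := (wbal_int p c C m hτ.le h hD).1
  rw [intervalIntegrable_iff_integrableOn_Ioc_of_le hτ.le] at i0
  have i0' := ii_of i0 hs hst ht
  have h2 := intervalIntegral.integral_mono_on hst i0' (i2.sub i1) (fun r hr => by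
    have hr' : r ∈ Icc 0 τ := ⟨hs.trans hr.1, hr.2.trans ht⟩
    have hDr := hD0 r hr'
    set z := p.sm.traj z0 f r with hz
    have e1 : ‖z‖ ^ 2 * (1 + ‖z‖ ^ (4 / 3 : ℝ)) = ‖z‖ ^ 2 + ‖z‖ ^ (10 / 3 : ℝ) := by
      have e2 : (10 / 3 : ℝ) = 2 + 4 / 3 := by norm_num
      rw [e2, Real.rpow_add_of_nonneg (norm_nonneg z) (by norm_num) (by norm_num), Real.rpow_two]
      ring
    have e3 := mul_le_mul_of_nonneg_left (U1_damp_le (c := c) p.hL hc z) hDr
    have e4 : -(2 * inner ℝ (B.r r) (mulH (wt p.L c) z)) ≤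
        2 * |inner ℝ (B.r r) (mulH (wt p.L c) z)| := by
      have := neg_abs_le (inner ℝ (B.r r) (mulH (wt p.L c) z))
      linarith
    have e5 : Vx (v r) = ∑ j, ‖dd j (v r)‖ ^ 2 := rfl
    rw [e1, e5]
    linarith)
  rw [intervalIntegral.integral_sub i2 i1] at h2
  linarith

end Pool.Agent.KG
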