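import Pool.Agent.Lib.KG.R_C1
import Pool.Agent.Lib.KG.R_U1
import Pool.Agent.Lib.KG.R_D4

/-!
# Row C10: the cost of the residual, and the transport term in the case of a cube
-/

set_option autoImplicit false

namespace Pool.Agent.KG

open MeasureTheory Filter Topology Set
open Pool.Agent.Kdv
open scoped ENNReal ContDiff InnerProductSpace

variable {p : Pr 2} {e e' : Fin 2 → ℝ} {α s : ℝ}

theorem C10_th_meas (L : ℝ) : Measurable (th L) := by
  unfold th st
  exact ((Real.smoothTransition.continuous.comp (by fun_prop)).mul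
    (Real.smoothTransition.continuous.comp (by fun_prop))).measurable

theorem C10_th_nonneg (L x : ℝ) : 0 ≤ th L x :=
  mul_nonneg (Real.smoothTransition.nonneg _) (Real.smoothTransition.nonneg _)

theorem C10_th_le (L x : ℝ) : th L x ≤ 1 :=
  mul_le_one₀ (Real.smoothTransition.le_one _) (Real.smoothTransition.nonneg _)
    (Real.smoothTransition.le_one _)

theorem C10_th_abs (L x : ℝ) : |th L x| ≤ 1 := by
  rw [abs_of_nonneg (C10_th_nonneg L x)]
  exact C10_th_le L x

theorem C10_bb_cont (L : ℝ) : Continuous (bb L) := by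
  unfold bb st
  exact (Real.smoothTransition.continuous.comp (by fun_prop)).mul
    (Real.smoothTransition.continuous.comp (by fun_prop))

theorem C10_wt_cont (L c : ℝ) : Continuous (wt L c) := by
  unfold wt
  exact continuous_const.add (intervalIntegral.continuous_primitive
    (fun a b => (C10_bb_cont L).intervalIntegrable a b) 0)

theorem C10_th_ae (L : ℝ) (f : L2) : ∀ᵐ x ∂volume, mulOp (th L) f x = th L x * f x :=
  mulOp_ae (C10_th_meas L) ⟨1, C10_th_abs L⟩ f

theorem C10_cmp_ae (a : Fin 2 → ℝ) (z : HH 2) :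
    ∀ᵐ x ∂volume, cmp a z x = dot a fun j => z j x := by
  unfold cmp dot
  refine QuadrAux.sum_ae Finset.univ (fun j => a j • z j) (fun j x => a j * z j x) fun j => ?_
  filter_upwards [Lp.coeFn_smul (a j) (z j)] with x hx
  rw [hx, Pi.smul_apply, smul_eq_mul]

theorem C10_inner_L2 (f g : L2) : inner ℝ f g = ∫ x, f x * g x := by
  rw [L2.inner_def]
  refine integral_congr_ae (Eventually.of_forall fun x => ?_)
  simp only [RCLike.inner_apply, conj_trivial]
  ring

/-- The transport term at a background with `e·w = -K`, `e·w_x = 0`. -/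
theorem cube_trt (h : Cub p e e' α s) {c K : ℝ} {X X1 : ℝ → Fin 2 → ℝ}
    (hX : ∀ x, dot e (X x) = -K ∧ dot e (X1 x) = 0) (z : HH 2) :
    trt p c X X1 z = -(α * K * inner ℝ (mulOp (th p.L) (cmp e z)) (cmp e z)) := by
  have h1 : ∀ x, (∑ j, ∑ k, (Hm p.g (X x) j k - wt p.L c x * Hm p.g (X1 x) j k) *
      z j x * z k x) = -(α * K) * dot e (fun j => z j x) ^ 2 := by
    intro x
    have e1 := h.qd_eq (X x) (fun j => z j x)
    have e2 := h.qd_eq (X1 x) (fun j => z j x)
    rw [(hX x).1] at e1
    rw [(hX x).2] at e2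
    have e3 : (∑ j, ∑ k, (Hm p.g (X x) j k - wt p.L c x * Hm p.g (X1 x) j k) *
        z j x * z k x) = qd (Hm p.g (X x)) (fun j => z j x) -
          wt p.L c x * qd (Hm p.g (X1 x)) (fun j => z j x) := by
      unfold qd
      rw [Finset.mul_sum, ← Finset.sum_sub_distrib]
      refine Finset.sum_congr rfl fun j _ => ?_
      rw [Finset.mul_sum, ← Finset.sum_sub_distrib]
      exact Finset.sum_congr rfl fun k _ => by ring
    rw [e3, e1, e2]
    ring
  unfold trt
  rw [C10_inner_L2, ← neg_mul, ← integral_const_mul]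
  refine integral_congr_ae ?_
  filter_upwards [C10_th_ae p.L (cmp e z), C10_cmp_ae e z] with x h2 h3
  rw [h1, h2, h3]
  ring

/-- The cost of the residual. -/
theorem cube_resid (h : Cub p e e' α s) {c K : ℝ} (hc : 2 * (p.L + 4) ≤ c) (hK : 0 < K) (z : HH 2)
    (q : L2) : 2 * |inner ℝ (emb e (mulOp (th p.L) q)) (mulH (wt p.L c) z)| ≤
      α * K * inner ℝ (mulOp (th p.L) (cmp e z)) (cmp e z) + (2 * c) ^ 2 / (α * K) * ‖q‖ ^ 2 := by
  have hα : 0 < α := h.cube.pos
  have hαK : 0 < α * K := mul_pos hα hK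
  have hc0 : 0 < c := by linarith [p.hL]
  have hw : ∀ x, 0 ≤ wt p.L c x ∧ wt p.L c x ≤ 2 * c := fun x =>
    ⟨by linarith [(wt_bounds p.hL hc x).1], (wt_bounds p.hL hc x).2⟩
  have hwa : ∀ x, |wt p.L c x| ≤ 2 * c := fun x => by
    rw [abs_of_nonneg (hw x).1]
    exact (hw x).2
  have hwe : ∀ f : L2, ∀ᵐ x ∂volume, mulOp (wt p.L c) f x = wt p.L c x * f x := fun f =>
    mulOp_ae (C10_wt_cont p.L c).measurable ⟨2 * c, hwa⟩ f
  -- the pairing
  have e1 : inner ℝ (emb e (mulOp (th p.L) q)) (mulH (wt p.L c) z) =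
      ∫ x, th p.L x * q x * (wt p.L c x * dot e fun j => z j x) := by
    rw [PiLp.inner_apply]
    have e2 : ∀ j, inner ℝ (emb e (mulOp (th p.L) q) j) (mulH (wt p.L c) z j) =
        ∫ x, e j * (th p.L x * q x * (wt p.L c x * z j x)) := by
      intro j
      change inner ℝ (e j • mulOp (th p.L) q) (mulOp (wt p.L c) (z j)) = _
      rw [C10_inner_L2]
      refine integral_congr_ae ?_
      filter_upwards [C10_th_ae p.L q, hwe (z j), Lp.coeFn_smul (e j) (mulOp (th p.L) q)]
        with x a1 a2 a3
      rw [a3, Pi.smul_apply, smul_eq_mul, a1, a2]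
      ring
    have e3 : ∀ j, Integrable (fun x => e j * (th p.L x * q x * (wt p.L c x * z j x)))
        volume := by
      intro j
      refine Integrable.const_mul ?_ _
      refine (AgmAux.mul_int (mulOp (th p.L) q) (mulOp (wt p.L c) (z j))).congr ?_
      filter_upwards [C10_th_ae p.L q, hwe (z j)] with x a1 a2
      rw [a1, a2]
    simp only [e2]
    rw [← integral_finsetSum _ fun j _ => e3 j]
    refine integral_congr_ae (Eventually.of_forall fun x => ?_)
    simp only [dot, Finset.mul_sum]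
    exact Finset.sum_congr rfl fun j _ => by ring
  have e4 : inner ℝ (mulOp (th p.L) (cmp e z)) (cmp e z) =
      ∫ x, th p.L x * dot e (fun j => z j x) ^ 2 := by
    rw [C10_inner_L2]
    refine integral_congr_ae ?_
    filter_upwards [C10_th_ae p.L (cmp e z), C10_cmp_ae e z] with x h2 h3
    rw [h2, h3]
    ring
  have i1 : Integrable (fun x => th p.L x * dot e (fun j => z j x) ^ 2) volume := by
    refine (AgmAux.mul_int (mulOp (th p.L) (cmp e z)) (cmp e z)).congr ?_
    filter_upwards [C10_th_ae p.L (cmp e z), C10_cmp_ae e z] with x h2 h3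
    rw [h2, h3]
    ring
  have i2 : Integrable (fun x => q x ^ 2) volume := by
    refine (AgmAux.mul_int q q).congr (Eventually.of_forall fun x => ?_)
    simp only
    ring
  rw [e1, e4, AgmAux.norm_sq q, ← integral_const_mul, ← integral_const_mul,
    ← integral_add (i1.const_mul _) (i2.const_mul _)]
  have e5 : 2 * |∫ x, th p.L x * q x * (wt p.L c x * dot e fun j => z j x)| ≤
      ∫ x, 2 * |th p.L x * q x * (wt p.L c x * dot e fun j => z j x)| := by
    rw [integral_const_mul]
    have := abs_integral_le_integral_abs (μ := volume)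
      (f := fun x => th p.L x * q x * (wt p.L c x * dot e fun j => z j x))
    linarith
  refine e5.trans ?_
  refine integral_mono_of_nonneg (Eventually.of_forall fun x => by positivity)
    ((i1.const_mul _).add (i2.const_mul _)) (Eventually.of_forall fun x => ?_)
  simp only
  set u := dot e fun j => z j x
  have t0 := C10_th_nonneg p.L x
  have t1 := C10_th_le p.L x
  obtain ⟨w0, w1⟩ := hw x
  have f1 : |th p.L x * q x * (wt p.L c x * u)| ≤ th p.L x * (2 * c * |q x| * |u|) := by
    rw [abs_mul, abs_mul, abs_mul, abs_of_nonneg t0, abs_of_nonneg w0]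
    calc th p.L x * |q x| * (wt p.L c x * |u|) = th p.L x * (wt p.L c x * |q x| * |u|) := by ring
      _ ≤ _ := by gcongr
  have f2 : 2 * (2 * c * |q x| * |u|) ≤ α * K * u ^ 2 + (2 * c) ^ 2 / (α * K) * q x ^ 2 := by
    have f3 : 0 ≤ (α * K * |u| - 2 * c * |q x|) ^ 2 / (α * K) := by positivity
    have f4 : (α * K * |u| - 2 * c * |q x|) ^ 2 / (α * K) =
        α * K * |u| ^ 2 - 2 * (2 * c * |q x| * |u|) + (2 * c) ^ 2 / (α * K) * |q x| ^ 2 := by
      field_simp
      ring
    rw [f4, sq_abs, sq_abs] at f3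
    linarith
  calc 2 * |th p.L x * q x * (wt p.L c x * u)| ≤ 2 * (th p.L x * (2 * c * |q x| * |u|)) := by
        linarith
    _ = th p.L x * (2 * (2 * c * |q x| * |u|)) := by ring
    _ ≤ th p.L x * (α * K * u ^ 2 + (2 * c) ^ 2 / (α * K) * q x ^ 2) := by gcongr
    _ = α * K * (th p.L x * u ^ 2) + th p.L x * ((2 * c) ^ 2 / (α * K) * q x ^ 2) := by ring
    _ ≤ _ := by
        have : 0 ≤ (2 * c) ^ 2 / (α * K) * q x ^ 2 := by positivity
        nlinarith

end Pool.Agent.KG
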