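import Pool.Agent.Lib.KG.UpD

/-!
# Row D1: the mollification
-/

set_option autoImplicit false

namespace Pool.Agent.KG

open MeasureTheory Filter Topology Set
open Pool.Agent.Kdv
open scoped ENNReal ContDiff InnerProductSpace

variable {n : ℕ}

private theorem d1_smooth {f : ℝ → ℝ} (hf : ContDiff ℝ ∞ f) (i : ℕ) :
    ContDiff ℝ ∞ (iteratedDeriv i f) := by
  induction i with
  | zero => rwa [iteratedDeriv_zero]
  | succ i ih =>
    rw [iteratedDeriv_succ]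
    exact (contDiff_infty_iff_deriv.1 ih).2

private theorem d1_cs {f : ℝ → ℝ} (hf : HasCompactSupport f) (i : ℕ) :
    HasCompactSupport (iteratedDeriv i f) := by
  induction i with
  | zero => rwa [iteratedDeriv_zero]
  | succ i ih =>
    rw [iteratedDeriv_succ]
    exact ih.deriv

private theorem d1_zero {f : ℝ → ℝ} {U : Set ℝ} (hU : IsOpen U) (hf : ∀ z ∈ U, f z = 0) (i : ℕ) :
    ∀ z ∈ U, iteratedDeriv i f z = 0 := by
  induction i with
  | zero => rwa [iteratedDeriv_zero]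
  | succ i ih =>
    intro z hz
    have h1 : iteratedDeriv i f =ᶠ[𝓝 z] fun _ => 0 := by
      filter_upwards [hU.mem_nhds hz] with w hw
      exact ih w hw
    rw [iteratedDeriv_succ, h1.deriv_eq, deriv_const]

theorem Mo_der {ε : ℝ} (hε : 0 < ε) (i : ℕ) (y : L2) : Der (Mo i ε y) (Mo (i + 1) ε y) := by
  obtain ⟨h1, h2, -⟩ := ker_smooth hε
  have s0 := d1_smooth h1 i
  have s1 := d1_smooth h1 (i + 1)
  have c0 := d1_cs h2 i
  have c1 := d1_cs h2 (i + 1)
  refine ⟨cvf (iteratedDeriv i (ker ε)) y, cvf (iteratedDeriv (i + 1) (ker ε)) y, ?_, ?_,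
    cv_ae s0.continuous c0 y, cv_ae s1.continuous c1 y⟩
  · intro x
    rw [iteratedDeriv_succ]
    exact cvf_deriv s0 c0 y x
  · exact continuous_iff_continuousAt.2 fun x => (cvf_deriv s1 c1 y x).continuousAt

theorem Mo_zero_norm {ε : ℝ} (hε : 0 < ε) (y : L2) : ‖Mo 0 ε y‖ ≤ ‖y‖ := by
  unfold Mo
  rw [iteratedDeriv_zero]
  exact cv_ker_norm hε y

theorem Mo_bound (i : ℕ) {ε : ℝ} (hε : 0 < ε) : ∃ C : ℝ, 0 ≤ C ∧ ∀ y : L2, ‖Mo i ε y‖ ≤ C * ‖y‖ := by
  obtain ⟨h1, h2, -⟩ := ker_smooth hε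
  exact ⟨∫ s, |iteratedDeriv i (ker ε) s|, integral_nonneg fun s => abs_nonneg _,
    fun y => cv_norm (d1_smooth h1 i).continuous (d1_cs h2 i) y⟩

/-- The constant of the first derivative is `C / ε`. -/
theorem Mo_one_norm : ∃ C : ℝ, 0 ≤ C ∧ ∀ ε : ℝ, 0 < ε → ∀ y : L2, ‖Mo 1 ε y‖ ≤ C / ε * ‖y‖ := by
  obtain ⟨C, hC, h⟩ := ker_bounds
  refine ⟨C, hC, fun ε hε y => ?_⟩
  obtain ⟨h1, h2, -⟩ := ker_smooth hε
  have h3 := cv_norm (d1_smooth h1 1).continuous (d1_cs h2 1) y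
  unfold Mo
  refine h3.trans (mul_le_mul_of_nonneg_right ?_ (norm_nonneg _))
  rw [iteratedDeriv_one]
  exact (h ε hε).1

/-- Locality. -/
theorem Mo_local {ε : ℝ} (hε : 0 < ε) (i : ℕ) {a b : ℝ} {y : L2}
    (hy : ∀ᵐ x ∂volume, x ∉ Icc a b → y x = 0) :
    ∀ᵐ x ∂volume, x ∉ Icc (a - ε) (b + ε) → Mo i ε y x = 0 := by
  obtain ⟨h1, h2, h3, -⟩ := ker_smooth hε
  have hz := d1_zero (U := {z : ℝ | ε < |z|}) (isOpen_lt continuous_const continuous_abs)
    (fun z hz => h3 z (le_of_lt hz)) i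
  filter_upwards [cv_ae (d1_smooth h1 i).continuous (d1_cs h2 i) y] with x hx hxI
  unfold Mo
  rw [hx]
  unfold cvf
  rw [← integral_zero ℝ ℝ (μ := volume)]
  refine integral_congr_ae ?_
  filter_upwards [hy] with s hs
  by_cases hsI : s ∈ Icc a b
  · have h4 : x - s ∈ {z : ℝ | ε < |z|} := by
      change ε < |x - s|
      by_contra hcon
      push Not at hcon
      have h5 := abs_le.1 hcon
      exact hxI ⟨by linarith [hsI.1], by linarith [hsI.2]⟩
    rw [hz _ h4, zero_mul]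
  · rw [hs hsI, mul_zero]

end Pool.Agent.KG
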