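import Pool.Agent.Lib.KG.UpD

/-!
# Row D2: calculus
-/

set_option autoImplicit false

namespace Pool.Agent.KG

open MeasureTheory Filter Topology Set
open Pool.Agent.Kdv
open scoped ENNReal ContDiff InnerProductSpace

theorem D2_meas {m : ℝ → ℝ} (hm : Mlt m) : Measurable m := hm.1.continuous.measurable

theorem D2_bdd {m : ℝ → ℝ} (hm : Mlt m) : ∃ C, ∀ x, |m x| ≤ C := by
  obtain ⟨C, hC⟩ := hm.2 0
  exact ⟨C, fun x => by simpa using hC x⟩

theorem D2_meas' {m : ℝ → ℝ} (_ : Mlt m) : Measurable (deriv m) := measurable_deriv m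

theorem D2_bdd' {m : ℝ → ℝ} (hm : Mlt m) : ∃ C, ∀ x, |deriv m x| ≤ C := by
  obtain ⟨C, hC⟩ := hm.2 1
  exact ⟨C, fun x => by simpa using hC x⟩

theorem D2_hasDeriv {m : ℝ → ℝ} (hm : Mlt m) (x : ℝ) : HasDerivAt m (deriv m x) x :=
  (hm.1.differentiable (by simp) x).hasDerivAt

theorem D2_cont {m : ℝ → ℝ} (hm : Mlt m) : Continuous m := hm.1.continuous

theorem D2_cont' {m : ℝ → ℝ} (hm : Mlt m) : Continuous (deriv m) :=
  hm.1.continuous_deriv (by norm_cast)

theorem Der.add {u u1 v v1 : L2} (h : Der u u1) (h' : Der v v1) : Der (u + v) (u1 + v1) := by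
  obtain ⟨F, F1, hF, hF1, hu, hu1⟩ := h
  obtain ⟨G, G1, hG, hG1, hv, hv1⟩ := h'
  refine ⟨fun x => F x + G x, fun x => F1 x + G1 x, fun x => (hF x).add (hG x), hF1.add hG1,
    ?_, ?_⟩
  · filter_upwards [Lp.coeFn_add u v, hu, hv] with x h1 h2 h3
    rw [h1, Pi.add_apply, h2, h3]
  · filter_upwards [Lp.coeFn_add u1 v1, hu1, hv1] with x h1 h2 h3
    rw [h1, Pi.add_apply, h2, h3]

theorem Der.smul {u u1 : L2} (c : ℝ) (h : Der u u1) : Der (c • u) (c • u1) := by
  obtain ⟨F, F1, hF, hF1, hu, hu1⟩ := h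
  refine ⟨fun x => c * F x, fun x => c * F1 x, fun x => (hF x).const_mul c, hF1.const_mul c,
    ?_, ?_⟩
  · filter_upwards [Lp.coeFn_smul c u, hu] with x h1 h2
    rw [h1, Pi.smul_apply, h2, smul_eq_mul]
  · filter_upwards [Lp.coeFn_smul c u1, hu1] with x h1 h2
    rw [h1, Pi.smul_apply, h2, smul_eq_mul]

theorem D2_zero : Der 0 0 := by
  refine ⟨fun _ => 0, fun _ => 0, fun x => hasDerivAt_const x 0, continuous_const, ?_, ?_⟩
  · exact Lp.coeFn_zero ℝ 2 volume
  · exact Lp.coeFn_zero ℝ 2 volume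

theorem Der.sum {ι : Type} (s : Finset ι) {u u1 : ι → L2} (h : ∀ i ∈ s, Der (u i) (u1 i)) :
    Der (∑ i ∈ s, u i) (∑ i ∈ s, u1 i) := by
  classical
  induction s using Finset.induction_on with
  | empty =>
    rw [Finset.sum_empty, Finset.sum_empty]
    exact D2_zero
  | insert a s ha ih =>
    rw [Finset.sum_insert ha, Finset.sum_insert ha]
    exact Der.add (h a (Finset.mem_insert_self a s))
      (ih fun i hi => h i (Finset.mem_insert_of_mem hi))

theorem Der.mul {u u1 : L2} {m : ℝ → ℝ} (hm : Mlt m) (h : Der u u1) :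
    Der (mulOp m u) (mulOp (deriv m) u + mulOp m u1) := by
  obtain ⟨F, F1, hF, hF1, hu, hu1⟩ := h
  have hFc : Continuous F := continuous_iff_continuousAt.2 fun x => (hF x).continuousAt
  refine ⟨fun x => m x * F x, fun x => deriv m x * F x + m x * F1 x,
    fun x => (D2_hasDeriv hm x).mul (hF x),
    ((D2_cont' hm).mul hFc).add ((D2_cont hm).mul hF1), ?_, ?_⟩
  · filter_upwards [mulOp_ae (D2_meas hm) (D2_bdd hm) u, hu] with x h1 h2
    rw [h1, h2]
  · filter_upwards [Lp.coeFn_add (mulOp (deriv m) u) (mulOp m u1),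
      mulOp_ae (D2_meas' hm) (D2_bdd' hm) u, mulOp_ae (D2_meas hm) (D2_bdd hm) u1, hu, hu1]
      with x h1 h2 h3 h4 h5
    rw [h1, Pi.add_apply, h2, h3, h4, h5]

theorem D2_inner {m : ℝ → ℝ} (hm : Measurable m) (hb : ∃ C, ∀ x, |m x| ≤ C) (u v : L2) :
    Integrable (fun x => m x * u x * v x) volume ∧
    inner ℝ (mulOp m u) v = ∫ x, m x * u x * v x := by
  constructor
  · exact (memLp_mul ⟨hm, hb⟩ u).integrable_mul (Lp.memLp v)
  · rw [L2.inner_def]
    refine integral_congr_ae ?_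
    filter_upwards [mulOp_ae hm hb u] with x hx
    rw [hx]
    exact mul_comm _ _

theorem Der.parts {u u1 v v1 : L2} (h : Der u u1) (h' : Der v v1) {m : ℝ → ℝ} (hm : Mlt m) :
    inner ℝ (mulOp m u1) v = -inner ℝ (mulOp m u) v1 - inner ℝ (mulOp (deriv m) u) v := by
  obtain ⟨F, F1, hF, -, hu, hu1⟩ := h
  obtain ⟨G, G1, hG, -, hv, hv1⟩ := h'
  obtain ⟨i1, e1⟩ := D2_inner (D2_meas hm) (D2_bdd hm) u1 v
  obtain ⟨i2, e2⟩ := D2_inner (D2_meas hm) (D2_bdd hm) u v1
  obtain ⟨i3, e3⟩ := D2_inner (D2_meas' hm) (D2_bdd' hm) u v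
  obtain ⟨i4, -⟩ := D2_inner (D2_meas hm) (D2_bdd hm) u v
  have hd : ∀ x, HasDerivAt (fun x => m x * F x * G x)
      ((deriv m x * F x + m x * F1 x) * G x + m x * F x * G1 x) x := fun x =>
    ((D2_hasDeriv hm x).mul (hF x)).mul (hG x)
  have h1 : (fun x => (deriv m x * F x + m x * F1 x) * G x + m x * F x * G1 x) =ᵐ[volume]
      fun x => deriv m x * u x * v x + m x * u1 x * v x + m x * u x * v1 x := by
    filter_upwards [hu, hu1, hv, hv1] with x a1 a2 a3 a4
    rw [a1, a2, a3, a4]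
    ring
  have h2 : Integrable (fun x => m x * F x * G x) volume := by
    refine i4.congr ?_
    filter_upwards [hu, hv] with x a1 a3
    rw [a1, a3]
  have h3 := integral_eq_zero_of_hasDerivAt_of_integrable hd
    (((i3.add i1).add i2).congr h1.symm) h2
  rw [integral_congr_ae h1] at h3
  have h4 : (∫ x, deriv m x * u x * v x + m x * u1 x * v x + m x * u x * v1 x) =
      (∫ x, deriv m x * u x * v x) + (∫ x, m x * u1 x * v x) + ∫ x, m x * u x * v1 x := by
    have h5 : Integrable (fun x => deriv m x * u x * v x + m x * u1 x * v x) volume := i3.add i1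
    rw [integral_add h5 i2, integral_add i3 i1]
  rw [e1, e2, e3]
  rw [h4] at h3
  linarith

end Pool.Agent.KG
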