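import Pool.Agent.Lib.KG.UpD

/-!
# The cut-offs are multipliers (row D3)
-/

set_option autoImplicit false

namespace Pool.Agent.KG

open MeasureTheory Filter Topology Set
open Pool.Agent.Kdv
open scoped ENNReal ContDiff InnerProductSpace

theorem D3_st : ContDiff ℝ ∞ st := Real.smoothTransition.contDiff

theorem D3_compact {m : ℝ → ℝ} (h : ContDiff ℝ ∞ m) (hs : HasCompactSupport m) : Mlt m := by
  refine ⟨h, fun i => ?_⟩
  have h1 : Continuous (iteratedDeriv i m) := h.continuous_iteratedDeriv i (by exact_mod_cast le_top)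
  have h2 : HasCompactSupport (iteratedDeriv i m) := by
    have h3 := hs.iteratedFDeriv (𝕜 := ℝ) i
    have e : iteratedDeriv i m = fun x => (iteratedFDeriv ℝ i m x : (Fin i → ℝ) → ℝ) fun _ => 1 :=
      rfl
    rw [e]
    exact h3.comp_left (g := fun A : ContinuousMultilinearMap ℝ (fun _ : Fin i => ℝ) ℝ =>
      A fun _ => 1) rfl
  obtain ⟨C, hC⟩ := h1.bounded_above_of_compact_support h2
  exact ⟨C, fun x => by rw [← Real.norm_eq_abs]; exact hC x⟩

theorem D3_of_deriv {m : ℝ → ℝ} (hb : ∃ C, ∀ x, |m x| ≤ C) (hd : Differentiable ℝ m)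
    (h : Mlt (deriv m)) : Mlt m := by
  refine ⟨contDiff_infty_iff_deriv.2 ⟨hd, h.1⟩, fun i => ?_⟩
  rcases i with _ | i
  · simpa using hb
  · obtain ⟨C, hC⟩ := h.2 i
    exact ⟨C, fun x => by rw [iteratedDeriv_succ']; exact hC x⟩

theorem Mlt.mul {m m' : ℝ → ℝ} (h : Mlt m) (h' : Mlt m') : Mlt (fun x => m x * m' x) := by
  refine ⟨h.1.mul h'.1, fun i => ?_⟩
  choose C hC using h.2
  choose C' hC' using h'.2
  refine ⟨∑ k ∈ Finset.range (i + 1), (i.choose k : ℝ) * C k * C' (i - k), fun x => ?_⟩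
  have h1 := norm_iteratedFDeriv_mul_le h.1 h'.1 x (n := i) (by exact_mod_cast le_top)
  rw [norm_iteratedFDeriv_eq_norm_iteratedDeriv, Real.norm_eq_abs] at h1
  refine h1.trans (Finset.sum_le_sum fun k _ => ?_)
  rw [norm_iteratedFDeriv_eq_norm_iteratedDeriv, norm_iteratedFDeriv_eq_norm_iteratedDeriv,
    Real.norm_eq_abs, Real.norm_eq_abs]
  have h2 : 0 ≤ C k := (abs_nonneg _).trans (hC k x)
  exact mul_le_mul (mul_le_mul_of_nonneg_left (hC k x) (Nat.cast_nonneg _)) (hC' _ x)
    (abs_nonneg _) (mul_nonneg (Nat.cast_nonneg _) h2)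

theorem Mlt.der {m : ℝ → ℝ} (h : Mlt m) : Mlt (deriv m) := by
  refine ⟨(contDiff_infty_iff_deriv.1 h.1).2, fun i => ?_⟩
  obtain ⟨C, hC⟩ := h.2 (i + 1)
  exact ⟨C, fun x => by rw [← iteratedDeriv_succ']; exact hC x⟩

theorem D3_two {a b c d : ℝ} (ha : 0 < a) :
    Mlt fun x => st (a * x + b) * st (a * (c - x) + d) := by
  refine D3_compact ((D3_st.comp (by fun_prop)).mul (D3_st.comp (by fun_prop))) ?_
  refine HasCompactSupport.intro (isCompact_Icc (a := -b / a) (b := c + d / a)) fun x hx => ?_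
  rw [mem_Icc, not_and_or, not_le, not_le] at hx
  unfold st
  rcases hx with h | h
  · rw [lt_div_iff₀ ha] at h
    rw [Real.smoothTransition.zero_of_nonpos (by linarith), zero_mul]
  · have h2 : d / a < x - c := by linarith
    rw [div_lt_iff₀ ha] at h2
    rw [Real.smoothTransition.zero_of_nonpos (x := a * (c - x) + d) (by linarith), mul_zero]

theorem Mlt_th {L : ℝ} (_hL : 0 < L) : Mlt (th L) := D3_two (by norm_num)

theorem Mlt_damp {L : ℝ} (_hL : 0 < L) : Mlt (damp L) := by
  have h : Mlt fun x => st (4 * x + 1) * st (4 * (L - x) + 1) := D3_two (by norm_num)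
  have hd : Differentiable ℝ fun x => st (4 * x + 1) * st (4 * (L - x) + 1) :=
    h.1.differentiable (by simp)
  have e1 : deriv (damp L) = fun x => (-1 : ℝ) *
      deriv (fun x => st (4 * x + 1) * st (4 * (L - x) + 1)) x := by
    funext x
    unfold damp
    rw [deriv_const_sub]
    ring
  refine D3_of_deriv ?_ ?_ ?_
  · obtain ⟨C, hC⟩ := h.2 0
    refine ⟨1 + C, fun x => ?_⟩
    have h2 := hC x
    rw [iteratedDeriv_zero] at h2
    refine (abs_sub _ _).trans ?_
    rw [abs_one]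
    linarith
  · exact (differentiable_const 1).sub hd
  · rw [e1]
    refine Mlt.mul (m := fun _ => -1) ?_ (Mlt.der h)
    refine ⟨contDiff_const, fun i => ⟨1, fun x => ?_⟩⟩
    rcases i with _ | i
    · simp
    · rw [iteratedDeriv_const]
      simp

theorem Mlt_bb {L : ℝ} (_hL : 0 < L) : Mlt (bb L) := by
  have h : Mlt fun x => st (1 * x + 4) * st (1 * (L - x) + 4) := D3_two (by norm_num)
  have e : bb L = fun x => st (1 * x + 4) * st (1 * (L - x) + 4) := by
    funext x
    unfold bb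
    congr 2
    · ring
    · ring
  rw [e]
  exact h

theorem D3_bb_cont (L : ℝ) : Continuous (bb L) := by
  have h : Continuous st := D3_st.continuous
  unfold bb
  fun_prop

theorem D3_bb_nonneg (L x : ℝ) : 0 ≤ bb L x :=
  mul_nonneg (Real.smoothTransition.nonneg _) (Real.smoothTransition.nonneg _)

theorem D3_bb_le (L x : ℝ) : bb L x ≤ 1 :=
  mul_le_one₀ (Real.smoothTransition.le_one _) (Real.smoothTransition.nonneg _)
    (Real.smoothTransition.le_one _)

theorem D3_bb_left {L x : ℝ} (hx : x ≤ -4) : bb L x = 0 := by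
  unfold bb st
  rw [Real.smoothTransition.zero_of_nonpos (by linarith), zero_mul]

theorem D3_bb_right {L x : ℝ} (hx : L + 4 ≤ x) : bb L x = 0 := by
  unfold bb st
  rw [Real.smoothTransition.zero_of_nonpos (x := L + 4 - x) (by linarith), mul_zero]

theorem D3_wt_deriv (L c x : ℝ) : HasDerivAt (wt L c) (bb L x) x := by
  unfold wt
  refine HasDerivAt.const_add c ?_
  exact intervalIntegral.integral_hasDerivAt_right
    ((D3_bb_cont L).intervalIntegrable _ _)
    (D3_bb_cont L).stronglyMeasurable.stronglyMeasurableAtFilter (D3_bb_cont L).continuousAt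

theorem D3_ph_eq (L x : ℝ) : ph L x = ∫ s in (-4)..x, bb L s := by
  have h := intervalIntegral.integral_interval_sub_left
    ((D3_bb_cont L).intervalIntegrable (μ := volume) 0 x)
    ((D3_bb_cont L).intervalIntegrable (μ := volume) 0 (-4))
  unfold ph wt
  rw [← h]
  ring

theorem D3_ph_zero {L x : ℝ} (hx : x ≤ -4) : ph L x = 0 := by
  rw [D3_ph_eq, intervalIntegral.integral_symm, neg_eq_zero]
  have : ∫ s in x..(-4), bb L s = ∫ s in x..(-4), (0 : ℝ) := by
    refine intervalIntegral.integral_congr fun s hs => ?_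
    rw [uIcc_of_le hx] at hs
    exact D3_bb_left hs.2
  rw [this]
  simp

theorem D3_ph_bound {L : ℝ} (hL : 0 < L) (x : ℝ) : 0 ≤ ph L x ∧ ph L x ≤ L + 8 := by
  rcases le_total x (-4) with hx | hx
  · rw [D3_ph_zero hx]
    exact ⟨le_rfl, by linarith⟩
  have hi : ∀ a b, IntervalIntegrable (bb L) volume a b := fun a b =>
    (D3_bb_cont L).intervalIntegrable _ _
  have h1 : ∀ y : ℝ, -4 ≤ y → ∫ s in (-4)..y, bb L s ≤ y + 4 := by
    intro y hy
    have := intervalIntegral.integral_mono_on hy (hi _ _)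
      (intervalIntegrable_const (c := (1 : ℝ))) fun s _ => D3_bb_le L s
    rw [intervalIntegral.integral_const, smul_eq_mul] at this
    linarith
  rw [D3_ph_eq]
  refine ⟨intervalIntegral.integral_nonneg hx fun s _ => D3_bb_nonneg L s, ?_⟩
  rcases le_total x (L + 4) with h2 | h2
  · have := h1 x hx
    linarith
  · rw [← intervalIntegral.integral_add_adjacent_intervals (hi (-4) (L + 4)) (hi (L + 4) x)]
    have h3 : ∫ s in (L + 4)..x, bb L s = ∫ s in (L + 4)..x, (0 : ℝ) := by
      refine intervalIntegral.integral_congr fun s hs => ?_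
      rw [uIcc_of_le h2] at hs
      exact D3_bb_right hs.1
    rw [h3]
    have := h1 (L + 4) (by linarith)
    simp only [intervalIntegral.integral_zero, add_zero]
    linarith

theorem Mlt_wt {L : ℝ} (hL : 0 < L) (c : ℝ) : Mlt (wt L c) ∧ deriv (wt L c) = bb L := by
  have h1 : deriv (wt L c) = bb L := funext fun x => (D3_wt_deriv L c x).deriv
  refine ⟨D3_of_deriv ?_ (fun x => (D3_wt_deriv L c x).differentiableAt) ?_, h1⟩
  · have e : ∀ x, wt L c x = c + wt L 0 (-4) + ph L x := by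
      intro x
      unfold ph wt
      ring
    refine ⟨|c + wt L 0 (-4)| + (L + 8), fun x => ?_⟩
    rw [e]
    refine (abs_add_le _ _).trans ?_
    have h2 := D3_ph_bound hL x
    rw [abs_of_nonneg h2.1]
    linarith
  · rw [h1]
    exact Mlt_bb hL

theorem Mlt_ph {L : ℝ} (hL : 0 < L) : Mlt (ph L) ∧ deriv (ph L) = bb L ∧
    (∀ x, x ≤ -4 → ph L x = 0) ∧ ∀ x, 0 ≤ ph L x ∧ ph L x ≤ L + 8 :=
  ⟨(Mlt_wt hL _).1, (Mlt_wt hL _).2, fun _ hx => D3_ph_zero hx, D3_ph_bound hL⟩

theorem Mlt_aw {L : ℝ} (hL : 0 < L) (c : ℝ) : Mlt (aw L c) :=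
  Mlt.mul (Mlt_th hL) (Mlt_wt hL c).1

end Pool.Agent.KG
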