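import Pool.Agent.Lib.KG.R_C1
import Pool.Agent.Lib.KG.R_D1
import Pool.Agent.Lib.KG.R_D2
import Pool.Agent.Lib.KG.R_D3
import Pool.Agent.Lib.KG.R_D4

/-!
# Row C7: the controlled part
-/

set_option autoImplicit false

namespace Pool.Agent.KG

open MeasureTheory Filter Topology Set
open Pool.Agent.Kdv
open scoped ENNReal ContDiff InnerProductSpace

variable {p : Pr 2} {e e' : Fin 2 → ℝ} {α s : ℝ}

theorem C7_cmp_ae (a : Fin 2 → ℝ) (z : HH 2) :
    ∀ᵐ x ∂volume, cmp a z x = dot a fun j => z j x := by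
  unfold cmp dot
  refine QuadrAux.sum_ae Finset.univ (fun j => a j • z j) (fun j x => a j * z j x) fun j => ?_
  filter_upwards [Lp.coeFn_smul (a j) (z j)] with x hx
  rw [hx, Pi.smul_apply, smul_eq_mul]

theorem C7_inner_L2 (f g : L2) : inner ℝ f g = ∫ x, f x * g x := by
  rw [L2.inner_def]
  refine integral_congr_ae (Eventually.of_forall fun x => ?_)
  simp only [RCLike.inner_apply, conj_trivial]
  ring

theorem C7_th_cont (L : ℝ) : Continuous (th L) := by
  unfold th st
  exact (Real.smoothTransition.continuous.comp (by fun_prop)).mul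
    (Real.smoothTransition.continuous.comp (by fun_prop))

theorem C7_damp_cont (L : ℝ) : Continuous (damp L) := by
  unfold damp st
  exact continuous_const.sub ((Real.smoothTransition.continuous.comp (by fun_prop)).mul
    (Real.smoothTransition.continuous.comp (by fun_prop)))

theorem C7_abs_le_one' {x : ℝ} (h : 0 ≤ x ∧ x ≤ 1) : |x| ≤ 1 := by
  rw [abs_of_nonneg h.1]
  exact h.2

theorem C7_th_ae {L : ℝ} (hL : 0 < L) (f : L2) :
    ∀ᵐ x ∂volume, mulOp (th L) f x = th L x * f x :=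
  mulOp_ae (C7_th_cont L).measurable ⟨1, fun x => C7_abs_le_one' ((th_facts hL).1 x)⟩ f

theorem C7_damp_ae {L : ℝ} (hL : 0 < L) (f : L2) :
    ∀ᵐ x ∂volume, mulOp (damp L) f x = damp L x * f x :=
  mulOp_ae (C7_damp_cont L).measurable ⟨1, fun x => C7_abs_le_one' ((damp_facts hL).1 x)⟩ f

theorem C7_one_damp_ae {L : ℝ} (hL : 0 < L) (f : L2) :
    ∀ᵐ x ∂volume, mulOp (fun x => 1 - damp L x) f x = (1 - damp L x) * f x :=
  mulOp_ae (continuous_const.sub (C7_damp_cont L)).measurable ⟨1, fun x => by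
    have := (damp_facts hL).1 x
    have h1 : 0 ≤ 1 - damp L x ∧ 1 - damp L x ≤ 1 := ⟨by linarith, by linarith⟩
    exact C7_abs_le_one' h1⟩ f

theorem C7_norm_sq_HH (z : HH 2) : ‖z‖ ^ 2 = ∫ x, ∑ j, z j x ^ 2 := by
  rw [PiLp.norm_sq_eq_of_L2, integral_finsetSum _ fun j _ => ?_]
  · exact Finset.sum_congr rfl fun j _ => AgmAux.norm_sq _
  · have := AgmAux.mul_int (z j) (z j)
    refine this.congr (Eventually.of_forall fun x => ?_)
    simp only
    ring

/-- The C7_frame. -/
theorem C7_frame (h : Cub p e e' α s) (X : Fin 2 → ℝ) :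
    dot e X ^ 2 + dot e' X ^ 2 = X 0 ^ 2 + X 1 ^ 2 ∧ dot e' e' = 1 := by
  have h1 := h.cube.unit
  simp only [dot, Fin.sum_univ_two] at h1 ⊢
  rw [h.e0, h.e1]
  constructor
  · linear_combination (X 0 ^ 2 + X 1 ^ 2) * h1
  · linear_combination h1

/-- What is not controlled. -/
theorem yy_rest (h : Cub p e e' α s) {K : ℝ} (hK : 0 < K) (v : VV 2 p.L) :
    ‖inc 2 p.L v - emb e' (yy p e' v)‖ ≤ 2 * √(Qa p e K v / K) := by
  set z := inc 2 p.L v with hz
  have hL := p.hL
  have hd0 := (damp_facts hL).1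
  have ht0 := (th_facts hL).1
  -- the norm
  have e1 : ‖z - emb e' (yy p e' v)‖ ^ 2 =
      ∫ x, (dot e (fun j => z j x) ^ 2 + damp p.L x ^ 2 * dot e' (fun j => z j x) ^ 2) := by
    rw [C7_norm_sq_HH]
    refine integral_congr_ae ?_
    have a0 : ∀ j, ∀ᵐ x ∂volume, (z - emb e' (yy p e' v)) j x =
        z j x - e' j * ((1 - damp p.L x) * dot e' (fun j => z j x)) := by
      intro j
      change ∀ᵐ x ∂volume, (z j - e' j • yy p e' v : L2) x = _
      filter_upwards [Lp.coeFn_sub (z j) (e' j • yy p e' v), Lp.coeFn_smul (e' j) (yy p e' v),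
        C7_one_damp_ae hL (cmp e' z), C7_cmp_ae e' z] with x a1 a2 a3 a4
      rw [a1, Pi.sub_apply, a2, Pi.smul_apply, smul_eq_mul]
      unfold yy
      rw [a3, a4]
    filter_upwards [a0 0, a0 1] with x a1 a2
    simp only [Fin.sum_univ_two]
    rw [a1, a2]
    obtain ⟨f1, f2⟩ := C7_frame h (fun j => z j x)
    simp only [dot, Fin.sum_univ_two] at f1 f2 ⊢
    linear_combination (-1 : ℝ) * f1 + ((1 - damp p.L x) ^ 2 *
      (e' 0 * z 0 x + e' 1 * z 1 x) ^ 2) * f2
  have e2 : inner ℝ (mulOp (th p.L) (cmp e z)) (cmp e z) =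
      ∫ x, th p.L x * dot e (fun j => z j x) ^ 2 := by
    rw [C7_inner_L2]
    refine integral_congr_ae ?_
    filter_upwards [C7_th_ae hL (cmp e z), C7_cmp_ae e z] with x h2 h3
    rw [h2, h3]
    ring
  have i2 : Integrable (fun x => th p.L x * dot e (fun j => z j x) ^ 2) volume := by
    refine (AgmAux.mul_int (mulOp (th p.L) (cmp e z)) (cmp e z)).congr ?_
    filter_upwards [C7_th_ae hL (cmp e z), C7_cmp_ae e z] with x h2 h3
    rw [h2, h3]
    ring
  have hda : ∀ j, ∀ᵐ x ∂volume, mulOp (damp p.L) (z j) x = damp p.L x * z j x := fun j =>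
    C7_damp_ae hL (z j)
  have i3' : ∀ j, Integrable (fun x => damp p.L x * z j x ^ 2) volume := by
    intro j
    refine (AgmAux.mul_int (mulOp (damp p.L) (z j)) (z j)).congr ?_
    filter_upwards [hda j] with x h2
    rw [h2]
    ring
  have e3 : Dw p.L z = ∫ x, damp p.L x * (z 0 x ^ 2 + z 1 x ^ 2) := by
    unfold Dw
    rw [PiLp.inner_apply, Fin.sum_univ_two]
    have a1 : ∀ j, inner ℝ (mulH (damp p.L) z j) (z j) = ∫ x, damp p.L x * z j x ^ 2 := by
      intro j
      change inner ℝ (mulOp (damp p.L) (z j)) (z j) = _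
      rw [C7_inner_L2]
      refine integral_congr_ae ?_
      filter_upwards [hda j] with x h2
      rw [h2]
      ring
    rw [a1 0, a1 1, ← integral_add (i3' 0) (i3' 1)]
    exact integral_congr_ae (Eventually.of_forall fun x => by simp only; ring)
  have i3 : Integrable (fun x => damp p.L x * (z 0 x ^ 2 + z 1 x ^ 2)) volume :=
    ((i3' 0).add (i3' 1)).congr (Eventually.of_forall fun x => by simp only [Pi.add_apply]; ring)
  have e4 : ‖z - emb e' (yy p e' v)‖ ^ 2 ≤
      inner ℝ (mulOp (th p.L) (cmp e z)) (cmp e z) + Dw p.L z := by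
    rw [e1, e2, e3, ← integral_add i2 i3]
    refine integral_mono_of_nonneg (Eventually.of_forall fun x => by positivity)
      (i2.add i3) (Eventually.of_forall fun x => ?_)
    simp only
    rw [← (C7_frame h (fun j => z j x)).1]
    set a := dot e fun j => z j x
    set b := dot e' fun j => z j x
    obtain ⟨d0, d1⟩ := hd0 x
    obtain ⟨t0, t1⟩ := ht0 x
    have hs : 1 ≤ th p.L x + damp p.L x := by
      by_cases hx : x ∈ Ioo (-1 / 4) (p.L + 1 / 4)
      · rw [(th_facts hL).2.1 x ⟨by linarith [hx.1], by linarith [hx.2]⟩]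
        linarith
      · rw [(damp_facts hL).2.2.1 x hx]
        linarith
    have g1 : a ^ 2 ≤ (th p.L x + damp p.L x) * a ^ 2 := by
      nlinarith [sq_nonneg a]
    have g2 : damp p.L x ^ 2 * b ^ 2 ≤ damp p.L x * b ^ 2 := by
      have : damp p.L x ^ 2 ≤ damp p.L x := by nlinarith
      nlinarith [sq_nonneg b]
    linarith
  have e5 : K * (‖z - emb e' (yy p e' v)‖ ^ 2) ≤ Qa p e K v := by
    have h1 : 0 ≤ Vx v := Finset.sum_nonneg fun j _ => sq_nonneg _
    have h2 : K * (‖z - emb e' (yy p e' v)‖ ^ 2) ≤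
        K * (inner ℝ (mulOp (th p.L) (cmp e z)) (cmp e z) + Dw p.L z) :=
      mul_le_mul_of_nonneg_left e4 hK.le
    unfold Qa
    rw [← hz]
    nlinarith [sq_nonneg ‖z‖]
  have e6 : ‖z - emb e' (yy p e' v)‖ ≤ √(Qa p e K v / K) := by
    refine Real.le_sqrt_of_sq_le ?_
    rw [le_div_iff₀ hK]
    linarith
  linarith [Real.sqrt_nonneg (Qa p e K v / K)]

/-- The dominating kernel. -/
noncomputable def C7_kap (ε u : ℝ) : ℝ := max 0 (min 1 (2 - |u| / ε))

theorem C7_kap_cont (ε : ℝ) : Continuous (C7_kap ε) := by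
  unfold C7_kap
  fun_prop

theorem C7_kap_nonneg (ε u : ℝ) : 0 ≤ C7_kap ε u := le_max_left _ _

theorem C7_kap_le (ε u : ℝ) : C7_kap ε u ≤ 1 := max_le zero_le_one (min_le_left _ _)

theorem C7_kap_in {ε u : ℝ} (hε : 0 < ε) (hu : |u| ≤ ε) : C7_kap ε u = 1 := by
  unfold C7_kap
  have h1 : |u| / ε ≤ 1 := (div_le_one hε).2 hu
  rw [min_eq_left (by linarith)]
  exact max_eq_right zero_le_one

theorem C7_kap_out {ε u : ℝ} (hε : 0 < ε) (hu : 2 * ε ≤ |u|) : C7_kap ε u = 0 := by
  unfold C7_kap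
  have h1 : 2 ≤ |u| / ε := (le_div_iff₀ hε).2 hu
  exact max_eq_left ((min_le_right _ _).trans (by linarith))

theorem C7_kap_supp {ε : ℝ} (hε : 0 < ε) : HasCompactSupport (C7_kap ε) := by
  refine HasCompactSupport.intro (K := Icc (-(2 * ε)) (2 * ε)) isCompact_Icc fun x hx => ?_
  refine C7_kap_out hε ?_
  by_contra h
  push Not at h
  exact hx ⟨by linarith [(abs_lt.1 h).1], by linarith [(abs_lt.1 h).2]⟩

theorem C7_kap_int {ε : ℝ} (hε : 0 < ε) : ∫ x, |C7_kap ε x| ≤ 4 * ε := by
  have h1 : ∀ x, |C7_kap ε x| ≤ (Icc (-(2 * ε)) (2 * ε)).indicator (fun _ => (1 : ℝ)) x := by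
    intro x
    rw [abs_of_nonneg (C7_kap_nonneg ε x)]
    by_cases hx : x ∈ Icc (-(2 * ε)) (2 * ε)
    · rw [indicator_of_mem hx]
      exact C7_kap_le ε x
    · rw [indicator_of_notMem hx, C7_kap_out hε]
      by_contra h
      push Not at h
      exact hx ⟨by linarith [(abs_lt.1 h).1], by linarith [(abs_lt.1 h).2]⟩
  calc ∫ x, |C7_kap ε x| ≤ ∫ x, (Icc (-(2 * ε)) (2 * ε)).indicator (fun _ => (1 : ℝ)) x := by
        refine integral_mono_of_nonneg (Eventually.of_forall fun x => abs_nonneg _) ?_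
          (Eventually.of_forall h1)
        exact (integrable_indicator_iff measurableSet_Icc).2
          (integrableOn_const measure_Icc_lt_top.ne)
    _ = 4 * ε := by
        rw [integral_indicator_const _ measurableSet_Icc, Real.volume_real_Icc_of_le (by linarith)]
        simp only [smul_eq_mul]
        ring

/-- The mollification of a function with a square integrable derivative. -/
theorem C7_moll {F : ℝ → ℝ} {y g : L2} (hy : ∀ᵐ x ∂volume, y x = F x)
    (hF : ∀ a b : ℝ, F b - F a = ∫ r in a..b, g r) {ε : ℝ} (hε : 0 < ε) :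
    ‖Mo 0 ε y - y‖ ≤ 4 * ε * ‖g‖ := by
  obtain ⟨k1, k2, k3, k4, k5, k6⟩ := ker_smooth hε
  have hFc : Continuous F := by
    have : F = fun x => F 0 + ∫ r in (0 : ℝ)..x, g r := by
      funext x
      rw [← hF 0 x]
      ring
    rw [this]
    exact continuous_const.add (intervalIntegral.continuous_primitive
      (fun a b => g.intervalIntegrable a b) 0)
  have hMo : Mo 0 ε y = cv (ker ε) y := by
    unfold Mo
    rw [iteratedDeriv_zero]
  have hab : ∀ᵐ x ∂volume, |g| x = |g x| := Lp.coeFn_abs g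
  have key : ∀ x, y x = F x → cv (ker ε) y x = cvf (ker ε) y x →
      cv (C7_kap ε) |g| x = cvf (C7_kap ε) |g| x →
      |cv (ker ε) y x - y x| ≤ cv (C7_kap ε) |g| x := by
    intro x h1 h2 h3
    rw [h1, h2, h3]
    have a1 : cvf (ker ε) y x = ∫ s, ker ε (x - s) * F s := by
      unfold cvf
      refine integral_congr_ae ?_
      filter_upwards [hy] with s hs
      rw [hs]
    have a2 : F x = ∫ s, ker ε (x - s) * F x := by
      rw [integral_mul_const, integral_sub_left_eq_self (fun s => ker ε s), k5, one_mul]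
    have i1 : Integrable (fun s => ker ε (x - s)) volume :=
      ((k1.continuous.integrable_of_hasCompactSupport k2).comp_sub_left x)
    have i2 : Integrable (fun s => ker ε (x - s) * F s) volume := by
      refine Continuous.integrable_of_hasCompactSupport
        ((k1.continuous.comp (by fun_prop)).mul hFc) ?_
      exact (k2.comp_homeomorph (Homeomorph.subLeft x)).mul_right
    have i3 : Integrable (fun s => ker ε (x - s) * F x) volume := i1.mul_const _
    have a3 : cvf (ker ε) y x - F x = ∫ s, ker ε (x - s) * (F s - F x) := by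
      conv_lhs => rw [a1, a2, ← integral_sub i2 i3]
      exact integral_congr_ae (Eventually.of_forall fun s => by simp only; ring)
    have i4 : Integrable (fun r => C7_kap ε (x - r) * |g r|) volume := by
      have m1 : MemLp (fun r => C7_kap ε (x - r)) 2 volume :=
        Continuous.memLp_of_hasCompactSupport ((C7_kap_cont ε).comp (by fun_prop))
          ((C7_kap_supp hε).comp_homeomorph (Homeomorph.subLeft x))
      refine (m1.integrable_mul (Lp.memLp |g|)).congr ?_
      filter_upwards [hab] with r hr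
      rw [Pi.mul_apply, hr]
    set A := ∫ r, C7_kap ε (x - r) * |g r| with hA
    have hA0 : 0 ≤ A := integral_nonneg fun r => mul_nonneg (C7_kap_nonneg _ _) (abs_nonneg _)
    have a4 : ∀ s, |s - x| ≤ ε → |F s - F x| ≤ A := by
      intro s hs
      rw [hF x s]
      refine (intervalIntegral.norm_integral_le_integral_norm_uIoc (μ := volume)
        (f := fun r => (g r : ℝ)) (a := x) (b := s)).trans ?_
      rw [← integral_indicator measurableSet_uIoc]
      refine integral_mono_of_nonneg (Eventually.of_forall fun r => ?_) i4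
        (Eventually.of_forall fun r => ?_)
      · exact indicator_nonneg (fun r _ => norm_nonneg _) r
      · simp only
        by_cases hr : r ∈ uIoc x s
        · rw [indicator_of_mem hr, C7_kap_in hε, one_mul]
          · exact le_rfl
          · rw [mem_uIoc] at hr
            rw [abs_le] at hs ⊢
            rcases hr with hr | hr <;> constructor <;> linarith [hr.1, hr.2, hs.1, hs.2]
        · rw [indicator_of_notMem hr]
          exact mul_nonneg (C7_kap_nonneg _ _) (abs_nonneg _)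
    have a5 : cvf (C7_kap ε) |g| x = A := by
      unfold cvf
      rw [hA]
      refine integral_congr_ae ?_
      filter_upwards [hab] with r hr
      rw [hr]
    rw [a5, a3]
    refine (abs_integral_le_integral_abs).trans ?_
    have a6 : A = ∫ s, ker ε (x - s) * A := by
      rw [integral_mul_const, integral_sub_left_eq_self (fun s => ker ε s), k5, one_mul]
    rw [a6]
    refine integral_mono_of_nonneg (Eventually.of_forall fun s => abs_nonneg _)
      (i1.mul_const _) (Eventually.of_forall fun s => ?_)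
    simp only
    rw [abs_mul, abs_of_nonneg (k4 _)]
    by_cases hs : |x - s| < ε
    · refine mul_le_mul_of_nonneg_left (a4 s ?_) (k4 _)
      rw [abs_sub_comm]
      exact hs.le
    · rw [k3 _ (not_lt.1 hs), zero_mul, zero_mul]
  have h1 : ‖Mo 0 ε y - y‖ ≤ ‖cv (C7_kap ε) |g|‖ := by
    rw [hMo]
    refine Lp.norm_le_norm_of_ae_le ?_
    filter_upwards [hy, cv_ae k1.continuous k2 y, cv_ae (C7_kap_cont ε) (C7_kap_supp hε) |g|,
      Lp.coeFn_sub (cv (ker ε) y) y] with x h1 h2 h3 h4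
    rw [h4, Pi.sub_apply, Real.norm_eq_abs, Real.norm_eq_abs]
    exact (key x h1 h2 h3).trans (le_abs_self _)
  refine h1.trans ((cv_norm (C7_kap_cont ε) (C7_kap_supp hε) |g|).trans ?_)
  rw [norm_abs_eq_norm]
  exact mul_le_mul_of_nonneg_right (C7_kap_int hε) (norm_nonneg _)

/-- The product of a smooth function supported in `J` and of an element of `V1`. -/
theorem C7_prod_ac {L : ℝ} {m : ℝ → ℝ} (hm : ContDiff ℝ ∞ m) {C0 C1 : ℝ} (hC0 : ∀ x, |m x| ≤ C0)
    (hC1 : ∀ x, |deriv m x| ≤ C1) (P : V1 L)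
    (hm0 : ∀ x, x ∉ J L → m x = 0 ∧ deriv m x = 0) (a b : ℝ) :
    m b * P.val b - m a * P.val a =
      ∫ r in a..b, (mulOp (deriv m) (V1.u L P) + mulOp m (V1.d L P) : L2) r := by
  have hmd : Differentiable ℝ m := hm.differentiable (by simp)
  have hdc : Continuous (deriv m) := hm.continuous_deriv (by simp)
  have hmac : AbsolutelyContinuousOnInterval m a b :=
    (hm.contDiffOn.of_le (by simp)).absolutelyContinuousOnInterval
  have hac := hmac.mul (AgmAux.ac P a b)
  have h1 := hac.integral_deriv_eq_sub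
  simp only [Pi.mul_apply] at h1
  rw [← h1]
  refine intervalIntegral.integral_congr_ae ?_
  filter_upwards [AgmAux.hasDerivAt P, P.val_ae,
    Lp.coeFn_add (mulOp (deriv m) (V1.u L P)) (mulOp m (V1.d L P)),
    mulOp_ae hdc.measurable ⟨C1, hC1⟩ (V1.u L P),
    mulOp_ae hmd.continuous.measurable ⟨C0, hC0⟩ (V1.d L P)] with x a1 a2 a3 a4 a5 _
  rw [a3, Pi.add_apply, a4, a5, ((hmd x).hasDerivAt.mul a1).deriv]
  by_cases hx : x ∈ J L
  · rw [a2 hx]
  · rw [(hm0 x hx).1, (hm0 x hx).2]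
    ring

/-- The mollification of the controlled part. -/
theorem yy_moll (h : Cub p e e' α s) : ∃ C : ℝ, 0 ≤ C ∧ ∀ (ε : ℝ) (v : VV 2 p.L), 0 < ε →
    ‖Mo 0 ε (Mo 0 ε (yy p e' v)) - yy p e' v‖ ≤ C * ε * √(Vx v + ‖inc 2 p.L v‖ ^ 2) := by
  have hL := p.hL
  set m : ℝ → ℝ := fun x => 1 - damp p.L x with hm
  have hdm := Mlt_damp hL
  have hms : ContDiff ℝ ∞ m := contDiff_const.sub hdm.1
  have hm0 : ∀ x, |m x| ≤ 1 := fun x => by
    have := (damp_facts hL).1 x
    exact C7_abs_le_one' (by rw [hm]; constructor <;> simp only <;> linarith)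
  obtain ⟨C1, hC1⟩ := hdm.2 1
  rw [iteratedDeriv_one] at hC1
  have hmder : ∀ x, deriv m x = -deriv (damp p.L) x := fun x => by
    rw [hm, deriv_const_sub]
  have hm1 : ∀ x, |deriv m x| ≤ C1 := fun x => by
    rw [hmder, abs_neg]
    exact hC1 x
  have hC1' : 0 ≤ C1 := (abs_nonneg _).trans (hC1 0)
  have hmJ : ∀ x, x ∉ J p.L → m x = 0 ∧ deriv m x = 0 := by
    intro x hx
    constructor
    · rw [hm]
      simp only
      rw [(damp_facts hL).2.2.1 x, sub_self]
      exact fun h1 => hx ⟨by linarith [h1.1], by linarith [h1.2]⟩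
    · rw [hmder, (damp_facts hL).2.2.2 x, neg_zero]
      exact fun h1 => hx ⟨by linarith [h1.1], by linarith [h1.2]⟩
  have he' : ∀ j, |e' j| ≤ 1 := by
    have h1 := (C7_frame h e').2
    simp only [dot, Fin.sum_univ_two] at h1
    intro j
    rw [abs_le_one_iff_mul_self_le_one]
    fin_cases j
    · simp only [Fin.zero_eta, Fin.isValue]
      nlinarith [mul_self_nonneg (e' 1)]
    · simp only [Fin.mk_one, Fin.isValue]
      nlinarith [mul_self_nonneg (e' 0)]
  refine ⟨8 * (2 * C1 + 2), by positivity, fun ε v hε => ?_⟩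
  set N := √(Vx v + ‖inc 2 p.L v‖ ^ 2) with hN
  have hV : 0 ≤ Vx v := Finset.sum_nonneg fun j _ => sq_nonneg _
  have hN0 : 0 ≤ N := Real.sqrt_nonneg _
  have hNu : ∀ j, ‖uu j v‖ ≤ N := by
    intro j
    refine Real.le_sqrt_of_sq_le ?_
    have h1 : ‖uu j v‖ ≤ ‖inc 2 p.L v‖ := PiLp.norm_apply_le (inc 2 p.L v) j
    have h2 : ‖uu j v‖ ^ 2 ≤ ‖inc 2 p.L v‖ ^ 2 := by gcongr
    linarith
  have hNd : ∀ j, ‖dd j v‖ ≤ N := by
    intro j
    refine Real.le_sqrt_of_sq_le ?_
    have h1 : ‖dd j v‖ ^ 2 ≤ Vx v :=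
      Finset.single_le_sum (f := fun j => ‖dd j v‖ ^ 2) (fun j _ => sq_nonneg _)
        (Finset.mem_univ j)
    linarith [sq_nonneg ‖inc 2 p.L v‖]
  set P : V1 p.L := ∑ j, e' j • v j with hP
  have hPu : V1.u p.L P = cmp e' (inc 2 p.L v) := by
    rw [hP, map_sum]
    unfold cmp
    exact Finset.sum_congr rfl fun j _ => by rw [map_smul]; rfl
  have hPd : V1.d p.L P = ∑ j, e' j • dd j v := by
    rw [hP, map_sum]
    exact Finset.sum_congr rfl fun j _ => by rw [map_smul]; rfl
  have hPu1 : ‖V1.u p.L P‖ ≤ 2 * N := by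
    rw [hPu]
    unfold cmp
    refine (norm_sum_le _ _).trans ?_
    rw [Fin.sum_univ_two, norm_smul, norm_smul]
    have h1 : ‖e' 0‖ * ‖inc 2 p.L v 0‖ ≤ 1 * N :=
      mul_le_mul (he' 0) (hNu 0) (norm_nonneg _) zero_le_one
    have h2 : ‖e' 1‖ * ‖inc 2 p.L v 1‖ ≤ 1 * N :=
      mul_le_mul (he' 1) (hNu 1) (norm_nonneg _) zero_le_one
    linarith
  have hPd1 : ‖V1.d p.L P‖ ≤ 2 * N := by
    rw [hPd]
    refine (norm_sum_le _ _).trans ?_
    rw [Fin.sum_univ_two, norm_smul, norm_smul]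
    have h1 : ‖e' 0‖ * ‖dd 0 v‖ ≤ 1 * N :=
      mul_le_mul (he' 0) (hNd 0) (norm_nonneg _) zero_le_one
    have h2 : ‖e' 1‖ * ‖dd 1 v‖ ≤ 1 * N :=
      mul_le_mul (he' 1) (hNd 1) (norm_nonneg _) zero_le_one
    linarith
  set g : L2 := mulOp (deriv m) (V1.u p.L P) + mulOp m (V1.d p.L P) with hg
  have hmc : Continuous m := hms.continuous
  have hmdc : Continuous (deriv m) := hms.continuous_deriv (by simp)
  have hg1 : ‖g‖ ≤ (2 * C1 + 2) * N := by
    refine (norm_add_le _ _).trans ?_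
    have h1 : ‖mulOp (deriv m) (V1.u p.L P)‖ ≤ C1 * ‖V1.u p.L P‖ := by
      refine Lp.norm_le_mul_norm_of_ae_le_mul ?_
      filter_upwards [mulOp_ae hmdc.measurable ⟨C1, hm1⟩ (V1.u p.L P)] with x hx
      rw [hx, norm_mul]
      exact mul_le_mul_of_nonneg_right (hm1 x) (norm_nonneg _)
    have h2 : ‖mulOp m (V1.d p.L P)‖ ≤ 1 * ‖V1.d p.L P‖ := by
      refine Lp.norm_le_mul_norm_of_ae_le_mul ?_
      filter_upwards [mulOp_ae hmc.measurable ⟨1, hm0⟩ (V1.d p.L P)] with x hx
      rw [hx, norm_mul]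
      exact mul_le_mul_of_nonneg_right (hm0 x) (norm_nonneg _)
    have h3 : C1 * ‖V1.u p.L P‖ ≤ C1 * (2 * N) := by gcongr
    linarith
  have hyy : yy p e' v = mulOp m (V1.u p.L P) := by
    rw [hPu]
    rfl
  have hy : ∀ᵐ x ∂volume, yy p e' v x = m x * P.val x := by
    rw [hyy]
    filter_upwards [mulOp_ae hmc.measurable ⟨1, hm0⟩ (V1.u p.L P), P.val_ae] with x h1 h2
    rw [h1]
    by_cases hx : x ∈ J p.L
    · rw [h2 hx]
    · rw [(hmJ x hx).1, zero_mul, zero_mul]
  have h1 := C7_moll (F := fun x => m x * P.val x) (g := g) hy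
    (fun a b => C7_prod_ac hms hm0 hm1 P hmJ a b) hε
  have h2 : ‖Mo 0 ε (Mo 0 ε (yy p e' v)) - yy p e' v‖ ≤
      ‖Mo 0 ε (yy p e' v) - yy p e' v‖ + ‖Mo 0 ε (yy p e' v) - yy p e' v‖ := by
    have h3 : Mo 0 ε (Mo 0 ε (yy p e' v)) - yy p e' v =
        Mo 0 ε (Mo 0 ε (yy p e' v) - yy p e' v) + (Mo 0 ε (yy p e' v) - yy p e' v) := by
      rw [map_sub]
      abel
    rw [h3]
    refine (norm_add_le _ _).trans ?_
    gcongr
    exact Mo_zero_norm hε _
  have h3 : 4 * ε * ‖g‖ ≤ 4 * ε * ((2 * C1 + 2) * N) := by gcongr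
  linarith

end Pool.Agent.KG
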