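import Pool.Agent.Lib.KG.UpD

/-!
# Row C8: linear control of Airy's equation with a transport term
-/

set_option autoImplicit false

namespace Pool.Agent.KG

open MeasureTheory Filter Topology Set
open Pool.Agent.Kdv
open scoped ENNReal ContDiff InnerProductSpace

variable {n : ℕ}


/-- The convolution with a translate. -/
theorem C8_tr {k : ℝ → ℝ} (hk : Continuous k) (hc : HasCompactSupport k) (a : ℝ) (y : L2) :
    ∀ᵐ x ∂volume, cv k (refl a (refl 0 y)) x = cv k y (x - a) := by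
  have q := (measurePreserving_sub_right (volume : Measure ℝ) a).quasiMeasurePreserving
  filter_upwards [cv_ae hk hc (refl a (refl 0 y)), q.ae (cv_ae hk hc y)] with x h1 h2
  rw [h1, h2, cvf, cvf]
  have h3 : (∫ s, k (x - s) * refl a (refl 0 y) s) = ∫ s, k (x - s) * y (s - a) := by
    refine integral_congr_ae ?_
    filter_upwards [Inf04Aux.tr_ae a y] with s hs
    rw [hs]
  rw [h3, ← integral_sub_right_eq_self (fun s => k (x - a - s) * y s) a]
  refine integral_congr_ae (Eventually.of_forall fun s => ?_)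
  change k (x - s) * y (s - a) = k (x - a - (s - a)) * y (s - a)
  congr 2
  ring

theorem C8_cs {k : ℝ → ℝ} (h0 : ∀ x, 1 / 4 ≤ |x| → k x = 0) : HasCompactSupport k :=
  HasCompactSupport.intro (isCompact_Icc (a := (-1 / 4 : ℝ)) (b := 1 / 4)) fun x hx => by
    refine h0 x ?_
    by_contra h
    have h1 := abs_lt.mp (not_le.mp h)
    exact hx ⟨by linarith [h1.1], h1.2.le⟩

theorem C8_deriv {k : ℝ → ℝ} (h0 : ∀ x, 1 / 4 ≤ |x| → k x = 0) {x : ℝ} (hx : 1 / 2 ≤ |x|) :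
    deriv k x = 0 := by
  have h1 : k =ᶠ[𝓝 x] fun _ => 0 := by
    have h2 : {y : ℝ | 1 / 4 < |y|} ∈ 𝓝 x :=
      (isOpen_lt continuous_const continuous_abs).mem_nhds (by
        change 1 / 4 < |x|
        linarith)
    filter_upwards [h2] with y hy
    exact h0 y (le_of_lt hy)
  rw [h1.deriv_eq, deriv_const]

/-- The convolution of a transport term. -/
theorem C8_parts {L s : ℝ} (hL : 0 < L) {g : L2} (v : V1 L)
    (hg : ∀ᵐ x ∂volume, x ∈ Ioo 0 L → g x = -s * V1.d L v x)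
    {k : ℝ → ℝ} (hk : ContDiff ℝ ∞ k) (h0 : ∀ x, 1 / 4 ≤ |x| → k x = 0) :
    ∀ᵐ x ∂volume, x ∈ Ioo (1 / 2) (L - 1 / 2) →
      cv k g x = -s * cv (deriv k) (V1.u L v) x := by
  have hc := C8_cs h0
  have hk' : Continuous (deriv k) := hk.continuous_deriv (by simp)
  have hd : ∀ x, HasDerivAt k (deriv k x) x := fun x =>
    ((hk.differentiable (by simp)) x).hasDerivAt
  filter_upwards [cv_ae hk.continuous hc g, cv_ae hk' hc.deriv (V1.u L v)] with x h1 h2 hx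
  rw [h1, h2, cvf, cvf]
  have e1 : (∫ y, k (x - y) * g y) = ∫ y in (x - 1 / 2)..(x + 1 / 2), k (x - y) * g y := by
    refine (intervalIntegral.integral_eq_integral_of_support_subset fun y hy => ?_).symm
    by_contra h
    refine hy ?_
    change k (x - y) * g y = 0
    rw [h0 (x - y) ?_, zero_mul]
    by_contra h'
    have h3 := abs_lt.mp (not_le.mp h')
    exact h ⟨by linarith [h3.2], by linarith [h3.1]⟩
  have e2 : (∫ y, deriv k (x - y) * V1.u L v y) =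
      ∫ y in (x - 1 / 2)..(x + 1 / 2), deriv k (x - y) * V1.u L v y := by
    refine (intervalIntegral.integral_eq_integral_of_support_subset fun y hy => ?_).symm
    by_contra h
    refine hy ?_
    change deriv k (x - y) * V1.u L v y = 0
    rw [C8_deriv h0 (x := x - y) ?_, zero_mul]
    by_contra h'
    have h3 := abs_lt.mp (not_le.mp h')
    exact h ⟨by linarith [h3.2], by linarith [h3.1]⟩
  have hab : x - 1 / 2 ≤ x + 1 / 2 := by linarith
  have e3 : (∫ y in (x - 1 / 2)..(x + 1 / 2), k (x - y) * g y) =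
      ∫ y in (x - 1 / 2)..(x + 1 / 2), -s * (k (x - y) * V1.d L v y) := by
    refine intervalIntegral.integral_congr_ae ?_
    filter_upwards [hg, compl_mem_ae_iff.mpr (measure_singleton L)] with y hy hne hy2
    rw [uIoc_of_le hab] at hy2
    have h5 : y ≠ L := hne
    rw [hy ⟨by linarith [hy2.1, hx.1], lt_of_le_of_ne (by linarith [hy2.2, hx.2]) h5⟩]
    ring
  have e4 : (∫ y in (x - 1 / 2)..(x + 1 / 2), deriv k (x - y) * V1.u L v y) =
      ∫ y in (x - 1 / 2)..(x + 1 / 2), deriv k (x - y) * v.val y := by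
    refine intervalIntegral.integral_congr_ae ?_
    filter_upwards [v.val_ae] with y hy hy2
    rw [uIoc_of_le hab] at hy2
    rw [hy ⟨by linarith [hy2.1, hx.1], by linarith [hy2.2, hx.2]⟩]
  have hw : ∀ y, HasDerivAt (fun y => k (x - y)) (-deriv k (x - y)) y := fun y =>
    (hd (x - y)).comp_const_sub x y
  have hwc : Continuous fun y => -deriv k (x - y) :=
    (hk'.comp (continuous_const.sub continuous_id)).neg
  have e5 := UniqBAux.parts1 hL v (a := x - 1 / 2) (b := x + 1 / 2) (by linarith [hx.1]) hab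
    (by linarith [hx.2]) hw hwc
  have i1 : IntervalIntegrable (fun y => -deriv k (x - y) * v.val y) volume (x - 1 / 2)
      (x + 1 / 2) := (hwc.mul v.val_cont).intervalIntegrable _ _
  have i2 : IntervalIntegrable (fun y => k (x - y) * V1.d L v y) volume (x - 1 / 2)
      (x + 1 / 2) := (L2.intervalIntegrable (V1.d L v) _ _).continuousOn_mul
        (hk.continuous.comp (continuous_const.sub continuous_id)).continuousOn
  rw [intervalIntegral.integral_add i1 i2] at e5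
  have e6 : k (x - (x + 1 / 2)) = 0 := h0 _ (by
    rw [show x - (x + 1 / 2) = -(1 / 2) by ring, abs_neg]
    norm_num)
  have e7 : k (x - (x - 1 / 2)) = 0 := h0 _ (by
    rw [show x - (x - 1 / 2) = 1 / 2 by ring]
    norm_num)
  have e8 : (∫ y in (x - 1 / 2)..(x + 1 / 2), -deriv k (x - y) * v.val y) =
      -∫ y in (x - 1 / 2)..(x + 1 / 2), deriv k (x - y) * v.val y := by
    rw [← intervalIntegral.integral_neg]
    refine intervalIntegral.integral_congr fun y _ => ?_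
    change -deriv k (x - y) * v.val y = -(deriv k (x - y) * v.val y)
    ring
  rw [e6, e7, zero_mul, zero_mul, sub_zero, e8] at e5
  rw [e1, e2, e3, e4, intervalIntegral.integral_const_mul]
  congr 1
  linarith

/-- The scalar system on `(0, L)`. -/
def C8_pr {L μ : ℝ} (hL : 0 < L) (hμ : 0 < μ) (s : ℝ) : Pr 1 where
  L := L
  hL := hL
  mu := fun _ => μ
  hmu := fun _ => hμ
  g := fun _ _ _ => 0
  g12 := fun _ _ _ => rfl
  g23 := fun _ _ _ => rfl
  S := fun _ _ => s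
  hS := fun _ _ => rfl

/-- Linear control on `(0, L)`. -/
theorem C8_lin {L μ s : ℝ} (hL : 0 < L) (hμ : 0 < μ) : ∃ (T C : ℝ), 0 < T ∧ T ≤ 1 ∧ 0 ≤ C ∧
    ∀ y : L2, ∃ (f : ℝ → L2) (v : ℝ → V1 L), IntegrableOn f (Ioc 0 T) ∧
      (∫ t in (0 : ℝ)..T, ‖f t‖) ≤ C * ‖y‖ ∧
      airy (μ * T) y + (∫ r in (0 : ℝ)..T, airy (μ * (T - r)) (f r)) = 0 ∧
      (∀ᵐ t ∂volume.restrict (Ioc (0 : ℝ) T), V1.u L (v t) =
        airy (μ * t) y + ∫ r in (0 : ℝ)..t, airy (μ * (t - r)) (f r)) ∧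
      ∀ᵐ t ∂volume.restrict (Ioc (0 : ℝ) T), ∀ᵐ x ∂volume, x ∈ Ioo 0 L →
        f t x = -s * V1.d L (v t) x := by
  obtain ⟨S, hS1, hS2, hS3, -, -⟩ := Inf16_sys (C8_pr hL hμ s)
  have : Fact ((2 : ENNReal) ≠ ⊤) := ⟨by norm_num⟩
  obtain ⟨T, hT, hT1, h⟩ := S.toSm.exists_flow S.ld
  obtain ⟨Lf, hLf⟩ := S.toSm.exists_lift hT hT1
  obtain ⟨Fl, hFl⟩ := h T hT le_rfl Lf hLf
  obtain ⟨θ, h0, h1, hθ⟩ := S.contr hT hLf hFl
  obtain ⟨Th, hTh⟩ := S.russell hT hLf hFl h0 h1 hθ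
  refine ⟨T, ‖Th‖, hT, hT1, norm_nonneg _, fun y => ?_⟩
  obtain ⟨y0, hy0⟩ : ∃ y0 : HH 1, y0 = WithLp.toLp 2 fun _ => y := ⟨_, rfl⟩
  have hy00 : y0 0 = y := by rw [hy0]
  have hyn : ‖y0‖ = ‖y‖ := by
    rw [PiLp.norm_eq_of_L2, Fin.sum_univ_one, hy00, Real.sqrt_sq (norm_nonneg _)]
  obtain ⟨F, hF⟩ : ∃ F : XL (HH 1) T, F = Th (y0, 0, 0) := ⟨_, rfl⟩
  obtain ⟨g1, g2⟩ := hTh y0 0 0
  rw [← hF] at g1 g2
  have hFi : IntegrableOn F (Ioc 0 T) := L1.integrable_coeFn F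
  have hlift := hLf.eq y0 F
  rw [hS1] at g1 hlift
  obtain ⟨v, hv⟩ : ∃ v : ℝ → VV 1 L, v = fun t => Lf (y0, F) t := ⟨_, rfl⟩
  have htr : ∀ t ∈ Icc 0 T, (C8_pr hL hμ s).sm.traj y0 F t 0 =
      airy (μ * t) y + ∫ r in (0 : ℝ)..t, airy (μ * (t - r)) (F r 0) := by
    intro t ht
    have h2 := traj_comp (C8_pr hL hμ s).std y0 hFi ht 0
    rw [hy00] at h2
    exact h2
  have hi0 : IntegrableOn (fun t => F t 0) (Ioc 0 T) := (prH (0 : Fin 1)).integrable_comp hFi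
  refine ⟨fun t => F t 0, fun t => v t 0, hi0, ?_, ?_, ?_, ?_⟩
  · have h2 : ∫ t in (0 : ℝ)..T, ‖F t‖ = ‖F‖ := by
      rw [intervalIntegral.integral_of_le hT.le, L1.norm_eq_integral_norm]
    have h3 : (∫ t in (0 : ℝ)..T, ‖F t 0‖) ≤ ∫ t in (0 : ℝ)..T, ‖F t‖ := by
      refine intervalIntegral.integral_mono_on hT.le ?_ ?_ fun t _ => PiLp.norm_apply_le (F t) 0
      · rw [intervalIntegrable_iff, uIoc_of_le hT.le]
        exact hi0.norm
      · rw [intervalIntegrable_iff, uIoc_of_le hT.le]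
        exact hFi.norm
    refine h3.trans ?_
    rw [h2, hF, ← hyn]
    refine (Th.le_opNorm _).trans (mul_le_mul_of_nonneg_left ?_ (norm_nonneg _))
    rw [Prod.norm_mk, Prod.norm_mk, norm_zero, norm_zero]
    simp
  · rw [← htr T ⟨hT.le, le_rfl⟩, g1]
    rfl
  · filter_upwards [hlift, ae_restrict_mem measurableSet_Ioc] with t h2 h3
    rw [← htr t ⟨h3.1.le, h3.2⟩, ← h2, hv]
    rfl
  · have hz := Lp.coeFn_zero (HH 1) 1 ((volume : Measure ℝ).restrict (Ioc 0 T))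
    filter_upwards [g2, hz] with t h2 h3
    rw [h3, hS2, hS3, Pi.zero_apply, add_zero] at h2
    have h4 : PP 1 L (F t) 0 = PP 1 L (lmap 1 L (fun _ _ => s) (v t)) 0 := by
      have h5 := congrArg (fun z : HH 1 => z 0) h2
      rw [hv]
      exact h5
    have h6 := UniqBAux.PP_ae L (F t) 0
    have h7 := UniqBAux.PP_ae L (lmap 1 L (fun _ _ => s) (v t)) 0
    rw [h4] at h6
    have h8 : lmap 1 L (fun _ _ => s) (v t) 0 = -(s • (mulOp (chi L) (dd 0 (v t)) +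
        (1 / 2 : ℝ) • mulOp (dchi L) (uu 0 (v t)))) := by
      unfold lmap
      rw [mkH_apply]
      simp
    rw [h8] at h7
    have hchi : ∀ᵐ x ∂volume, mulOp (chi L) (dd 0 (v t)) x = chi L x * dd 0 (v t) x :=
      mulOp_ae (UniqBAux.chi_cont L).measurable ⟨1, Skw.chi_bdd L⟩ _
    have hdchi : ∀ᵐ x ∂volume, mulOp (dchi L) (uu 0 (v t)) x = dchi L x * uu 0 (v t) x :=
      mulOp_ae (Skw.dchi_meas L) ⟨2, Skw.dchi_bdd L⟩ _
    filter_upwards [h6, h7, hchi, hdchi, Skw.dchi_mid (L := L),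
      Lp.coeFn_neg (s • (mulOp (chi L) (dd 0 (v t)) + (1 / 2 : ℝ) • mulOp (dchi L) (uu 0 (v t)))),
      Lp.coeFn_smul s (mulOp (chi L) (dd 0 (v t)) + (1 / 2 : ℝ) • mulOp (dchi L) (uu 0 (v t))),
      Lp.coeFn_add (mulOp (chi L) (dd 0 (v t))) ((1 / 2 : ℝ) • mulOp (dchi L) (uu 0 (v t))),
      Lp.coeFn_smul (1 / 2 : ℝ) (mulOp (dchi L) (uu 0 (v t)))] with x a1 a2 a3 a4 a5 a6 a7 a8 a9 hx
    rw [a2, UniqBAux.one_in hx, one_mul, one_mul, a6, Pi.neg_apply, a7, Pi.smul_apply, a8,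
      Pi.add_apply, a9, Pi.smul_apply, a3, a4, a5 ⟨hx.1, hx.2.le⟩,
      UniqBAux.chi_b ⟨hx.1.le, hx.2.le⟩, zero_mul, smul_zero, add_zero, one_mul, smul_eq_mul] at a1
    rw [← a1, neg_mul]
    rfl

/-- Row C8. -/
theorem airy_control' {L μ s : ℝ} (hL : 0 < L) (hμ : 0 < μ) : ∃ (T C : ℝ), 0 < T ∧ T ≤ 1 ∧ 0 ≤ C ∧
    ∀ y : L2, ∃ f : ℝ → L2, IntegrableOn f (Ioc 0 T) ∧
      (∫ t in (0 : ℝ)..T, ‖f t‖) ≤ C * ‖y‖ ∧
      airy (μ * T) y + (∫ r in (0 : ℝ)..T, airy (μ * (T - r)) (f r)) = 0 ∧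
      ∀ k : ℝ → ℝ, ContDiff ℝ ∞ k → (∀ x, 1 / 4 ≤ |x| → k x = 0) →
        ∀ᵐ t ∂volume.restrict (Ioc (0 : ℝ) T), ∀ᵐ x ∂volume, x ∈ Ioo (-3 / 2) (L + 3 / 2) →
          cv k (f t) x = -s * cv (deriv k)
            (airy (μ * t) y + ∫ r in (0 : ℝ)..t, airy (μ * (t - r)) (f r)) x := by
  have hL4 : 0 < L + 4 := by linarith
  obtain ⟨T, C, hT, hT1, hC, hh⟩ := C8_lin (s := s) hL4 hμ
  refine ⟨T, C, hT, hT1, hC, fun y => ?_⟩
  obtain ⟨f, v, h1, h2, h3, h4, h5⟩ := hh (refl 2 (refl 0 y))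
  -- the translation
  let Tr : L2 →L[ℝ] L2 :=
    (refl (-2)).toContinuousLinearMap.comp (refl 0).toContinuousLinearMap
  have hTr : ∀ w, Tr w = refl (-2) (refl 0 w) := fun _ => rfl
  have hTn : ∀ w, ‖Tr w‖ = ‖w‖ := fun w => by
    rw [hTr, LinearIsometry.norm_map, LinearIsometry.norm_map]
  have hTy : Tr (refl 2 (refl 0 y)) = y := by
    rw [hTr]
    apply Lp.ext
    have q := (measurePreserving_sub_right (volume : Measure ℝ) (-2)).quasiMeasurePreserving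
    filter_upwards [Inf04Aux.tr_ae (-2) (refl 2 (refl 0 y)), q.ae (Inf04Aux.tr_ae 2 y)] with x a b
    rw [a, b]
    congr 1
    ring
  have hTa : ∀ c w, Tr (airy c w) = airy c (Tr w) := fun c w => Inf04Aux.tr_airy (-2) c w
  have hTt : ∀ t ∈ Icc 0 T, Tr (airy (μ * t) (refl 2 (refl 0 y)) +
      ∫ r in (0 : ℝ)..t, airy (μ * (t - r)) (f r)) =
      airy (μ * t) y + ∫ r in (0 : ℝ)..t, airy (μ * (t - r)) (Tr (f r)) := by
    intro t ht
    have hi : IntervalIntegrable (fun r => airy (μ * (t - r)) (f r)) volume 0 t :=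
      ii_of ((sm1 hL hμ).traj_int h1 t) le_rfl ht.1 ht.2
    rw [map_add, hTa, hTy, ← Tr.intervalIntegral_comp_comm hi]
    congr 1
    refine intervalIntegral.integral_congr fun r _ => ?_
    exact hTa _ _
  refine ⟨fun t => Tr (f t), Tr.integrable_comp h1, ?_, ?_, ?_⟩
  · simp only [hTn]
    refine h2.trans (le_of_eq ?_)
    rw [LinearIsometry.norm_map, LinearIsometry.norm_map]
  · rw [← hTt T ⟨hT.le, le_rfl⟩, h3, map_zero]
  · intro k hk hk0
    have hc := C8_cs hk0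
    filter_upwards [h4, h5, ae_restrict_mem measurableSet_Ioc] with t g4 g5 g6
    rw [← hTt t ⟨g6.1.le, g6.2⟩, ← g4, hTr, hTr]
    have q := (measurePreserving_sub_right (volume : Measure ℝ) (-2)).quasiMeasurePreserving
    filter_upwards [C8_tr hk.continuous hc (-2) (f t),
      C8_tr (hk.continuous_deriv (by simp)) hc.deriv (-2) (V1.u (L + 4) (v t)),
      q.ae (C8_parts hL4 (v t) g5 hk hk0)] with x a b c hx
    rw [a, b, c ⟨by linarith [hx.1], by linarith [hx.2]⟩]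


end Pool.Agent.KG
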