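import Pool.Agent.Lib.KG.R_C1
import Pool.Agent.Lib.KG.R_C8
import Pool.Agent.Lib.KG.R_D1
import Pool.Agent.Lib.KG.R_D2
import Pool.Agent.Lib.KG.R_D3
import Pool.Agent.Lib.KG.R_D4
import Pool.Agent.Lib.KG.R_U1

/-!
# Row C9: the background with a controlled component
-/

set_option autoImplicit false

namespace Pool.Agent.KG

open MeasureTheory Filter Topology Set
open Pool.Agent.Kdv
open scoped ENNReal ContDiff InnerProductSpace

variable {p : Pr 2} {e e' : Fin 2 → ℝ} {α s : ℝ}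

/-! ### Convolutions -/

theorem C9_mem_k {k : ℝ → ℝ} (hk : Continuous k) (hc : HasCompactSupport k) (x : ℝ) :
    MemLp (fun r => k (x - r)) 2 volume :=
  Continuous.memLp_of_hasCompactSupport (hk.comp (by fun_prop))
    (hc.comp_homeomorph (Homeomorph.subLeft x))

theorem C9_int_k {k : ℝ → ℝ} (hk : Continuous k) (hc : HasCompactSupport k) (x : ℝ) (u : L2) :
    Integrable (fun r => k (x - r) * u r) volume :=
  (C9_mem_k hk hc x).integrable_mul (Lp.memLp u)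

theorem C9_cvf_sub {k : ℝ → ℝ} (hk : Continuous k) (hc : HasCompactSupport k) (u v : L2) (x : ℝ) :
    cvf k (u - v) x = cvf k u x - cvf k v x := by
  unfold cvf
  rw [← integral_sub (C9_int_k hk hc x u) (C9_int_k hk hc x v)]
  refine integral_congr_ae ?_
  filter_upwards [Lp.coeFn_sub u v] with r hr
  rw [hr, Pi.sub_apply]
  ring

theorem C9_cvf_bound {k : ℝ → ℝ} (hk : Continuous k) (hc : HasCompactSupport k) (u : L2) (x : ℝ) :
    |cvf k u x| ≤ √(∫ r, k r ^ 2) * ‖u‖ := by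
  have hm := C9_mem_k hk hc x
  have h1 : cvf k u x = inner ℝ (hm.toLp _) u := by
    rw [L2.inner_def]
    unfold cvf
    refine integral_congr_ae ?_
    filter_upwards [hm.coeFn_toLp] with r hr
    rw [hr]
    simp only [RCLike.inner_apply, conj_trivial]
    ring
  have h2 : ‖hm.toLp _‖ = √(∫ r, k r ^ 2) := by
    rw [← Real.sqrt_sq (norm_nonneg (hm.toLp _)), AgmAux.norm_sq]
    congr 1
    rw [← integral_sub_left_eq_self (fun r => k r ^ 2) volume x]
    refine integral_congr_ae ?_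
    filter_upwards [hm.coeFn_toLp] with r hr
    rw [hr]
  rw [h1, ← h2]
  exact abs_real_inner_le_norm _ _

theorem C9_cvf_cont {k : ℝ → ℝ} (hk : ContDiff ℝ ∞ k) (hc : HasCompactSupport k) (y : L2) :
    Continuous (cvf k y) :=
  continuous_iff_continuousAt.2 fun x => (cvf_deriv hk hc y x).continuousAt

theorem C9_cvf_joint {k : ℝ → ℝ} (hk : ContDiff ℝ ∞ k) (hc : HasCompactSupport k) {ψ : ℝ → L2}
    (hψ : Continuous ψ) : Continuous fun q : ℝ × ℝ => cvf k (ψ q.1) q.2 := by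
  rw [continuous_iff_continuousAt]
  rintro ⟨t0, x0⟩
  rw [ContinuousAt, tendsto_iff_norm_sub_tendsto_zero]
  have h1 : Tendsto (fun q : ℝ × ℝ => √(∫ r, k r ^ 2) * ‖ψ q.1 - ψ t0‖ +
      |cvf k (ψ t0) q.2 - cvf k (ψ t0) x0|) (𝓝 (t0, x0)) (𝓝 0) := by
    have h0 : Continuous fun q : ℝ × ℝ => √(∫ r, k r ^ 2) * ‖ψ q.1 - ψ t0‖ +
        |cvf k (ψ t0) q.2 - cvf k (ψ t0) x0| := by
      have := (C9_cvf_cont hk hc (ψ t0)).comp (continuous_snd (X := ℝ) (Y := ℝ))
      have h2 := hψ.comp (continuous_fst (X := ℝ) (Y := ℝ))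
      exact (continuous_const.mul (h2.sub continuous_const).norm).add
        (this.sub continuous_const).abs
    have h := h0.tendsto (t0, x0)
    simpa using h
  refine squeeze_zero (fun _ => norm_nonneg _) (fun q => ?_) h1
  have h2 : cvf k (ψ q.1) q.2 - cvf k (ψ t0) x0 =
      cvf k (ψ q.1 - ψ t0) q.2 + (cvf k (ψ t0) q.2 - cvf k (ψ t0) x0) := by
    rw [C9_cvf_sub hk.continuous hc]
    ring
  simp only
  rw [h2]
  refine (norm_add_le _ _).trans ?_
  gcongr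
  · exact C9_cvf_bound hk.continuous hc _ _
  · exact le_rfl

/-- The derivative can be moved. -/
theorem C9_cv_deriv_comm {k k1 : ℝ → ℝ} (hk : ContDiff ℝ ∞ k) (hc : HasCompactSupport k)
    (hk1 : ContDiff ℝ ∞ k1) (hc1 : HasCompactSupport k1) (y : L2) :
    cv k (cv (deriv k1) y) = cv (deriv k) (cv k1 y) := by
  have hdk : Continuous (deriv k) := hk.continuous_deriv (by simp)
  have hdk1 : ContDiff ℝ ∞ (deriv k1) := (contDiff_infty_iff_deriv.1 hk1).2
  have hdc1 : HasCompactSupport (deriv k1) := hc1.deriv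
  refine Lp.ext ?_
  filter_upwards [cv_ae hk.continuous hc (cv (deriv k1) y), cv_ae hdk hc.deriv (cv k1 y)]
    with x h1 h2
  rw [h1, h2]
  have e1 : cvf k (cv (deriv k1) y) x = ∫ r, k (x - r) * cvf (deriv k1) y r := by
    unfold cvf
    refine integral_congr_ae ?_
    filter_upwards [cv_ae hdk1.continuous hdc1 y] with r hr
    rw [hr]
    rfl
  have e2 : cvf (deriv k) (cv k1 y) x = ∫ r, deriv k (x - r) * cvf k1 y r := by
    unfold cvf
    refine integral_congr_ae ?_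
    filter_upwards [cv_ae hk1.continuous hc1 y] with r hr
    rw [hr]
    rfl
  rw [e1, e2]
  have c1 := C9_cvf_cont hdk1 hdc1 y
  have c2 := C9_cvf_cont hk1 hc1 y
  have s1 : HasCompactSupport fun r => k (x - r) := hc.comp_homeomorph (Homeomorph.subLeft x)
  have s2 : HasCompactSupport fun r => deriv k (x - r) :=
    hc.deriv.comp_homeomorph (Homeomorph.subLeft x)
  have k1' : Continuous fun r => k (x - r) := hk.continuous.comp (by fun_prop)
  have k2' : Continuous fun r => deriv k (x - r) := hdk.comp (by fun_prop)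
  have i1 : Integrable (fun r => k (x - r) * cvf (deriv k1) y r) volume :=
    (k1'.mul c1).integrable_of_hasCompactSupport s1.mul_right
  have i2 : Integrable (fun r => deriv k (x - r) * cvf k1 y r) volume :=
    (k2'.mul c2).integrable_of_hasCompactSupport s2.mul_right
  have i3 : Integrable (fun r => k (x - r) * cvf k1 y r) volume :=
    (k1'.mul c2).integrable_of_hasCompactSupport s1.mul_right
  have h3 : ∀ r, HasDerivAt (fun r => k (x - r) * cvf k1 y r)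
      (-deriv k (x - r) * cvf k1 y r + k (x - r) * cvf (deriv k1) y r) r := by
    intro r
    have h4 : HasDerivAt (fun r => k (x - r)) (-deriv k (x - r)) r := by
      have h5 : HasDerivAt (fun r => k (x - r)) (deriv k (x - r) * -1) r :=
        HasDerivAt.comp r ((hk.differentiable (by simp)) (x - r)).hasDerivAt
          ((hasDerivAt_id r).const_sub x)
      rwa [mul_neg_one] at h5
    exact h4.mul (cvf_deriv hk1 hc1 y r)
  have i4 : Integrable (fun r => -deriv k (x - r) * cvf k1 y r +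
      k (x - r) * cvf (deriv k1) y r) volume := by
    refine Integrable.add ?_ i1
    exact i2.neg.congr (Eventually.of_forall fun r => by simp)
  have h6 := integral_eq_zero_of_hasDerivAt_of_integrable h3 i4 i3
  have h7 : (∫ r, (-deriv k (x - r) * cvf k1 y r + k (x - r) * cvf (deriv k1) y r)) =
      (∫ r, k (x - r) * cvf (deriv k1) y r) - ∫ r, deriv k (x - r) * cvf k1 y r := by
    rw [← integral_sub i1 i2]
    exact integral_congr_ae (Eventually.of_forall fun r => by simp only; ring)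
  linarith

theorem C9_ker_it {ε : ℝ} (hε : 0 < ε) (i : ℕ) : ContDiff ℝ ∞ (iteratedDeriv i (ker ε)) ∧
    HasCompactSupport (iteratedDeriv i (ker ε)) := by
  obtain ⟨k1, k2, -⟩ := ker_smooth hε
  exact ⟨contDiff_iter k1 i, hasCompactSupport_iter k2 i⟩

theorem C9_Mo_succ_comm {ε : ℝ} (hε : 0 < ε) (i j : ℕ) (y : L2) :
    Mo i ε (Mo (j + 1) ε y) = Mo (i + 1) ε (Mo j ε y) := by
  unfold Mo
  rw [iteratedDeriv_succ, iteratedDeriv_succ]
  exact C9_cv_deriv_comm (C9_ker_it hε i).1 (C9_ker_it hε i).2 (C9_ker_it hε j).1 (C9_ker_it hε j).2 y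

theorem C9_Mo_comm1 {ε : ℝ} (hε : 0 < ε) (y : L2) : Mo 0 ε (Mo 1 ε y) = Mo 1 ε (Mo 0 ε y) :=
  C9_Mo_succ_comm hε 0 0 y

theorem C9_Mo_comm3 {ε : ℝ} (hε : 0 < ε) (y : L2) : Mo 0 ε (Mo 3 ε y) = Mo 3 ε (Mo 0 ε y) := by
  rw [C9_Mo_succ_comm hε 0 2 y, C9_Mo_succ_comm hε 1 1 y, C9_Mo_succ_comm hε 2 0 y]

theorem C9_Mo_ae {ε : ℝ} (hε : 0 < ε) (i : ℕ) (y : L2) :
    ∀ᵐ x ∂volume, Mo i ε y x = cvf (iteratedDeriv i (ker ε)) y x :=
  cv_ae (C9_ker_it hε i).1.continuous (C9_ker_it hε i).2 y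

theorem C9_Mo_local' {ε : ℝ} (hε : 0 < ε) {a b : ℝ} {u : L2}
    (hu : ∀ᵐ x ∂volume, x ∈ Ioo a b → u x = 0) :
    ∀ᵐ x ∂volume, x ∈ Icc (a + ε) (b - ε) → Mo 0 ε u x = 0 := by
  obtain ⟨k1, k2, k3, -⟩ := ker_smooth hε
  filter_upwards [C9_Mo_ae hε 0 u] with x hx hxI
  rw [hx, iteratedDeriv_zero]
  unfold cvf
  have h1 : ∀ᵐ r ∂volume, ker ε (x - r) * u r = 0 := by
    filter_upwards [hu] with r hr
    by_cases h : ε ≤ |x - r|
    · rw [k3 _ h, zero_mul]
    · rw [hr, mul_zero]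
      have h2 := abs_lt.1 (not_le.1 h)
      exact ⟨by linarith [hxI.1, h2.2], by linarith [hxI.2, h2.1]⟩
  rw [integral_congr_ae h1, integral_zero]

/-! ### The scalar equation -/

/-- The scalar system. -/
def C9_p1 {L μ : ℝ} (hL : 0 < L) (hμ : 0 < μ) : Pr 1 where
  L := L
  hL := hL
  mu := fun _ => μ
  hmu := fun _ => hμ
  g := fun _ _ _ => 0
  g12 := fun _ _ _ => rfl
  g23 := fun _ _ _ => rfl
  S := fun _ _ => 0
  hS := fun _ _ => rfl

theorem C9_int_one {T : ℝ} {f : ℝ → L2} (hf : IntegrableOn f (Ioc 0 T)) :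
    IntegrableOn (fun t => (WithLp.toLp 2 fun _ => f t : HH 1)) (Ioc 0 T) := by
  have h := (mkH (n := 1) fun _ => ContinuousLinearMap.id ℝ L2).integrable_comp hf
  exact h

theorem C9_lin1 {L μ : ℝ} (hL : 0 < L) (hμ : 0 < μ) {y : L2} {T : ℝ} {f : ℝ → L2}
    (hf : IntegrableOn f (Ioc 0 T)) {k : ℝ → ℝ} (hk : ContDiff ℝ ∞ k)
    (hc : HasCompactSupport k) {t : ℝ} (ht : t ∈ Icc 0 T) :
    cv k ((sm1 hL hμ).traj y f t) = cv k y + ∫ s in (0 : ℝ)..t,
      (-μ • cv (iteratedDeriv 3 k) ((sm1 hL hμ).traj y f s) + cv k (f s)) := by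
  have hf1 := C9_int_one hf
  have h := lin (C9_p1 hL hμ) (y := WithLp.toLp 2 fun _ => y) hf1 hk hc 0 ht
  have h1 : ∀ t ∈ Icc 0 T, (C9_p1 hL hμ).sm.traj (WithLp.toLp 2 fun _ => y)
      (fun t => (WithLp.toLp 2 fun _ => f t : HH 1)) t 0 = (sm1 hL hμ).traj y f t := by
    intro t ht
    exact traj_comp (C9_p1 hL hμ).std (WithLp.toLp 2 fun _ => y) hf1 ht 0
  rw [h1 t ht] at h
  rw [h]
  congr 1
  refine intervalIntegral.integral_congr fun r hr => ?_
  rw [uIcc_of_le ht.1] at hr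
  simp only
  rw [h1 r ⟨hr.1, hr.2.trans ht.2⟩]
  rfl

/-! ### The smoothing operator -/

/-- `emb e' (Mo 0 ε u)`. -/
noncomputable def C9_W (e' : Fin 2 → ℝ) (ε : ℝ) : L2 →L[ℝ] HH 2 := mkH fun j => e' j • Mo 0 ε

/-- `(μ_j e'_j Mo 3 ε u)_j`. -/
noncomputable def C9_W3 (p : Pr 2) (e' : Fin 2 → ℝ) (ε : ℝ) : L2 →L[ℝ] HH 2 :=
  mkH fun j => (p.mu j * e' j) • Mo 3 ε

theorem C9_gen (p : Pr 2) (e' : Fin 2 → ℝ) {ε : ℝ} (hε : 0 < ε) (x : L2) (u : ℝ) :
    p.sm.U (-u) (C9_W e' ε x) = C9_W e' ε x + ∫ r in (0 : ℝ)..u, p.sm.U (-r) (C9_W3 p e' ε x) := by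
  obtain ⟨k1, k2, -⟩ := ker_smooth hε
  refine PiLp.ext fun j => ?_
  have hi : IntervalIntegrable (fun r => p.sm.U (-r) (C9_W3 p e' ε x)) volume 0 u :=
    ((p.sm.U_cont _).comp continuous_neg).intervalIntegrable _ _
  have h1 := (prH j).intervalIntegral_comp_comm hi
  change airy (p.mu j * -u) (e' j • Mo 0 ε x) = e' j • Mo 0 ε x +
    prH j (∫ r in (0 : ℝ)..u, p.sm.U (-r) (C9_W3 p e' ε x))
  rw [← h1]
  have h2 := cv_gen k1 k2 (p.mu j * u) x
  have h3 : (fun r => prH j (p.sm.U (-r) (C9_W3 p e' ε x))) =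
      fun r => e' j • (p.mu j • airy (-(p.mu j * r)) (Mo 3 ε x)) := by
    funext r
    change airy (p.mu j * -r) ((p.mu j * e' j) • Mo 3 ε x) = _
    rw [map_smul, smul_smul, mul_comm (e' j), mul_neg]
  rw [h3, intervalIntegral.integral_smul, intervalIntegral.integral_smul,
    intervalIntegral.smul_integral_comp_mul_left (fun r => airy (-r) (Mo 3 ε x)), mul_zero,
    map_smul, mul_neg, ← smul_add]
  congr 1

/-! ### Pointwise facts -/

theorem C9_one_meas (L : ℝ) : Measurable (one L) :=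
  measurable_one.indicator measurableSet_Ioo

theorem C9_one_bd (L : ℝ) : ∃ C, ∀ x, |one L x| ≤ C := by
  refine ⟨1, fun x => ?_⟩
  unfold one
  by_cases hx : x ∈ Ioo (0 : ℝ) L
  · rw [indicator_of_mem hx]; simp
  · rw [indicator_of_notMem hx]; simp

theorem C9_one_in {L x : ℝ} (hx : x ∈ Ioo 0 L) : one L x = 1 := indicator_of_mem hx _

theorem C9_one_out {L x : ℝ} (hx : x ∉ Ioo 0 L) : one L x = 0 := indicator_of_notMem hx _

theorem C9_PP_ae (L : ℝ) (z : HH 2) (j : Fin 2) :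
    ∀ᵐ x ∂volume, PP 2 L z j x = one L x * z j x :=
  mulOp_ae (C9_one_meas L) (C9_one_bd L) (z j)

theorem C9_PP_eq {L : ℝ} {z z' : HH 2}
    (h : ∀ j, ∀ᵐ x ∂volume, x ∈ Ioo 0 L → z j x = z' j x) : PP 2 L z = PP 2 L z' := by
  refine PiLp.ext fun j => Lp.ext ?_
  filter_upwards [C9_PP_ae L z j, C9_PP_ae L z' j, h j] with x h1 h2 h3
  rw [h1, h2]
  by_cases hx : x ∈ Ioo 0 L
  · rw [h3 hx]
  · rw [C9_one_out hx, zero_mul, zero_mul]

theorem C9_PP_eq' {L : ℝ} {z z' : HH 2} (h : PP 2 L z = PP 2 L z') (j : Fin 2) :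
    ∀ᵐ x ∂volume, x ∈ Ioo 0 L → z j x = z' j x := by
  filter_upwards [C9_PP_ae L z j, C9_PP_ae L z' j] with x h1 h2 hx
  rw [h, h2, C9_one_in hx, one_mul, one_mul] at h1
  exact h1.symm

theorem C9_chi_b {L x : ℝ} (hx : x ∈ Ioo 0 L) : chi L x = 1 := by
  unfold chi
  have h1 : (1 : ℝ) ≤ min (1 + x) (L + 1 - x) := le_min (by linarith [hx.1]) (by linarith [hx.2])
  rw [min_eq_left h1]
  exact max_eq_right zero_le_one

theorem C9_dchi_b {L x : ℝ} (hx : x ∈ Ioo 0 L) : dchi L x = 0 := by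
  unfold dchi
  rw [indicator_of_notMem, indicator_of_notMem, sub_zero]
  · exact fun h => absurd h.1 (not_lt.2 hx.2.le)
  · exact fun h => absurd h.2 (not_lt.2 hx.1.le)

/-- The right-hand side of the equation, pointwise on `(0, L)`. -/
theorem C9_rhs_ae (p : Pr 2) (v : VV 2 p.L) {X X1 : ℝ → Fin 2 → ℝ}
    (hv : ∀ j, ∀ᵐ x ∂volume, x ∈ J p.L → uu j v x = X x j ∧ dd j v x = X1 x j) (j : Fin 2) :
    ∀ᵐ x ∂volume, x ∈ Ioo 0 p.L → (lmap 2 p.L p.S v + qmap 2 p.L p.g v) j x =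
      -mv p.S (X1 x) j - bil p.g (X x) (X1 x) j := by
  have h1 : (lmap 2 p.L p.S v + qmap 2 p.L p.g v) j = lmap 2 p.L p.S v j + qmap 2 p.L p.g v j :=
    rfl
  rw [h1]
  filter_upwards [Lp.coeFn_add (lmap 2 p.L p.S v j) (qmap 2 p.L p.g v j),
    lmap_ae p.L p.S v j, qmap_ae p.hL p.g v j, ae_all_iff.2 hv] with x a1 a2 a3 a4 hx
  have hxJ : x ∈ J p.L := ⟨by linarith [hx.1], by linarith [hx.2]⟩
  rw [a1, Pi.add_apply, a2, a3, C9_chi_b hx, C9_dchi_b hx]
  have e1 : (∑ k, p.S j k * (1 * dd k v x + 1 / 2 * (0 * uu k v x))) = mv p.S (X1 x) j := by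
    unfold mv
    exact Finset.sum_congr rfl fun k _ => by rw [(a4 k hxJ).2]; ring
  have e2 : (∑ k, ∑ l, p.g j k l * (1 * uu k v x * dd l v x + 1 / 3 * 0 * uu k v x * uu l v x)) =
      bil p.g (X x) (X1 x) j := by
    unfold bil
    exact Finset.sum_congr rfl fun k _ => Finset.sum_congr rfl fun l _ => by
      rw [(a4 k hxJ).1, (a4 l hxJ).2]; ring
  rw [e1, e2]
  ring

theorem C9_bb_memLp {L : ℝ} (hL : 0 < L) (c : ℝ) : MemLp (fun x => bb L x * c) 2 volume := by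
  have h1 := (Mlt_bb hL).1.continuous
  refine Continuous.memLp_of_hasCompactSupport (h1.mul continuous_const) ?_
  refine HasCompactSupport.intro (K := Icc (-4) (L + 4)) isCompact_Icc fun x hx => ?_
  rw [(bb_facts' hL).2.2.1 x fun h => hx ⟨h.1.le, h.2.le⟩, zero_mul]

/-- The algebra of the C9_frame. -/
theorem C9_frame (h : Cub p e e' α s) : dot e e' = 0 ∧ 0 < Lmu p e' e' ∧
    (∀ j, p.mu j * e' j = Lmu p e' e' * e' j + Lmu p e e' * e j) ∧
    ∀ j, mv p.S e' j = s * e j + dot e' (mv p.S e') * e' j := by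
  have h1 := h.cube.unit
  have h2 := h.S 0
  have h3 := h.S 1
  have h4 := p.hS 0 1
  have m0 := p.hmu 0
  have m1 := p.hmu 1
  simp only [dot, mv, Lmu, Fin.sum_univ_two] at h1 h2 h3 ⊢
  rw [h.e0] at h2
  rw [h.e1] at h3
  rw [h.e0, h.e1]
  refine ⟨by ring, ?_, ?_, ?_⟩
  · have h5 : 0 ≤ p.mu 0 * -e 1 * -e 1 := by nlinarith [mul_self_nonneg (e 1)]
    have h6 : 0 ≤ p.mu 1 * e 0 * e 0 := by nlinarith [mul_self_nonneg (e 0)]
    by_contra hcon
    push Not at hcon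
    have h7 : p.mu 0 * (e 1 * e 1) = 0 := by linarith
    have h8 : p.mu 1 * (e 0 * e 0) = 0 := by linarith
    have h9 : e 1 * e 1 = 0 := by
      rcases mul_eq_zero.1 h7 with h | h
      · exact absurd h m0.ne'
      · exact h
    have h10 : e 0 * e 0 = 0 := by
      rcases mul_eq_zero.1 h8 with h | h
      · exact absurd h m1.ne'
      · exact h
    linarith
  · intro j
    fin_cases j
    · simp only [Fin.zero_eta, Fin.isValue]
      rw [h.e0]
      linear_combination (p.mu 0 * e 1) * h1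
    · simp only [Fin.mk_one, Fin.isValue]
      rw [h.e1]
      linear_combination (-(p.mu 1 * e 0)) * h1
  · rw [← h4] at h3 ⊢
    intro j
    fin_cases j
    · simp only [Fin.zero_eta, Fin.isValue]
      rw [h.e0]
      linear_combination (-(p.S 0 0 * -e 1 + p.S 0 1 * e 0) + e 0 * s) * h1 - e 0 * e 1 * h2 +
        e 0 * e 0 * h3
    · simp only [Fin.mk_one, Fin.isValue]
      rw [h.e1, ← h4]
      linear_combination (-(p.S 0 1 * -e 1 + p.S 1 1 * e 0) + e 1 * s) * h1 - e 1 * e 1 * h2 +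
        e 1 * e 0 * h3

theorem C9_ae1 (A B D : L2) (a b c : ℝ) : ∀ᵐ x ∂volume,
    (A + (a • B + b • (c • B + D)) : L2) x = A x + (a * B x + b * (c * B x + D x)) := by
  filter_upwards [Lp.coeFn_add A (a • B + b • (c • B + D)), Lp.coeFn_add (a • B)
    (b • (c • B + D)), Lp.coeFn_smul a B, Lp.coeFn_smul b (c • B + D), Lp.coeFn_add (c • B) D,
    Lp.coeFn_smul c B] with x h1 h2 h3 h4 h5 h6
  rw [h1, Pi.add_apply, h2, Pi.add_apply, h3, Pi.smul_apply, h4, Pi.smul_apply, h5, Pi.add_apply,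
    h6, Pi.smul_apply]
  simp only [smul_eq_mul]

theorem C9_ae2 {L : ℝ} (hL : 0 < L) (A B D : L2) (a b c : ℝ) : ∀ᵐ x ∂volume,
    (A + a • mulOp (th L) (b • B + c • D) : L2) x =
      A x + a * (th L x * (b * B x + c * D x)) := by
  have hth : ∀ x, |th L x| ≤ 1 := fun x => by
    rw [abs_of_nonneg ((th_facts hL).1 x).1]
    exact ((th_facts hL).1 x).2
  filter_upwards [Lp.coeFn_add A (a • mulOp (th L) (b • B + c • D)), Lp.coeFn_smul a
    (mulOp (th L) (b • B + c • D)), mulOp_ae (Mlt_th hL).1.continuous.measurable ⟨1, hth⟩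
    (b • B + c • D), Lp.coeFn_add (b • B) (c • D), Lp.coeFn_smul b B, Lp.coeFn_smul c D]
    with x h1 h2 h3 h4 h5 h6
  rw [h1, Pi.add_apply, h2, Pi.smul_apply, h3, h4, Pi.add_apply, h5, h6, Pi.smul_apply,
    Pi.smul_apply]
  simp only [smul_eq_mul]

/-! ### The background -/

/-- The residual, as a function of `Mo 0 ε φ`. -/
noncomputable def C9_R (p : Pr 2) (e e' : Fin 2 → ℝ) (s ε : ℝ) : L2 →L[ℝ] HH 2 :=
  mkH fun j => e j • ((mulOp (th p.L)).comp (s • Mo 1 ε + Lmu p e e' • Mo 3 ε))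

theorem cube_bk (h : Cub p e e' α s) : ∃ (T C1 : ℝ), 0 < T ∧ T ≤ 1 ∧ 0 ≤ C1 ∧ ∀ ε : ℝ, 0 < ε →
    ε ≤ 1 / 8 → ∀ (y : L2) (K g0 : ℝ), ∃ (B : Bk p T) (φ : ℝ → L2),
      B.b0 = bg 2 p.L (cst e e' K g0) + emb e' (Mo 0 ε (Mo 0 ε y)) ∧
      p.sm.traj B.b0 B.fb T = bg 2 p.L (cst e e' K g0) ∧
      (∀ t ∈ Icc 0 T, ‖φ t‖ ≤ C1 * ‖y‖) ∧
      (∀ t ∈ Icc 0 T, ∀ x, dot e (B.w t x) = -K ∧ dot e (B.wx t x) = 0) ∧
      ∀ t ∈ Icc 0 T, B.r t = emb e (mulOp (th p.L) (s • Mo 1 ε (Mo 0 ε (φ t)) +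
        Lmu p e e' • Mo 3 ε (Mo 0 ε (φ t)))) := by
  have hL := p.hL
  obtain ⟨hee, hμ, hmu, hSe⟩ := C9_frame h
  have hunit : dot e e = 1 := h.cube.unit
  obtain ⟨T, C, hT, hT1, hC, hctrl⟩ :=
    airy_control' (L := p.L) (μ := Lmu p e' e') (s := dot e' (mv p.S e')) hL hμ
  refine ⟨T, 1 + C, hT, hT1, by linarith, fun ε hε hε8 y K g0 => ?_⟩
  obtain ⟨f, hf, hfn, hfT, hfk⟩ := hctrl y
  obtain ⟨k1, k2, k3, -⟩ := ker_smooth hε
  obtain ⟨φ, hφ⟩ : ∃ φ : ℝ → L2, φ = (sm1 (L := p.L) hL hμ).traj y f := ⟨_, rfl⟩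
  have hφc : ContinuousOn φ (Icc 0 T) := by
    rw [hφ]
    exact (sm1 (L := p.L) hL hμ).traj_cont y hT.le hf
  have hφT : φ T = 0 := by
    rw [hφ]
    exact hfT
  have hφn : ∀ t ∈ Icc 0 T, ‖φ t‖ ≤ (1 + C) * ‖y‖ := by
    intro t ht
    have h1 := (sm1 (L := p.L) hL hμ).traj_norm y hf ht
    have h2 : ∫ s in (0 : ℝ)..t, ‖f s‖ ≤ ∫ s in (0 : ℝ)..T, ‖f s‖ := by
      rw [intervalIntegral.integral_of_le ht.1, intervalIntegral.integral_of_le hT.le]
      exact setIntegral_mono_set hf.norm (Eventually.of_forall fun _ => norm_nonneg _)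
        (Ioc_subset_Ioc_right ht.2).eventuallyLE
    rw [hφ]
    linarith
  -- the mollification
  obtain ⟨ψ, hψ⟩ : ∃ ψ : ℝ → L2, ψ = fun t => Mo 0 ε (φ (projIcc 0 T hT.le t)) := ⟨_, rfl⟩
  have hψc : Continuous ψ := by
    rw [hψ]
    refine (Mo 0 ε).continuous.comp ?_
    have h1 : Continuous ((Icc 0 T).domRestrict φ) := hφc.domRestrict
    exact h1.comp continuous_projIcc
  have hψe : ∀ t ∈ Icc 0 T, ψ t = Mo 0 ε (φ t) := by
    intro t ht
    rw [hψ]
    simp only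
    rw [projIcc_of_mem hT.le ht]
  obtain ⟨γ, hγ⟩ : ∃ γ : ℝ → L2, γ = fun t => -Lmu p e' e' • Mo 3 ε (φ t) + Mo 0 ε (f t) :=
    ⟨_, rfl⟩
  have hγi : IntegrableOn γ (Ioc 0 T) := by
    rw [hγ]
    refine Integrable.add ?_ ((Mo 0 ε).integrable_comp hf)
    have h1 : ContinuousOn (fun t => -Lmu p e' e' • Mo 3 ε (φ t)) (Icc 0 T) :=
      (continuous_const_smul (-Lmu p e' e')).comp_continuousOn
        ((Mo 3 ε).continuous.comp_continuousOn hφc)
    exact h1.integrableOn_Icc.mono_set Ioc_subset_Icc_self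
  have hcγ : ∀ t ∈ Icc 0 T, Mo 0 ε y + (∫ r in (0 : ℝ)..t, γ r) = ψ t := by
    intro t ht
    have h1 := C9_lin1 (L := p.L) hL hμ (y := y) hf k1 k2 ht
    rw [← hφ] at h1
    rw [hψe t ht, hγ]
    unfold Mo
    rw [iteratedDeriv_zero]
    exact h1.symm
  obtain ⟨F2, hF2⟩ : ∃ F2 : ℝ → HH 2, F2 = fun t => C9_W3 p e' ε (ψ t) + C9_W e' ε (γ t) := ⟨_, rfl⟩
  have hF2i : IntegrableOn F2 (Ioc 0 T) := by
    rw [hF2]
    refine Integrable.add ?_ ((C9_W e' ε).integrable_comp hγi)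
    exact ((C9_W3 p e' ε).continuous.comp hψc).continuousOn.integrableOn_Icc.mono_set
      Ioc_subset_Icc_self
  have htr2 : ∀ t ∈ Icc 0 T, p.sm.traj (C9_W e' ε (Mo 0 ε y)) F2 t = C9_W e' ε (ψ t) := by
    intro t ht
    have h1 := traj_of_smoothing p.sm (C9_W e' ε) (C9_W3 p e' ε) (C9_gen p e' hε) hT.le
      (c0 := Mo 0 ε y) hγi t ht
    rw [hcγ t ht] at h1
    rw [← h1]
    refine p.sm.traj_congr _ ht.1 ?_
    filter_upwards [ae_restrict_mem measurableSet_Ioc] with r hr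
    rw [hF2]
    simp only
    rw [hcγ r ⟨hr.1.le, hr.2.trans ht.2⟩]
  -- the constant part
  obtain ⟨B0, hw0, hwx0, hb0, htr0, hr0⟩ := exists_bk' p hT (w := fun _ => cst e e' K g0)
    isOpen_univ (subset_univ _) (fun j => contDiffOn_const)
  have hwx0' : ∀ t ∈ Icc 0 T, ∀ x j, B0.wx t x j = 0 := by
    intro t ht x j
    rw [hwx0 t ht x j]
    unfold cst
    exact deriv_const _ _
  have hr0' : ∀ t ∈ Icc 0 T, B0.r t = 0 := by
    intro t ht
    rw [hr0 t ht]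
    refine PiLp.ext fun j => ?_
    change toL2 _ = (0 : L2)
    refine toL2_eq ?_
    filter_upwards [Lp.coeFn_zero ℝ 2 (volume : Measure ℝ)] with x hx
    rw [hx]
    unfold resid cst
    simp [iteratedDeriv_const]
  -- the force
  have hfbi : IntegrableOn (fun t => B0.fb t + F2 t) (Ioc 0 T) := B0.path.int.add hF2i
  have htr : ∀ t ∈ Icc 0 T, p.sm.traj (B0.b0 + C9_W e' ε (Mo 0 ε y)) (fun t => B0.fb t + F2 t) t =
      bg 2 p.L (cst e e' K g0) + C9_W e' ε (ψ t) := by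
    intro t ht
    rw [p.sm.traj_add B0.b0 (C9_W e' ε (Mo 0 ε y)) B0.path.int hF2i ht, htr0 t ht, htr2 t ht]
  obtain ⟨v, hv⟩ := p.sm.exists_path (B0.b0 + C9_W e' ε (Mo 0 ε y)) hfbi
  have kd1 : ContDiff ℝ ∞ (deriv (ker ε)) := (contDiff_infty_iff_deriv.1 k1).2
  have kd2 : HasCompactSupport (deriv (ker ε)) := k2.deriv
  obtain ⟨w, hw⟩ : ∃ w : ℝ → ℝ → Fin 2 → ℝ, w = fun t x j =>
    cst e e' K g0 x j + e' j * cvf (ker ε) (ψ t) x := ⟨_, rfl⟩
  obtain ⟨wx, hwx⟩ : ∃ wx : ℝ → ℝ → Fin 2 → ℝ, wx = fun t x j =>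
    e' j * cvf (deriv (ker ε)) (ψ t) x := ⟨_, rfl⟩
  have hrep : ∀ᵐ t ∂volume.restrict (Ioc (0 : ℝ) T), ∀ j, ∀ᵐ x ∂volume, x ∈ J p.L →
      uu j (v t) x = w t x j ∧ dd j (v t) x = wx t x j := by
    filter_upwards [hv.lift, ae_restrict_mem measurableSet_Ioc] with t h1 ht j
    rw [htr t ⟨ht.1.le, ht.2⟩] at h1
    have h2 : V1.u p.L (v t j) = toL2 (fun x => bb p.L x * cst e e' K g0 x j) +
        e' j • Mo 0 ε (ψ t) := by
      have h3 : p.sm.inc (v t) j = (bg 2 p.L (cst e e' K g0) + C9_W e' ε (ψ t)) j := by rw [h1]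
      exact h3
    have m1 : MemLp (fun x => bb p.L x * cst e e' K g0 x j) 2 volume := C9_bb_memLp hL _
    obtain ⟨F, hF⟩ : ∃ F : ℝ → ℝ, F = fun x =>
      bb p.L x * cst e e' K g0 x j + e' j * cvf (ker ε) (ψ t) x := ⟨_, rfl⟩
    have h4 : ∀ᵐ x ∂volume, V1.u p.L (v t j) x = F x := by
      rw [h2, hF]
      filter_upwards [Lp.coeFn_add (toL2 fun x => bb p.L x * cst e e' K g0 x j)
        (e' j • Mo 0 ε (ψ t)), toL2_ae m1, Lp.coeFn_smul (e' j) (Mo 0 ε (ψ t)),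
        C9_Mo_ae hε 0 (ψ t)] with x a1 a2 a3 a4
      rw [a1, Pi.add_apply, a2, a3, Pi.smul_apply, a4, iteratedDeriv_zero, smul_eq_mul]
    have h5 : MemLp F 2 volume := (memLp_congr_ae h4).1 (Lp.memLp _)
    have h6 : toL2 F = V1.u p.L (v t j) := toL2_eq h4
    have hbd : Differentiable ℝ (bb p.L) := (Mlt_bb hL).1.differentiable (by simp)
    have h7 : ∀ x, HasDerivAt F (deriv (bb p.L) x * cst e e' K g0 x j +
        e' j * cvf (deriv (ker ε)) (ψ t) x) x := by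
      intro x
      rw [hF]
      exact ((hbd x).hasDerivAt.mul_const _).add ((cvf_deriv k1 k2 (ψ t) x).const_mul _)
    have h8 : Continuous fun x => deriv (bb p.L) x * cst e e' K g0 x j +
        e' j * cvf (deriv (ker ε)) (ψ t) x :=
      (((Mlt_bb hL).1.continuous_deriv (by simp)).mul continuous_const).add
        (continuous_const.mul (C9_cvf_cont kd1 kd2 (ψ t)))
    obtain ⟨q, hq1, hq2, -⟩ := V1.exists_of (L := p.L) h5 h7 h8
    have h9 : v t j = q := V1.u_injective hL (by rw [hq1, h6])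
    filter_upwards [h4, hq2] with x a1 a2 hx
    have hx3 : x ∈ Ioo (-3) (p.L + 3) := ⟨by linarith [hx.1], by linarith [hx.2]⟩
    rw [hw, hwx]
    constructor
    · change V1.u p.L (v t j) x = _
      rw [a1, hF]
      simp only
      rw [(bb_facts' hL).2.1 x ⟨hx3.1.le, hx3.2.le⟩, one_mul]
    · change V1.d p.L (v t j) x = _
      rw [h9, a2 hx, ((bb_facts' hL).2.2.2 x hx3).1, zero_mul, zero_add]
  have hrc : Continuous fun t => C9_R p e e' s ε (ψ t) := (C9_R p e e' s ε).continuous.comp hψc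
  have heq : ∀ᵐ t ∂volume.restrict (Ioc (0 : ℝ) T), PP 2 p.L (B0.fb t + F2 t) =
      PP 2 p.L (lmap 2 p.L p.S (v t) + qmap 2 p.L p.g (v t) + C9_R p e e' s ε (ψ t)) := by
    have hfk' := hfk (ker ε) k1 (fun x hx => k3 x (by linarith))
    filter_upwards [B0.eq, B0.rep, hrep, hfk', ae_restrict_mem measurableSet_Ioc]
      with t b1 b2 b3 b4 ht
    have ht' : t ∈ Icc 0 T := ⟨ht.1.le, ht.2⟩
    refine C9_PP_eq fun j => ?_
    -- the constant part
    have c1 := C9_rhs_ae p (B0.vb t) (X := B0.w t) (X1 := B0.wx t) b2 j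
    rw [hr0' t ht', add_zero] at b1
    have c2 := C9_PP_eq' b1 j
    -- the solution
    have c3 := C9_rhs_ae p (v t) (X := w t) (X1 := wx t) b3 j
    -- the control
    have c4 : ∀ᵐ x ∂volume, x ∈ Ioo (-3 / 2) (p.L + 3 / 2) →
        (Mo 0 ε (f t) + dot e' (mv p.S e') • Mo 1 ε (φ t)) x = 0 := by
      have b5 : ∀ᵐ x ∂volume, x ∈ Ioo (-3 / 2) (p.L + 3 / 2) →
          Mo 0 ε (f t) x = -dot e' (mv p.S e') * Mo 1 ε (φ t) x := by
        unfold Mo
        rw [iteratedDeriv_zero, iteratedDeriv_one, hφ]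
        exact b4
      filter_upwards [b5, Lp.coeFn_add (Mo 0 ε (f t)) (dot e' (mv p.S e') • Mo 1 ε (φ t)),
        Lp.coeFn_smul (dot e' (mv p.S e')) (Mo 1 ε (φ t))] with x d1 d2 d3 hx
      rw [d2, Pi.add_apply, d3, Pi.smul_apply, d1 hx, smul_eq_mul]
      ring
    have c5 := C9_Mo_local' hε c4
    rw [map_add, map_smul, C9_Mo_comm1 hε, ← hψe t ht'] at c5
    have e1 : (B0.fb t + F2 t) j = B0.fb t j + ((p.mu j * e' j) • Mo 3 ε (ψ t) +
        e' j • Mo 0 ε (γ t)) := by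
      rw [hF2]
      rfl
    have e2 : Mo 0 ε (γ t) = -Lmu p e' e' • Mo 3 ε (ψ t) + Mo 0 ε (Mo 0 ε (f t)) := by
      rw [hγ]
      simp only
      rw [map_add, map_smul, C9_Mo_comm3 hε, hψe t ht']
    have e3 : (lmap 2 p.L p.S (v t) + qmap 2 p.L p.g (v t) + C9_R p e e' s ε (ψ t)) j =
        (lmap 2 p.L p.S (v t) + qmap 2 p.L p.g (v t)) j +
          e j • mulOp (th p.L) (s • Mo 1 ε (ψ t) + Lmu p e e' • Mo 3 ε (ψ t)) := rfl
    rw [e1, e2, e3]
    filter_upwards [c1, c2, c3, c5, C9_ae1 (B0.fb t j) (Mo 3 ε (ψ t)) (Mo 0 ε (Mo 0 ε (f t)))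
      (p.mu j * e' j) (e' j) (-Lmu p e' e'),
      C9_ae2 hL ((lmap 2 p.L p.S (v t) + qmap 2 p.L p.g (v t)) j) (Mo 1 ε (ψ t)) (Mo 3 ε (ψ t))
        (e j) s (Lmu p e e'),
      Lp.coeFn_add (Mo 0 ε (Mo 0 ε (f t))) (dot e' (mv p.S e') • Mo 1 ε (ψ t)),
      Lp.coeFn_smul (dot e' (mv p.S e')) (Mo 1 ε (ψ t)), C9_Mo_ae hε 1 (ψ t)]
      with x d1 d2 d3 d4 d5 d6 d7 d8 d9 hx
    rw [d5, d6, d2 hx, d1 hx, d3 hx]
    have hx1 : x ∈ Icc (-3 / 2 + ε) (p.L + 3 / 2 - ε) :=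
      ⟨by linarith [hx.1], by linarith [hx.2]⟩
    have f1 := d4 hx1
    rw [d7, Pi.add_apply, d8, Pi.smul_apply, smul_eq_mul] at f1
    have f2 : B0.wx t x = fun _ => 0 := funext fun j => hwx0' t ht' x j
    have f3 : mv p.S (B0.wx t x) j = 0 := by
      rw [f2]
      simp [mv]
    have f4 : bil p.g (B0.w t x) (B0.wx t x) j = 0 := by
      rw [f2]
      simp [bil]
    rw [iteratedDeriv_one] at d9
    have f5 : wx t x = fun k => Mo 1 ε (ψ t) x * e' k := by
      rw [hwx]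
      funext k
      rw [d9]
      ring
    have f6 : mv p.S (wx t x) j = Mo 1 ε (ψ t) x * mv p.S e' j := by
      rw [f5]
      unfold mv
      rw [Finset.mul_sum]
      exact Finset.sum_congr rfl fun k _ => by ring
    have f7 : bil p.g (w t x) (wx t x) j = 0 := by
      rw [h.bil_eq]
      have f8 : dot e (wx t x) = 0 := by
        rw [f5]
        have : dot e (fun k => Mo 1 ε (ψ t) x * e' k) = Mo 1 ε (ψ t) x * dot e e' := by
          unfold dot
          rw [Finset.mul_sum]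
          exact Finset.sum_congr rfl fun k _ => by ring
        rw [this, hee, mul_zero]
      rw [f8]
      ring
    rw [f3, f4, f6, f7, (th_facts hL).2.1 x ⟨by linarith [hx.1], by linarith [hx.2]⟩]
    linear_combination (Mo 3 ε (ψ t) x) * hmu j + (Mo 1 ε (ψ t) x) * hSe j + e' j * f1
  refine ⟨{ w := w
            wx := wx
            cw := ?_
            cwx := ?_
            hd := ?_
            b0 := B0.b0 + C9_W e' ε (Mo 0 ε y)
            fb := fun t => B0.fb t + F2 t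
            vb := v
            path := hv
            rep := hrep
            r := fun t => C9_R p e e' s ε (ψ t)
            hr := hrc.continuousOn.integrableOn_Icc.mono_set Ioc_subset_Icc_self
            eq := heq }, φ, ?_, ?_, hφn, ?_, ?_⟩
  · intro j
    rw [hw]
    exact continuous_const.add (continuous_const.mul (C9_cvf_joint k1 k2 hψc))
  · intro j
    rw [hwx]
    exact continuous_const.mul (C9_cvf_joint kd1 kd2 hψc)
  · intro t x j
    rw [hw, hwx]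
    exact ((cvf_deriv k1 k2 (ψ t) x).const_mul _).const_add _
  · simp only
    rw [hb0]
    rfl
  · simp only
    rw [htr T ⟨hT.le, le_rfl⟩, hψe T ⟨hT.le, le_rfl⟩, hφT, map_zero, map_zero, add_zero]
  · intro t ht x
    simp only
    rw [hw, hwx]
    constructor
    · have f1 : dot e (fun j => cst e e' K g0 x j + e' j * cvf (ker ε) (ψ t) x) =
          -K * dot e e + (g0 + cvf (ker ε) (ψ t) x) * dot e e' := by
        unfold dot cst
        rw [Finset.mul_sum, Finset.mul_sum, ← Finset.sum_add_distrib]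
        exact Finset.sum_congr rfl fun k _ => by ring
      rw [f1, hee, hunit]
      ring
    · have f1 : dot e (fun j => e' j * cvf (deriv (ker ε)) (ψ t) x) =
          cvf (deriv (ker ε)) (ψ t) x * dot e e' := by
        unfold dot
        rw [Finset.mul_sum]
        exact Finset.sum_congr rfl fun k _ => by ring
      rw [f1, hee, mul_zero]
  · intro t ht
    simp only
    rw [hψe t ht]
    rfl

end Pool.Agent.KG
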