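import Pool.Agent.Lib.KG.R_C5
import Pool.Agent.Lib.KG.R_C7
import Pool.Agent.Lib.KG.R_C9
import Pool.Agent.Lib.KG.R_C10

/-!
# Row C11: the control of the remaining component
-/

set_option autoImplicit false

namespace Pool.Agent.KG

open MeasureTheory Filter Topology Set
open Pool.Agent.Kdv Pool.Agent.KG
open scoped ENNReal ContDiff InnerProductSpace

variable {p : Pr 2} {e e' : Fin 2 → ℝ} {α s : ℝ}

theorem C11_inner {m : ℝ → ℝ} (hm : Measurable m) (hb : ∃ C, ∀ x, |m x| ≤ C) (u : L2) :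
    inner ℝ (mulOp m u) u = ∫ x, m x * u x ^ 2 := by
  rw [L2.inner_def]
  refine integral_congr_ae ?_
  filter_upwards [mulOp_ae hm hb u] with x hx
  rw [hx]
  change u x * (m x * u x) = _
  ring

theorem C11_inner_nonneg {m : ℝ → ℝ} (hm : Measurable m) (hb : ∃ C, ∀ x, |m x| ≤ C)
    (h0 : ∀ x, 0 ≤ m x) (u : L2) : 0 ≤ inner ℝ (mulOp m u) u := by
  rw [C11_inner hm hb]
  exact integral_nonneg fun x => mul_nonneg (h0 x) (sq_nonneg _)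

theorem C11_damp {L : ℝ} (hL : 0 < L) : Measurable (damp L) ∧ (∃ C, ∀ x, |damp L x| ≤ C) ∧
    ∀ x, 0 ≤ damp L x := by
  have h1 := Mlt_damp hL
  have h4 := (damp_facts hL).1
  exact ⟨h1.1.continuous.measurable,
    ⟨1, fun x => by rw [abs_of_nonneg (h4 x).1]; exact (h4 x).2⟩, fun x => (h4 x).1⟩

theorem C11_th {L : ℝ} (hL : 0 < L) : Measurable (th L) ∧ (∃ C, ∀ x, |th L x| ≤ C) ∧
    ∀ x, 0 ≤ th L x := by
  have h1 := Mlt_th hL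
  have h4 := (th_facts hL).1
  exact ⟨h1.1.continuous.measurable,
    ⟨1, fun x => by rw [abs_of_nonneg (h4 x).1]; exact (h4 x).2⟩, fun x => (h4 x).1⟩

theorem C11_Dw_nonneg (p : Pr 2) (z : HH 2) : 0 ≤ Dw p.L z := by
  obtain ⟨h1, h2, h3⟩ := C11_damp p.hL
  unfold Dw
  rw [PiLp.inner_apply]
  exact Finset.sum_nonneg fun j _ => C11_inner_nonneg h1 h2 h3 _

theorem C11_Vx_nonneg {L : ℝ} (v : VV 2 L) : 0 ≤ Vx v :=
  Finset.sum_nonneg fun _ _ => sq_nonneg _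

/-- The terms of `Qa`. -/
theorem C11_Qa {K M : ℝ} (hK : 0 ≤ K) (v : VV 2 p.L) (h : Qa p e K v ≤ M ^ 2) :
    Vx v + ‖inc 2 p.L v‖ ^ 2 ≤ M ^ 2 := by
  obtain ⟨h1, h2, h3⟩ := C11_th p.hL
  have a1 := mul_nonneg hK (C11_inner_nonneg h1 h2 h3 (cmp e (inc 2 p.L v)))
  have a2 := mul_nonneg hK (C11_Dw_nonneg p (inc 2 p.L v))
  unfold Qa at h
  linarith

theorem C11_cmp_le (h : Cub p e e' α s) (z : HH 2) : ‖cmp e' z‖ ≤ ‖z‖ := by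
  have h1 := h.norm_sq z
  have h2 : ‖cmp e' z‖ ^ 2 ≤ ‖z‖ ^ 2 := by
    rw [h1]
    have := sq_nonneg ‖cmp e z‖
    linarith
  exact abs_le_of_sq_le_sq' h2 (norm_nonneg _) |>.2

theorem C11_yy_le (h : Cub p e e' α s) (v : VV 2 p.L) : ‖yy p e' v‖ ≤ ‖inc 2 p.L v‖ := by
  refine le_trans ?_ (C11_cmp_le h _)
  unfold yy
  have h4 := (damp_facts p.hL).1
  have hm : Measurable fun x => 1 - damp p.L x := measurable_const.sub (C11_damp p.hL).1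
  have hb : ∃ C, ∀ x, |1 - damp p.L x| ≤ C :=
    ⟨1, fun x => by rw [abs_of_nonneg (by linarith [(h4 x).2])]; linarith [(h4 x).1]⟩
  refine Lp.norm_le_norm_of_ae_le ?_
  filter_upwards [mulOp_ae hm hb (cmp e' (inc 2 p.L v))] with x hx
  rw [hx, norm_mul]
  have : ‖1 - damp p.L x‖ ≤ 1 := by
    rw [Real.norm_eq_abs, abs_of_nonneg (by linarith [(h4 x).2])]; linarith [(h4 x).1]
  calc ‖1 - damp p.L x‖ * ‖cmp e' (inc 2 p.L v) x‖ ≤ 1 * ‖cmp e' (inc 2 p.L v) x‖ := by gcongr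
    _ = _ := one_mul _

theorem C11_emb_sub (a : Fin 2 → ℝ) (u w : L2) : emb a u - emb a w = emb a (u - w) := by
  unfold emb
  rw [← WithLp.toLp_sub]
  congr 1
  funext j
  rw [Pi.sub_apply, smul_sub]

theorem C11_rpow (a : ℝ) (ha : 0 ≤ a) : a ^ (10 / 3 : ℝ) = (a ^ 2) ^ (5 / 3 : ℝ) := by
  rw [← Real.rpow_natCast a 2, ← Real.rpow_mul ha]
  norm_num

/-- The initial perturbation. -/
theorem C11_z0 (h : Cub p e e' α s) {K M ε Cm : ℝ} (hK : 0 < K) (hε : 0 < ε) (hCm : 0 ≤ Cm)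
    (hmoll : ∀ (ε : ℝ) (v : VV 2 p.L), 0 < ε →
      ‖Mo 0 ε (Mo 0 ε (yy p e' v)) - yy p e' v‖ ≤ Cm * ε * √(Vx v + ‖inc 2 p.L v‖ ^ 2))
    (v : VV 2 p.L) (hQ : Qa p e K v ≤ M ^ 2) :
    ‖inc 2 p.L v - emb e' (Mo 0 ε (Mo 0 ε (yy p e' v)))‖ ^ 2 ≤
      2 * (4 * M ^ 2 / K + Cm ^ 2 * ε ^ 2 * M ^ 2) := by
  have hVQ := C11_Qa hK.le v hQ
  have h1 := yy_rest h hK v
  have h2 := hmoll ε v hε
  have hQ0 : 0 ≤ Qa p e K v / K := by
    have : 0 ≤ Vx v + ‖inc 2 p.L v‖ ^ 2 := add_nonneg (C11_Vx_nonneg v) (sq_nonneg _)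
    have h4 : 0 ≤ Qa p e K v := by
      obtain ⟨h1, h2, h3⟩ := C11_th p.hL
      have a1 := mul_nonneg hK.le (C11_inner_nonneg h1 h2 h3 (cmp e (inc 2 p.L v)))
      have a2 := mul_nonneg hK.le (C11_Dw_nonneg p (inc 2 p.L v))
      unfold Qa
      linarith
    positivity
  have e1 : inc 2 p.L v - emb e' (Mo 0 ε (Mo 0 ε (yy p e' v))) =
      (inc 2 p.L v - emb e' (yy p e' v)) +
        emb e' (yy p e' v - Mo 0 ε (Mo 0 ε (yy p e' v))) := by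
    rw [← C11_emb_sub]
    abel
  have e2 : ‖emb e' (yy p e' v - Mo 0 ε (Mo 0 ε (yy p e' v)))‖ ≤
      Cm * ε * √(Vx v + ‖inc 2 p.L v‖ ^ 2) := by
    rw [(h.norm_emb _).2, norm_sub_rev]
    exact h2
  have e3 : ‖inc 2 p.L v - emb e' (yy p e' v)‖ ^ 2 ≤ 4 * M ^ 2 / K := by
    calc ‖inc 2 p.L v - emb e' (yy p e' v)‖ ^ 2 ≤ (2 * √(Qa p e K v / K)) ^ 2 := by gcongr
      _ = 4 * (Qa p e K v / K) := by rw [mul_pow, Real.sq_sqrt hQ0]; norm_num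
      _ ≤ 4 * (M ^ 2 / K) := by gcongr
      _ = 4 * M ^ 2 / K := by ring
  have e4 : ‖emb e' (yy p e' v - Mo 0 ε (Mo 0 ε (yy p e' v)))‖ ^ 2 ≤ Cm ^ 2 * ε ^ 2 * M ^ 2 := by
    have h0 : 0 ≤ Vx v + ‖inc 2 p.L v‖ ^ 2 := add_nonneg (C11_Vx_nonneg v) (sq_nonneg _)
    calc ‖emb e' (yy p e' v - Mo 0 ε (Mo 0 ε (yy p e' v)))‖ ^ 2 ≤
          (Cm * ε * √(Vx v + ‖inc 2 p.L v‖ ^ 2)) ^ 2 := by gcongr
      _ = Cm ^ 2 * ε ^ 2 * (Vx v + ‖inc 2 p.L v‖ ^ 2) := by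
          rw [mul_pow, mul_pow, Real.sq_sqrt h0]
      _ ≤ Cm ^ 2 * ε ^ 2 * M ^ 2 := by gcongr
  rw [e1]
  have h5 := norm_add_le (inc 2 p.L v - emb e' (yy p e' v))
    (emb e' (yy p e' v - Mo 0 ε (Mo 0 ε (yy p e' v))))
  have h6 := pow_le_pow_left₀ (norm_nonneg _) h5 2
  refine h6.trans ?_
  have h7 := add_sq_le (a := ‖inc 2 p.L v - emb e' (yy p e' v)‖)
    (b := ‖emb e' (yy p e' v - Mo 0 ε (Mo 0 ε (yy p e' v)))‖)
  linarith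

theorem cube_b (h : Cub p e e' α s) : ∃ T : ℝ, 0 < T ∧ T ≤ 1 ∧ ∀ δ M : ℝ, 0 < δ → ∃ K0 : ℝ, 0 < K0 ∧
    ∀ K g0 : ℝ, K0 ≤ K → ∀ v : VV 2 p.L, Qa p e K v ≤ M ^ 2 → ∃ z1 : HH 2, ‖z1‖ ≤ δ ∧
      p.Adm (bg 2 p.L (cst e e' K g0) + inc 2 p.L v) (bg 2 p.L (cst e e' K g0) + z1) T := by
  obtain ⟨T, C1, hT, hT1, hC1, hbk⟩ := cube_bk h
  refine ⟨T, hT, hT1, ?_⟩
  intro δ M hδ
  obtain ⟨m, C, hm, hC, hwd⟩ := wd p
  obtain ⟨Cm, hCm, hmoll⟩ := yy_moll h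
  have hα := h.cube.pos
  obtain ⟨c, hc⟩ : ∃ c, c = 2 * (p.L + 4) := ⟨_, rfl⟩
  have hcpos : 0 < c := by rw [hc]; linarith [p.hL]
  obtain ⟨b, hb⟩ : ∃ b, b = 2 * C / c := ⟨_, rfl⟩
  have hb0 : 0 ≤ b := by rw [hb]; positivity
  obtain ⟨η, hη⟩ : ∃ η, η = min (δ ^ 2) (1 / 2) / Real.exp (2 * b) := ⟨_, rfl⟩
  have hη0 : 0 < η := by rw [hη]; exact div_pos (lt_min (by positivity) (by norm_num)) (Real.exp_pos _)
  have hη1 : η * Real.exp (2 * b) = min (δ ^ 2) (1 / 2) := by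
    rw [hη, div_mul_cancel₀ _ (Real.exp_pos _).ne']
  obtain ⟨ε, hε, hε8, hε2⟩ : ∃ ε : ℝ, 0 < ε ∧ ε ≤ 1 / 8 ∧ 8 * (Cm ^ 2 * ε ^ 2 * M ^ 2) ≤ η / 2 := by
    have hden : 0 < 16 * (Cm ^ 2 * M ^ 2 + 1) := by positivity
    refine ⟨min (1 / 8) (η / (16 * (Cm ^ 2 * M ^ 2 + 1))), lt_min (by norm_num) (div_pos hη0 hden),
      min_le_left _ _, ?_⟩
    have h1 : min (1 / 8) (η / (16 * (Cm ^ 2 * M ^ 2 + 1))) ≤ 1 / 8 := min_le_left _ _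
    have h2 : min (1 / 8) (η / (16 * (Cm ^ 2 * M ^ 2 + 1))) ≤ η / (16 * (Cm ^ 2 * M ^ 2 + 1)) :=
      min_le_right _ _
    have h0 : 0 < min (1 / 8) (η / (16 * (Cm ^ 2 * M ^ 2 + 1))) :=
      lt_min (by norm_num) (div_pos hη0 hden)
    generalize min (1 / 8) (η / (16 * (Cm ^ 2 * M ^ 2 + 1))) = x at h0 h1 h2
    have h3 : x ^ 2 ≤ x := pow_le_of_le_one h0.le (by linarith) two_ne_zero
    have h4 : x * (16 * (Cm ^ 2 * M ^ 2 + 1)) ≤ η := (le_div_iff₀ hden).1 h2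
    have h5 : Cm ^ 2 * M ^ 2 * x ^ 2 ≤ Cm ^ 2 * M ^ 2 * x := by gcongr
    have h6 : 8 * (Cm ^ 2 * x ^ 2 * M ^ 2) = 8 * (Cm ^ 2 * M ^ 2 * x ^ 2) := by ring
    have h7 : x * (16 * (Cm ^ 2 * M ^ 2 + 1)) = 16 * (Cm ^ 2 * M ^ 2 * x) + 16 * x := by ring
    rw [h6]
    rw [h7] at h4
    linarith
  obtain ⟨Cb1, hCb1, hb1⟩ := Mo_bound 1 hε
  obtain ⟨Cb3, hCb3, hb3⟩ := Mo_bound 3 hε
  obtain ⟨Cq, hCq⟩ : ∃ Cq, Cq = |s| * Cb1 + |Lmu p e e'| * Cb3 := ⟨_, rfl⟩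
  have hCq0 : 0 ≤ Cq := by rw [hCq]; positivity
  obtain ⟨G0, hG0⟩ : ∃ G0, G0 = (2 * c) ^ 2 / α * (Cq * (C1 * |M|)) ^ 2 := ⟨_, rfl⟩
  have hG00 : 0 ≤ G0 := by rw [hG0]; positivity
  obtain ⟨N, hN⟩ : ∃ N, N = 32 * M ^ 2 + 2 / c * G0 := ⟨_, rfl⟩
  have hN0 : 0 ≤ N := by rw [hN]; positivity
  refine ⟨2 * N / η + 1, by positivity, ?_⟩
  intro K g0 hK0 v hQ
  have hK : 0 < K := lt_of_lt_of_le (by positivity) hK0
  obtain ⟨B, φ, B1, B2, B3, B4, B5⟩ := hbk ε hε hε8 (yy p e' v) K g0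
  have hVQ := C11_Qa hK.le v hQ
  have hinc : ‖inc 2 p.L v‖ ≤ |M| := by
    have h1 : ‖inc 2 p.L v‖ ^ 2 ≤ M ^ 2 := by
      have := C11_Vx_nonneg v
      linarith
    have := sq_le_sq.1 h1
    rwa [abs_of_nonneg (norm_nonneg _)] at this
  obtain ⟨z0, hz0⟩ : ∃ z0, z0 = inc 2 p.L v - emb e' (Mo 0 ε (Mo 0 ε (yy p e' v))) := ⟨_, rfl⟩
  have hz0n := C11_z0 h hK hε hCm hmoll v hQ
  rw [← hz0] at hz0n
  have hDc : ContinuousOn (fun _ : ℝ => (0 : ℝ)) (Icc 0 T) := continuousOn_const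
  obtain ⟨f, w, hrun⟩ := exists_run p hT B hDc (fun _ _ => le_rfl) z0
  have hadm := hrun.adm hT.le ⟨hT.le, le_rfl⟩
  obtain ⟨hyc, hVi, -, htrt, hri⟩ := wd_int p hT.le hrun hDc c
  -- the residual and the transport term
  have hres : ∀ r ∈ Icc 0 T, trt p c (B.w r) (B.wx r) (p.sm.traj z0 f r) +
      2 * |inner ℝ (B.r r) (mulH (wt p.L c) (p.sm.traj z0 f r))| ≤ G0 / K := by
    intro r hr
    rw [cube_trt h (fun x => B4 r hr x), B5 r hr]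
    have h1 := cube_resid h (c := c) (by rw [hc]) hK (p.sm.traj z0 f r)
      (s • Mo 1 ε (Mo 0 ε (φ r)) + Lmu p e e' • Mo 3 ε (Mo 0 ε (φ r)))
    have h2 : ‖s • Mo 1 ε (Mo 0 ε (φ r)) + Lmu p e e' • Mo 3 ε (Mo 0 ε (φ r))‖ ≤
        Cq * (C1 * |M|) := by
      have hφ : ‖Mo 0 ε (φ r)‖ ≤ C1 * |M| := by
        refine (Mo_zero_norm hε _).trans ((B3 r hr).trans ?_)
        exact mul_le_mul_of_nonneg_left ((C11_yy_le h v).trans hinc) hC1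
      calc ‖s • Mo 1 ε (Mo 0 ε (φ r)) + Lmu p e e' • Mo 3 ε (Mo 0 ε (φ r))‖ ≤
            |s| * ‖Mo 1 ε (Mo 0 ε (φ r))‖ + |Lmu p e e'| * ‖Mo 3 ε (Mo 0 ε (φ r))‖ := by
            refine (norm_add_le _ _).trans ?_
            rw [norm_smul, norm_smul, Real.norm_eq_abs, Real.norm_eq_abs]
        _ ≤ |s| * (Cb1 * (C1 * |M|)) + |Lmu p e e'| * (Cb3 * (C1 * |M|)) := by
            have k1 := (hb1 (Mo 0 ε (φ r))).trans (mul_le_mul_of_nonneg_left hφ hCb1)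
            have k3 := (hb3 (Mo 0 ε (φ r))).trans (mul_le_mul_of_nonneg_left hφ hCb3)
            gcongr
        _ = Cq * (C1 * |M|) := by rw [hCq]; ring
    have h3 : (2 * c) ^ 2 / (α * K) *
        ‖s • Mo 1 ε (Mo 0 ε (φ r)) + Lmu p e e' • Mo 3 ε (Mo 0 ε (φ r))‖ ^ 2 ≤ G0 / K := by
      calc (2 * c) ^ 2 / (α * K) *
          ‖s • Mo 1 ε (Mo 0 ε (φ r)) + Lmu p e e' • Mo 3 ε (Mo 0 ε (φ r))‖ ^ 2 ≤
            (2 * c) ^ 2 / (α * K) * (Cq * (C1 * |M|)) ^ 2 := by gcongr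
        _ = G0 / K := by rw [hG0]; field_simp
    linarith
  -- the inequality for the square of the norm
  have htraj0 : p.sm.traj z0 f 0 = z0 := by
    unfold Sm.traj
    rw [intervalIntegral.integral_same, add_zero, p.sm.U_zero]
  have hu : ContinuousOn (fun t => ‖p.sm.traj z0 f t‖ ^ 2) (Icc 0 T) := hyc.norm.pow 2
  have hu53 : ContinuousOn (fun t => (‖p.sm.traj z0 f t‖ ^ 2) ^ (5 / 3 : ℝ)) (Icc 0 T) :=
    hu.rpow_const fun _ _ => Or.inr (by norm_num)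
  obtain ⟨a, ha⟩ : ∃ a, a = 8 * (4 * M ^ 2 / K + Cm ^ 2 * ε ^ 2 * M ^ 2) + 2 / c * (G0 / K) :=
    ⟨_, rfl⟩
  have ha0 : 0 ≤ a := by rw [ha]; positivity
  have haη : a ≤ η := by
    have h1 : a = N / K + 8 * (Cm ^ 2 * ε ^ 2 * M ^ 2) := by
      rw [ha, hN]; field_simp; ring
    have h2 : N / K ≤ η / 2 := by
      rw [div_le_iff₀ hK]
      have h3 : 2 * N / η ≤ K := by linarith
      rw [div_le_iff₀ hη0] at h3
      linarith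
    rw [h1]
    linarith
  have hae : a * Real.exp (2 * b) ≤ min (δ ^ 2) (1 / 2) := by
    rw [← hη1]
    gcongr
  have hgr := gron_small (a := a) (b := b) (T := T) ha0 hb0 hT.le hT1
    (lt_of_le_of_lt (hae.trans (min_le_right _ _)) (by norm_num)) hu (fun t _ => sq_nonneg _) ?_
  · refine ⟨p.sm.traj z0 f T, ?_, ?_⟩
    · have h1 := hgr T ⟨hT.le, le_rfl⟩
      have h2 : ‖p.sm.traj z0 f T‖ ^ 2 ≤ δ ^ 2 := h1.trans (hae.trans (min_le_left _ _))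
      exact (abs_le_of_sq_le_sq' h2 hδ.le).2
    · rw [B2, B1, hz0] at hadm
      have e1 : bg 2 p.L (cst e e' K g0) + emb e' (Mo 0 ε (Mo 0 ε (yy p e' v))) +
          (inc 2 p.L v - emb e' (Mo 0 ε (Mo 0 ε (yy p e' v)))) =
          bg 2 p.L (cst e e' K g0) + inc 2 p.L v := by abel
      rw [e1, ← hz0] at hadm
      exact hadm
  · intro t ht
    have hwd' := hwd c (by rw [hc]) T B (fun _ => 0) z0 f w hT hDc (fun _ _ => le_rfl) hrun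
      0 t le_rfl ht.1 ht.2
    rw [htraj0] at hwd'
    have hsub : Icc 0 t ⊆ Icc 0 T := Icc_subset_Icc le_rfl ht.2
    have hsub' : Ioc 0 t ⊆ Ioc 0 T := Ioc_subset_Ioc le_rfl ht.2
    obtain ⟨w1, -, -⟩ := wn_bounds (c := c) p.hL (by rw [hc]) (p.sm.traj z0 f t)
    obtain ⟨-, w2, -⟩ := wn_bounds (c := c) p.hL (by rw [hc]) z0
    have hpos : 0 ≤ ∫ r in (0 : ℝ)..t, (m * Vx (w r) + 0 * c * Dw p.L (p.sm.traj z0 f r)) := by
      refine intervalIntegral.integral_nonneg ht.1 fun r _ => ?_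
      have := mul_nonneg hm.le (C11_Vx_nonneg (w r))
      linarith
    have hint : (∫ r in (0 : ℝ)..t, (C * (‖p.sm.traj z0 f r‖ ^ 2 +
        ‖p.sm.traj z0 f r‖ ^ (10 / 3 : ℝ)) + trt p c (B.w r) (B.wx r) (p.sm.traj z0 f r) +
        2 * |inner ℝ (B.r r) (mulH (wt p.L c) (p.sm.traj z0 f r))|)) ≤
        (∫ r in (0 : ℝ)..t, C * (‖p.sm.traj z0 f r‖ ^ 2 +
          (‖p.sm.traj z0 f r‖ ^ 2) ^ (5 / 3 : ℝ))) + G0 / K := by
      have i1 : IntervalIntegrable (fun r => C * (‖p.sm.traj z0 f r‖ ^ 2 +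
          (‖p.sm.traj z0 f r‖ ^ 2) ^ (5 / 3 : ℝ))) volume 0 t :=
        ((continuousOn_const.mul (hu.add hu53)).mono hsub).intervalIntegrable_of_Icc ht.1
      have i2 : IntervalIntegrable (fun r => trt p c (B.w r) (B.wx r) (p.sm.traj z0 f r))
          volume 0 t := (htrt.mono hsub).intervalIntegrable_of_Icc ht.1
      have i3 : IntervalIntegrable (fun r =>
          2 * |inner ℝ (B.r r) (mulH (wt p.L c) (p.sm.traj z0 f r))|) volume 0 t := by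
        rw [intervalIntegrable_iff_integrableOn_Ioc_of_le ht.1]
        exact ((hri.mono_set hsub').abs).const_mul 2
      have i4 : IntervalIntegrable (fun _ : ℝ => G0 / K) volume 0 t := intervalIntegrable_const
      have i5 : IntervalIntegrable (fun r => (C * (‖p.sm.traj z0 f r‖ ^ 2 +
          ‖p.sm.traj z0 f r‖ ^ (10 / 3 : ℝ)) + trt p c (B.w r) (B.wx r) (p.sm.traj z0 f r) +
          2 * |inner ℝ (B.r r) (mulH (wt p.L c) (p.sm.traj z0 f r))|)) volume 0 t := by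
        have : (fun r => (C * (‖p.sm.traj z0 f r‖ ^ 2 +
          ‖p.sm.traj z0 f r‖ ^ (10 / 3 : ℝ)) + trt p c (B.w r) (B.wx r) (p.sm.traj z0 f r) +
          2 * |inner ℝ (B.r r) (mulH (wt p.L c) (p.sm.traj z0 f r))|)) =
          fun r => (C * (‖p.sm.traj z0 f r‖ ^ 2 +
          (‖p.sm.traj z0 f r‖ ^ 2) ^ (5 / 3 : ℝ)) + trt p c (B.w r) (B.wx r) (p.sm.traj z0 f r) +
          2 * |inner ℝ (B.r r) (mulH (wt p.L c) (p.sm.traj z0 f r))|) := by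
          funext r
          rw [C11_rpow _ (norm_nonneg _)]
        rw [this]
        exact (i1.add i2).add i3
      have h1 := intervalIntegral.integral_mono_on ht.1 i5 (i1.add i4) (fun r hr => by
        have h2 := hres r (hsub hr)
        rw [C11_rpow _ (norm_nonneg _)]
        change _ ≤ C * (‖p.sm.traj z0 f r‖ ^ 2 + (‖p.sm.traj z0 f r‖ ^ 2) ^ (5 / 3 : ℝ)) + G0 / K
        linarith)
      refine h1.trans ?_
      have h3 : (∫ r in (0 : ℝ)..t, (C * (‖p.sm.traj z0 f r‖ ^ 2 +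
          (‖p.sm.traj z0 f r‖ ^ 2) ^ (5 / 3 : ℝ)) + G0 / K)) =
          (∫ r in (0 : ℝ)..t, C * (‖p.sm.traj z0 f r‖ ^ 2 +
          (‖p.sm.traj z0 f r‖ ^ 2) ^ (5 / 3 : ℝ))) + ∫ _ in (0 : ℝ)..t, G0 / K :=
        intervalIntegral.integral_add i1 i4
      change (∫ r in (0 : ℝ)..t, (C * (‖p.sm.traj z0 f r‖ ^ 2 +
          (‖p.sm.traj z0 f r‖ ^ 2) ^ (5 / 3 : ℝ)) + G0 / K)) ≤ _
      rw [h3, intervalIntegral.integral_const, smul_eq_mul, sub_zero]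
      have h4 : t * (G0 / K) ≤ 1 * (G0 / K) := by
        have : 0 ≤ G0 / K := by positivity
        exact mul_le_mul_of_nonneg_right (ht.2.trans hT1) this
      linarith
    -- combine
    have hI : (∫ r in (0 : ℝ)..t, b * (‖p.sm.traj z0 f r‖ ^ 2 +
        (‖p.sm.traj z0 f r‖ ^ 2) ^ (5 / 3 : ℝ))) = 2 / c * ∫ r in (0 : ℝ)..t,
        C * (‖p.sm.traj z0 f r‖ ^ 2 + (‖p.sm.traj z0 f r‖ ^ 2) ^ (5 / 3 : ℝ)) := by
      rw [← intervalIntegral.integral_const_mul]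
      refine intervalIntegral.integral_congr fun r _ => ?_
      change b * _ = 2 / c * (C * _)
      rw [hb]
      ring
    rw [hI]
    generalize (∫ r in (0 : ℝ)..t,
        C * (‖p.sm.traj z0 f r‖ ^ 2 + (‖p.sm.traj z0 f r‖ ^ 2) ^ (5 / 3 : ℝ))) = I1 at hint ⊢
    have h5 : c / 2 * ‖p.sm.traj z0 f t‖ ^ 2 ≤ 2 * c * ‖z0‖ ^ 2 + (I1 + G0 / K) := by linarith
    have h6 : ‖p.sm.traj z0 f t‖ ^ 2 = 2 / c * (c / 2 * ‖p.sm.traj z0 f t‖ ^ 2) := by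
      field_simp
    have h7 : 2 / c * (c / 2 * ‖p.sm.traj z0 f t‖ ^ 2) ≤
        2 / c * (2 * c * ‖z0‖ ^ 2 + (I1 + G0 / K)) :=
      mul_le_mul_of_nonneg_left h5 (by positivity)
    have h8 : 2 / c * (2 * c * ‖z0‖ ^ 2 + (I1 + G0 / K)) =
        4 * ‖z0‖ ^ 2 + 2 / c * (G0 / K) + 2 / c * I1 := by
      field_simp
      ring
    change ‖p.sm.traj z0 f t‖ ^ 2 ≤ _
    rw [h6, ha]
    linarith

end Pool.Agent.KG
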