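import Pool.Agent.Lib.KG.InfS
import Pool.Agent.Lib.KG.Alg

/-!
# Row TL4: the residual along a line
-/

set_option autoImplicit false

namespace Pool.Agent.KG.TL4

open MeasureTheory Filter Topology Set
open Pool.Agent.Kdv
open scoped ENNReal ContDiff InnerProductSpace

variable {n : ℕ}

private theorem TL4_deriv {f : ℝ → ℝ} (hf : ContDiff ℝ ∞ f) (a b : ℝ) :
    deriv (fun x => f x * a + b) = fun x => deriv f x * a := by
  funext x
  have h1 : HasDerivAt f (deriv f x) x :=
    (hf.differentiable (by simp)).differentiableAt.hasDerivAt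
  exact ((h1.mul_const a).add_const b).deriv

private theorem TL4_contDiff {f : ℝ → ℝ} (hf : ContDiff ℝ ∞ f) : ContDiff ℝ ∞ (deriv f) := by
  have h1 : ContDiff ℝ ((⊤ : ℕ∞) + 1) f := by simpa using hf
  exact (contDiff_succ_iff_deriv.1 h1).2.2

private theorem TL4_iter {f : ℝ → ℝ} (hf : ContDiff ℝ ∞ f) (a b : ℝ) :
    iteratedDeriv 3 (fun x => f x * a + b) = fun x => iteratedDeriv 3 f x * a := by
  have h1 := TL4_contDiff hf
  have h2 := TL4_contDiff h1
  have e0 : ∀ g : ℝ → ℝ, ContDiff ℝ ∞ g → deriv (fun x => g x * a) = fun x => deriv g x * a := by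
    intro g hg
    have h := TL4_deriv hg a 0
    simp only [add_zero] at h
    exact h
  rw [iteratedDeriv_succ', iteratedDeriv_succ', iteratedDeriv_succ', iteratedDeriv_zero,
    TL4_deriv hf, e0 _ h1, e0 _ h2, iteratedDeriv_succ', iteratedDeriv_succ', iteratedDeriv_succ',
    iteratedDeriv_zero]

/-- The residual of `w = h e + Z` with `T(e, e) = α e`. -/
theorem resid_lin (p : Pr n) {e : Fin n → ℝ} {α : ℝ} (he : ∀ j, bil p.g e e j = α * e j)
    {h : ℝ → ℝ → ℝ} {Z : ℝ → Fin n → ℝ} {t x : ℝ}
    (h1 : DifferentiableAt ℝ (fun s => h s x) t) (h2 : ∀ j, DifferentiableAt ℝ (fun s => Z s j) t)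
    (h3 : ContDiff ℝ ∞ (h t)) (j : Fin n) :
    resid p (fun t x j => h t x * e j + Z t j) t x j =
      (deriv (fun s => h s x) t + α * h t x * deriv (h t) x) * e j +
      p.mu j * iteratedDeriv 3 (h t) x * e j +
      deriv (h t) x * (mv p.S e j + bil p.g (Z t) e j) + deriv (fun s => Z s j) t := by
  have ht : deriv (fun s => h s x * e j + Z s j) t =
      deriv (fun s => h s x) t * e j + deriv (fun s => Z s j) t :=
    ((h1.hasDerivAt.mul_const (e j)).add (h2 j).hasDerivAt).deriv
  have hx : ∀ k, deriv (fun x => h t x * e k + Z t k) x = deriv (h t) x * e k := by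
    intro k
    rw [TL4_deriv h3]
  have hi : iteratedDeriv 3 (fun x => h t x * e j + Z t j) x = iteratedDeriv 3 (h t) x * e j := by
    rw [TL4_iter h3]
  unfold resid
  rw [ht, hi]
  simp only [hx]
  have hS : (∑ k, p.S j k * (deriv (h t) x * e k)) = deriv (h t) x * mv p.S e j := by
    unfold mv
    rw [Finset.mul_sum]
    exact Finset.sum_congr rfl fun k _ => by ring
  have hq : (∑ k, ∑ l, p.g j k l * (h t x * e k + Z t k) * (deriv (h t) x * e l)) =
      h t x * deriv (h t) x * bil p.g e e j + deriv (h t) x * bil p.g (Z t) e j := by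
    unfold bil
    rw [Finset.mul_sum, Finset.mul_sum, ← Finset.sum_add_distrib]
    refine Finset.sum_congr rfl fun k _ => ?_
    rw [Finset.mul_sum, Finset.mul_sum, ← Finset.sum_add_distrib]
    exact Finset.sum_congr rfl fun l _ => by ring
  rw [hS, hq, he]
  ring

end Pool.Agent.KG.TL4

namespace Pool.Agent.KG

alias resid_lin := TL4.resid_lin

end Pool.Agent.KG
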