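import Pool.Agent.Lib.KG.Defs

/-!
# The shifted system
-/

set_option autoImplicit false

namespace Pool.Agent.KG

variable {n : ℕ}

/-- The system of the difference to the constant state `X`. -/
def Pr.shift (p : Pr n) (X : Fin n → ℝ) : Pr n :=
  { p with
    S := fun j k => p.S j k + Hm p.g X j k
    hS := fun j k => by
      rw [p.hS j k]
      congr 1
      unfold Hm
      exact Finset.sum_congr rfl fun l _ => by rw [p.g12 j k l] }

end Pool.Agent.KG
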