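import Pool.Agent.Lib.KG.InfS
import Pool.Agent.Lib.KG.Alg
import Pool.Agent.Lib.KG.ShD
import Pool.Agent.Lib.MP_78c35a_an.Energy
import Pool.Agent.Lib.MP_78c35a_an.Refl

/-!
# Row TL5: shift by a constant state
-/

set_option autoImplicit false

namespace Pool.Agent.KG.TL5

open MeasureTheory Filter Topology Set
open Pool.Agent.Kdv
open scoped ENNReal ContDiff InnerProductSpace

variable {n : ℕ}

theorem enorm_sq_le {E : Type} [NormedAddCommGroup E] (a b : E) :
    ‖a + b‖ₑ ^ 2 ≤ 2 * ‖a‖ₑ ^ 2 + 2 * ‖b‖ₑ ^ 2 := by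
  have h1 : ‖a + b‖ ^ 2 ≤ 2 * ‖a‖ ^ 2 + 2 * ‖b‖ ^ 2 := by
    have := norm_add_le a b
    have h2 : ‖a + b‖ ^ 2 ≤ (‖a‖ + ‖b‖) ^ 2 := by gcongr
    nlinarith [sq_nonneg (‖a‖ - ‖b‖)]
  have e2 : (2 : ℝ≥0∞) = ENNReal.ofReal 2 := by norm_num
  rw [← ofReal_norm, ← ofReal_norm, ← ofReal_norm, ← ENNReal.ofReal_pow (norm_nonneg _),
    ← ENNReal.ofReal_pow (norm_nonneg _), ← ENNReal.ofReal_pow (norm_nonneg _), e2,
    ← ENNReal.ofReal_mul (by norm_num), ← ENNReal.ofReal_mul (by norm_num),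
    ← ENNReal.ofReal_add (by positivity) (by positivity)]
  exact ENNReal.ofReal_le_ofReal h1

/-- The sum of two paths. -/
theorem path_add {H V : Type} [NormedAddCommGroup H] [InnerProductSpace ℝ H] [CompleteSpace H]
    [NormedAddCommGroup V] [NormedSpace ℝ V] [CompleteSpace V] (S : Sm H V) {T : ℝ} {y z : H}
    {f g : ℝ → H} {v w : ℝ → V} (h1 : S.Path y T f v) (h2 : S.Path z T g w) :
    S.Path (y + z) T (fun s => f s + g s) (fun s => v s + w s) := by
  refine ⟨h1.int.add h2.int, h1.meas.add h2.meas, ?_, ?_⟩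
  · refine lt_of_le_of_lt (lintegral_mono fun t => enorm_sq_le (v t) (w t)) ?_
    rw [lintegral_add_left' ((h1.meas.enorm.pow_const 2).const_mul 2),
      lintegral_const_mul' 2 _ (by norm_num), lintegral_const_mul' 2 _ (by norm_num)]
    exact ENNReal.add_lt_top.2 ⟨ENNReal.mul_lt_top (by norm_num) h1.fin,
      ENNReal.mul_lt_top (by norm_num) h2.fin⟩
  · filter_upwards [h1.lift, h2.lift, ae_restrict_mem measurableSet_Ioc] with t a1 a2 a3
    rw [map_add, a1, a2, S.traj_add y z h1.int h2.int ⟨a3.1.le, a3.2⟩]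

theorem chi_in {L x : ℝ} (hx : x ∈ Ioo (0 : ℝ) L) : chi L x = 1 := by
  unfold chi
  rw [min_eq_left (le_min (by linarith [hx.1]) (by linarith [hx.2])), max_eq_right zero_le_one]

theorem dchi_in {L x : ℝ} (hx : x ∈ Ioo (0 : ℝ) L) : dchi L x = 0 := by
  unfold dchi
  rw [indicator_of_notMem (fun h => by linarith [h.2, hx.1] : x ∉ Ioo (-1 : ℝ) 0),
    indicator_of_notMem (fun h => by linarith [h.1, hx.2] : x ∉ Ioo L (L + 1)), sub_zero]

theorem alg (S : Fin n → Fin n → ℝ) {g : Fin n → Fin n → Fin n → ℝ}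
    (g23 : ∀ j k l, g j k l = g j l k) (X u d : Fin n → ℝ) (j : Fin n) :
    -(∑ k, S j k * (0 + d k)) + -(∑ k, ∑ l, g j k l * ((X k + u k) * (0 + d l))) =
      (-(∑ k, S j k * 0) + -(∑ k, ∑ l, g j k l * (X k * 0))) +
      (-(∑ k, (S j k + Hm g X j k) * d k) + -(∑ k, ∑ l, g j k l * (u k * d l))) := by
  have h1 : ∑ k, ∑ l, g j k l * ((X k + u k) * (0 + d l)) =
      ∑ k, ∑ l, g j k l * (X k * d l) + ∑ k, ∑ l, g j k l * (u k * d l) := by
    rw [← Finset.sum_add_distrib]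
    refine Finset.sum_congr rfl fun k _ => ?_
    rw [← Finset.sum_add_distrib]
    exact Finset.sum_congr rfl fun l _ => by ring
  have h2 : ∑ k, (S j k + Hm g X j k) * d k =
      ∑ k, S j k * d k + ∑ k, ∑ l, g j k l * (X k * d l) := by
    have h3 : ∑ k, ∑ l, g j k l * (X k * d l) = ∑ k, Hm g X j k * d k := by
      rw [Finset.sum_comm]
      refine Finset.sum_congr rfl fun k _ => ?_
      unfold Hm
      rw [Finset.sum_mul]
      refine Finset.sum_congr rfl fun l _ => ?_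
      rw [g23 j k l]
      ring
    rw [h3, ← Finset.sum_add_distrib]
    exact Finset.sum_congr rfl fun k _ => by ring
  rw [h1, h2]
  simp only [mul_zero, Finset.sum_const_zero, zero_add, neg_zero]
  ring

theorem key (p : Pr n) (X : Fin n → ℝ) {a v : VV n p.L}
    (ha : ∀ j, ∀ᵐ x ∂volume, x ∈ J p.L → uu j a x = X j ∧ dd j a x = 0) :
    PP n p.L (lmap n p.L p.S (a + v) + qmap n p.L p.g (a + v)) =
      PP n p.L (lmap n p.L p.S a + qmap n p.L p.g a) +
      PP n p.L (lmap n p.L (fun j k => p.S j k + Hm p.g X j k) v + qmap n p.L p.g v) := by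
  rw [← map_add]
  ext1 j
  apply Lp.ext
  have hu : ∀ k, ∀ᵐ x ∂volume, uu k (a + v) x = uu k a x + uu k v x := by
    intro k
    rw [map_add]
    exact Lp.coeFn_add _ _
  have hd : ∀ k, ∀ᵐ x ∂volume, dd k (a + v) x = dd k a x + dd k v x := by
    intro k
    rw [map_add]
    exact Lp.coeFn_add _ _
  have h3 : ∀ y z : HH n, ∀ᵐ x ∂volume, (y + z) j x = y j x + z j x := by
    intro y z
    exact Lp.coeFn_add (y j) (z j)
  filter_upwards [PP_ae p.L (lmap n p.L p.S (a + v) + qmap n p.L p.g (a + v)) j,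
    PP_ae p.L (lmap n p.L p.S a + qmap n p.L p.g a +
      (lmap n p.L (fun j k => p.S j k + Hm p.g X j k) v + qmap n p.L p.g v)) j,
    h3 (lmap n p.L p.S (a + v)) (qmap n p.L p.g (a + v)),
    h3 (lmap n p.L p.S a + qmap n p.L p.g a)
      (lmap n p.L (fun j k => p.S j k + Hm p.g X j k) v + qmap n p.L p.g v),
    h3 (lmap n p.L p.S a) (qmap n p.L p.g a),
    h3 (lmap n p.L (fun j k => p.S j k + Hm p.g X j k) v) (qmap n p.L p.g v),
    lmap_ae p.L p.S (a + v) j, qmap_ae p.hL p.g (a + v) j, lmap_ae p.L p.S a j,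
    qmap_ae p.hL p.g a j, lmap_ae p.L (fun j k => p.S j k + Hm p.g X j k) v j,
    qmap_ae p.hL p.g v j, ae_all_iff.2 ha, ae_all_iff.2 hu, ae_all_iff.2 hd] with x
    b1 b2 b3 b4 b5 b6 b7 b8 b9 b10 b11 b12 b13 b14 b15
  rw [b1, b2]
  by_cases hx : x ∈ Ioo (0 : ℝ) p.L
  · congr 1
    rw [b3, b4, b5, b6, b7, b8, b9, b10, b11, b12]
    have hJ : x ∈ J p.L := ⟨by linarith [hx.1], by linarith [hx.2]⟩
    have c1 := chi_in hx
    have c2 := dchi_in hx
    have c3 : ∀ k, uu k a x = X k := fun k => (b13 k hJ).1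
    have c4 : ∀ k, dd k a x = 0 := fun k => (b13 k hJ).2
    simp only [b14, b15, c1, c2, c3, c4, one_mul, mul_zero, zero_mul, add_zero]
    have := alg p.S p.g23 X (fun k => uu k v x) (fun k => dd k v x) j
    simpa only [mul_zero, zero_add] using this
  · have : one p.L x = 0 := by
      unfold one
      rw [indicator_of_notMem hx]
    rw [this, zero_mul, zero_mul]

theorem Adm.shift {p : Pr n} {X : Fin n → ℝ} {y0 y1 : HH n} {T : ℝ} (hT : 0 < T)
    (h : (p.shift X).Adm y0 y1 T) :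
    p.Adm (bg n p.L (fun _ => X) + y0) (bg n p.L (fun _ => X) + y1) T := by
  obtain ⟨B, hB1, hB2, hB3, hB4, hB5⟩ := exists_bk p hT (w := fun _ _ => X) isOpen_univ
    (subset_univ _) (fun j => contDiffOn_const)
  obtain ⟨f, v0, hp, he, hf⟩ := h
  obtain ⟨v, hv⟩ : ∃ v : ℝ → VV n p.L, v = v0 := ⟨v0, rfl⟩
  have hp' : p.sm.Path y0 T f v := by
    rw [hv]
    exact hp
  have he' : ∀ᵐ t ∂volume.restrict (Ioc (0 : ℝ) T), PP n p.L (f t) =
      PP n p.L (lmap n p.L (fun j k => p.S j k + Hm p.g X j k) (v t) + qmap n p.L p.g (v t)) := by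
    rw [hv]
    exact he
  have hf' : p.sm.traj y0 f T = y1 := hf
  have hr : ∀ t ∈ Icc 0 T, B.r t = 0 := by
    intro t ht
    rw [hB5 t ht]
    ext1 j
    have h1 : (fun x => th p.L x * resid p (fun _ _ => X) t x j) = fun _ => 0 := by
      funext x
      have h2 : iteratedDeriv 3 (fun _ : ℝ => X j) x = 0 := by
        simp [iteratedDeriv_succ, iteratedDeriv_zero]
      unfold resid
      simp [h2]
    show toL2 (fun x => th p.L x * resid p (fun _ _ => X) t x j) = 0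
    rw [h1]
    unfold toL2
    rw [dif_pos (MemLp.zero' : MemLp (fun _ : ℝ => (0 : ℝ)) 2 volume)]
    rfl
  refine ⟨fun s => B.fb s + f s, fun s => B.vb s + v s, ?_, ?_, ?_⟩
  · have h1 := path_add p.sm B.path hp'
    rw [hB3] at h1
    exact h1
  · filter_upwards [B.eq, he', B.rep, ae_restrict_mem measurableSet_Ioc] with t b1 b2 b3 b4
    have ht : t ∈ Icc 0 T := ⟨b4.1.le, b4.2⟩
    rw [map_add, b1, hr t ht, add_zero]
    have h3 := key p X (a := B.vb t) (v := v t) (fun j => by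
      filter_upwards [b3 j] with x hx hJ
      obtain ⟨c1, c2⟩ := hx hJ
      refine ⟨by rw [c1, hB1 t ht x j], ?_⟩
      rw [c2, hB2 t ht x j]
      simp)
    rw [h3, b2]
  · rw [p.sm.traj_add _ _ B.path.int hp'.int ⟨hT.le, le_rfl⟩, hf', ← hB3, hB4]
    rw [hB3]

end Pool.Agent.KG.TL5

namespace Pool.Agent.KG

alias Adm.shift := TL5.Adm.shift

end Pool.Agent.KG
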