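import Pool.Agent.Lib.KG.R_C1
import Pool.Agent.Lib.KG.TL

/-!
# Row C3: the rarefaction of a negative background
-/

set_option autoImplicit false

namespace Pool.Agent.KG

open MeasureTheory Filter Topology Set
open Pool.Agent.Kdv
open scoped ENNReal ContDiff InnerProductSpace

variable {p : Pr 2} {e e' : Fin 2 → ℝ} {α s : ℝ}

theorem C3_iter (c d x : ℝ) : iteratedDeriv 3 (fun x => c * (d - x)) x = 0 := by
  have h1 : deriv (fun x => c * (d - x)) = fun _ => -c := by
    funext x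
    have h : HasDerivAt (fun x => c * (d - x)) (c * (0 - 1)) x :=
      ((hasDerivAt_const x d).sub (hasDerivAt_id x)).const_mul c
    rw [h.deriv]
    ring
  rw [iteratedDeriv_succ', h1, iteratedDeriv_succ', deriv_const', iteratedDeriv_succ',
    deriv_const', iteratedDeriv_zero]

theorem cube_rare (h : Cub p e e' α s) {x0 ν1 ν3 : ℝ} (h3 : 0 < ν3) (h1 : ν3 < ν1) (g1 : ℝ)
    (z : HH 2) : ∃ z1 : HH 2, ‖z1‖ ≤ ‖z‖ ∧
      p.Adm (bg 2 p.L (fun x j => -(ν1 * (x0 + p.L - x)) * e j + g1 * e' j) + z)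
        (bg 2 p.L (fun x j => -(ν3 * (x0 + p.L - x)) * e j +
          (g1 - s / α * Real.log (ν1 / ν3)) * e' j) + z1) (1 / (α * ν3) - 1 / (α * ν1)) := by
  have hα := h.cube.pos
  have hν1 : 0 < ν1 := h3.trans h1
  have hd := h.dots
  obtain ⟨w, hw⟩ : ∃ w : ℝ → ℝ → Fin 2 → ℝ, w = fun t x j =>
    (-(1 / ν1 + α * t)⁻¹ * (x0 + p.L - x)) * e j +
      (g1 - s / α * Real.log (1 + α * ν1 * t)) * e' j := ⟨_, rfl⟩
  obtain ⟨U, hU⟩ : ∃ U : Set ℝ, U = {t | 0 < 1 / ν1 + α * t} := ⟨_, rfl⟩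
  have hUo : IsOpen U := by
    rw [hU]
    exact isOpen_lt continuous_const (by fun_prop)
  have hUp : ∀ t ∈ U, 0 < 1 / ν1 + α * t := fun t ht => by rw [hU] at ht; exact ht
  have hUq : ∀ t ∈ U, 0 < 1 + α * ν1 * t := fun t ht => by
    have h2 := mul_pos hν1 (hUp t ht)
    have h3 : ν1 * (1 / ν1 + α * t) = 1 + α * ν1 * t := by
      field_simp
    linarith
  obtain ⟨τ, hτ⟩ : ∃ τ, τ = 1 / (α * ν3) - 1 / (α * ν1) := ⟨_, rfl⟩
  have hτ0 : 0 < τ := by
    rw [hτ, sub_pos]
    exact one_div_lt_one_div_of_lt (by positivity) (mul_lt_mul_of_pos_left h1 hα)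
  have hUτ : Icc 0 τ ⊆ U := fun t ht => by
    rw [hU]
    have : 0 ≤ α * t := mul_nonneg hα.le ht.1
    have h5 : 0 < 1 / ν1 := by positivity
    change 0 < 1 / ν1 + α * t
    linarith
  have hsm : ∀ j, ContDiffOn ℝ ∞ (fun q : ℝ × ℝ => w q.1 q.2 j) (U ×ˢ univ) := by
    intro j
    rw [hw]
    have e1 : ContDiffOn ℝ ∞ (fun q : ℝ × ℝ => (1 / ν1 + α * q.1)⁻¹) (U ×ˢ univ) := by
      refine ContDiffOn.inv ?_ fun q hq => (hUp q.1 hq.1).ne'
      exact (contDiff_const.add (contDiff_const.mul contDiff_fst)).contDiffOn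
    have e2 : ContDiffOn ℝ ∞ (fun q : ℝ × ℝ => x0 + p.L - q.2) (U ×ˢ univ) :=
      (contDiff_const.sub contDiff_snd).contDiffOn
    have e3 : ContDiffOn ℝ ∞ (fun q : ℝ × ℝ => Real.log (1 + α * ν1 * q.1)) (U ×ˢ univ) := by
      refine ContDiffOn.log ?_ fun q hq => (hUq q.1 hq.1).ne'
      exact (contDiff_const.add (contDiff_const.mul contDiff_fst)).contDiffOn
    exact ((e1.neg.mul e2).mul contDiffOn_const).add
      ((contDiffOn_const.sub (contDiffOn_const.mul e3)).mul contDiffOn_const)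
  have hwx : ∀ t x, (fun j => deriv (fun x => w t x j) x) = fun j =>
      (1 / ν1 + α * t)⁻¹ * e j := by
    intro t x
    funext j
    have h : HasDerivAt (fun x => w t x j) ((-(1 / ν1 + α * t)⁻¹ * (0 - 1)) * e j) x := by
      rw [hw]
      exact ((((hasDerivAt_const x (x0 + p.L)).sub (hasDerivAt_id x)).const_mul _).mul_const
        _).add_const _
    rw [h.deriv]
    ring
  have hres : ∀ t ∈ Icc 0 τ, ∀ x j, resid p w t x j = 0 := by
    intro t ht x j
    have hp := hUp t (hUτ ht)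
    have hq := hUq t (hUτ ht)
    have ha : HasDerivAt (fun s => (-(1 / ν1 + α * s)⁻¹ * (x0 + p.L - x)))
        (-(-(0 + α * 1) / (1 / ν1 + α * t) ^ 2) * (x0 + p.L - x)) t := by
      have h2 : HasDerivAt (fun s => 1 / ν1 + α * s) (0 + α * 1) t :=
        (hasDerivAt_const t (1 / ν1)).add ((hasDerivAt_id t).const_mul α)
      exact ((h2.inv hp.ne').neg).mul_const _
    have hZ : ∀ j, HasDerivAt (fun t => (g1 - s / α * Real.log (1 + α * ν1 * t)) * e' j)
        ((0 - s / α * ((0 + α * ν1 * 1) / (1 + α * ν1 * t))) * e' j) t := by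
      intro j
      have h2 : HasDerivAt (fun s => 1 + α * ν1 * s) (0 + α * ν1 * 1) t :=
        (hasDerivAt_const t (1 : ℝ)).add ((hasDerivAt_id t).const_mul (α * ν1))
      exact ((hasDerivAt_const t g1).sub ((h2.log hq.ne').const_mul (s / α))).mul_const _
    have hr := resid_lin p (e := e) (α := α) h.cube.dir.eig
      (h := fun t x => -(1 / ν1 + α * t)⁻¹ * (x0 + p.L - x))
      (Z := fun t j => (g1 - s / α * Real.log (1 + α * ν1 * t)) * e' j) (t := t) (x := x)
      ha.differentiableAt (fun j => (hZ j).differentiableAt) (by fun_prop) j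
    have hx : deriv (fun x => -(1 / ν1 + α * t)⁻¹ * (x0 + p.L - x)) x = (1 / ν1 + α * t)⁻¹ := by
      have h : HasDerivAt (fun x => -(1 / ν1 + α * t)⁻¹ * (x0 + p.L - x))
          (-(1 / ν1 + α * t)⁻¹ * (0 - 1)) x :=
        ((hasDerivAt_const x (x0 + p.L)).sub (hasDerivAt_id x)).const_mul _
      rw [h.deriv]
      ring
    have hb : bil p.g (fun j => (g1 - s / α * Real.log (1 + α * ν1 * t)) * e' j) e j = 0 := by
      rw [h.bil_eq]
      have : dot e (fun j => (g1 - s / α * Real.log (1 + α * ν1 * t)) * e' j) =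
          (g1 - s / α * Real.log (1 + α * ν1 * t)) * dot e e' := by
        unfold dot
        simp only [Fin.sum_univ_two]
        ring
      rw [this, hd.2.2]
      ring
    rw [hw, hr, ha.deriv, (hZ j).deriv]
    change (_ + α * (-(1 / ν1 + α * t)⁻¹ * (x0 + p.L - x)) *
      deriv (fun x => -(1 / ν1 + α * t)⁻¹ * (x0 + p.L - x)) x) * e j + p.mu j *
      iteratedDeriv 3 (fun x => -(1 / ν1 + α * t)⁻¹ * (x0 + p.L - x)) x * e j +
      deriv (fun x => -(1 / ν1 + α * t)⁻¹ * (x0 + p.L - x)) x * (mv p.S e j + bil p.g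
        (fun j => (g1 - s / α * Real.log (1 + α * ν1 * t)) * e' j) e j) + _ = 0
    rw [hx, C3_iter, hb, h.S j]
    have h6 : 1 + α * ν1 * t = ν1 * (1 / ν1 + α * t) := by field_simp
    rw [h6]
    obtain ⟨u, hu⟩ : ∃ u, u = 1 / ν1 + α * t := ⟨_, rfl⟩
    rw [← hu] at hp ⊢
    field_simp
    ring
  obtain ⟨z1, hz1, hA⟩ := phase p hτ0 hUo hUτ hsm (κ := 0) (r := 0) le_rfl le_rfl
    (fun t ht x _ ξ => by
      rw [hwx t x, h.qd_eq]
      have h7 : dot e (fun j => (1 / ν1 + α * t)⁻¹ * e j) = (1 / ν1 + α * t)⁻¹ * dot e e := by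
        unfold dot
        simp only [Fin.sum_univ_two]
        ring
      rw [h7, hd.1]
      have h8 : 0 < (1 / ν1 + α * t)⁻¹ := inv_pos.mpr (hUp t (hUτ ht))
      have h9 : 0 ≤ α * ((1 / ν1 + α * t)⁻¹ * 1) * dot e ξ ^ 2 := by positivity
      linarith)
    (fun t ht x _ j => by rw [hres t ht, abs_zero]) z
  refine ⟨z1, ?_, ?_⟩
  · simpa using hz1
  · have hf : 1 / ν1 + α * τ = 1 / ν3 := by
      rw [hτ]
      field_simp
      ring
    have hf' : (1 / ν1 + α * τ)⁻¹ = ν3 := by rw [hf, one_div, inv_inv]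
    have hg : 1 + α * ν1 * τ = ν1 / ν3 := by
      rw [hτ]
      field_simp
      ring
    rw [← hτ]
    convert hA using 3
    · funext x j
      rw [hw]
      simp only [mul_zero, add_zero, one_div, inv_inv, Real.log_one, sub_zero]
      ring
    · funext x j
      rw [hw]
      simp only [hf', hg]
      ring

end Pool.Agent.KG
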