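import Pool.Agent.Lib.KG.UpD
import Pool.Agent.Lib.MP_78c35a_an.Energy
import Pool.Agent.Lib.MP_78c35a_an.Skew

/-!
# Row U2
-/

set_option autoImplicit false

namespace Pool.Agent.KG

open MeasureTheory Filter Topology Set
open Pool.Agent.Kdv
open scoped ENNReal ContDiff InnerProductSpace

variable {n : ℕ}

lemma U2_prim {f : ℝ → ℝ} {T : ℝ} (hf : ContinuousOn f (Icc 0 T)) (hT : 0 ≤ T) :
    ContinuousOn (fun t => ∫ s in (0 : ℝ)..t, f s) (Icc 0 T) ∧
      ∀ x ∈ Ioo 0 T, HasDerivAt (fun t => ∫ s in (0 : ℝ)..t, f s) (f x) x := by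
  constructor
  · have h1 : IntegrableOn f (uIcc 0 T) := by
      rw [uIcc_of_le hT]
      exact hf.integrableOn_Icc
    have h2 := intervalIntegral.continuousOn_primitive_interval h1
    rwa [uIcc_of_le hT] at h2
  · intro x hx
    have h1 : IntervalIntegrable f volume 0 x := by
      refine ContinuousOn.intervalIntegrable ?_
      rw [uIcc_of_le hx.1.le]
      exact hf.mono (Icc_subset_Icc_right hx.2.le)
    have h2 : ContinuousOn f (Ioo 0 T) := hf.mono Ioo_subset_Icc_self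
    exact intervalIntegral.integral_hasDerivAt_right h1
      (h2.stronglyMeasurableAtFilter isOpen_Ioo x hx) (h2.continuousAt (isOpen_Ioo.mem_nhds hx))

/-- Gronwall for the norm with a continuous source and any initial constant. -/
lemma U2_gron_a {N β γ : ℝ → ℝ} {a T : ℝ} (ha : 0 ≤ a) (hN : ContinuousOn N (Icc 0 T))
    (hN0 : ∀ t ∈ Icc 0 T, 0 ≤ N t) (hβ : ContinuousOn β (Icc 0 T))
    (hβ0 : ∀ t ∈ Icc 0 T, 0 ≤ β t) (hγ : ContinuousOn γ (Icc 0 T))
    (hγ0 : ∀ t ∈ Icc 0 T, 0 ≤ γ t)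
    (h : ∀ t ∈ Icc 0 T, N t ^ 2 ≤ a ^ 2 +
      ∫ s in (0 : ℝ)..t, (2 * β s * N s ^ 2 + 2 * γ s * N s)) {t : ℝ} (ht : t ∈ Icc 0 T) :
    N t ≤ Real.exp (∫ s in (0 : ℝ)..t, β s) * (a + ∫ s in (0 : ℝ)..t, γ s) := by
  have hT : 0 ≤ T := ht.1.trans ht.2
  have h0 : (0 : ℝ) ∈ Icc 0 T := ⟨le_rfl, hT⟩
  obtain ⟨cB, dB⟩ := U2_prim hβ hT
  obtain ⟨cG, dG⟩ := U2_prim hγ hT
  have hcont : ContinuousOn (fun s => 2 * β s * N s ^ 2 + 2 * γ s * N s) (Icc 0 T) :=
    ((continuousOn_const.mul hβ).mul (hN.pow 2)).add ((continuousOn_const.mul hγ).mul hN)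
  obtain ⟨cF, dF⟩ := U2_prim hcont hT
  set B : ℝ → ℝ := fun t => ∫ s in (0 : ℝ)..t, β s with hB
  set G : ℝ → ℝ := fun t => ∫ s in (0 : ℝ)..t, γ s with hG
  set F : ℝ → ℝ := fun t => ∫ s in (0 : ℝ)..t, (2 * β s * N s ^ 2 + 2 * γ s * N s) with hF
  have hB0 : B 0 = 0 := by simp [hB]
  have hG0 : G 0 = 0 := by simp [hG]
  have hF0 : F 0 = 0 := by simp [hF]
  have hBnn : ∀ x ∈ Icc 0 T, 0 ≤ B x := by
    intro x hx
    exact intervalIntegral.integral_nonneg hx.1 fun s hs => hβ0 s ⟨hs.1, hs.2.trans hx.2⟩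
  have key : ∀ δ : ℝ, 0 < δ → N t ≤ Real.exp (B t) * (a + δ + G t) := by
    intro δ hδ
    set ψ : ℝ → ℝ := fun t => δ ^ 2 + a ^ 2 + F t with hψ
    have hψN : ∀ x ∈ Icc 0 T, N x ^ 2 + δ ^ 2 ≤ ψ x := by
      intro x hx
      have h1 : N x ^ 2 ≤ a ^ 2 + F x := h x hx
      simp only [hψ]
      linarith
    have hψ0 : ∀ x ∈ Icc 0 T, 0 < ψ x := by
      intro x hx
      have h1 := hψN x hx
      have h2 : 0 < δ ^ 2 := by positivity
      nlinarith [sq_nonneg (N x)]
    have hNs : ∀ x ∈ Icc 0 T, N x ≤ Real.sqrt (ψ x) := by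
      intro x hx
      refine Real.le_sqrt_of_sq_le ?_
      have h1 := hψN x hx
      nlinarith [sq_nonneg δ]
    have cψ : ContinuousOn ψ (Icc 0 T) := continuousOn_const.add cF
    have dψ : ∀ x ∈ Ioo 0 T, HasDerivAt ψ (2 * β x * N x ^ 2 + 2 * γ x * N x) x :=
      fun x hx => (dF x hx).const_add _
    have hd : ∀ x ∈ Ioo 0 T, HasDerivAt (fun t => Real.exp (-B t) * Real.sqrt (ψ t) - G t)
        (Real.exp (-B x) * (-β x) * Real.sqrt (ψ x) + Real.exp (-B x) *
          ((2 * β x * N x ^ 2 + 2 * γ x * N x) / (2 * Real.sqrt (ψ x))) - γ x) x := by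
      intro x hx
      have h1 := hψ0 x (Ioo_subset_Icc_self hx)
      exact (((dB x hx).neg.exp).mul ((dψ x hx).sqrt h1.ne')).sub (dG x hx)
    have hanti : AntitoneOn (fun t => Real.exp (-B t) * Real.sqrt (ψ t) - G t) (Icc 0 T) := by
      refine antitoneOn_of_deriv_nonpos (convex_Icc 0 T) ?_ ?_ ?_
      · exact ((Real.continuous_exp.comp_continuousOn cB.neg).mul
          (Real.continuous_sqrt.comp_continuousOn cψ)).sub cG
      · rw [interior_Icc]
        exact fun x hx => (hd x hx).differentiableAt.differentiableWithinAt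
      · rw [interior_Icc]
        intro x hx
        rw [(hd x hx).deriv]
        have hx' := Ioo_subset_Icc_self hx
        have h1 := hβ0 x hx'
        have h2 := hγ0 x hx'
        have h3 : Real.exp (-B x) ≤ 1 := by
          rw [Real.exp_le_one_iff]
          have := hBnn x hx'
          linarith
        have h4 := Real.exp_pos (-B x)
        have h5 := hNs x hx'
        have h6 := hN0 x hx'
        have h7 : 0 < Real.sqrt (ψ x) := Real.sqrt_pos.mpr (hψ0 x hx')
        have h8 : (2 * β x * N x ^ 2 + 2 * γ x * N x) / (2 * Real.sqrt (ψ x)) ≤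
            β x * Real.sqrt (ψ x) + γ x := by
          rw [div_le_iff₀ (by positivity)]
          have h9 : N x ^ 2 ≤ Real.sqrt (ψ x) * Real.sqrt (ψ x) := by nlinarith
          have h10 := mul_le_mul_of_nonneg_left h9 h1
          have h11 := mul_le_mul_of_nonneg_left h5 h2
          nlinarith
        have h12 := mul_le_mul_of_nonneg_left h8 h4.le
        have h13 : Real.exp (-B x) * γ x ≤ γ x := by nlinarith
        nlinarith
    have h1 := hanti h0 ht ht.1
    simp only [hB0, hG0, neg_zero, Real.exp_zero, one_mul, sub_zero] at h1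
    have h2 : Real.sqrt (ψ 0) ≤ a + δ := by
      rw [Real.sqrt_le_left (by linarith)]
      simp only [hψ, hF0]
      nlinarith
    have h3 : Real.exp (-B t) * Real.sqrt (ψ t) ≤ a + δ + G t := by linarith
    have h4 := mul_le_mul_of_nonneg_left h3 (Real.exp_pos (B t)).le
    have h5 : Real.exp (B t) * (Real.exp (-B t) * Real.sqrt (ψ t)) = Real.sqrt (ψ t) := by
      rw [← mul_assoc, ← Real.exp_add, add_neg_cancel, Real.exp_zero, one_mul]
    rw [h5] at h4
    exact (hNs t ht).trans h4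
  refine le_of_forall_pos_le_add fun ε hε => ?_
  have h1 := key (ε * Real.exp (-B t)) (mul_pos hε (Real.exp_pos _))
  have h2 : Real.exp (B t) * (a + ε * Real.exp (-B t) + G t) =
      Real.exp (B t) * (a + G t) + ε := by
    have h3 : Real.exp (B t) * Real.exp (-B t) = 1 := by
      rw [← Real.exp_add, add_neg_cancel, Real.exp_zero]
    linear_combination ε * h3
  rwa [h2] at h1

/-- Gronwall for the norm with an integrable source. -/
lemma U2_gron_int {N β ρ : ℝ → ℝ} {a T : ℝ} (ha : 0 ≤ a) (hN : ContinuousOn N (Icc 0 T))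
    (hN0 : ∀ t ∈ Icc 0 T, 0 ≤ N t) (hβ : ContinuousOn β (Icc 0 T))
    (hβ0 : ∀ t ∈ Icc 0 T, 0 ≤ β t) (hρ : IntegrableOn ρ (Ioc 0 T))
    (hρ0 : ∀ t, 0 ≤ ρ t)
    (h : ∀ t ∈ Icc 0 T, N t ^ 2 ≤ a ^ 2 +
      ∫ s in (0 : ℝ)..t, (2 * β s * N s ^ 2 + 2 * ρ s * N s)) {t : ℝ} (ht : t ∈ Icc 0 T) :
    N t ≤ Real.exp (∫ s in (0 : ℝ)..t, β s) * (a + ∫ s in (0 : ℝ)..t, ρ s) := by
  have hT : 0 ≤ T := ht.1.trans ht.2
  obtain ⟨M0, hM0⟩ := isCompact_Icc.exists_bound_of_continuousOn hN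
  set M : ℝ := max M0 1 with hM
  have hM1 : 1 ≤ M := le_max_right _ _
  have hMN : ∀ s ∈ Icc 0 T, N s ≤ M := fun s hs =>
    ((le_abs_self _).trans (hM0 s hs)).trans (le_max_left _ _)
  -- the estimate with an additional positive number
  have key : ∀ δ : ℝ, 0 < δ → N t ≤ Real.exp (∫ s in (0 : ℝ)..t, β s) *
      (a + δ + ((∫ s in (0 : ℝ)..t, ρ s) + δ)) := by
    intro δ hδ
    set ε : ℝ := min δ (δ ^ 2 / (2 * M)) with hε
    have hε0 : 0 < ε := lt_min hδ (by positivity)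
    have hε1 : ε ≤ δ := min_le_left _ _
    have hε2 : 2 * M * ε ≤ δ ^ 2 := by
      have h1 : ε ≤ δ ^ 2 / (2 * M) := min_le_right _ _
      rw [le_div_iff₀ (by positivity)] at h1
      linarith
    obtain ⟨g, -, hg1, hg2, hg3⟩ :=
      Integrable.exists_hasCompactSupport_integral_sub_le (μ := volume.restrict (Ioc 0 T)) hρ hε0
    set G : ℝ → ℝ := fun s => max (g s) 0 with hG
    have hGc : Continuous G := hg2.max continuous_const
    have hGi : IntegrableOn G (Ioc 0 T) := hGc.integrableOn_Ioc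
    have hG0 : ∀ s, 0 ≤ G s := fun s => le_max_right _ _
    have hdist : ∀ s, |ρ s - G s| ≤ ‖ρ s - g s‖ := by
      intro s
      rw [Real.norm_eq_abs]
      simp only [hG]
      rcases le_total 0 (g s) with h1 | h1
      · rw [max_eq_left h1]
      · rw [max_eq_right h1, sub_zero, abs_of_nonneg (hρ0 s), abs_of_nonneg (by
          have := hρ0 s
          linarith)]
        linarith
    have hdi : IntegrableOn (fun s => |ρ s - G s|) (Ioc 0 T) := (hρ.sub hGi).abs
    have hdle : ∀ s ∈ Icc 0 T, (∫ r in (0 : ℝ)..s, |ρ r - G r|) ≤ ε := by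
      intro s hs
      rw [intervalIntegral.integral_of_le hs.1]
      refine le_trans ?_ hg1
      refine le_trans (setIntegral_mono_set hdi (Eventually.of_forall fun r => abs_nonneg _)
        (Ioc_subset_Ioc_right hs.2).eventuallyLE) ?_
      exact integral_mono hdi (hρ.sub hg3).norm hdist
    have hi1 : ∀ {q : ℝ → ℝ}, IntegrableOn q (Ioc 0 T) → ∀ s ∈ Icc 0 T,
        IntervalIntegrable q volume 0 s := fun hq s hs => ii_of hq le_rfl hs.1 hs.2
    have hmulN : ∀ {q : ℝ → ℝ}, IntegrableOn q (Ioc 0 T) →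
        IntegrableOn (fun s => 2 * q s * N s) (Ioc 0 T) := by
      intro q hq
      have h1 : IntegrableOn (fun s => (2 * q s) * N s) (Ioc 0 T) := by
        refine Integrable.mul_bdd (c := M0) (hq.const_mul 2)
          ((hN.mono Ioc_subset_Icc_self).aestronglyMeasurable measurableSet_Ioc) ?_
        rw [ae_restrict_iff' measurableSet_Ioc]
        exact Eventually.of_forall fun s hs => hM0 s (Ioc_subset_Icc_self hs)
      exact h1
    have hβN : IntegrableOn (fun s => 2 * β s * N s ^ 2) (Ioc 0 T) :=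
      (((continuousOn_const.mul hβ).mul (hN.pow 2)).integrableOn_Icc).mono_set Ioc_subset_Icc_self
    set a' : ℝ := Real.sqrt (a ^ 2 + δ ^ 2) with ha'
    have ha'0 : 0 ≤ a' := Real.sqrt_nonneg _
    have ha'2 : a' ^ 2 = a ^ 2 + δ ^ 2 := Real.sq_sqrt (by positivity)
    have ha'le : a' ≤ a + δ := by
      rw [ha', Real.sqrt_le_left (by linarith)]
      nlinarith
    have h2 : ∀ s ∈ Icc 0 T, N s ^ 2 ≤ a' ^ 2 +
        ∫ r in (0 : ℝ)..s, (2 * β r * N r ^ 2 + 2 * G r * N r) := by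
      intro s hs
      refine (h s hs).trans ?_
      rw [ha'2]
      have e1 : (∫ r in (0 : ℝ)..s, (2 * β r * N r ^ 2 + 2 * ρ r * N r)) ≤
          ∫ r in (0 : ℝ)..s, ((2 * β r * N r ^ 2 + 2 * G r * N r) + 2 * M * |ρ r - G r|) := by
        refine intervalIntegral.integral_mono_on hs.1
          ((hi1 hβN s hs).add (hi1 (hmulN hρ) s hs))
          (((hi1 hβN s hs).add (hi1 (hmulN hGi) s hs)).add ((hi1 hdi s hs).const_mul _)) ?_
        intro r hr
        have hr' : r ∈ Icc 0 T := ⟨hr.1, hr.2.trans hs.2⟩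
        have e2 : (ρ r - G r) * N r ≤ |ρ r - G r| * M := by
          refine (mul_le_mul_of_nonneg_right (le_abs_self _) (hN0 r hr')).trans ?_
          exact mul_le_mul_of_nonneg_left (hMN r hr') (abs_nonneg _)
        nlinarith
      rw [intervalIntegral.integral_add ((hi1 hβN s hs).add (hi1 (hmulN hGi) s hs))
        ((hi1 hdi s hs).const_mul _), intervalIntegral.integral_const_mul] at e1
      have e3 : 2 * M * (∫ r in (0 : ℝ)..s, |ρ r - G r|) ≤ 2 * M * ε :=
        mul_le_mul_of_nonneg_left (hdle s hs) (by positivity)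
      linarith
    have h3 := U2_gron_a ha'0 hN hN0 hβ hβ0 hGc.continuousOn (fun s _ => hG0 s) h2 ht
    refine h3.trans (mul_le_mul_of_nonneg_left ?_ (Real.exp_pos _).le)
    have h4 : (∫ s in (0 : ℝ)..t, G s) ≤ (∫ s in (0 : ℝ)..t, ρ s) + ε := by
      have e1 : (∫ s in (0 : ℝ)..t, G s) ≤ ∫ s in (0 : ℝ)..t, (ρ s + |ρ s - G s|) := by
        refine intervalIntegral.integral_mono_on ht.1 (hi1 hGi t ht)
          ((hi1 hρ t ht).add (hi1 hdi t ht)) fun r _ => ?_
        have := neg_abs_le (ρ r - G r)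
        linarith
      rw [intervalIntegral.integral_add (hi1 hρ t ht) (hi1 hdi t ht)] at e1
      have := hdle t ht
      linarith
    linarith
  refine le_of_forall_pos_le_add fun ε hε => ?_
  set E := Real.exp (∫ s in (0 : ℝ)..t, β s) with hE
  have hE0 : 0 < E := Real.exp_pos _
  have h1 := key (ε / (2 * E)) (by positivity)
  have h2 : E * (a + ε / (2 * E) + ((∫ s in (0 : ℝ)..t, ρ s) + ε / (2 * E))) =
      E * (a + ∫ s in (0 : ℝ)..t, ρ s) + ε := by
    field_simp
    ring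
  rwa [h2] at h1

lemma U2_th_out {L x : ℝ} (hx : x ∉ Icc (-3 / 4) (L + 3 / 4)) : th L x = 0 := by
  unfold th st
  by_cases h1 : 4 * x + 3 ≤ 0
  · rw [Real.smoothTransition.zero_of_nonpos h1, zero_mul]
  · have h2 : 4 * (L - x) + 3 ≤ 0 := by
      by_contra h3
      exact hx ⟨by linarith, by linarith⟩
    rw [Real.smoothTransition.zero_of_nonpos h2, mul_zero]

lemma U2_th_cont (L : ℝ) : Continuous (th L) := by
  unfold th st
  exact (Real.smoothTransition.continuous.comp (by fun_prop)).mul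
    (Real.smoothTransition.continuous.comp (by fun_prop))

lemma U2_th_bd (L x : ℝ) : 0 ≤ th L x ∧ th L x ≤ 1 := by
  unfold th st
  exact ⟨mul_nonneg (Real.smoothTransition.nonneg _) (Real.smoothTransition.nonneg _),
    mul_le_one₀ (Real.smoothTransition.le_one _) (Real.smoothTransition.nonneg _)
      (Real.smoothTransition.le_one _)⟩

lemma U2_damp_cont (L : ℝ) : Continuous (damp L) := by
  unfold damp st
  exact continuous_const.sub ((Real.smoothTransition.continuous.comp (by fun_prop)).mul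
    (Real.smoothTransition.continuous.comp (by fun_prop)))

lemma U2_damp_bd (L x : ℝ) : 0 ≤ damp L x ∧ damp L x ≤ 1 := by
  unfold damp st
  have h1 : Real.smoothTransition (4 * x + 1) * Real.smoothTransition (4 * (L - x) + 1) ≤ 1 :=
    mul_le_one₀ (Real.smoothTransition.le_one _) (Real.smoothTransition.nonneg _)
      (Real.smoothTransition.le_one _)
  have h2 : 0 ≤ Real.smoothTransition (4 * x + 1) * Real.smoothTransition (4 * (L - x) + 1) :=
    mul_nonneg (Real.smoothTransition.nonneg _) (Real.smoothTransition.nonneg _)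
  exact ⟨by linarith, by linarith⟩

/-- The damping is nonnegative. -/
lemma U2_damp_nonneg (L : ℝ) (z : HH n) : 0 ≤ inner ℝ (mulH (damp L) z) z := by
  rw [PiLp.inner_apply]
  refine Finset.sum_nonneg fun j _ => ?_
  change 0 ≤ inner ℝ (mulOp (damp L) (z j)) (z j)
  rw [Skw.inner_eq]
  refine integral_nonneg_of_ae ?_
  have hdb : ∃ C, ∀ x, |damp L x| ≤ C :=
    ⟨1, fun x => by rw [abs_of_nonneg (U2_damp_bd L x).1]; exact (U2_damp_bd L x).2⟩
  filter_upwards [mulOp_ae (U2_damp_cont L).measurable hdb (z j)] with x hx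
  rw [hx, mul_assoc]
  exact mul_nonneg (U2_damp_bd L x).1 (mul_self_nonneg _)

/-- The transport term. -/
lemma U2_trans_le (p : Pr n) {X X1 : ℝ → Fin n → ℝ}
    (hX : ∀ x j, HasDerivAt (fun x => X x j) (X1 x j) x)
    (hX1 : ∀ j, Continuous fun x => X1 x j) {γ : ℝ} (hγ0 : 0 ≤ γ)
    (hH : ∀ x ∈ Icc (-1) (p.L + 1), ∀ ξ : Fin n → ℝ,
      -qd (Hm p.g (X1 x)) ξ ≤ 2 * γ * dot ξ ξ) (z : VV n p.L) :
    2 * inner ℝ (tmap n p.L p.g X X1 z) (inc n p.L z) ≤ 2 * γ * ‖inc n p.L z‖ ^ 2 := by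
  rw [energy_t p hX hX1 z]
  have h1 : ‖inc n p.L z‖ ^ 2 = ∫ x, dot (fun j => uu j z x) (fun j => uu j z x) := by
    rw [← real_inner_self_eq_norm_sq, Skw.inner_HH]
    rfl
  have h2 : Integrable (fun x => dot (fun j => uu j z x) (fun j => uu j z x)) volume := by
    unfold dot
    exact integrable_finsetSum _ fun j _ => (Lp.memLp (uu j z)).integrable_mul (Lp.memLp (uu j z))
  set m : Fin n → Fin n → ℝ → ℝ := fun j k x => th p.L x * Hm p.g (X1 x) j k with hm
  have hmc : ∀ j k, Continuous (m j k) := by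
    intro j k
    refine (U2_th_cont p.L).mul ?_
    unfold Hm
    exact continuous_finsetSum _ fun l _ => continuous_const.mul (hX1 l)
  have hm0 : ∀ j k x, x ∉ Icc (-3 / 4) (p.L + 3 / 4) → m j k x = 0 := by
    intro j k x hx
    simp only [hm]
    rw [U2_th_out hx, zero_mul]
  have hint : ∀ j k, Integrable (fun x => m j k x * uu j z x * uu k z x) volume := by
    intro j k
    have hmb : ∃ C, ∀ x, |m j k x| ≤ C := by
      obtain ⟨C, hC⟩ := (isCompact_Icc (a := (-3 / 4 : ℝ)) (b := p.L + 3 / 4)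
        ).exists_bound_of_continuousOn (hmc j k).continuousOn
      refine ⟨max C 0, fun x => ?_⟩
      by_cases hx : x ∈ Icc (-3 / 4) (p.L + 3 / 4)
      · exact (hC x hx).trans (le_max_left _ _)
      · rw [hm0 j k x hx, abs_zero]
        exact le_max_right _ _
    have h3 : Integrable (fun x => mulOp (m j k) (uu j z) x * uu k z x) volume :=
      (Lp.memLp (mulOp (m j k) (uu j z))).integrable_mul (Lp.memLp (uu k z))
    refine h3.congr ?_
    filter_upwards [mulOp_ae (hmc j k).measurable hmb (uu j z)] with x hx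
    rw [hx]
  have h4 : ∀ x, th p.L x * ∑ j, ∑ k, Hm p.g (X1 x) j k * uu j z x * uu k z x =
      ∑ j, ∑ k, m j k x * uu j z x * uu k z x := by
    intro x
    simp only [hm, Finset.mul_sum]
    refine Finset.sum_congr rfl fun j _ => Finset.sum_congr rfl fun k _ => ?_
    ring
  have h5 : Integrable (fun x => th p.L x * ∑ j, ∑ k, Hm p.g (X1 x) j k * uu j z x * uu k z x)
      volume := by
    simp only [h4]
    exact integrable_finsetSum _ fun j _ => integrable_finsetSum _ fun k _ => hint j k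
  rw [← integral_neg, h1, ← integral_const_mul]
  refine integral_mono h5.neg (h2.const_mul _) fun x => ?_
  change -(th p.L x * qd (Hm p.g (X1 x)) fun j => uu j z x) ≤
    2 * γ * dot (fun j => uu j z x) (fun j => uu j z x)
  have hd : 0 ≤ dot (fun j => uu j z x) (fun j => uu j z x) := by
    unfold dot
    exact Finset.sum_nonneg fun j _ => mul_self_nonneg _
  have hg : 0 ≤ 2 * γ * dot (fun j => uu j z x) (fun j => uu j z x) := by positivity
  by_cases hx : x ∈ Icc (-3 / 4) (p.L + 3 / 4)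
  · have hx1 : x ∈ Icc (-1) (p.L + 1) := ⟨by linarith [hx.1], by linarith [hx.2]⟩
    have h6 := hH x hx1 fun j => uu j z x
    have h7 := U2_th_bd p.L x
    have h8 := mul_le_mul_of_nonneg_left h6 h7.1
    have h9 := mul_le_mul_of_nonneg_right h7.2 hg
    linarith
  · rw [U2_th_out hx, zero_mul, neg_zero]
    exact hg

theorem en (p : Pr n) {τ : ℝ} (hτ : 0 < τ) {B : Bk p τ} {D : ℝ → ℝ} {z0 : HH n} {f : ℝ → HH n}
    {v : ℝ → VV n p.L} (hD : ContinuousOn D (Icc 0 τ)) (hD0 : ∀ t ∈ Icc 0 τ, 0 ≤ D t)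
    (h : Run p B D z0 f v) {γ : ℝ → ℝ} (hγ : ContinuousOn γ (Icc 0 τ))
    (hγ0 : ∀ t ∈ Icc 0 τ, 0 ≤ γ t)
    (hH : ∀ t ∈ Icc 0 τ, ∀ x ∈ Icc (-1) (p.L + 1), ∀ ξ : Fin n → ℝ,
      -qd (Hm p.g (B.wx t x)) ξ ≤ 2 * γ t * dot ξ ξ) {t : ℝ} (ht : t ∈ Icc 0 τ) :
    ‖p.sm.traj z0 f t‖ ≤ Real.exp (∫ s in (0 : ℝ)..t, γ s) *
      (‖z0‖ + ∫ s in (0 : ℝ)..t, ‖B.r s‖) := by
  have hf := h.path.int
  have hz : ContinuousOn (fun r => p.sm.traj z0 f r) (Icc 0 τ) := p.sm.traj_cont z0 hτ.le hf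
  have hae : ∀ᵐ r ∂volume.restrict (Ioc (0 : ℝ) τ), 2 * inner ℝ (f r) (p.sm.traj z0 f r) ≤
      2 * γ r * ‖p.sm.traj z0 f r‖ ^ 2 + 2 * ‖B.r r‖ * ‖p.sm.traj z0 f r‖ := by
    filter_upwards [h.path.lift, h.eq, ae_restrict_mem measurableSet_Ioc] with r h1 h2 h3
    have h4 : inc n p.L (v r) = p.sm.traj z0 f r := h1
    have hr := Ioc_subset_Icc_self h3
    rw [← h4, h2, nl]
    have e1 := q_skew p.hL p.g12 p.g23 (v r)
    have e2 := l_skew p.hL p.hS (v r)
    have e3 := U2_trans_le p (X := B.w r) (X1 := B.wx r) (fun x j => B.hd r x j)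
      (fun j => (B.cwx j).comp (continuous_const.prodMk continuous_id)) (hγ0 r hr)
      (hH r hr) (v r)
    have e4 := mul_nonneg (hD0 r hr) (U2_damp_nonneg p.L (inc n p.L (v r)))
    have e5 : -(‖B.r r‖ * ‖inc n p.L (v r)‖) ≤ inner ℝ (B.r r) (inc n p.L (v r)) := by
      have := abs_real_inner_le_norm (B.r r) (inc n p.L (v r))
      exact (abs_le.mp this).1
    rw [inner_sub_left, inner_sub_left, inner_add_left, inner_add_left, real_inner_smul_left, e1,
      e2]
    linarith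
  have hmain : ∀ s ∈ Icc 0 τ, ‖p.sm.traj z0 f s‖ ^ 2 ≤ ‖z0‖ ^ 2 + ∫ r in (0 : ℝ)..s,
      (2 * γ r * ‖p.sm.traj z0 f r‖ ^ 2 + 2 * ‖B.r r‖ * ‖p.sm.traj z0 f r‖) := by
    intro s hs
    rw [p.sm.energy z0 hf hs, ← intervalIntegral.integral_const_mul]
    refine add_le_add le_rfl ?_
    have i1 : IntegrableOn (fun r => 2 * inner ℝ (f r) (p.sm.traj z0 f r)) (Ioc 0 τ) :=
      (inner_int hτ.le hf hz).const_mul 2
    have i2 : IntegrableOn (fun r => 2 * γ r * ‖p.sm.traj z0 f r‖ ^ 2) (Ioc 0 τ) :=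
      (((continuousOn_const.mul hγ).mul (hz.norm.pow 2)).integrableOn_Icc).mono_set
        Ioc_subset_Icc_self
    have i3 : IntegrableOn (fun r => 2 * ‖B.r r‖ * ‖p.sm.traj z0 f r‖) (Ioc 0 τ) := by
      obtain ⟨C, hC⟩ := isCompact_Icc.exists_bound_of_continuousOn hz.norm
      refine Integrable.mul_bdd (c := C) (B.hr.norm.const_mul 2)
        ((hz.norm.mono Ioc_subset_Icc_self).aestronglyMeasurable measurableSet_Ioc) ?_
      rw [ae_restrict_iff' measurableSet_Ioc]
      exact Eventually.of_forall fun s hs => hC s (Ioc_subset_Icc_self hs)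
    refine intervalIntegral.integral_mono_ae_restrict hs.1 (ii_of i1 le_rfl hs.1 hs.2)
      (ii_of (i2.add i3) le_rfl hs.1 hs.2) ?_
    have hle : (volume : Measure ℝ).restrict (Icc 0 s) ≤ volume.restrict (Icc 0 τ) :=
      Measure.restrict_mono (Icc_subset_Icc_right hs.2) le_rfl
    have h1 : ∀ᵐ r ∂(volume : Measure ℝ).restrict (Icc 0 τ), _ :=
      (Measure.restrict_congr_set (Ioc_ae_eq_Icc (μ := volume) (a := (0 : ℝ)) (b := τ))) ▸ hae
    exact ae_mono hle h1
  exact U2_gron_int (N := fun s => ‖p.sm.traj z0 f s‖) (norm_nonneg _) hz.norm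
    (fun s _ => norm_nonneg _) hγ hγ0 B.hr.norm (fun s => norm_nonneg _) hmain ht

end Pool.Agent.KG
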