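import Pool.Agent.Lib.KG.UpD
import Pool.Agent.Lib.KG.R_U1
import Pool.Agent.Lib.KG.R_D4

/-!
# Row U3
-/

set_option autoImplicit false

namespace Pool.Agent.KG

open MeasureTheory Filter Topology Set
open Pool.Agent.Kdv
open scoped ENNReal ContDiff InnerProductSpace

variable {n : ℕ}

lemma U3_th_out {L x : ℝ} (hx : x ∉ Icc (-3 / 4) (L + 3 / 4)) : th L x = 0 := by
  unfold th st
  by_cases h1 : 4 * x + 3 ≤ 0
  · rw [Real.smoothTransition.zero_of_nonpos h1, zero_mul]
  · have h2 : 4 * (L - x) + 3 ≤ 0 := by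
      by_contra h3
      exact hx ⟨by linarith, by linarith⟩
    rw [Real.smoothTransition.zero_of_nonpos h2, mul_zero]

lemma U3_th_bd (L x : ℝ) : 0 ≤ th L x ∧ th L x ≤ 1 := by
  unfold th st
  exact ⟨mul_nonneg (Real.smoothTransition.nonneg _) (Real.smoothTransition.nonneg _),
    mul_le_one₀ (Real.smoothTransition.le_one _) (Real.smoothTransition.nonneg _)
      (Real.smoothTransition.le_one _)⟩

theorem trt_ray (p : Pr n) {τ : ℝ} {B : Bk p τ} {e : Fin n → ℝ} {x0 : ℝ} {ν : ℝ → ℝ}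
    {Z : ℝ → Fin n → ℝ} (hB : IsRay p B e x0 ν Z) {t : ℝ} (ht : t ∈ Icc 0 τ) (z : HH n) :
    trt p x0 (B.w t) (B.wx t) z = ∫ x, th p.L x * qd (Hm p.g (Z t)) (fun j => z j x) := by
  unfold trt qd
  congr 1
  funext x
  by_cases hx : x ∈ Icc (-3 / 4) (p.L + 3 / 4)
  · have hL := p.hL
    have hx1 : x ∈ Icc (-1) (p.L + 1) := ⟨by linarith [hx.1], by linarith [hx.2]⟩
    have hx3 : x ∈ Icc (-3) (p.L + 3) := ⟨by linarith [hx.1], by linarith [hx.2]⟩
    rw [wt_J p.hL hx3]
    congr 1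
    refine Finset.sum_congr rfl fun j _ => Finset.sum_congr rfl fun k _ => ?_
    have h1 : Hm p.g (B.w t x) j k - (x + x0) * Hm p.g (B.wx t x) j k =
        Hm p.g (Z t) j k := by
      unfold Hm
      rw [Finset.mul_sum, ← Finset.sum_sub_distrib]
      refine Finset.sum_congr rfl fun l _ => ?_
      rw [hB.w t ht x hx1 l, hB.wx t ht x hx1 l]
      ring
    rw [h1]
  · rw [U3_th_out hx, zero_mul, zero_mul]

/-- The last integral is bounded by the norm. -/
theorem qd_int_le (L : ℝ) {M : Fin n → Fin n → ℝ} {C : ℝ} (hC : 0 ≤ C)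
    (hM : ∀ ξ : Fin n → ℝ, |qd M ξ| ≤ C * dot ξ ξ) (z : HH n) :
    |∫ x, th L x * qd M (fun j => z j x)| ≤ C * ‖z‖ ^ 2 := by
  have h1 : ‖z‖ ^ 2 = ∫ x, dot (fun j => z j x) (fun j => z j x) := by
    rw [← real_inner_self_eq_norm_sq, Skw.inner_HH]
    rfl
  have h2 : Integrable (fun x => dot (fun j => z j x) (fun j => z j x)) volume := by
    unfold dot
    exact integrable_finsetSum _ fun j _ => (Lp.memLp (z j)).integrable_mul (Lp.memLp (z j))
  rw [h1, ← integral_const_mul, ← Real.norm_eq_abs]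
  refine norm_integral_le_of_norm_le (h2.const_mul C) (Eventually.of_forall fun x => ?_)
  rw [norm_mul, Real.norm_eq_abs, Real.norm_eq_abs, abs_of_nonneg (U3_th_bd L x).1]
  have h3 := hM fun j => z j x
  have h4 := U3_th_bd L x
  calc th L x * |qd M fun j => z j x| ≤ 1 * |qd M fun j => z j x| :=
        mul_le_mul_of_nonneg_right h4.2 (abs_nonneg _)
    _ ≤ _ := by rw [one_mul]; exact h3

end Pool.Agent.KG
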