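import Pool.Agent.Lib.KG.R_U1
import Pool.Agent.Lib.KG.R_U2
import Pool.Agent.Lib.KG.R_U3
import Pool.Agent.Lib.KG.R_D3
import Pool.Agent.Lib.KG.R_D4

/-!
# Row U4: the perturbation stays bounded on the exploding background
-/

set_option autoImplicit false

namespace Pool.Agent.KG

open MeasureTheory Filter Topology Set
open Pool.Agent.Kdv
open scoped ENNReal ContDiff InnerProductSpace

variable {n : ℕ}

/-- The damped mass is nonnegative. -/
theorem U4_Dw_nonneg {L : ℝ} (hL : 0 < L) (z : HH n) : 0 ≤ Dw L z := by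
  have hd := (damp_facts hL).1
  have hm : Measurable (damp L) := (Mlt_damp hL).1.continuous.measurable
  have hb : ∃ C, ∀ x, |damp L x| ≤ C :=
    ⟨1, fun x => abs_le.mpr ⟨by linarith [(hd x).1], (hd x).2⟩⟩
  unfold Dw
  rw [PiLp.inner_apply]
  refine Finset.sum_nonneg fun j _ => ?_
  have e : mulH (damp L) z j = mulOp (damp L) (z j) := rfl
  rw [e, L2.inner_def]
  refine integral_nonneg_of_ae ?_
  filter_upwards [mulOp_ae hm hb (z j)] with x hx
  rw [hx]
  have e2 : inner ℝ (damp L x * z j x) (z j x) = damp L x * (z j x * z j x) := by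
    rw [RCLike.inner_apply, conj_trivial]
    ring
  rw [e2]
  exact mul_nonneg (hd x).1 (mul_self_nonneg _)

theorem U4_Vx_nonneg {L : ℝ} (v : VV n L) : 0 ≤ Vx v := by
  unfold Vx
  exact Finset.sum_nonneg fun j _ => sq_nonneg _

theorem U4_contD {ts t : ℝ} (ht : t < ts) : ContinuousOn (fun s => (ts - s)⁻¹) (Icc 0 t) := by
  apply ContinuousOn.inv₀
  · fun_prop
  · intro s hs
    have : 0 < ts - s := by linarith [hs.2]
    exact this.ne'

theorem U4_contG {ts t : ℝ} (ht : t < ts) : ContinuousOn (fun s => (2 * (ts - s))⁻¹) (Icc 0 t) := by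
  apply ContinuousOn.inv₀
  · fun_prop
  · intro s hs
    have : 0 < ts - s := by linarith [hs.2]
    positivity

theorem U4_contP {ts t : ℝ} (ht : t < ts) :
    ContinuousOn (fun s => (ts - s) ^ (-(2 / 3) : ℝ)) (Icc 0 t) := by
  apply ContinuousOn.rpow_const
  · fun_prop
  · intro s hs
    have : 0 < ts - s := by linarith [hs.2]
    exact Or.inl this.ne'

theorem U4_int1 {ts t : ℝ} (ht0 : 0 ≤ t) (ht : t < ts) :
    Real.exp (∫ s in (0 : ℝ)..t, (2 * (ts - s))⁻¹) ^ 2 = ts / (ts - t) := by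
  have hts : 0 < ts := lt_of_le_of_lt ht0 ht
  have htt : 0 < ts - t := by linarith
  have h1 : ∫ s in (0 : ℝ)..t, (2 * (ts - s))⁻¹ =
      -(1 / 2) * Real.log (ts - t) - -(1 / 2) * Real.log (ts - 0) := by
    apply intervalIntegral.integral_eq_sub_of_hasDerivAt
      (f := fun s => -(1 / 2) * Real.log (ts - s))
    · intro s hs
      rw [uIcc_of_le ht0] at hs
      have hpos : 0 < ts - s := by linarith [hs.2]
      have h2 : HasDerivAt (fun s => ts - s) (-1) s := by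
        simpa using (hasDerivAt_id s).const_sub ts
      have h3 := (h2.log hpos.ne').const_mul (-(1 / 2))
      refine h3.congr_deriv ?_
      field_simp
    · apply ContinuousOn.intervalIntegrable
      rw [uIcc_of_le ht0]
      exact U4_contG ht
  rw [h1, ← Real.exp_nat_mul]
  have h4 : ((2 : ℕ) : ℝ) * (-(1 / 2) * Real.log (ts - t) - -(1 / 2) * Real.log (ts - 0)) =
      Real.log (ts / (ts - t)) := by
    rw [Real.log_div hts.ne' htt.ne', sub_zero]
    push_cast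
    ring
  rw [h4, Real.exp_log]
  positivity

theorem U4_int2 {ts t : ℝ} (ht0 : 0 ≤ t) (ht : t < ts) :
    ∫ s in (0 : ℝ)..t, (ts - s) ^ (-(2 / 3) : ℝ) ≤ 3 * ts ^ (1 / 3 : ℝ) := by
  have h1 : ∫ s in (0 : ℝ)..t, (ts - s) ^ (-(2 / 3) : ℝ) =
      -3 * (ts - t) ^ (1 / 3 : ℝ) - -3 * (ts - 0) ^ (1 / 3 : ℝ) := by
    apply intervalIntegral.integral_eq_sub_of_hasDerivAt
      (f := fun s => -3 * (ts - s) ^ (1 / 3 : ℝ))
    · intro s hs
      rw [uIcc_of_le ht0] at hs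
      have hpos : 0 < ts - s := by linarith [hs.2]
      have h2 : HasDerivAt (fun s => ts - s) (-1) s := by
        simpa using (hasDerivAt_id s).const_sub ts
      have h3 := (h2.rpow_const (p := 1 / 3) (Or.inl hpos.ne')).const_mul (-3)
      refine h3.congr_deriv ?_
      have e : (1 / 3 - 1 : ℝ) = -(2 / 3) := by norm_num
      rw [e]
      ring
    · apply ContinuousOn.intervalIntegrable
      rw [uIcc_of_le ht0]
      exact U4_contP ht
  rw [h1, sub_zero]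
  have h2 : 0 ≤ (ts - t) ^ (1 / 3 : ℝ) := Real.rpow_nonneg (by linarith) _
  linarith

theorem up_bound (p : Pr n) {e : Fin n → ℝ} {α x0 ts CZ : ℝ} (he : IsDir p.g e α)
    (hx0 : 2 * (p.L + 4) ≤ x0) (hts : 0 < ts) (hCZ : 0 ≤ CZ) (R : ℝ) : ∃ C : ℝ, 0 < C ∧
    ∀ (t1 : ℝ) (B : Bk p t1) (Z : ℝ → Fin n → ℝ), 0 < t1 → t1 < ts →
    IsRay p B e x0 (fun t => -(α * (ts - t))⁻¹) Z →
    (∀ t ∈ Icc 0 t1, ∀ ξ : Fin n → ℝ, |qd (Hm p.g (Z t)) ξ| ≤ CZ * dot ξ ξ) →
    ∀ (z0 : HH n) (f : ℝ → HH n) (v : ℝ → VV n p.L), ‖z0‖ ≤ R →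
    Run p B (fun t => (ts - t)⁻¹) z0 f v →
      (∀ t ∈ Icc 0 t1, ‖p.sm.traj z0 f t‖ ≤ C) ∧
      IntegrableOn (fun t => Vx (v t)) (Ioc 0 t1) ∧ (∫ t in (0 : ℝ)..t1, Vx (v t)) ≤ C ∧
      (∫ t in (0 : ℝ)..t1, (ts - t)⁻¹ * Dw p.L (p.sm.traj z0 f t)) ≤ C := by
  obtain ⟨m, C, hm, hC, hwd⟩ := wd p
  have hL := p.hL
  have hx0p : 0 < x0 := by linarith
  have hα : 0 < α := he.dir.pos
  set P : ℝ := (R ^ 2 * ts) ^ (2 / 3 : ℝ) with hP
  have hP0 : 0 ≤ P := Real.rpow_nonneg (by positivity) _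
  set K1 : ℝ := 2 / x0 * ((C + CZ) * ts + C * P * (3 * ts ^ (1 / 3 : ℝ))) with hK1
  have hK10 : 0 ≤ K1 := by
    rw [hK1]
    have := Real.rpow_nonneg hts.le (1 / 3)
    positivity
  set Y1 : ℝ := 2 * x0 * R ^ 2 * Real.exp K1 with hY1
  have hY10 : 0 ≤ Y1 := by positivity
  set K2 : ℝ := 2 * x0 * R ^ 2 + K1 * Y1 with hK2
  have hK20 : 0 ≤ K2 := by positivity
  set C1 : ℝ := Real.sqrt (2 / x0 * Y1) with hC1
  have hC10 : 0 ≤ C1 := Real.sqrt_nonneg _
  refine ⟨1 + C1 + K2 / m + K2 / x0, by positivity, ?_⟩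
  intro t1 B Z ht1 ht1s hray hZ z0 f v hz0 hrun
  set z : ℝ → HH n := fun t => p.sm.traj z0 f t with hz
  have hR : ‖z0‖ ^ 2 ≤ R ^ 2 := by
    have h0 := norm_nonneg z0
    nlinarith
  have hDc : ContinuousOn (fun t => (ts - t)⁻¹) (Icc 0 t1) := U4_contD ht1s
  have hD0 : ∀ t ∈ Icc 0 t1, 0 ≤ (ts - t)⁻¹ := by
    intro t ht
    have : 0 < ts - t := by linarith [ht.2]
    positivity
  -- first estimate
  have hen : ∀ t ∈ Icc 0 t1, ‖z t‖ ^ 2 ≤ R ^ 2 * (ts / (ts - t)) := by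
    intro t ht
    have htt : 0 < ts - t := by linarith [ht.2]
    have h1 := en p ht1 hDc hD0 hrun (γ := fun s => (2 * (ts - s))⁻¹) (U4_contG ht1s)
      (fun s hs => by
        have : 0 < ts - s := by linarith [hs.2]
        positivity)
      (fun s hs x hx ξ => by
        have hss : 0 < ts - s := by linarith [hs.2]
        have e1 : qd (Hm p.g (B.wx s x)) ξ = -(α * (ts - s))⁻¹ * qd (Hm p.g e) ξ := by
          unfold qd Hm
          simp only [hray.wx s hs x hx, Finset.mul_sum, Finset.sum_mul]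
          refine Finset.sum_congr rfl fun j _ => Finset.sum_congr rfl fun k _ =>
            Finset.sum_congr rfl fun l _ => ?_
          ring
        rw [e1]
        have h2 := he.top ξ
        have h3 : 0 ≤ (α * (ts - s))⁻¹ := by positivity
        have h4 := mul_le_mul_of_nonneg_left h2 h3
        have h5 : (α * (ts - s))⁻¹ * (α * dot ξ ξ) = 2 * (2 * (ts - s))⁻¹ * dot ξ ξ := by
          field_simp
        linarith) ht
    have h2 : ∫ s in (0 : ℝ)..t, ‖B.r s‖ = 0 := by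
      have : ∫ s in (0 : ℝ)..t, ‖B.r s‖ = ∫ s in (0 : ℝ)..t, (0 : ℝ) := by
        apply intervalIntegral.integral_congr
        intro s hs
        rw [uIcc_of_le ht.1] at hs
        show ‖B.r s‖ = 0
        rw [hray.r s ⟨hs.1, hs.2.trans ht.2⟩, norm_zero]
      rw [this, intervalIntegral.integral_zero]
    rw [h2, add_zero] at h1
    have h3 : ‖z t‖ ^ 2 ≤ (Real.exp (∫ s in (0 : ℝ)..t, (2 * (ts - s))⁻¹) * ‖z0‖) ^ 2 :=
      pow_le_pow_left₀ (norm_nonneg _) h1 2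
    rw [mul_pow, U4_int1 ht.1 (lt_of_le_of_lt ht.2 ht1s)] at h3
    have h4 : ts / (ts - t) * ‖z0‖ ^ 2 ≤ ts / (ts - t) * R ^ 2 :=
      mul_le_mul_of_nonneg_left hR (by positivity)
    linarith
  -- the weighted norm
  obtain ⟨cz, iV, cD, ctrt, iR⟩ := wd_int p ht1.le hrun hDc x0
  set Y : ℝ → ℝ := fun t => wn p.L x0 (z t) with hY
  have hYb : ∀ t, x0 / 2 * ‖z t‖ ^ 2 ≤ Y t ∧ Y t ≤ 2 * x0 * ‖z t‖ ^ 2 := fun t =>
    ⟨(wn_bounds hL hx0 (z t)).1, (wn_bounds hL hx0 (z t)).2.1⟩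
  have hYc : ContinuousOn Y (Icc 0 t1) := by
    show ContinuousOn (fun t => inner ℝ (mulH (wt p.L x0) (z t)) (z t)) (Icc 0 t1)
    exact ((mulH (wt p.L x0)).continuous.comp_continuousOn cz).inner cz
  have hY0 : ∀ t, 0 ≤ Y t := fun t =>
    le_trans (by positivity) (hYb t).1
  set k : ℝ → ℝ := fun t => 2 / x0 * ((C + CZ) + C * P * (ts - t) ^ (-(2 / 3) : ℝ)) with hk
  have hkc : ContinuousOn k (Icc 0 t1) :=
    continuousOn_const.mul (continuousOn_const.add (continuousOn_const.mul (U4_contP ht1s)))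
  have hk0 : ∀ t ∈ Icc 0 t1, 0 ≤ k t := by
    intro t ht
    have h1 : 0 ≤ (ts - t) ^ (-(2 / 3) : ℝ) := Real.rpow_nonneg (by linarith [ht.2]) _
    show 0 ≤ 2 / x0 * ((C + CZ) + C * P * (ts - t) ^ (-(2 / 3) : ℝ))
    positivity
  have hkint : ∀ t ∈ Icc 0 t1, ∫ s in (0 : ℝ)..t, k s ≤ K1 := by
    intro t ht
    have i1 : IntervalIntegrable (fun s => (ts - s) ^ (-(2 / 3) : ℝ)) volume 0 t := by
      apply ContinuousOn.intervalIntegrable
      rw [uIcc_of_le ht.1]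
      exact U4_contP (lt_of_le_of_lt ht.2 ht1s)
    have h1 : ∫ s in (0 : ℝ)..t, k s =
        2 / x0 * ((C + CZ) * t + C * P * ∫ s in (0 : ℝ)..t, (ts - s) ^ (-(2 / 3) : ℝ)) := by
      show ∫ s in (0 : ℝ)..t, 2 / x0 * ((C + CZ) + C * P * (ts - s) ^ (-(2 / 3) : ℝ)) = _
      rw [intervalIntegral.integral_const_mul, intervalIntegral.integral_add
        intervalIntegrable_const (i1.const_mul _), intervalIntegral.integral_const,
        intervalIntegral.integral_const_mul, sub_zero, smul_eq_mul]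
      ring
    rw [h1, hK1]
    have h2 := U4_int2 ht.1 (lt_of_le_of_lt ht.2 ht1s)
    have h3 : t ≤ ts := by linarith [ht.2]
    have h4 : (C + CZ) * t ≤ (C + CZ) * ts := mul_le_mul_of_nonneg_left h3 (by positivity)
    have h5 := mul_le_mul_of_nonneg_left h2 (mul_nonneg hC hP0)
    exact mul_le_mul_of_nonneg_left (add_le_add h4 h5) (by positivity)
  -- pointwise estimate of the right hand side
  have hpt : ∀ t ∈ Icc 0 t1, C * (‖z t‖ ^ 2 + ‖z t‖ ^ (10 / 3 : ℝ)) +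
      trt p x0 (B.w t) (B.wx t) (z t) ≤ k t * Y t := by
    intro t ht
    have htt : 0 < ts - t := by linarith [ht.2]
    have hn := norm_nonneg (z t)
    have h1 : trt p x0 (B.w t) (B.wx t) (z t) ≤ CZ * ‖z t‖ ^ 2 := by
      rw [trt_ray p hray ht (z t)]
      exact (le_abs_self _).trans (qd_int_le p.L hCZ (hZ t ht) (z t))
    have h2 : ‖z t‖ ^ (10 / 3 : ℝ) = ‖z t‖ ^ 2 * (‖z t‖ ^ 2) ^ (2 / 3 : ℝ) := by
      rw [← Real.rpow_natCast (‖z t‖) 2, ← Real.rpow_mul hn]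
      rw [← Real.rpow_add_of_nonneg hn (by norm_num) (by norm_num)]
      norm_num
    have h3 : (‖z t‖ ^ 2) ^ (2 / 3 : ℝ) ≤ P * (ts - t) ^ (-(2 / 3) : ℝ) := by
      have e1 : R ^ 2 * (ts / (ts - t)) = (R ^ 2 * ts) * (ts - t)⁻¹ := by
        field_simp
      have h4 := hen t ht
      rw [e1] at h4
      have h5 := Real.rpow_le_rpow (sq_nonneg ‖z t‖) h4 (by norm_num : (0 : ℝ) ≤ 2 / 3)
      rw [Real.mul_rpow (by positivity) (by positivity), Real.inv_rpow htt.le,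
        ← Real.rpow_neg htt.le] at h5
      exact h5
    have h4 : C * (‖z t‖ ^ 2 + ‖z t‖ ^ (10 / 3 : ℝ)) + trt p x0 (B.w t) (B.wx t) (z t) ≤
        ((C + CZ) + C * P * (ts - t) ^ (-(2 / 3) : ℝ)) * ‖z t‖ ^ 2 := by
      rw [h2]
      have h5 := mul_le_mul_of_nonneg_left h3 (mul_nonneg hC (sq_nonneg ‖z t‖))
      nlinarith
    have h6 : ‖z t‖ ^ 2 ≤ 2 / x0 * Y t := by
      have h7 := (hYb t).1
      have h8 := mul_le_mul_of_nonneg_left h7 (by positivity : (0 : ℝ) ≤ 2 / x0)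
      have h9 : 2 / x0 * (x0 / 2 * ‖z t‖ ^ 2) = ‖z t‖ ^ 2 := by
        field_simp
      linarith
    have h10 : 0 ≤ (C + CZ) + C * P * (ts - t) ^ (-(2 / 3) : ℝ) := by
      have := Real.rpow_nonneg htt.le (-(2 / 3))
      positivity
    have h11 := mul_le_mul_of_nonneg_left h6 h10
    show _ ≤ 2 / x0 * ((C + CZ) + C * P * (ts - t) ^ (-(2 / 3) : ℝ)) * Y t
    linarith
  -- integral estimate
  have hmain : ∀ t ∈ Icc 0 t1, Y t + (∫ r in (0 : ℝ)..t, (m * Vx (v r) +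
      (ts - r)⁻¹ * x0 * Dw p.L (z r))) ≤ Y 0 + ∫ r in (0 : ℝ)..t, k r * Y r := by
    intro t ht
    have h1 := hwd x0 hx0 t1 B (fun t => (ts - t)⁻¹) z0 f v ht1 hDc hD0 hrun 0 t le_rfl ht.1 ht.2
    have sub : Icc 0 t ⊆ Icc 0 t1 := Icc_subset_Icc_right ht.2
    have h2 : (∫ r in (0 : ℝ)..t, (C * (‖z r‖ ^ 2 + ‖z r‖ ^ (10 / 3 : ℝ)) +
        trt p x0 (B.w r) (B.wx r) (z r) +
        2 * |inner ℝ (B.r r) (mulH (wt p.L x0) (z r))|)) ≤ ∫ r in (0 : ℝ)..t, k r * Y r := by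
      have e1 : (∫ r in (0 : ℝ)..t, (C * (‖z r‖ ^ 2 + ‖z r‖ ^ (10 / 3 : ℝ)) +
          trt p x0 (B.w r) (B.wx r) (z r) +
          2 * |inner ℝ (B.r r) (mulH (wt p.L x0) (z r))|)) =
          ∫ r in (0 : ℝ)..t, (C * (‖z r‖ ^ 2 + ‖z r‖ ^ (10 / 3 : ℝ)) +
          trt p x0 (B.w r) (B.wx r) (z r)) := by
        apply intervalIntegral.integral_congr
        intro r hr
        rw [uIcc_of_le ht.1] at hr
        show C * (‖z r‖ ^ 2 + ‖z r‖ ^ (10 / 3 : ℝ)) + trt p x0 (B.w r) (B.wx r) (z r) +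
          2 * |inner ℝ (B.r r) (mulH (wt p.L x0) (z r))| = _
        rw [hray.r r (sub hr), inner_zero_left, abs_zero, mul_zero, add_zero]
      rw [e1]
      apply intervalIntegral.integral_mono_on ht.1
      · apply ContinuousOn.intervalIntegrable
        rw [uIcc_of_le ht.1]
        have c1 : ContinuousOn (fun r => ‖z r‖) (Icc 0 t) := (cz.mono sub).norm
        have c2 : ContinuousOn (fun r => ‖z r‖ ^ (10 / 3 : ℝ)) (Icc 0 t) :=
          c1.rpow_const fun r _ => Or.inr (by norm_num)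
        exact (continuousOn_const.mul ((c1.pow 2).add c2)).add (ctrt.mono sub)
      · apply ContinuousOn.intervalIntegrable
        rw [uIcc_of_le ht.1]
        exact (hkc.mono sub).mul (hYc.mono sub)
      · intro r hr
        exact hpt r (sub hr)
    exact h1.trans (add_le_add le_rfl h2)
  have hpos : ∀ t ∈ Icc 0 t1, 0 ≤ ∫ r in (0 : ℝ)..t, (m * Vx (v r) +
      (ts - r)⁻¹ * x0 * Dw p.L (z r)) := by
    intro t ht
    apply intervalIntegral.integral_nonneg ht.1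
    intro r hr
    have h1 := U4_Vx_nonneg (v r)
    have h2 := U4_Dw_nonneg hL (z r)
    have h3 := hD0 r ⟨hr.1, hr.2.trans ht.2⟩
    positivity
  have hz0' : z 0 = z0 := by
    show p.sm.traj z0 f 0 = z0
    exact Sm.traj_zero _ _ _
  have hY00 : Y 0 ≤ 2 * x0 * R ^ 2 := by
    have h1 := (hYb 0).2
    rw [hz0'] at h1
    have h2 := mul_le_mul_of_nonneg_left hR (by positivity : (0 : ℝ) ≤ 2 * x0)
    linarith
  have hYY : ∀ t ∈ Icc 0 t1, Y t ≤ Y1 := by
    intro t ht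
    have h1 := gronwall_lin (a := Y 0) hYc hkc hk0
      (fun s hs => by
        have h2 := hmain s hs
        have h3 := hpos s hs
        linarith) ht
    have h4 : Real.exp (∫ s in (0 : ℝ)..t, k s) ≤ Real.exp K1 := Real.exp_le_exp.mpr (hkint t ht)
    calc Y t ≤ Y 0 * Real.exp (∫ s in (0 : ℝ)..t, k s) := h1
      _ ≤ 2 * x0 * R ^ 2 * Real.exp K1 :=
        mul_le_mul hY00 h4 (Real.exp_pos _).le (by positivity)
  have ht1m : t1 ∈ Icc 0 t1 := ⟨ht1.le, le_rfl⟩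
  have hfin : (∫ r in (0 : ℝ)..t1, (m * Vx (v r) + (ts - r)⁻¹ * x0 * Dw p.L (z r))) ≤ K2 := by
    have h1 := hmain t1 ht1m
    have h2 := hY0 t1
    have h3 : ∫ r in (0 : ℝ)..t1, k r * Y r ≤ K1 * Y1 := by
      calc ∫ r in (0 : ℝ)..t1, k r * Y r ≤ ∫ r in (0 : ℝ)..t1, k r * Y1 := by
            apply intervalIntegral.integral_mono_on ht1.le
            · apply ContinuousOn.intervalIntegrable
              rw [uIcc_of_le ht1.le]
              exact hkc.mul hYc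
            · apply ContinuousOn.intervalIntegrable
              rw [uIcc_of_le ht1.le]
              exact hkc.mul continuousOn_const
            · intro r hr
              exact mul_le_mul_of_nonneg_left (hYY r hr) (hk0 r hr)
        _ = (∫ r in (0 : ℝ)..t1, k r) * Y1 := by
            rw [intervalIntegral.integral_mul_const]
        _ ≤ K1 * Y1 := mul_le_mul_of_nonneg_right (hkint t1 ht1m) hY10
    linarith
  have iV' : IntervalIntegrable (fun r => Vx (v r)) volume 0 t1 := by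
    rw [intervalIntegrable_iff_integrableOn_Ioc_of_le ht1.le]
    exact iV
  have iD' : IntervalIntegrable (fun r => (ts - r)⁻¹ * Dw p.L (z r)) volume 0 t1 := by
    apply ContinuousOn.intervalIntegrable
    rw [uIcc_of_le ht1.le]
    exact hDc.mul cD
  have hsplit : (∫ r in (0 : ℝ)..t1, (m * Vx (v r) + (ts - r)⁻¹ * x0 * Dw p.L (z r))) =
      m * (∫ r in (0 : ℝ)..t1, Vx (v r)) +
        x0 * ∫ r in (0 : ℝ)..t1, (ts - r)⁻¹ * Dw p.L (z r) := by
    rw [← intervalIntegral.integral_const_mul, ← intervalIntegral.integral_const_mul,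
      ← intervalIntegral.integral_add (iV'.const_mul _) (iD'.const_mul _)]
    apply intervalIntegral.integral_congr
    intro r _
    show m * Vx (v r) + (ts - r)⁻¹ * x0 * Dw p.L (z r) =
      m * Vx (v r) + x0 * ((ts - r)⁻¹ * Dw p.L (z r))
    ring
  have hV0 : 0 ≤ ∫ r in (0 : ℝ)..t1, Vx (v r) :=
    intervalIntegral.integral_nonneg ht1.le fun r _ => U4_Vx_nonneg (v r)
  have hE0 : 0 ≤ ∫ r in (0 : ℝ)..t1, (ts - r)⁻¹ * Dw p.L (z r) :=
    intervalIntegral.integral_nonneg ht1.le fun r hr =>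
      mul_nonneg (hD0 r hr) (U4_Dw_nonneg hL (z r))
  rw [hsplit] at hfin
  have hkm : 0 ≤ K2 / m := by positivity
  have hkx : 0 ≤ K2 / x0 := by positivity
  refine ⟨?_, iV, ?_, ?_⟩
  · intro t ht
    have h1 : ‖z t‖ ^ 2 ≤ 2 / x0 * Y1 := by
      have h7 := (hYb t).1
      have h8 := mul_le_mul_of_nonneg_left (h7.trans (hYY t ht)) (by positivity : (0 : ℝ) ≤ 2 / x0)
      have h9 : 2 / x0 * (x0 / 2 * ‖z t‖ ^ 2) = ‖z t‖ ^ 2 := by
        field_simp
      linarith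
    have h2 : ‖z t‖ ≤ C1 := Real.le_sqrt_of_sq_le h1
    show ‖z t‖ ≤ _
    linarith
  · have h1 : m * (∫ r in (0 : ℝ)..t1, Vx (v r)) ≤ K2 := by
      have := mul_nonneg hx0p.le hE0
      linarith
    have h2 : (∫ r in (0 : ℝ)..t1, Vx (v r)) ≤ K2 / m := by
      rw [le_div_iff₀ hm]
      linarith
    linarith
  · have h1 : x0 * (∫ r in (0 : ℝ)..t1, (ts - r)⁻¹ * Dw p.L (z r)) ≤ K2 := by
      have := mul_nonneg hm.le hV0
      linarith
    have h2 : (∫ r in (0 : ℝ)..t1, (ts - r)⁻¹ * Dw p.L (z r)) ≤ K2 / x0 := by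
      rw [le_div_iff₀ hx0p]
      linarith
    show (∫ r in (0 : ℝ)..t1, (ts - r)⁻¹ * Dw p.L (z r)) ≤ _
    linarith

end Pool.Agent.KG
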