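import Pool.Agent.Lib.KG.UpD
import Pool.Agent.Lib.KG.TL

/-!
# Row X1: the exploding background
-/

set_option autoImplicit false

namespace Pool.Agent.KG

open MeasureTheory Filter Topology Set
open Pool.Agent.Kdv
open scoped ENNReal ContDiff InnerProductSpace

variable {n : ℕ}

theorem X1_toL2_zero {F : ℝ → ℝ} (h : ∀ x, F x = 0) : toL2 F = 0 := by
  have h1 : F = fun _ => 0 := funext h
  subst h1
  have h2 : MemLp (fun _ : ℝ => (0 : ℝ)) 2 volume := MemLp.zero'
  unfold toL2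
  rw [dif_pos h2]
  exact MemLp.toLp_zero h2

theorem X1_iter (c d x : ℝ) : iteratedDeriv 3 (fun x => c * (x + d)) x = 0 := by
  have h1 : deriv (fun x => c * (x + d)) = fun _ => c := by
    funext x
    have h : HasDerivAt (fun x => c * (x + d)) (c * 1) x :=
      ((hasDerivAt_id x).add_const d).const_mul c
    rw [h.deriv, mul_one]
  rw [iteratedDeriv_succ', h1, iteratedDeriv_succ', deriv_const', iteratedDeriv_succ',
    deriv_const', iteratedDeriv_zero]

/-- The background `-(x + x0) e / (α (ts - t)) + Z(t)`, where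
`Z' = (S e + T(Z, e)) / (α (ts - t))`. -/
theorem ray_bk (p : Pr n) {e : Fin n → ℝ} {α x0 ts t1 : ℝ} (he : Dir p.g e α) (ht1 : 0 < t1)
    (h1 : t1 < ts) {Z : ℝ → Fin n → ℝ} (hZ : ∀ j, ContDiffOn ℝ ∞ (fun t => Z t j) (Iio ts))
    (hZ' : ∀ t ∈ Icc 0 t1, ∀ j, deriv (fun t => Z t j) t =
      (α * (ts - t))⁻¹ * (mv p.S e j + bil p.g (Z t) e j)) :
    ∃ B : Bk p t1, IsRay p B e x0 (fun t => -(α * (ts - t))⁻¹) Z ∧
      B.b0 = bg n p.L (fun x j => -((α * ts)⁻¹ * (x0 + x)) * e j + Z 0 j) ∧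
      ∀ t ∈ Icc 0 t1, p.sm.traj B.b0 B.fb t =
        bg n p.L (fun x j => -((α * (ts - t))⁻¹ * (x0 + x)) * e j + Z t j) := by
  have hα := he.pos
  obtain ⟨w, hw⟩ : ∃ w : ℝ → ℝ → Fin n → ℝ, w = fun t x j =>
    (-(α * (ts - t))⁻¹ * (x + x0)) * e j + Z t j := ⟨_, rfl⟩
  have hne : ∀ t ∈ Iio ts, α * (ts - t) ≠ 0 := fun t ht =>
    (mul_pos hα (sub_pos.mpr ht)).ne'
  have hU' : Icc 0 t1 ⊆ Iio ts := fun t ht => lt_of_le_of_lt ht.2 h1
  have hsm : ∀ j, ContDiffOn ℝ ∞ (fun q : ℝ × ℝ => w q.1 q.2 j) (Iio ts ×ˢ univ) := by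
    intro j
    rw [hw]
    have e1 : ContDiffOn ℝ ∞ (fun q : ℝ × ℝ => (α * (ts - q.1))⁻¹) (Iio ts ×ˢ univ) := by
      refine ContDiffOn.inv ?_ fun q hq => hne q.1 hq.1
      exact (contDiff_const.mul (contDiff_const.sub contDiff_fst)).contDiffOn
    have e2 : ContDiffOn ℝ ∞ (fun q : ℝ × ℝ => q.2 + x0) (Iio ts ×ˢ univ) :=
      (contDiff_snd.add contDiff_const).contDiffOn
    have e3 : ContDiffOn ℝ ∞ (fun q : ℝ × ℝ => Z q.1 j) (Iio ts ×ˢ univ) :=
      (hZ j).comp contDiff_fst.contDiffOn fun q hq => hq.1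
    exact ((e1.neg.mul e2).mul contDiffOn_const).add e3
  obtain ⟨B, hB1, hB2, hB3, hB4, hB5⟩ := exists_bk' p ht1 isOpen_Iio hU' hsm
  have hwx : ∀ t x j, deriv (fun x => w t x j) x = -(α * (ts - t))⁻¹ * e j := by
    intro t x j
    have h : HasDerivAt (fun x => w t x j) ((-(α * (ts - t))⁻¹ * 1) * e j) x := by
      rw [hw]
      exact ((((hasDerivAt_id x).add_const x0).const_mul _).mul_const _).add_const _
    rw [h.deriv, mul_one]
  have hres : ∀ t ∈ Icc 0 t1, ∀ x j, resid p w t x j = 0 := by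
    intro t ht x j
    have hts : 0 < ts - t := sub_pos.mpr (hU' ht)
    have ha : HasDerivAt (fun s => (-(α * (ts - s))⁻¹ * (x + x0)))
        (-(-(α * (0 - 1)) / (α * (ts - t)) ^ 2) * (x + x0)) t := by
      have h2 : HasDerivAt (fun s => α * (ts - s)) (α * (0 - 1)) t :=
        (((hasDerivAt_const t ts).sub (hasDerivAt_id t))).const_mul α
      exact ((h2.inv (mul_pos hα hts).ne').neg).mul_const _
    have hr := resid_lin p (e := e) (α := α) he.eig (h := fun t x => -(α * (ts - t))⁻¹ * (x + x0))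
      (Z := Z) (t := t) (x := x) ha.differentiableAt
      (fun j => ((hZ j).contDiffAt (Iio_mem_nhds (hU' ht))).differentiableAt (by simp))
      (by fun_prop) j
    rw [hw, hr, ha.deriv]
    have hx : deriv (fun x => -(α * (ts - t))⁻¹ * (x + x0)) x = -(α * (ts - t))⁻¹ := by
      have h : HasDerivAt (fun x => -(α * (ts - t))⁻¹ * (x + x0)) (-(α * (ts - t))⁻¹ * 1) x :=
        ((hasDerivAt_id x).add_const x0).const_mul _
      rw [h.deriv, mul_one]
    change (_ + α * (-(α * (ts - t))⁻¹ * (x + x0)) *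
      deriv (fun x => -(α * (ts - t))⁻¹ * (x + x0)) x) * e j + p.mu j *
      iteratedDeriv 3 (fun x => -(α * (ts - t))⁻¹ * (x + x0)) x * e j +
      deriv (fun x => -(α * (ts - t))⁻¹ * (x + x0)) x * _ + _ = 0
    rw [hx, X1_iter, hZ' t ht j]
    field_simp
    ring
  refine ⟨B, ⟨fun t ht x _ j => ?_, fun t ht x _ j => ?_, fun t ht => ?_⟩, ?_, fun t ht => ?_⟩
  · rw [hB1 t ht, hw]
  · rw [hB2 t ht, hwx]
  · rw [hB5 t ht]
    have : (fun j => toL2 fun x => th p.L x * resid p w t x j) = fun _ : Fin n => (0 : L2) := by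
      funext j
      exact X1_toL2_zero fun x => by rw [hres t ht x j, mul_zero]
    rw [this]
    rfl
  · rw [hB3, hw]
    congr 1
    funext x j
    simp only [sub_zero]
    ring
  · rw [hB4 t ht, hw]
    congr 1
    funext x j
    ring

end Pool.Agent.KG
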