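import Pool.Agent.Lib.KG.R_C1
import Pool.Agent.Lib.KG.R_X1
import Pool.Agent.Lib.KG.R_U4

/-!
# Row C4: the explosion in the case of a cube
-/

set_option autoImplicit false

namespace Pool.Agent.KG

open MeasureTheory Filter Topology Set
open Pool.Agent.Kdv
open scoped ENNReal ContDiff InnerProductSpace

variable {p : Pr 2} {e e' : Fin 2 → ℝ} {α s : ℝ}

/-- The second component of the background. -/
noncomputable def C4_Z (e' : Fin 2 → ℝ) (α s ts g0 t : ℝ) (j : Fin 2) : ℝ :=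
  (g0 + s / α * Real.log (ts / (ts - t))) * e' j

theorem C4_Z_zero {e' : Fin 2 → ℝ} {α s ts g0 : ℝ} (hts : 0 < ts) (j : Fin 2) :
    C4_Z e' α s ts g0 0 j = g0 * e' j := by
  simp [C4_Z, div_self hts.ne']

theorem C4_hasDeriv {e' : Fin 2 → ℝ} {α s ts g0 t : ℝ} (hts : 0 < ts) (ht : t < ts)
    (j : Fin 2) :
    HasDerivAt (fun t => C4_Z e' α s ts g0 t j) (s / α * (ts - t)⁻¹ * e' j) t := by
  have h1 : (0 : ℝ) < ts - t := by linarith
  have h2 : HasDerivAt (fun t : ℝ => ts - t) (-1) t := by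
    simpa using (hasDerivAt_id t).const_sub ts
  have h3 : HasDerivAt (fun t : ℝ => Real.log ts - Real.log (ts - t)) ((ts - t)⁻¹) t := by
    have h3' := (h2.log h1.ne').const_sub (Real.log ts)
    have h3e : -(-1 / (ts - t)) = (ts - t)⁻¹ := by rw [neg_div, neg_neg, one_div]
    rw [h3e] at h3'
    exact h3'
  have h4 : (fun t : ℝ => Real.log (ts / (ts - t))) =ᶠ[𝓝 t]
      fun t : ℝ => Real.log ts - Real.log (ts - t) := by
    filter_upwards [Iio_mem_nhds ht] with r hr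
    have hr' : (0 : ℝ) < ts - r := by
      have : r < ts := hr
      linarith
    exact Real.log_div hts.ne' hr'.ne'
  have h5 : HasDerivAt (fun t : ℝ => Real.log (ts / (ts - t))) ((ts - t)⁻¹) t :=
    h3.congr_of_eventuallyEq h4
  exact (((h5.const_mul (s / α)).const_add g0).mul_const (e' j))

theorem C4_smooth {e' : Fin 2 → ℝ} {α s ts g0 : ℝ} (hts : 0 < ts) (j : Fin 2) :
    ContDiffOn ℝ ∞ (fun t => C4_Z e' α s ts g0 t j) (Iio ts) := by
  unfold C4_Z
  refine ContDiffOn.mul ?_ contDiffOn_const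
  refine ContDiffOn.add contDiffOn_const ?_
  refine ContDiffOn.mul contDiffOn_const ?_
  have h1 : ContDiffOn ℝ ∞ (fun t : ℝ => ts - t) (Iio ts) :=
    contDiffOn_const.sub contDiffOn_id
  have h2 : ContDiffOn ℝ ∞ (fun t : ℝ => ts / (ts - t)) (Iio ts) := by
    refine contDiffOn_const.div h1 ?_
    intro t ht
    have : t < ts := ht
    have : (0 : ℝ) < ts - t := by linarith
    exact this.ne'
  refine h2.log ?_
  intro t ht
  have : t < ts := ht
  have : (0 : ℝ) < ts - t := by linarith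
  exact (div_pos hts this).ne'

theorem cube_up (h : Cub p e e' α s) {x0 ts : ℝ} (hx0 : 2 * (p.L + 4) ≤ x0) (hts : 0 < ts)
    (g0 R : ℝ) : ∃ R1 : ℝ, ∀ t1 : ℝ, 0 < t1 → t1 < ts → ∀ y0 : HH 2, ‖y0‖ ≤ R →
      ∃ z1 : HH 2, ‖z1‖ ≤ R1 ∧
        p.Adm y0 (bg 2 p.L (fun x j => -((α * (ts - t1))⁻¹ * (x0 + x)) * e j +
          (g0 + s / α * Real.log (ts / (ts - t1))) * e' j) + z1) t1 := by
  have hα : 0 < α := h.cube.pos
  obtain ⟨hee, he'e', hee'⟩ := Cub.dots h
  obtain ⟨C, hC, hup⟩ := up_bound p (Cub.isDir h) hx0 hts le_rfl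
    (R + ‖bg 2 p.L (fun x j => -((α * ts)⁻¹ * (x0 + x)) * e j + C4_Z e' α s ts g0 0 j)‖)
  refine ⟨C, fun t1 ht1 ht1s y0 hy0 => ?_⟩
  have hdotZ : ∀ t, dot e (C4_Z e' α s ts g0 t) = 0 := by
    intro t
    have h1 : dot e (C4_Z e' α s ts g0 t) =
        (g0 + s / α * Real.log (ts / (ts - t))) * dot e e' := by
      simp only [dot, C4_Z, Finset.mul_sum]
      exact Finset.sum_congr rfl fun j _ => by ring
    rw [h1, hee', mul_zero]
  obtain ⟨B, hBray, hB0, hBt⟩ := ray_bk p (x0 := x0) (Cub.isDir h).dir ht1 ht1s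
    (Z := C4_Z e' α s ts g0) (fun j => C4_smooth hts j) (by
      intro t ht j
      have hts' : t < ts := lt_of_le_of_lt ht.2 ht1s
      have h1 : (0 : ℝ) < ts - t := by linarith
      rw [(C4_hasDeriv hts hts' j).deriv, h.S j, Cub.bil_eq h, hdotZ t]
      field_simp
      ring)
  obtain ⟨f, v, hrun⟩ := exists_run p ht1 B (D := fun t => (ts - t)⁻¹) (by
      refine ContinuousOn.inv₀ (by fun_prop) ?_
      intro t ht
      have : t ≤ t1 := ht.2
      have : (0 : ℝ) < ts - t := by linarith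
      exact this.ne') (by
      intro t ht
      have : t ≤ t1 := ht.2
      have : (0 : ℝ) < ts - t := by linarith
      exact (inv_pos.2 this).le) (y0 - B.b0)
  have hz0 : ‖y0 - B.b0‖ ≤ R + ‖bg 2 p.L (fun x j => -((α * ts)⁻¹ * (x0 + x)) * e j +
      C4_Z e' α s ts g0 0 j)‖ := by
    rw [hB0]
    exact (norm_sub_le _ _).trans (add_le_add hy0 le_rfl)
  have hb := (hup t1 B (C4_Z e' α s ts g0) ht1 ht1s hBray (by
    intro t ht ξ
    rw [Cub.qd_eq h, hdotZ t]
    simp) (y0 - B.b0) f v hz0 hrun).1 t1 ⟨ht1.le, le_rfl⟩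
  refine ⟨p.sm.traj (y0 - B.b0) f t1, hb, ?_⟩
  have hadm := hrun.adm ht1.le (t := t1) ⟨ht1.le, le_rfl⟩
  rw [add_sub_cancel, hBt t1 ⟨ht1.le, le_rfl⟩] at hadm
  exact hadm

end Pool.Agent.KG
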