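import Mathlib

/-!
Row C5: two nonlinear Gronwall inequalities (pure analysis).
-/

set_option autoImplicit false

namespace Pool.Agent.KG

open MeasureTheory Filter Topology Set
open scoped ENNReal ContDiff

/-- A continuity argument: a bound which improves itself holds everywhere. -/
theorem C5_first {T M : ℝ} {u : ℝ → ℝ} (hu : ContinuousOn u (Icc 0 T)) (h0 : u 0 < M)
    (h : ∀ t ∈ Icc (0 : ℝ) T, (∀ r ∈ Icc (0 : ℝ) t, u r ≤ M) → u t < M) :
    ∀ t ∈ Icc (0 : ℝ) T, u t < M := by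
  intro t1 ht1
  by_contra hcon
  rw [not_lt] at hcon
  have ivt : ∀ r ∈ Icc (0 : ℝ) T, M ≤ u r → ∃ t ∈ Icc (0 : ℝ) r, u t = M := by
    intro r hr hM
    have h1 := intermediate_value_Icc hr.1 (hu.mono (Icc_subset_Icc_right hr.2))
    obtain ⟨t, ht, hut⟩ := h1 ⟨h0.le, hM⟩
    exact ⟨t, ht, hut⟩
  have hS : IsClosed (Icc 0 T ∩ u ⁻¹' {M}) :=
    hu.preimage_isClosed_of_isClosed isClosed_Icc isClosed_singleton
  have hne : (Icc 0 T ∩ u ⁻¹' {M}).Nonempty := by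
    obtain ⟨t, ht, hut⟩ := ivt t1 ht1 hcon
    exact ⟨t, ⟨⟨ht.1, ht.2.trans ht1.2⟩, hut⟩⟩
  have hcomp : IsCompact (Icc 0 T ∩ u ⁻¹' {M}) :=
    isCompact_Icc.of_isClosed_subset hS inter_subset_left
  obtain ⟨s, hs, hleast⟩ := hcomp.exists_isLeast hne
  have h2 := h s hs.1 (by
    intro r hr
    by_contra hr2
    rw [not_le] at hr2
    obtain ⟨t, ht, hut⟩ := ivt r ⟨hr.1, hr.2.trans hs.1.2⟩ hr2.le
    have h1 : s ≤ t := hleast ⟨⟨ht.1, ht.2.trans (hr.2.trans hs.1.2)⟩, hut⟩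
    have h2 : t = r := le_antisymm ht.2 (hr.2.trans h1)
    rw [h2] at hut
    exact hr2.ne' hut)
  exact h2.ne hs.2

theorem C5_int {b t : ℝ} (ht : 0 ≤ t) {u : ℝ → ℝ} (hu : ContinuousOn u (Icc 0 t)) :
    IntervalIntegrable (fun r => b * (u r + u r ^ (5 / 3 : ℝ))) volume 0 t := by
  apply ContinuousOn.intervalIntegrable
  rw [uIcc_of_le ht]
  exact continuousOn_const.mul (hu.add (hu.rpow_const fun x _ => Or.inr (by norm_num)))

theorem gron_large (a b : ℝ) (ha : 0 ≤ a) (hb : 0 ≤ b) : ∃ τ : ℝ, 0 < τ ∧ τ ≤ 1 ∧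
    ∀ u : ℝ → ℝ, ContinuousOn u (Icc 0 1) → (∀ t ∈ Icc (0 : ℝ) 1, 0 ≤ u t) →
      (∀ t ∈ Icc (0 : ℝ) 1, u t ≤ a + ∫ r in (0 : ℝ)..t, b * (u r + u r ^ (5 / 3 : ℝ))) →
      ∀ t ∈ Icc 0 τ, u t ≤ 2 * a + 1 := by
  obtain ⟨M, hM⟩ : ∃ M : ℝ, M = 2 * a + 1 := ⟨_, rfl⟩
  have hMpos : 0 < M := by rw [hM]; linarith
  obtain ⟨c, hc⟩ : ∃ c : ℝ, c = b * (M + M ^ (5 / 3 : ℝ)) := ⟨_, rfl⟩
  have hc0 : 0 ≤ c := by
    rw [hc]
    exact mul_nonneg hb (add_nonneg hMpos.le (Real.rpow_nonneg hMpos.le _))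
  have hc1 : 0 < c + 1 := by linarith
  obtain ⟨τ, hτ⟩ : ∃ τ : ℝ, τ = min 1 ((c + 1)⁻¹ * (1 / 2)) := ⟨_, rfl⟩
  have hτ0 : 0 < τ := by rw [hτ]; positivity
  have hτ1 : τ ≤ 1 := by rw [hτ]; exact min_le_left _ _
  have hτc : c * τ ≤ 1 / 2 := by
    have h1 : τ ≤ (c + 1)⁻¹ * (1 / 2) := by rw [hτ]; exact min_le_right _ _
    have h2 : (c + 1) * ((c + 1)⁻¹ * (1 / 2)) = 1 / 2 := by
      rw [← mul_assoc, mul_inv_cancel₀ hc1.ne', one_mul]
    calc c * τ ≤ (c + 1) * τ := by nlinarith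
      _ ≤ (c + 1) * ((c + 1)⁻¹ * (1 / 2)) := mul_le_mul_of_nonneg_left h1 hc1.le
      _ = 1 / 2 := h2
  refine ⟨τ, hτ0, hτ1, ?_⟩
  intro u hu hu0 hle t ht
  rw [← hM]
  refine (C5_first (T := τ) (M := M) (hu.mono (Icc_subset_Icc_right hτ1)) ?_ ?_ t ht).le
  · have h0 := hle 0 ⟨le_rfl, zero_le_one⟩
    rw [intervalIntegral.integral_same, add_zero] at h0
    rw [hM]
    linarith
  · intro t ht hr
    have h1 := hle t ⟨ht.1, ht.2.trans hτ1⟩
    have h2 : ∫ r in (0 : ℝ)..t, b * (u r + u r ^ (5 / 3 : ℝ)) ≤ ∫ r in (0 : ℝ)..t, c := by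
      apply intervalIntegral.integral_mono_on ht.1
      · exact C5_int ht.1 (hu.mono (Icc_subset_Icc_right (ht.2.trans hτ1)))
      · exact intervalIntegrable_const
      · intro r hr'
        have h3 := hr r hr'
        have h4 := hu0 r ⟨hr'.1, hr'.2.trans (ht.2.trans hτ1)⟩
        rw [hc]
        apply mul_le_mul_of_nonneg_left _ hb
        exact add_le_add h3 (Real.rpow_le_rpow h4 h3 (by norm_num))
    rw [intervalIntegral.integral_const, smul_eq_mul, sub_zero] at h2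
    have h5 : t * c ≤ c * τ := by
      rw [mul_comm]
      exact mul_le_mul_of_nonneg_left ht.2 hc0
    rw [hM]
    linarith

/-- The linear inequality of Gronwall in integral form. -/
theorem C5_gron {a c T : ℝ} (ha : 0 ≤ a) (hc : 0 ≤ c) (hT : 0 ≤ T) {u : ℝ → ℝ}
    (hu : ContinuousOn u (Icc 0 T))
    (h : ∀ t ∈ Icc 0 T, u t ≤ a + ∫ r in (0 : ℝ)..t, c * u r) :
    ∀ t ∈ Icc 0 T, u t ≤ a * Real.exp (c * t) := by
  obtain ⟨w, hw⟩ : ∃ w : ℝ → ℝ, w = IccExtend hT (restrict (Icc 0 T) u) := ⟨_, rfl⟩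
  have hwc : Continuous w := by
    rw [hw]
    exact (continuousOn_iff_continuous_restrict.1 hu).Icc_extend'
  have hwu : ∀ t ∈ Icc 0 T, w t = u t := by
    intro t ht
    rw [hw, IccExtend_of_mem hT _ ht]
    rfl
  have hint : ∀ t ∈ Icc 0 T, ∫ r in (0 : ℝ)..t, c * u r = ∫ r in (0 : ℝ)..t, c * w r := by
    intro t ht
    apply intervalIntegral.integral_congr
    intro r hr
    rw [uIcc_of_le ht.1] at hr
    show c * u r = c * w r
    rw [hwu r ⟨hr.1, hr.2.trans ht.2⟩]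
  have hder : ∀ t : ℝ, HasDerivAt (fun t => a + ∫ r in (0 : ℝ)..t, c * w r) (c * w t) t := by
    intro t
    have h1 : Continuous fun r => c * w r := continuous_const.mul hwc
    exact (h1.integral_hasStrictDerivAt 0 t).hasDerivAt.const_add a
  have hmain : ∀ t ∈ Icc 0 T, a + ∫ r in (0 : ℝ)..t, c * w r ≤ gronwallBound a c 0 (t - 0) := by
    apply le_gronwallBound_of_liminf_deriv_right_le
      (f' := fun t => c * w t)
    · exact fun t _ => (hder t).continuousAt.continuousWithinAt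
    · intro t _ r hr
      exact (hder t).hasDerivWithinAt.liminf_right_slope_le hr
    · simp
    · intro t ht
      rw [add_zero]
      apply mul_le_mul_of_nonneg_left _ hc
      have h1 := h t ⟨ht.1, ht.2.le⟩
      rw [hint t ⟨ht.1, ht.2.le⟩] at h1
      rw [hwu t ⟨ht.1, ht.2.le⟩]
      exact h1
  intro t ht
  have h1 := h t ht
  rw [hint t ht] at h1
  have h2 := hmain t ht
  rw [gronwallBound_ε0, sub_zero] at h2
  exact h1.trans h2

theorem gron_small {a b T : ℝ} (ha : 0 ≤ a) (hb : 0 ≤ b) (hT : 0 ≤ T) (hT1 : T ≤ 1)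
    (hab : a * Real.exp (2 * b) < 1) {u : ℝ → ℝ} (hu : ContinuousOn u (Icc 0 T))
    (hu0 : ∀ t ∈ Icc 0 T, 0 ≤ u t)
    (h : ∀ t ∈ Icc 0 T, u t ≤ a + ∫ r in (0 : ℝ)..t, b * (u r + u r ^ (5 / 3 : ℝ))) :
    ∀ t ∈ Icc 0 T, u t ≤ a * Real.exp (2 * b) := by
  have key : ∀ t ∈ Icc 0 T, (∀ r ∈ Icc (0 : ℝ) t, u r ≤ 1) → u t ≤ a * Real.exp (2 * b) := by
    intro t ht hr
    have hut : ContinuousOn u (Icc 0 t) := hu.mono (Icc_subset_Icc_right ht.2)
    have h1 : ∀ q ∈ Icc 0 t, u q ≤ a + ∫ r in (0 : ℝ)..q, (2 * b) * u r := by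
      intro q hq
      refine (h q ⟨hq.1, hq.2.trans ht.2⟩).trans ?_
      gcongr
      have huq : ContinuousOn u (Icc 0 q) := hut.mono (Icc_subset_Icc_right hq.2)
      apply intervalIntegral.integral_mono_on hq.1
      · exact C5_int hq.1 huq
      · apply ContinuousOn.intervalIntegrable
        rw [uIcc_of_le hq.1]
        exact continuousOn_const.mul huq
      · intro r hr'
        have h3 := hr r ⟨hr'.1, hr'.2.trans hq.2⟩
        have h4 := hu0 r ⟨hr'.1, hr'.2.trans (hq.2.trans ht.2)⟩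
        have h5 : u r ^ (5 / 3 : ℝ) ≤ u r ^ (1 : ℝ) := by
          rcases h4.eq_or_lt with h6 | h6
          · rw [← h6, Real.zero_rpow (by norm_num), Real.zero_rpow (by norm_num)]
          · exact Real.rpow_le_rpow_of_exponent_ge h6 h3 (by norm_num)
        rw [Real.rpow_one] at h5
        nlinarith
    have h2 := C5_gron ha (by linarith : (0 : ℝ) ≤ 2 * b) ht.1 hut h1 t ⟨ht.1, le_rfl⟩
    refine h2.trans ?_
    apply mul_le_mul_of_nonneg_left _ ha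
    apply Real.exp_le_exp.2
    have : t ≤ 1 := ht.2.trans hT1
    nlinarith
  have hlt : ∀ t ∈ Icc (0 : ℝ) T, u t < 1 := by
    apply C5_first hu
    · have h0 := h 0 ⟨le_rfl, hT⟩
      rw [intervalIntegral.integral_same, add_zero] at h0
      have h1 : (1 : ℝ) ≤ Real.exp (2 * b) := Real.one_le_exp (by linarith)
      nlinarith
    · intro t ht hr
      exact (key t ht hr).trans_lt hab
  intro t ht
  exact key t ht fun r hr => (hlt r ⟨hr.1, hr.2.trans ht.2⟩).le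

end Pool.Agent.KG
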