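import Pool.Agent.Lib.KG.R_C1
import Pool.Agent.Lib.KG.R_C5
import Pool.Agent.Lib.KG.R_U1
import Pool.Agent.Lib.KG.R_C10
import Pool.Agent.Lib.KG.R_D3
import Pool.Agent.Lib.KG.R_D4

/-!
# Row C6: damping at a large constant background
-/

set_option autoImplicit false

namespace Pool.Agent.KG

open MeasureTheory Filter Topology Set
open Pool.Agent.Kdv
open scoped ENNReal ContDiff InnerProductSpace

variable {p : Pr 2} {e e' : Fin 2 → ℝ} {α s : ℝ}

theorem C6_toL2_zero : toL2 (fun _ => (0 : ℝ)) = 0 := by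
  unfold toL2
  split_ifs with h
  · exact MemLp.toLp_zero h
  · rfl

theorem C6_resid (p : Pr 2) (X : Fin 2 → ℝ) (t x : ℝ) (j : Fin 2) :
    resid p (fun _ _ j => X j) t x j = 0 := by
  unfold resid
  have h3 : iteratedDeriv 3 (fun _ : ℝ => X j) x = 0 := by
    rw [iteratedDeriv_const, if_neg (by norm_num)]
  simp [h3]

theorem C6_bk (p : Pr 2) (e e' : Fin 2 → ℝ) (K g0 : ℝ) : ∃ B : Bk p 1,
    (∀ t ∈ Icc (0 : ℝ) 1, ∀ x j, B.w t x j = cst e e' K g0 x j) ∧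
    (∀ t ∈ Icc (0 : ℝ) 1, ∀ x j, B.wx t x j = 0) ∧
    B.b0 = bg 2 p.L (cst e e' K g0) ∧
    (∀ t ∈ Icc (0 : ℝ) 1, p.sm.traj B.b0 B.fb t = bg 2 p.L (cst e e' K g0)) ∧
    ∀ t ∈ Icc (0 : ℝ) 1, B.r t = 0 := by
  obtain ⟨B, h1, h2, h3, h4, h5⟩ := exists_bk' p (τ := 1) one_pos
    (w := fun _ x j => cst e e' K g0 x j) (U := univ) isOpen_univ (subset_univ _)
    (fun j => by
      unfold cst
      exact contDiffOn_const)
  refine ⟨B, h1, fun t ht x j => ?_, h3, h4, fun t ht => ?_⟩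
  · rw [h2 t ht x j]
    show deriv (fun _ : ℝ => -K * e j + g0 * e' j) x = 0
    exact deriv_const _ _
  · rw [h5 t ht]
    have h6 : ∀ j, (fun x => th p.L x * resid p (fun _ x j => cst e e' K g0 x j) t x j) =
        fun _ => (0 : ℝ) := by
      intro j
      funext x
      have h7 := C6_resid p (fun j => -K * e j + g0 * e' j) t x j
      have h8 : resid p (fun _ x j => cst e e' K g0 x j) t x j = 0 := h7
      rw [h8, mul_zero]
    ext1 j
    show toL2 (fun x => th p.L x * resid p (fun _ x j => cst e e' K g0 x j) t x j) = (0 : L2)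
    rw [h6 j, C6_toL2_zero]

theorem C6_th_nonneg (p : Pr 2) (y : L2) : 0 ≤ inner ℝ (mulOp (th p.L) y) y := by
  rw [L2.inner_def]
  have hm : Measurable (th p.L) := (Mlt_th p.hL).1.continuous.measurable
  refine integral_nonneg_of_ae ?_
  filter_upwards [mulOp_ae hm ⟨1, fun x => abs_le.2
    ⟨by linarith [((th_facts p.hL).1 x).1], ((th_facts p.hL).1 x).2⟩⟩ y] with x hx
  simp only [RCLike.inner_apply, conj_trivial, Pi.zero_apply]
  rw [hx]
  have := mul_nonneg ((th_facts p.hL).1 x).1 (mul_self_nonneg (y x))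
  nlinarith

theorem C6_Dw_nonneg (p : Pr 2) (z : HH 2) : 0 ≤ Dw p.L z := by
  unfold Dw
  rw [PiLp.inner_apply]
  refine Finset.sum_nonneg fun j _ => ?_
  show 0 ≤ inner ℝ (mulOp (damp p.L) (z j)) (z j)
  rw [L2.inner_def]
  have hm : Measurable (damp p.L) := (Mlt_damp p.hL).1.continuous.measurable
  refine integral_nonneg_of_ae ?_
  filter_upwards [mulOp_ae hm ⟨1, fun x => abs_le.2
    ⟨by linarith [((damp_facts p.hL).1 x).1], ((damp_facts p.hL).1 x).2⟩⟩ (z j)] with x hx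
  simp only [RCLike.inner_apply, conj_trivial, Pi.zero_apply]
  rw [hx]
  have := mul_nonneg ((damp_facts p.hL).1 x).1 (mul_self_nonneg (z j x))
  nlinarith

theorem C6_Vx_nonneg {L : ℝ} (v : VV 2 L) : 0 ≤ Vx v :=
  Finset.sum_nonneg fun _ _ => sq_nonneg _

/-- The powers. -/
theorem C6_pow {c w y : ℝ} (hc : 2 ≤ c) (hy : 0 ≤ y) (h : c / 2 * y ^ 2 ≤ w) :
    y ^ 2 ≤ w ∧ y ^ (10 / 3 : ℝ) ≤ w ^ (5 / 3 : ℝ) := by
  have h1 : y ^ 2 ≤ w := by nlinarith [sq_nonneg y]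
  refine ⟨h1, ?_⟩
  have h2 : y ^ (10 / 3 : ℝ) = (y ^ 2) ^ (5 / 3 : ℝ) := by
    rw [← Real.rpow_natCast y 2, ← Real.rpow_mul hy]
    norm_num
  rw [h2]
  exact Real.rpow_le_rpow (sq_nonneg y) h1 (by norm_num)

theorem cube_a (h : Cub p e e' α s) (R : ℝ) : ∃ M : ℝ, 0 < M ∧ ∀ K g0 : ℝ, 0 ≤ K →
    ∀ z0 : HH 2, ‖z0‖ ≤ R → ∃ (t : ℝ) (v : VV 2 p.L), 0 < t ∧ t ≤ 1 ∧ Qa p e K v ≤ M ^ 2 ∧
      p.Adm (bg 2 p.L (cst e e' K g0) + z0) (bg 2 p.L (cst e e' K g0) + inc 2 p.L v) t := by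
  obtain ⟨m, C, hm, hC, hwd⟩ := wd p
  have hL := p.hL
  have hα : 0 < α := h.cube.pos
  obtain ⟨c, hc⟩ : ∃ c, c = 2 * (p.L + 4) := ⟨_, rfl⟩
  have hc8 : 8 ≤ c := by rw [hc]; linarith
  have hcp : 0 < c := by linarith
  obtain ⟨a, ha⟩ : ∃ a, a = 2 * c * R ^ 2 := ⟨_, rfl⟩
  have ha0 : 0 ≤ a := by rw [ha]; positivity
  obtain ⟨τ, hτ0, hτ1, hgr⟩ := gron_large a C ha0 hC
  obtain ⟨A, hA⟩ : ∃ A, A = a + C * ((2 * a + 1) + (2 * a + 1) ^ (5 / 3 : ℝ)) := ⟨_, rfl⟩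
  have h21 : 0 ≤ 2 * a + 1 := by linarith
  have hA0 : 0 ≤ A := by rw [hA]; positivity
  obtain ⟨Q, hQ⟩ : ∃ Q, Q = ((1 / m + 1 / c + 1 / α) * A + (2 * a + 1)) / τ := ⟨_, rfl⟩
  have hQ0 : 0 ≤ Q := by rw [hQ]; positivity
  refine ⟨√Q + 1, by positivity, fun K g0 hK z0 hz0 => ?_⟩
  have hR : 0 ≤ R := (norm_nonneg _).trans hz0
  obtain ⟨B, hB1, hB2, hB3, hB4, hB5⟩ := C6_bk p e e' K g0
  obtain ⟨f, v, hrun⟩ := exists_run p one_pos B (D := fun _ => K) continuousOn_const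
    (fun _ _ => hK) z0
  have hcc : 2 * (p.L + 4) ≤ c := hc.ge
  obtain ⟨i1, i2, i3, i4, _⟩ := wd_int p zero_le_one hrun continuousOn_const c
  -- the trajectory
  obtain ⟨z, hz⟩ : ∃ z : ℝ → HH 2, z = fun r => p.sm.traj z0 f r := ⟨_, rfl⟩
  obtain ⟨u, hu⟩ : ∃ u : ℝ → ℝ, u = fun r => wn p.L c (z r) := ⟨_, rfl⟩
  obtain ⟨θ, hθ⟩ : ∃ θ : ℝ → ℝ, θ = fun r =>
    inner ℝ (mulOp (th p.L) (cmp e (z r))) (cmp e (z r)) := ⟨_, rfl⟩
  have hθ0 : ∀ r, 0 ≤ θ r := fun r => by rw [hθ]; exact C6_th_nonneg p _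
  have hu1 : ∀ r, c / 2 * ‖z r‖ ^ 2 ≤ u r := fun r => by
    rw [hu]; exact (wn_bounds hL hcc (z r)).1
  have hu2 : ∀ r, ‖z r‖ ^ 2 ≤ u r ∧ ‖z r‖ ^ (10 / 3 : ℝ) ≤ u r ^ (5 / 3 : ℝ) := fun r =>
    C6_pow (by linarith) (norm_nonneg _) (hu1 r)
  have hu0 : ∀ r, 0 ≤ u r := fun r => (sq_nonneg _).trans (hu2 r).1
  have hdots := h.dots
  have htrt : ∀ r ∈ Icc (0 : ℝ) 1, trt p c (B.w r) (B.wx r) (z r) = -(α * K * θ r) := by
    intro r hr
    rw [hθ]
    refine cube_trt h (fun x => ⟨?_, ?_⟩) (z r)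
    · have e1 : ∀ j, B.w r x j = -K * e j + g0 * e' j := fun j => hB1 r hr x j
      have e2 : dot e (B.w r x) = -K * dot e e + g0 * dot e e' := by
        unfold dot
        rw [Finset.mul_sum, Finset.mul_sum, ← Finset.sum_add_distrib]
        refine Finset.sum_congr rfl fun j _ => ?_
        rw [e1 j]
        ring
      rw [e2, hdots.1, hdots.2.2]
      ring
    · unfold dot
      refine Finset.sum_eq_zero fun j _ => ?_
      rw [hB2 r hr x j, mul_zero]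
  have hcz : ContinuousOn z (Icc 0 1) := by rw [hz]; exact i1
  have hcu : ContinuousOn u (Icc 0 1) := by
    rw [hu]
    unfold wn
    exact ((mulH (wt p.L c)).continuous.comp_continuousOn hcz).inner (𝕜 := ℝ) hcz
  have hcn : ContinuousOn (fun r => C * (‖z r‖ ^ 2 + ‖z r‖ ^ (10 / 3 : ℝ))) (Icc 0 1) := by
    refine ContinuousOn.mul continuousOn_const ((hcz.norm.pow 2).add ?_)
    exact hcz.norm.rpow_const fun _ _ => Or.inr (by norm_num)
  have hcθ : ContinuousOn (fun r => α * K * θ r) (Icc 0 1) := by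
    have h1 : ContinuousOn (fun r => -trt p c (B.w r) (B.wx r) (z r)) (Icc 0 1) := by
      rw [hz]; exact i4.neg
    refine h1.congr fun r hr => ?_
    simp only
    rw [htrt r hr, neg_neg]
  have hcD : ContinuousOn (fun r => Dw p.L (z r)) (Icc 0 1) := by rw [hz]; exact i3
  have hiV : IntegrableOn (fun r => Vx (v r)) (Ioc 0 1) := i2
  -- the main inequality
  obtain ⟨G, hG⟩ : ∃ G : ℝ → ℝ, G = fun r => (m * Vx (v r) + K * c * Dw p.L (z r)) +
    α * K * θ r := ⟨_, rfl⟩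
  have hG0 : ∀ r, 0 ≤ G r := by
    intro r
    rw [hG]
    have h1 := C6_Vx_nonneg (v r)
    have h2 := C6_Dw_nonneg p (z r)
    have h3 := hθ0 r
    positivity
  have hsub : ∀ {t : ℝ}, t ∈ Icc (0 : ℝ) 1 → Icc 0 t ⊆ Icc (0 : ℝ) 1 := fun ht =>
    Icc_subset_Icc le_rfl ht.2
  have hint1 : ∀ t ∈ Icc (0 : ℝ) 1, IntervalIntegrable
      (fun r => m * Vx (v r) + K * c * Dw p.L (z r)) volume 0 t := by
    intro t ht
    have h1 : IntervalIntegrable (fun r => m * Vx (v r)) volume 0 t := by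
      rw [intervalIntegrable_iff_integrableOn_Ioc_of_le ht.1]
      exact (hiV.mono_set (Ioc_subset_Ioc le_rfl ht.2)).const_mul _
    have h2 : IntervalIntegrable (fun r => K * c * Dw p.L (z r)) volume 0 t := by
      refine ContinuousOn.intervalIntegrable ?_
      rw [uIcc_of_le ht.1]
      exact ContinuousOn.mul continuousOn_const (hcD.mono (hsub ht))
    exact h1.add h2
  have hint2 : ∀ t ∈ Icc (0 : ℝ) 1, IntervalIntegrable (fun r => α * K * θ r) volume 0 t := by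
    intro t ht
    refine ContinuousOn.intervalIntegrable ?_
    rw [uIcc_of_le ht.1]
    exact hcθ.mono (hsub ht)
  have hint3 : ∀ t ∈ Icc (0 : ℝ) 1, IntervalIntegrable
      (fun r => C * (‖z r‖ ^ 2 + ‖z r‖ ^ (10 / 3 : ℝ))) volume 0 t := by
    intro t ht
    refine ContinuousOn.intervalIntegrable ?_
    rw [uIcc_of_le ht.1]
    exact hcn.mono (hsub ht)
  have hintG : ∀ t ∈ Icc (0 : ℝ) 1, IntervalIntegrable G volume 0 t := by
    intro t ht
    rw [hG]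
    exact (hint1 t ht).add (hint2 t ht)
  have hmain : ∀ t ∈ Icc (0 : ℝ) 1, u t + (∫ r in (0 : ℝ)..t, G r) ≤
      u 0 + ∫ r in (0 : ℝ)..t, C * (‖z r‖ ^ 2 + ‖z r‖ ^ (10 / 3 : ℝ)) := by
    intro t ht
    have h1 := hwd c hcc 1 B (fun _ => K) z0 f v one_pos continuousOn_const (fun _ _ => hK) hrun
      0 t le_rfl ht.1 ht.2
    have e1 : (∫ r in (0 : ℝ)..t, (C * (‖p.sm.traj z0 f r‖ ^ 2 +
          ‖p.sm.traj z0 f r‖ ^ (10 / 3 : ℝ)) +
            trt p c (B.w r) (B.wx r) (p.sm.traj z0 f r) +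
            2 * |inner ℝ (B.r r) (mulH (wt p.L c) (p.sm.traj z0 f r))|)) =
        ∫ r in (0 : ℝ)..t, (C * (‖z r‖ ^ 2 + ‖z r‖ ^ (10 / 3 : ℝ)) - α * K * θ r) := by
      refine intervalIntegral.integral_congr fun r hr => ?_
      rw [uIcc_of_le ht.1] at hr
      have hr' := hsub ht hr
      have h2 := htrt r hr'
      rw [hz] at h2 ⊢
      simp only at h2 ⊢
      rw [h2, hB5 r hr', inner_zero_left, abs_zero, mul_zero, add_zero]
      ring
    rw [e1, intervalIntegral.integral_sub (hint3 t ht) (hint2 t ht)] at h1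
    have e2 : (∫ r in (0 : ℝ)..t, G r) = (∫ r in (0 : ℝ)..t,
        (m * Vx (v r) + K * c * Dw p.L (z r))) + ∫ r in (0 : ℝ)..t, α * K * θ r := by
      rw [hG]
      exact intervalIntegral.integral_add (hint1 t ht) (hint2 t ht)
    have e3 : (∫ r in (0 : ℝ)..t, (m * Vx (v r) + K * c * Dw p.L (p.sm.traj z0 f r))) =
        ∫ r in (0 : ℝ)..t, (m * Vx (v r) + K * c * Dw p.L (z r)) := by rw [hz]
    have e4 : wn p.L c (p.sm.traj z0 f t) = u t := by rw [hu, hz]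
    have e5 : wn p.L c (p.sm.traj z0 f 0) = u 0 := by rw [hu, hz]
    rw [e3, e4, e5] at h1
    rw [e2]
    linarith
  have hua : u 0 ≤ a := by
    have h1 : z 0 = z0 := by rw [hz]; exact p.sm.traj_zero z0 f
    have h2 : u 0 = wn p.L c (z 0) := by rw [hu]
    rw [h2, h1, ha]
    refine (wn_bounds hL hcc z0).2.1.trans ?_
    exact mul_le_mul_of_nonneg_left (pow_le_pow_left₀ (norm_nonneg _) hz0 2) (by positivity)
  have hcu5 : ContinuousOn (fun r => C * (u r + u r ^ (5 / 3 : ℝ))) (Icc 0 1) :=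
    ContinuousOn.mul continuousOn_const
      (hcu.add (hcu.rpow_const fun _ _ => Or.inr (by norm_num)))
  have hgron := hgr u hcu (fun t _ => hu0 t) (fun t ht => by
    have h1 := hmain t ht
    have h2 : 0 ≤ ∫ r in (0 : ℝ)..t, G r :=
      intervalIntegral.integral_nonneg ht.1 fun r _ => hG0 r
    have h3 : (∫ r in (0 : ℝ)..t, C * (‖z r‖ ^ 2 + ‖z r‖ ^ (10 / 3 : ℝ))) ≤
        ∫ r in (0 : ℝ)..t, C * (u r + u r ^ (5 / 3 : ℝ)) := by
      refine intervalIntegral.integral_mono_on ht.1 (hint3 t ht) ?_ fun r _ => ?_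
      · refine ContinuousOn.intervalIntegrable ?_
        rw [uIcc_of_le ht.1]
        exact hcu5.mono (hsub ht)
      · exact mul_le_mul_of_nonneg_left (add_le_add (hu2 r).1 (hu2 r).2) hC
    linarith)
  -- the bound of the integral of `G`
  have hτm : τ ∈ Icc (0 : ℝ) 1 := ⟨hτ0.le, hτ1⟩
  have hGA : (∫ r in (0 : ℝ)..τ, G r) ≤ A := by
    have h1 := hmain τ hτm
    have h3 : (∫ r in (0 : ℝ)..τ, C * (‖z r‖ ^ 2 + ‖z r‖ ^ (10 / 3 : ℝ))) ≤
        ∫ _r in (0 : ℝ)..τ, C * ((2 * a + 1) + (2 * a + 1) ^ (5 / 3 : ℝ)) := by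
      refine intervalIntegral.integral_mono_on hτ0.le (hint3 τ hτm)
        intervalIntegrable_const fun r hr => ?_
      refine mul_le_mul_of_nonneg_left (add_le_add ((hu2 r).1.trans (hgron r hr)) ?_) hC
      exact (hu2 r).2.trans (Real.rpow_le_rpow (hu0 r) (hgron r hr) (by norm_num))
    rw [intervalIntegral.integral_const, sub_zero, smul_eq_mul] at h3
    have h4 : τ * (C * ((2 * a + 1) + (2 * a + 1) ^ (5 / 3 : ℝ))) ≤
        1 * (C * ((2 * a + 1) + (2 * a + 1) ^ (5 / 3 : ℝ))) :=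
      mul_le_mul_of_nonneg_right hτ1 (by positivity)
    have h5 := hu0 τ
    rw [hA]
    linarith
  -- a good time
  obtain ⟨q, hq⟩ : ∃ q : ℝ → ℝ, q = fun r => (1 / m + 1 / c + 1 / α) * G r + ‖z r‖ ^ 2 :=
    ⟨_, rfl⟩
  have hnz : ContinuousOn (fun r => ‖z r‖ ^ 2) (Icc 0 1) := hcz.norm.pow 2
  have hnzi : IntervalIntegrable (fun r => ‖z r‖ ^ 2) volume 0 τ := by
    refine ContinuousOn.intervalIntegrable ?_
    rw [uIcc_of_le hτ0.le]
    exact hnz.mono (hsub hτm)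
  have hqi : IntervalIntegrable q volume 0 τ := by
    rw [hq]
    exact ((hintG τ hτm).const_mul _).add hnzi
  have hqI : (∫ r in (0 : ℝ)..τ, q r) ≤ (1 / m + 1 / c + 1 / α) * A + (2 * a + 1) := by
    have e1 : (∫ r in (0 : ℝ)..τ, q r) = (1 / m + 1 / c + 1 / α) * (∫ r in (0 : ℝ)..τ, G r) +
        ∫ r in (0 : ℝ)..τ, ‖z r‖ ^ 2 := by
      rw [hq, intervalIntegral.integral_add ((hintG τ hτm).const_mul _) hnzi,
        intervalIntegral.integral_const_mul]
    have h2 : (∫ r in (0 : ℝ)..τ, ‖z r‖ ^ 2) ≤ ∫ _r in (0 : ℝ)..τ, (2 * a + 1) :=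
      intervalIntegral.integral_mono_on hτ0.le hnzi intervalIntegrable_const
        fun r hr => (hu2 r).1.trans (hgron r hr)
    rw [intervalIntegral.integral_const, sub_zero, smul_eq_mul] at h2
    have h3 : τ * (2 * a + 1) ≤ 1 * (2 * a + 1) := mul_le_mul_of_nonneg_right hτ1 h21
    have h4 : (1 / m + 1 / c + 1 / α) * (∫ r in (0 : ℝ)..τ, G r) ≤
        (1 / m + 1 / c + 1 / α) * A := mul_le_mul_of_nonneg_left hGA (by positivity)
    rw [e1]
    linarith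
  have hlift : ∀ᵐ t ∂volume.restrict (Ioc (0 : ℝ) τ), inc 2 p.L (v t) = z t := by
    have h1 := ae_restrict_of_ae_restrict_of_subset (Ioc_subset_Ioc_right hτ1) hrun.path.lift
    filter_upwards [h1] with t ht
    rw [hz]
    exact ht
  have hmem : ∀ᵐ t ∂volume.restrict (Ioc (0 : ℝ) τ), t ∈ Ioc (0 : ℝ) τ :=
    ae_restrict_mem measurableSet_Ioc
  have hnull := (hlift.and hmem)
  rw [ae_iff] at hnull
  have hμ : (volume.restrict (Ioc (0 : ℝ) τ)) ≠ 0 := by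
    intro h0
    have h1 : (volume.restrict (Ioc (0 : ℝ) τ)) (Ioc 0 τ) = 0 := by rw [h0]; rfl
    rw [Measure.restrict_apply_self, Real.volume_Ioc, sub_zero, ENNReal.ofReal_eq_zero] at h1
    linarith
  have hqi' : Integrable q (volume.restrict (Ioc (0 : ℝ) τ)) :=
    (intervalIntegrable_iff_integrableOn_Ioc_of_le hτ0.le).1 hqi
  obtain ⟨t, htn, htq⟩ := exists_notMem_null_le_average hμ hqi' hnull
  rw [mem_ofPred_eq, not_not] at htn
  obtain ⟨htl, ht⟩ := htn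
  have hav : (⨍ r in Ioc (0 : ℝ) τ, q r) ≤ Q := by
    rw [setAverage_eq, measureReal_def, Real.volume_Ioc, sub_zero, ENNReal.toReal_ofReal hτ0.le,
      smul_eq_mul, ← intervalIntegral.integral_of_le hτ0.le, hQ, div_eq_inv_mul]
    exact mul_le_mul_of_nonneg_left hqI (inv_nonneg.2 hτ0.le)
  have ht1 : t ∈ Icc (0 : ℝ) 1 := ⟨ht.1.le, ht.2.trans hτ1⟩
  refine ⟨t, v t, ht.1, ht1.2, ?_, ?_⟩
  · have h1 : Qa p e K (v t) ≤ q t := by
      unfold Qa
      rw [htl, hq]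
      simp only
      have hV := C6_Vx_nonneg (v t)
      have hD := C6_Dw_nonneg p (z t)
      have hθt := hθ0 t
      have hθe : inner ℝ (mulOp (th p.L) (cmp e (z t))) (cmp e (z t)) = θ t := by rw [hθ]
      rw [hθe]
      have hGt : G t = (m * Vx (v t) + K * c * Dw p.L (z t)) + α * K * θ t := by rw [hG]
      have e1 : Vx (v t) ≤ 1 / m * G t := by
        rw [hGt, one_div, le_inv_mul_iff₀ hm]
        have : 0 ≤ K * c * Dw p.L (z t) := by positivity
        have : 0 ≤ α * K * θ t := by positivity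
        linarith
      have e2 : K * Dw p.L (z t) ≤ 1 / c * G t := by
        rw [hGt, one_div, le_inv_mul_iff₀ hcp]
        have : 0 ≤ m * Vx (v t) := by positivity
        have : 0 ≤ α * K * θ t := by positivity
        linarith
      have e3 : K * θ t ≤ 1 / α * G t := by
        rw [hGt, one_div, le_inv_mul_iff₀ hα]
        have : 0 ≤ K * c * Dw p.L (z t) := by positivity
        have : 0 ≤ m * Vx (v t) := by positivity
        linarith
      nlinarith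
    have h2 : Q ≤ (√Q + 1) ^ 2 := by
      have := Real.sq_sqrt hQ0
      nlinarith [Real.sqrt_nonneg Q]
    exact h1.trans (htq.trans (hav.trans h2))
  · have h1 := hrun.adm zero_le_one ht1
    rw [hB4 t ht1, hB3] at h1
    have h2 : inc 2 p.L (v t) = p.sm.traj z0 f t := by rw [htl, hz]
    rw [h2]
    exact h1

end Pool.Agent.KG
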