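import Pool.Agent.Lib.KG.R_C2
import Pool.Agent.Lib.KG.R_C3
import Pool.Agent.Lib.KG.R_C4
import Pool.Agent.Lib.KG.R_C6
import Pool.Agent.Lib.KG.R_C11

/-!
# Row C12: assembly of section 8
-/

set_option autoImplicit false

namespace Pool.Agent.KG

open MeasureTheory Filter Topology Set
open Pool.Agent.Kdv Pool.Agent.KG
open scoped ENNReal ContDiff InnerProductSpace

variable {p : Pr 2} {e e' : Fin 2 → ℝ} {α s : ℝ}

theorem C12_abs_le {e : Fin 2 → ℝ} (h : dot e e = 1) (j : Fin 2) : |e j| ≤ 1 := by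
  have h1 : e 0 * e 0 + e 1 * e 1 = 1 := by simpa [dot, Fin.sum_univ_two] using h
  have h2 : e j * e j ≤ 1 := by
    have h3 := mul_self_nonneg (e 0)
    have h4 := mul_self_nonneg (e 1)
    fin_cases j
    · show e 0 * e 0 ≤ 1
      linarith
    · show e 1 * e 1 ≤ 1
      linarith
  exact abs_le_one_iff_mul_self_le_one.2 h2

theorem C12_bil {g : Fin 2 → Fin 2 → Fin 2 → ℝ} (h : Cub p e e' α s) (c : ℝ) (j : Fin 2) :
    mv p.S e j + bil p.g (fun j => c * e' j) e j = s * e' j := by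
  obtain ⟨-, -, hee'⟩ := h.dots
  rw [h.S j, h.bil_eq]
  have h1 : dot e (fun j => c * e' j) = 0 := by
    have : dot e (fun j => c * e' j) = c * dot e e' := by
      simp only [dot, Finset.mul_sum]
      exact Finset.sum_congr rfl fun j _ => by ring
    rw [this, hee', mul_zero]
  rw [h1]
  ring

theorem attract_cub (h : Cub p e e' α s) : ∀ ε : ℝ, 0 < ε → ∃ T : ℝ, 0 < T ∧ ∀ y0 : HH 2,
    ∃ y1 : HH 2, ‖y1‖ ≤ ε ∧ p.Adm y0 y1 T := by
  intro ε hε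
  obtain ⟨b⟩ := burgers p.L p.hL
  have hL := p.hL
  have hα : 0 < α := h.cube.pos
  obtain ⟨hee, he'e', hee'⟩ := h.dots
  obtain ⟨Cb, hCb, hback⟩ := cube_back h b
  obtain ⟨Cs, hCs, hslow⟩ := slow_down p b h.isDir.dir (abs_nonneg s)
  obtain ⟨Tb, hTb0, hTb1, hcb⟩ := cube_b h
  -- the parameter `x0`
  obtain ⟨x0, hx1, hx2, hx3⟩ : ∃ x0 : ℝ, b.xs ≤ x0 ∧ 2 * (p.L + 4) ≤ x0 ∧ 4 * Cb / ε ≤ x0 :=
    ⟨max (max b.xs (2 * (p.L + 4))) (4 * Cb / ε), (le_max_left _ _).trans (le_max_left _ _),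
      (le_max_right _ _).trans (le_max_left _ _), le_max_right _ _⟩
  have hx0 : 0 < x0 := by linarith
  have hx01 : 1 ≤ x0 := by linarith
  have hx4 : Cb / x0 ≤ ε / 4 := by
    rw [div_le_iff₀ hε] at hx3
    rw [div_le_iff₀ hx0]
    linarith
  -- the final slope
  obtain ⟨ν3, hν3, hν4⟩ : ∃ ν3 : ℝ, 0 < ν3 ∧
      2 * (p.L + 8) * (ν3 * (x0 + p.L + 4)) = ε / 2 := by
    refine ⟨ε / 2 / (2 * (p.L + 8) * (x0 + p.L + 4)), by positivity, ?_⟩
    field_simp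
  obtain ⟨g0, hg0⟩ : ∃ g0 : ℝ, g0 = -(s / α * Real.log (α * ν3)) := ⟨_, rfl⟩
  refine ⟨3 + 2 * (p.L + 10) + 1 / (α * ν3), by positivity, fun y0 => ?_⟩
  obtain ⟨R1, hup⟩ := cube_up h hx2 one_pos g0 ‖y0‖
  obtain ⟨M, hM, hca⟩ := cube_a h (Real.exp (Cs / x0) * (R1 + Cs / x0))
  obtain ⟨K0, hK0, hcb⟩ := hcb (ε / 4) M (by positivity)
  -- the slope `m`
  obtain ⟨m, hm0, hmK, hmν, hmα⟩ : ∃ m : ℝ, 0 < m ∧ K0 ≤ m ∧ ν3 < m ∧ 1 / α < m := by
    have h1 : 0 < 1 / α := by positivity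
    exact ⟨K0 + ν3 + 1 / α, by positivity, by linarith, by linarith, by linarith⟩
  have hαm : 0 < α * m := by positivity
  have hαm1 : 1 < α * m := by
    rw [div_lt_iff₀ hα] at hmα
    linarith
  obtain ⟨t1, ht1⟩ : ∃ t1 : ℝ, t1 = 1 - 1 / (α * m) := ⟨_, rfl⟩
  have h1m : 1 / (α * m) < 1 := by
    rw [div_lt_one hαm]
    exact hαm1
  have h1m0 : 0 < 1 / (α * m) := by positivity
  have ht0 : 0 < t1 := by linarith
  have ht2 : t1 < 1 := by linarith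
  have hmt : (α * (1 - t1))⁻¹ = m := by
    rw [ht1]
    field_simp
    ring
  have hmt' : (1 : ℝ) / (1 - t1) = α * m := by
    rw [ht1]
    field_simp
    ring
  obtain ⟨z1, hz1, hA1⟩ := hup t1 ht0 ht2 y0 le_rfl
  rw [hmt, hmt'] at hA1
  obtain ⟨g1, hg1⟩ : ∃ g1 : ℝ, g1 = g0 + s / α * Real.log (α * m) := ⟨_, rfl⟩
  rw [← hg1] at hA1
  have hσp : 0 ≤ (p.L + 10) / (x0 * (α * m)) := by positivity
  -- slow down
  obtain ⟨z2, hz2, hA2⟩ := hslow x0 hx1 m hm0 (fun j => g1 * e' j) (fun j => by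
    rw [C12_bil (g := p.g) h g1 j, abs_mul]
    exact mul_le_of_le_one_right (abs_nonneg _) (C12_abs_le he'e' j)) z1
  have hz2' : ‖z2‖ ≤ Real.exp (Cs / x0) * (R1 + Cs / x0) :=
    hz2.trans (mul_le_mul_of_nonneg_left (by linarith) (Real.exp_pos _).le)
  have hKm : m ≤ m * (x0 + b.G) := by
    have h2 : 1 ≤ x0 + b.G := by linarith [b.hG]
    nlinarith
  obtain ⟨ta, v, hta0, hta1, hQ, hA3⟩ := hca (m * (x0 + b.G)) g1 (by linarith) z2 hz2'
  obtain ⟨z4, hz4, hA4⟩ := hcb (m * (x0 + b.G)) g1 (by linarith) v hQ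
  -- the padding
  have hσ1 : (p.L + 10) / (x0 * (α * m)) ≤ p.L + 10 := by
    apply div_le_self (by linarith)
    nlinarith
  obtain ⟨pad, hpad⟩ : ∃ pad : ℝ, pad = 3 + 2 * (p.L + 10) + 1 / (α * ν3) -
      (t1 + (p.L + 10) / (x0 * (α * m)) + ta + Tb + (p.L + 10) / (x0 * (α * m)) +
        (1 / (α * ν3) - 1 / (α * m))) := ⟨_, rfl⟩
  have hpad0 : 0 ≤ pad := by
    rw [hpad]
    linarith
  obtain ⟨z5, hz5, hA5⟩ := wait p hpad0 (fun j => -(m * (x0 + b.G)) * e j + g1 * e' j) z4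
  obtain ⟨z6, hz6, hA6⟩ := hback x0 hx1 m g1 hm0 z5
  obtain ⟨z7, hz7, hA7⟩ := cube_rare h (x0 := x0) hν3 hmν g1 z6
  have hτ0 : 0 ≤ 1 / (α * ν3) - 1 / (α * m) := by
    have h2 : 1 / (α * m) ≤ 1 / (α * ν3) :=
      one_div_le_one_div_of_le (by positivity) (by nlinarith)
    linarith
  have hlog : g1 - s / α * Real.log (m / ν3) = 0 := by
    rw [hg1, hg0, Real.log_div hm0.ne' hν3.ne', Real.log_mul hα.ne' hν3.ne',
      Real.log_mul hα.ne' hm0.ne']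
    ring
  rw [hlog] at hA7
  refine ⟨bg 2 p.L (fun x j => -(ν3 * (x0 + p.L - x)) * e j + 0 * e' j) + z7, ?_, ?_⟩
  rotate_left
  · have hB1 := Adm.trans ht0.le hσp hA1 hA2
    have hB2 := Adm.trans (by positivity) hta0.le hB1 hA3
    have hB3 := Adm.trans (by positivity) hTb0.le hB2 hA4
    have hB4 := Adm.trans (by positivity) hpad0 hB3 hA5
    have hB5 := Adm.trans (by positivity) hσp hB4 hA6
    have hB6 := Adm.trans (by positivity) hτ0 hB5 hA7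
    have hT : t1 + (p.L + 10) / (x0 * (α * m)) + ta + Tb + pad + (p.L + 10) / (x0 * (α * m)) +
        (1 / (α * ν3) - 1 / (α * m)) = 3 + 2 * (p.L + 10) + 1 / (α * ν3) := by
      rw [hpad]
      ring
    rw [hT] at hB6
    exact hB6
  · have hb : ‖bg 2 p.L (fun x j => -(ν3 * (x0 + p.L - x)) * e j + 0 * e' j)‖ ≤
        (2 : ℕ) * (p.L + 8) * (ν3 * (x0 + p.L + 4)) := by
      refine bg_norm hL (fun j => by fun_prop) (by positivity) fun x hx j => ?_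
      have h3 : 0 ≤ ν3 * (x0 + p.L - x) := mul_nonneg hν3.le (by linarith [hx.2])
      rw [zero_mul, add_zero, neg_mul, abs_neg, abs_mul, abs_of_nonneg h3]
      calc ν3 * (x0 + p.L - x) * |e j| ≤ ν3 * (x0 + p.L - x) * 1 :=
            mul_le_mul_of_nonneg_left (C12_abs_le hee j) h3
        _ ≤ ν3 * (x0 + p.L + 4) := by
            rw [mul_one]
            exact mul_le_mul_of_nonneg_left (by linarith [hx.1]) hν3.le
    have hb' : ((2 : ℕ) : ℝ) * (p.L + 8) * (ν3 * (x0 + p.L + 4)) = ε / 2 := by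
      rw [← hν4]
      norm_num
    calc ‖bg 2 p.L (fun x j => -(ν3 * (x0 + p.L - x)) * e j + 0 * e' j) + z7‖ ≤ ‖bg 2 p.L (fun x j => -(ν3 * (x0 + p.L - x)) * e j + 0 * e' j)‖ + ‖z7‖ :=
          norm_add_le _ _
      _ ≤ ε / 2 + (ε / 4 + ε / 4) := add_le_add (hb.trans hb'.le) (by linarith)
      _ = ε := by ring

/-- The cube. -/
theorem attract_cube (p : Pr 2) {e : Fin 2 → ℝ} {α : ℝ} (he : Cube p.g e α)
    (hS : dot e (mv p.S e) = 0) : ∀ ε : ℝ, 0 < ε → ∃ T : ℝ, 0 < T ∧ ∀ y0 : HH 2,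
    ∃ y1 : HH 2, ‖y1‖ ≤ ε ∧ p.Adm y0 y1 T := by
  have h1 : e 0 * e 0 + e 1 * e 1 = 1 := by
    simpa [dot, Fin.sum_univ_two] using he.unit
  have h2 : e 0 * mv p.S e 0 + e 1 * mv p.S e 1 = 0 := by
    simpa [dot, Fin.sum_univ_two] using hS
  have h : Cub p e ![-e 1, e 0] α (-e 1 * mv p.S e 0 + e 0 * mv p.S e 1) := by
    refine ⟨he, rfl, rfl, fun j => ?_⟩
    fin_cases j
    · show mv p.S e 0 = (-e 1 * mv p.S e 0 + e 0 * mv p.S e 1) * -e 1
      linear_combination (-(mv p.S e 0)) * h1 + e 0 * h2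
    · show mv p.S e 1 = (-e 1 * mv p.S e 0 + e 0 * mv p.S e 1) * e 0
      linear_combination (-(mv p.S e 1)) * h1 + e 1 * h2
  exact attract_cub h

end Pool.Agent.KG
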