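import Pool.Agent.Lib.KG.R_X2
import Pool.Agent.Lib.KG.R_C12

/-!
# The flush and the cube: `explode_flush` (in `R_X2`) and `attract_cube` (in `R_C12`)
-/
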