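import Pool.Agent.Lib.KG.Trans
import Pool.Agent.Lib.KG.ES

/-!
# Attraction for non-cubes, and global control on the line
-/

set_option autoImplicit false

namespace Pool.Agent.KG

open MeasureTheory Filter Topology Set
open Pool.Agent.Kdv
open scoped ENNReal ContDiff InnerProductSpace

theorem AttrN_exp {a : ℝ} (ha : a ≤ 1) : Real.exp a ≤ 3 :=
  (Real.exp_le_exp.mpr ha).trans (by linarith [Real.exp_one_lt_d9])

theorem AttrN_abs {e : Fin 2 → ℝ} (h : dot e e = 1) (j : Fin 2) : |e j| ≤ 1 := by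
  rw [← sq_le_one_iff_abs_le_one]
  unfold dot at h
  rw [Fin.sum_univ_two] at h
  fin_cases j
  · change e 0 ^ 2 ≤ 1
    nlinarith [mul_self_nonneg (e 1)]
  · change e 1 ^ 2 ≤ 1
    nlinarith [mul_self_nonneg (e 0)]

/-- The arithmetic of the chain. -/
theorem AttrN_chain {C1 C2 C3 x0 T δ η a1 a2 a3 a4 : ℝ} (hC1 : 0 < C1) (hC2 : 0 < C2)
    (hC3 : 0 < C3) (hη : 0 < η) (hx1 : C1 ≤ x0) (hx2 : C2 ≤ x0) (hx3 : 36 * C3 * C1 / η ≤ x0)
    (hx4 : 12 * C2 / η ≤ x0) (hT : 12 * C3 ^ 2 / η ≤ T) (hT0 : 0 < T) (hδ : δ = η / (36 * C3))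
    (h1 : a1 ≤ δ) (h0 : 0 ≤ a1)
    (h2 : a2 ≤ Real.exp (C1 / x0) * (a1 + C1 / x0)) (h3 : a3 ≤ C3 * (a2 + C3 / T))
    (h4 : a4 ≤ Real.exp (C2 / x0) * (a3 + C2 / x0)) (h30 : 0 ≤ a3) : a4 ≤ η := by
  have hx0 : 0 < x0 := hC1.trans_le hx1
  have e1 : Real.exp (C1 / x0) ≤ 3 := AttrN_exp ((div_le_one hx0).mpr hx1)
  have e2 : Real.exp (C2 / x0) ≤ 3 := AttrN_exp ((div_le_one hx0).mpr hx2)
  have f1 : C1 / x0 ≤ η / (36 * C3) := by
    rw [div_le_div_iff₀ hx0 (by positivity)]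
    have := (div_le_iff₀ hη).mp hx3
    linarith
  have f2 : C2 / x0 ≤ η / 12 := by
    rw [div_le_div_iff₀ hx0 (by positivity)]
    have := (div_le_iff₀ hη).mp hx4
    linarith
  have f3 : C3 / T ≤ η / (12 * C3) := by
    rw [div_le_div_iff₀ hT0 (by positivity)]
    have := (div_le_iff₀ hη).mp hT
    nlinarith
  have g2 : a2 ≤ 3 * (η / (36 * C3) + η / (36 * C3)) := by
    refine h2.trans ?_
    refine mul_le_mul e1 (add_le_add (h1.trans hδ.le) f1) (by positivity) (by norm_num)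
  have g3 : a3 ≤ η / 4 := by
    have h5 : C3 * (a2 + C3 / T) ≤ C3 * (3 * (η / (36 * C3) + η / (36 * C3)) + η / (12 * C3)) :=
      mul_le_mul_of_nonneg_left (add_le_add g2 f3) hC3.le
    have h6 : C3 * (3 * (η / (36 * C3) + η / (36 * C3)) + η / (12 * C3)) = η / 4 := by
      field_simp
      ring
    linarith
  have g4 : a4 ≤ 3 * (η / 4 + η / 12) := by
    refine h4.trans ?_
    refine mul_le_mul e2 (add_le_add g3 f2) (by positivity) (by norm_num)
  linarith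

theorem attract_nc (p : Pr 2) {e e' : Fin 2 → ℝ} {α α' : ℝ} (he : Dir p.g e α)
    (he' : Dir p.g e' α')
    (hd : ∀ v ∈ Icc (0 : ℝ) 1, det2 (Hm p.g fun j => -(1 - v) * e j + v * e' j) < 0)
    (hS : ∀ j, mv p.S e' j = 0) : ∀ ε : ℝ, 0 < ε → ∃ T : ℝ, 0 < T ∧ ∀ y0 : HH 2,
    ∃ y1 : HH 2, ‖y1‖ ≤ ε ∧ p.Adm y0 y1 T := by
  intro ε hε
  have hL := p.hL
  have hα := he.pos
  have hα' := he'.pos
  have hde : det2 (Hm p.g e) < 0 := by
    have h1 := hd 0 ⟨le_rfl, zero_le_one⟩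
    have h2 : det2 (Hm p.g e) = det2 (Hm p.g fun j => -(1 - 0) * e j + 0 * e' j) := by
      unfold det2 Hm
      simp only [Fin.sum_univ_two]
      ring
    rw [h2]
    exact h1
  obtain ⟨Xc, hXc⟩ := exists_solve p.sym hde.ne (fun j => -mv p.S e j)
  have hXc' : ∀ j, bil p.g Xc e j = -mv p.S e j := fun j => by rw [bil_symm p.sym, hXc j]
  obtain ⟨b⟩ := burgers p.L p.hL
  obtain ⟨xs1, hxs1, hexp⟩ := explode_flush p he hde hXc'
  obtain ⟨C1, hC1, hslow⟩ := slow_down p b he (Cz := 0) le_rfl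
  obtain ⟨C3, K3, hC3, hK3, hpath⟩ := slow_path p (e := e) (e' := e') (Xc := Xc) hd
  obtain ⟨C2, hC2, hspeed⟩ := speed_up p b he' hS
  obtain ⟨C4, hC4, hrare⟩ := rarefaction p he' hS
  obtain ⟨M4, hM4⟩ : ∃ M4, M4 = Real.exp (8 * (p.L + 8) * C4 / ε) := ⟨_, rfl⟩
  have hM4p : 0 < M4 := by rw [hM4]; exact Real.exp_pos _
  obtain ⟨η, hη⟩ : ∃ η, η = min (ε / 2) (1 / 2) / (2 * M4) := ⟨_, rfl⟩
  have hη0 : 0 < η := by rw [hη]; positivity
  have hη1 : 2 * M4 * η ≤ ε / 2 := by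
    rw [hη, mul_div_cancel₀ _ (by positivity)]
    exact min_le_left _ _
  have hη2 : 2 * M4 * η ≤ 1 / 2 := by
    rw [hη, mul_div_cancel₀ _ (by positivity)]
    exact min_le_right _ _
  obtain ⟨x0, hx0⟩ : ∃ x0, x0 = xs1 + b.xs + C4 + (p.L + 4) + C1 + C2 + 36 * C3 * C1 / η +
    12 * C2 / η := ⟨_, rfl⟩
  have hbx := b.hxs
  have p1 : 0 < 36 * C3 * C1 / η := by positivity
  have p2 : 0 < 12 * C2 / η := by positivity
  have hx0p : 0 < x0 := by rw [hx0]; positivity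
  have hx01 : 1 ≤ x0 := by linarith
  have hxb : b.xs ≤ x0 := by linarith
  obtain ⟨ν, hν⟩ : ∃ ν, ν = ε / (8 * (p.L + 8) * x0) := ⟨_, rfl⟩
  have hν0 : 0 < ν := by rw [hν]; positivity
  have hexpν : Real.exp (C4 / (x0 * ν)) = M4 := by
    rw [hM4]
    congr 1
    rw [hν]
    field_simp
  obtain ⟨T, hT⟩ : ∃ T, T = 1 + 12 * C3 ^ 2 / η := ⟨_, rfl⟩
  have p3 : 0 < 12 * C3 ^ 2 / η := by positivity
  have hT1 : 1 ≤ T := by linarith
  obtain ⟨K0, hK0⟩ : ∃ K0, K0 = 1 / α + K3 + ν + 1 := ⟨_, rfl⟩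
  have p4 : 0 < 1 / α := by positivity
  obtain ⟨Tm, hTm⟩ : ∃ Tm, Tm = 1 + (p.L + 10) / (x0 * α) + T + (p.L + 10) / (x0 * α') +
    1 / (α' * ν) := ⟨_, rfl⟩
  refine ⟨Tm, by rw [hTm]; positivity, fun y0 => ?_⟩
  obtain ⟨m, z1, hm, hz1, A1⟩ := hexp x0 (by linarith) ‖y0‖ (η / (36 * C3)) K0 (by positivity)
    (by linarith) y0 le_rfl
  have hm1 : 1 ≤ m := by linarith
  have hm0 : 0 < m := by linarith
  have hmα : 1 / α ≤ m := by linarith
  obtain ⟨z2, hz2, A2⟩ := hslow x0 hxb m hm0 Xc (fun j => by rw [hXc' j]; simp) z1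
  obtain ⟨K, hK⟩ : ∃ K, K = m * (x0 + b.G) := ⟨_, rfl⟩
  have hKK : K3 ≤ K := by
    rw [hK]
    have : m * 1 ≤ m * (x0 + b.G) :=
      mul_le_mul_of_nonneg_left (by linarith [b.hG]) hm0.le
    linarith
  obtain ⟨z3, hz3, A3⟩ := hpath K hKK T hT1 z2
  -- the times
  obtain ⟨t1, ht1⟩ : ∃ t, t = 1 - 1 / (α * m) := ⟨_, rfl⟩
  obtain ⟨t2, ht2⟩ : ∃ t, t = (p.L + 10) / (x0 * (α * m)) := ⟨_, rfl⟩
  obtain ⟨t4, ht4⟩ : ∃ t, t = (p.L + 10) / (x0 * (α' * m)) := ⟨_, rfl⟩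
  obtain ⟨t5, ht5⟩ : ∃ t, t = 1 / (α' * ν) - 1 / (α' * m) := ⟨_, rfl⟩
  have hνm : ν < m := by linarith
  have q1 : 0 ≤ t1 ∧ t1 ≤ 1 := by
    rw [ht1]
    have h1 : 1 / (α * m) ≤ 1 := by
      rw [div_le_one (by positivity)]
      have := (div_le_iff₀ hα).mp hmα
      linarith
    have h2 : 0 < 1 / (α * m) := by positivity
    constructor <;> linarith
  have q2 : 0 ≤ t2 ∧ t2 ≤ (p.L + 10) / (x0 * α) := by
    rw [ht2]
    refine ⟨by positivity, ?_⟩
    refine div_le_div_of_nonneg_left (by positivity) (by positivity) ?_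
    exact mul_le_mul_of_nonneg_left (le_mul_of_one_le_right hα.le hm1) hx0p.le
  have q4 : 0 ≤ t4 ∧ t4 ≤ (p.L + 10) / (x0 * α') := by
    rw [ht4]
    refine ⟨by positivity, ?_⟩
    refine div_le_div_of_nonneg_left (by positivity) (by positivity) ?_
    exact mul_le_mul_of_nonneg_left (le_mul_of_one_le_right hα'.le hm1) hx0p.le
  have q5 : 0 ≤ t5 ∧ t5 ≤ 1 / (α' * ν) := by
    rw [ht5]
    have h1 : 1 / (α' * m) ≤ 1 / (α' * ν) :=
      one_div_le_one_div_of_le (by positivity) (mul_le_mul_of_nonneg_left hνm.le hα'.le)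
    have h2 : 0 < 1 / (α' * m) := by positivity
    constructor <;> linarith
  obtain ⟨tw, htw⟩ : ∃ t, t = Tm - (t1 + t2 + T + t4 + t5) := ⟨_, rfl⟩
  have htw0 : 0 ≤ tw := by
    rw [htw, hTm]
    linarith [q1.2, q2.2, q4.2, q5.2]
  obtain ⟨z3', hz3', Aw⟩ := wait p htw0 (fun j => K * e' j) z3
  obtain ⟨z4, hz4, A4⟩ := hspeed x0 hxb m hm0 z3'
  have hz4η : ‖z4‖ ≤ η := by
    refine AttrN_chain (a1 := ‖z1‖) (a2 := ‖z2‖) (a3 := ‖z3'‖) (C1 := C1) (C2 := C2) (C3 := C3)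
      (x0 := x0) (T := T) hC1 hC2 hC3 hη0 (by linarith) (by linarith) (by linarith) (by linarith)
      (by linarith) (by linarith) rfl hz1 (norm_nonneg _) hz2 (hz3'.trans hz3) hz4
      (norm_nonneg _)
  have h5 : 2 * M4 * ‖z4‖ ≤ 2 * M4 * η := mul_le_mul_of_nonneg_left hz4η (by positivity)
  obtain ⟨z5, hz5, A5⟩ := hrare x0 (by linarith) ν m hν0 hνm z4
    (by rw [hexpν]; exact h5.trans hη2)
  rw [hexpν] at hz5
  refine ⟨bg 2 p.L (fun x j => ν * (x0 + x) * e' j) + z5, ?_, ?_⟩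
  rotate_left
  · have B5 := Adm.trans q4.1 q5.1 (by rw [← ht4] at A4; exact A4) (by rw [← ht5] at A5; exact A5)
    rw [← hK] at B5
    have n1 : 0 ≤ t4 + t5 := add_nonneg q4.1 q5.1
    have Bw := Adm.trans htw0 n1 Aw B5
    have hT0 : (0 : ℝ) ≤ T := by linarith
    have n2 : 0 ≤ tw + (t4 + t5) := add_nonneg htw0 n1
    have B3 := Adm.trans hT0 n2 A3 Bw
    rw [← ht2, ← hK] at A2
    have n3 : 0 ≤ T + (tw + (t4 + t5)) := add_nonneg hT0 n2
    have B2 := Adm.trans q2.1 n3 A2 B3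
    rw [← ht1] at A1
    have B1 := Adm.trans q1.1 (add_nonneg q2.1 n3) A1 B2
    have : t1 + (t2 + (T + (tw + (t4 + t5)))) = Tm := by rw [htw]; ring
    rw [this] at B1
    exact B1
  · refine (norm_add_le _ _).trans ?_
    have h6 : ‖bg 2 p.L (fun x j => ν * (x0 + x) * e' j)‖ ≤
        (2 : ℕ) * (p.L + 8) * (ν * (2 * x0)) := by
      refine bg_norm p.hL (fun j => by fun_prop) (by positivity) fun x hx j => ?_
      rw [abs_mul, abs_mul, abs_of_pos hν0]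
      have h7 : |x0 + x| ≤ 2 * x0 := by
        rw [abs_le]
        constructor <;> linarith [hx.1, hx.2]
      calc ν * |x0 + x| * |e' j| ≤ ν * |x0 + x| * 1 :=
            mul_le_mul_of_nonneg_left (AttrN_abs he'.unit j) (by positivity)
        _ ≤ ν * (2 * x0) := by
            rw [mul_one]
            exact mul_le_mul_of_nonneg_left h7 hν0.le
    have h8 : ((2 : ℕ) : ℝ) * (p.L + 8) * (ν * (2 * x0)) = ε / 2 := by
      rw [hν]
      push_cast
      field_simp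
      ring
    rw [h8] at h6
    linarith [h5.trans hη1]

theorem global_shift (p : Pr 2) (X : Fin 2 → ℝ)
    (h : ∃ T0 : ℝ, 0 < T0 ∧ ∀ T : ℝ, T0 ≤ T → ∀ y0 y1 : HH 2, (p.shift X).Adm y0 y1 T) :
    ∃ T0 : ℝ, 0 < T0 ∧ ∀ T : ℝ, T0 ≤ T → ∀ y0 y1 : HH 2, p.Adm y0 y1 T := by
  obtain ⟨T0, hT0, h⟩ := h
  refine ⟨T0, hT0, fun T hT y0 y1 => ?_⟩
  have := Adm.shift (hT0.trans_le hT)
    (h T hT (y0 - bg 2 p.L fun _ => X) (y1 - bg 2 p.L fun _ => X))
  rwa [add_sub_cancel, add_sub_cancel] at this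

theorem AttrN_det2 (g : Fin 2 → Fin 2 → Fin 2 → ℝ) (X : Fin 2 → ℝ) (r : ℝ) :
    det2 (Hm g fun j => r * X j) = r ^ 2 * det2 (Hm g X) := by
  unfold det2 Hm
  simp only [Fin.sum_univ_two]
  ring

theorem global_all (p : Pr 2) (h0 : ∀ X, det2 (Hm p.g X) ≤ 0) (hg : ∃ j k l, p.g j k l ≠ 0) :
    ∃ T0 : ℝ, 0 < T0 ∧ ∀ T : ℝ, T0 ≤ T → ∀ y0 y1 : HH 2, p.Adm y0 y1 T := by
  by_cases h1 : ∃ X, det2 (Hm p.g X) < 0
  · obtain ⟨e, e', α, α', he, he', hd⟩ := exists_dirs p.sym h0 h1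
    have hde' : det2 (Hm p.g e') < 0 := by
      have := hd 1 ⟨zero_le_one, le_rfl⟩
      simpa using this
    obtain ⟨X, hX⟩ := exists_solve p.sym hde'.ne (fun j => -mv p.S e' j)
    refine global_shift p X (global_of_attract (p.shift X) ?_)
    refine attract_nc (p.shift X) (e := e) (e' := e') he he' hd fun j => ?_
    have h2 : mv (p.shift X).S e' j = mv p.S e' j + mv (Hm p.g X) e' j := by
      unfold mv Pr.shift
      simp only [add_mul, Finset.sum_add_distrib]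
    rw [h2, mv_Hm p.sym, bil_symm p.sym, hX j]
    ring
  · push Not at h1
    obtain ⟨e, α, he⟩ := exists_cube p.sym (fun X => le_antisymm (h0 X) (h1 X)) hg
    obtain ⟨X, hX⟩ : ∃ X : Fin 2 → ℝ, X = fun j => -(dot e (mv p.S e) / α) * e j := ⟨_, rfl⟩
    refine global_shift p X (global_of_attract (p.shift X) ?_)
    have he' : Cube (p.shift X).g e α := he
    refine attract_cube (p.shift X) he' ?_
    have hu := he.unit
    have hα := he.pos.ne'
    have h2 : ∀ j, mv (p.shift X).S e j = mv p.S e j + α * dot e X * e j := by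
      intro j
      have h3 : mv (p.shift X).S e j = mv p.S e j + mv (Hm p.g X) e j := by
        unfold mv Pr.shift
        simp only [add_mul, Finset.sum_add_distrib]
      rw [h3]
      congr 1
      have h4 : mv (Hm p.g X) e j = α * dot e X * e j * dot e e := by
        unfold mv Hm dot
        simp only [he.eq, Fin.sum_univ_two]
        ring
      rw [h4, hu]
      ring
    have h5 : dot e (mv (p.shift X).S e) = dot e (mv p.S e) + α * dot e X * dot e e := by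
      unfold dot
      simp only [h2, Fin.sum_univ_two]
      unfold dot
      simp only [Fin.sum_univ_two]
      ring
    have h6 : dot e X = -(dot e (mv p.S e) / α) * dot e e := by
      rw [hX]
      unfold dot
      simp only [Fin.sum_univ_two]
      ring
    rw [h5, h6, hu]
    field_simp
    ring

end Pool.Agent.KG
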