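import Mathlib

/-!
# Row BU1: the profile
-/

set_option autoImplicit false

namespace Pool.Agent.KG

open Set Filter Topology
open scoped ContDiff

/-! ## Row BU1: the profile -/

theorem exists_profile (a : ℝ) (ha : 0 < a) : ∃ (g1 : ℝ → ℝ) (G : ℝ), ContDiff ℝ ∞ g1 ∧ 0 ≤ G ∧
    (∀ x, x ≤ a → g1 x = x) ∧ (∀ x, a + 2 ≤ x → g1 x = G) ∧
    (∀ x, 0 ≤ deriv g1 x ∧ deriv g1 x ≤ 1) := by
  set φ : ℝ → ℝ := fun t => Real.smoothTransition (a + 2 - t) with hφ
  have hφc : ContDiff ℝ ∞ φ := by
    have h1 : ContDiff ℝ ∞ (fun t : ℝ => a + 2 - t) := contDiff_const.sub contDiff_id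
    exact Real.smoothTransition.contDiff.comp h1
  have hcont : Continuous φ := hφc.continuous
  have h0 : ∀ t, 0 ≤ φ t := fun t => Real.smoothTransition.nonneg _
  have h1 : ∀ t, φ t ≤ 1 := fun t => Real.smoothTransition.le_one _
  have hone : ∀ t, t ≤ a → φ t = 1 := fun t ht =>
    Real.smoothTransition.one_of_one_le (by linarith)
  have hzero : ∀ t, a + 2 ≤ t → φ t = 0 := fun t ht =>
    Real.smoothTransition.zero_of_nonpos (by linarith)
  have hder : ∀ x, HasDerivAt (fun x => ∫ t in (0 : ℝ)..x, φ t) (φ x) x := fun x =>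
    intervalIntegral.integral_hasDerivAt_right (hcont.intervalIntegrable _ _)
      (hcont.stronglyMeasurableAtFilter _ _) hcont.continuousAt
  have hderiv : deriv (fun x => ∫ t in (0 : ℝ)..x, φ t) = φ := funext fun x => (hder x).deriv
  refine ⟨fun x => ∫ t in (0 : ℝ)..x, φ t, ∫ t in (0 : ℝ)..(a + 2), φ t, ?_, ?_, ?_, ?_, ?_⟩
  · rw [contDiff_infty_iff_deriv]
    refine ⟨fun x => (hder x).differentiableAt, ?_⟩
    rw [hderiv]
    exact hφc
  · exact intervalIntegral.integral_nonneg (by linarith) fun t _ => h0 t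
  · intro x hx
    have : ∫ t in (0 : ℝ)..x, φ t = ∫ t in (0 : ℝ)..x, (1 : ℝ) := by
      refine intervalIntegral.integral_congr fun t ht => ?_
      rw [mem_uIcc] at ht
      refine hone t ?_
      rcases ht with ht | ht
      · exact ht.2.trans hx
      · exact ht.2.trans ha.le
    show ∫ t in (0 : ℝ)..x, φ t = x
    rw [this, intervalIntegral.integral_const, sub_zero, smul_eq_mul, mul_one]
  · intro x hx
    have h2 : ∫ t in (a + 2)..x, φ t = 0 := by
      have : ∫ t in (a + 2)..x, φ t = ∫ t in (a + 2)..x, (0 : ℝ) := by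
        refine intervalIntegral.integral_congr fun t ht => ?_
        rw [uIcc_of_le hx] at ht
        exact hzero t ht.1
      rw [this, intervalIntegral.integral_zero]
    have h3 := intervalIntegral.integral_add_adjacent_intervals
      (hcont.intervalIntegrable (μ := MeasureTheory.volume) 0 (a + 2))
      (hcont.intervalIntegrable (μ := MeasureTheory.volume) (a + 2) x)
    show ∫ t in (0 : ℝ)..x, φ t = _
    rw [← h3, h2, add_zero]
  · intro x
    rw [hderiv]
    exact ⟨h0 x, h1 x⟩

end Pool.Agent.KG
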