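import Mathlib

/-!
# Row BU2: the inverse function
-/

set_option autoImplicit false

namespace Pool.Agent.KG

open Set Filter Topology
open scoped ContDiff

/-! ## Row BU2: the inverse function, smooth in both variables

Only `s` in `[-1/4, 1/2]` matters: replace `s` by `η s` with `η` smooth, `|η| ≤ 3/4`, `η s = s` for
`s ∈ [-1/4, 5/8]`; the map `Z ↦ Z - η(s) g1 Z` is then a strictly increasing bijection with
derivative at least `1/4`. Smoothness: inverse function theorem for
`(s, Z) ↦ (s, Z - η s * g1 Z)`. -/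

private theorem BU2_eta : ∃ η : ℝ → ℝ, ContDiff ℝ ∞ η ∧ (∀ s, |η s| ≤ 3 / 4) ∧
    ∀ s ∈ Icc (-(1 / 4) : ℝ) (5 / 8), η s = s := by
  refine ⟨fun s => s * (Real.smoothTransition (8 * (3 / 4 - s)) *
    Real.smoothTransition (2 * (s + 3 / 4))), ?_, ?_, ?_⟩
  · refine contDiff_id.mul (ContDiff.mul ?_ ?_)
    · exact Real.smoothTransition.contDiff.comp
        (contDiff_const.mul (contDiff_const.sub contDiff_id))
    · exact Real.smoothTransition.contDiff.comp
        (contDiff_const.mul (contDiff_id.add contDiff_const))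
  · intro s
    show |s * (Real.smoothTransition (8 * (3 / 4 - s)) *
      Real.smoothTransition (2 * (s + 3 / 4)))| ≤ 3 / 4
    have h1 := Real.smoothTransition.nonneg (8 * (3 / 4 - s))
    have h2 := Real.smoothTransition.nonneg (2 * (s + 3 / 4))
    have h3 := Real.smoothTransition.le_one (8 * (3 / 4 - s))
    have h4 := Real.smoothTransition.le_one (2 * (s + 3 / 4))
    by_cases h5 : 3 / 4 ≤ s
    · rw [Real.smoothTransition.zero_of_nonpos (by linarith : 8 * (3 / 4 - s) ≤ 0)]
      norm_num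
    · by_cases h6 : s ≤ -(3 / 4)
      · rw [Real.smoothTransition.zero_of_nonpos (by linarith : 2 * (s + 3 / 4) ≤ 0)]
        norm_num
      · have h7 : |s| ≤ 3 / 4 := abs_le.2 ⟨by linarith, by linarith⟩
        have h8 : 0 ≤ Real.smoothTransition (8 * (3 / 4 - s)) *
            Real.smoothTransition (2 * (s + 3 / 4)) := mul_nonneg h1 h2
        have h9 : Real.smoothTransition (8 * (3 / 4 - s)) *
            Real.smoothTransition (2 * (s + 3 / 4)) ≤ 1 := mul_le_one₀ h3 h2 h4
        rw [abs_mul, abs_of_nonneg h8]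
        calc |s| * (Real.smoothTransition (8 * (3 / 4 - s)) *
            Real.smoothTransition (2 * (s + 3 / 4))) ≤ |s| * 1 :=
              mul_le_mul_of_nonneg_left h9 (abs_nonneg s)
          _ ≤ 3 / 4 := by rw [mul_one]; exact h7
  · intro s hs
    have h1 : Real.smoothTransition (8 * (3 / 4 - s)) = 1 :=
      Real.smoothTransition.one_of_one_le (by linarith [hs.2])
    have h2 : Real.smoothTransition (2 * (s + 3 / 4)) = 1 :=
      Real.smoothTransition.one_of_one_le (by linarith [hs.1])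
    show s * (Real.smoothTransition (8 * (3 / 4 - s)) *
      Real.smoothTransition (2 * (s + 3 / 4))) = s
    rw [h1, h2]
    ring

/-- the shear-like linear equivalence -/
private noncomputable def BU2_equiv (c d : ℝ) (hd : d ≠ 0) : (ℝ × ℝ) ≃L[ℝ] (ℝ × ℝ) :=
  ContinuousLinearEquiv.equivOfInverse
    ((ContinuousLinearMap.fst ℝ ℝ ℝ).prod
      (c • ContinuousLinearMap.fst ℝ ℝ ℝ + d • ContinuousLinearMap.snd ℝ ℝ ℝ))
    ((ContinuousLinearMap.fst ℝ ℝ ℝ).prod
      (-(d⁻¹ * c) • ContinuousLinearMap.fst ℝ ℝ ℝ + d⁻¹ • ContinuousLinearMap.snd ℝ ℝ ℝ))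
    (fun q => by
      ext
      · simp
      · simp
        field_simp
        ring)
    (fun q => by
      ext
      · simp
      · simp
        field_simp
        ring)

theorem exists_inv {g1 : ℝ → ℝ} (h : ContDiff ℝ ∞ g1)
    (hd : ∀ x, 0 ≤ deriv g1 x ∧ deriv g1 x ≤ 1) : ∃ (Z : ℝ → ℝ → ℝ),
    ContDiff ℝ ∞ (fun q : ℝ × ℝ => Z q.1 q.2) ∧
    (∀ s ∈ Icc (-(1 / 4) : ℝ) (5 / 8), ∀ u, Z s u - s * g1 (Z s u) = u) ∧
    (∀ s ∈ Icc (-(1 / 4) : ℝ) (5 / 8), ∀ z, Z s (z - s * g1 z) = z) := by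
  obtain ⟨η, hη1, hη2, hη3⟩ := BU2_eta
  have hg : Differentiable ℝ g1 := h.differentiable (by simp)
  have hηd : Differentiable ℝ η := hη1.differentiable (by simp)
  have hpos : ∀ s z, 1 / 4 ≤ 1 - η s * deriv g1 z := by
    intro s z
    have h1 := abs_le.1 (hη2 s)
    have h2 := hd z
    nlinarith [mul_nonneg h2.1 (sub_nonneg.2 h1.2), h2.2]
  have hder : ∀ s z, HasDerivAt (fun z => z - η s * g1 z) (1 - η s * deriv g1 z) z := by
    intro s z
    exact (hasDerivAt_id z).sub ((hg z).hasDerivAt.const_mul (η s))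
  have hmono : ∀ s, StrictMono (fun z => z - η s * g1 z) := by
    intro s
    refine strictMono_of_deriv_pos fun z => ?_
    rw [(hder s z).deriv]
    linarith [hpos s z]
  have hcont : ∀ s, Continuous (fun z => z - η s * g1 z) := fun s =>
    continuous_id.sub (continuous_const.mul hg.continuous)
  have hgrow : ∀ s z z', z ≤ z' → 1 / 4 * (z' - z) ≤ (z' - η s * g1 z') - (z - η s * g1 z) := by
    intro s z z' hz
    exact mul_sub_le_image_sub_of_le_deriv (f := fun z => z - η s * g1 z)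
      (fun x => (hder s x).differentiableAt) (fun x => by
        rw [(hder s x).deriv]
        exact hpos s x) hz
  have hsurj : ∀ s, Function.Surjective (fun z => z - η s * g1 z) := by
    intro s
    refine (hcont s).surjective ?_ ?_
    · refine tendsto_atTop.2 fun b => ?_
      filter_upwards [eventually_ge_atTop (0 : ℝ),
        eventually_ge_atTop (4 * (b - (0 - η s * g1 0)))] with z h1 h2
      have := hgrow s 0 z h1
      linarith
    · refine tendsto_atBot.2 fun b => ?_
      filter_upwards [eventually_le_atBot (0 : ℝ),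
        eventually_le_atBot (4 * (b - (0 - η s * g1 0)))] with z h1 h2
      have := hgrow s z 0 h1
      linarith
  let Φ : ℝ × ℝ → ℝ × ℝ := fun q => (q.1, q.2 - η q.1 * g1 q.2)
  have hΦs : ContDiff ℝ ∞ Φ := by
    refine contDiff_fst.prodMk (contDiff_snd.sub ?_)
    exact (hη1.comp contDiff_fst).mul (h.comp contDiff_snd)
  have hΦd : ∀ q : ℝ × ℝ, HasFDerivAt Φ
      (BU2_equiv (-(deriv η q.1 * g1 q.2)) (1 - η q.1 * deriv g1 q.2)
        (by linarith [hpos q.1 q.2] : (1 - η q.1 * deriv g1 q.2) ≠ 0) : ℝ × ℝ →L[ℝ] ℝ × ℝ) q := by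
    intro q
    have h1 : HasFDerivAt (fun q : ℝ × ℝ => η q.1)
        (deriv η q.1 • ContinuousLinearMap.fst ℝ ℝ ℝ) q :=
      (hηd q.1).hasDerivAt.comp_hasFDerivAt q (ContinuousLinearMap.fst ℝ ℝ ℝ).hasFDerivAt
    have h2 : HasFDerivAt (fun q : ℝ × ℝ => g1 q.2)
        (deriv g1 q.2 • ContinuousLinearMap.snd ℝ ℝ ℝ) q :=
      (hg q.2).hasDerivAt.comp_hasFDerivAt q (ContinuousLinearMap.snd ℝ ℝ ℝ).hasFDerivAt
    have h3 := (ContinuousLinearMap.fst ℝ ℝ ℝ).hasFDerivAt.prodMk
      ((ContinuousLinearMap.snd ℝ ℝ ℝ).hasFDerivAt.sub (h1.mul h2)) (x := q)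
    refine h3.congr_fderiv ?_
    ext
    · simp [BU2_equiv]
    · simp [BU2_equiv]
      ring
    · simp [BU2_equiv]
    · simp [BU2_equiv]
  have hΦbij : Function.Bijective Φ := by
    constructor
    · rintro ⟨s, z⟩ ⟨s', z'⟩ hq
      have h1 : s = s' := congrArg Prod.fst hq
      subst h1
      have h2 : z - η s * g1 z = z' - η s * g1 z' := congrArg Prod.snd hq
      rw [(hmono s).injective h2]
    · rintro ⟨s, u⟩
      obtain ⟨z, hz⟩ := hsurj s u
      refine ⟨(s, z), ?_⟩
      show (s, z - η s * g1 z) = (s, u)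
      rw [show z - η s * g1 z = u from hz]
  have hΦo : IsOpenMap Φ := by
    rw [isOpenMap_iff_nhds_le]
    intro q
    exact ((hΦs.contDiffAt.hasStrictFDerivAt' (hΦd q) (by simp)).map_nhds_eq_of_equiv).ge
  let e : ℝ × ℝ ≃ₜ ℝ × ℝ :=
    (Equiv.ofBijective Φ hΦbij).toHomeomorphOfContinuousOpen hΦs.continuous hΦo
  have he : ∀ q, e q = Φ q := fun q => rfl
  have hes : ContDiff ℝ ∞ (e.symm : ℝ × ℝ → ℝ × ℝ) :=
    e.contDiff_symm (f₀' := fun q => BU2_equiv (-(deriv η q.1 * g1 q.2))
      (1 - η q.1 * deriv g1 q.2) (by linarith [hpos q.1 q.2])) hΦd hΦs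
  refine ⟨fun s u => (e.symm (s, u)).2, ?_, ?_, ?_⟩
  · exact contDiff_snd.comp hes
  · intro s hs u
    have h1 : Φ (e.symm (s, u)) = (s, u) := by rw [← he, e.apply_symm_apply]
    have h2 : (e.symm (s, u)).1 = s := congrArg Prod.fst h1
    have h3 : (e.symm (s, u)).2 - η (e.symm (s, u)).1 * g1 (e.symm (s, u)).2 = u :=
      congrArg Prod.snd h1
    rw [h2, hη3 s hs] at h3
    exact h3
  · intro s hs z
    have h1 : e (s, z) = (s, z - s * g1 z) := by
      rw [he]
      show (s, z - η s * g1 z) = _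
      rw [hη3 s hs]
    show (e.symm (s, z - s * g1 z)).2 = z
    rw [← h1, e.symm_apply_apply]

end Pool.Agent.KG
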