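import Pool.Agent.Lib.KG.BU1
import Pool.Agent.Lib.KG.BU2

/-!
# Row BU3: the Burgers functions
-/

set_option autoImplicit false

namespace Pool.Agent.KG

open Set Filter Topology
open scoped ContDiff

/-! ## Row BU3: the function -/

/-- The Burgers functions: `ff x0` solves Burgers' equation for `s ∈ [0, (L + 10) / x0]`, with
values `-(x0 + x)` at `s = 0` and `-(x0 + G)` at the end. -/
structure Brg (L : ℝ) where
  /-- the final constant -/
  G : ℝ
  /-- the bound -/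
  C : ℝ
  /-- the threshold -/
  xs : ℝ
  /-- the functions -/
  ff : ℝ → ℝ → ℝ → ℝ
  hG : 0 ≤ G
  hC : 0 < C
  hxs : 1 ≤ xs
  smooth : ∀ x0, xs ≤ x0 → ContDiff ℝ ∞ (fun q : ℝ × ℝ => ff x0 q.1 q.2)
  eq : ∀ x0, xs ≤ x0 → ∀ s ∈ Icc 0 ((L + 10) / x0), ∀ x,
    deriv (fun s => ff x0 s x) s + ff x0 s x * deriv (ff x0 s) x = 0
  start : ∀ x0, xs ≤ x0 → ∀ x ∈ Icc (-4) (L + 4), ff x0 0 x = -(x0 + x)
  fin : ∀ x0, xs ≤ x0 → ∀ x ∈ Icc (-4) (L + 4), ff x0 ((L + 10) / x0) x = -(x0 + G)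
  bound : ∀ x0, xs ≤ x0 → ∀ s ∈ Icc 0 ((L + 10) / x0), ∀ x ∈ Icc (-4) (L + 4),
    -C ≤ deriv (ff x0 s) x ∧ deriv (ff x0 s) x ≤ 0 ∧ |iteratedDeriv 3 (ff x0 s) x| ≤ C

/-- The partial derivative in the second variable. -/
private noncomputable def BU3_D (H : ℝ × ℝ → ℝ) : ℝ × ℝ → ℝ := fun q => fderiv ℝ H q (0, 1)

private lemma BU3_D_smooth {H : ℝ × ℝ → ℝ} (h : ContDiff ℝ ∞ H) : ContDiff ℝ ∞ (BU3_D H) :=
  (h.fderiv_right (m := ∞) (by simp)).clm_apply contDiff_const

private lemma BU3_hasDeriv {H : ℝ × ℝ → ℝ} (h : ContDiff ℝ ∞ H) (s u : ℝ) :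
    HasDerivAt (fun u => H (s, u)) (BU3_D H (s, u)) u := by
  have h1 : HasFDerivAt H (fderiv ℝ H (s, u)) (s, u) :=
    (h.differentiable (by simp) (s, u)).hasFDerivAt
  have h2 : HasDerivAt (fun u : ℝ => (s, u)) ((0 : ℝ), (1 : ℝ)) u :=
    (hasDerivAt_const u s).prodMk (hasDerivAt_id u)
  exact h1.comp_hasDerivAt u h2

private lemma BU3_iter {H : ℝ × ℝ → ℝ} (h : ContDiff ℝ ∞ H) (n : ℕ) :
    ContDiff ℝ ∞ (BU3_D^[n] H) ∧
      ∀ s, iteratedDeriv n (fun u => H (s, u)) = fun u => (BU3_D^[n] H) (s, u) := by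
  induction n with
  | zero => exact ⟨h, fun s => by rw [iteratedDeriv_zero]; rfl⟩
  | succ n ih =>
    refine ⟨?_, fun s => ?_⟩
    · rw [Function.iterate_succ_apply']
      exact BU3_D_smooth ih.1
    · rw [iteratedDeriv_succ, ih.2 s, Function.iterate_succ_apply']
      funext u
      exact (BU3_hasDeriv ih.1 s u).deriv

theorem burgers (L : ℝ) (hL : 0 < L) : Nonempty (Brg L) := by
  obtain ⟨g1, G, hg, hG, hgl, hgr, hgd⟩ := exists_profile (L + 4) (by linarith)
  obtain ⟨Z, hZ, hZ1, hZ2⟩ := exists_inv hg hgd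
  set H : ℝ × ℝ → ℝ := fun q => g1 (Z q.1 q.2) with hHdef
  have hH : ContDiff ℝ ∞ H := hg.comp hZ
  obtain ⟨hD3, hit⟩ := BU3_iter hH 3
  -- the bound of the third derivative
  obtain ⟨C0, hC0⟩ := (isCompact_Icc.prod isCompact_Icc :
    IsCompact (Icc (0 : ℝ) (1 / 2) ×ˢ Icc (-4 : ℝ) (2 * L + 14))).exists_bound_of_continuousOn
      hD3.continuous.continuousOn
  -- threshold
  have hs : ∀ x0 : ℝ, 2 * (L + 10) ≤ x0 → ∀ s ∈ Icc 0 ((L + 10) / x0), s ∈ Icc (0 : ℝ) (1 / 2) := by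
    intro x0 hx0 s hs
    have hx : 0 < x0 := by linarith
    refine ⟨hs.1, hs.2.trans ?_⟩
    rw [div_le_div_iff₀ hx (by norm_num)]
    linarith
  have hpos : ∀ s ∈ Icc (0 : ℝ) (1 / 2), ∀ z, 1 / 2 ≤ 1 - s * deriv g1 z := by
    intro s hs z
    have h1 := hgd z
    have h2 : s * deriv g1 z ≤ 1 / 2 * 1 :=
      mul_le_mul hs.2 h1.2 h1.1 (by norm_num)
    linarith
  have hgD : ∀ z, HasDerivAt g1 (deriv g1 z) z := fun z =>
    (hg.differentiable (by simp) z).hasDerivAt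
  -- derivatives of `Z`
  have hZu : ∀ s ∈ Icc (0 : ℝ) (1 / 2), ∀ u, HasDerivAt (fun u => Z s u)
      (1 / (1 - s * deriv g1 (Z s u))) u := by
    intro s hs u
    have h1 : HasDerivAt (fun u => Z s u) (BU3_D (fun q : ℝ × ℝ => Z q.1 q.2) (s, u)) u :=
      BU3_hasDeriv hZ s u
    set d := BU3_D (fun q : ℝ × ℝ => Z q.1 q.2) (s, u) with hd
    have h2 : HasDerivAt (fun u => Z s u - s * g1 (Z s u)) (d - s * (deriv g1 (Z s u) * d)) u :=
      h1.sub (((hgD (Z s u)).comp u h1).const_mul s)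
    have h3 : (fun u => Z s u - s * g1 (Z s u)) = fun u => u := by
      funext u
      exact hZ1 s ⟨by linarith [hs.1], by linarith [hs.2]⟩ u
    rw [h3] at h2
    have h4 := h2.unique (hasDerivAt_id' u)
    have h5 := hpos s hs (Z s u)
    have h6 : d = 1 / (1 - s * deriv g1 (Z s u)) := by
      rw [eq_div_iff (by linarith)]
      linarith
    rw [← h6]
    exact h1
  have hZs : ∀ s ∈ Icc (0 : ℝ) (1 / 2), ∀ u, HasDerivAt (fun s => Z s u)
      (g1 (Z s u) / (1 - s * deriv g1 (Z s u))) s := by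
    intro s hs u
    have h0 : HasFDerivAt (fun q : ℝ × ℝ => Z q.1 q.2)
        (fderiv ℝ (fun q : ℝ × ℝ => Z q.1 q.2) (s, u)) (s, u) :=
      (hZ.differentiable (by simp) (s, u)).hasFDerivAt
    have h1 : HasDerivAt (fun s => Z s u)
        (fderiv ℝ (fun q : ℝ × ℝ => Z q.1 q.2) (s, u) (1, 0)) s := by
      have h2 : HasDerivAt (fun s : ℝ => (s, u)) ((1 : ℝ), (0 : ℝ)) s :=
        (hasDerivAt_id' s).prodMk (hasDerivAt_const s u)
      exact HasFDerivAt.comp_hasDerivAt (f := fun s : ℝ => (s, u)) s h0 h2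
    set d := fderiv ℝ (fun q : ℝ × ℝ => Z q.1 q.2) (s, u) (1, 0) with hd
    have h2 : HasDerivAt (fun s => Z s u - s * g1 (Z s u))
        (d - (1 * g1 (Z s u) + s * (deriv g1 (Z s u) * d))) s :=
      h1.sub ((hasDerivAt_id' s).mul ((hgD (Z s u)).comp s h1))
    have h3 : (fun s => Z s u - s * g1 (Z s u)) =ᶠ[𝓝 s] fun _ => u := by
      have h7 : Ioo (-(1 / 4) : ℝ) (5 / 8) ∈ 𝓝 s :=
        Ioo_mem_nhds (by linarith [hs.1]) (by linarith [hs.2])
      filter_upwards [h7] with s' hs'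
      exact hZ1 s' ⟨hs'.1.le, hs'.2.le⟩ u
    have h4 := (h2.congr_of_eventuallyEq h3.symm).unique (hasDerivAt_const s u)
    have h5 := hpos s hs (Z s u)
    have h6 : d = g1 (Z s u) / (1 - s * deriv g1 (Z s u)) := by
      rw [eq_div_iff (by linarith)]
      linarith
    rw [← h6]
    exact h1
  -- derivatives of `ff`
  have hfx : ∀ x0 : ℝ, ∀ s ∈ Icc (0 : ℝ) (1 / 2), ∀ x,
      HasDerivAt (fun x => -(x0 + g1 (Z s (x + s * x0))))
        (-(deriv g1 (Z s (x + s * x0)) * (1 / (1 - s * deriv g1 (Z s (x + s * x0)))))) x := by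
    intro x0 s hs x
    have h1 : HasDerivAt (fun x => x + s * x0) 1 x := (hasDerivAt_id' x).add_const _
    have h2 : HasDerivAt (fun x => Z s (x + s * x0))
        (1 / (1 - s * deriv g1 (Z s (x + s * x0))) * 1) x :=
      (hZu s hs (x + s * x0)).comp x h1
    rw [mul_one] at h2
    exact (((hgD _).comp x h2).const_add x0).neg
  have hfs : ∀ x0 : ℝ, ∀ s ∈ Icc (0 : ℝ) (1 / 2), ∀ x,
      HasDerivAt (fun s => -(x0 + g1 (Z s (x + s * x0))))
        (-(deriv g1 (Z s (x + s * x0)) * ((g1 (Z s (x + s * x0)) + x0) *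
          (1 / (1 - s * deriv g1 (Z s (x + s * x0))))))) s := by
    intro x0 s hs x
    -- chain rule in both variables
    have h0 : HasFDerivAt (fun q : ℝ × ℝ => Z q.1 q.2)
        (fderiv ℝ (fun q : ℝ × ℝ => Z q.1 q.2) (s, x + s * x0)) (s, x + s * x0) :=
      (hZ.differentiable (by simp) (s, x + s * x0)).hasFDerivAt
    have h1 : HasDerivAt (fun s : ℝ => x + s * x0) x0 s := by
      have := ((hasDerivAt_id' s).mul_const x0).const_add x
      rwa [one_mul] at this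
    have h2 : HasDerivAt (fun s : ℝ => (s, x + s * x0)) ((1 : ℝ), x0) s :=
      (hasDerivAt_id s).prodMk h1
    have h3 : HasDerivAt (fun s => Z s (x + s * x0))
        (fderiv ℝ (fun q : ℝ × ℝ => Z q.1 q.2) (s, x + s * x0) (1, x0)) s :=
      HasFDerivAt.comp_hasDerivAt (f := fun s : ℝ => (s, x + s * x0)) s h0 h2
    have h4 : fderiv ℝ (fun q : ℝ × ℝ => Z q.1 q.2) (s, x + s * x0) (1, x0) =
        fderiv ℝ (fun q : ℝ × ℝ => Z q.1 q.2) (s, x + s * x0) (1, 0) +
        x0 * fderiv ℝ (fun q : ℝ × ℝ => Z q.1 q.2) (s, x + s * x0) (0, 1) := by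
      have : ((1 : ℝ), x0) = (1, 0) + x0 • ((0 : ℝ), (1 : ℝ)) := by simp
      rw [this, map_add, map_smul, smul_eq_mul]
    have h5 : fderiv ℝ (fun q : ℝ × ℝ => Z q.1 q.2) (s, x + s * x0) (1, 0) =
        g1 (Z s (x + s * x0)) / (1 - s * deriv g1 (Z s (x + s * x0))) := by
      have h6 : HasDerivAt (fun s' => Z s' (x + s * x0))
          (fderiv ℝ (fun q : ℝ × ℝ => Z q.1 q.2) (s, x + s * x0) (1, 0)) s := by
        have h7 : HasDerivAt (fun s' : ℝ => (s', x + s * x0)) ((1 : ℝ), (0 : ℝ)) s :=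
          (hasDerivAt_id' s).prodMk (hasDerivAt_const s (x + s * x0))
        exact HasFDerivAt.comp_hasDerivAt (f := fun s' : ℝ => (s', x + s * x0)) s h0 h7
      exact h6.unique (hZs s hs (x + s * x0))
    have h7 : fderiv ℝ (fun q : ℝ × ℝ => Z q.1 q.2) (s, x + s * x0) (0, 1) =
        1 / (1 - s * deriv g1 (Z s (x + s * x0))) := by
      have h6 : HasDerivAt (fun u => Z s u)
          (fderiv ℝ (fun q : ℝ × ℝ => Z q.1 q.2) (s, x + s * x0) (0, 1)) (x + s * x0) := by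
        have h8 : HasDerivAt (fun u : ℝ => (s, u)) ((0 : ℝ), (1 : ℝ)) (x + s * x0) :=
          (hasDerivAt_const _ s).prodMk (hasDerivAt_id' _)
        exact HasFDerivAt.comp_hasDerivAt (f := fun u : ℝ => (s, u)) (x + s * x0) h0 h8
      exact h6.unique (hZu s hs (x + s * x0))
    rw [h4, h5, h7] at h3
    have h8 := (((hgD (Z s (x + s * x0))).comp s h3).const_add x0).neg
    refine h8.congr_deriv ?_
    ring
  refine ⟨{ G := G, C := max 2 C0, xs := 2 * (L + 10),
            ff := fun x0 s x => -(x0 + g1 (Z s (x + s * x0))),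
            hG := hG, hC := lt_of_lt_of_le (by norm_num) (le_max_left _ _),
            hxs := by linarith, smooth := ?_, eq := ?_, start := ?_, fin := ?_, bound := ?_ }⟩
  · intro x0 _
    have h1 : ContDiff ℝ ∞ (fun q : ℝ × ℝ => (q.1, q.2 + q.1 * x0)) :=
      contDiff_fst.prodMk (contDiff_snd.add (contDiff_fst.mul contDiff_const))
    exact (contDiff_const.add (hH.comp h1)).neg
  · intro x0 hx0 s hs' x
    have hs1 := hs x0 hx0 s hs'
    rw [(hfs x0 s hs1 x).deriv, (hfx x0 s hs1 x).deriv]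
    ring
  · intro x0 _ x hx
    have h1 : Z 0 (x + 0 * x0) = x := by
      have := hZ1 0 ⟨by norm_num, by norm_num⟩ x
      rw [zero_mul, sub_zero] at this
      rw [zero_mul, add_zero]
      exact this
    show -(x0 + g1 (Z 0 (x + 0 * x0))) = _
    rw [h1, hgl x hx.2]
  · intro x0 hx0 x hx
    have hx : 0 < x0 := by linarith
    have hx' := ‹x ∈ Icc (-4) (L + 4)›
    have h1 : (L + 10) / x0 * x0 = L + 10 := div_mul_cancel₀ _ hx.ne'
    have hs1 := hs x0 hx0 ((L + 10) / x0) ⟨by positivity, le_refl _⟩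
    set s := (L + 10) / x0 with hsdef
    have h2 : L + 4 + 2 ≤ (x + (L + 10)) + s * G := by
      have := mul_nonneg hs1.1 hG
      linarith [hx'.1]
    have h3 := hZ2 s ⟨by linarith [hs1.1], by linarith [hs1.2]⟩ ((x + (L + 10)) + s * G)
    rw [hgr _ h2, add_sub_cancel_right] at h3
    show -(x0 + g1 (Z s (x + s * x0))) = _
    rw [h1, h3, hgr _ h2]
  · intro x0 hx0 s hs' x hx
    have hx0' : 0 < x0 := by linarith
    have hs1 := hs x0 hx0 s hs'
    have hd := (hfx x0 s hs1 x).deriv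
    have h5 := hpos s hs1 (Z s (x + s * x0))
    have h6 := hgd (Z s (x + s * x0))
    have h7 : 0 ≤ 1 / (1 - s * deriv g1 (Z s (x + s * x0))) := by
      apply div_nonneg (by norm_num)
      linarith
    have h8 : 1 / (1 - s * deriv g1 (Z s (x + s * x0))) ≤ 2 := by
      rw [div_le_iff₀ (by linarith)]
      linarith
    have h9 : deriv g1 (Z s (x + s * x0)) * (1 / (1 - s * deriv g1 (Z s (x + s * x0)))) ≤ 1 * 2 :=
      mul_le_mul h6.2 h8 h7 (by norm_num)
    have h10 : 0 ≤ deriv g1 (Z s (x + s * x0)) * (1 / (1 - s * deriv g1 (Z s (x + s * x0)))) :=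
      mul_nonneg h6.1 h7
    refine ⟨?_, ?_, ?_⟩
    · show -(max 2 C0) ≤ deriv (fun x => -(x0 + g1 (Z s (x + s * x0)))) x
      rw [hd]
      have := le_max_left 2 C0
      linarith
    · show deriv (fun x => -(x0 + g1 (Z s (x + s * x0)))) x ≤ 0
      rw [hd]
      linarith
    · have e1 : iteratedDeriv 3 (fun x => -(x0 + g1 (Z s (x + s * x0)))) x =
          -(BU3_D^[3] H) (s, x + s * x0) := by
        have e2 : (fun x => -(x0 + g1 (Z s (x + s * x0)))) =
            fun x => -((fun y => x0 + (fun u => H (s, u)) (y + s * x0)) x) := rfl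
        have e3 := congrFun (iteratedDeriv_comp_add_const 3 (fun u => H (s, u)) (s * x0)) x
        have e4 := congrFun (hit s) (x + s * x0)
        rw [e2, iteratedDeriv_fun_neg, iteratedDeriv_const_add (by norm_num)]
        exact congrArg Neg.neg (e3.trans e4)
      show |iteratedDeriv 3 (fun x => -(x0 + g1 (Z s (x + s * x0)))) x| ≤ max 2 C0
      rw [e1, abs_neg]
      refine le_trans ?_ (le_max_right _ _)
      refine hC0 (s, x + s * x0) ⟨hs1, ?_, ?_⟩
      · have := mul_nonneg hs1.1 hx0'.le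
        show -4 ≤ x + s * x0
        linarith [hx.1]
      · have h11 : s * x0 ≤ L + 10 := by
          have := mul_le_mul_of_nonneg_right hs'.2 hx0'.le
          rwa [div_mul_cancel₀ _ hx0'.ne'] at this
        show x + s * x0 ≤ 2 * L + 14
        linarith [hx.2]

end Pool.Agent.KG
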