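import Pool.Agent.Lib.MP_78c35a_an.Par
import Pool.Agent.Lib.MP_78c35a_an.Quadr

/-!
# Coupled KdV equations with arbitrary coupling: definitions
-/

set_option autoImplicit false

namespace Pool.Agent.KG

open MeasureTheory Filter Topology Set
open Pool.Agent.Kdv
open scoped ENNReal ContDiff

/-- The parameters of the system `y_t + Λ y_xxx + (S y + ∇G(y))_x = 0`, where
`∇G(y)_j = ∑ g_jkl y_k y_l / 2`. -/
structure Pr (n : ℕ) where
  /-- length of the interval -/
  L : ℝ
  hL : 0 < L
  /-- dispersion coefficients -/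
  mu : Fin n → ℝ
  hmu : ∀ j, 0 < mu j
  /-- quadratic coefficients -/
  g : Fin n → Fin n → Fin n → ℝ
  g12 : ∀ j k l, g j k l = g k j l
  g23 : ∀ j k l, g j k l = g j l k
  /-- linear coefficients -/
  S : Fin n → Fin n → ℝ
  hS : ∀ j k, S j k = S k j

variable {n : ℕ}

/-- A `Par` with the same group. -/
def Pr.std (p : Pr n) : Par n where
  L := p.L
  hL := p.hL
  mu := p.mu
  hmu := p.hmu
  g := fun j k l => if j = k ∧ k = l then 1 else 0
  g12 := fun j k l => by
    by_cases h : j = k
    · subst h; rfl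
    · rw [if_neg (fun h1 => h h1.1), if_neg (fun h1 => h h1.1.symm)]
  g23 := fun j k l => by
    by_cases h : k = l
    · subst h; rfl
    · rw [if_neg (fun h1 => h h1.2), if_neg (fun h1 => h h1.2.symm)]
  S := fun _ _ => 0
  hS := fun _ _ => rfl
  e := fun _ => 1
  Se := fun _ => by simp
  kap := 1
  hkap := one_pos
  coer := fun x => by
    rw [one_mul]
    refine Finset.sum_le_sum fun j _ => ?_
    have h : ∀ k, (∑ l, (if j = k ∧ k = l then (1 : ℝ) else 0) * 1 * x k * x l) =
        if j = k then x k ^ 2 else 0 := by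
      intro k
      by_cases h : j = k
      · subst h
        simp [pow_two]
      · simp [h]
    rw [Finset.sum_congr rfl fun k _ => h k]
    simp

/-- The group of the system, with its smoothing effect. -/
noncomputable def Pr.sm (p : Pr n) : Sm (HH n) (VV n p.L) := smn p.std

@[simp] theorem Pr.sm_U (p : Pr n) (t : ℝ) (y : HH n) (j : Fin n) :
    p.sm.U t y j = airy (p.mu j * t) (y j) := rfl

theorem Pr.sm_inc (p : Pr n) : p.sm.inc = inc n p.L := rfl

/-- The state `y0` can be steered to `y1` in time `T`. -/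
def Pr.Adm (p : Pr n) (y0 y1 : HH n) (T : ℝ) : Prop :=
  ∃ (f : ℝ → HH n) (v : ℝ → VV n p.L), p.sm.Path y0 T f v ∧
    (∀ᵐ t ∂volume.restrict (Ioc (0 : ℝ) T), PP n p.L (f t) =
      PP n p.L (lmap n p.L p.S (v t) + qmap n p.L p.g (v t))) ∧
    p.sm.traj y0 f T = y1

/-- The Hessian of the cubic form at `X`. -/
def Hm (g : Fin n → Fin n → Fin n → ℝ) (X : Fin n → ℝ) (j k : Fin n) : ℝ := ∑ l, g j k l * X l

/-- Multiplication of all components by a function. -/
noncomputable def mulH (m : ℝ → ℝ) : HH n →L[ℝ] HH n := mkH fun j => (mulOp m).comp (prH j)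

/-! ### Cut-off functions -/

/-- A smooth step. -/
noncomputable def st : ℝ → ℝ := Real.smoothTransition

/-- The cut-off of the transport: `1` on `[-1/2, L + 1/2]`, `0` outside `[-3/4, L + 3/4]`. -/
noncomputable def th (L x : ℝ) : ℝ := st (4 * x + 3) * st (4 * (L - x) + 3)

/-- The damping: `0` on `[0, L]`, `1` outside `[-1/4, L + 1/4]`. -/
noncomputable def damp (L x : ℝ) : ℝ := 1 - st (4 * x + 1) * st (4 * (L - x) + 1)

/-- The cut-off of the backgrounds: `1` on `[-3, L + 3]`, `0` outside `[-4, L + 4]`. -/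
noncomputable def bb (L x : ℝ) : ℝ := st (x + 4) * st (L + 4 - x)

/-- The weights: `x + c` on `[-3, L + 3]`, nondecreasing, constant outside `[-4, L + 4]`. -/
noncomputable def wt (L c x : ℝ) : ℝ := c + ∫ s in (0 : ℝ)..x, bb L s

/-! ### The linear transport terms -/

/-- The transport term `-(th H z_x + (th H)_x z / 2) - th H_x z / 2`, where `H` is the Hessian of
the cubic form at `X(x)`, and `X1` is the derivative of `X`. -/
noncomputable def tmap (n : ℕ) (L : ℝ) (g : Fin n → Fin n → Fin n → ℝ) (X X1 : ℝ → Fin n → ℝ) :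
    VV n L →L[ℝ] HH n :=
  mkH fun j => ∑ k, ((mulOp fun x => -(th L x * Hm g (X x) j k)).comp (dd k) +
    (mulOp fun x => -(1 / 2 * deriv (th L) x * Hm g (X x) j k +
      th L x * Hm g (X1 x) j k)).comp (uu k))

/-! ### Convolutions -/

/-- The convolution of an `L²` function with `k`. -/
noncomputable def cvf (k : ℝ → ℝ) (y : L2) (x : ℝ) : ℝ := ∫ s, k (x - s) * y s

open Classical in
/-- The convolution with `k` as an operator (zero if it is not bounded). -/
noncomputable def cv (k : ℝ → ℝ) : L2 →L[ℝ] L2 :=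
  if h : ∃ A : L2 →L[ℝ] L2, ∀ y, ∀ᵐ x ∂volume, A y x = cvf k y x then h.choose else 0

/-- An even bump function with support `[-1, 1]`. -/
noncomputable def ker0 (x : ℝ) : ℝ := st (2 * (1 + x)) * st (2 * (1 - x))

/-- The mollifier of scale `e`. -/
noncomputable def ker (e x : ℝ) : ℝ := (e * ∫ s, ker0 s)⁻¹ * ker0 (x / e)

/-! ### Backgrounds -/

/-- A background: a path which is given on `J` by the function `w` with the derivative `wx`, and
solves the equation on `(0, L)` with the residual `r`. -/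
structure Bk (p : Pr n) (τ : ℝ) where
  /-- the values -/
  w : ℝ → ℝ → Fin n → ℝ
  /-- the space derivative -/
  wx : ℝ → ℝ → Fin n → ℝ
  cw : ∀ j, Continuous fun q : ℝ × ℝ => w q.1 q.2 j
  cwx : ∀ j, Continuous fun q : ℝ × ℝ => wx q.1 q.2 j
  hd : ∀ t x j, HasDerivAt (fun x => w t x j) (wx t x j) x
  /-- the initial state -/
  b0 : HH n
  /-- the force -/
  fb : ℝ → HH n
  /-- the path -/
  vb : ℝ → VV n p.L
  path : p.sm.Path b0 τ fb vb
  rep : ∀ᵐ t ∂volume.restrict (Ioc (0 : ℝ) τ), ∀ j, ∀ᵐ x ∂volume, x ∈ J p.L →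
    uu j (vb t) x = w t x j ∧ dd j (vb t) x = wx t x j
  /-- the residual -/
  r : ℝ → HH n
  hr : IntegrableOn r (Ioc 0 τ)
  eq : ∀ᵐ t ∂volume.restrict (Ioc (0 : ℝ) τ), PP n p.L (fb t) =
    PP n p.L (lmap n p.L p.S (vb t) + qmap n p.L p.g (vb t) + r t)

/-- The nonlinear term of the equation of the perturbation of a background. -/
noncomputable def nl (p : Pr n) (X X1 : ℝ → Fin n → ℝ) (D : ℝ) (z : VV n p.L) : HH n :=
  qmap n p.L p.g z + lmap n p.L p.S z + tmap n p.L p.g X X1 z -
    D • mulH (damp p.L) (inc n p.L z)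

/-- `(f, v)` is a solution of the equation of the perturbation of the background `B`, with initial
value `z0` and damping `D`. -/
structure Run (p : Pr n) {τ : ℝ} (B : Bk p τ) (D : ℝ → ℝ) (z0 : HH n) (f : ℝ → HH n)
    (v : ℝ → VV n p.L) : Prop where
  path : p.sm.Path z0 τ f v
  eq : ∀ᵐ t ∂volume.restrict (Ioc (0 : ℝ) τ), f t = nl p (B.w t) (B.wx t) (D t) (v t) - B.r t

end Pool.Agent.KG
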