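import Pool.Agent.Lib.KG.FID
import Pool.Agent.Lib.KG.AlgD

/-!
# Rows FI1, FI3, FI4
-/

set_option autoImplicit false

namespace Pool.Agent.KG.FI1

open MeasureTheory Filter Topology Set
open Pool.Agent.Kdv
open scoped ENNReal ContDiff InnerProductSpace

/-- Row FI1: the first half of `exists_alg`. -/
theorem exists_algF {b c : ℝ} (a a1 a2 r : ℝ) (hb : 0 < b) (hc : 0 < c) (ha : a ^ 2 * b < 1) :
    ∃ (E : Fin 2 → Fin 2 → ℝ) (mu : Fin 2 → ℝ), AlgF a a1 a2 b c r E mu := by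
  obtain ⟨β, hβ⟩ : ∃ β : ℝ, b * β ^ 2 = 1 := ⟨1 / √b, by
    rw [div_pow, Real.sq_sqrt hb.le]
    field_simp⟩
  obtain ⟨γ, hγ⟩ : ∃ γ : ℝ, c * γ ^ 2 = 1 := ⟨1 / √c, by
    rw [div_pow, Real.sq_sqrt hc.le]
    field_simp⟩
  obtain ⟨p, t, hpt, hor⟩ := exists_rot (a * b * β * γ) (γ ^ 2)
  have hγ2 : 0 < γ ^ 2 := by
    rcases eq_or_ne γ 0 with h | h
    · rw [h] at hγ
      simp at hγ
    · positivity
  have hs : (a * b * β * γ) ^ 2 = a ^ 2 * b * γ ^ 2 := by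
    linear_combination (a ^ 2 * b * γ ^ 2) * hβ
  have hq : 0 < γ ^ 2 - (a * b * β * γ) ^ 2 := by
    rw [hs]
    have := mul_pos (sub_pos.mpr ha) hγ2
    linarith
  have hform : ∀ u v : ℝ, u ^ 2 + v ^ 2 = 1 →
      0 < u ^ 2 + 2 * (a * b * β * γ) * u * v + γ ^ 2 * v ^ 2 :=
    fun u v huv => form_pos hq huv
  set mu0 := p ^ 2 + 2 * (a * b * β * γ) * p * t + γ ^ 2 * t ^ 2 with hmu0
  set mu1 := t ^ 2 - 2 * (a * b * β * γ) * t * p + γ ^ 2 * p ^ 2 with hmu1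
  have hmu0p : 0 < mu0 := hform p t hpt
  have hmu1p : 0 < mu1 := by
    have := hform (-t) p (by linarith)
    calc (0 : ℝ) < _ := this
      _ = mu1 := by rw [hmu1]; ring
  let E : Fin 2 → Fin 2 → ℝ := ![![p * β, t * γ], ![-t * β, p * γ]]
  have E00 : E 0 0 = p * β := rfl
  have E01 : E 0 1 = t * γ := rfl
  have E10 : E 1 0 = -t * β := rfl
  have E11 : E 1 1 = p * γ := rfl
  refine ⟨E, ![mu0, mu1], ?_, ?_, ?_, ?_, ?_, ?_⟩
  · intro j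
    fin_cases j
    · exact hmu0p
    · exact hmu1p
  · intro j
    fin_cases j
    · change p * β + a * (t * γ) = mu0 * (p * β)
      rw [hmu0]
      linear_combination (-(a * t * γ)) * hβ - (β * t) * hor + (-(p * β) - β * (a * b * β * γ) * t) * hpt
    · change -t * β + a * (p * γ) = mu1 * (-t * β)
      rw [hmu1]
      linear_combination (-(a * p * γ)) * hβ + (β * p) * hor + ((t * β) - β * (a * b * β * γ) * p) * hpt
  · intro j
    fin_cases j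
    · change a * b * (p * β) + t * γ = c * mu0 * (t * γ)
      rw [hmu0]
      linear_combination (-(a * b * β * p + γ * t)) * hγ -
        c * γ * ((a * b * β * γ) * p + γ ^ 2 * t) * hpt + c * γ * p * hor
    · change a * b * (-t * β) + p * γ = c * mu1 * (p * γ)
      rw [hmu1]
      linear_combination (-(-(a * b * β * t) + γ * p)) * hγ -
        c * γ * (-((a * b * β * γ) * t) + γ ^ 2 * p) * hpt + c * γ * t * hor
  · rw [Fin.sum_univ_two, E00, E10]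
    linear_combination hβ + b * β ^ 2 * hpt
  · rw [Fin.sum_univ_two, E00, E10, E01, E11]
    ring
  · rw [Fin.sum_univ_two, E01, E11]
    linear_combination hγ + c * γ ^ 2 * hpt

/-- The discriminant is positive in the definite case. -/
theorem disc_FI3 {a1 a2 b : ℝ} (hb : 0 < b) (hP : a2 ^ 2 < a1) (hR : a1 ^ 2 * b ≤ a2) :
    6 * a1 * a2 * b + 3 * a1 ^ 2 * a2 ^ 2 * b ^ 2 < 1 + 4 * a2 ^ 3 * b + 4 * a1 ^ 3 * b ^ 2 := by
  have h1 : 0 < a1 := lt_of_le_of_lt (sq_nonneg _) hP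
  have h2 : 0 < a2 := lt_of_lt_of_le (by positivity) hR
  obtain ⟨u, hu⟩ : ∃ u, u = a1 * a2 * b := ⟨_, rfl⟩
  obtain ⟨S, hS⟩ : ∃ S, S = a2 ^ 3 * b + a1 ^ 3 * b ^ 2 := ⟨_, rfl⟩
  have hu0 : 0 < u := by rw [hu]; positivity
  have hS0 : 0 < S := by rw [hS]; positivity
  have hS2 : 4 * u ^ 3 ≤ S ^ 2 := by
    have e : S ^ 2 - 4 * u ^ 3 = (a2 ^ 3 * b - a1 ^ 3 * b ^ 2) ^ 2 := by rw [hS, hu]; ring
    nlinarith [sq_nonneg (a2 ^ 3 * b - a1 ^ 3 * b ^ 2)]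
  have h3 : a1 ^ 3 * b ^ 2 < 1 := by
    have e1 : (a1 ^ 2 * b) ^ 2 < a1 := lt_of_le_of_lt (by
      exact pow_le_pow_left₀ (by positivity) hR 2) hP
    by_contra hc
    push Not at hc
    have e2 : a1 * 1 ≤ a1 * (a1 ^ 3 * b ^ 2) := mul_le_mul_of_nonneg_left hc h1.le
    have e3 : a1 * (a1 ^ 3 * b ^ 2) = (a1 ^ 2 * b) ^ 2 := by ring
    linarith
  have h4 : a2 ^ 3 * b < 1 := by
    have e1 : (a2 ^ 2) ^ 2 < a1 ^ 2 := pow_lt_pow_left₀ hP (by positivity) (by norm_num)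
    have e2 : (a2 ^ 2) ^ 2 * b < a2 := lt_of_lt_of_le (mul_lt_mul_of_pos_right e1 hb) hR
    by_contra hc
    push Not at hc
    have e3 : a2 * 1 ≤ a2 * (a2 ^ 3 * b) := mul_le_mul_of_nonneg_left hc h2.le
    have e4 : a2 * (a2 ^ 3 * b) = (a2 ^ 2) ^ 2 * b := by ring
    linarith
  have hu1 : u < 1 := by
    by_contra hc
    push Not at hc
    have e1 : u ^ 3 = (a1 ^ 3 * b ^ 2) * (a2 ^ 3 * b) := by rw [hu]; ring
    have e2 : (a1 ^ 3 * b ^ 2) * (a2 ^ 3 * b) < 1 :=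
      mul_lt_one_of_nonneg_of_lt_one_left (by positivity) h3 h4.le
    have e3 : (1 : ℝ) ≤ u ^ 3 := one_le_pow₀ hc
    linarith
  have key : 3 * u ^ 2 + 6 * u - 1 < 4 * S := by
    by_contra hc
    push Not at hc
    have e1 : 0 < 3 * u ^ 2 + 6 * u - 1 := by linarith
    have e2 : (4 * S) ^ 2 ≤ (3 * u ^ 2 + 6 * u - 1) ^ 2 :=
      pow_le_pow_left₀ (by positivity) hc 2
    have e3 : 64 * u ^ 3 - (3 * u ^ 2 + 6 * u - 1) ^ 2 = (1 - u) ^ 3 * (9 * u - 1) := by ring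
    have e4 : 0 < 9 * u - 1 := by nlinarith
    have e5 : 0 < (1 - u) ^ 3 * (9 * u - 1) :=
      mul_pos (pow_pos (by linarith) 3) e4
    nlinarith
  have e1 : 6 * a1 * a2 * b + 3 * a1 ^ 2 * a2 ^ 2 * b ^ 2 = 6 * u + 3 * u ^ 2 := by rw [hu]; ring
  have e2 : 1 + 4 * a2 ^ 3 * b + 4 * a1 ^ 3 * b ^ 2 = 1 + 4 * S := by rw [hS]; ring
  rw [e1, e2]
  linarith

/-- The quadratic form is nonpositive. -/
theorem form_FI3 {a1 a2 b : ℝ} (hb : 0 < b)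
    (hd : 1 + 4 * a2 ^ 3 * b + 4 * a1 ^ 3 * b ^ 2 ≤
      6 * a1 * a2 * b + 3 * a1 ^ 2 * a2 ^ 2 * b ^ 2) (x y : ℝ) :
    b * (a1 - a2 ^ 2) * x ^ 2 + (1 - a1 * a2 * b) * x * y + (a2 - a1 ^ 2 * b) * y ^ 2 ≤ 0 := by
  obtain ⟨P, hP⟩ : ∃ P, P = b * (a1 - a2 ^ 2) := ⟨_, rfl⟩
  obtain ⟨Q, hQ⟩ : ∃ Q, Q = 1 - a1 * a2 * b := ⟨_, rfl⟩
  obtain ⟨R, hR⟩ : ∃ R, R = a2 - a1 ^ 2 * b := ⟨_, rfl⟩
  have hdisc : Q ^ 2 ≤ 4 * P * R := by
    have e : 4 * P * R - Q ^ 2 = 6 * a1 * a2 * b + 3 * a1 ^ 2 * a2 ^ 2 * b ^ 2 -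
        (1 + 4 * a2 ^ 3 * b + 4 * a1 ^ 3 * b ^ 2) := by
      rw [hP, hQ, hR]
      ring
    linarith
  rw [← hP, ← hQ, ← hR]
  rcases lt_trichotomy P 0 with h | h | h
  · have e : 4 * P * (P * x ^ 2 + Q * x * y + R * y ^ 2) =
        (2 * P * x + Q * y) ^ 2 + (4 * P * R - Q ^ 2) * y ^ 2 := by ring
    have e2 : 0 ≤ 4 * P * (P * x ^ 2 + Q * x * y + R * y ^ 2) := by
      rw [e]
      have := mul_nonneg (sub_nonneg.2 hdisc) (sq_nonneg y)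
      have := sq_nonneg (2 * P * x + Q * y)
      linarith
    by_contra hc
    push Not at hc
    have := mul_neg_of_neg_of_pos (by linarith : 4 * P < 0) hc
    linarith
  · have hQ0 : Q = 0 := by
      have : Q ^ 2 ≤ 0 := by rw [h] at hdisc; linarith
      exact pow_eq_zero_iff (two_ne_zero) |>.1 (le_antisymm this (sq_nonneg _))
    have h1 : a1 = a2 ^ 2 := by
      have : b * (a1 - a2 ^ 2) = 0 := by rw [← hP, h]
      rcases mul_eq_zero.1 this with h2 | h2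
      · exact absurd h2 hb.ne'
      · linarith
    have hR0 : R = 0 := by
      have e1 : a1 * a2 * b = 1 := by linarith
      rw [hR]
      have : a1 ^ 2 * b = a2 * (a1 * a2 * b) := by
        rw [h1]
        ring
      rw [this, e1]
      ring
    rw [h, hQ0, hR0]
    simp
  · exfalso
    have h1 : a2 ^ 2 < a1 := by
      rw [hP] at h
      have := (mul_pos_iff_of_pos_left hb).1 h
      linarith
    have h2 : 0 ≤ R := by
      by_contra hc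
      push Not at hc
      have := mul_neg_of_pos_of_neg (by linarith : 0 < 4 * P) hc
      have := sq_nonneg Q
      linarith
    have h3 : a1 ^ 2 * b ≤ a2 := by linarith
    have := disc_FI3 hb h1 h3
    linarith

/-- Row FI3. -/
theorem det_nonpos {L a a1 a2 b c r : ℝ} {E : Fin 2 → Fin 2 → ℝ} {mu : Fin 2 → ℝ}
    (hb : 0 < b) (hc : 0 < c) (hA : AlgF a a1 a2 b c r E mu)
    (hd : 1 + 4 * a2 ^ 3 * b + 4 * a1 ^ 3 * b ^ 2 ≤
      6 * a1 * a2 * b + 3 * a1 ^ 2 * a2 ^ 2 * b ^ 2) (X : Fin 2 → ℝ) :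
    det2 (Hm (gg a1 a2 b E) X) ≤ 0 := by
  obtain ⟨x, hx⟩ : ∃ x, x = X 0 * E 0 0 + X 1 * E 1 0 := ⟨_, rfl⟩
  obtain ⟨y, hy⟩ : ∃ y, y = X 0 * E 0 1 + X 1 * E 1 1 := ⟨_, rfl⟩
  have e : det2 (Hm (gg a1 a2 b E) X) = (E 0 0 * E 1 1 - E 0 1 * E 1 0) ^ 2 * b *
      (b * (a1 - a2 ^ 2) * x ^ 2 + (1 - a1 * a2 * b) * x * y + (a2 - a1 ^ 2 * b) * y ^ 2) := by
    simp only [det2, Hm, Fin.sum_univ_two, gg]
    rw [hx, hy]
    ring
  rw [e]
  exact mul_nonpos_of_nonneg_of_nonpos (by positivity) (form_FI3 hb hd x y)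

/-- Row FI4: the nonlinearity does not vanish. -/
theorem gg_ne {a a1 a2 b c r : ℝ} {E : Fin 2 → Fin 2 → ℝ} {mu : Fin 2 → ℝ}
    (hb : 0 < b) (hc : 0 < c) (hA : AlgF a a1 a2 b c r E mu) :
    ∃ j k l, gg a1 a2 b E j k l ≠ 0 := by
  by_contra hcon
  push Not at hcon
  have h0 := hA.c01
  have h1 := hA.c11
  rw [Fin.sum_univ_two] at h0 h1
  have e : ∑ j, ∑ k, ∑ l, gg a1 a2 b E j k l * (E j 1 * E k 1 * E l 1) =
      b * (E 0 0 * E 0 1 + E 1 0 * E 1 1) ^ 3 +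
      3 * a2 * b * (E 0 0 * E 0 1 + E 1 0 * E 1 1) ^ 2 * (E 0 1 ^ 2 + E 1 1 ^ 2) +
      3 * a1 * b * (E 0 0 * E 0 1 + E 1 0 * E 1 1) * (E 0 1 ^ 2 + E 1 1 ^ 2) ^ 2 +
      (E 0 1 ^ 2 + E 1 1 ^ 2) ^ 3 := by
    simp only [Fin.sum_univ_two, gg]
    ring
  rw [h0] at e
  simp only [hcon, zero_mul, Finset.sum_const_zero] at e
  have h2 : (E 0 1 ^ 2 + E 1 1 ^ 2) ^ 3 = 0 := by linarith
  have h3 : E 0 1 ^ 2 + E 1 1 ^ 2 = 0 := pow_eq_zero_iff (by norm_num) |>.1 h2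
  rw [h3, mul_zero] at h1
  exact zero_ne_one h1

end Pool.Agent.KG.FI1

namespace Pool.Agent.KG

alias exists_algF := FI1.exists_algF

alias det_nonpos := FI1.det_nonpos

alias gg_ne := FI1.gg_ne

end Pool.Agent.KG
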