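import Pool.Agent.Lib.MP_78c35a_an.Alg
import Pool.Agent.Lib.KG.Defs

/-!
# The Gear–Grimshaw system: definitions
-/

set_option autoImplicit false

namespace Pool.Agent.KG

open MeasureTheory Filter Topology Set
open Pool.Agent.Kdv
open scoped ENNReal ContDiff InnerProductSpace

/-- The vectors `E j` diagonalise the system. -/
structure AlgF (a a1 a2 b c r : ℝ) (E : Fin 2 → Fin 2 → ℝ) (mu : Fin 2 → ℝ) : Prop where
  mu_pos : ∀ j, 0 < mu j
  eig0 : ∀ j, E j 0 + a * E j 1 = mu j * E j 0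
  eig1 : ∀ j, a * b * E j 0 + E j 1 = c * mu j * E j 1
  c00 : b * ∑ j, E j 0 ^ 2 = 1
  c01 : ∑ j, E j 0 * E j 1 = 0
  c11 : c * ∑ j, E j 1 ^ 2 = 1

/-- The parameters of the diagonalised system. -/
noncomputable def prOf {L a a1 a2 b c r : ℝ} {E : Fin 2 → Fin 2 → ℝ} {mu : Fin 2 → ℝ}
    (hL : 0 < L) (hA : AlgF a a1 a2 b c r E mu) : Pr 2 where
  L := L
  hL := hL
  mu := mu
  hmu := hA.mu_pos
  g := gg a1 a2 b E
  g12 j k l := by unfold gg; ring
  g23 j k l := by unfold gg; ring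
  S j k := r * E j 1 * E k 1
  hS j k := by ring

end Pool.Agent.KG
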