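import Mathlib

/-!
# Gronwall in integrated form (row Inf01b)

`gronwall_lin`: `ψ t = exp (-∫₀ᵗ β) (a + ∫₀ᵗ β φ)` is antitone on `[0, T]`
(`antitoneOn_of_deriv_nonpos`; the derivative is `exp(..) β (φ - (a + ∫ β φ)) ≤ 0`).
`gronwall_sqrt`: `ψ t = δ² + N 0 ^ 2 + ∫₀ᵗ (2 β N² + 2 γ N) ≥ N t ^ 2`, `ψ > 0`,
`(√ψ)' ≤ β √ψ + γ`; so `exp (-∫ β) √ψ - ∫ γ` is antitone; let `δ → 0`.
-/

set_option autoImplicit false

namespace Pool.Agent.KG

open MeasureTheory Filter Topology Set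
open scoped ENNReal ContDiff InnerProductSpace

private theorem prim_Inf01b {f : ℝ → ℝ} {T : ℝ} (hf : ContinuousOn f (Icc 0 T)) (hT : 0 ≤ T) :
    ContinuousOn (fun t => ∫ s in (0 : ℝ)..t, f s) (Icc 0 T) ∧
      ∀ x ∈ Ioo 0 T, HasDerivAt (fun t => ∫ s in (0 : ℝ)..t, f s) (f x) x := by
  constructor
  · have h1 : IntegrableOn f (uIcc 0 T) := by
      rw [uIcc_of_le hT]
      exact hf.integrableOn_Icc
    have h2 := intervalIntegral.continuousOn_primitive_interval h1
    rwa [uIcc_of_le hT] at h2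
  · intro x hx
    have h1 : IntervalIntegrable f volume 0 x := by
      refine ContinuousOn.intervalIntegrable ?_
      rw [uIcc_of_le hx.1.le]
      exact hf.mono (Icc_subset_Icc_right hx.2.le)
    have h2 : ContinuousOn f (Ioo 0 T) := hf.mono Ioo_subset_Icc_self
    exact intervalIntegral.integral_hasDerivAt_right h1
      (h2.stronglyMeasurableAtFilter isOpen_Ioo x hx) (h2.continuousAt (isOpen_Ioo.mem_nhds hx))

theorem gronwall_lin {φ β : ℝ → ℝ} {a T : ℝ} (hφ : ContinuousOn φ (Icc 0 T))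
    (hβ : ContinuousOn β (Icc 0 T)) (hβ0 : ∀ t ∈ Icc 0 T, 0 ≤ β t)
    (h : ∀ t ∈ Icc 0 T, φ t ≤ a + ∫ s in (0 : ℝ)..t, β s * φ s) {t : ℝ} (ht : t ∈ Icc 0 T) :
    φ t ≤ a * Real.exp (∫ s in (0 : ℝ)..t, β s) := by
  have hT : 0 ≤ T := ht.1.trans ht.2
  obtain ⟨cB, dB⟩ := prim_Inf01b hβ hT
  obtain ⟨cF, dF⟩ := prim_Inf01b (hβ.mul hφ) hT
  set B : ℝ → ℝ := fun t => ∫ s in (0 : ℝ)..t, β s with hB
  set F : ℝ → ℝ := fun t => ∫ s in (0 : ℝ)..t, β s * φ s with hF
  have hψc : ContinuousOn (fun t => Real.exp (-B t) * (a + F t)) (Icc 0 T) :=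
    (Real.continuous_exp.comp_continuousOn cB.neg).mul (continuousOn_const.add cF)
  have hd : ∀ x ∈ Ioo 0 T, HasDerivAt (fun t => Real.exp (-B t) * (a + F t))
      (Real.exp (-B x) * (-β x) * (a + F x) + Real.exp (-B x) * (β x * φ x)) x := by
    intro x hx
    exact ((dB x hx).neg.exp).mul ((dF x hx).const_add a)
  have hanti : AntitoneOn (fun t => Real.exp (-B t) * (a + F t)) (Icc 0 T) := by
    refine antitoneOn_of_deriv_nonpos (convex_Icc 0 T) hψc ?_ ?_
    · rw [interior_Icc]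
      exact fun x hx => (hd x hx).differentiableAt.differentiableWithinAt
    · rw [interior_Icc]
      intro x hx
      rw [(hd x hx).deriv]
      have h1 := h x (Ioo_subset_Icc_self hx)
      have h2 := hβ0 x (Ioo_subset_Icc_self hx)
      have h3 := Real.exp_pos (-B x)
      have h4 : Real.exp (-B x) * (-β x) * (a + F x) + Real.exp (-B x) * (β x * φ x) =
          -(Real.exp (-B x) * β x * ((a + F x) - φ x)) := by ring
      rw [h4]
      have h5 : 0 ≤ (a + F x) - φ x := by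
        have h6 : φ x ≤ a + F x := h1
        linarith
      have h7 := mul_nonneg (mul_nonneg h3.le h2) h5
      linarith
  have h0 : (0 : ℝ) ∈ Icc 0 T := ⟨le_rfl, hT⟩
  have h1 := hanti h0 ht ht.1
  have hB0 : B 0 = 0 := by simp [hB]
  have hF0 : F 0 = 0 := by simp [hF]
  simp only [hB0, hF0, neg_zero, Real.exp_zero, one_mul, add_zero] at h1
  have h2 : a + F t ≤ a * Real.exp (B t) := by
    have h3 := mul_le_mul_of_nonneg_right h1 (Real.exp_pos (B t)).le
    have h4 : Real.exp (-B t) * (a + F t) * Real.exp (B t) = a + F t := by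
      rw [mul_right_comm, ← Real.exp_add, neg_add_cancel, Real.exp_zero, one_mul]
    rwa [h4] at h3
  exact (h t ht).trans h2

theorem gronwall_sqrt {N β γ : ℝ → ℝ} {T : ℝ} (hN : ContinuousOn N (Icc 0 T))
    (hN0 : ∀ t ∈ Icc 0 T, 0 ≤ N t) (hβ : ContinuousOn β (Icc 0 T))
    (hβ0 : ∀ t ∈ Icc 0 T, 0 ≤ β t) (hγ : ContinuousOn γ (Icc 0 T))
    (hγ0 : ∀ t ∈ Icc 0 T, 0 ≤ γ t)
    (h : ∀ t ∈ Icc 0 T, N t ^ 2 ≤ N 0 ^ 2 +
      ∫ s in (0 : ℝ)..t, (2 * β s * N s ^ 2 + 2 * γ s * N s)) {t : ℝ} (ht : t ∈ Icc 0 T) :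
    N t ≤ Real.exp (∫ s in (0 : ℝ)..t, β s) * (N 0 + ∫ s in (0 : ℝ)..t, γ s) := by
  have hT : 0 ≤ T := ht.1.trans ht.2
  have h0 : (0 : ℝ) ∈ Icc 0 T := ⟨le_rfl, hT⟩
  obtain ⟨cB, dB⟩ := prim_Inf01b hβ hT
  obtain ⟨cG, dG⟩ := prim_Inf01b hγ hT
  have hcont : ContinuousOn (fun s => 2 * β s * N s ^ 2 + 2 * γ s * N s) (Icc 0 T) :=
    ((continuousOn_const.mul hβ).mul (hN.pow 2)).add ((continuousOn_const.mul hγ).mul hN)
  obtain ⟨cF, dF⟩ := prim_Inf01b hcont hT
  set B : ℝ → ℝ := fun t => ∫ s in (0 : ℝ)..t, β s with hB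
  set G : ℝ → ℝ := fun t => ∫ s in (0 : ℝ)..t, γ s with hG
  set F : ℝ → ℝ := fun t => ∫ s in (0 : ℝ)..t, (2 * β s * N s ^ 2 + 2 * γ s * N s) with hF
  have hB0 : B 0 = 0 := by simp [hB]
  have hG0 : G 0 = 0 := by simp [hG]
  have hF0 : F 0 = 0 := by simp [hF]
  have hBnn : ∀ x ∈ Icc 0 T, 0 ≤ B x := by
    intro x hx
    exact intervalIntegral.integral_nonneg hx.1 fun s hs => hβ0 s ⟨hs.1, hs.2.trans hx.2⟩
  -- the estimate with an additional positive number
  have key : ∀ δ : ℝ, 0 < δ → N t ≤ Real.exp (B t) * (N 0 + δ + G t) := by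
    intro δ hδ
    set ψ : ℝ → ℝ := fun t => δ ^ 2 + N 0 ^ 2 + F t with hψ
    have hψN : ∀ x ∈ Icc 0 T, N x ^ 2 + δ ^ 2 ≤ ψ x := by
      intro x hx
      have h1 : N x ^ 2 ≤ N 0 ^ 2 + F x := h x hx
      simp only [hψ]
      linarith
    have hψ0 : ∀ x ∈ Icc 0 T, 0 < ψ x := by
      intro x hx
      have h1 := hψN x hx
      have h2 : 0 < δ ^ 2 := by positivity
      nlinarith [sq_nonneg (N x)]
    have hNs : ∀ x ∈ Icc 0 T, N x ≤ Real.sqrt (ψ x) := by
      intro x hx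
      refine Real.le_sqrt_of_sq_le ?_
      have h1 := hψN x hx
      nlinarith [sq_nonneg δ]
    have cψ : ContinuousOn ψ (Icc 0 T) := continuousOn_const.add cF
    have dψ : ∀ x ∈ Ioo 0 T, HasDerivAt ψ (2 * β x * N x ^ 2 + 2 * γ x * N x) x :=
      fun x hx => (dF x hx).const_add _
    have hd : ∀ x ∈ Ioo 0 T, HasDerivAt (fun t => Real.exp (-B t) * Real.sqrt (ψ t) - G t)
        (Real.exp (-B x) * (-β x) * Real.sqrt (ψ x) + Real.exp (-B x) *
          ((2 * β x * N x ^ 2 + 2 * γ x * N x) / (2 * Real.sqrt (ψ x))) - γ x) x := by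
      intro x hx
      have h1 := hψ0 x (Ioo_subset_Icc_self hx)
      exact (((dB x hx).neg.exp).mul ((dψ x hx).sqrt h1.ne')).sub (dG x hx)
    have hanti : AntitoneOn (fun t => Real.exp (-B t) * Real.sqrt (ψ t) - G t) (Icc 0 T) := by
      refine antitoneOn_of_deriv_nonpos (convex_Icc 0 T) ?_ ?_ ?_
      · exact ((Real.continuous_exp.comp_continuousOn cB.neg).mul
          (Real.continuous_sqrt.comp_continuousOn cψ)).sub cG
      · rw [interior_Icc]
        exact fun x hx => (hd x hx).differentiableAt.differentiableWithinAt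
      · rw [interior_Icc]
        intro x hx
        rw [(hd x hx).deriv]
        have hx' := Ioo_subset_Icc_self hx
        have h1 := hβ0 x hx'
        have h2 := hγ0 x hx'
        have h3 : Real.exp (-B x) ≤ 1 := by
          rw [Real.exp_le_one_iff]
          have := hBnn x hx'
          linarith
        have h4 := Real.exp_pos (-B x)
        have h5 := hNs x hx'
        have h6 := hN0 x hx'
        have h7 : 0 < Real.sqrt (ψ x) := Real.sqrt_pos.mpr (hψ0 x hx')
        have h8 : (2 * β x * N x ^ 2 + 2 * γ x * N x) / (2 * Real.sqrt (ψ x)) ≤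
            β x * Real.sqrt (ψ x) + γ x := by
          rw [div_le_iff₀ (by positivity)]
          have h9 : N x ^ 2 ≤ Real.sqrt (ψ x) * Real.sqrt (ψ x) := by nlinarith
          have h10 := mul_le_mul_of_nonneg_left h9 h1
          have h11 := mul_le_mul_of_nonneg_left h5 h2
          nlinarith
        have h12 := mul_le_mul_of_nonneg_left h8 h4.le
        have h13 : Real.exp (-B x) * γ x ≤ γ x := by nlinarith
        nlinarith
    have h1 := hanti h0 ht ht.1
    simp only [hB0, hG0, neg_zero, Real.exp_zero, one_mul, sub_zero] at h1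
    have h2 : Real.sqrt (ψ 0) ≤ N 0 + δ := by
      rw [Real.sqrt_le_left (by have := hN0 0 h0; linarith)]
      simp only [hψ, hF0]
      have := hN0 0 h0
      nlinarith
    have h3 : Real.exp (-B t) * Real.sqrt (ψ t) ≤ N 0 + δ + G t := by linarith
    have h4 := mul_le_mul_of_nonneg_left h3 (Real.exp_pos (B t)).le
    have h5 : Real.exp (B t) * (Real.exp (-B t) * Real.sqrt (ψ t)) = Real.sqrt (ψ t) := by
      rw [← mul_assoc, ← Real.exp_add, add_neg_cancel, Real.exp_zero, one_mul]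
    rw [h5] at h4
    exact (hNs t ht).trans h4
  refine le_of_forall_pos_le_add fun ε hε => ?_
  have h1 := key (ε * Real.exp (-B t)) (mul_pos hε (Real.exp_pos _))
  have h2 : Real.exp (B t) * (N 0 + ε * Real.exp (-B t) + G t) =
      Real.exp (B t) * (N 0 + G t) + ε := by
    have h3 : Real.exp (B t) * Real.exp (-B t) = 1 := by
      rw [← Real.exp_add, add_neg_cancel, Real.exp_zero]
    linear_combination ε * h3
  rwa [h2] at h1

end Pool.Agent.KG
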