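import Pool.Agent.Lib.KG.Inf01a
import Pool.Agent.Lib.KG.Inf01b

/-!
# Existence with a source (row Inf01)

Copy `Glob.lean` with `nsol_local` (the source of the piece starting at `s` is `r (s + ·)`). A
priori bound: along a solution on `[0, t1]`, `t1 ≤ T`, let `M` be the maximum of `‖traj‖` on
`[0, t1]`; `Sm.energy` gives `φ t = ‖traj t‖² ≤ ‖y‖² + 2 M ρ + ∫₀ᵗ 2 K φ`, `ρ = ∫ ‖r‖`; by
`gronwall_lin`, `M² ≤ A (‖y‖² + 2 M ρ)`, `A = exp (2 K T)`, so `M ≤ √A ‖y‖ + 2 A ρ`.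
-/

set_option autoImplicit false

namespace Pool.Agent.KG

open MeasureTheory Filter Topology Set
open Pool.Agent.Kdv
open scoped ENNReal ContDiff InnerProductSpace

variable {H V : Type} [NormedAddCommGroup H] [InnerProductSpace ℝ H] [CompleteSpace H]
  [NormedAddCommGroup V] [NormedSpace ℝ V] [CompleteSpace V]

theorem Inf01_arith {M A a ρ : ℝ} (hA : 1 ≤ A) (ha : 0 ≤ a) (hρ : 0 ≤ ρ)
    (h : M ^ 2 ≤ A * (a ^ 2 + 2 * M * ρ)) : M ≤ √A * a + 2 * A * ρ := by
  by_contra hlt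
  rw [not_le] at hlt
  have hA0 : 0 ≤ A := by linarith
  have hs : √A ^ 2 = A := Real.sq_sqrt hA0
  have hs0 : 0 ≤ √A := Real.sqrt_nonneg A
  have h1 : 0 ≤ √A * a := mul_nonneg hs0 ha
  have h2 : 0 ≤ 2 * A * ρ := by positivity
  have hM : 0 < M := by linarith
  have h3 : √A * a ≤ M := by linarith
  have h4 : (√A * a) * (√A * a) ≤ M * (√A * a) := mul_le_mul_of_nonneg_right h3 h1
  have h5 : M * (√A * a + 2 * A * ρ) < M * M := mul_lt_mul_of_pos_left hlt hM
  have h6 : (√A * a) * (√A * a) = A * a ^ 2 := by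
    calc (√A * a) * (√A * a) = √A ^ 2 * a ^ 2 := by ring
      _ = _ := by rw [hs]
  nlinarith

omit [CompleteSpace V] in
/-- A priori bound. -/
theorem Inf01_bound (S : Sm H V) {T K : ℝ} (hK : 0 ≤ K) {n : ℝ → V → H}
    (hd : ∀ t p, inner ℝ (n t p) (S.inc p) ≤ K * ‖S.inc p‖ ^ 2)
    {r : ℝ → H} (hr : Integrable r) {y : H} {t1 : ℝ} (h0 : 0 ≤ t1) (h1 : t1 ≤ T)
    {f : ℝ → H} {v : ℝ → V} (h : S.Path y t1 f v)
    (hf : ∀ᵐ t ∂volume.restrict (Ioc 0 t1), f t = n t (v t) + r t) :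
    ‖S.traj y f t1‖ ≤ √(Real.exp (2 * K * T)) * ‖y‖ +
      2 * Real.exp (2 * K * T) * ∫ t, ‖r t‖ := by
  have hT : 0 ≤ T := h0.trans h1
  have hc : ContinuousOn (S.traj y f) (Icc 0 t1) := S.traj_cont y h0 h.int
  have hcn : ContinuousOn (fun t => ‖S.traj y f t‖) (Icc 0 t1) := hc.norm
  obtain ⟨t0, ht0, hmax⟩ := isCompact_Icc.exists_isMaxOn ⟨t1, ⟨h0, le_rfl⟩⟩ hcn
  have hmax' : ∀ t ∈ Icc 0 t1, ‖S.traj y f t‖ ≤ ‖S.traj y f t0‖ := fun t ht => hmax ht
  refine (hmax' t1 ⟨h0, le_rfl⟩).trans ?_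
  generalize hM : ‖S.traj y f t0‖ = M at hmax'
  have hM0 : 0 ≤ M := by rw [← hM]; exact norm_nonneg _
  have hρ : 0 ≤ ∫ t, ‖r t‖ := integral_nonneg fun t => norm_nonneg _
  have hA : 1 ≤ Real.exp (2 * K * T) := Real.one_le_exp (by positivity)
  refine Inf01_arith hA (norm_nonneg y) hρ ?_
  have hcφ : ContinuousOn (fun t => ‖S.traj y f t‖ ^ 2) (Icc 0 t1) := hcn.pow 2
  have hφ : ∀ t ∈ Icc 0 t1, ‖S.traj y f t‖ ^ 2 ≤
      (‖y‖ ^ 2 + 2 * M * ∫ t, ‖r t‖) + ∫ s in (0 : ℝ)..t, 2 * K * ‖S.traj y f s‖ ^ 2 := by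
    intro t ht
    have hsub : Ioc (0 : ℝ) t ⊆ Ioc 0 t1 := Ioc_subset_Ioc_right ht.2
    have e1 := S.energy y h.int ht
    have i1 : IntegrableOn (fun s => 2 * K * ‖S.traj y f s‖ ^ 2) (Ioc 0 t) :=
      ((hcφ.mono (Icc_subset_Icc_right ht.2)).const_smul (2 * K)).integrableOn_Icc.mono_set
        Ioc_subset_Icc_self
    have i2 : IntegrableOn (fun s => 2 * M * ‖r s‖) (Ioc 0 t) :=
      (hr.norm.const_mul (2 * M)).integrableOn
    have i3 : IntegrableOn (fun s => (inner ℝ (f s) (S.traj y f s) : ℝ)) (Ioc 0 t) :=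
      inner_int ht.1 (h.int.mono_set hsub) (hc.mono (Icc_subset_Icc_right ht.2))
    have e2 : ∫ s in (0 : ℝ)..t, (inner ℝ (f s) (S.traj y f s) : ℝ) ≤
        ∫ s in (0 : ℝ)..t, (K * ‖S.traj y f s‖ ^ 2 + M * ‖r s‖) := by
      rw [intervalIntegral.integral_of_le ht.1, intervalIntegral.integral_of_le ht.1]
      refine integral_mono_ae i3 ?_ ?_
      · have h5 := (i1.const_mul (1 / 2)).add (i2.const_mul (1 / 2))
        refine h5.congr (Eventually.of_forall fun s => ?_)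
        show 1 / 2 * (2 * K * ‖S.traj y f s‖ ^ 2) + 1 / 2 * (2 * M * ‖r s‖) = _
        ring
      · have hf' : ∀ᵐ s ∂volume.restrict (Ioc 0 t), f s = n s (v s) + r s :=
          ae_restrict_of_ae_restrict_of_subset hsub hf
        have hl' : ∀ᵐ s ∂volume.restrict (Ioc (0 : ℝ) t), S.inc (v s) = S.traj y f s :=
          ae_restrict_of_ae_restrict_of_subset hsub h.lift
        filter_upwards [hf', hl', ae_restrict_mem measurableSet_Ioc] with s h6 h7 h8
        have h9 : (inner ℝ (f s) (S.traj y f s) : ℝ) =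
            inner ℝ (n s (v s)) (S.inc (v s)) + inner ℝ (r s) (S.traj y f s) := by
          conv_lhs => rw [h6]
          rw [inner_add_left, h7]
        rw [h9]
        refine add_le_add ?_ ?_
        · have := hd s (v s)
          rwa [h7] at this ⊢
        · refine (real_inner_le_norm _ _).trans ?_
          rw [mul_comm]
          exact mul_le_mul_of_nonneg_right (hmax' s ⟨h8.1.le, h8.2.trans ht.2⟩) (norm_nonneg _)
    have e3 : ∫ s in (0 : ℝ)..t, (K * ‖S.traj y f s‖ ^ 2 + M * ‖r s‖) =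
        1 / 2 * (∫ s in (0 : ℝ)..t, 2 * K * ‖S.traj y f s‖ ^ 2) +
          M * ∫ s in (0 : ℝ)..t, ‖r s‖ := by
      rw [← intervalIntegral.integral_const_mul, ← intervalIntegral.integral_const_mul,
        ← intervalIntegral.integral_add]
      · refine intervalIntegral.integral_congr fun s _ => ?_
        show K * ‖S.traj y f s‖ ^ 2 + M * ‖r s‖ =
          1 / 2 * (2 * K * ‖S.traj y f s‖ ^ 2) + M * ‖r s‖
        ring
      · rw [intervalIntegrable_iff_integrableOn_Ioc_of_le ht.1]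
        exact i1.const_mul _
      · rw [intervalIntegrable_iff_integrableOn_Ioc_of_le ht.1]
        exact (hr.norm.const_mul M).integrableOn
    have e4 : ∫ s in (0 : ℝ)..t, ‖r s‖ ≤ ∫ t, ‖r t‖ := by
      rw [intervalIntegral.integral_of_le ht.1]
      exact setIntegral_le_integral hr.norm (Eventually.of_forall fun s => norm_nonneg _)
    have e5 : M * ∫ s in (0 : ℝ)..t, ‖r s‖ ≤ M * ∫ t, ‖r t‖ := mul_le_mul_of_nonneg_left e4 hM0
    rw [e1]
    rw [e3] at e2
    linarith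
  have h10 := gronwall_lin (β := fun _ => 2 * K) hcφ continuousOn_const
    (fun t _ => by positivity) hφ ht0
  rw [hM] at h10
  have h11 : ∫ _ in (0 : ℝ)..t0, 2 * K = 2 * K * t0 := by
    rw [intervalIntegral.integral_const, smul_eq_mul]
    ring
  rw [h11] at h10
  refine h10.trans ?_
  rw [mul_comm]
  refine mul_le_mul_of_nonneg_right (Real.exp_le_exp.2 ?_) (by positivity)
  exact mul_le_mul_of_nonneg_left (ht0.2.trans h1) (by positivity)

/-- INF1. Existence for non-autonomous equations with an integrable source. -/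
theorem nsol (S : Sm H V) {T K : ℝ} (hT : 0 < T) (hK : 0 ≤ K) {n : ℝ → V → H}
    (hc : Continuous fun x : ℝ × V => n x.1 x.2) (hq : ∀ t, S.Quad (n t) K)
    (h0 : ∀ t, n t 0 = 0) (hd : ∀ t p, inner ℝ (n t p) (S.inc p) ≤ K * ‖S.inc p‖ ^ 2)
    {r : ℝ → H} (hr : IntegrableOn r (Ioc 0 T)) (y : H) :
    ∃ (f : ℝ → H) (v : ℝ → V), S.Path y T f v ∧
      ∀ᵐ t ∂volume.restrict (Ioc 0 T), f t = n t (v t) + r t := by
  set q : ℝ → H := (Ioc 0 T).indicator r with hqdef
  have hqi : Integrable q := (integrable_indicator_iff measurableSet_Ioc).2 hr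
  set ρ : ℝ := ∫ t, ‖q t‖ with hρ
  set R0 : ℝ := √(Real.exp (2 * K * T)) * ‖y‖ + 2 * Real.exp (2 * K * T) * ρ with hR0
  obtain ⟨τ, hτ, hloc⟩ := nsol_local S hK hc hq h0 (R0 + ρ)
  obtain ⟨N, hN⟩ := exists_nat_gt (T / τ)
  have hNpos : (0 : ℝ) < N := lt_trans (div_pos hT hτ) hN
  set σ : ℝ := T / N with hσ
  have hσ0 : 0 < σ := div_pos hT hNpos
  have hστ : σ ≤ τ := by
    rw [hσ, div_le_iff₀ hNpos]
    rw [div_lt_iff₀ hτ] at hN
    linarith [mul_comm (N : ℝ) τ]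
  have hNσ : (N : ℝ) * σ = T := by
    rw [hσ]
    field_simp
  have key : ∀ k : ℕ, k ≤ N → ∃ (f : ℝ → H) (v : ℝ → V), S.Path y (k * σ) f v ∧
      ∀ᵐ t ∂volume.restrict (Ioc 0 (k * σ)), f t = n t (v t) + q t := by
    intro k
    induction k with
    | zero =>
      intro _
      refine ⟨fun _ => 0, fun _ => 0, ⟨?_, ?_, ?_, ?_⟩, ?_⟩ <;> simp
    | succ k ih =>
      intro hk
      obtain ⟨f, v, h1, h2⟩ := ih (Nat.le_of_succ_le hk)
      have hk0 : (0 : ℝ) ≤ k * σ := by positivity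
      have hkT : (k : ℝ) * σ ≤ T := by
        rw [← hNσ]
        exact mul_le_mul_of_nonneg_right (by exact_mod_cast Nat.le_of_succ_le hk) hσ0.le
      have h3 : ‖S.traj y f (k * σ)‖ ≤ R0 := Inf01_bound S hK hd hqi hk0 hkT h1 h2
      have hqs : Integrable fun t => q (k * σ + t) := hqi.comp_add_left _
      have h4 : ∫ t in Ioc 0 τ, ‖q (k * σ + t)‖ ≤ ρ := by
        refine (setIntegral_le_integral hqs.norm
          (Eventually.of_forall fun s => norm_nonneg _)).trans ?_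
        rw [hρ]
        exact (integral_add_left_eq_self (fun t => ‖q t‖) ((k : ℝ) * σ)).le
      obtain ⟨g, w, h5, h6⟩ := hloc (k * σ) (S.traj y f (k * σ)) (fun t => q (k * σ + t))
        hqs.integrableOn (by linarith)
      have h5' := h5.mono hστ
      have h6' : ∀ᵐ t ∂volume.restrict (Ioc 0 σ), g t = n (k * σ + t) (w t) + q (k * σ + t) :=
        ae_restrict_of_ae_restrict_of_subset (Ioc_subset_Ioc_right hστ) h6
      have h7 : ((k + 1 : ℕ) : ℝ) * σ = k * σ + σ := by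
        push_cast
        ring
      rw [h7]
      refine ⟨_, _, h1.glue hk0 hσ0.le h5', ?_⟩
      rw [ae_restrict_iff' measurableSet_Ioc] at h2 ⊢
      filter_upwards [h2, ae_shift (a := (k : ℝ) * σ) h6'] with t h8 h9 h10
      rcases le_or_gt t (k * σ) with h | h
      · rw [glue_of_le _ _ h, glue_of_le _ _ h]
        exact h8 ⟨h10.1, h⟩
      · rw [glue_of_lt _ _ h, glue_of_lt _ _ h]
        have h11 := h9 ⟨h, h10.2⟩
        rwa [add_sub_cancel] at h11
  obtain ⟨f, v, h1, h2⟩ := key N le_rfl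
  rw [hNσ] at h1 h2
  refine ⟨f, v, h1, ?_⟩
  filter_upwards [h2, ae_restrict_mem measurableSet_Ioc] with t h3 h4
  rw [h3, hqdef, indicator_of_mem h4]

end Pool.Agent.KG
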