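import Pool.Agent.Lib.MP_78c35a_an.Glob

/-!
# Local existence with a source (row Inf01a)
-/

set_option autoImplicit false

namespace Pool.Agent.KG

open MeasureTheory Filter Topology Set
open Pool.Agent.Kdv
open scoped ENNReal ContDiff InnerProductSpace

variable {H V : Type} [NormedAddCommGroup H] [InnerProductSpace ℝ H] [CompleteSpace H]
  [NormedAddCommGroup V] [NormedSpace ℝ V] [CompleteSpace V]

omit [CompleteSpace H] [CompleteSpace V] in
/-- The integrated bound. -/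
private lemma Inf01a_key (S : Sm H V) {n : ℝ → V → H} {K : ℝ} (hK : 0 ≤ K)
    (hc : Continuous fun x : ℝ × V => n x.1 x.2) (hn : ∀ t, S.Quad (n t) K) (s : ℝ) {m d l : ℝ}
    (hm : 0 ≤ m) (hd : 0 ≤ d) (hl : 0 < l) (hl1 : l ≤ 1) (a b : YL V (l ^ 4))
    (ha : ∀ᵐ t ∂volume.restrict (Ioc 0 (l ^ 4)), ‖S.inc (a t)‖ ≤ m)
    (hb : ∀ᵐ t ∂volume.restrict (Ioc 0 (l ^ 4)), ‖S.inc (b t)‖ ≤ m)
    (hab : ∀ᵐ t ∂volume.restrict (Ioc 0 (l ^ 4)), ‖S.inc (a t - b t)‖ ≤ d)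
    (hna : ‖a‖ ^ 2 ≤ S.C * m ^ 2) (hnb : ‖b‖ ^ 2 ≤ S.C * m ^ 2)
    (hnab : ‖a - b‖ ^ 2 ≤ S.C * d ^ 2) :
    IntegrableOn (fun t => n (s + t) (a t) - n (s + t) (b t)) (Ioc 0 (l ^ 4)) ∧
      ∫ t in Ioc 0 (l ^ 4), ‖n (s + t) (a t) - n (s + t) (b t)‖ ≤ K * LocalAux.BB S.C m * l * d := by
  have hτ : (0 : ℝ) ≤ l ^ 4 := by positivity
  have hC := S.C_nonneg
  have hmeas : AEStronglyMeasurable (fun t => n (s + t) (a t) - n (s + t) (b t))
      (volume.restrict (Ioc 0 (l ^ 4))) :=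
    (hc.comp_aestronglyMeasurable ((by fun_prop : Continuous fun t : ℝ => s + t)
      |>.aestronglyMeasurable.prodMk (Lp.aestronglyMeasurable a))).sub
      (hc.comp_aestronglyMeasurable ((by fun_prop : Continuous fun t : ℝ => s + t)
      |>.aestronglyMeasurable.prodMk (Lp.aestronglyMeasurable b)))
  have hsub : ∀ᵐ t ∂volume.restrict (Ioc 0 (l ^ 4)), (a - b : YL V (l ^ 4)) t = a t - b t :=
    Lp.coeFn_sub a b
  rcases hd.eq_or_lt with h0 | hd0
  · subst h0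
    have h1 : ‖a - b‖ = 0 := by nlinarith [norm_nonneg (a - b)]
    have h2 : a = b := by rwa [norm_eq_zero, sub_eq_zero] at h1
    subst h2
    simp
  · have hw := LocalAux.YL_sq (a - b)
    have hA := LocalAux.YL_sq a
    have hB := LocalAux.YL_sq b
    set G : ℝ → ℝ := fun t => K * ((l ^ 2 / 2 + l + l / 2) * (‖(a - b : YL V (l ^ 4)) t‖ ^ 2 / d) +
      (m * l / 4 + l / 2) * (d * (‖a t‖ ^ 2 + ‖b t‖ ^ 2)) +
        (1 / (2 * l ^ 2) + m / (2 * l ^ 3) + 1 / (2 * l ^ 3)) * d) with hG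
    have hGi : IntegrableOn G (Ioc 0 (l ^ 4)) := by
      refine Integrable.const_mul (((((hw.1.div_const _).const_mul _)).add
        (((hA.1.add hB.1).const_mul _).const_mul _)).add ?_) _
      exact integrableOn_const (by simp)
    have hle : ∀ᵐ t ∂volume.restrict (Ioc 0 (l ^ 4)), ‖n (s + t) (a t) - n (s + t) (b t)‖ ≤ G t := by
      filter_upwards [ha, hb, hab, hsub] with t h1 h2 h3 h4
      refine (hn (s + t) (a t) (b t)).trans ?_
      rw [hG]
      simp only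
      rw [h4]
      refine mul_le_mul_of_nonneg_left ?_ hK
      refine le_trans ?_ (LocalAux.pw (norm_nonneg (a t)) (norm_nonneg (b t)) (norm_nonneg (a t - b t))
        hd0 hm hl)
      gcongr
    refine ⟨hGi.mono' hmeas hle, ?_⟩
    have hI : ∫ t in Ioc 0 (l ^ 4), G t = K * ((l ^ 2 / 2 + l + l / 2) * (‖a - b‖ ^ 2 / d) +
      (m * l / 4 + l / 2) * (d * (‖a‖ ^ 2 + ‖b‖ ^ 2)) +
        (1 / (2 * l ^ 2) + m / (2 * l ^ 3) + 1 / (2 * l ^ 3)) * d * l ^ 4) := by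
      rw [hG, integral_const_mul, integral_add, integral_add, integral_const_mul,
        integral_div, integral_const_mul, integral_const_mul, integral_add hA.1 hB.1, hw.2, hA.2,
        hB.2]
      · simp [hτ]
        left
        ring
      · exact (hw.1.div_const _).const_mul _
      · exact ((hA.1.add hB.1).const_mul _).const_mul _
      · exact ((hw.1.div_const _).const_mul _).add (((hA.1.add hB.1).const_mul _).const_mul _)
      · exact integrableOn_const (by simp)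
    calc ∫ t in Ioc 0 (l ^ 4), ‖n (s + t) (a t) - n (s + t) (b t)‖
        ≤ ∫ t in Ioc 0 (l ^ 4), G t := by
          refine integral_mono_of_nonneg (Eventually.of_forall fun t => norm_nonneg _) hGi hle
      _ ≤ K * LocalAux.BB S.C m * l * d := by
          rw [hI]
          have e1 : ‖a - b‖ ^ 2 / d ≤ S.C * d := by
            rw [div_le_iff₀ hd0]
            nlinarith
          have e2 : (1 / (2 * l ^ 2) + m / (2 * l ^ 3) + 1 / (2 * l ^ 3)) * d * l ^ 4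
              = (l ^ 2 / 2 + m * l / 2 + l / 2) * d := by
            field_simp
          have e3 : l ^ 2 ≤ l := by nlinarith
          rw [e2]
          calc K * ((l ^ 2 / 2 + l + l / 2) * (‖a - b‖ ^ 2 / d) +
              (m * l / 4 + l / 2) * (d * (‖a‖ ^ 2 + ‖b‖ ^ 2)) + (l ^ 2 / 2 + m * l / 2 + l / 2) * d)
              ≤ K * ((l / 2 + l + l / 2) * (S.C * d) +
              (m * l / 4 + l / 2) * (d * (S.C * m ^ 2 + S.C * m ^ 2)) +
              (l / 2 + m * l / 2 + l / 2) * d) := by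
                gcongr
            _ = K * LocalAux.BB S.C m * l * d := by
                unfold LocalAux.BB
                ring

theorem nsol_local (S : Sm H V) {K : ℝ} (hK : 0 ≤ K) {n : ℝ → V → H}
    (hc : Continuous fun x : ℝ × V => n x.1 x.2) (hq : ∀ t, S.Quad (n t) K)
    (h0 : ∀ t, n t 0 = 0) (R : ℝ) :
    ∃ τ : ℝ, 0 < τ ∧ ∀ (s : ℝ) (y : H) (r : ℝ → H), IntegrableOn r (Ioc 0 τ) →
      ‖y‖ + (∫ t in Ioc 0 τ, ‖r t‖) ≤ R → ∃ (f : ℝ → H) (v : ℝ → V), S.Path y τ f v ∧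
        ∀ᵐ t ∂volume.restrict (Ioc 0 τ), f t = n (s + t) (v t) + r t := by
  by_cases hR : 0 ≤ R
  swap
  · refine ⟨1, one_pos, fun s y r hr hy => absurd (le_trans (add_nonneg (norm_nonneg y) ?_) hy) hR⟩
    exact integral_nonneg fun t => norm_nonneg _
  set m : ℝ := R + 1 with hm
  have hm1 : 1 ≤ m := by linarith
  have hm0 : 0 ≤ m := by linarith
  have hC := S.C_nonneg
  set B : ℝ := K * LocalAux.BB S.C m with hBdef
  have hBB : 0 ≤ LocalAux.BB S.C m := by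
    unfold LocalAux.BB
    positivity
  have hB0 : 0 ≤ B := mul_nonneg hK hBB
  obtain ⟨l, hl, hl1, hlB⟩ : ∃ l : ℝ, 0 < l ∧ l ≤ 1 ∧ B * l ≤ 1 / (2 * m) := by
    refine ⟨1 / (2 * m * (B + 1)), by positivity, ?_, ?_⟩
    · rw [div_le_one (by positivity)]
      nlinarith
    · rw [mul_one_div, div_le_div_iff₀ (by positivity) (by positivity)]
      nlinarith
  have hlB2 : B * l ≤ 1 / 2 := hlB.trans (by
    rw [div_le_div_iff₀ (by positivity) (by norm_num)]
    linarith)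
  have hτ0 : (0 : ℝ) < l ^ 4 := by positivity
  have hτ1 : l ^ 4 ≤ 1 := pow_le_one₀ hl.le hl1
  refine ⟨l ^ 4, hτ0, fun s y r hr hy => ?_⟩
  set ρ : XL H (l ^ 4) := (memLp_one_iff_integrable.2 hr).toLp _ with hρ
  have hρae : ∀ᵐ t ∂volume.restrict (Ioc 0 (l ^ 4)), ρ t = r t := MemLp.coeFn_toLp _
  have hρn : ‖ρ‖ = ∫ t in Ioc 0 (l ^ 4), ‖r t‖ := by
    rw [L1.norm_eq_integral_norm]
    refine integral_congr_ae ?_
    filter_upwards [hρae] with t ht
    rw [ht]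
  have hyρ : ‖y‖ + ‖ρ‖ ≤ R := by rw [hρn]; exact hy
  obtain ⟨Lf, hLf⟩ := S.exists_lift hτ0 hτ1
  -- bounds for the trajectory
  have htr : ∀ (z : H) (f : XL H (l ^ 4)), ∀ᵐ t ∂volume.restrict (Ioc 0 (l ^ 4)),
      ‖S.inc (Lf (z, f) t)‖ ≤ ‖z‖ + ‖f‖ := by
    intro z f
    filter_upwards [hLf.eq z f, ae_restrict_mem measurableSet_Ioc] with t ht htm
    rw [ht]
    have hfi : IntegrableOn (f : ℝ → H) (Ioc 0 (l ^ 4)) := L1.integrable_coeFn f
    refine (S.traj_norm z hfi ⟨htm.1.le, htm.2⟩).trans ?_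
    gcongr
    rw [L1.norm_eq_integral_norm, intervalIntegral.integral_of_le htm.1.le]
    exact setIntegral_mono_set hfi.norm (Eventually.of_forall fun t => norm_nonneg _)
      (Ioc_subset_Ioc_right htm.2).eventuallyLE
  have hsq : ∀ (z : H) (f : XL H (l ^ 4)) (c : ℝ), ‖z‖ + ‖f‖ ≤ c →
      ‖Lf (z, f)‖ ^ 2 ≤ S.C * c ^ 2 := by
    intro z f c hc
    have h1 := hLf.norm z f
    have h2 : ‖Lf (z, f)‖ ≤ √S.C * c := h1.trans (by gcongr)
    calc ‖Lf (z, f)‖ ^ 2 ≤ (√S.C * c) ^ 2 := by gcongr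
      _ = S.C * c ^ 2 := by rw [mul_pow, Real.sq_sqrt hC]
  -- the difference of two trajectories
  have hdiff : ∀ f g : XL H (l ^ 4), Lf (y, f + ρ) - Lf (y, g + ρ) = Lf (0, f - g) := by
    intro f g
    rw [← map_sub]
    simp
  have hfρ : ∀ f : XL H (l ^ 4), ‖f‖ ≤ 1 → ‖y‖ + ‖f + ρ‖ ≤ m := by
    intro f hf
    have := norm_add_le f ρ
    linarith
  -- estimate of the difference of the nonlinear terms
  have hest : ∀ f g : XL H (l ^ 4), ‖f‖ ≤ 1 → ‖g‖ ≤ 1 →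
      IntegrableOn (fun t => n (s + t) (Lf (y, f + ρ) t) - n (s + t) (Lf (y, g + ρ) t)) (Ioc 0 (l ^ 4)) ∧
      ∫ t in Ioc 0 (l ^ 4), ‖n (s + t) (Lf (y, f + ρ) t) - n (s + t) (Lf (y, g + ρ) t)‖ ≤ B * l * ‖f - g‖ := by
    intro f g hf hg
    refine Inf01a_key S hK hc hq s hm0 (norm_nonneg (f - g)) hl hl1 (Lf (y, f + ρ)) (Lf (y, g + ρ)) ?_ ?_ ?_
      (hsq y (f + ρ) m (hfρ f hf)) (hsq y (g + ρ) m (hfρ g hg)) ?_
    · filter_upwards [htr y (f + ρ)] with t ht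
      exact ht.trans (hfρ f hf)
    · filter_upwards [htr y (g + ρ)] with t ht
      exact ht.trans (hfρ g hg)
    · have h1 : ∀ᵐ t ∂volume.restrict (Ioc 0 (l ^ 4)),
          (Lf (y, f + ρ) - Lf (y, g + ρ) : YL V (l ^ 4)) t = Lf (y, f + ρ) t - Lf (y, g + ρ) t :=
        Lp.coeFn_sub _ _
      rw [hdiff] at h1
      filter_upwards [htr 0 (f - g), h1] with t ht h1
      rw [← h1]
      simpa using ht
    · rw [hdiff]
      exact hsq 0 (f - g) _ (by simp)
  have hest0 : ∀ f : XL H (l ^ 4), ‖f‖ ≤ 1 →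
      IntegrableOn (fun t => n (s + t) (Lf (y, f + ρ) t)) (Ioc 0 (l ^ 4)) ∧
      ∫ t in Ioc 0 (l ^ 4), ‖n (s + t) (Lf (y, f + ρ) t)‖ ≤ B * l * m := by
    intro f hf
    have hz : ∀ᵐ t ∂volume.restrict (Ioc 0 (l ^ 4)), (0 : YL V (l ^ 4)) t = 0 :=
      Lp.coeFn_zero V 2 _
    have h := Inf01a_key S hK hc hq s hm0 hm0 hl hl1 (Lf (y, f + ρ)) (0 : YL V (l ^ 4)) ?_ ?_ ?_
      (hsq y (f + ρ) m (hfρ f hf)) ?_ ?_
    · refine ⟨h.1.congr ?_, le_trans (le_of_eq ?_) h.2⟩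
      · filter_upwards [hz] with t ht
        rw [ht, h0, sub_zero]
      · refine integral_congr_ae ?_
        filter_upwards [hz] with t ht
        rw [ht, h0, sub_zero]
    · filter_upwards [htr y (f + ρ)] with t ht
      exact ht.trans (hfρ f hf)
    · filter_upwards [hz] with t ht
      rw [ht]
      simpa using hm0
    · filter_upwards [htr y (f + ρ), hz] with t ht h1
      rw [h1, sub_zero]
      exact ht.trans (hfρ f hf)
    · simpa using mul_nonneg hC (sq_nonneg m)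
    · rw [sub_zero]
      exact hsq y (f + ρ) m (hfρ f hf)
  -- the map
  have hmem : ∀ f : XL H (l ^ 4), ‖f‖ ≤ 1 →
      MemLp (fun t => n (s + t) (Lf (y, f + ρ) t)) 1 (volume.restrict (Ioc 0 (l ^ 4))) := fun f hf =>
    memLp_one_iff_integrable.2 (hest0 f hf).1
  classical
  set Φ : XL H (l ^ 4) → XL H (l ^ 4) := fun f => if h : ‖f‖ ≤ 1 then (hmem f h).toLp _ else 0
    with hΦ
  have hΦae : ∀ f : XL H (l ^ 4), ‖f‖ ≤ 1 → ∀ᵐ t ∂volume.restrict (Ioc 0 (l ^ 4)),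
      Φ f t = n (s + t) (Lf (y, f + ρ) t) := by
    intro f hf
    rw [hΦ]
    simp only [hf, dif_pos]
    exact MemLp.coeFn_toLp (hmem f hf)
  have hmaps : MapsTo Φ (Metric.closedBall 0 1) (Metric.closedBall 0 1) := by
    intro f hf
    rw [mem_closedBall_zero_iff] at hf ⊢
    rw [L1.norm_eq_integral_norm]
    have h1 : ∫ t in Ioc 0 (l ^ 4), ‖Φ f t‖ = ∫ t in Ioc 0 (l ^ 4), ‖n (s + t) (Lf (y, f + ρ) t)‖ := by
      refine integral_congr_ae ?_
      filter_upwards [hΦae f hf] with t ht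
      rw [ht]
    rw [h1]
    refine (hest0 f hf).2.trans ?_
    calc B * l * m ≤ 1 / (2 * m) * m := by gcongr
      _ ≤ 1 := by
        field_simp
        norm_num
  have hlip : ∀ f g : XL H (l ^ 4), ‖f‖ ≤ 1 → ‖g‖ ≤ 1 → dist (Φ f) (Φ g) ≤ 1 / 2 * dist f g := by
    intro f g hf hg
    rw [dist_eq_norm, dist_eq_norm, L1.norm_eq_integral_norm]
    have hs : ∀ᵐ t ∂volume.restrict (Ioc 0 (l ^ 4)), (Φ f - Φ g : XL H (l ^ 4)) t
        = Φ f t - Φ g t := Lp.coeFn_sub _ _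
    have h1 : ∫ t in Ioc 0 (l ^ 4), ‖(Φ f - Φ g : XL H (l ^ 4)) t‖
        = ∫ t in Ioc 0 (l ^ 4), ‖n (s + t) (Lf (y, f + ρ) t) - n (s + t) (Lf (y, g + ρ) t)‖ := by
      refine integral_congr_ae ?_
      filter_upwards [hΦae f hf, hΦae g hg, hs] with t h1 h2 h3
      rw [h3, h1, h2]
    rw [h1]
    refine (hest f g hf hg).2.trans ?_
    gcongr
  have hcw : ContractingWith (1 / 2 : NNReal)
      (hmaps.restrict Φ (Metric.closedBall 0 1) (Metric.closedBall 0 1)) := by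
    refine ⟨by rw [← NNReal.coe_lt_coe]; norm_num, LipschitzWith.of_dist_le_mul fun f g => ?_⟩
    have := hlip f g (mem_closedBall_zero_iff.1 f.2) (mem_closedBall_zero_iff.1 g.2)
    simpa [Subtype.dist_eq] using this
  obtain ⟨f, hf, hfix, -⟩ := hcw.exists_fixedPoint' (Metric.isClosed_closedBall.isComplete) hmaps
    (x := 0) (by simp) (edist_ne_top _ _)
  rw [mem_closedBall_zero_iff] at hf
  refine ⟨(f + ρ : XL H (l ^ 4)), Lf (y, f + ρ), ⟨L1.integrable_coeFn _,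
    Lp.aestronglyMeasurable _, ?_, hLf.eq y (f + ρ)⟩, ?_⟩
  · have := lintegral_rpow_enorm_lt_top_of_eLpNorm_lt_top (p := 2) (by norm_num) (by norm_num)
      (Lp.memLp (Lf (y, f + ρ))).2
    simpa using this
  · have h1 := hΦae f hf
    rw [hfix.eq] at h1
    have h2 : ∀ᵐ t ∂volume.restrict (Ioc 0 (l ^ 4)), (f + ρ : XL H (l ^ 4)) t = f t + ρ t :=
      Lp.coeFn_add _ _
    filter_upwards [h1, h2, hρae] with t h3 h4 h5
    rw [h4, h3, h5]

end Pool.Agent.KG
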