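import Pool.Agent.Lib.MP_78c35a_an.TrajA

/-!
# Curves in the domain of the generator are trajectories (row Inf02)

`F s = U (-s) (b s)` has the derivative `U (-s) (β s + G s)` within `[0, T]`:
`F (s + h) - F s = U (-s - h) ∫_s^{s+h} β + U (-s) ∫_0^h U (-r) (G s) dr`; then
`intervalIntegral.integral_eq_sub_of_hasDerivAt_of_le` or similar, and `Sm.traj_eq`.
-/

set_option autoImplicit false

namespace Pool.Agent.KG

open MeasureTheory Filter Topology Set
open Pool.Agent.Kdv
open scoped ENNReal ContDiff InnerProductSpace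

variable {H V : Type} [NormedAddCommGroup H] [InnerProductSpace ℝ H] [CompleteSpace H]
  [NormedAddCommGroup V] [NormedSpace ℝ V] [CompleteSpace V]

/-- INF2. A curve which is absolutely continuous and lies in the domain of the generator is a
trajectory. -/
theorem traj_of_curve (S : Sm H V) {T : ℝ} (hT : 0 ≤ T) {b β G : ℝ → H}
    (hβ : ContinuousOn β (Icc 0 T)) (hG : ContinuousOn G (Icc 0 T))
    (hb : ∀ t ∈ Icc 0 T, b t = b 0 + ∫ s in (0 : ℝ)..t, β s)
    (gen : ∀ t ∈ Icc 0 T, ∀ u, S.U (-u) (b t) = b t + ∫ s in (0 : ℝ)..u, S.U (-s) (G t)) :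
    ∀ t ∈ Icc 0 T, S.traj (b 0) (fun s => β s + G s) t = b t := by
  have hbc : ContinuousOn b (Icc 0 T) := by
    have h1 : ContinuousOn (fun t => ∫ s in (0 : ℝ)..t, β s) (Icc 0 T) := by
      have h := intervalIntegral.continuousOn_primitive_interval
        (μ := volume) (a := (0 : ℝ)) (b := T) (f := β) (by
          rw [uIcc_of_le hT]
          exact hβ.integrableOn_Icc)
      rwa [uIcc_of_le hT] at h
    exact (continuousOn_const.add h1).congr hb
  have hbd : ∀ x ∈ Ioo 0 T, HasDerivAt b (β x) x := by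
    intro x hx
    have h1 : IntervalIntegrable β volume 0 x := by
      refine ContinuousOn.intervalIntegrable ?_
      rw [uIcc_of_le hx.1.le]
      exact hβ.mono (Icc_subset_Icc_right hx.2.le)
    have h2 : ContinuousOn β (Ioo 0 T) := hβ.mono Ioo_subset_Icc_self
    have h3 := (intervalIntegral.integral_hasDerivAt_right h1
      (h2.stronglyMeasurableAtFilter isOpen_Ioo x hx)
      (h2.continuousAt (isOpen_Ioo.mem_nhds hx))).const_add (b 0)
    refine h3.congr_of_eventuallyEq ?_
    filter_upwards [isOpen_Ioo.mem_nhds hx] with y hy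
    exact hb y (Ioo_subset_Icc_self hy)
  -- the derivative in the interaction picture
  have hFd : ∀ x ∈ Ioo 0 T,
      HasDerivAt (fun s => S.U (-s) (b s)) (S.U (-x) (β x + G x)) x := by
    intro x hx
    have hx' := Ioo_subset_Icc_self hx
    rw [hasDerivAt_iff_tendsto_slope]
    have h1 : Tendsto (fun y => slope b x y) (𝓝[≠] x) (𝓝 (β x)) :=
      hasDerivAt_iff_tendsto_slope.mp (hbd x hx)
    have h2 : Tendsto (fun y : ℝ => (-y, slope b x y)) (𝓝[≠] x) (𝓝 (-x, β x)) :=
      ((continuous_neg.tendsto x).mono_left nhdsWithin_le_nhds).prodMk_nhds h1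
    have h3 : Tendsto (fun y : ℝ => S.U (-y) (slope b x y)) (𝓝[≠] x) (𝓝 (S.U (-x) (β x))) :=
      (S.U_cont2.tendsto (-x, β x)).comp h2
    have h4 : HasDerivAt (fun y : ℝ => ∫ s in (0 : ℝ)..(y - x), S.U (-s) (G x)) (G x) x := by
      have hc : Continuous fun s : ℝ => S.U (-s) (G x) := (S.U_cont (G x)).comp continuous_neg
      have h5 := (hc.integral_hasStrictDerivAt 0 (x - x)).hasDerivAt
      rw [sub_self, neg_zero, S.U_zero] at h5
      have h6 : HasDerivAt (fun y : ℝ => y - x) 1 x := (hasDerivAt_id x).sub_const x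
      have h5' : HasDerivAt (fun u : ℝ => ∫ s in (0 : ℝ)..u, S.U (-s) (G x)) (G x) (x - x) := by
        rw [sub_self]
        exact h5
      have h7 := HasDerivAt.scomp (h := fun y : ℝ => y - x) x h5' h6
      rw [one_smul] at h7
      exact h7
    have h5 : Tendsto (fun y => slope (fun y : ℝ => ∫ s in (0 : ℝ)..(y - x), S.U (-s) (G x)) x y)
        (𝓝[≠] x) (𝓝 (G x)) := hasDerivAt_iff_tendsto_slope.mp h4
    have h6 := h3.add (((S.U (-x)).continuous.tendsto (G x)).comp h5)
    have h7 : S.U (-x) (β x) + S.U (-x) (G x) = S.U (-x) (β x + G x) := by rw [map_add]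
    rw [← h7]
    refine h6.congr' ?_
    filter_upwards [self_mem_nhdsWithin] with y hy
    simp only [Function.comp, slope, vsub_eq_sub, sub_self, intervalIntegral.integral_same,
      sub_zero, map_smul]
    rw [← smul_add]
    congr 1
    have h8 := gen x hx' (y - x)
    have h9 : S.U (-x) (∫ s in (0 : ℝ)..(y - x), S.U (-s) (G x)) =
        S.U (-x) (S.U (-(y - x)) (b x)) - S.U (-x) (b x) := by
      rw [h8, map_add]
      abel
    rw [h9, ← S.U_add, map_sub]
    have h10 : -x + -(y - x) = -y := by ring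
    rw [h10]
    abel
  have hFc : ContinuousOn (fun s => S.U (-s) (b s)) (Icc 0 T) :=
    S.U_cont2.comp_continuousOn (continuousOn_id.neg.prodMk hbc)
  have hF'c : ContinuousOn (fun s => S.U (-s) (β s + G s)) (Icc 0 T) :=
    S.U_cont2.comp_continuousOn (continuousOn_id.neg.prodMk (hβ.add hG))
  have hfi : IntegrableOn (fun s => β s + G s) (Ioc 0 T) :=
    (hβ.add hG).integrableOn_Icc.mono_set Ioc_subset_Icc_self
  intro t ht
  rw [S.traj_eq (b 0) hfi ht]
  have h1 : ∫ s in (0 : ℝ)..t, S.U (-s) (β s + G s) = S.U (-t) (b t) - S.U (-0) (b 0) := by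
    refine intervalIntegral.integral_eq_sub_of_hasDerivAt_of_le ht.1
      (hFc.mono (Icc_subset_Icc_right ht.2)) (fun x hx => hFd x ⟨hx.1, hx.2.trans_le ht.2⟩) ?_
    refine ContinuousOn.intervalIntegrable ?_
    rw [uIcc_of_le ht.1]
    exact hF'c.mono (Icc_subset_Icc_right ht.2)
  rw [h1, neg_zero, S.U_zero]
  have h2 : b 0 + (S.U (-t) (b t) - b 0) = S.U (-t) (b t) := by abel
  rw [h2, S.U_neg]

end Pool.Agent.KG
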