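import Pool.Agent.Lib.MP_78c35a_an.TrajA

/-!
# Images of curves under a smoothing operator are trajectories (row Inf02b)

With `c t = c0 + ∫₀ᵗ γ`: `U (-t) (W (c t)) = W (c t) + ∫₀ᵗ U (-s) (W3 (c t)) ds`, insert
`c t = c s + ∫_s^t γ`, exchange the integrals (Fubini on the triangle, the integrand
`U (-s) (W3 (γ r))` is measurable by `Sm.U_cont2` and bounded by `‖W3‖ ‖γ r‖`):
`∫₀ᵗ ∫_s^t U (-s) (W3 (γ r)) dr ds = ∫₀ᵗ (U (-r) (W (γ r)) - W (γ r)) dr`. Then `Sm.traj_eq`.
`Sm.ker_integral`, `prod_rule` (Energy.lean) show how the library treats triangles.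
-/

set_option autoImplicit false

namespace Pool.Agent.KG

open MeasureTheory Filter Topology Set
open Pool.Agent.Kdv
open scoped ENNReal ContDiff InnerProductSpace

variable {H V : Type} [NormedAddCommGroup H] [InnerProductSpace ℝ H] [CompleteSpace H]
  [NormedAddCommGroup V] [NormedSpace ℝ V] [CompleteSpace V]

omit [InnerProductSpace ℝ H] [CompleteSpace H] in
/-- Fubini on the triangle. -/
private theorem tri_Inf02b [NormedSpace ℝ H] {Φ : ℝ → ℝ → H} {t : ℝ} (ht : 0 ≤ t)
    (hΦ : Integrable (Function.uncurry Φ)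
      ((volume.restrict (Ioc 0 t)).prod (volume.restrict (Ioc 0 t)))) :
    ∫ s in (0 : ℝ)..t, ∫ r in s..t, Φ s r = ∫ r in (0 : ℝ)..t, ∫ s in (0 : ℝ)..r, Φ s r := by
  set μ : Measure ℝ := volume.restrict (Ioc 0 t) with hμ
  set F : ℝ → ℝ → H := fun s r => indicator {p : ℝ × ℝ | p.1 ≤ p.2}
    (Function.uncurry Φ) (s, r) with hF
  have hm : MeasurableSet {p : ℝ × ℝ | p.1 ≤ p.2} := measurableSet_le measurable_fst measurable_snd
  have hFi : Integrable (Function.uncurry F) (μ.prod μ) := hΦ.indicator hm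
  have key := integral_integral_swap hFi
  rw [intervalIntegral.integral_of_le ht, intervalIntegral.integral_of_le ht]
  have e1 : ∀ s ∈ Ioc 0 t, (∫ r, F s r ∂μ) = ∫ r in s..t, Φ s r := by
    intro s hs
    have c1 : (∫ r, F s r ∂μ) = ∫ r in Ioc 0 t, indicator (Ici s) (Φ s) r := by
      refine integral_congr_ae (Eventually.of_forall fun r => ?_)
      simp only [hF, indicator, mem_ofPred_eq, mem_Ici, Function.uncurry]
    have c2 : Ioc 0 t ∩ Ici s = Icc s t := by
      ext x
      simp only [mem_inter_iff, mem_Ioc, mem_Ici, mem_Icc]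
      exact ⟨fun h => ⟨h.2, h.1.2⟩, fun h => ⟨⟨hs.1.trans_le h.1, h.2⟩, h.1⟩⟩
    rw [c1, setIntegral_indicator measurableSet_Ici, c2, integral_Icc_eq_integral_Ioc,
      intervalIntegral.integral_of_le hs.2]
  have e2 : ∀ r ∈ Ioc 0 t, (∫ s, F s r ∂μ) = ∫ s in (0 : ℝ)..r, Φ s r := by
    intro r hr
    have c1 : (∫ s, F s r ∂μ) = ∫ s in Ioc 0 t, indicator (Iic r) (fun s => Φ s r) s := by
      refine integral_congr_ae (Eventually.of_forall fun s => ?_)
      simp only [hF, indicator, mem_ofPred_eq, mem_Iic, Function.uncurry]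
    rw [c1, setIntegral_indicator measurableSet_Iic, Ioc_inter_Iic, min_eq_right hr.2,
      intervalIntegral.integral_of_le hr.1.le]
  calc ∫ s in Ioc 0 t, (∫ r in s..t, Φ s r)
      = ∫ s, (∫ r, F s r ∂μ) ∂μ := setIntegral_congr_fun measurableSet_Ioc fun s hs => (e1 s hs).symm
    _ = ∫ r, (∫ s, F s r ∂μ) ∂μ := key
    _ = _ := setIntegral_congr_fun measurableSet_Ioc fun r hr => e2 r hr

/-- INF2'. The image of an absolutely continuous curve under a smoothing operator is a
trajectory. -/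
theorem traj_of_smoothing (S : Sm H V) {X : Type} [NormedAddCommGroup X] [NormedSpace ℝ X]
    [CompleteSpace X] (W W3 : X →L[ℝ] H)
    (gen : ∀ x u, S.U (-u) (W x) = W x + ∫ s in (0 : ℝ)..u, S.U (-s) (W3 x))
    {T : ℝ} (hT : 0 ≤ T) {c0 : X} {γ : ℝ → X} (hγ : IntegrableOn γ (Ioc 0 T)) :
    ∀ t ∈ Icc 0 T, S.traj (W c0) (fun s => W3 (c0 + ∫ r in (0 : ℝ)..s, γ r) + W (γ s)) t =
      W (c0 + ∫ r in (0 : ℝ)..t, γ r) := by
  intro t ht
  set c : ℝ → X := fun s => c0 + ∫ r in (0 : ℝ)..s, γ r with hc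
  have hcc : ContinuousOn c (Icc 0 T) := by
    have h := intervalIntegral.continuousOn_primitive_interval
      (μ := volume) (a := (0 : ℝ)) (b := T) (f := γ) (by
        rwa [uIcc_of_le hT, integrableOn_Icc_iff_integrableOn_Ioc])
    rw [uIcc_of_le hT] at h
    exact continuousOn_const.add h
  have hW3c : ContinuousOn (fun s => W3 (c s)) (Icc 0 T) := W3.continuous.comp_continuousOn hcc
  have hWγ : IntegrableOn (fun s => W (γ s)) (Ioc 0 T) := W.integrable_comp hγ
  have hfi : IntegrableOn (fun s => W3 (c s) + W (γ s)) (Ioc 0 T) :=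
    (hW3c.integrableOn_Icc.mono_set Ioc_subset_Icc_self).add hWγ
  rw [S.traj_eq (W c0) hfi ht]
  have hsub : Icc 0 t ⊆ Icc 0 T := Icc_subset_Icc_right ht.2
  have hii : ∀ {g : ℝ → H}, ContinuousOn g (Icc 0 T) → IntervalIntegrable g volume 0 t := by
    intro g hg
    refine ContinuousOn.intervalIntegrable ?_
    rw [uIcc_of_le ht.1]
    exact hg.mono hsub
  -- the integral of the image
  have h1 : W (c t) = W c0 + ∫ r in (0 : ℝ)..t, W (γ r) := by
    simp only [hc]
    rw [map_add, W.intervalIntegral_comp_comm (ii_of hγ le_rfl ht.1 ht.2)]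
  have cont1 : ContinuousOn (fun s => S.U (-s) (W3 (c s))) (Icc 0 T) :=
    S.U_cont2.comp_continuousOn (continuousOn_id.neg.prodMk hW3c)
  have cont2 : ContinuousOn (fun s => S.U (-s) (W3 (c t - c s))) (Icc 0 T) :=
    S.U_cont2.comp_continuousOn (continuousOn_id.neg.prodMk
      (W3.continuous.comp_continuousOn (continuousOn_const.sub hcc)))
  have h2 : ∫ s in (0 : ℝ)..t, S.U (-s) (W3 (c t)) =
      (∫ s in (0 : ℝ)..t, S.U (-s) (W3 (c s))) + ∫ s in (0 : ℝ)..t, S.U (-s) (W3 (c t - c s)) := by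
    rw [← intervalIntegral.integral_add (hii cont1) (hii cont2)]
    refine intervalIntegral.integral_congr fun s _ => ?_
    rw [← map_add, ← map_add]
    congr 2
    abel
  have h3 : ∫ s in (0 : ℝ)..t, S.U (-s) (W3 (c t - c s)) =
      ∫ s in (0 : ℝ)..t, ∫ r in s..t, S.U (-s) (W3 (γ r)) := by
    refine intervalIntegral.integral_congr fun s hs => ?_
    rw [uIcc_of_le ht.1] at hs
    have e1 : c t - c s = ∫ r in s..t, γ r := by
      simp only [hc]
      rw [add_sub_add_left_eq_sub, intervalIntegral.integral_interval_sub_left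
        (ii_of hγ le_rfl ht.1 ht.2) (ii_of hγ le_rfl hs.1 (hs.2.trans ht.2))]
    rw [e1]
    have e2 := ((S.U (-s)).comp W3).intervalIntegral_comp_comm
      (ii_of hγ hs.1 hs.2 ht.2)
    simp only [ContinuousLinearMap.comp_apply] at e2
    exact e2.symm
  have hγt : IntegrableOn γ (Ioc 0 t) := hγ.mono_set (Ioc_subset_Ioc_right ht.2)
  have hprod : Integrable (Function.uncurry fun s r => S.U (-s) (W3 (γ r)))
      ((volume.restrict (Ioc 0 t)).prod (volume.restrict (Ioc 0 t))) := by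
    have hm : AEStronglyMeasurable (Function.uncurry fun s r => S.U (-s) (W3 (γ r)))
        ((volume.restrict (Ioc 0 t)).prod (volume.restrict (Ioc 0 t))) := by
      have a1 : AEStronglyMeasurable (fun p : ℝ × ℝ => -p.1)
          ((volume.restrict (Ioc 0 t)).prod (volume.restrict (Ioc 0 t))) :=
        (continuous_fst.neg).aestronglyMeasurable
      have a2 : AEStronglyMeasurable (fun p : ℝ × ℝ => W3 (γ p.2))
          ((volume.restrict (Ioc 0 t)).prod (volume.restrict (Ioc 0 t))) :=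
        W3.continuous.comp_aestronglyMeasurable hγt.aestronglyMeasurable.comp_snd
      exact S.U_cont2.comp_aestronglyMeasurable (a1.prodMk a2)
    have h0 : Integrable (fun p : ℝ × ℝ => (1 : ℝ) * (‖W3‖ * ‖γ p.2‖))
        ((volume.restrict (Ioc 0 t)).prod (volume.restrict (Ioc 0 t))) :=
      Integrable.mul_prod (f := fun _ : ℝ => (1 : ℝ)) (integrable_const 1)
        (hγt.norm.const_mul ‖W3‖)
    refine Integrable.mono h0 hm (Eventually.of_forall fun p => ?_)
    simp only [Function.uncurry]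
    rw [S.U_norm, one_mul, Real.norm_of_nonneg (by positivity)]
    exact W3.le_opNorm _
  have h4 : ∫ r in (0 : ℝ)..t, ∫ s in (0 : ℝ)..r, S.U (-s) (W3 (γ r)) =
      (∫ r in (0 : ℝ)..t, S.U (-r) (W (γ r))) - ∫ r in (0 : ℝ)..t, W (γ r) := by
    rw [← intervalIntegral.integral_sub
      (ii_of (S.U_int (by fun_prop) hWγ) le_rfl ht.1 ht.2) (ii_of hWγ le_rfl ht.1 ht.2)]
    refine intervalIntegral.integral_congr fun r _ => ?_
    rw [gen (γ r) r]
    abel
  have h5 : S.U (-t) (W (c t)) = W c0 + ∫ s in (0 : ℝ)..t, S.U (-s) (W3 (c s) + W (γ s)) := by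
    have e1 : ∫ s in (0 : ℝ)..t, S.U (-s) (W3 (c s) + W (γ s)) =
        (∫ s in (0 : ℝ)..t, S.U (-s) (W3 (c s))) + ∫ s in (0 : ℝ)..t, S.U (-s) (W (γ s)) := by
      rw [← intervalIntegral.integral_add (hii cont1)
        (ii_of (S.U_int (by fun_prop) hWγ) le_rfl ht.1 ht.2)]
      refine intervalIntegral.integral_congr fun s _ => ?_
      rw [map_add]
    rw [gen (c t) t, h2, h3, tri_Inf02b ht.1 hprod, h4, e1, h1]
    abel
  rw [← h5, S.U_neg]

end Pool.Agent.KG
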