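import Pool.Agent.Lib.KG.Defs

/-!
# Convolution operators (row Inf03)

Schur test: `cvf k y x ^ 2 ≤ (∫ |k|) ∫ |k (x - s)| y(s)² ds` (Cauchy-Schwarz), then Tonelli; this
gives the operator by `LinearMap.mkContinuous` (linearity: integrability of `k (x - ·) * y`).
`cvf_deriv`: derivative under the integral (or `HasCompactSupport.hasDerivAt_convolution_left`).
`cv_adj`: Fubini.
-/

set_option autoImplicit false

namespace Pool.Agent.KG

open MeasureTheory Filter Topology Set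
open Pool.Agent.Kdv
open scoped ENNReal ContDiff InnerProductSpace

variable {n : ℕ}

/-- The convolution of functions. -/
noncomputable def Inf03_cv (k y : ℝ → ℝ) (x : ℝ) : ℝ := ∫ s, k (x - s) * y s

theorem Inf03_cvf (k : ℝ → ℝ) (y : L2) : cvf k y = Inf03_cv k y := rfl

theorem Inf03_conv (k y : ℝ → ℝ) :
    Inf03_cv k y = MeasureTheory.convolution y k (ContinuousLinearMap.mul ℝ ℝ) volume := by
  funext x
  exact integral_congr_ae (Eventually.of_forall fun s => mul_comm (k (x - s)) (y s))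

theorem Inf03_loc {y : ℝ → ℝ} (hy : MemLp y 2 volume) : LocallyIntegrable y volume :=
  hy.locallyIntegrable one_le_two

theorem Inf03_int {k : ℝ → ℝ} (hk : Continuous k) (hc : HasCompactSupport k) {y : ℝ → ℝ}
    (hy : MemLp y 2 volume) (x : ℝ) : Integrable (fun s => k (x - s) * y s) volume := by
  have h := hc.convolutionExists_right (ContinuousLinearMap.mul ℝ ℝ) (Inf03_loc hy) hk x
  refine (ConvolutionExistsAt.integrable h).congr ?_
  exact Eventually.of_forall fun s => mul_comm (y s) (k (x - s))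

theorem Inf03_cont {k : ℝ → ℝ} (hk : Continuous k) (hc : HasCompactSupport k) {y : ℝ → ℝ}
    (hy : MemLp y 2 volume) : Continuous (Inf03_cv k y) := by
  rw [Inf03_conv]
  exact hc.continuous_convolution_right _ (Inf03_loc hy) hk

/-- The integral of the shifted reflected kernel. -/
theorem Inf03_shift (k : ℝ → ℝ) (x : ℝ) : ∫⁻ s, ‖k (x - s)‖ₑ = ∫⁻ s, ‖k s‖ₑ :=
  lintegral_sub_left_eq_self (fun s => ‖k s‖ₑ) x

theorem Inf03_shift' (k : ℝ → ℝ) (s : ℝ) : ∫⁻ x, ‖k (x - s)‖ₑ = ∫⁻ x, ‖k x‖ₑ :=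
  lintegral_sub_right_eq_self (fun s => ‖k s‖ₑ) s

/-- Cauchy-Schwarz. -/
theorem Inf03_cs {k : ℝ → ℝ} (hk : Continuous k) {y : ℝ → ℝ} (hy : AEStronglyMeasurable y volume)
    (x : ℝ) : (∫⁻ s, ‖k (x - s)‖ₑ * ‖y s‖ₑ) ^ 2 ≤
      (∫⁻ s, ‖k s‖ₑ) * ∫⁻ s, ‖k (x - s)‖ₑ * ‖y s‖ₑ ^ 2 := by
  have hkm : Measurable fun s => ‖k (x - s)‖ₑ :=
    (hk.comp (continuous_const.sub continuous_id)).measurable.enorm
  have h := ENNReal.lintegral_mul_le_Lp_mul_Lq (volume : Measure ℝ) Real.HolderConjugate.two_two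
    (f := fun s => ‖k (x - s)‖ₑ ^ (1 / 2 : ℝ)) (g := fun s => ‖k (x - s)‖ₑ ^ (1 / 2 : ℝ) * ‖y s‖ₑ)
    (hkm.pow_const _).aemeasurable ((hkm.pow_const _).aemeasurable.mul hy.enorm)
  have h1 : ∀ s, ‖k (x - s)‖ₑ ^ (1 / 2 : ℝ) * (‖k (x - s)‖ₑ ^ (1 / 2 : ℝ) * ‖y s‖ₑ) =
      ‖k (x - s)‖ₑ * ‖y s‖ₑ := by
    intro s
    rw [← mul_assoc, ← ENNReal.rpow_add_of_nonneg _ _ (by norm_num) (by norm_num)]
    norm_num
  have h2 : ∀ s, (‖k (x - s)‖ₑ ^ (1 / 2 : ℝ)) ^ (2 : ℝ) = ‖k (x - s)‖ₑ := by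
    intro s
    rw [← ENNReal.rpow_mul]
    norm_num
  have h3 : ∀ s, (‖k (x - s)‖ₑ ^ (1 / 2 : ℝ) * ‖y s‖ₑ) ^ (2 : ℝ) =
      ‖k (x - s)‖ₑ * ‖y s‖ₑ ^ 2 := by
    intro s
    rw [ENNReal.mul_rpow_of_nonneg _ _ (by norm_num), h2, ENNReal.rpow_two]
  simp only [Pi.mul_apply, h1, h2, h3, Inf03_shift] at h
  calc (∫⁻ s, ‖k (x - s)‖ₑ * ‖y s‖ₑ) ^ 2
      ≤ ((∫⁻ s, ‖k s‖ₑ) ^ (1 / 2 : ℝ) *
        (∫⁻ s, ‖k (x - s)‖ₑ * ‖y s‖ₑ ^ 2) ^ (1 / 2 : ℝ)) ^ 2 := by gcongr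
    _ = (∫⁻ s, ‖k s‖ₑ) * ∫⁻ s, ‖k (x - s)‖ₑ * ‖y s‖ₑ ^ 2 := by
        rw [mul_pow, ← ENNReal.rpow_two, ← ENNReal.rpow_two, ← ENNReal.rpow_mul,
          ← ENNReal.rpow_mul]
        norm_num

/-- Young's inequality. -/
theorem Inf03_young {k : ℝ → ℝ} (hk : Continuous k) {y : ℝ → ℝ}
    (hy : AEStronglyMeasurable y volume) :
    ∫⁻ x, (∫⁻ s, ‖k (x - s)‖ₑ * ‖y s‖ₑ) ^ 2 ≤ (∫⁻ s, ‖k s‖ₑ) ^ 2 * ∫⁻ s, ‖y s‖ₑ ^ 2 := by
  calc ∫⁻ x, (∫⁻ s, ‖k (x - s)‖ₑ * ‖y s‖ₑ) ^ 2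
      ≤ ∫⁻ x, (∫⁻ s, ‖k s‖ₑ) * ∫⁻ s, ‖k (x - s)‖ₑ * ‖y s‖ₑ ^ 2 :=
        lintegral_mono fun x => Inf03_cs hk hy x
    _ = (∫⁻ s, ‖k s‖ₑ) * ∫⁻ x, ∫⁻ s, ‖k (x - s)‖ₑ * ‖y s‖ₑ ^ 2 := by
        have hm : AEMeasurable (fun p : ℝ × ℝ => ‖k (p.1 - p.2)‖ₑ * ‖y p.2‖ₑ ^ 2)
            (volume.prod volume) :=
          (hk.comp (continuous_fst.sub continuous_snd)).measurable.enorm.aemeasurable.mul
            ((hy.comp_snd.enorm).pow_const 2)
        exact lintegral_const_mul'' _ hm.lintegral_prod_right'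
    _ = (∫⁻ s, ‖k s‖ₑ) * ∫⁻ s, ∫⁻ x, ‖k (x - s)‖ₑ * ‖y s‖ₑ ^ 2 := by
        have hm : AEMeasurable (fun p : ℝ × ℝ => ‖k (p.1 - p.2)‖ₑ * ‖y p.2‖ₑ ^ 2)
            (volume.prod volume) :=
          (hk.comp (continuous_fst.sub continuous_snd)).measurable.enorm.aemeasurable.mul
            ((hy.comp_snd.enorm).pow_const 2)
        rw [lintegral_lintegral_swap hm]
    _ = (∫⁻ s, ‖k s‖ₑ) * ∫⁻ s, (∫⁻ x, ‖k x‖ₑ) * ‖y s‖ₑ ^ 2 := by
        congr 1
        refine lintegral_congr fun s => ?_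
        have hkm : Measurable fun x => ‖k (x - s)‖ₑ :=
          (hk.comp (continuous_id.sub continuous_const)).measurable.enorm
        rw [lintegral_mul_const _ hkm, Inf03_shift']
    _ = (∫⁻ s, ‖k s‖ₑ) ^ 2 * ∫⁻ s, ‖y s‖ₑ ^ 2 := by
        rw [lintegral_const_mul'' _ (hy.enorm.pow_const 2), ← mul_assoc, ← sq]

theorem Inf03_enorm_le {k : ℝ → ℝ} (y : ℝ → ℝ) (x : ℝ) :
    ‖Inf03_cv k y x‖ₑ ≤ ∫⁻ s, ‖k (x - s)‖ₑ * ‖y s‖ₑ := by
  refine (enorm_integral_le_lintegral_enorm _).trans_eq ?_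
  exact lintegral_congr fun s => enorm_mul _ _

theorem Inf03_enorm_int {k : ℝ → ℝ} (hk : Continuous k) (hc : HasCompactSupport k) :
    ∫⁻ s, ‖k s‖ₑ = ENNReal.ofReal (∫ s, |k s|) := by
  have h : Integrable k volume := hk.integrable_of_hasCompactSupport hc
  have h1 := ofReal_integral_norm_eq_lintegral_enorm h
  rw [← h1]
  rfl

theorem Inf03_norm_le {k : ℝ → ℝ} (hk : Continuous k) (hc : HasCompactSupport k) {y : ℝ → ℝ}
    (hy : MemLp y 2 volume) : eLpNorm (Inf03_cv k y) 2 volume ≤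
      ENNReal.ofReal (∫ s, |k s|) * eLpNorm y 2 volume := by
  rw [← Inf03_enorm_int hk hc]
  have e : ∀ f : ℝ → ℝ, eLpNorm f 2 volume = (∫⁻ x, ‖f x‖ₑ ^ 2) ^ (1 / 2 : ℝ) := by
    intro f
    rw [eLpNorm_eq_lintegral_rpow_enorm_toReal (by norm_num) (by norm_num)]
    simp
  rw [e, e]
  calc (∫⁻ x, ‖Inf03_cv k y x‖ₑ ^ 2) ^ (1 / 2 : ℝ)
      ≤ ((∫⁻ s, ‖k s‖ₑ) ^ 2 * ∫⁻ s, ‖y s‖ₑ ^ 2) ^ (1 / 2 : ℝ) := by
        refine ENNReal.rpow_le_rpow ?_ (by norm_num)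
        refine le_trans (lintegral_mono fun x => ?_) (Inf03_young hk hy.1)
        exact pow_le_pow_left' (Inf03_enorm_le y x) 2
    _ = (∫⁻ s, ‖k s‖ₑ) * (∫⁻ s, ‖y s‖ₑ ^ 2) ^ (1 / 2 : ℝ) := by
        rw [ENNReal.mul_rpow_of_nonneg _ _ (by norm_num), ← ENNReal.rpow_two, ← ENNReal.rpow_mul]
        norm_num

theorem Inf03_memLp {k : ℝ → ℝ} (hk : Continuous k) (hc : HasCompactSupport k) {y : ℝ → ℝ}
    (hy : MemLp y 2 volume) : MemLp (Inf03_cv k y) 2 volume :=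
  ⟨(Inf03_cont hk hc hy).aestronglyMeasurable,
    lt_of_le_of_lt (Inf03_norm_le hk hc hy) (ENNReal.mul_lt_top ENNReal.ofReal_lt_top hy.2)⟩

/-- The linear map. -/
noncomputable def Inf03_lin {k : ℝ → ℝ} (hk : Continuous k) (hc : HasCompactSupport k) :
    L2 →ₗ[ℝ] L2 where
  toFun y := (Inf03_memLp hk hc (Lp.memLp y)).toLp _
  map_add' y z := by
    rw [← MemLp.toLp_add]
    apply MemLp.toLp_congr
    refine Eventually.of_forall fun x => ?_
    change (∫ s, k (x - s) * (y + z) s) = (∫ s, k (x - s) * y s) + ∫ s, k (x - s) * z s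
    rw [← integral_add (Inf03_int hk hc (Lp.memLp y) x) (Inf03_int hk hc (Lp.memLp z) x)]
    refine integral_congr_ae ?_
    filter_upwards [Lp.coeFn_add y z] with s hs
    rw [hs, Pi.add_apply, mul_add]
  map_smul' r y := by
    rw [RingHom.id_apply, ← MemLp.toLp_const_smul]
    apply MemLp.toLp_congr
    refine Eventually.of_forall fun x => ?_
    change (∫ s, k (x - s) * (r • y) s) = r • ∫ s, k (x - s) * y s
    rw [← integral_smul]
    refine integral_congr_ae ?_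
    filter_upwards [Lp.coeFn_smul r y] with s hs
    rw [hs, Pi.smul_apply, smul_eq_mul, smul_eq_mul]
    ring

theorem Inf03_lin_ae {k : ℝ → ℝ} (hk : Continuous k) (hc : HasCompactSupport k) (y : L2) :
    ∀ᵐ x ∂volume, Inf03_lin hk hc y x = cvf k y x :=
  MemLp.coeFn_toLp (Inf03_memLp hk hc (Lp.memLp y))

theorem Inf03_norm_of_ae {k : ℝ → ℝ} (hk : Continuous k) (hc : HasCompactSupport k) {y z : L2}
    (h : ∀ᵐ x ∂volume, z x = cvf k y x) : ‖z‖ ≤ (∫ s, |k s|) * ‖y‖ := by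
  have h1 : eLpNorm z 2 volume = eLpNorm (Inf03_cv k y) 2 volume := eLpNorm_congr_ae h
  have h0 : 0 ≤ ∫ s, |k s| := integral_nonneg fun s => abs_nonneg _
  rw [Lp.norm_def, Lp.norm_def, h1, ← ENNReal.toReal_ofReal h0, ← ENNReal.toReal_mul]
  exact ENNReal.toReal_mono (ENNReal.mul_ne_top ENNReal.ofReal_ne_top (Lp.memLp y).2.ne)
    (Inf03_norm_le hk hc (Lp.memLp y))

/-- INF3. The convolution is a bounded operator. -/
theorem cv_ae {k : ℝ → ℝ} (hk : Continuous k) (hc : HasCompactSupport k) (y : L2) :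
    ∀ᵐ x ∂volume, cv k y x = cvf k y x := by
  have h : ∃ A : L2 →L[ℝ] L2, ∀ y, ∀ᵐ x ∂volume, A y x = cvf k y x :=
    ⟨(Inf03_lin hk hc).mkContinuous (∫ s, |k s|) fun y =>
      Inf03_norm_of_ae hk hc (Inf03_lin_ae hk hc y), fun y => Inf03_lin_ae hk hc y⟩
  unfold cv
  rw [dif_pos h]
  exact h.choose_spec y

theorem cv_norm {k : ℝ → ℝ} (hk : Continuous k) (hc : HasCompactSupport k) (y : L2) :
    ‖cv k y‖ ≤ (∫ s, |k s|) * ‖y‖ :=
  Inf03_norm_of_ae hk hc (cv_ae hk hc y)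

/-- The convolution is smooth. -/
theorem cvf_deriv {k : ℝ → ℝ} (hk : ContDiff ℝ ∞ k) (hc : HasCompactSupport k) (y : L2) (x : ℝ) :
    HasDerivAt (cvf k y) (cvf (deriv k) y x) x := by
  rw [Inf03_cvf, Inf03_cvf, Inf03_conv, Inf03_conv]
  exact hc.hasDerivAt_convolution_right _ (Inf03_loc (Lp.memLp y))
    (hk.of_le (by norm_cast)) x

theorem cv_adj {k : ℝ → ℝ} (hk : Continuous k) (hc : HasCompactSupport k) (y z : L2) :
    inner ℝ (cv k y) z = inner ℝ y (cv (fun x => k (-x)) z) := by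
  have hk' : Continuous fun x => k (-x) := hk.comp continuous_neg
  have hc' : HasCompactSupport fun x => k (-x) := hc.comp_homeomorph (Homeomorph.neg ℝ)
  have hka : Continuous fun x => |k x| := hk.abs
  have hca : HasCompactSupport fun x => |k x| := hc.comp_left abs_zero
  rw [L2.inner_def, L2.inner_def]
  have h1 : (∫ x, inner ℝ (cv k y x) (z x)) = ∫ x, ∫ s, k (x - s) * y s * z x := by
    refine integral_congr_ae ?_
    filter_upwards [cv_ae hk hc y] with x hx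
    rw [hx, integral_mul_const]
    exact mul_comm _ _
  have h2 : (∫ s, inner ℝ (y s) (cv (fun x => k (-x)) z s)) =
      ∫ s, ∫ x, k (x - s) * y s * z x := by
    refine integral_congr_ae ?_
    filter_upwards [cv_ae hk' hc' z] with s hs
    rw [hs]
    have h3 : (∫ x, k (x - s) * y s * z x) = ∫ x, y s * (k (-(s - x)) * z x) := by
      refine integral_congr_ae (Eventually.of_forall fun x => ?_)
      simp only [neg_sub]
      ring
    rw [h3, integral_const_mul]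
    exact mul_comm _ _
  rw [h1, h2]
  refine integral_integral_swap ?_
  have hm : AEStronglyMeasurable (Function.uncurry fun x s => k (x - s) * y s * z x)
      ((volume : Measure ℝ).prod volume) :=
    ((hk.comp (continuous_fst.sub continuous_snd)).aestronglyMeasurable.mul
      (Lp.aestronglyMeasurable y).comp_snd).mul (Lp.aestronglyMeasurable z).comp_fst
  rw [integrable_prod_iff hm]
  constructor
  · refine Eventually.of_forall fun x => ?_
    exact (Inf03_int hk hc (Lp.memLp y) x).mul_const (z x)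
  · have h4 : (fun x => ∫ s, ‖Function.uncurry (fun x s => k (x - s) * y s * z x) (x, s)‖) =
        fun x => Inf03_cv (fun x => |k x|) (fun s => |y s|) x * |z x| := by
      funext x
      simp only [Function.uncurry_apply_pair, norm_mul, Real.norm_eq_abs, Inf03_cv]
      rw [integral_mul_const]
    rw [h4]
    exact (Inf03_memLp hka hca (Lp.memLp y).abs).integrable_mul (Lp.memLp z).abs

end Pool.Agent.KG
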