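import Pool.Agent.Lib.KG.Inf03
import Pool.Agent.Lib.MP_78c35a_an.Gen

/-!
# Convolutions and the group (row Inf04)

`cv_gen`: both sides are continuous in `y`; for `y = toL2 φ`, `φ` smooth with compact support
(dense: see `nice_dense`), `cv k y = toL2 ψ`, `ψ = k * φ` smooth with compact support and
`iteratedDeriv 3 ψ = (iteratedDeriv 3 k) * φ`, so it is `airy_gen`.
`cv_airy`: translations `τ u` of `L²` (`Lp.compMeasurePreserving`) commute with `airy t` (for
nice functions as in `Airy.lean`, `aw_rfG`, `Ac_refl`; density); `inner (cv k w) z =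
∫ k u * inner (τ u w) z du` by Fubini; so `inner (cv k (airy t y)) z = ∫ k u * inner (airy t (τ u y)) z
= ∫ k u * inner (τ u y) (airy (-t) z) = inner (airy t (cv k y)) z`.
-/

set_option autoImplicit false

namespace Pool.Agent.KG

open MeasureTheory Filter Topology Set
open Pool.Agent.Kdv
open scoped ENNReal ContDiff InnerProductSpace

variable {n : ℕ}

namespace Inf04Aux

theorem tr_ae (u : ℝ) (w : L2) : ∀ᵐ x ∂volume, refl u (refl 0 w) x = w (x - u) := by
  have q := (Measure.measurePreserving_sub_left (volume : Measure ℝ) u).quasiMeasurePreserving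
  filter_upwards [refl_ae u (refl 0 w), q.ae (refl_ae 0 w)] with x h1 h2
  rw [h1, h2]
  congr 1
  ring

theorem tr_airy (u t : ℝ) (y : L2) :
    refl u (refl 0 (airy t y)) = airy t (refl u (refl 0 y)) := by
  rw [airy_refl, airy_refl, neg_neg]

theorem airy_adj (t : ℝ) (a b : L2) : inner ℝ (airy t a) b = inner ℝ a (airy (-t) b) := by
  have h1 : airy t (airy (-t) b) = b := by
    rw [← airy_add, add_neg_cancel, airy_zero]
  let I : L2 →ₗᵢ[ℝ] L2 := ⟨(airy t : L2 →ₗ[ℝ] L2), airy_norm t⟩
  have h2 := I.inner_map_map a (airy (-t) b)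
  have h3 : I a = airy t a := rfl
  have h4 : I (airy (-t) b) = airy t (airy (-t) b) := rfl
  rw [h3, h4, h1] at h2
  exact h2

theorem int_k {k : ℝ → ℝ} (hk : Continuous k) (hc : HasCompactSupport k) : Integrable k :=
  hk.integrable_of_hasCompactSupport hc

theorem sq_int (y : L2) : Integrable fun x => y x ^ 2 := by
  have := (Lp.memLp y).integrable_sq
  exact this

theorem prod_int {k : ℝ → ℝ} (hk : Continuous k) (hc : HasCompactSupport k) (w z : L2) :
    Integrable (fun p : ℝ × ℝ => k p.2 * w (p.1 - p.2) * z p.1)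
      ((volume : Measure ℝ).prod volume) := by
  have hka : Integrable fun u => |k u| := (int_k hk hc).abs
  have h1 : Integrable (fun p : ℝ × ℝ => |k p.2| * (w (p.1 - p.2)) ^ 2)
      ((volume : Measure ℝ).prod volume) :=
    Integrable.convolution_integrand (ContinuousLinearMap.mul ℝ ℝ) hka (sq_int w)
  have h2 : Integrable (fun p : ℝ × ℝ => z p.1 ^ 2 * |k p.2|)
      ((volume : Measure ℝ).prod volume) := (sq_int z).mul_prod hka
  have hm : AEStronglyMeasurable (fun p : ℝ × ℝ => k p.2 * w (p.1 - p.2) * z p.1)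
      ((volume : Measure ℝ).prod volume) := by
    have m1 : AEStronglyMeasurable (fun p : ℝ × ℝ => k p.2 * w (p.1 - p.2))
        ((volume : Measure ℝ).prod volume) :=
      AEStronglyMeasurable.convolution_integrand (ContinuousLinearMap.mul ℝ ℝ)
        hk.aestronglyMeasurable (Lp.memLp w).1
    have m2 : AEStronglyMeasurable (fun p : ℝ × ℝ => z p.1)
        ((volume : Measure ℝ).prod volume) := (Lp.memLp z).1.comp_fst
    exact m1.mul m2
  refine Integrable.mono' (h1.add h2) hm (Eventually.of_forall fun p => ?_)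
  rw [Real.norm_eq_abs, abs_mul, abs_mul, Pi.add_apply]
  have h3 : 0 ≤ |k p.2| := abs_nonneg _
  have h4 : |w (p.1 - p.2)| * |z p.1| ≤ w (p.1 - p.2) ^ 2 + z p.1 ^ 2 := by
    have e1 := sq_abs (w (p.1 - p.2))
    have e2 := sq_abs (z p.1)
    nlinarith [sq_nonneg (|w (p.1 - p.2)| - |z p.1|), sq_nonneg (|w (p.1 - p.2)|),
      sq_nonneg (|z p.1|)]
  calc |k p.2| * |w (p.1 - p.2)| * |z p.1| = |k p.2| * (|w (p.1 - p.2)| * |z p.1|) := by ring
    _ ≤ |k p.2| * (w (p.1 - p.2) ^ 2 + z p.1 ^ 2) := mul_le_mul_of_nonneg_left h4 h3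
    _ = |k p.2| * w (p.1 - p.2) ^ 2 + z p.1 ^ 2 * |k p.2| := by ring

theorem inner_eq (a b : L2) : inner ℝ a b = ∫ x, a x * b x := by
  rw [L2.inner_def]
  refine integral_congr_ae (Eventually.of_forall fun x => ?_)
  simp [mul_comm]

theorem inner_cv {k : ℝ → ℝ} (hk : Continuous k) (hc : HasCompactSupport k) (w z : L2) :
    inner ℝ (cv k w) z = ∫ u, k u * inner ℝ (refl u (refl 0 w)) z := by
  have hi := prod_int hk hc w z
  have h1 : inner ℝ (cv k w) z = ∫ x, ∫ u, k u * w (x - u) * z x := by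
    rw [inner_eq]
    refine integral_congr_ae ?_
    filter_upwards [cv_ae hk hc w] with x hx
    rw [hx, cvf, integral_mul_const]
    congr 1
    rw [← integral_sub_left_eq_self _ volume x]
    simp
  rw [h1, integral_integral_swap hi]
  refine integral_congr_ae (Eventually.of_forall fun u => ?_)
  change ∫ x, k u * w (x - u) * z x = k u * inner ℝ (refl u (refl 0 w)) z
  rw [inner_eq, ← integral_const_mul]
  refine integral_congr_ae ?_
  filter_upwards [tr_ae u w] with x hx
  rw [hx, mul_assoc]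

theorem cv_airy' {k : ℝ → ℝ} (hk : Continuous k) (hc : HasCompactSupport k) (t : ℝ) (y : L2) :
    cv k (airy t y) = airy t (cv k y) := by
  refine ext_inner_right ℝ fun z => ?_
  rw [airy_adj, inner_cv hk hc, inner_cv hk hc]
  refine integral_congr_ae (Eventually.of_forall fun u => ?_)
  change k u * inner ℝ (refl u (refl 0 (airy t y))) z = k u * inner ℝ (refl u (refl 0 y)) (airy (-t) z)
  rw [tr_airy, airy_adj]

theorem memLp_of {φ : ℝ → ℝ} (hφ : ContDiff ℝ ∞ φ) (hc : HasCompactSupport φ) :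
    MemLp φ 2 volume := by
  obtain ⟨G, hG⟩ := exists_nice hφ hc
  exact hG.memLp

theorem cv_deriv {k φ : ℝ → ℝ} (hk : ContDiff ℝ ∞ k) (hc : HasCompactSupport k)
    (hφ : ContDiff ℝ ∞ φ) (hcφ : HasCompactSupport φ) :
    cv k (toL2 (deriv φ)) = cv (deriv k) (toL2 φ) := by
  have hk1 : ContDiff ℝ ∞ (deriv k) := (contDiff_infty_iff_deriv.1 hk).2
  have hφ1 : ContDiff ℝ ∞ (deriv φ) := (contDiff_infty_iff_deriv.1 hφ).2
  have hkd : Differentiable ℝ k := (contDiff_infty_iff_deriv.1 hk).1
  have hφd : Differentiable ℝ φ := (contDiff_infty_iff_deriv.1 hφ).1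
  apply Lp.ext
  filter_upwards [cv_ae hk.continuous hc (toL2 (deriv φ)),
    cv_ae hk1.continuous hc.deriv (toL2 φ)] with x h1 h2
  rw [h1, h2, cvf, cvf]
  have e1 : ∫ s, k (x - s) * (toL2 (deriv φ)) s = ∫ s, k (x - s) * deriv φ s := by
    refine integral_congr_ae ?_
    filter_upwards [toL2_ae (memLp_of hφ1 hcφ.deriv)] with s hs
    rw [hs]
  have e2 : ∫ s, deriv k (x - s) * (toL2 φ) s = ∫ s, deriv k (x - s) * φ s := by
    refine integral_congr_ae ?_
    filter_upwards [toL2_ae (memLp_of hφ hcφ)] with s hs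
    rw [hs]
  rw [e1, e2]
  have c1 : Continuous fun s => k (x - s) := hk.continuous.comp (continuous_const.sub continuous_id)
  have c2 : Continuous fun s => deriv k (x - s) :=
    hk1.continuous.comp (continuous_const.sub continuous_id)
  have hu : ∀ s : ℝ, HasDerivAt (fun s => k (x - s)) (-deriv k (x - s)) s := by
    intro s
    have h1 : HasDerivAt (fun s : ℝ => x - s) (-1) s := by
      simpa using (hasDerivAt_id s).const_sub x
    have h2 := (hkd (x - s)).hasDerivAt.comp s h1
    have h3 : deriv k (x - s) * (-1) = -deriv k (x - s) := by ring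
    rw [h3] at h2
    exact h2
  have hv : ∀ s : ℝ, HasDerivAt φ (deriv φ s) s := fun s => (hφd s).hasDerivAt
  have i1 : Integrable (fun s => k (x - s) * deriv φ s) :=
    (c1.mul hφ1.continuous).integrable_of_hasCompactSupport (hcφ.deriv.mul_left)
  have i2 : Integrable (fun s => -deriv k (x - s) * φ s) :=
    (c2.neg.mul hφ.continuous).integrable_of_hasCompactSupport (hcφ.mul_left)
  have i3 : Integrable (fun s => k (x - s) * φ s) :=
    (c1.mul hφ.continuous).integrable_of_hasCompactSupport (hcφ.mul_left)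
  have key := integral_mul_deriv_eq_deriv_mul_of_integrable (fun s _ => hu s)
    (fun s _ => hv s) i1 i2 i3
  rw [key, ← integral_neg]
  refine integral_congr_ae (Eventually.of_forall fun s => ?_)
  simp

theorem cv_iter {φ : ℝ → ℝ} (hφ : ContDiff ℝ ∞ φ) (hcφ : HasCompactSupport φ) (m : ℕ) :
    ∀ {k : ℝ → ℝ}, ContDiff ℝ ∞ k → HasCompactSupport k →
      cv k (toL2 (iteratedDeriv m φ)) = cv (iteratedDeriv m k) (toL2 φ) := by
  induction m with
  | zero =>
    intro k _ _
    rw [iteratedDeriv_zero, iteratedDeriv_zero]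
  | succ m ih =>
    intro k hk hc
    rw [iteratedDeriv_succ, iteratedDeriv_succ' (f := k),
      cv_deriv hk hc (contDiff_iter hφ m) (hasCompactSupport_iter hcφ m)]
    exact ih (contDiff_infty_iff_deriv.1 hk).2 hc.deriv

/-- Smooth functions with compact support. -/
def DS : Set L2 := {z | ∃ φ : ℝ → ℝ, ContDiff ℝ ∞ φ ∧ HasCompactSupport φ ∧ z = toL2 φ}

theorem DS_dense : Dense DS := by
  intro y
  rw [Metric.mem_closure_iff]
  intro ε hε
  obtain ⟨g, h1, h2, h3⟩ := MemLp.exist_eLpNorm_sub_le (p := 2) (by norm_num) (by norm_num)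
    (Lp.memLp y) (half_pos hε)
  refine ⟨toL2 g, ⟨g, h2, h1, rfl⟩, ?_⟩
  have e : eLpNorm (y - toL2 g : L2) 2 volume = eLpNorm ((y : ℝ → ℝ) - g) 2 volume := by
    apply eLpNorm_congr_ae
    filter_upwards [Lp.coeFn_sub y (toL2 g), toL2_ae (memLp_of h2 h1)] with x h4 h5
    rw [h4, Pi.sub_apply, Pi.sub_apply, h5]
  rw [dist_eq_norm, Lp.norm_def, e]
  have h6 := ENNReal.toReal_mono ENNReal.ofReal_ne_top h3
  rw [ENNReal.toReal_ofReal (half_pos hε).le] at h6
  linarith

theorem cont_int (A : L2 →L[ℝ] L2) (c : ℝ) :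
    Continuous fun y : L2 => ∫ s in (0 : ℝ)..c, airy (-s) (A y) := by
  have hii : ∀ y : L2, IntervalIntegrable (fun s => airy (-s) (A y)) volume 0 c := fun y =>
    ((airy_cont (A y)).comp continuous_neg).intervalIntegrable _ _
  refine (LipschitzWith.of_dist_le_mul (K := ⟨‖A‖ * |c|, by positivity⟩) fun y y' => ?_).continuous
  rw [dist_eq_norm, ← intervalIntegral.integral_sub (hii y) (hii y')]
  have h1 : ∀ s ∈ uIoc (0 : ℝ) c, ‖airy (-s) (A y) - airy (-s) (A y')‖ ≤ ‖A‖ * ‖y - y'‖ := by
    intro s _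
    rw [← map_sub, airy_norm, ← map_sub]
    exact A.le_opNorm _
  have h2 := intervalIntegral.norm_integral_le_of_norm_le_const h1
  rw [sub_zero] at h2
  refine h2.trans (le_of_eq ?_)
  rw [dist_eq_norm]
  change ‖A‖ * ‖y - y'‖ * |c| = ‖A‖ * |c| * ‖y - y'‖
  ring

end Inf04Aux

open Inf04Aux

theorem cv_gen {k : ℝ → ℝ} (hk : ContDiff ℝ ∞ k) (hc : HasCompactSupport k) (c : ℝ) (y : L2) :
    airy (-c) (cv k y) = cv k y + ∫ s in (0 : ℝ)..c, airy (-s) (cv (iteratedDeriv 3 k) y) := by
  have h1 : Continuous fun y : L2 => airy (-c) (cv k y) := (airy (-c)).continuous.comp (cv k).continuous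
  have h2 : Continuous fun y : L2 =>
      cv k y + ∫ s in (0 : ℝ)..c, airy (-s) (cv (iteratedDeriv 3 k) y) :=
    (cv k).continuous.add (cont_int _ c)
  refine congrFun (h1.ext_on DS_dense h2 ?_) y
  rintro z ⟨φ, hφ, hcφ, rfl⟩
  change airy (-c) (cv k (toL2 φ)) = cv k (toL2 φ) +
    ∫ s in (0 : ℝ)..c, airy (-s) (cv (iteratedDeriv 3 k) (toL2 φ))
  have hcont : Continuous fun s : ℝ => airy (-s) (toL2 (iteratedDeriv 3 φ)) :=
    (airy_cont _).comp continuous_neg
  rw [← cv_airy' hk.continuous hc, airy_gen hφ hcφ c, map_add,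
    ← ContinuousLinearMap.intervalIntegral_comp_comm _ (hcont.intervalIntegrable _ _)]
  congr 1
  refine intervalIntegral.integral_congr fun s _ => ?_
  change cv k (airy (-s) (toL2 (iteratedDeriv 3 φ))) = _
  rw [cv_airy' hk.continuous hc, cv_iter hφ hcφ 3 hk hc]

/-- INF4. The convolution commutes with the group, and maps into the domain of the generator. -/
theorem cv_airy {k : ℝ → ℝ} (hk : ContDiff ℝ ∞ k) (hc : HasCompactSupport k) (t : ℝ) (y : L2) :
    cv k (airy t y) = airy t (cv k y) := cv_airy' hk.continuous hc t y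

end Pool.Agent.KG
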