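import Pool.Agent.Lib.KG.Inf04
import Pool.Agent.Lib.MP_78c35a_an.Energy

/-!
# The equation of the convolution of a trajectory (row Inf05)

Pair with `z : L2`. `psi = cv (fun x => k (-x)) z` satisfies the hypothesis `gen` of `Sm.pair` for
the scalar group (`sm1`, `U t = airy (μ t)`) with `psi' = μ • cv (iteratedDeriv 3 fun x => k (-x)) z`
(`cv_gen`, change of variables as in `FuncAux.gen_psi`, `iteratedDeriv 3 (fun x => k (-x)) x =
- iteratedDeriv 3 k (-x)`), `traj_comp` gives the component, `cv_adj` brings everything back to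
`z`; `inner` with every `z` determines the vector. Here `p.sm = smn p.std`.
-/

set_option autoImplicit false

namespace Pool.Agent.KG

open MeasureTheory Filter Topology Set
open Pool.Agent.Kdv
open scoped ENNReal ContDiff InnerProductSpace

variable {n : ℕ}

private lemma Inf05_gen {L μ : ℝ} (hL : 0 < L) (hμ : 0 < μ) {k : ℝ → ℝ} (hk : ContDiff ℝ ∞ k)
    (hc : HasCompactSupport k) (z : L2) (t : ℝ) :
    (sm1 hL hμ).U (-t) (cv k z) = cv k z + ∫ s in (0 : ℝ)..t,
      (sm1 hL hμ).U (-s) (μ • cv (iteratedDeriv 3 k) z) := by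
  change airy (μ * (-t)) (cv k z) = cv k z + ∫ s in (0 : ℝ)..t,
    airy (μ * (-s)) (μ • cv (iteratedDeriv 3 k) z)
  have e2 : ∀ s : ℝ, airy (μ * (-s)) (μ • cv (iteratedDeriv 3 k) z) =
      μ • airy (-(μ * s)) (cv (iteratedDeriv 3 k) z) := by
    intro s
    rw [mul_neg, map_smul]
  simp only [e2]
  rw [mul_neg, cv_gen hk hc, intervalIntegral.integral_smul,
    intervalIntegral.smul_integral_comp_mul_left
      (fun s => airy (-s) (cv (iteratedDeriv 3 k) z)) μ, mul_zero]

private lemma Inf05_neg {g : ℝ → ℝ} (hg : Continuous g) (hc : HasCompactSupport g) (z : L2) :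
    cv (fun x => -g x) z = -cv g z := by
  apply Lp.ext
  have h1 := cv_ae (k := fun x => -g x) hg.neg hc.neg z
  have h2 := cv_ae hg hc z
  filter_upwards [h1, h2, Lp.coeFn_neg (cv g z)] with x a b c
  rw [a, c, Pi.neg_apply, b, cvf, cvf, ← integral_neg]
  refine integral_congr_ae (Eventually.of_forall fun s => ?_)
  simp

/-- INF5. The equation of the convolution of a trajectory. -/
theorem lin (p : Pr n) {y : HH n} {T : ℝ} {f : ℝ → HH n} (hf : IntegrableOn f (Ioc 0 T))
    {k : ℝ → ℝ} (hk : ContDiff ℝ ∞ k) (hc : HasCompactSupport k) (j : Fin n) {t : ℝ}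
    (ht : t ∈ Icc 0 T) :
    cv k (p.sm.traj y f t j) = cv k (y j) + ∫ s in (0 : ℝ)..t,
      (-p.mu j • cv (iteratedDeriv 3 k) (p.sm.traj y f s j) + cv k (f s j)) := by
  have hT : 0 ≤ T := ht.1.trans ht.2
  have hk3 : ContDiff ℝ ∞ (iteratedDeriv 3 k) := contDiff_iter hk 3
  have hc3 : HasCompactSupport (iteratedDeriv 3 k) := hasCompactSupport_iter hc 3
  set S := sm1 p.hL (p.hmu j) with hS
  have hfj : IntegrableOn (fun s => f s j) (Ioc 0 T) :=
    (prH (n := n) j).integrable_comp hf
  have hY : ∀ s ∈ Icc (0 : ℝ) T, p.sm.traj y f s j = S.traj (y j) (fun s => f s j) s :=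
    fun s hs => traj_comp p.std y hf hs j
  have hYc : ContinuousOn (S.traj (y j) (fun s => f s j)) (Icc 0 T) :=
    S.traj_cont (y j) hT hfj
  have hkm : ContDiff ℝ ∞ fun x => k (-x) := hk.comp contDiff_neg
  have hcm : HasCompactSupport fun x => k (-x) := hc.comp_homeomorph (Homeomorph.neg ℝ)
  have hc3m : HasCompactSupport fun x => iteratedDeriv 3 k (-x) :=
    hc3.comp_homeomorph (Homeomorph.neg ℝ)
  have h3 : iteratedDeriv 3 (fun x => k (-x)) = fun x => -iteratedDeriv 3 k (-x) := by
    funext x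
    rw [iteratedDeriv_comp_neg]
    simp [pow_succ]
  have hi : IntervalIntegrable (fun s => -p.mu j • cv (iteratedDeriv 3 k) (p.sm.traj y f s j) +
      cv k (f s j)) volume 0 t := by
    rw [intervalIntegrable_iff_integrableOn_Ioc_of_le ht.1]
    refine IntegrableOn.add ?_ ?_
    · have c1 : ContinuousOn (fun s => -p.mu j • cv (iteratedDeriv 3 k) (p.sm.traj y f s j))
          (Icc 0 T) := by
        refine ContinuousOn.congr (f := fun s => -p.mu j • cv (iteratedDeriv 3 k)
          (S.traj (y j) (fun s => f s j) s)) ?_ ?_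
        · exact ((cv (iteratedDeriv 3 k)).continuous.comp_continuousOn hYc).const_smul (-p.mu j)
        · intro s hs
          simp only [hY s hs]
      exact (c1.integrableOn_Icc.mono_set Ioc_subset_Icc_self).mono_set
        (Ioc_subset_Ioc_right ht.2)
    · exact ((cv k).integrable_comp hfj).mono_measure
        (Measure.restrict_mono (Ioc_subset_Ioc_right ht.2) le_rfl)
  refine ext_inner_right ℝ fun z => ?_
  have hp := S.pair (psi := cv (fun x => k (-x)) z)
    (psi' := p.mu j • cv (iteratedDeriv 3 fun x => k (-x)) z)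
    (fun t => Inf05_gen p.hL (p.hmu j) hkm hcm z t) (y j) hfj ht
  rw [hY t ht, cv_adj hk.continuous hc, real_inner_comm, hp, inner_add_left,
    cv_adj hk.continuous hc, real_inner_comm]
  congr 1
  have e1 : (inner ℝ (∫ s in (0 : ℝ)..t, (-p.mu j • cv (iteratedDeriv 3 k) (p.sm.traj y f s j) +
      cv k (f s j))) z : ℝ) = ∫ s in (0 : ℝ)..t, (inner ℝ z
        (-p.mu j • cv (iteratedDeriv 3 k) (p.sm.traj y f s j) + cv k (f s j)) : ℝ) := by
    rw [real_inner_comm]
    exact ((innerSL ℝ z).intervalIntegral_comp_comm hi).symm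
  rw [e1]
  refine intervalIntegral.integral_congr fun s hs => ?_
  rw [uIcc_of_le ht.1] at hs
  have hs' : s ∈ Icc (0 : ℝ) T := ⟨hs.1, hs.2.trans ht.2⟩
  change (inner ℝ (p.mu j • cv (iteratedDeriv 3 fun x => k (-x)) z)
      (S.traj (y j) (fun s => f s j) s) : ℝ) + inner ℝ (cv (fun x => k (-x)) z) (f s j) =
    inner ℝ z (-p.mu j • cv (iteratedDeriv 3 k) (p.sm.traj y f s j) + cv k (f s j))
  have k1 : cv (fun x => -iteratedDeriv 3 k (-x)) z = -cv (fun x => iteratedDeriv 3 k (-x)) z :=
    Inf05_neg (g := fun x => iteratedDeriv 3 k (-x)) (hk3.continuous.comp continuous_neg) hc3m z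
  have a1 := cv_adj hk3.continuous hc3 (S.traj (y j) (fun s => f s j) s) z
  have a2 := cv_adj hk.continuous hc (f s j) z
  rw [hY s hs', h3, k1, inner_add_right, inner_smul_left, inner_smul_right, inner_neg_left,
    real_inner_comm (cv (iteratedDeriv 3 k) (S.traj (y j) (fun s => f s j) s)) z, a1,
    real_inner_comm (cv k (f s j)) z, a2,
    real_inner_comm (S.traj (y j) (fun s => f s j) s) (cv (fun x => iteratedDeriv 3 k (-x)) z),
    real_inner_comm (f s j) (cv (fun x => k (-x)) z)]
  simp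

end Pool.Agent.KG
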