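import Pool.Agent.Lib.KG.Inf03

/-!
# The mollifiers (row Inf06)

`ker0` is smooth, even, nonnegative, zero for `|x| ≥ 1`, `ker0 0 = 1`, so `∫ ker0 > 0`
(`Real.smoothTransition`). Scaling: `integral_comp_div`. `cv_ker_norm`: `cv_norm` and
`∫ |ker e| = 1`. `cv_ker_tendsto`: uniform continuity for continuous functions of compact support,
density and `cv_ker_norm`.
-/

set_option autoImplicit false

namespace Pool.Agent.KG

open MeasureTheory Filter Topology Set
open Pool.Agent.Kdv
open scoped ENNReal ContDiff InnerProductSpace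

variable {n : ℕ}

private theorem inf06_st_smooth : ContDiff ℝ ∞ st := Real.smoothTransition.contDiff

private theorem inf06_ker0_smooth : ContDiff ℝ ∞ ker0 := by
  unfold ker0
  exact (inf06_st_smooth.comp (contDiff_const.mul (contDiff_const.add contDiff_id))).mul
    (inf06_st_smooth.comp (contDiff_const.mul (contDiff_const.sub contDiff_id)))

private theorem inf06_ker0_nonneg (x : ℝ) : 0 ≤ ker0 x :=
  mul_nonneg (Real.smoothTransition.nonneg _) (Real.smoothTransition.nonneg _)

private theorem inf06_ker0_zero {x : ℝ} (hx : 1 ≤ |x|) : ker0 x = 0 := by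
  unfold ker0 st
  rcases le_abs.1 hx with h | h
  · rw [Real.smoothTransition.zero_of_nonpos (x := 2 * (1 - x)) (by linarith), mul_zero]
  · rw [Real.smoothTransition.zero_of_nonpos (x := 2 * (1 + x)) (by linarith), zero_mul]

private theorem inf06_ker0_even (x : ℝ) : ker0 (-x) = ker0 x := by
  unfold ker0
  rw [mul_comm, sub_neg_eq_add, ← sub_eq_add_neg]

private theorem inf06_ker0_at : ker0 0 = 1 := by
  unfold ker0 st
  rw [Real.smoothTransition.one_of_one_le (by norm_num),
    Real.smoothTransition.one_of_one_le (by norm_num), one_mul]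

private theorem inf06_ker0_cs : HasCompactSupport ker0 := by
  refine HasCompactSupport.intro (isCompact_Icc (a := (-1 : ℝ)) (b := 1)) fun x hx => ?_
  refine inf06_ker0_zero ?_
  by_contra h
  push Not at h
  exact hx (abs_le.1 h.le)

private theorem inf06_int_pos : 0 < ∫ s, ker0 s :=
  inf06_ker0_smooth.continuous.integral_pos_of_hasCompactSupport_nonneg_nonzero inf06_ker0_cs
    inf06_ker0_nonneg (x := 0) (by rw [inf06_ker0_at]; exact one_ne_zero)

private theorem inf06_scale (F : ℝ → ℝ) {e : ℝ} (he : 0 < e) :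
    ∫ s, F (s / e) = e * ∫ s, F s := by
  have h := Measure.integral_comp_div F e
  rw [h, abs_of_pos he, smul_eq_mul]

/-- INF6. The mollifiers. -/
theorem ker_smooth {e : ℝ} (he : 0 < e) : ContDiff ℝ ∞ (ker e) ∧ HasCompactSupport (ker e) ∧
    (∀ x, e ≤ |x| → ker e x = 0) ∧ (∀ x, 0 ≤ ker e x) ∧ (∫ s, ker e s = 1) ∧
    (∀ x, ker e (-x) = ker e x) := by
  have hz : ∀ x, e ≤ |x| → ker e x = 0 := by
    intro x hx
    unfold ker
    rw [inf06_ker0_zero, mul_zero]
    rw [abs_div, abs_of_pos he, one_le_div he]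
    exact hx
  refine ⟨?_, ?_, hz, ?_, ?_, ?_⟩
  · unfold ker
    exact contDiff_const.mul (inf06_ker0_smooth.comp (contDiff_id.div_const _))
  · refine HasCompactSupport.intro (isCompact_Icc (a := -e) (b := e)) fun x hx => ?_
    refine hz x ?_
    by_contra h
    push Not at h
    exact hx (abs_le.1 h.le)
  · intro x
    unfold ker
    exact mul_nonneg (inv_nonneg.2 (mul_nonneg he.le inf06_int_pos.le)) (inf06_ker0_nonneg _)
  · unfold ker
    rw [integral_const_mul, inf06_scale ker0 he]
    exact inv_mul_cancel₀ (mul_pos he inf06_int_pos).ne'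
  · intro x
    unfold ker
    rw [neg_div, inf06_ker0_even]

private theorem inf06_deriv {e : ℝ} (x : ℝ) :
    deriv (ker e) x = (e * ∫ s, ker0 s)⁻¹ * (deriv ker0 (x / e) / e) := by
  have h0 : HasDerivAt ker0 (deriv ker0 (x / e)) (x / e) :=
    (inf06_ker0_smooth.differentiable (by simp) _).hasDerivAt
  have h1 : HasDerivAt (fun x : ℝ => x / e) (1 / e) x := (hasDerivAt_id x).div_const e
  have h2 : HasDerivAt (fun x => ker0 (x / e)) (deriv ker0 (x / e) * (1 / e)) x :=
    HasDerivAt.comp (h := fun x : ℝ => x / e) (h₂ := ker0) x h0 h1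
  have h3 : HasDerivAt (ker e) ((e * ∫ s, ker0 s)⁻¹ * (deriv ker0 (x / e) * (1 / e))) x := by
    unfold ker
    exact h2.const_mul _
  rw [h3.deriv]
  ring

theorem ker_bounds : ∃ C : ℝ, 0 ≤ C ∧ ∀ e : ℝ, 0 < e → (∫ s, |deriv (ker e) s|) ≤ C / e ∧
    (∫ s, (ker e s) ^ 2) ≤ C / e ∧ ∀ x, |x * deriv (ker e) x| ≤ C / e := by
  have hI := inf06_int_pos
  set I : ℝ := ∫ s, ker0 s with hIdef
  have hdc : Continuous (deriv ker0) := inf06_ker0_smooth.continuous_deriv (by simp)
  have hds : HasCompactSupport (deriv ker0) := inf06_ker0_cs.deriv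
  obtain ⟨M, hM⟩ := (continuous_id.mul hdc).bounded_above_of_compact_support
    (hds.mul_left (f := (id : ℝ → ℝ)))
  have hM0 : 0 ≤ M := (norm_nonneg _).trans (hM 0)
  have hA : 0 ≤ ∫ s, |deriv ker0 s| := integral_nonneg fun s => abs_nonneg _
  have hB : 0 ≤ ∫ s, (ker0 s) ^ 2 := integral_nonneg fun s => sq_nonneg _
  set A : ℝ := ∫ s, |deriv ker0 s| with hAdef
  set B : ℝ := ∫ s, (ker0 s) ^ 2 with hBdef
  refine ⟨A / I + B / I ^ 2 + M / I, by positivity, fun e he => ⟨?_, ?_, ?_⟩⟩
  · have h1 : (∫ s, |deriv (ker e) s|) = A / I / e := by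
      have h2 : ∀ s, |deriv (ker e) s| = (e * I)⁻¹ / e * (fun y => |deriv ker0 y|) (s / e) := by
        intro s
        rw [inf06_deriv, abs_mul, abs_div, abs_of_pos he,
          abs_of_pos (inv_pos.2 (mul_pos he hI))]
        ring
      rw [integral_congr_ae (Eventually.of_forall h2), integral_const_mul,
        inf06_scale (fun y => |deriv ker0 y|) he, ← hAdef]
      field_simp
    rw [h1]
    have h3 : 0 ≤ B / I ^ 2 := by positivity
    have h4 : 0 ≤ M / I := by positivity
    gcongr
    linarith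
  · have h1 : (∫ s, (ker e s) ^ 2) = B / I ^ 2 / e := by
      have h2 : ∀ s, (ker e s) ^ 2 = ((e * I)⁻¹) ^ 2 * (fun y => (ker0 y) ^ 2) (s / e) := by
        intro s
        unfold ker
        rw [mul_pow]
      rw [integral_congr_ae (Eventually.of_forall h2), integral_const_mul,
        inf06_scale (fun y => (ker0 y) ^ 2) he, ← hBdef]
      field_simp
    rw [h1]
    have h3 : 0 ≤ A / I := by positivity
    have h4 : 0 ≤ M / I := by positivity
    gcongr
    linarith
  · intro x
    have h1 : |x * deriv (ker e) x| = (e * I)⁻¹ * |x / e * deriv ker0 (x / e)| := by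
      rw [inf06_deriv]
      have h2 : x * ((e * I)⁻¹ * (deriv ker0 (x / e) / e)) =
          (e * I)⁻¹ * (x / e * deriv ker0 (x / e)) := by ring
      rw [h2, abs_mul, abs_of_pos (inv_pos.2 (mul_pos he hI))]
    have h3 : |x / e * deriv ker0 (x / e)| ≤ M := hM (x / e)
    have h4 : (e * I)⁻¹ * M = M / I / e := by field_simp
    have h5 : 0 ≤ A / I := by positivity
    have h6 : 0 ≤ B / I ^ 2 := by positivity
    rw [h1]
    calc (e * I)⁻¹ * |x / e * deriv ker0 (x / e)| ≤ (e * I)⁻¹ * M :=
          mul_le_mul_of_nonneg_left h3 (inv_pos.2 (mul_pos he hI)).le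
      _ = M / I / e := h4
      _ ≤ (A / I + B / I ^ 2 + M / I) / e := by
          gcongr
          linarith

theorem cv_ker_norm {e : ℝ} (he : 0 < e) (y : L2) : ‖cv (ker e) y‖ ≤ ‖y‖ := by
  obtain ⟨h1, h2, -, h4, h5, -⟩ := ker_smooth he
  have h := cv_norm h1.continuous h2 y
  have h6 : (∫ s, |ker e s|) = 1 := by
    rw [← h5]
    exact integral_congr_ae (Eventually.of_forall fun s => abs_of_nonneg (h4 s))
  rwa [h6, one_mul] at h

private theorem inf06_close {g : ℝ → ℝ} (hg : Continuous g) {R : ℝ}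
    (hz : ∀ x, R ≤ |x| → g x = 0) (hm : MemLp g 2 volume) {e δ : ℝ} (he : 0 < e) (he1 : e ≤ 1)
    (hR : 0 ≤ R)
    (hu : ∀ x s, |x - s| < e → |g s - g x| ≤ δ) :
    ‖cv (ker e) (toL2 g) - toL2 g‖ ^ 2 ≤ δ ^ 2 * (2 * (R + 1)) := by
  obtain ⟨h1, h2, h3, h4, h5, h6⟩ := ker_smooth he
  have hpt : ∀ᵐ x ∂volume, (cv (ker e) (toL2 g) - toL2 g) x ^ 2 ≤
      (Icc (-(R + 1)) (R + 1)).indicator (fun _ => δ ^ 2) x := by
    filter_upwards [cv_ae h1.continuous h2 (toL2 g), toL2_ae hm,
      Lp.coeFn_sub (cv (ker e) (toL2 g)) (toL2 g)] with x a1 a2 a3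
    rw [a3, Pi.sub_apply, a1, a2]
    have hker : Continuous fun s => ker e (x - s) := h1.continuous.comp (continuous_sub_left x)
    have hkc : HasCompactSupport fun s => ker e (x - s) := by
      have := h2.comp_homeomorph (Homeomorph.subLeft x)
      exact this
    have e1 : cvf (ker e) (toL2 g) x = ∫ s, ker e (x - s) * g s := by
      unfold cvf
      refine integral_congr_ae ?_
      filter_upwards [toL2_ae hm] with s hs
      rw [hs]
    have e2 : g x = ∫ s, ker e (x - s) * g x := by
      rw [integral_mul_const, integral_sub_left_eq_self (fun s => ker e s), h5, one_mul]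
    have i1 : Integrable (fun s => ker e (x - s) * g s) volume :=
      (hker.mul hg).integrable_of_hasCompactSupport (hkc.mul_right)
    have i0 : Integrable (fun s => ker e (x - s)) volume :=
      hker.integrable_of_hasCompactSupport hkc
    have i2 : Integrable (fun s => ker e (x - s) * g x) volume := i0.mul_const _
    have e3 : cvf (ker e) (toL2 g) x - g x = ∫ s, ker e (x - s) * (g s - g x) := by
      rw [e1]
      conv_lhs => rw [e2]
      rw [← integral_sub i1 i2]
      refine integral_congr_ae (Eventually.of_forall fun s => ?_)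
      simp only
      ring
    rw [e3]
    by_cases hx : x ∈ Icc (-(R + 1)) (R + 1)
    · rw [indicator_of_mem hx]
      have e4 : |∫ s, ker e (x - s) * (g s - g x)| ≤ δ := by
        calc |∫ s, ker e (x - s) * (g s - g x)| ≤ ∫ s, |ker e (x - s) * (g s - g x)| :=
              abs_integral_le_integral_abs
          _ ≤ ∫ s, ker e (x - s) * δ := by
              refine integral_mono_of_nonneg (Eventually.of_forall fun s => abs_nonneg _)
                (i0.mul_const _) (Eventually.of_forall fun s => ?_)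
              simp only
              rw [abs_mul, abs_of_nonneg (h4 _)]
              by_cases hs : |x - s| < e
              · exact mul_le_mul_of_nonneg_left (hu x s hs) (h4 _)
              · rw [h3 _ (not_lt.1 hs), zero_mul, zero_mul]
          _ = δ := by
              rw [integral_mul_const, integral_sub_left_eq_self (fun s => ker e s), h5, one_mul]
      exact sq_le_sq' (by linarith [(abs_le.1 e4).1]) (abs_le.1 e4).2
    · rw [indicator_of_notMem hx]
      have hx' : R + 1 < |x| := by
        by_contra h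
        push Not at h
        exact hx (abs_le.1 h)
      have e5 : ∫ s, ker e (x - s) * (g s - g x) = 0 := by
        rw [← integral_zero ℝ ℝ (μ := volume)]
        refine integral_congr_ae (Eventually.of_forall fun s => ?_)
        simp only
        by_cases hs : |x - s| < e
        · have hs' : R ≤ |s| := by
            have := abs_sub_abs_le_abs_sub x s
            linarith
          rw [hz s hs', hz x (by linarith), sub_zero, mul_zero]
        · rw [h3 _ (not_lt.1 hs), zero_mul]
      rw [e5]
      norm_num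
  rw [AgmAux.norm_sq]
  calc ∫ x, (cv (ker e) (toL2 g) - toL2 g) x ^ 2
      ≤ ∫ x, (Icc (-(R + 1)) (R + 1)).indicator (fun _ => δ ^ 2) x := by
        refine integral_mono_of_nonneg (Eventually.of_forall fun s => sq_nonneg _) ?_ hpt
        rw [integrable_indicator_iff measurableSet_Icc]
        exact integrableOn_const (by exact measure_Icc_lt_top.ne)
    _ = δ ^ 2 * (2 * (R + 1)) := by
        rw [integral_indicator measurableSet_Icc, setIntegral_const,
          Real.volume_real_Icc_of_le (by linarith), smul_eq_mul]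
        ring

theorem cv_ker_tendsto (y : L2) : Tendsto (fun e => cv (ker e) y) (𝓝[>] 0) (𝓝 y) := by
  rw [Metric.tendsto_nhds]
  intro ε hε
  obtain ⟨g, hgs, hgn, hgc, hgm⟩ := (Lp.memLp y).exists_hasCompactSupport_eLpNorm_sub_le
    (by norm_num) (ε := ENNReal.ofReal (ε / 4)) (by
      rw [Ne, ENNReal.ofReal_eq_zero, not_le]; linarith)
  have hgn' : ‖y - toL2 g‖ ≤ ε / 4 := by
    rw [Lp.norm_def]
    refine ENNReal.toReal_le_of_le_ofReal (by linarith) ?_
    refine le_trans (le_of_eq ?_) hgn
    refine eLpNorm_congr_ae ?_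
    filter_upwards [Lp.coeFn_sub y (toL2 g), toL2_ae hgm] with x h1 h2
    rw [h1, Pi.sub_apply, Pi.sub_apply, h2]
  obtain ⟨R0, hR0⟩ := hgs.isCompact.isBounded.exists_norm_le
  set R : ℝ := max R0 0 + 1 with hRdef
  have hR : 0 ≤ R := by positivity
  have hR1 : 0 < 2 * (R + 1) := by positivity
  have hR2 : 1 ≤ 2 * (R + 1) := by linarith
  have hz : ∀ x, R ≤ |x| → g x = 0 := by
    intro x hx
    by_contra h
    have h1 := hR0 x (subset_tsupport _ h)
    rw [Real.norm_eq_abs] at h1
    have := le_max_left R0 0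
    linarith
  set δ : ℝ := ε / 4 / (2 * (R + 1)) with hδdef
  have hδ : 0 < δ := by positivity
  have huc : UniformContinuous g := hgs.uniformContinuous_of_continuous hgc
  obtain ⟨η, hη, hη'⟩ := Metric.uniformContinuous_iff.1 huc δ hδ
  have hev : ∀ᶠ e in 𝓝[>] (0 : ℝ), e ∈ Ioo 0 (min η 1) :=
    Ioo_mem_nhdsGT (lt_min hη one_pos)
  filter_upwards [hev] with e he
  have he0 : 0 < e := he.1
  have he1 : e < η := he.2.trans_le (min_le_left _ _)
  have he2 : e ≤ 1 := (he.2.trans_le (min_le_right _ _)).le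
  have hc := inf06_close hgc hz hgm he0 he2 hR (fun x s hxs => by
    have h1 : dist s x < η := by
      rw [dist_comm, Real.dist_eq]
      exact hxs.trans he1
    have h2 := hη' h1
    rw [Real.dist_eq] at h2
    exact h2.le)
  have hc2 : ‖cv (ker e) (toL2 g) - toL2 g‖ ≤ ε / 4 := by
    refine abs_le_of_sq_le_sq' ?_ (by linarith) |>.2
    refine hc.trans ?_
    have : δ ^ 2 * (2 * (R + 1)) = (ε / 4) ^ 2 / (2 * (R + 1)) := by
      rw [hδdef]
      field_simp
    rw [this]
    exact div_le_self (sq_nonneg _) hR2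
  have hc3 : ‖cv (ker e) y - cv (ker e) (toL2 g)‖ ≤ ε / 4 := by
    rw [← map_sub]
    exact (cv_ker_norm he0 _).trans hgn'
  rw [dist_eq_norm]
  have e1 : cv (ker e) y - y = (cv (ker e) y - cv (ker e) (toL2 g)) +
      (cv (ker e) (toL2 g) - toL2 g) - (y - toL2 g) := by abel
  rw [e1]
  calc ‖(cv (ker e) y - cv (ker e) (toL2 g)) + (cv (ker e) (toL2 g) - toL2 g) - (y - toL2 g)‖
      ≤ ‖(cv (ker e) y - cv (ker e) (toL2 g)) + (cv (ker e) (toL2 g) - toL2 g)‖ +
        ‖y - toL2 g‖ := norm_sub_le _ _
    _ ≤ ‖cv (ker e) y - cv (ker e) (toL2 g)‖ + ‖cv (ker e) (toL2 g) - toL2 g‖ +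
        ‖y - toL2 g‖ := by gcongr; exact norm_add_le _ _
    _ < ε := by linarith

end Pool.Agent.KG
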