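import Pool.Agent.Lib.KG.Inf06
import Pool.Agent.Lib.MP_78c35a_an.Agm

/-!
# Mollification inside the interval (row Inf06b)

`V1.val_ae`, `V1.val_sub`, `V1.parts` (Agm.lean). First claim: for `x ∈ (-1 + e, L + 1 - e)` the
kernel is supported in `J`, integrate by parts. Second: `u(x) - cvf (ker e) u x =
∫ ker e s (u(x) - u(x - s)) ds`, its square is at most `∫ ker e s (u(x) - u(x - s))² ds`, and
`(u(x) - u(x - s))² ≤ |s| |∫ d²|` between the two points; integrate in `x` (Tonelli).
-/

set_option autoImplicit false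

namespace Pool.Agent.KG

open MeasureTheory Filter Topology Set
open Pool.Agent.Kdv
open scoped ENNReal ContDiff InnerProductSpace

variable {n : ℕ}

private theorem inf06b_loc {k : ℝ → ℝ} {e : ℝ} (he : 0 < e) (hk : ∀ z, e ≤ |z| → k z = 0)
    (y : ℝ → ℝ) (x : ℝ) : ∫ s, k (x - s) * y s = ∫ s in (x - e)..(x + e), k (x - s) * y s := by
  rw [intervalIntegral.integral_of_le (by linarith)]
  symm
  refine setIntegral_eq_integral_of_forall_compl_eq_zero fun s hs => ?_
  rw [hk, zero_mul]
  by_contra h
  push Not at h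
  have h1 := abs_lt.1 h
  exact hs ⟨by linarith, by linarith⟩

private theorem inf06b_deriv_zero {e : ℝ} (he : 0 < e) (z : ℝ) (hz : e ≤ |z|) :
    deriv (ker e) z = 0 := by
  obtain ⟨-, -, h3, h4, -, -⟩ := ker_smooth he
  refine IsLocalMin.deriv_eq_zero (Eventually.of_forall fun w => ?_)
  rw [h3 z hz]
  exact h4 w

/-- Integration by parts. -/
private theorem inf06b_parts {L e : ℝ} (he : 0 < e) (v : V1 L) (x : ℝ) :
    ∫ s in (x - e)..(x + e), deriv (ker e) (x - s) * v.val s =
      ∫ s in (x - e)..(x + e), ker e (x - s) * V1.d L v s := by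
  obtain ⟨h1, h2, h3, h4, h5, h6⟩ := ker_smooth he
  have hg : ContDiff ℝ ∞ fun s => ker e (x - s) := h1.comp (contDiff_const.sub contDiff_id)
  have hgd : ∀ s, HasDerivAt (fun s => ker e (x - s)) (-deriv (ker e) (x - s)) s := by
    intro s
    have a1 : HasDerivAt (ker e) (deriv (ker e) (x - s)) (x - s) :=
      (h1.differentiable (by simp) _).hasDerivAt
    have a2 : HasDerivAt (fun s : ℝ => x - s) (-1) s := (hasDerivAt_id s).const_sub x
    have a3 := HasDerivAt.comp (h := fun s : ℝ => x - s) (h₂ := ker e) s a1 a2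
    rw [mul_neg_one] at a3
    exact a3
  have hgac : AbsolutelyContinuousOnInterval (fun s => ker e (x - s)) (x - e) (x + e) :=
    (hg.of_le (by simp)).contDiffOn.absolutelyContinuousOnInterval
  have hac := hgac.mul (AgmAux.ac v (x - e) (x + e))
  have h7 := hac.integral_deriv_eq_sub
  simp only [Pi.mul_apply] at h7
  have z1 : ker e (x - (x + e)) = 0 := h3 _ (by rw [sub_add_cancel_left, abs_neg, abs_of_pos he])
  have z2 : ker e (x - (x - e)) = 0 := h3 _ (by rw [sub_sub_cancel, abs_of_pos he])
  rw [z1, z2, zero_mul, zero_mul, sub_zero] at h7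
  have h8 : ∫ s in (x - e)..(x + e), deriv ((fun s => ker e (x - s)) * v.val) s =
      ∫ s in (x - e)..(x + e), (ker e (x - s) * V1.d L v s - deriv (ker e) (x - s) * v.val s) := by
    refine intervalIntegral.integral_congr_ae ?_
    filter_upwards [AgmAux.hasDerivAt v] with s a1 _
    rw [((hgd s).mul a1).deriv]
    ring
  have i1 : IntervalIntegrable (fun s => ker e (x - s) * V1.d L v s) volume (x - e) (x + e) :=
    (AgmAux.intervalInt (V1.d L v) _ _).continuousOn_mul hg.continuous.continuousOn
  have i2 : IntervalIntegrable (fun s => deriv (ker e) (x - s) * v.val s) volume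
      (x - e) (x + e) :=
    ((((h1.continuous_deriv (by simp)).comp (continuous_sub_left x)).mul
      v.val_cont)).intervalIntegrable _ _
  rw [h8, intervalIntegral.integral_sub i1 i2] at h7
  linarith

private theorem inf06b_half {e : ℝ} (he : 0 < e) :
    (∫ s in (-e)..0, ker e s) = 1 / 2 ∧ (∫ s in (0 : ℝ)..e, ker e s) = 1 / 2 := by
  obtain ⟨h1, h2, h3, h4, h5, h6⟩ := ker_smooth he
  have hi : ∀ a b : ℝ, IntervalIntegrable (ker e) volume a b :=
    fun a b => h1.continuous.intervalIntegrable a b
  have e1 : (∫ s in (-e)..0, ker e s) = ∫ s in (0 : ℝ)..e, ker e s := by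
    have h7 := intervalIntegral.integral_comp_neg (a := (0 : ℝ)) (b := e) (ker e)
    rw [neg_zero] at h7
    rw [← h7]
    exact intervalIntegral.integral_congr fun s _ => h6 s
  have e2 : (∫ s in (-e)..0, ker e s) + (∫ s in (0 : ℝ)..e, ker e s) = 1 := by
    rw [intervalIntegral.integral_add_adjacent_intervals (hi _ _) (hi _ _), ← h5,
      intervalIntegral.integral_of_le (by linarith)]
    refine setIntegral_eq_integral_of_forall_compl_eq_zero fun s hs => h3 s ?_
    by_contra h
    push Not at h
    have h1 := abs_lt.1 h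
    exact hs ⟨by linarith, by linarith⟩
  constructor <;> linarith

/-- The convolution is close to the function. -/
private theorem inf06b_close {L e : ℝ} (he : 0 < e) (v : V1 L) (x : ℝ) :
    |(∫ s in (x - e)..(x + e), ker e (x - s) * v.val s) - v.val x| ≤
      1 / 2 * ∫ s in (x - e)..(x + e), |V1.d L v s| := by
  obtain ⟨h1, h2, h3, h4, h5, h6⟩ := ker_smooth he
  obtain ⟨hl, hr⟩ := inf06b_half he
  have hgc : Continuous fun s => ker e (x - s) := h1.continuous.comp (continuous_sub_left x)
  have id : ∀ a b : ℝ, IntervalIntegrable (fun s => |V1.d L v s|) volume a b :=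
    fun a b => (AgmAux.intervalInt (V1.d L v) a b).abs
  have m1 : (∫ s in (x - e)..x, ker e (x - s)) = 1 / 2 := by
    rw [intervalIntegral.integral_comp_sub_left (ker e) x, sub_self, sub_sub_cancel, hr]
  have m2 : (∫ s in x..(x + e), ker e (x - s)) = 1 / 2 := by
    rw [intervalIntegral.integral_comp_sub_left (ker e) x, sub_self, sub_add_cancel_left, hl]
  have ik : ∀ a b : ℝ, IntervalIntegrable (fun s => ker e (x - s)) volume a b :=
    fun a b => hgc.intervalIntegrable a b
  have iv : ∀ a b : ℝ, IntervalIntegrable (fun s => ker e (x - s) * (v.val s - v.val x))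
      volume a b := fun a b =>
    (hgc.mul (v.val_cont.sub continuous_const)).intervalIntegrable a b
  have iv2 : ∀ a b : ℝ, IntervalIntegrable (fun s => ker e (x - s) * v.val s)
      volume a b := fun a b => (hgc.mul v.val_cont).intervalIntegrable a b
  have e1 : (∫ s in (x - e)..(x + e), ker e (x - s) * v.val s) - v.val x =
      (∫ s in (x - e)..x, ker e (x - s) * (v.val s - v.val x)) +
        ∫ s in x..(x + e), ker e (x - s) * (v.val s - v.val x) := by
    rw [intervalIntegral.integral_add_adjacent_intervals (iv _ _) (iv _ _)]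
    have e2 : ∫ s in (x - e)..(x + e), ker e (x - s) * (v.val s - v.val x) =
        (∫ s in (x - e)..(x + e), ker e (x - s) * v.val s) -
          (∫ s in (x - e)..(x + e), ker e (x - s)) * v.val x := by
      rw [← intervalIntegral.integral_mul_const, ← intervalIntegral.integral_sub (iv2 _ _)
        ((ik _ _).mul_const _)]
      exact intervalIntegral.integral_congr fun s _ => by ring
    rw [e2, ← intervalIntegral.integral_add_adjacent_intervals (ik (x - e) x) (ik x (x + e)),
      m1, m2]
    ring
  have hb : ∀ a b : ℝ, a ≤ b → ∀ s ∈ Icc a b, |v.val s - v.val a| ≤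
      ∫ r in a..b, |V1.d L v r| := by
    intro a b hab s hs
    rw [v.val_sub a s]
    refine (intervalIntegral.abs_integral_le_integral_abs hs.1).trans ?_
    rw [← intervalIntegral.integral_add_adjacent_intervals (id a s) (id s b)]
    have : 0 ≤ ∫ r in s..b, |V1.d L v r| :=
      intervalIntegral.integral_nonneg hs.2 fun r _ => abs_nonneg _
    linarith
  have hb' : ∀ a b : ℝ, a ≤ b → ∀ s ∈ Icc a b, |v.val s - v.val b| ≤
      ∫ r in a..b, |V1.d L v r| := by
    intro a b hab s hs
    rw [abs_sub_comm, v.val_sub s b]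
    refine (intervalIntegral.abs_integral_le_integral_abs hs.2).trans ?_
    rw [← intervalIntegral.integral_add_adjacent_intervals (id a s) (id s b)]
    have : 0 ≤ ∫ r in a..s, |V1.d L v r| :=
      intervalIntegral.integral_nonneg hs.1 fun r _ => abs_nonneg _
    linarith
  have b1 : |∫ s in (x - e)..x, ker e (x - s) * (v.val s - v.val x)| ≤
      1 / 2 * ∫ r in (x - e)..x, |V1.d L v r| := by
    refine (intervalIntegral.abs_integral_le_integral_abs (by linarith)).trans ?_
    rw [← m1, ← intervalIntegral.integral_mul_const]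
    refine intervalIntegral.integral_mono_on (by linarith) (iv _ _).abs
      ((ik _ _).mul_const _) fun s hs => ?_
    rw [abs_mul, abs_of_nonneg (h4 _)]
    exact mul_le_mul_of_nonneg_left (hb' _ _ (by linarith) s hs) (h4 _)
  have b2 : |∫ s in x..(x + e), ker e (x - s) * (v.val s - v.val x)| ≤
      1 / 2 * ∫ r in x..(x + e), |V1.d L v r| := by
    refine (intervalIntegral.abs_integral_le_integral_abs (by linarith)).trans ?_
    rw [← m2, ← intervalIntegral.integral_mul_const]
    refine intervalIntegral.integral_mono_on (by linarith) (iv _ _).abs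
      ((ik _ _).mul_const _) fun s hs => ?_
    rw [abs_mul, abs_of_nonneg (h4 _)]
    exact mul_le_mul_of_nonneg_left (hb _ _ (by linarith) s hs) (h4 _)
  rw [e1, ← intervalIntegral.integral_add_adjacent_intervals (id (x - e) x) (id x (x + e)),
    mul_add]
  exact (abs_add_le _ _).trans (add_le_add b1 b2)

/-- Cauchy-Schwarz on an interval. -/
private theorem inf06b_cs (f : L2) {a b : ℝ} (hab : a < b) :
    (∫ s in a..b, |f s|) ^ 2 ≤ (b - a) * ∫ s in a..b, (f s) ^ 2 := by
  have i1 : IntervalIntegrable (fun s => |f s|) volume a b :=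
    (AgmAux.intervalInt f a b).abs
  have i2 : IntervalIntegrable (fun s => (f s) ^ 2) volume a b := by
    have := (AgmAux.mul_int f f).intervalIntegrable (a := a) (b := b)
    exact this.congr fun s _ => (sq (f s)).symm
  set m : ℝ := (∫ s in a..b, |f s|) / (b - a) with hm
  have hba : 0 < b - a := by linarith
  have h1 : 0 ≤ ∫ s in a..b, (|f s| - m) ^ 2 :=
    intervalIntegral.integral_nonneg hab.le fun s _ => sq_nonneg _
  have h2 : ∫ s in a..b, (|f s| - m) ^ 2 =
      (∫ s in a..b, (f s) ^ 2) - 2 * m * (∫ s in a..b, |f s|) + m ^ 2 * (b - a) := by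
    have e1 : ∀ s, (|f s| - m) ^ 2 = (f s) ^ 2 - 2 * m * |f s| + m ^ 2 := by
      intro s
      rw [sub_sq, sq_abs]
      ring
    rw [intervalIntegral.integral_congr fun s _ => e1 s,
      intervalIntegral.integral_add (i2.sub (i1.const_mul _)) intervalIntegrable_const,
      intervalIntegral.integral_sub i2 (i1.const_mul _), intervalIntegral.integral_const_mul,
      intervalIntegral.integral_const, smul_eq_mul]
    ring
  have h3 : (∫ s in a..b, |f s|) = m * (b - a) := by
    rw [hm]
    field_simp
  rw [h2, h3] at h1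
  rw [h3]
  have h4 : 0 ≤ (b - a) * ((∫ s in a..b, (f s) ^ 2) - 2 * m * (m * (b - a)) +
      m ^ 2 * (b - a)) := mul_nonneg hba.le h1
  nlinarith [h4]

/-- Tonelli. -/
private theorem inf06b_ton (f : L2) {e : ℝ} (he : 0 < e) :
    Integrable (fun x => ∫ s in (x - e)..(x + e), (f s) ^ 2) volume ∧
      ∫ x, (∫ s in (x - e)..(x + e), (f s) ^ 2) = 2 * e * ‖f‖ ^ 2 := by
  set g : ℝ → ℝ := (Ico (-e) e).indicator fun _ => 1 with hg
  set F : ℝ → ℝ := fun s => (f s) ^ 2 with hF
  have iF : Integrable F volume := (AgmAux.mul_int f f).congr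
    (Eventually.of_forall fun s => (sq (f s)).symm)
  have ig : Integrable g volume := by
    rw [hg, integrable_indicator_iff measurableSet_Ico]
    exact integrableOn_const (by exact measure_Ico_lt_top.ne)
  have hconv : ∀ x, (convolution F g (ContinuousLinearMap.mul ℝ ℝ) volume) x =
      ∫ s in (x - e)..(x + e), F s := by
    intro x
    unfold convolution
    rw [intervalIntegral.integral_of_le (by linarith), ← integral_indicator measurableSet_Ioc]
    refine integral_congr_ae (Eventually.of_forall fun s => ?_)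
    simp only [ContinuousLinearMap.mul_apply']
    by_cases hs : s ∈ Ioc (x - e) (x + e)
    · rw [indicator_of_mem hs, hg, indicator_of_mem, mul_one]
      exact ⟨by linarith [hs.2], by linarith [hs.1]⟩
    · rw [indicator_of_notMem hs, hg, indicator_of_notMem, mul_zero]
      intro h
      exact hs ⟨by linarith [h.2], by linarith [h.1]⟩
  have h1 := iF.integrable_convolution (ContinuousLinearMap.mul ℝ ℝ) ig
  have h2 := integral_convolution (L := ContinuousLinearMap.mul ℝ ℝ) iF ig
  have h3 : (convolution F g (ContinuousLinearMap.mul ℝ ℝ) volume) =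
      fun x => ∫ s in (x - e)..(x + e), F s := funext hconv
  rw [h3] at h1 h2
  refine ⟨h1, ?_⟩
  rw [h2]
  have h4 : ∫ x, g x = 2 * e := by
    rw [hg, integral_indicator measurableSet_Ico, setIntegral_const,
      Real.volume_real_Ico_of_le (by linarith), smul_eq_mul]
    ring
  rw [h4, AgmAux.norm_sq]
  simp only [ContinuousLinearMap.mul_apply']
  rw [hF]
  ring

/-- Inside `J` the convolution commutes with the derivative, and is close to the function. -/
theorem cv_ker_inside {L e : ℝ} (hL : 0 < L) (he : 0 < e) (v : V1 L) :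
    (∀ᵐ x ∂volume, x ∈ Ioo (-1 + e) (L + 1 - e) →
      cv (deriv (ker e)) (V1.u L v) x = cv (ker e) (V1.d L v) x) ∧
    ∫ x in Ioo (-1 + e) (L + 1 - e), (cv (ker e) (V1.u L v) x - V1.u L v x) ^ 2 ≤
      e ^ 2 * ‖V1.d L v‖ ^ 2 := by
  obtain ⟨h1, h2, h3, h4, h5, h6⟩ := ker_smooth he
  have hdc : Continuous (deriv (ker e)) := h1.continuous_deriv (by simp)
  have hds : HasCompactSupport (deriv (ker e)) := h2.deriv
  have hrep : ∀ k : ℝ → ℝ, ∀ x ∈ Ioo (-1 + e) (L + 1 - e),
      ∫ s in (x - e)..(x + e), k (x - s) * V1.u L v s =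
        ∫ s in (x - e)..(x + e), k (x - s) * v.val s := by
    intro k x hx
    refine intervalIntegral.integral_congr_ae ?_
    filter_upwards [v.val_ae] with s a1 hs
    rw [uIoc_of_le (by linarith)] at hs
    rw [a1 ⟨by linarith [hs.1, hx.1], by linarith [hs.2, hx.2]⟩]
  refine ⟨?_, ?_⟩
  · filter_upwards [cv_ae hdc hds (V1.u L v), cv_ae h1.continuous h2 (V1.d L v)]
      with x a1 a2 hx
    rw [a1, a2]
    unfold cvf
    rw [inf06b_loc he (inf06b_deriv_zero he), inf06b_loc he h3, hrep _ x hx, inf06b_parts he v x]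
  · obtain ⟨i1, t1⟩ := inf06b_ton (V1.d L v) he
    have key : ∀ᵐ x ∂(volume.restrict (Ioo (-1 + e) (L + 1 - e))),
        (cv (ker e) (V1.u L v) x - V1.u L v x) ^ 2 ≤
          e / 2 * ∫ s in (x - e)..(x + e), (V1.d L v s) ^ 2 := by
      rw [ae_restrict_iff' measurableSet_Ioo]
      filter_upwards [cv_ae h1.continuous h2 (V1.u L v), v.val_ae] with x a1 a2 hx
      rw [a1, a2 ⟨by linarith [hx.1], by linarith [hx.2]⟩]
      unfold cvf
      rw [inf06b_loc he h3, hrep _ x hx]
      have b1 := inf06b_close he v x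
      have b2 := inf06b_cs (V1.d L v) (a := x - e) (b := x + e) (by linarith)
      have b3 : 0 ≤ 1 / 2 * ∫ s in (x - e)..(x + e), |V1.d L v s| :=
        (abs_nonneg _).trans b1
      have b4 := sq_le_sq' (by linarith [(abs_le.1 b1).1]) (abs_le.1 b1).2
      refine b4.trans ?_
      rw [mul_pow]
      nlinarith [b2]
    have i2 : Integrable (fun x => (cv (ker e) (V1.u L v) x - V1.u L v x) ^ 2) volume := by
      refine (AgmAux.mul_int (cv (ker e) (V1.u L v) - V1.u L v)
        (cv (ker e) (V1.u L v) - V1.u L v)).congr ?_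
      filter_upwards [Lp.coeFn_sub (cv (ker e) (V1.u L v)) (V1.u L v)] with x hx
      rw [hx, Pi.sub_apply]
      ring
    calc ∫ x in Ioo (-1 + e) (L + 1 - e), (cv (ker e) (V1.u L v) x - V1.u L v x) ^ 2
        ≤ ∫ x in Ioo (-1 + e) (L + 1 - e), e / 2 * ∫ s in (x - e)..(x + e), (V1.d L v s) ^ 2 :=
          integral_mono_ae i2.integrableOn (i1.const_mul _).integrableOn key
      _ ≤ ∫ x, e / 2 * ∫ s in (x - e)..(x + e), (V1.d L v s) ^ 2 := by
          refine setIntegral_le_integral (i1.const_mul _) (Eventually.of_forall fun x => ?_)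
          exact mul_nonneg (by linarith) (intervalIntegral.integral_nonneg (by linarith)
            fun s _ => sq_nonneg _)
      _ = e ^ 2 * ‖V1.d L v‖ ^ 2 := by
          rw [integral_const_mul, t1]
          ring

end Pool.Agent.KG
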