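import Pool.Agent.Lib.KG.Inf07a
import Pool.Agent.Lib.KG.Inf06b
import Pool.Agent.Lib.MP_78c35a_an.Skew

/-!
# The weighted inequality (row Inf07)

`wineq_mo` with `k = ker e`, `e → 0`, then the sum over `j` (`path_comp`,
`p.sm = smn p.std`). `cv_ker_tendsto` and dominated convergence in time (`‖cv (ker e) y‖ ≤ ‖y‖`, `traj`
is bounded, `f` integrable). The term with `-3 μ`: `bb ≥ 0` and `bb = 1` on `J`, so the inner
product is at least the integral of `(cv (deriv (ker e)) ..)²` over `(-1 + e, L + 1 - e)`, where for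
almost every time it is `cv (ker e) (dd j (v r))` (`cv_ker_inside`, `uu j (v r) = traj r j`),
which converges in `L²` (dominated by `‖v r‖²`).
-/

set_option autoImplicit false

namespace Pool.Agent.KG

open MeasureTheory Filter Topology Set
open Pool.Agent.Kdv
open scoped ENNReal ContDiff InnerProductSpace

variable {n : ℕ}

namespace Inf07Aux

/-- The indicator function of the interval `(-1 + e, L + 1 - e)`. -/
noncomputable def ind (L e x : ℝ) : ℝ := (Ioo (-1 + e) (L + 1 - e)).indicator 1 x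

theorem ind_of_mem {L e x : ℝ} (h : x ∈ Ioo (-1 + e) (L + 1 - e)) : ind L e x = 1 := by
  unfold ind
  rw [indicator_of_mem h]
  rfl

theorem ind_of_not {L e x : ℝ} (h : x ∉ Ioo (-1 + e) (L + 1 - e)) : ind L e x = 0 := by
  unfold ind
  rw [indicator_of_notMem h]

theorem ind_meas (L e : ℝ) : Measurable (ind L e) :=
  measurable_one.indicator measurableSet_Ioo

theorem ind_bdd (L e x : ℝ) : |ind L e x| ≤ 1 := by
  by_cases h : x ∈ Ioo (-1 + e) (L + 1 - e)
  · rw [ind_of_mem h, abs_one]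
  · rw [ind_of_not h, abs_zero]
    exact zero_le_one

theorem mulOp_norm {m : ℝ → ℝ} (hm : Measurable m) {C : ℝ} (hb : ∀ x, |m x| ≤ C) (f : L2) :
    ‖mulOp m f‖ ≤ C * ‖f‖ := by
  refine Lp.norm_le_mul_norm_of_ae_le_mul ?_
  filter_upwards [mulOp_ae hm ⟨C, hb⟩ f] with x hx
  rw [hx, norm_mul]
  exact mul_le_mul_of_nonneg_right (hb x) (norm_nonneg _)

theorem ind_norm (L e : ℝ) (f : L2) : ‖mulOp (ind L e) f‖ ≤ ‖f‖ := by
  have := mulOp_norm (ind_meas L e) (ind_bdd L e) f
  rwa [one_mul] at this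

theorem ind_tendsto {L : ℝ} (d : L2) (hd : ∀ᵐ x ∂volume, x ∉ J L → d x = 0) :
    Tendsto (fun e => mulOp (ind L e) d) (𝓝[>] 0) (𝓝 d) := by
  rw [tendsto_iff_norm_sub_tendsto_zero]
  have h1 : ∀ e, ‖mulOp (ind L e) d - d‖ ^ 2 = ∫ x, (ind L e x * d x - d x) ^ 2 := by
    intro e
    rw [AgmAux.norm_sq]
    refine integral_congr_ae ?_
    filter_upwards [mulOp_ae (ind_meas L e) ⟨1, ind_bdd L e⟩ d,
      Lp.coeFn_sub (mulOp (ind L e) d) d] with x h1 h2
    rw [h2, Pi.sub_apply, h1]
  have h2 : Tendsto (fun e => ∫ x, (ind L e x * d x - d x) ^ 2) (𝓝[>] 0)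
      (𝓝 (∫ _x : ℝ, (0 : ℝ))) := by
    refine tendsto_integral_filter_of_dominated_convergence (fun x => d x * d x) ?_ ?_
      (AgmAux.mul_int d d) ?_
    · refine Eventually.of_forall fun e => ?_
      exact (((ind_meas L e).aestronglyMeasurable.mul (Lp.memLp d).1).sub (Lp.memLp d).1).pow 2
    · refine Eventually.of_forall fun e => Eventually.of_forall fun x => ?_
      rw [Real.norm_eq_abs, abs_of_nonneg (sq_nonneg _)]
      by_cases h : x ∈ Ioo (-1 + e) (L + 1 - e)
      · rw [ind_of_mem h, one_mul, sub_self]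
        nlinarith [mul_self_nonneg (d x)]
      · rw [ind_of_not h, zero_mul, zero_sub]
        nlinarith
    · filter_upwards [hd] with x hx
      by_cases h : x ∈ J L
      · refine tendsto_const_nhds.congr' ?_
        have h3 : ∀ᶠ e in 𝓝[>] (0 : ℝ), e < min (x + 1) (L + 1 - x) := by
          refine mem_nhdsWithin_of_mem_nhds (Iio_mem_nhds ?_)
          exact lt_min (by linarith [h.1]) (by linarith [h.2])
        filter_upwards [h3] with e he
        have h4 := lt_min_iff.1 he
        rw [ind_of_mem ⟨by linarith [h4.1], by linarith [h4.2]⟩, one_mul, sub_self]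
        norm_num
      · simp only [hx h]
        simp
  rw [integral_zero] at h2
  have h3 := (h2.congr fun e => (h1 e).symm).sqrt
  rw [Real.sqrt_zero] at h3
  refine h3.congr fun e => ?_
  rw [Real.sqrt_sq (norm_nonneg _)]

theorem main_tendsto {L : ℝ} (d : L2) (hd : ∀ᵐ x ∂volume, x ∉ J L → d x = 0) :
    Tendsto (fun e => ‖mulOp (ind L e) (cv (ker e) d)‖ ^ 2) (𝓝[>] 0) (𝓝 (‖d‖ ^ 2)) := by
  have h1 : Tendsto (fun e => mulOp (ind L e) (cv (ker e) d - d)) (𝓝[>] 0) (𝓝 0) := by
    refine squeeze_zero_norm (fun e => ind_norm L e _) ?_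
    have h := tendsto_iff_norm_sub_tendsto_zero.1 (cv_ker_tendsto d)
    exact h
  have h2 := h1.add (ind_tendsto d hd)
  rw [zero_add] at h2
  have h3 : Tendsto (fun e => mulOp (ind L e) (cv (ker e) d)) (𝓝[>] 0) (𝓝 d) := by
    refine h2.congr fun e => ?_
    rw [← map_add, sub_add_cancel]
  exact h3.norm.pow 2

theorem lower {L e : ℝ} (hL : 0 < L) (he : 0 < e) (v : V1 L) :
    ‖mulOp (ind L e) (cv (ker e) (V1.d L v))‖ ^ 2 ≤
      inner ℝ (mulOp (bb L) (cv (deriv (ker e)) (V1.u L v))) (cv (deriv (ker e)) (V1.u L v)) := by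
  have hbm : Measurable (bb L) := (wt_smooth L 0).2.continuous.measurable
  obtain ⟨_, hb0, hb1, hb2, _⟩ := bb_facts L
  have hbb : ∀ x, |bb L x| ≤ 1 := fun x => by rw [abs_of_nonneg (hb0 x)]; exact hb1 x
  rw [AgmAux.norm_sq, Skw.inner_eq]
  refine integral_mono_ae ?_ (AgmAux.mul_int _ _) ?_
  · have := AgmAux.mul_int (mulOp (ind L e) (cv (ker e) (V1.d L v)))
      (mulOp (ind L e) (cv (ker e) (V1.d L v)))
    simpa only [← pow_two] using this
  · filter_upwards [mulOp_ae (ind_meas L e) ⟨1, ind_bdd L e⟩ (cv (ker e) (V1.d L v)),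
      mulOp_ae hbm ⟨1, hbb⟩ (cv (deriv (ker e)) (V1.u L v)),
      (cv_ker_inside hL he v).1] with x h1 h2 h3
    show (mulOp (ind L e) (cv (ker e) (V1.d L v))) x ^ 2 ≤
      mulOp (bb L) (cv (deriv (ker e)) (V1.u L v)) x * (cv (deriv (ker e)) (V1.u L v)) x
    rw [h1, h2]
    by_cases h : x ∈ Ioo (-1 + e) (L + 1 - e)
    · rw [ind_of_mem h, h3 h, hb2 x ⟨by linarith [h.1], by linarith [h.2]⟩]
      exact le_of_eq (by ring)
    · rw [ind_of_not h, mul_assoc, zero_mul]
      have := mul_nonneg (hb0 x) (mul_self_nonneg ((cv (deriv (ker e)) (V1.u L v)) x))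
      simpa using this

end Inf07Aux

open Inf07Aux

/-- The inequality for one component. -/
private theorem Inf07_comp (p : Pr n) {y : HH n} {T : ℝ} {f : ℝ → HH n} {v : ℝ → VV n p.L}
    (h : p.sm.Path y T f v) (c : ℝ) (j : Fin n) {s t : ℝ} (hs : 0 ≤ s) (hst : s ≤ t)
    (ht : t ≤ T) :
    IntervalIntegrable (fun r => -(3 * p.mu j * ‖dd j (v r)‖ ^ 2) +
      p.mu j * inner ℝ (mulOp (iteratedDeriv 2 (bb p.L)) (p.sm.traj y f r j))
        (p.sm.traj y f r j) +
      2 * inner ℝ (mulOp (wt p.L c) (p.sm.traj y f r j)) (f r j)) volume s t ∧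
    inner ℝ (mulOp (wt p.L c) (p.sm.traj y f t j)) (p.sm.traj y f t j) -
      inner ℝ (mulOp (wt p.L c) (p.sm.traj y f s j)) (p.sm.traj y f s j) ≤
    ∫ r in s..t, (-(3 * p.mu j * ‖dd j (v r)‖ ^ 2) +
      p.mu j * inner ℝ (mulOp (iteratedDeriv 2 (bb p.L)) (p.sm.traj y f r j))
        (p.sm.traj y f r j) +
      2 * inner ℝ (mulOp (wt p.L c) (p.sm.traj y f r j)) (f r j)) := by
  have hT : 0 ≤ T := hs.trans (hst.trans ht)
  set Y : ℝ → L2 := fun r => p.sm.traj y f r j with hY
  set F : ℝ → L2 := fun r => f r j with hF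
  set A : L2 →L[ℝ] L2 := mulOp (wt p.L c) with hA
  set B : L2 →L[ℝ] L2 := mulOp (iteratedDeriv 2 (bb p.L)) with hB
  have hμ := p.hmu j
  have hsub : Ioc s t ⊆ Ioc 0 T := Ioc_subset_Ioc hs ht
  have hres : (volume : Measure ℝ).restrict (Ioc s t) ≤ volume.restrict (Ioc 0 T) :=
    Measure.restrict_mono hsub le_rfl
  -- the trajectory
  have hYc : ContinuousOn Y (Icc 0 T) :=
    (prH j).continuous.comp_continuousOn (p.sm.traj_cont y hT h.int)
  have hYm : AEStronglyMeasurable Y (volume.restrict (Ioc s t)) :=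
    (hYc.mono (hsub.trans Ioc_subset_Icc_self)).aestronglyMeasurable measurableSet_Ioc
  obtain ⟨M, hM⟩ := isCompact_Icc.exists_bound_of_continuousOn hYc
  have hM0 : 0 ≤ M := (norm_nonneg _).trans (hM 0 ⟨le_rfl, hT⟩)
  have hFi : IntegrableOn F (Ioc s t) :=
    IntegrableOn.mono_set (ContinuousLinearMap.integrable_comp
      (μ := volume.restrict (Ioc 0 T)) (prH j) h.int) hsub
  -- the path
  have hvm : AEStronglyMeasurable v (volume.restrict (Ioc s t)) := h.meas.mono_measure hres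
  have hdm : AEStronglyMeasurable (fun r => dd j (v r)) (volume.restrict (Ioc s t)) :=
    (dd j).continuous.comp_aestronglyMeasurable hvm
  have hvi : IntegrableOn (fun r => ‖v r‖ ^ 2) (Ioc s t) := by
    refine ⟨(hvm.norm.pow 2), ?_⟩
    rw [hasFiniteIntegral_iff_enorm]
    refine lt_of_le_of_lt ?_ h.fin
    refine (lintegral_mono' hres le_rfl).trans (le_of_eq ?_)
    refine lintegral_congr fun r => ?_
    rw [enorm_pow, enorm_norm]
  have hdi : IntegrableOn (fun r => ‖dd j (v r)‖ ^ 2) (Ioc s t) := by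
    refine Integrable.mono hvi (hdm.norm.pow 2) (Eventually.of_forall fun r => ?_)
    rw [Real.norm_eq_abs, Real.norm_eq_abs, abs_of_nonneg (sq_nonneg _),
      abs_of_nonneg (sq_nonneg _)]
    have h1 : ‖dd j (v r)‖ ≤ ‖v r‖ := (V1.norm_d_le (v r j)).trans (norm_le_pi_norm (v r) j)
    gcongr
  -- integrability
  have hquad : ∀ A1 B1 : L2 →L[ℝ] L2,
      IntegrableOn (fun r => inner ℝ (A1 (Y r)) (B1 (Y r))) (Ioc s t) := by
    intro A1 B1
    refine Integrable.mono' (integrable_const (‖A1‖ * M * (‖B1‖ * M)))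
      ((A1.continuous.comp_aestronglyMeasurable hYm).inner
        (B1.continuous.comp_aestronglyMeasurable hYm)) ?_
    filter_upwards [ae_restrict_mem measurableSet_Ioc] with r hr
    have h1 := hM r ⟨(hsub hr).1.le, (hsub hr).2⟩
    refine (abs_real_inner_le_norm _ _).trans ?_
    exact mul_le_mul ((A1.le_opNorm _).trans (by gcongr)) ((B1.le_opNorm _).trans (by gcongr))
      (norm_nonneg _) (by positivity)
  have hlin : ∀ A1 B1 : L2 →L[ℝ] L2,
      IntegrableOn (fun r => inner ℝ (A1 (Y r)) (B1 (F r))) (Ioc s t) := by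
    intro A1 B1
    refine Integrable.mono' (hFi.norm.const_mul (‖A1‖ * M * ‖B1‖))
      ((A1.continuous.comp_aestronglyMeasurable hYm).inner
        (B1.continuous.comp_aestronglyMeasurable hFi.aestronglyMeasurable)) ?_
    filter_upwards [ae_restrict_mem measurableSet_Ioc] with r hr
    have h1 := hM r ⟨(hsub hr).1.le, (hsub hr).2⟩
    refine (abs_real_inner_le_norm _ _).trans ?_
    rw [mul_assoc (‖A1‖ * M)]
    exact mul_le_mul ((A1.le_opNorm _).trans (by gcongr)) (B1.le_opNorm _)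
      (norm_nonneg _) (by positivity)
  have hii : ∀ {g : ℝ → ℝ}, IntegrableOn g (Ioc s t) → IntervalIntegrable g volume s t :=
    fun {g} hg => (intervalIntegrable_iff_integrableOn_Ioc_of_le hst).2 hg
  refine ⟨hii (((hdi.const_mul (3 * p.mu j)).neg.add
    ((hquad B (ContinuousLinearMap.id ℝ L2)).const_mul (p.mu j))).add
    ((hlin A (ContinuousLinearMap.id ℝ L2)).const_mul 2)), ?_⟩
  -- the mollified inequality
  have hkey : ∀ e : ℝ, 0 < e →
      inner ℝ (A (cv (ker e) (Y t))) (cv (ker e) (Y t)) -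
        inner ℝ (A (cv (ker e) (Y s))) (cv (ker e) (Y s)) ≤
      ∫ r in s..t, (-(3 * p.mu j * ‖mulOp (ind p.L e) (cv (ker e) (dd j (v r)))‖ ^ 2) +
        p.mu j * inner ℝ (B (cv (ker e) (Y r))) (cv (ker e) (Y r)) +
        2 * inner ℝ (A (cv (ker e) (Y r))) (cv (ker e) (F r))) := by
    intro e he
    obtain ⟨hk, hkc, _⟩ := ker_smooth he
    rw [hA, hB]
    refine (wineq_mo p h.int hk hkc c j hs hst ht).le.trans ?_
    rw [intervalIntegral.integral_of_le hst, intervalIntegral.integral_of_le hst]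
    refine integral_mono_ae ?_ ?_ ?_
    · have h1 := (hquad ((mulOp (bb p.L)).comp (cv (deriv (ker e)))) (cv (deriv (ker e)))).const_mul
        (3 * p.mu j)
      have h2 := (hquad ((mulOp (iteratedDeriv 2 (bb p.L))).comp (cv (ker e)))
        (cv (ker e))).const_mul (p.mu j)
      have h3 := (hlin ((mulOp (wt p.L c)).comp (cv (ker e))) (cv (ker e))).const_mul 2
      exact (h1.neg.add h2).add h3
    · have h1 : IntegrableOn
          (fun r => ‖mulOp (ind p.L e) (cv (ker e) (dd j (v r)))‖ ^ 2) (Ioc s t) := by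
        refine Integrable.mono hdi ((((mulOp (ind p.L e)).comp
          (cv (ker e))).continuous.comp_aestronglyMeasurable hdm).norm.pow 2)
          (Eventually.of_forall fun r => ?_)
        rw [Real.norm_eq_abs, Real.norm_eq_abs, abs_of_nonneg (sq_nonneg _),
          abs_of_nonneg (sq_nonneg _)]
        have h1 := (ind_norm p.L e (cv (ker e) (dd j (v r)))).trans (cv_ker_norm he _)
        gcongr
      have h2 := (hquad ((mulOp (iteratedDeriv 2 (bb p.L))).comp (cv (ker e)))
        (cv (ker e))).const_mul (p.mu j)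
      have h3 := (hlin ((mulOp (wt p.L c)).comp (cv (ker e))) (cv (ker e))).const_mul 2
      exact ((h1.const_mul (3 * p.mu j)).neg.add h2).add h3
    · filter_upwards [ae_mono hres h.lift] with r hr
      have h1 : V1.u p.L (v r j) = Y r := by
        show V1.u p.L (v r j) = p.sm.traj y f r j
        rw [← hr]
        rfl
      have h2 := lower p.hL he (v r j)
      rw [h1] at h2
      have h3 : 3 * p.mu j * ‖mulOp (ind p.L e) (cv (ker e) (V1.d p.L (v r j)))‖ ^ 2 ≤
          3 * p.mu j * inner ℝ (mulOp (bb p.L) (cv (deriv (ker e)) (Y r)))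
            (cv (deriv (ker e)) (Y r)) := mul_le_mul_of_nonneg_left h2 (by positivity)
      exact add_le_add (add_le_add (neg_le_neg h3) le_rfl) le_rfl
  -- the limit
  have hev : ∀ᶠ e : ℝ in 𝓝[>] 0, 0 < e := eventually_mem_nhdsWithin
  have hlim : ∀ z, Tendsto (fun e => inner ℝ (A (cv (ker e) z)) (cv (ker e) z)) (𝓝[>] 0)
      (𝓝 (inner ℝ (A z) z)) := fun z =>
    ((A.continuous.tendsto _).comp (cv_ker_tendsto z)).inner (cv_ker_tendsto z)
  refine le_of_tendsto_of_tendsto ((hlim (Y t)).sub (hlim (Y s))) ?_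
    (hev.mono fun e he => hkey e he)
  refine intervalIntegral.tendsto_integral_filter_of_dominated_convergence
    (fun r => 3 * p.mu j * ‖dd j (v r)‖ ^ 2 + p.mu j * (‖B‖ * M * M) +
      2 * (‖A‖ * M * ‖F r‖)) ?_ ?_ ?_ ?_
  · filter_upwards [hev] with e he
    rw [uIoc_of_le hst]
    have h1 : AEStronglyMeasurable (fun r => ‖mulOp (ind p.L e) (cv (ker e) (dd j (v r)))‖ ^ 2)
        (volume.restrict (Ioc s t)) := (((mulOp (ind p.L e)).comp
          (cv (ker e))).continuous.comp_aestronglyMeasurable hdm).norm.pow 2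
    have h2 := ((hquad (B.comp (cv (ker e))) (cv (ker e))).const_mul
      (p.mu j)).aestronglyMeasurable
    have h3 := ((hlin (A.comp (cv (ker e))) (cv (ker e))).const_mul 2).aestronglyMeasurable
    exact ((h1.const_mul (3 * p.mu j)).neg.add h2).add h3
  · filter_upwards [hev] with e he
    refine Eventually.of_forall fun r hr => ?_
    rw [uIoc_of_le hst] at hr
    have hYr := hM r ⟨(hsub hr).1.le, (hsub hr).2⟩
    have h1 := (ind_norm p.L e (cv (ker e) (dd j (v r)))).trans (cv_ker_norm he _)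
    have h2 : |inner ℝ (B (cv (ker e) (Y r))) (cv (ker e) (Y r))| ≤ ‖B‖ * M * M := by
      refine (abs_real_inner_le_norm _ _).trans ?_
      have h3 := (cv_ker_norm he (Y r)).trans hYr
      exact mul_le_mul ((B.le_opNorm _).trans (by gcongr)) h3 (norm_nonneg _) (by positivity)
    have h4 : |inner ℝ (A (cv (ker e) (Y r))) (cv (ker e) (F r))| ≤ ‖A‖ * M * ‖F r‖ := by
      refine (abs_real_inner_le_norm _ _).trans ?_
      have h3 := (cv_ker_norm he (Y r)).trans hYr
      exact mul_le_mul ((A.le_opNorm _).trans (by gcongr)) (cv_ker_norm he _) (norm_nonneg _)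
        (by positivity)
    have h5 : ‖mulOp (ind p.L e) (cv (ker e) (dd j (v r)))‖ ^ 2 ≤ ‖dd j (v r)‖ ^ 2 := by
      gcongr
    rw [Real.norm_eq_abs]
    refine (abs_add_le _ _).trans (add_le_add ((abs_add_le _ _).trans (add_le_add ?_ ?_)) ?_)
    · rw [abs_neg, abs_of_nonneg (by positivity)]
      exact mul_le_mul_of_nonneg_left h5 (by positivity)
    · rw [abs_mul, abs_of_pos hμ]
      exact mul_le_mul_of_nonneg_left h2 hμ.le
    · rw [abs_mul, abs_of_pos (by norm_num : (0 : ℝ) < 2)]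
      exact mul_le_mul_of_nonneg_left h4 (by norm_num)
  · exact hii (((hdi.const_mul (3 * p.mu j)).add (integrable_const _)).add
      ((hFi.norm.const_mul (‖A‖ * M)).const_mul 2))
  · refine Eventually.of_forall fun r _ => ?_
    have h1 := main_tendsto (dd j (v r)) (V1.d_outside (v r j))
    have h2 : Tendsto (fun e => inner ℝ (B (cv (ker e) (Y r))) (cv (ker e) (Y r))) (𝓝[>] 0)
        (𝓝 (inner ℝ (B (Y r)) (Y r))) :=
      ((B.continuous.tendsto _).comp (cv_ker_tendsto _)).inner (cv_ker_tendsto _)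
    have h3 : Tendsto (fun e => inner ℝ (A (cv (ker e) (Y r))) (cv (ker e) (F r))) (𝓝[>] 0)
        (𝓝 (inner ℝ (A (Y r)) (F r))) :=
      ((A.continuous.tendsto _).comp (cv_ker_tendsto _)).inner (cv_ker_tendsto _)
    exact ((h1.const_mul (3 * p.mu j)).neg.add (h2.const_mul (p.mu j))).add (h3.const_mul 2)

/-- INF7. -/
theorem wineq (p : Pr n) {y : HH n} {T : ℝ} {f : ℝ → HH n} {v : ℝ → VV n p.L}
    (h : p.sm.Path y T f v) (c : ℝ) {s t : ℝ} (hs : 0 ≤ s) (hst : s ≤ t) (ht : t ≤ T) :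
    inner ℝ (mulH (wt p.L c) (p.sm.traj y f t)) (p.sm.traj y f t) -
      inner ℝ (mulH (wt p.L c) (p.sm.traj y f s)) (p.sm.traj y f s) ≤
    ∫ r in s..t, (-3 * ∑ j, p.mu j * ‖dd j (v r)‖ ^ 2 +
      ∑ j, p.mu j * inner ℝ (mulOp (iteratedDeriv 2 (bb p.L)) (p.sm.traj y f r j))
        (p.sm.traj y f r j) +
      2 * inner ℝ (f r) (mulH (wt p.L c) (p.sm.traj y f r))) := by
  have h1 : ∀ r, inner ℝ (mulH (wt p.L c) (p.sm.traj y f r)) (p.sm.traj y f r) =
      ∑ j, inner ℝ (mulOp (wt p.L c) (p.sm.traj y f r j)) (p.sm.traj y f r j) := fun r => by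
    rw [PiLp.inner_apply]
    rfl
  rw [h1, h1, ← Finset.sum_sub_distrib]
  refine (Finset.sum_le_sum fun j _ => (Inf07_comp p h c j hs hst ht).2).trans (le_of_eq ?_)
  rw [← intervalIntegral.integral_finsetSum fun j _ => (Inf07_comp p h c j hs hst ht).1]
  refine intervalIntegral.integral_congr fun r _ => ?_
  show ∑ j, (-(3 * p.mu j * ‖dd j (v r)‖ ^ 2) +
      p.mu j * inner ℝ (mulOp (iteratedDeriv 2 (bb p.L)) (p.sm.traj y f r j))
        (p.sm.traj y f r j) +
      2 * inner ℝ (mulOp (wt p.L c) (p.sm.traj y f r j)) (f r j)) = _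
  have h2 : inner ℝ (f r) (mulH (wt p.L c) (p.sm.traj y f r)) =
      ∑ j, inner ℝ (mulOp (wt p.L c) (p.sm.traj y f r j)) (f r j) := by
    rw [real_inner_comm, PiLp.inner_apply]
    rfl
  rw [h2, Finset.sum_add_distrib, Finset.sum_add_distrib, Finset.mul_sum, Finset.mul_sum]
  congr 2
  refine Finset.sum_congr rfl fun j _ => ?_
  ring

end Pool.Agent.KG
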