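import Pool.Agent.Lib.KG.Inf05
import Pool.Agent.Lib.KG.Inf06

/-!
# The weighted identity for the mollified trajectory (row Inf07a)

`B = mulOp ρ` is symmetric, `ζ t = cv k (traj t j)`; `lin` and `prod_rule` (for `B ζ` and `ζ`, on
`[s, t]` as a difference of `[0, t]` and `[0, s]`) give `<B ζ, ζ>` at `t` minus at `s` as
`∫ 2 <B ζ, -μ ζ3 + cv k f>`, `ζ3 = cv (iteratedDeriv 3 k) traj`. The functions
`cvf (iteratedDeriv i k) y` are derivatives of each other (`cvf_deriv`) and square integrable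
(`cv_ae`), so the integral of the derivative of
`ρ (2 u0 u2 - u1²) - 2 ρ' u0 u1 + ρ'' u0²` vanishes:
`2 ∫ ρ ζ ζ3 = 3 ∫ ρ' ζ1² - ∫ ρ''' ζ²`. Here `ρ = wt L c`, `ρ' = bb L` (`wt_smooth` below).
-/

set_option autoImplicit false

namespace Pool.Agent.KG

open MeasureTheory Filter Topology Set
open Pool.Agent.Kdv
open scoped ENNReal ContDiff InnerProductSpace

variable {n : ℕ}

namespace Inf07aAux

theorem bb_smooth (L : ℝ) : ContDiff ℝ ∞ (bb L) := by
  unfold bb st
  exact (Real.smoothTransition.contDiff.comp (contDiff_id.add contDiff_const)).mul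
    (Real.smoothTransition.contDiff.comp (contDiff_const.sub contDiff_id))

theorem inner_eq (f g : L2) : inner ℝ f g = ∫ x, f x * g x := by
  rw [L2.inner_def]
  refine integral_congr_ae (Eventually.of_forall fun x => ?_)
  change inner ℝ (f x) (g x) = f x * g x
  simp [mul_comm]

theorem inner_mul {m : ℝ → ℝ} (hm : Continuous m) (hb : ∃ C, ∀ x, |m x| ≤ C) (f g : L2) :
    inner ℝ (mulOp m f) g = ∫ x, m x * (f x * g x) := by
  rw [inner_eq]
  refine integral_congr_ae ?_
  filter_upwards [mulOp_ae hm.measurable hb f] with x hx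
  rw [hx]
  ring

theorem mul_sym {m : ℝ → ℝ} (hm : Continuous m) (hb : ∃ C, ∀ x, |m x| ≤ C) (f g : L2) :
    inner ℝ (mulOp m f) g = inner ℝ f (mulOp m g) := by
  rw [inner_mul hm hb, real_inner_comm, inner_mul hm hb]
  refine integral_congr_ae (Eventually.of_forall fun x => ?_)
  ring

end Inf07aAux

open Inf07aAux

/-- The weight: smooth, bounded, with derivative `bb`. -/
theorem wt_deriv (L c x : ℝ) : HasDerivAt (wt L c) (bb L x) x :=
  (((bb_smooth L).continuous.integral_hasStrictDerivAt 0 x).hasDerivAt).const_add c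

theorem wt_smooth (L c : ℝ) : ContDiff ℝ ∞ (wt L c) ∧ ContDiff ℝ ∞ (bb L) := by
  refine ⟨?_, bb_smooth L⟩
  rw [contDiff_infty_iff_deriv]
  refine ⟨fun x => (wt_deriv L c x).differentiableAt, ?_⟩
  have : deriv (wt L c) = bb L := funext fun x => (wt_deriv L c x).deriv
  rw [this]
  exact bb_smooth L

theorem bb_facts (L : ℝ) : HasCompactSupport (bb L) ∧ (∀ x, 0 ≤ bb L x) ∧ (∀ x, bb L x ≤ 1) ∧
    (∀ x ∈ Icc (-3) (L + 3), bb L x = 1) ∧ (∀ x, x ≤ -4 ∨ L + 4 ≤ x → bb L x = 0) := by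
  have h0 : ∀ x, x ≤ -4 ∨ L + 4 ≤ x → bb L x = 0 := by
    rintro x (hx | hx)
    · unfold bb st
      rw [Real.smoothTransition.zero_of_nonpos (by linarith), zero_mul]
    · unfold bb st
      rw [Real.smoothTransition.zero_of_nonpos (x := L + 4 - x) (by linarith), mul_zero]
  refine ⟨?_, fun x => ?_, fun x => ?_, fun x hx => ?_, h0⟩
  · refine HasCompactSupport.intro (isCompact_Icc (a := (-4 : ℝ)) (b := L + 4)) fun x hx => h0 x ?_
    rw [mem_Icc, not_and_or, not_le, not_le] at hx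
    exact hx.imp le_of_lt le_of_lt
  · exact mul_nonneg (Real.smoothTransition.nonneg _) (Real.smoothTransition.nonneg _)
  · exact mul_le_one₀ (Real.smoothTransition.le_one _) (Real.smoothTransition.nonneg _)
      (Real.smoothTransition.le_one _)
  · unfold bb st
    rw [Real.smoothTransition.one_of_one_le (by linarith [hx.1]),
      Real.smoothTransition.one_of_one_le (by linarith [hx.2]), mul_one]

theorem wt_bdd (L c : ℝ) : ∃ C : ℝ, ∀ x, |wt L c x| ≤ C := by
  obtain ⟨hc, -, -, -, -⟩ := bb_facts L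
  have hi : Integrable (bb L) volume := (bb_smooth L).continuous.integrable_of_hasCompactSupport hc
  refine ⟨|c| + ∫ s, ‖bb L s‖, fun x => ?_⟩
  unfold wt
  refine (abs_add_le _ _).trans ?_
  gcongr
  rw [← Real.norm_eq_abs]
  refine (intervalIntegral.norm_integral_le_integral_norm_uIoc).trans ?_
  exact setIntegral_le_integral hi.norm (Eventually.of_forall fun _ => norm_nonneg _)

/-- Three derivatives. -/
theorem parts_three {L c : ℝ} {k : ℝ → ℝ} (hk : ContDiff ℝ ∞ k) (hc : HasCompactSupport k)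
    (y : L2) :
    2 * inner ℝ (mulOp (wt L c) (cv k y)) (cv (iteratedDeriv 3 k) y) =
      3 * inner ℝ (mulOp (bb L) (cv (deriv k) y)) (cv (deriv k) y) -
        inner ℝ (mulOp (iteratedDeriv 2 (bb L)) (cv k y)) (cv k y) := by
  obtain ⟨hbc, -, -, -, -⟩ := bb_facts L
  have hki : ∀ i, ContDiff ℝ ∞ (iteratedDeriv i k) := contDiff_iter hk
  have hci : ∀ i, HasCompactSupport (iteratedDeriv i k) := hasCompactSupport_iter hc
  set u : ℕ → ℝ → ℝ := fun i => cvf (iteratedDeriv i k) y with hu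
  have hd : ∀ i x, HasDerivAt (u i) (u (i + 1) x) x := fun i x => by
    have h := cvf_deriv (hki i) (hci i) y x
    rwa [← iteratedDeriv_succ] at h
  have hcu : ∀ i, Continuous (u i) := fun i =>
    continuous_iff_continuousAt.2 fun x => (hd i x).continuousAt
  have hae : ∀ i, ∀ᵐ x ∂volume, cv (iteratedDeriv i k) y x = u i x :=
    fun i => cv_ae (hki i).continuous (hci i) y
  have hLp : ∀ i, MemLp (u i) 2 volume := fun i => (Lp.memLp (cv (iteratedDeriv i k) y)).ae_eq (hae i)
  have hint : ∀ (i j : ℕ) (m : ℝ → ℝ), Continuous m → (∃ C, ∀ x, |m x| ≤ C) →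
      Integrable (fun x => m x * (u i x * u j x)) volume := by
    rintro i j m hm ⟨C, hC⟩
    exact ((hLp i).integrable_mul (hLp j)).bdd_mul (c := C) hm.aestronglyMeasurable
      (Eventually.of_forall hC)
  -- the weights
  have hw0 := (wt_smooth L c).1.continuous
  have hbs := bb_smooth L
  have hb1 : ContDiff ℝ ∞ (iteratedDeriv 1 (bb L)) := contDiff_iter hbs 1
  have hb2 : ContDiff ℝ ∞ (iteratedDeriv 2 (bb L)) := contDiff_iter hbs 2
  have bdd : ∀ {m : ℝ → ℝ}, Continuous m → HasCompactSupport m → ∃ C, ∀ x, |m x| ≤ C := by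
    intro m hm hmc
    obtain ⟨C, hC⟩ := hmc.exists_bound_of_continuous hm
    exact ⟨C, hC⟩
  have d0 : ∀ x, HasDerivAt (wt L c) (bb L x) x := wt_deriv L c
  have d1 : ∀ x, HasDerivAt (bb L) (iteratedDeriv 1 (bb L) x) x := by
    intro x
    rw [iteratedDeriv_one]
    exact (hbs.differentiable (by simp) x).hasDerivAt
  have d2 : ∀ x, HasDerivAt (iteratedDeriv 1 (bb L)) (iteratedDeriv 2 (bb L) x) x := by
    intro x
    have e : iteratedDeriv 2 (bb L) = deriv (iteratedDeriv 1 (bb L)) := iteratedDeriv_succ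
    rw [e]
    exact (hb1.differentiable (by simp) x).hasDerivAt
  have B0 := wt_bdd L c
  have B1 := bdd hbs.continuous hbc
  have B2 := bdd hb1.continuous (hasCompactSupport_iter hbc 1)
  have B3 := bdd hb2.continuous (hasCompactSupport_iter hbc 2)
  set r0 := wt L c
  set r1 := bb L
  set r2 := iteratedDeriv 1 (bb L)
  set r3 := iteratedDeriv 2 (bb L)
  have hF : ∀ x, HasDerivAt (fun x => r0 x * (2 * (u 0 x * u 2 x) - u 1 x * u 1 x) -
      2 * (r1 x * (u 0 x * u 1 x)) + r2 x * (u 0 x * u 0 x))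
      (2 * (r0 x * (u 0 x * u 3 x)) - 3 * (r1 x * (u 1 x * u 1 x)) + r3 x * (u 0 x * u 0 x)) x := by
    intro x
    have a0 := hd 0 x
    have a1 := hd 1 x
    have a2 := hd 2 x
    have h := ((d0 x).mul (((a0.mul a2).const_mul 2).sub (a1.mul a1))).sub
      (((d1 x).mul (a0.mul a1)).const_mul 2) |>.add ((d2 x).mul (a0.mul a0))
    refine HasDerivAt.congr_deriv h ?_
    simp only [Nat.reduceAdd, Pi.mul_apply, Pi.sub_apply]
    ring
  have i1 : Integrable (fun x => r0 x * (2 * (u 0 x * u 2 x) - u 1 x * u 1 x) -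
      2 * (r1 x * (u 0 x * u 1 x)) + r2 x * (u 0 x * u 0 x)) volume := by
    have e : (fun x => r0 x * (2 * (u 0 x * u 2 x) - u 1 x * u 1 x) -
      2 * (r1 x * (u 0 x * u 1 x)) + r2 x * (u 0 x * u 0 x)) = fun x =>
        2 * (r0 x * (u 0 x * u 2 x)) - r0 x * (u 1 x * u 1 x) - 2 * (r1 x * (u 0 x * u 1 x)) +
          r2 x * (u 0 x * u 0 x) := by
      funext x
      ring
    rw [e]
    exact ((((hint 0 2 r0 hw0 B0).const_mul 2).sub (hint 1 1 r0 hw0 B0)).sub
      ((hint 0 1 r1 hbs.continuous B1).const_mul 2)).add (hint 0 0 r2 hb1.continuous B2)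
  have j1 := (hint 0 3 r0 hw0 B0).const_mul 2
  have j2 := (hint 1 1 r1 hbs.continuous B1).const_mul 3
  have j3 := hint 0 0 r3 hb2.continuous B3
  have key := integral_eq_zero_of_hasDerivAt_of_integrable hF ((j1.sub j2).add j3) i1
  have key2 : ∫ x, (2 * (r0 x * (u 0 x * u 3 x)) - 3 * (r1 x * (u 1 x * u 1 x)) +
      r3 x * (u 0 x * u 0 x)) = 2 * (∫ x, r0 x * (u 0 x * u 3 x)) -
        3 * (∫ x, r1 x * (u 1 x * u 1 x)) + ∫ x, r3 x * (u 0 x * u 0 x) := by
    have s1 : Integrable (fun x => 2 * (r0 x * (u 0 x * u 3 x)) - 3 * (r1 x * (u 1 x * u 1 x)))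
      volume := j1.sub j2
    rw [integral_add s1 j3, integral_sub j1 j2, integral_const_mul, integral_const_mul]
  rw [key2] at key
  have e1 : inner ℝ (mulOp r0 (cv k y)) (cv (iteratedDeriv 3 k) y) =
      ∫ x, r0 x * (u 0 x * u 3 x) := by
    rw [inner_mul hw0 B0]
    refine integral_congr_ae ?_
    have h0 := hae 0
    rw [iteratedDeriv_zero] at h0
    filter_upwards [h0, hae 3] with x h1 h2
    rw [h1, h2]
  have e2 : inner ℝ (mulOp r1 (cv (deriv k) y)) (cv (deriv k) y) = ∫ x, r1 x * (u 1 x * u 1 x) := by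
    rw [inner_mul hbs.continuous B1]
    refine integral_congr_ae ?_
    have h0 := hae 1
    rw [iteratedDeriv_one] at h0
    filter_upwards [h0] with x h1
    rw [h1]
  have e3 : inner ℝ (mulOp r3 (cv k y)) (cv k y) = ∫ x, r3 x * (u 0 x * u 0 x) := by
    rw [inner_mul hb2.continuous B3]
    refine integral_congr_ae ?_
    have h0 := hae 0
    rw [iteratedDeriv_zero] at h0
    filter_upwards [h0] with x h1
    rw [h1]
  rw [e1, e2, e3]
  linarith

theorem wineq_mo (p : Pr n) {y : HH n} {T : ℝ} {f : ℝ → HH n} (hf : IntegrableOn f (Ioc 0 T))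
    {k : ℝ → ℝ} (hk : ContDiff ℝ ∞ k) (hc : HasCompactSupport k) (c : ℝ) (j : Fin n) {s t : ℝ}
    (hs : 0 ≤ s) (hst : s ≤ t) (ht : t ≤ T) :
    inner ℝ (mulOp (wt p.L c) (cv k (p.sm.traj y f t j))) (cv k (p.sm.traj y f t j)) -
      inner ℝ (mulOp (wt p.L c) (cv k (p.sm.traj y f s j))) (cv k (p.sm.traj y f s j)) =
    ∫ r in s..t, (-(3 * p.mu j * inner ℝ (mulOp (bb p.L) (cv (deriv k) (p.sm.traj y f r j)))
          (cv (deriv k) (p.sm.traj y f r j))) +
      p.mu j * inner ℝ (mulOp (iteratedDeriv 2 (bb p.L)) (cv k (p.sm.traj y f r j)))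
        (cv k (p.sm.traj y f r j)) +
      2 * inner ℝ (mulOp (wt p.L c) (cv k (p.sm.traj y f r j))) (cv k (f r j))) := by
  have hT : 0 ≤ T := hs.trans (hst.trans ht)
  have hw0 := (wt_smooth p.L c).1.continuous
  have B0 := wt_bdd p.L c
  set B : L2 →L[ℝ] L2 := mulOp (wt p.L c) with hB
  set h : ℝ → L2 := fun r => -p.mu j • cv (iteratedDeriv 3 k) (p.sm.traj y f r j) + cv k (f r j)
    with hh
  set a : L2 := cv k (y j) with ha
  have hcont : ContinuousOn (p.sm.traj y f) (Icc 0 T) := p.sm.traj_cont y hT hf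
  have hcj : ContinuousOn (fun r => p.sm.traj y f r j) (Icc 0 T) :=
    (prH (n := n) j).continuous.comp_continuousOn hcont
  have hfj : IntegrableOn (fun r => f r j) (Ioc 0 T) := (prH (n := n) j).integrable_comp hf
  have hhi : IntegrableOn h (Ioc 0 T) := by
    refine Integrable.add ?_ ((cv k).integrable_comp hfj)
    have h0 : ContinuousOn (fun r => cv (iteratedDeriv 3 k) (p.sm.traj y f r j)) (Icc 0 T) :=
      (cv (iteratedDeriv 3 k)).continuous.comp_continuousOn hcj
    have h1 : ContinuousOn (fun r => -p.mu j • cv (iteratedDeriv 3 k) (p.sm.traj y f r j))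
        (Icc 0 T) := h0.const_smul (-p.mu j)
    exact (h1.integrableOn_compact isCompact_Icc).mono_set Ioc_subset_Icc_self
  have hz : ∀ r ∈ Icc 0 T, cv k (p.sm.traj y f r j) = a + ∫ q in (0 : ℝ)..r, h q :=
    fun r hr => lin p hf hk hc j hr
  have hzc : ContinuousOn (fun r => cv k (p.sm.traj y f r j)) (Icc 0 T) :=
    (cv k).continuous.comp_continuousOn hcj
  -- the product rule on `[0, t]`
  have key : ∀ t' ∈ Icc 0 T, inner ℝ (B (cv k (p.sm.traj y f t' j))) (cv k (p.sm.traj y f t' j)) =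
      inner ℝ (B a) a + ∫ r in (0 : ℝ)..t', 2 * inner ℝ (B (cv k (p.sm.traj y f r j))) (h r) := by
    intro t' ht'
    have hh' : IntegrableOn h (Ioc 0 t') := hhi.mono_set (Ioc_subset_Ioc_right ht'.2)
    have hB' : ∀ r ∈ Icc 0 t', B (∫ q in (0 : ℝ)..r, h q) = ∫ q in (0 : ℝ)..r, B (h q) := by
      intro r hr
      exact (ContinuousLinearMap.intervalIntegral_comp_comm _
        (ii_of hh' le_rfl hr.1 hr.2)).symm
    have h1 := prod_rule (B a) a ht'.1 (B.integrable_comp hh') hh'
    rw [hz t' ht', map_add, hB' t' ⟨ht'.1, le_rfl⟩]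
    refine h1.trans ?_
    congr 1
    refine intervalIntegral.integral_congr fun r hr => ?_
    rw [uIcc_of_le ht'.1] at hr
    change inner ℝ (B (h r)) (a + ∫ q in (0 : ℝ)..r, h q) +
      inner ℝ (B a + ∫ q in (0 : ℝ)..r, B (h q)) (h r) =
      2 * inner ℝ (B (cv k (p.sm.traj y f r j))) (h r)
    rw [← hB' r hr, ← map_add, ← hz r ⟨hr.1, hr.2.trans ht'.2⟩, mul_sym hw0 B0,
      real_inner_comm]
    ring
  have hii : IntegrableOn (fun r => 2 * inner ℝ (B (cv k (p.sm.traj y f r j))) (h r))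
      (Ioc 0 T) := by
    have h1 := inner_int hT hhi (B.continuous.comp_continuousOn hzc)
    refine Integrable.const_mul ?_ 2
    refine h1.congr (Eventually.of_forall fun r => ?_)
    exact real_inner_comm _ _
  rw [key t ⟨hs.trans hst, ht⟩, key s ⟨hs, hst.trans ht⟩, add_sub_add_left_eq_sub,
    intervalIntegral.integral_interval_sub_left (ii_of hii le_rfl (hs.trans hst) ht)
      (ii_of hii le_rfl hs (hst.trans ht))]
  refine intervalIntegral.integral_congr fun r _ => ?_
  have h3 := parts_three (L := p.L) (c := c) hk hc (p.sm.traj y f r j)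
  change 2 * inner ℝ (B (cv k (p.sm.traj y f r j)))
    (-p.mu j • cv (iteratedDeriv 3 k) (p.sm.traj y f r j) + cv k (f r j)) = _
  rw [inner_add_right, inner_smul_right]
  rw [← hB] at h3
  linear_combination (-p.mu j) * h3

end Pool.Agent.KG
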