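import Pool.Agent.Lib.KG.Defs
import Pool.Agent.Lib.MP_78c35a_an.Skew

/-!
# The linear term against the weight (row Inf08)

As `Skew.lean` (`l_skew`, `pair2`, `alg2`), with the product `wt * z`: `wt L c` is smooth with
derivative `1` on `J` (`bb = 1` there), so `2 <l z, wt z> = ∫ chi wt' z.S z`. We apply `pair3` to
an element of `V1` with the function `bb * wt`.
-/

set_option autoImplicit false

namespace Pool.Agent.KG

open MeasureTheory Filter Topology Set
open Pool.Agent.Kdv
open scoped ENNReal ContDiff InnerProductSpace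

variable {n : ℕ}

namespace Inf08Aux

theorem st_cont : Continuous st := Real.smoothTransition.continuous

theorem bb_cont (L : ℝ) : Continuous (bb L) := by
  unfold bb
  exact (st_cont.comp (by fun_prop)).mul (st_cont.comp (by fun_prop))

theorem bb_one {L x : ℝ} (h1 : -3 ≤ x) (h2 : x ≤ L + 3) : bb L x = 1 := by
  unfold bb st
  rw [Real.smoothTransition.one_of_one_le (by linarith),
    Real.smoothTransition.one_of_one_le (by linarith), one_mul]

theorem bb_supp (L : ℝ) : HasCompactSupport (bb L) := by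
  refine HasCompactSupport.of_support_subset_isCompact (K := Icc (-4) (L + 4)) isCompact_Icc ?_
  intro x hx
  by_contra hn
  apply hx
  unfold bb st
  by_cases h1 : x + 4 ≤ 0
  · rw [Real.smoothTransition.zero_of_nonpos h1, zero_mul]
  · have h2 : L + 4 - x ≤ 0 := by
      by_contra h3
      exact hn ⟨by linarith, by linarith⟩
    rw [Real.smoothTransition.zero_of_nonpos h2, mul_zero]

theorem bb_int (L : ℝ) : Integrable (bb L) volume :=
  (bb_cont L).integrable_of_hasCompactSupport (bb_supp L)

theorem wt_der (L c x : ℝ) : HasDerivAt (wt L c) (bb L x) x := by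
  have h := intervalIntegral.integral_hasDerivAt_right
    ((bb_cont L).intervalIntegrable 0 x) ((bb_cont L).stronglyMeasurableAtFilter _ _)
    (bb_cont L).continuousAt
  exact h.const_add c

theorem wt_cont (L c : ℝ) : Continuous (wt L c) :=
  continuous_iff_continuousAt.2 fun x => (wt_der L c x).continuousAt

theorem wt_bd (L c : ℝ) : ∃ C : ℝ, ∀ x, |wt L c x| ≤ C := by
  refine ⟨|c| + ∫ s, ‖bb L s‖, fun x => ?_⟩
  unfold wt
  refine (abs_add_le _ _).trans (add_le_add le_rfl ?_)
  have h1 : ‖∫ s in (0 : ℝ)..x, bb L s‖ ≤ ∫ s in uIoc 0 x, ‖bb L s‖ :=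
    intervalIntegral.norm_integral_le_integral_norm_uIoc
  rw [Real.norm_eq_abs] at h1
  refine h1.trans ?_
  exact setIntegral_le_integral (bb_int L).norm (Eventually.of_forall fun s => norm_nonneg _)

/-- the weight as an element of `V1` -/
theorem exists_wt (L c : ℝ) : ∃ R : V1 L,
    (∀ᵐ x ∂volume, x ∈ J L → V1.u L R x = wt L c x) ∧
    (∀ᵐ x ∂volume, x ∈ J L → V1.d L R x = 1) := by
  have hsm : ContDiff ℝ ∞ (bb L) := by
    unfold bb st
    exact (Real.smoothTransition.contDiff.comp (by fun_prop)).mul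
      (Real.smoothTransition.contDiff.comp (by fun_prop))
  have hbd : ∀ x, HasDerivAt (bb L) (deriv (bb L) x) x := fun x =>
    ((hsm.differentiable (by simp)) x).hasDerivAt
  have hbc : Continuous (deriv (bb L)) := hsm.continuous_deriv (by simp)
  have hF : MemLp (fun x => bb L x * wt L c x) 2 volume :=
    ((bb_cont L).mul (wt_cont L c)).memLp_of_hasCompactSupport ((bb_supp L).mul_right)
  obtain ⟨R, h1, h2, -⟩ := V1.exists_of (L := L) hF
    (F' := fun x => deriv (bb L) x * wt L c x + bb L x * bb L x)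
    (fun x => (hbd x).mul (wt_der L c x))
    ((hbc.mul (wt_cont L c)).add ((bb_cont L).mul (bb_cont L)))
  refine ⟨R, ?_, ?_⟩
  · rw [h1]
    filter_upwards [toL2_ae hF] with x hx hxJ
    rw [hx, bb_one (by linarith [hxJ.1]) (by linarith [hxJ.2]), one_mul]
  · filter_upwards [h2] with x hx hxJ
    rw [hx hxJ]
    have e1 : bb L x = 1 := bb_one (by linarith [hxJ.1]) (by linarith [hxJ.2])
    have e2 : deriv (bb L) x = 0 := by
      have e3 : bb L =ᶠ[𝓝 x] fun _ => 1 := by
        filter_upwards [isOpen_Ioo.mem_nhds hxJ] with y hy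
        exact bb_one (by linarith [hy.1]) (by linarith [hy.2])
      rw [e3.deriv_eq, deriv_const]
    rw [e1, e2]
    ring

theorem pairw {L : ℝ} (hL : 0 < L) (c : ℝ) (P Q : V1 L) :
    Integrable (fun x => wt L c x * (dchi L x * V1.u L P x * V1.u L Q x +
      chi L x * (V1.d L P x * V1.u L Q x + V1.u L P x * V1.d L Q x))) volume ∧
    Integrable (fun x => chi L x * (V1.u L P x * V1.u L Q x)) volume ∧
    ∫ x, wt L c x * (dchi L x * V1.u L P x * V1.u L Q x +
      chi L x * (V1.d L P x * V1.u L Q x + V1.u L P x * V1.d L Q x)) =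
      -∫ x, chi L x * (V1.u L P x * V1.u L Q x) := by
  obtain ⟨R, hR1, hR2⟩ := exists_wt L c
  obtain ⟨C, hC⟩ := wt_bd L c
  obtain ⟨i2, -⟩ := Skw.pair2 hL P Q
  have i1 : Integrable (fun x => wt L c x * (dchi L x * V1.u L P x * V1.u L Q x +
      chi L x * (V1.d L P x * V1.u L Q x + V1.u L P x * V1.d L Q x))) volume :=
    i2.bdd_mul (c := C) (wt_cont L c).aestronglyMeasurable
      (Eventually.of_forall fun x => hC x)
  have i3 : Integrable (fun x => chi L x * (V1.u L P x * V1.u L Q x)) volume :=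
    ((Lp.memLp (V1.u L P)).integrable_mul (Lp.memLp (V1.u L Q))).bdd_mul (c := 1)
      (Skw.chi_cont L).aestronglyMeasurable (Eventually.of_forall fun x => Skw.chi_bdd L x)
  refine ⟨i1, i3, ?_⟩
  have h3 := (Skw.pair3 hL P Q R).2
  have h4 : ∫ x, (dchi L x * V1.u L P x * V1.u L Q x * V1.u L R x +
      chi L x * (V1.d L P x * V1.u L Q x * V1.u L R x + V1.u L P x * V1.d L Q x * V1.u L R x +
        V1.u L P x * V1.u L Q x * V1.d L R x)) =
      ∫ x, (wt L c x * (dchi L x * V1.u L P x * V1.u L Q x +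
      chi L x * (V1.d L P x * V1.u L Q x + V1.u L P x * V1.d L Q x)) +
        chi L x * (V1.u L P x * V1.u L Q x)) := by
    refine integral_congr_ae ?_
    filter_upwards [hR1, hR2] with x a1 a2
    by_cases hx : x ∈ J L
    · rw [a1 hx, a2 hx]
      ring
    · simp only [Skw.chi_out hx, Skw.dchi_out hL hx, zero_mul, mul_zero, add_zero]
  rw [h4, integral_add i1 i3] at h3
  linarith

end Inf08Aux

open Inf08Aux

/-- INF8. -/
theorem pair_l (p : Pr n) (c : ℝ) (z : VV n p.L) :
    2 * inner ℝ (lmap n p.L p.S z) (mulH (wt p.L c) (inc n p.L z)) =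
      ∫ x, chi p.L x * ∑ j, ∑ k, p.S j k * uu j z x * uu k z x := by
  have hw : ∀ j, ∀ᵐ x ∂volume, mulH (wt p.L c) (inc n p.L z) j x = wt p.L c x * uu j z x := by
    intro j
    have := mulOp_ae (wt_cont p.L c).measurable (wt_bd p.L c) (uu j z)
    exact this
  rw [Skw.inner_HH]
  have h1 : ∫ x, ∑ j, lmap n p.L p.S z j x * mulH (wt p.L c) (inc n p.L z) j x =
      ∫ x, ∑ j, ∑ k, (-(1 / 2) * p.S j k) *
      (wt p.L c x * (dchi p.L x * V1.u p.L (z j) x * V1.u p.L (z k) x +
      chi p.L x * (V1.d p.L (z j) x * V1.u p.L (z k) x +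
        V1.u p.L (z j) x * V1.d p.L (z k) x))) := by
    refine integral_congr_ae ?_
    filter_upwards [ae_all_iff.mpr (lmap_ae p.L p.S z), ae_all_iff.mpr hw] with x hx hx2
    have e1 := Skw.alg2 p.hS (chi p.L x) (dchi p.L x) (fun j => V1.u p.L (z j) x)
      (fun j => V1.d p.L (z j) x)
    have e2 : ∑ j, lmap n p.L p.S z j x * mulH (wt p.L c) (inc n p.L z) j x =
        wt p.L c x * ∑ j, (-∑ k, p.S j k * (chi p.L x * V1.d p.L (z k) x +
          (1 / 2) * (dchi p.L x * V1.u p.L (z k) x))) * V1.u p.L (z j) x := by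
      rw [Finset.mul_sum]
      refine Finset.sum_congr rfl fun j _ => ?_
      rw [hx j, hx2 j]
      have e3 : ∀ k, dd k z x = V1.d p.L (z k) x := fun k => rfl
      have e4 : ∀ k, uu k z x = V1.u p.L (z k) x := fun k => rfl
      simp only [e3, e4]
      ring
    rw [e2, e1, Finset.mul_sum]
    refine Finset.sum_congr rfl fun j _ => ?_
    rw [Finset.mul_sum]
    refine Finset.sum_congr rfl fun k _ => ?_
    ring
  have hi : ∀ j k, Integrable (fun x => (-(1 / 2) * p.S j k) *
      (wt p.L c x * (dchi p.L x * V1.u p.L (z j) x * V1.u p.L (z k) x +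
      chi p.L x * (V1.d p.L (z j) x * V1.u p.L (z k) x +
        V1.u p.L (z j) x * V1.d p.L (z k) x)))) volume := fun j k =>
    (pairw p.hL c (z j) (z k)).1.const_mul _
  have hi2 : ∀ j k, Integrable (fun x => p.S j k *
      (chi p.L x * (V1.u p.L (z j) x * V1.u p.L (z k) x))) volume := fun j k =>
    (pairw p.hL c (z j) (z k)).2.1.const_mul _
  have h2 : ∫ x, chi p.L x * ∑ j, ∑ k, p.S j k * uu j z x * uu k z x =
      ∫ x, ∑ j, ∑ k, p.S j k * (chi p.L x * (V1.u p.L (z j) x * V1.u p.L (z k) x)) := by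
    refine integral_congr_ae (Eventually.of_forall fun x => ?_)
    simp only
    rw [Finset.mul_sum]
    refine Finset.sum_congr rfl fun j _ => ?_
    rw [Finset.mul_sum]
    refine Finset.sum_congr rfl fun k _ => ?_
    have e4 : ∀ k, uu k z x = V1.u p.L (z k) x := fun k => rfl
    rw [e4, e4]
    ring
  rw [h1, h2, integral_finsetSum _ fun j _ => integrable_finsetSum _ fun k _ => hi j k,
    integral_finsetSum _ fun j _ => integrable_finsetSum _ fun k _ => hi2 j k, Finset.mul_sum]
  refine Finset.sum_congr rfl fun j _ => ?_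
  rw [integral_finsetSum _ fun k _ => hi j k, integral_finsetSum _ fun k _ => hi2 j k,
    Finset.mul_sum]
  refine Finset.sum_congr rfl fun k _ => ?_
  rw [integral_const_mul, integral_const_mul, (pairw p.hL c (z j) (z k)).2.2]
  ring

end Pool.Agent.KG
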