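import Pool.Agent.Lib.KG.Defs
import Pool.Agent.Lib.MP_78c35a_an.Skew

/-!
# The quadratic term against the weight (row Inf09)

As `Skew.lean` (`q_skew`, `pair3`, `alg3`), with the factor `wt`, `wt' = 1` on `J`:
`2 <q z, wt z> = 2 / 3 ∫ chi g z z z`.
-/

set_option autoImplicit false

namespace Pool.Agent.KG

open MeasureTheory Filter Topology Set
open Pool.Agent.Kdv
open scoped ENNReal ContDiff InnerProductSpace

variable {n : ℕ}

namespace Inf09Aux

/-- `F` is the integral of `F'` on `[a, b]`. -/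
structure Prim (a b : ℝ) (F F' : ℝ → ℝ) : Prop where
  ii : IntervalIntegrable F' volume a b
  eq : ∀ x ∈ Icc a b, F x = F a + ∫ s in a..x, F' s

theorem Prim.cont {a b : ℝ} {F F' : ℝ → ℝ} (hab : a ≤ b) (h : Prim a b F F') :
    ContinuousOn F (Icc a b) := by
  have h1 : ContinuousOn (fun x => ∫ s in a..x, F' s) (uIcc a b) :=
    intervalIntegral.continuousOn_primitive_interval' h.ii left_mem_uIcc
  rw [uIcc_of_le hab] at h1
  exact (continuousOn_const.add h1).congr h.eq

theorem Prim.fin {a b : ℝ} {F F' : ℝ → ℝ} (hab : a ≤ b) (h : Prim a b F F') :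
    ∫ s in a..b, F' s = F b - F a := by
  rw [h.eq b (right_mem_Icc.2 hab)]
  ring

/-- Integration by parts. -/
theorem parts {a b : ℝ} {F F' G G' : ℝ → ℝ} (hab : a ≤ b) (hF : Prim a b F F')
    (hG : Prim a b G G') :
    ∫ x in a..b, (F' x * G x + F x * G' x) = F b * G b - F a * G a := by
  have key : ∀ {F F' : ℝ → ℝ}, Prim a b F F' →
      AbsolutelyContinuousOnInterval (fun x => F a + ∫ s in a..x, F' s) a b := by
    intro F F' h
    have h1 : AbsolutelyContinuousOnInterval (fun _ : ℝ => F a) a b :=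
      (contDiffOn_const (c := F a)).absolutelyContinuousOnInterval
    exact h1.add (h.ii.absolutelyContinuousOnInterval_intervalIntegral (c := a) left_mem_uIcc)
  have hac := (key hF).mul (key hG)
  have h1 := hac.integral_deriv_eq_sub
  simp only [Pi.mul_apply] at h1
  rw [hF.eq b (right_mem_Icc.2 hab), hG.eq b (right_mem_Icc.2 hab)]
  have e0 : F a * G a = (F a + ∫ s in a..a, F' s) * (G a + ∫ s in a..a, G' s) := by simp
  rw [e0, ← h1]
  refine intervalIntegral.integral_congr_ae ?_
  filter_upwards [hF.ii.ae_hasDerivAt_integral, hG.ii.ae_hasDerivAt_integral] with x a2 a3 hx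
  have hx' : x ∈ Icc a b := by
    rw [uIoc_of_le hab] at hx
    exact ⟨hx.1.le, hx.2⟩
  have hx'' : x ∈ uIcc a b := by rwa [uIcc_of_le hab]
  have b2 : HasDerivAt (fun x => F a + ∫ s in a..x, F' s) (F' x) x :=
    (a2 hx'' a left_mem_uIcc).const_add _
  have b3 : HasDerivAt (fun x => G a + ∫ s in a..x, G' s) (G' x) x :=
    (a3 hx'' a left_mem_uIcc).const_add _
  rw [(b2.mul b3).deriv, hF.eq x hx', hG.eq x hx']

theorem Prim.mono {a b c : ℝ} {F F' : ℝ → ℝ} (hac : a ≤ c) (hcb : c ≤ b) (h : Prim a b F F') :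
    Prim a c F F' := by
  refine ⟨h.ii.mono_set ?_, fun x hx => h.eq x ⟨hx.1, hx.2.trans hcb⟩⟩
  rw [uIcc_of_le hac, uIcc_of_le (hac.trans hcb)]
  exact Icc_subset_Icc le_rfl hcb

theorem Prim.mul {a b : ℝ} {F F' G G' : ℝ → ℝ} (hab : a ≤ b) (hF : Prim a b F F')
    (hG : Prim a b G G') :
    Prim a b (fun x => F x * G x) (fun x => F' x * G x + F x * G' x) := by
  have cF := hF.cont hab
  have cG := hG.cont hab
  refine ⟨?_, fun x hx => ?_⟩
  · refine IntervalIntegrable.add ?_ ?_
    · exact hF.ii.mul_continuousOn (by rwa [uIcc_of_le hab])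
    · exact hG.ii.continuousOn_mul (by rwa [uIcc_of_le hab])
  · rw [parts hx.1 (hF.mono hx.1 hx.2) (hG.mono hx.1 hx.2)]
    ring

theorem Prim.of_deriv {a b : ℝ} {F F' : ℝ → ℝ} (h : ∀ x, HasDerivAt F (F' x) x)
    (hc : Continuous F') : Prim a b F F' := by
  refine ⟨hc.intervalIntegrable _ _, fun x _ => ?_⟩
  rw [intervalIntegral.integral_eq_sub_of_hasDerivAt (fun s _ => h s) (hc.intervalIntegrable _ _)]
  ring

theorem Prim.val {L : ℝ} (P : V1 L) (a b : ℝ) : Prim a b P.val (V1.d L P) := by
  refine ⟨L2.intervalIntegrable _ _ _, fun x _ => ?_⟩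
  rw [← P.val_sub a x]
  ring

theorem Prim.chi {L : ℝ} (hL : 0 < L) : Prim (-1) (L + 1) (chi L) (dchi L) :=
  ⟨Skw.dchi_ii L _ _, fun x hx => Skw.chi_int hL x hx⟩

theorem Prim.congr {a b : ℝ} {F F' G' : ℝ → ℝ} (h : Prim a b F F') (e : ∀ x, F' x = G' x) :
    Prim a b F G' := by
  have : F' = G' := funext e
  rwa [← this]

/-! ### The weight -/

theorem st_cont : Continuous st := Real.smoothTransition.continuous

theorem st_nonneg (x : ℝ) : 0 ≤ st x := Real.smoothTransition.nonneg x

theorem st_le_one (x : ℝ) : st x ≤ 1 := Real.smoothTransition.le_one x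

theorem bb_cont (L : ℝ) : Continuous (bb L) := by
  unfold bb
  exact (st_cont.comp (by fun_prop)).mul (st_cont.comp (by fun_prop))

theorem bb_one {L x : ℝ} (h1 : -3 ≤ x) (h2 : x ≤ L + 3) : bb L x = 1 := by
  unfold bb st
  rw [Real.smoothTransition.one_of_one_le (by linarith),
    Real.smoothTransition.one_of_one_le (by linarith), one_mul]

theorem bb_zero_left {L x : ℝ} (h : x ≤ -4) : bb L x = 0 := by
  unfold bb st
  rw [Real.smoothTransition.zero_of_nonpos (by linarith), zero_mul]

theorem bb_zero_right {L x : ℝ} (h : L + 4 ≤ x) : bb L x = 0 := by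
  unfold bb st
  rw [Real.smoothTransition.zero_of_nonpos (x := L + 4 - x) (by linarith), mul_zero]

theorem wt_deriv (L c x : ℝ) : HasDerivAt (wt L c) (bb L x) x := by
  have h := intervalIntegral.integral_hasDerivAt_right ((bb_cont L).intervalIntegrable 0 x)
    ((bb_cont L).stronglyMeasurableAtFilter _ _) (bb_cont L).continuousAt
  exact h.const_add c

theorem wt_cont (L c : ℝ) : Continuous (wt L c) :=
  continuous_iff_continuousAt.2 fun x => (wt_deriv L c x).continuousAt

theorem wt_const_left (L c : ℝ) {x : ℝ} (hx : x ≤ -4) : wt L c x = wt L c (-4) := by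
  have h : ∫ s in (-4 : ℝ)..x, bb L s = 0 := by
    rw [intervalIntegral.integral_symm, neg_eq_zero]
    have : ∫ s in x..(-4 : ℝ), bb L s = ∫ s in x..(-4 : ℝ), (0 : ℝ) := by
      refine intervalIntegral.integral_congr fun s hs => ?_
      rw [uIcc_of_le hx] at hs
      exact bb_zero_left hs.2
    rw [this]
    simp
  have h2 := intervalIntegral.integral_add_adjacent_intervals
    ((bb_cont L).intervalIntegrable 0 (-4)) ((bb_cont L).intervalIntegrable (μ := volume) (-4) x)
  unfold wt
  rw [← h2, h, add_zero]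

theorem wt_const_right (L c : ℝ) {x : ℝ} (hx : L + 4 ≤ x) : wt L c x = wt L c (L + 4) := by
  have h : ∫ s in (L + 4)..x, bb L s = 0 := by
    have : ∫ s in (L + 4)..x, bb L s = ∫ s in (L + 4)..x, (0 : ℝ) := by
      refine intervalIntegral.integral_congr fun s hs => ?_
      rw [uIcc_of_le hx] at hs
      exact bb_zero_right hs.1
    rw [this]
    simp
  have h2 := intervalIntegral.integral_add_adjacent_intervals
    ((bb_cont L).intervalIntegrable 0 (L + 4))
    ((bb_cont L).intervalIntegrable (μ := volume) (L + 4) x)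
  unfold wt
  rw [← h2, h, add_zero]

theorem wt_bdd (L c : ℝ) : ∃ C, ∀ x, |wt L c x| ≤ C := by
  obtain ⟨C, hC⟩ := (isCompact_Icc (a := (-4 : ℝ)) (b := L + 4)).exists_bound_of_continuousOn
    (wt_cont L c).continuousOn
  refine ⟨max C (max |wt L c (-4)| |wt L c (L + 4)|), fun x => ?_⟩
  rcases le_total x (-4) with h | h
  · rw [wt_const_left L c h]
    exact (le_max_left _ _).trans (le_max_right _ _)
  · rcases le_total (L + 4) x with h' | h'
    · rw [wt_const_right L c h']
      exact (le_max_right _ _).trans (le_max_right _ _)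
    · exact (hC x ⟨h, h'⟩).trans (le_max_left _ _)

theorem mulH_ae {m : ℝ → ℝ} (hm : Continuous m) (hb : ∃ C, ∀ x, |m x| ≤ C) (y : HH n)
    (j : Fin n) : ∀ᵐ x ∂volume, mulH m y j x = m x * y j x :=
  mulOp_ae hm.measurable hb (y j)

/-- The product rule, with a factor `ρ`. -/
theorem pair3w {L : ℝ} (hL : 0 < L) {ρ ρ' : ℝ → ℝ} (hρ : ∀ x, HasDerivAt ρ (ρ' x) x)
    (hc : Continuous ρ') (P Q R : V1 L) :
    (Integrable (fun x => ρ x * (dchi L x * V1.u L P x * V1.u L Q x * V1.u L R x +
      chi L x * (V1.d L P x * V1.u L Q x * V1.u L R x + V1.u L P x * V1.d L Q x * V1.u L R x +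
        V1.u L P x * V1.u L Q x * V1.d L R x))) volume ∧
    Integrable (fun x => ρ' x * chi L x * (V1.u L P x * V1.u L Q x * V1.u L R x)) volume) ∧
    ∫ x, ρ x * (dchi L x * V1.u L P x * V1.u L Q x * V1.u L R x +
      chi L x * (V1.d L P x * V1.u L Q x * V1.u L R x + V1.u L P x * V1.d L Q x * V1.u L R x +
        V1.u L P x * V1.u L Q x * V1.d L R x)) =
      -∫ x, ρ' x * chi L x * (V1.u L P x * V1.u L Q x * V1.u L R x) := by
  have hle : (-1 : ℝ) ≤ L + 1 := by linarith
  have hPr := Prim.of_deriv (a := -1) (b := L + 1) hρ hc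
  have hcρ : Continuous ρ := continuous_iff_continuousAt.2 fun x => (hρ x).continuousAt
  have h4 := (((Prim.chi hL).mul hle (Prim.val P _ _)).mul hle (Prim.val Q _ _)).mul hle
    (Prim.val R _ _)
  have h5 := hPr.mul hle h4
  have cP := (V1.val_cont P).continuousOn (s := uIcc (-1) (L + 1))
  have cQ := (V1.val_cont Q).continuousOn (s := uIcc (-1) (L + 1))
  have cR := (V1.val_cont R).continuousOn (s := uIcc (-1) (L + 1))
  have cc := (Skw.chi_cont L).continuousOn (s := uIcc (-1) (L + 1))
  have hi1 : IntervalIntegrable (fun x => ρ x *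
      (((dchi L x * P.val x + chi L x * V1.d L P x) * Q.val x +
        chi L x * P.val x * V1.d L Q x) * R.val x +
        chi L x * P.val x * Q.val x * V1.d L R x)) volume (-1) (L + 1) :=
    h4.ii.continuousOn_mul hcρ.continuousOn
  have hi2 : IntervalIntegrable (fun x => ρ' x * chi L x * (P.val x * Q.val x * R.val x)) volume
      (-1) (L + 1) := by
    refine ContinuousOn.intervalIntegrable ?_
    exact (hc.continuousOn.mul cc).mul ((cP.mul cQ).mul cR)
  have k1 := Skw.cut hL (F := fun x => ρ x * (dchi L x * V1.u L P x * V1.u L Q x * V1.u L R x +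
      chi L x * (V1.d L P x * V1.u L Q x * V1.u L R x + V1.u L P x * V1.d L Q x * V1.u L R x +
        V1.u L P x * V1.u L Q x * V1.d L R x)))
    (by
      filter_upwards [V1.val_ae P, V1.val_ae Q, V1.val_ae R] with x a1 a2 a3 hx
      simp only [a1 hx, a2 hx, a3 hx]
      ring)
    (by
      refine Eventually.of_forall fun x hx => ?_
      simp only [Skw.chi_out hx, Skw.dchi_out hL hx, zero_mul, add_zero, mul_zero]) hi1
  have k2 := Skw.cut hL (F := fun x => ρ' x * chi L x * (V1.u L P x * V1.u L Q x * V1.u L R x))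
    (by
      filter_upwards [V1.val_ae P, V1.val_ae Q, V1.val_ae R] with x a1 a2 a3 hx
      simp only [a1 hx, a2 hx, a3 hx])
    (by
      refine Eventually.of_forall fun x hx => ?_
      simp only [Skw.chi_out hx, zero_mul, mul_zero]) hi2
  refine ⟨⟨k1.1, k2.1⟩, ?_⟩
  have h6 := h5.fin hle
  rw [intervalIntegral.integral_add] at h6
  · rw [k1.2, k2.2]
    have e1 : ∫ x in (-1)..(L + 1), ρ' x * (chi L x * P.val x * Q.val x * R.val x) =
        ∫ x in (-1)..(L + 1), ρ' x * chi L x * (P.val x * Q.val x * R.val x) := by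
      refine intervalIntegral.integral_congr fun x _ => ?_
      ring
    rw [e1, Skw.chi_left L hL, Skw.chi_right L hL] at h6
    linarith
  · refine ContinuousOn.intervalIntegrable ?_
    exact hc.continuousOn.mul (((cc.mul cP).mul cQ).mul cR)
  · exact hi1

end Inf09Aux

open Inf09Aux

/-- INF9. -/
theorem pair_q (p : Pr n) (c : ℝ) (z : VV n p.L) :
    2 * inner ℝ (qmap n p.L p.g z) (mulH (wt p.L c) (inc n p.L z)) =
      2 / 3 * ∫ x, chi p.L x * ∑ j, ∑ k, ∑ l, p.g j k l * uu j z x * uu k z x * uu l z x := by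
  have hL := p.hL
  have key := fun j k l => pair3w hL (fun x => wt_deriv p.L c x) (bb_cont p.L) (z j) (z k) (z l)
  rw [Skw.inner_HH]
  have h1 : ∫ x, ∑ j, qmap n p.L p.g z j x * mulH (wt p.L c) (inc n p.L z) j x =
      ∫ x, ∑ j, ∑ k, ∑ l, (-(1 / 3) * p.g j k l) * (wt p.L c x *
      (dchi p.L x * V1.u p.L (z j) x * V1.u p.L (z k) x * V1.u p.L (z l) x +
      chi p.L x * (V1.d p.L (z j) x * V1.u p.L (z k) x * V1.u p.L (z l) x +
        V1.u p.L (z j) x * V1.d p.L (z k) x * V1.u p.L (z l) x +
        V1.u p.L (z j) x * V1.u p.L (z k) x * V1.d p.L (z l) x))) := by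
    refine integral_congr_ae ?_
    filter_upwards [ae_all_iff.mpr (qmap_ae hL p.g z),
      ae_all_iff.mpr (fun j => mulH_ae (wt_cont p.L c) (wt_bdd p.L c) (inc n p.L z) j)]
      with x hx hx2
    have h3 := Skw.alg3 p.g12 p.g23 (chi p.L x) (dchi p.L x) (fun j => V1.u p.L (z j) x)
      (fun j => V1.d p.L (z j) x)
    have h4 : ∑ j, qmap n p.L p.g z j x * mulH (wt p.L c) (inc n p.L z) j x =
        wt p.L c x * ∑ j, (-∑ k, ∑ l, p.g j k l * (chi p.L x * V1.u p.L (z k) x *
          V1.d p.L (z l) x + (1 / 3) * dchi p.L x * V1.u p.L (z k) x * V1.u p.L (z l) x)) *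
          V1.u p.L (z j) x := by
      rw [Finset.mul_sum]
      refine Finset.sum_congr rfl fun j _ => ?_
      rw [hx j, hx2 j]
      change _ * (_ * V1.u p.L (z j) x) = _ * (_ * V1.u p.L (z j) x)
      change (-∑ k, ∑ l, p.g j k l * (chi p.L x * V1.u p.L (z k) x *
          V1.d p.L (z l) x + (1 / 3) * dchi p.L x * V1.u p.L (z k) x * V1.u p.L (z l) x)) * _ = _
      ring
    rw [h4, h3]
    simp only [Finset.mul_sum]
    refine Finset.sum_congr rfl fun j _ => Finset.sum_congr rfl fun k _ =>
      Finset.sum_congr rfl fun l _ => ?_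
    ring
  have h2 : ∫ x, chi p.L x * ∑ j, ∑ k, ∑ l, p.g j k l * uu j z x * uu k z x * uu l z x =
      ∫ x, ∑ j, ∑ k, ∑ l, p.g j k l * (bb p.L x * chi p.L x *
        (V1.u p.L (z j) x * V1.u p.L (z k) x * V1.u p.L (z l) x)) := by
    refine integral_congr_ae (Eventually.of_forall fun x => ?_)
    simp only [Finset.mul_sum]
    refine Finset.sum_congr rfl fun j _ => Finset.sum_congr rfl fun k _ =>
      Finset.sum_congr rfl fun l _ => ?_
    by_cases hx : x ∈ J p.L
    · rw [bb_one (by linarith [hx.1]) (by linarith [hx.2])]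
      change chi p.L x * (p.g j k l * V1.u p.L (z j) x * V1.u p.L (z k) x * V1.u p.L (z l) x) = _
      ring
    · rw [Skw.chi_out hx]
      ring
  rw [h1, h2, integral_finsetSum, integral_finsetSum, Finset.mul_sum, Finset.mul_sum]
  · refine Finset.sum_congr rfl fun j _ => ?_
    rw [integral_finsetSum, integral_finsetSum, Finset.mul_sum, Finset.mul_sum]
    · refine Finset.sum_congr rfl fun k _ => ?_
      rw [integral_finsetSum, integral_finsetSum, Finset.mul_sum, Finset.mul_sum]
      · refine Finset.sum_congr rfl fun l _ => ?_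
        rw [integral_const_mul, integral_const_mul, (key j k l).2]
        ring
      · intro l _
        exact (key j k l).1.2.const_mul _
      · intro l _
        exact (key j k l).1.1.const_mul _
    · intro k _
      exact integrable_finsetSum _ fun l _ => (key j k l).1.2.const_mul _
    · intro k _
      exact integrable_finsetSum _ fun l _ => (key j k l).1.1.const_mul _
  · intro j _
    exact integrable_finsetSum _ fun k _ =>
      integrable_finsetSum _ fun l _ => (key j k l).1.2.const_mul _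
  · intro j _
    exact integrable_finsetSum _ fun k _ =>
      integrable_finsetSum _ fun l _ => (key j k l).1.1.const_mul _

end Pool.Agent.KG
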