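import Pool.Agent.Lib.KG.Defs
import Pool.Agent.Lib.KG.Inf09
import Pool.Agent.Lib.MP_78c35a_an.Skew

/-!
# The transport term against the weight (row Inf10)

As for the linear term, with the smooth cut-off `th` (support in `(-3/4, L + 3/4)`) and the
coefficient `Hm g (X x) j k`, symmetric in `j, k`, with the derivative `Hm g (X1 x) j k`.
Integrate `(th * rho * H_jk * z_j * z_k)'` over `[-1, L + 1]` (absolutely continuous functions:
`V1.parts`, `V1.val`), once with `rho = wt L c`, once with `rho = 1`. It may be easier to prove one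
lemma with a general `C¹` function `rho` and its derivative.
-/

set_option autoImplicit false

namespace Pool.Agent.KG

open MeasureTheory Filter Topology Set
open Pool.Agent.Kdv
open scoped ENNReal ContDiff InnerProductSpace

variable {n : ℕ}

namespace Inf10Aux

open Inf09Aux

theorem th_smooth (L : ℝ) : ContDiff ℝ ∞ (th L) := by
  unfold th st
  exact (Real.smoothTransition.contDiff.comp (by fun_prop)).mul
    (Real.smoothTransition.contDiff.comp (by fun_prop))

theorem th_cont (L : ℝ) : Continuous (th L) := (th_smooth L).continuous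

theorem th_deriv (L x : ℝ) : HasDerivAt (th L) (deriv (th L) x) x :=
  ((th_smooth L).differentiable (by simp) x).hasDerivAt

theorem dth_cont (L : ℝ) : Continuous (deriv (th L)) :=
  (th_smooth L).continuous_deriv (by simp)

theorem th_left {L x : ℝ} (h : x ≤ -3 / 4) : th L x = 0 := by
  unfold th st
  rw [Real.smoothTransition.zero_of_nonpos (by linarith), zero_mul]

theorem th_right {L x : ℝ} (h : L + 3 / 4 ≤ x) : th L x = 0 := by
  unfold th st
  rw [Real.smoothTransition.zero_of_nonpos (x := 4 * (L - x) + 3) (by linarith), mul_zero]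

theorem th_out {L x : ℝ} (hx : x ∉ J L) : th L x = 0 := by
  by_cases h : -1 < x
  · refine th_right ?_
    have : L + 1 ≤ x := by
      by_contra h2
      exact hx ⟨h, not_le.mp h2⟩
    linarith
  · exact th_left (by linarith)

theorem dth_out {L x : ℝ} (hx : x ∉ J L) : deriv (th L) x = 0 := by
  by_cases h : -1 < x
  · have h1 : L + 1 ≤ x := by
      by_contra h2
      exact hx ⟨h, not_le.mp h2⟩
    have h3 : th L =ᶠ[𝓝 x] fun _ => 0 := by
      filter_upwards [Ioi_mem_nhds (show L + 3 / 4 < x by linarith)] with y hy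
      exact th_right (le_of_lt hy)
    rw [h3.deriv_eq]
    simp
  · have h3 : th L =ᶠ[𝓝 x] fun _ => 0 := by
      filter_upwards [Iio_mem_nhds (show x < -3 / 4 by linarith)] with y hy
      exact th_left (le_of_lt hy)
    rw [h3.deriv_eq]
    simp

/-- A continuous function times a function which vanishes outside `J` is bounded. -/
theorem bdd_of_out {L : ℝ} {F : ℝ → ℝ} (hF : Continuous F) (ho : ∀ x, x ∉ J L → F x = 0) :
    ∃ C, ∀ x, |F x| ≤ C := by
  obtain ⟨C, hC⟩ := (isCompact_Icc (a := (-1 : ℝ)) (b := L + 1)).exists_bound_of_continuousOn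
    hF.continuousOn
  refine ⟨max C 0, fun x => ?_⟩
  by_cases hx : x ∈ J L
  · exact (hC x ⟨hx.1.le, hx.2.le⟩).trans (le_max_left _ _)
  · rw [ho x hx, abs_zero]
    exact le_max_right _ _

variable {X X1 : ℝ → Fin n → ℝ}

theorem Hm_deriv (g : Fin n → Fin n → Fin n → ℝ)
    (hX : ∀ x j, HasDerivAt (fun x => X x j) (X1 x j) x) (j k : Fin n) (x : ℝ) :
    HasDerivAt (fun x => Hm g (X x) j k) (Hm g (X1 x) j k) x := by
  unfold Hm
  exact HasDerivAt.fun_sum fun l _ => (hX x l).const_mul _

theorem X_cont (hX : ∀ x j, HasDerivAt (fun x => X x j) (X1 x j) x) (j : Fin n) :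
    Continuous fun x => X x j :=
  continuous_iff_continuousAt.2 fun x => (hX x j).continuousAt

theorem Hm_cont (g : Fin n → Fin n → Fin n → ℝ) {Y : ℝ → Fin n → ℝ}
    (hY : ∀ j, Continuous fun x => Y x j) (j k : Fin n) : Continuous fun x => Hm g (Y x) j k := by
  unfold Hm
  exact continuous_finsetSum _ fun l _ => continuous_const.mul (hY l)

theorem tmap_ae (L : ℝ) (g : Fin n → Fin n → Fin n → ℝ)
    (hX : ∀ x j, HasDerivAt (fun x => X x j) (X1 x j) x) (hX1 : ∀ j, Continuous fun x => X1 x j)
    (z : VV n L) (j : Fin n) : ∀ᵐ x ∂volume, tmap n L g X X1 z j x =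
      ∑ k, (-(th L x * Hm g (X x) j k) * dd k z x +
        -(1 / 2 * deriv (th L) x * Hm g (X x) j k + th L x * Hm g (X1 x) j k) * uu k z x) := by
  have h : tmap n L g X X1 z j = ∑ k, (mulOp (fun x => -(th L x * Hm g (X x) j k)) (dd k z) +
      mulOp (fun x => -(1 / 2 * deriv (th L) x * Hm g (X x) j k + th L x * Hm g (X1 x) j k))
        (uu k z)) := by
    unfold tmap
    rw [mkH_apply]
    simp
  rw [h]
  refine QuadrAux.sum_ae Finset.univ _ _ fun k => ?_
  have c1 : Continuous fun x => -(th L x * Hm g (X x) j k) :=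
    ((th_cont L).mul (Hm_cont g (X_cont hX) j k)).neg
  have c2 : Continuous fun x => -(1 / 2 * deriv (th L) x * Hm g (X x) j k +
      th L x * Hm g (X1 x) j k) :=
    (((continuous_const.mul (dth_cont L)).mul (Hm_cont g (X_cont hX) j k)).add
      ((th_cont L).mul (Hm_cont g hX1 j k))).neg
  have b1 := bdd_of_out (L := L) c1 fun x hx => by rw [th_out hx, zero_mul, neg_zero]
  have b2 := bdd_of_out (L := L) c2 fun x hx => by
    rw [th_out hx, dth_out hx]
    simp
  filter_upwards [mulOp_ae c1.measurable b1 (dd k z), mulOp_ae c2.measurable b2 (uu k z),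
    Lp.coeFn_add (mulOp (fun x => -(th L x * Hm g (X x) j k)) (dd k z))
      (mulOp (fun x => -(1 / 2 * deriv (th L) x * Hm g (X x) j k + th L x * Hm g (X1 x) j k))
        (uu k z))] with x h1 h2 h3
  rw [h3, Pi.add_apply, h1, h2]

/-- The product rule with the coefficient `a`. -/
theorem pair2a {L : ℝ} (hL : 0 < L) {ρ ρ' a a' : ℝ → ℝ} (hρ : ∀ x, HasDerivAt ρ (ρ' x) x)
    (hc : Continuous ρ') (ha : ∀ x, HasDerivAt a (a' x) x) (hc' : Continuous a') (P Q : V1 L) :
    (Integrable (fun x => ρ x * (deriv (th L) x * a x * (V1.u L P x * V1.u L Q x) +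
      th L x * a' x * (V1.u L P x * V1.u L Q x) +
      th L x * a x * (V1.d L P x * V1.u L Q x + V1.u L P x * V1.d L Q x))) volume ∧
    Integrable (fun x => ρ' x * (th L x * a x * (V1.u L P x * V1.u L Q x))) volume ∧
    Integrable (fun x => ρ x * (th L x * a' x * (V1.u L P x * V1.u L Q x))) volume) ∧
    ∫ x, ρ x * (deriv (th L) x * a x * (V1.u L P x * V1.u L Q x) +
      th L x * a' x * (V1.u L P x * V1.u L Q x) +
      th L x * a x * (V1.d L P x * V1.u L Q x + V1.u L P x * V1.d L Q x)) =
      -∫ x, ρ' x * (th L x * a x * (V1.u L P x * V1.u L Q x)) := by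
  have hle : (-1 : ℝ) ≤ L + 1 := by linarith
  have hPr := Prim.of_deriv (a := -1) (b := L + 1) hρ hc
  have hPa := Prim.of_deriv (a := -1) (b := L + 1) ha hc'
  have hPt := Prim.of_deriv (a := -1) (b := L + 1) (th_deriv L) (dth_cont L)
  have hcρ : Continuous ρ := continuous_iff_continuousAt.2 fun x => (hρ x).continuousAt
  have hca : Continuous a := continuous_iff_continuousAt.2 fun x => (ha x).continuousAt
  have h4 := ((hPt.mul hle hPa).mul hle ((Prim.val P _ _).mul hle (Prim.val Q _ _)))
  have h5 := hPr.mul hle h4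
  have cP := (V1.val_cont P).continuousOn (s := uIcc (-1) (L + 1))
  have cQ := (V1.val_cont Q).continuousOn (s := uIcc (-1) (L + 1))
  have ct := (th_cont L).continuousOn (s := uIcc (-1) (L + 1))
  have ca := hca.continuousOn (s := uIcc (-1) (L + 1))
  have cr := hcρ.continuousOn (s := uIcc (-1) (L + 1))
  have hi1 : IntervalIntegrable (fun x => ρ x *
      ((deriv (th L) x * a x + th L x * a' x) * (P.val x * Q.val x) +
        th L x * a x * (V1.d L P x * Q.val x + P.val x * V1.d L Q x))) volume (-1) (L + 1) :=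
    h4.ii.continuousOn_mul cr
  have hi2 : IntervalIntegrable (fun x => ρ' x * (th L x * a x * (P.val x * Q.val x))) volume
      (-1) (L + 1) :=
    ContinuousOn.intervalIntegrable (hc.continuousOn.mul ((ct.mul ca).mul (cP.mul cQ)))
  have hi3 : IntervalIntegrable (fun x => ρ x * (th L x * a' x * (P.val x * Q.val x))) volume
      (-1) (L + 1) :=
    ContinuousOn.intervalIntegrable (cr.mul ((ct.mul hc'.continuousOn).mul (cP.mul cQ)))
  have k1 := Skw.cut hL (F := fun x => ρ x * (deriv (th L) x * a x * (V1.u L P x * V1.u L Q x) +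
      th L x * a' x * (V1.u L P x * V1.u L Q x) +
      th L x * a x * (V1.d L P x * V1.u L Q x + V1.u L P x * V1.d L Q x)))
    (by
      filter_upwards [V1.val_ae P, V1.val_ae Q] with x a1 a2 hx
      simp only [a1 hx, a2 hx]
      ring)
    (by
      refine Eventually.of_forall fun x hx => ?_
      simp only [th_out hx, dth_out hx, zero_mul, add_zero, mul_zero]) hi1
  have k2 := Skw.cut hL (F := fun x => ρ' x * (th L x * a x * (V1.u L P x * V1.u L Q x)))
    (by
      filter_upwards [V1.val_ae P, V1.val_ae Q] with x a1 a2 hx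
      simp only [a1 hx, a2 hx])
    (by
      refine Eventually.of_forall fun x hx => ?_
      simp only [th_out hx, zero_mul, mul_zero]) hi2
  have k3 := Skw.cut hL (F := fun x => ρ x * (th L x * a' x * (V1.u L P x * V1.u L Q x)))
    (by
      filter_upwards [V1.val_ae P, V1.val_ae Q] with x a1 a2 hx
      simp only [a1 hx, a2 hx])
    (by
      refine Eventually.of_forall fun x hx => ?_
      simp only [th_out hx, zero_mul, mul_zero]) hi3
  refine ⟨⟨k1.1, k2.1, k3.1⟩, ?_⟩
  have h6 := h5.fin hle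
  rw [intervalIntegral.integral_add hi2 hi1] at h6
  rw [k1.2, k2.2]
  rw [th_left (L := L) (x := -1) (by norm_num), th_right (L := L) (x := L + 1) (by linarith)] at h6
  linarith

theorem alg2t {H H1 : Fin n → Fin n → ℝ} (hH : ∀ j k, H j k = H k j)
    (r t t' : ℝ) (u d : Fin n → ℝ) :
    2 * ∑ j, (∑ k, (-(t * H j k) * d k + -(1 / 2 * t' * H j k + t * H1 j k) * u k)) *
        (r * u j) =
      ∑ j, ∑ k, (-(r * (t' * H j k * (u j * u k) + t * H1 j k * (u j * u k) +
        t * H j k * (d j * u k + u j * d k))) - r * (t * H1 j k * (u j * u k))) := by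
  have h1 : ∑ j, ∑ k, r * (t * H j k * (d j * u k)) = ∑ j, ∑ k, r * (t * H j k * (u j * d k)) := by
    rw [Finset.sum_comm]
    refine Finset.sum_congr rfl fun j _ => Finset.sum_congr rfl fun k _ => ?_
    rw [hH k j]
    ring
  have h2 : 2 * ∑ j, (∑ k, (-(t * H j k) * d k + -(1 / 2 * t' * H j k + t * H1 j k) * u k)) *
        (r * u j) = ∑ j, ∑ k, (-(2 * (r * (t * H j k * (u j * d k)))) +
          -(r * (t' * H j k * (u j * u k))) - 2 * (r * (t * H1 j k * (u j * u k)))) := by
    rw [Finset.mul_sum]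
    refine Finset.sum_congr rfl fun j _ => ?_
    rw [Finset.sum_mul, Finset.mul_sum]
    refine Finset.sum_congr rfl fun k _ => ?_
    ring
  rw [h2]
  have h3 : ∑ j, ∑ k, (-(2 * (r * (t * H j k * (u j * d k)))) +
          -(r * (t' * H j k * (u j * u k))) - 2 * (r * (t * H1 j k * (u j * u k)))) =
      -(∑ j, ∑ k, r * (t * H j k * (u j * d k))) - (∑ j, ∑ k, r * (t * H j k * (u j * d k))) +
        ∑ j, ∑ k, (-(r * (t' * H j k * (u j * u k))) - 2 * (r * (t * H1 j k * (u j * u k)))) := by
    simp only [← Finset.sum_neg_distrib, ← Finset.sum_sub_distrib, ← Finset.sum_add_distrib]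
    refine Finset.sum_congr rfl fun j _ => Finset.sum_congr rfl fun k _ => ?_
    ring
  rw [h3]
  nth_rewrite 2 [← h1]
  simp only [← Finset.sum_neg_distrib, ← Finset.sum_sub_distrib, ← Finset.sum_add_distrib]
  refine Finset.sum_congr rfl fun j _ => Finset.sum_congr rfl fun k _ => ?_
  ring

/-- The transport term against a general weight. -/
theorem pair_gen (p : Pr n) {ρ ρ' : ℝ → ℝ} (hρ : ∀ x, HasDerivAt ρ (ρ' x) x)
    (hc : Continuous ρ') (hX : ∀ x j, HasDerivAt (fun x => X x j) (X1 x j) x)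
    (hX1 : ∀ j, Continuous fun x => X1 x j) (z : VV n p.L) (y : HH n)
    (hy : ∀ j, ∀ᵐ x ∂volume, y j x = ρ x * uu j z x) :
    2 * inner ℝ (tmap n p.L p.g X X1 z) y =
      ∫ x, th p.L x * ∑ j, ∑ k, (ρ' x * Hm p.g (X x) j k - ρ x * Hm p.g (X1 x) j k) *
        uu j z x * uu k z x := by
  have hL := p.hL
  have key := fun j k => pair2a hL hρ hc (Hm_deriv p.g hX j k) (Hm_cont p.g hX1 j k) (z j) (z k)
  rw [Skw.inner_HH]
  have hsym : ∀ (Y : Fin n → ℝ) (j k : Fin n), Hm p.g Y j k = Hm p.g Y k j := by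
    intro Y j k
    unfold Hm
    exact Finset.sum_congr rfl fun l _ => by rw [p.g12]
  have h1 : 2 * ∫ x, ∑ j, tmap n p.L p.g X X1 z j x * y j x =
      ∫ x, ∑ j, ∑ k, (-(ρ x * (deriv (th p.L) x * Hm p.g (X x) j k *
        (V1.u p.L (z j) x * V1.u p.L (z k) x) +
        th p.L x * Hm p.g (X1 x) j k * (V1.u p.L (z j) x * V1.u p.L (z k) x) +
        th p.L x * Hm p.g (X x) j k * (V1.d p.L (z j) x * V1.u p.L (z k) x +
          V1.u p.L (z j) x * V1.d p.L (z k) x))) -
        ρ x * (th p.L x * Hm p.g (X1 x) j k * (V1.u p.L (z j) x * V1.u p.L (z k) x))) := by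
    rw [← integral_const_mul]
    refine integral_congr_ae ?_
    filter_upwards [ae_all_iff.mpr (fun j => tmap_ae p.L p.g hX hX1 z j), ae_all_iff.mpr hy]
      with x hx hx2
    rw [← alg2t (hsym (X x)) (ρ x) (th p.L x) (deriv (th p.L) x)
      (fun j => V1.u p.L (z j) x) (fun j => V1.d p.L (z j) x)]
    congr 1
    refine Finset.sum_congr rfl fun j _ => ?_
    rw [hx j, hx2 j]
    rfl
  have h2 : ∫ x, th p.L x * ∑ j, ∑ k, (ρ' x * Hm p.g (X x) j k - ρ x * Hm p.g (X1 x) j k) *
        uu j z x * uu k z x =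
      ∫ x, ∑ j, ∑ k, (ρ' x * (th p.L x * Hm p.g (X x) j k *
        (V1.u p.L (z j) x * V1.u p.L (z k) x)) -
        ρ x * (th p.L x * Hm p.g (X1 x) j k * (V1.u p.L (z j) x * V1.u p.L (z k) x))) := by
    refine integral_congr_ae (Eventually.of_forall fun x => ?_)
    simp only [Finset.mul_sum]
    refine Finset.sum_congr rfl fun j _ => Finset.sum_congr rfl fun k _ => ?_
    change th p.L x * ((ρ' x * Hm p.g (X x) j k - ρ x * Hm p.g (X1 x) j k) *
      V1.u p.L (z j) x * V1.u p.L (z k) x) = _
    ring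
  rw [h1, h2, integral_finsetSum, integral_finsetSum]
  · refine Finset.sum_congr rfl fun j _ => ?_
    rw [integral_finsetSum, integral_finsetSum]
    · refine Finset.sum_congr rfl fun k _ => ?_
      have e1 := integral_sub (key j k).1.1.neg (key j k).1.2.2
      have e2 := integral_neg (μ := (volume : Measure ℝ)) (fun x => ρ x * (deriv (th p.L) x *
        Hm p.g (X x) j k * (V1.u p.L (z j) x * V1.u p.L (z k) x) +
        th p.L x * Hm p.g (X1 x) j k * (V1.u p.L (z j) x * V1.u p.L (z k) x) +
        th p.L x * Hm p.g (X x) j k * (V1.d p.L (z j) x * V1.u p.L (z k) x +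
          V1.u p.L (z j) x * V1.d p.L (z k) x)))
      refine e1.trans ?_
      refine (congrArg₂ (fun a b : ℝ => a - b) e2 rfl).trans ?_
      rw [(key j k).2, neg_neg]
      exact (integral_sub (key j k).1.2.1 (key j k).1.2.2).symm
    · intro k _
      exact (key j k).1.2.1.sub (key j k).1.2.2
    · intro k _
      exact (key j k).1.1.neg.sub (key j k).1.2.2
  · intro j _
    exact integrable_finsetSum _ fun k _ => (key j k).1.2.1.sub (key j k).1.2.2
  · intro j _
    exact integrable_finsetSum _ fun k _ => (key j k).1.1.neg.sub (key j k).1.2.2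

end Inf10Aux

open Inf10Aux Inf09Aux

/-- INF10. -/
theorem pair_t (p : Pr n) (c : ℝ) {X X1 : ℝ → Fin n → ℝ} (hX : ∀ x j, HasDerivAt (fun x => X x j)
    (X1 x j) x) (hX1 : ∀ j, Continuous fun x => X1 x j) (z : VV n p.L) :
    2 * inner ℝ (tmap n p.L p.g X X1 z) (mulH (wt p.L c) (inc n p.L z)) =
      ∫ x, th p.L x * ∑ j, ∑ k, (Hm p.g (X x) j k - wt p.L c x * Hm p.g (X1 x) j k) *
        uu j z x * uu k z x := by
  rw [pair_gen p (fun x => wt_deriv p.L c x) (bb_cont p.L) hX hX1 z _ fun j =>
    mulH_ae (wt_cont p.L c) (wt_bdd p.L c) (inc n p.L z) j]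
  refine integral_congr_ae (Eventually.of_forall fun x => ?_)
  by_cases hx : x ∈ J p.L
  · simp only [bb_one (L := p.L) (x := x) (by linarith [hx.1]) (by linarith [hx.2]), one_mul]
  · simp only [th_out hx, zero_mul]

theorem energy_t (p : Pr n) {X X1 : ℝ → Fin n → ℝ} (hX : ∀ x j, HasDerivAt (fun x => X x j)
    (X1 x j) x) (hX1 : ∀ j, Continuous fun x => X1 x j) (z : VV n p.L) :
    2 * inner ℝ (tmap n p.L p.g X X1 z) (inc n p.L z) =
      -∫ x, th p.L x * ∑ j, ∑ k, Hm p.g (X1 x) j k * uu j z x * uu k z x := by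
  rw [pair_gen p (ρ := fun _ => 1) (ρ' := fun _ => 0) (fun x => hasDerivAt_const x 1)
    continuous_const hX hX1 z _ fun j => Eventually.of_forall fun x => by
      rw [one_mul]
      rfl, ← integral_neg]
  refine integral_congr_ae (Eventually.of_forall fun x => ?_)
  simp only [zero_mul, one_mul, zero_sub, neg_mul, Finset.sum_neg_distrib, mul_neg]

end Pool.Agent.KG
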