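import Pool.Agent.Lib.KG.Defs
import Pool.Agent.Lib.MP_78c35a_an.Agm

/-!
# The cubic bound (row Inf11)
-/

set_option autoImplicit false

namespace Pool.Agent.KG

namespace Inf11Aux

open MeasureTheory Filter Topology Set
open Pool.Agent.Kdv Pool.Agent.Kdv.QuadrAux
open scoped ENNReal ContDiff InnerProductSpace

variable {n : ℕ}

theorem young {A m w V : ℝ} (hA : 0 ≤ A) (hm : 0 < m) (hw : 0 ≤ w) (hV : 0 ≤ V) :
    A * (w * V ^ 3) ≤ m * w ^ 4 + A * (1 + A / m) * V ^ 4 := by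
  set κ : ℝ := 1 + A / m with hκ
  have hAm : 0 ≤ A / m := div_nonneg hA hm.le
  have hκ1 : 1 ≤ κ := by linarith
  have hκA : A ≤ m * κ := by
    rw [hκ, mul_add, mul_one, mul_div_cancel₀ _ hm.ne']
    linarith
  rcases le_total w (κ * V) with h | h
  · have h1 : A * (w * V ^ 3) ≤ A * (κ * V * V ^ 3) := by gcongr
    have h2 : 0 ≤ m * w ^ 4 := by positivity
    have h3 : A * (κ * V * V ^ 3) = A * κ * V ^ 4 := by ring
    linarith
  · have h1 : (κ * V) ^ 3 ≤ w ^ 3 := by gcongr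
    have h2 : κ * V ^ 3 ≤ (κ * V) ^ 3 := by
      have h8 : κ ≤ κ ^ 3 := by
        calc κ = κ ^ 1 := (pow_one κ).symm
          _ ≤ κ ^ 3 := pow_le_pow_right₀ hκ1 (by norm_num)
      calc κ * V ^ 3 ≤ κ ^ 3 * V ^ 3 := mul_le_mul_of_nonneg_right h8 (by positivity)
        _ = (κ * V) ^ 3 := by ring
    have h3 : A * (w * V ^ 3) ≤ m * κ * (w * V ^ 3) := by gcongr
    have h4 : m * κ * (w * V ^ 3) = m * w * (κ * V ^ 3) := by ring
    have h5 : m * w * (κ * V ^ 3) ≤ m * w * w ^ 3 :=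
      mul_le_mul_of_nonneg_left (h2.trans h1) (by positivity)
    have h6 : 0 ≤ A * κ * V ^ 4 := by positivity
    have h7 : m * w * w ^ 3 = m * w ^ 4 := by ring
    linarith

theorem int_eq {L : ℝ} (hL : 0 < L) (z : VV n L) (j k l : Fin n) :
    Integrable (fun x => chi L x * (uu j z x * uu k z x * uu l z x)) volume ∧
      ∫ x, chi L x * (uu j z x * uu k z x * uu l z x) =
        inner ℝ (T (chi L) (z j) (uu k z)) (uu l z) := by
  have h1 : (fun x => T (chi L) (z j) (uu k z) x * uu l z x) =ᵐ[volume]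
      fun x => chi L x * (uu j z x * uu k z x * uu l z x) := by
    filter_upwards [T_ae hL (good_chi L) (z j) (uu k z)] with x hx
    rw [hx]
    change chi L x * uu j z x * uu k z x * uu l z x = _
    ring
  refine ⟨(AgmAux.mul_int _ _).congr h1, ?_⟩
  rw [← integral_congr_ae h1, L2.inner_def]
  refine integral_congr_ae (Eventually.of_forall fun x => ?_)
  simp [mul_comm]

theorem int_sum {L : ℝ} (hL : 0 < L) (g : Fin n → Fin n → Fin n → ℝ) (z : VV n L) :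
    ∫ x, chi L x * ∑ j, ∑ k, ∑ l, g j k l * uu j z x * uu k z x * uu l z x =
      ∑ j, ∑ k, ∑ l, g j k l * inner ℝ (T (chi L) (z j) (uu k z)) (uu l z) := by
  have e1 : (fun x => chi L x * ∑ j, ∑ k, ∑ l, g j k l * uu j z x * uu k z x * uu l z x) =
      fun x => ∑ j, ∑ k, ∑ l, g j k l * (chi L x * (uu j z x * uu k z x * uu l z x)) := by
    funext x
    simp only [Finset.mul_sum]
    refine Finset.sum_congr rfl fun j _ => Finset.sum_congr rfl fun k _ =>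
      Finset.sum_congr rfl fun l _ => ?_
    ring
  have hi : ∀ j k l, Integrable (fun x => g j k l *
      (chi L x * (uu j z x * uu k z x * uu l z x))) volume := fun j k l =>
    (int_eq hL z j k l).1.const_mul _
  rw [e1, integral_finsetSum _ fun j _ => integrable_finsetSum _ fun k _ =>
    integrable_finsetSum _ fun l _ => hi j k l]
  refine Finset.sum_congr rfl fun j _ => ?_
  rw [integral_finsetSum _ fun k _ => integrable_finsetSum _ fun l _ => hi j k l]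
  refine Finset.sum_congr rfl fun k _ => ?_
  rw [integral_finsetSum _ fun l _ => hi j k l]
  refine Finset.sum_congr rfl fun l _ => ?_
  rw [integral_const_mul, (int_eq hL z j k l).2]

end Inf11Aux

open Inf11Aux
open MeasureTheory Filter Topology Set
open Pool.Agent.Kdv Pool.Agent.Kdv.QuadrAux
open scoped ENNReal ContDiff InnerProductSpace

variable {n : ℕ}

/-- INF11. The cubic term. -/
theorem cubic_bound (p : Pr n) (m : ℝ) (hm : 0 < m) : ∃ C : ℝ, 0 ≤ C ∧ ∀ z : VV n p.L,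
    2 / 3 * |∫ x, chi p.L x * ∑ j, ∑ k, ∑ l, p.g j k l * uu j z x * uu k z x * uu l z x| ≤
      m * ∑ j, ‖dd j z‖ ^ 2 +
        C * (‖inc n p.L z‖ ^ 2 * (‖inc n p.L z‖ + ‖inc n p.L z‖ ^ (4 / 3 : ℝ))) := by
  obtain ⟨K, hK, hT⟩ := T_norm p.hL
  obtain ⟨G, hG⟩ : ∃ G : ℝ, G = ∑ j, ∑ k, ∑ l, |p.g j k l| := ⟨_, rfl⟩
  have hG0 : 0 ≤ G := by
    rw [hG]
    positivity
  obtain ⟨A, hA⟩ : ∃ A : ℝ, A = 2 / 3 * (G * K) := ⟨_, rfl⟩
  have hA0 : 0 ≤ A := by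
    rw [hA]
    positivity
  have hA1 : 0 ≤ A * (1 + A / m) := by positivity
  refine ⟨A + A * (1 + A / m), add_nonneg hA0 hA1, fun z => ?_⟩
  obtain ⟨a, ha⟩ : ∃ a : ℝ, a = ‖inc n p.L z‖ := ⟨_, rfl⟩
  rw [← ha]
  have ha0 : 0 ≤ a := ha ▸ norm_nonneg _
  obtain ⟨D, hD⟩ : ∃ D : ℝ, D = √(∑ j, ‖dd j z‖ ^ 2) := ⟨_, rfl⟩
  have hD0 : 0 ≤ D := hD ▸ Real.sqrt_nonneg _
  obtain ⟨w, hw⟩ : ∃ w : ℝ, w = √D := ⟨_, rfl⟩
  have hw0 : 0 ≤ w := hw ▸ Real.sqrt_nonneg _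
  have hw2 : w ^ 2 = D := hw ▸ Real.sq_sqrt hD0
  have hw4 : w ^ 4 = ∑ j, ‖dd j z‖ ^ 2 := by
    have h1 : w ^ 4 = (w ^ 2) ^ 2 := by ring
    rw [h1, hw2, hD, Real.sq_sqrt (Finset.sum_nonneg fun j _ => sq_nonneg _)]
  obtain ⟨r, hr⟩ : ∃ r : ℝ, r = √a := ⟨_, rfl⟩
  have hr0 : 0 ≤ r := hr ▸ Real.sqrt_nonneg _
  have hr2 : r ^ 2 = a := hr ▸ Real.sq_sqrt ha0
  have hu : ∀ j, ‖uu j z‖ ≤ a := fun j => ha ▸ norm_comp_le (inc n p.L z) j
  have hd : ∀ j, ‖dd j z‖ ≤ D := by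
    intro j
    rw [hD]
    refine Real.le_sqrt_of_sq_le ?_
    exact Finset.single_le_sum (f := fun j => ‖dd j z‖ ^ 2) (fun j _ => sq_nonneg _)
      (Finset.mem_univ j)
  have hz : ∀ j, ‖z j‖ ≤ a + D := by
    intro j
    have h1 := V1.norm_le (z j)
    have h2 : ‖V1.u p.L (z j)‖ ≤ a := hu j
    have h3 : ‖V1.d p.L (z j)‖ ≤ D := hd j
    refine abs_le_of_sq_le_sq' ?_ (by positivity) |>.2
    have h4 : ‖V1.u p.L (z j)‖ ^ 2 ≤ a ^ 2 := by gcongr
    have h5 : ‖V1.d p.L (z j)‖ ^ 2 ≤ D ^ 2 := by gcongr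
    nlinarith [mul_nonneg ha0 hD0]
  have hsz : ∀ j, sz (z j) ≤ a + r * w := by
    intro j
    unfold sz
    refine Real.sqrt_le_iff.2 ⟨by positivity, ?_⟩
    have h1 : ‖V1.u p.L (z j)‖ * ‖z j‖ ≤ a * (a + D) :=
      mul_le_mul (hu j) (hz j) (norm_nonneg _) ha0
    have h2 : (a + r * w) ^ 2 = a ^ 2 + 2 * (a * (r * w)) + r ^ 2 * w ^ 2 := by ring
    rw [h2, hr2, hw2]
    have h3 : 0 ≤ a * (r * w) := by positivity
    nlinarith
  have hin : ∀ j k l, |(inner ℝ (T (chi p.L) (z j) (uu k z)) (uu l z) : ℝ)| ≤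
      K * (a + r * w) * a ^ 2 := by
    intro j k l
    have h1 := hT _ (good_chi p.L) (z j) (uu k z)
    have h2 : K * sz (z j) * ‖uu k z‖ ≤ K * (a + r * w) * a :=
      mul_le_mul (mul_le_mul_of_nonneg_left (hsz j) hK) (hu k) (norm_nonneg _) (by positivity)
    calc |(inner ℝ (T (chi p.L) (z j) (uu k z)) (uu l z) : ℝ)|
        ≤ ‖T (chi p.L) (z j) (uu k z)‖ * ‖uu l z‖ := abs_real_inner_le_norm _ _
      _ ≤ (K * (a + r * w) * a) * a :=
        mul_le_mul (h1.trans h2) (hu l) (norm_nonneg _) (by positivity)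
      _ = _ := by ring
  have hI : |∫ x, chi p.L x * ∑ j, ∑ k, ∑ l, p.g j k l * uu j z x * uu k z x * uu l z x| ≤
      G * (K * (a + r * w) * a ^ 2) := by
    rw [int_sum p.hL, hG, Finset.sum_mul]
    refine (Finset.abs_sum_le_sum_abs _ _).trans (Finset.sum_le_sum fun j _ => ?_)
    rw [Finset.sum_mul]
    refine (Finset.abs_sum_le_sum_abs _ _).trans (Finset.sum_le_sum fun k _ => ?_)
    rw [Finset.sum_mul]
    refine (Finset.abs_sum_le_sum_abs _ _).trans (Finset.sum_le_sum fun l _ => ?_)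
    rw [abs_mul]
    exact mul_le_mul_of_nonneg_left (hin j k l) (abs_nonneg _)
  obtain ⟨V, hV⟩ : ∃ V : ℝ, V = a ^ (5 / 6 : ℝ) := ⟨_, rfl⟩
  have hV0 : 0 ≤ V := hV ▸ Real.rpow_nonneg ha0 _
  have hV3 : V ^ 3 = a ^ 2 * r := by
    rw [hV, hr, Real.sqrt_eq_rpow, ← Real.rpow_natCast a 2, ← Real.rpow_mul_natCast ha0]
    rcases ha0.eq_or_lt with h | h
    · rw [← h]
      norm_num
    · rw [← Real.rpow_add h]
      norm_num
  have hV4 : V ^ 4 = a ^ 2 * a ^ (4 / 3 : ℝ) := by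
    rw [hV, ← Real.rpow_natCast a 2, ← Real.rpow_mul_natCast ha0]
    rcases ha0.eq_or_lt with h | h
    · rw [← h]
      norm_num
    · rw [← Real.rpow_add h]
      norm_num
  have hy := young hA0 hm hw0 hV0
  rw [hV3, hV4, hw4] at hy
  have hfin : 2 / 3 * (G * (K * (a + r * w) * a ^ 2)) = A * (a ^ 2 * a) + A * (w * (a ^ 2 * r)) := by
    rw [hA]
    ring
  have h43 : 0 ≤ a ^ (4 / 3 : ℝ) := Real.rpow_nonneg ha0 _
  have h1 : 0 ≤ A * (a ^ 2 * a ^ (4 / 3 : ℝ)) := by positivity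
  have h2 : 0 ≤ A * (1 + A / m) * (a ^ 2 * a) := by positivity
  have h3 : (A + A * (1 + A / m)) * (a ^ 2 * (a + a ^ (4 / 3 : ℝ))) =
      A * (a ^ 2 * a) + A * (a ^ 2 * a ^ (4 / 3 : ℝ)) + A * (1 + A / m) * (a ^ 2 * a) +
        A * (1 + A / m) * (a ^ 2 * a ^ (4 / 3 : ℝ)) := by ring
  rw [h3]
  have h4 : 2 / 3 * |∫ x, chi p.L x *
      ∑ j, ∑ k, ∑ l, p.g j k l * uu j z x * uu k z x * uu l z x| ≤
      2 / 3 * (G * (K * (a + r * w) * a ^ 2)) := by linarith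
  linarith

end Pool.Agent.KG
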