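import Pool.Agent.Lib.KG.Inf02
import Pool.Agent.Lib.MP_78c35a_an.Gen
import Pool.Agent.Lib.MP_78c35a_an.Par

/-!
# Smooth backgrounds: the force of a smooth curve (row Inf12a)

`traj_of_curve` for the scalar group `U t = airy (μ t)` with `b t = toL2 (φ t)`,
`β t = toL2 (φt t)`, `G t = μ • toL2 (iteratedDeriv 3 (φ t))`; the hypothesis `gen` is `airy_gen`
after the change of variables `s ↦ μ s` (as in `FuncAux.gen_psi`). Continuity in `L²` and the
integral formula for `b`: uniform continuity, common compact support. The lift: `V1.exists_of`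
(it is continuous in time, hence measurable and bounded).
-/

set_option autoImplicit false

namespace Pool.Agent.KG

open MeasureTheory Filter Topology Set
open Pool.Agent.Kdv
open scoped ENNReal ContDiff InnerProductSpace

variable {n : ℕ}

namespace Inf12aAux

theorem supp {R : ℝ} {F : ℝ → ℝ} (hz : ∀ x, R ≤ |x| → F x = 0) : HasCompactSupport F := by
  refine HasCompactSupport.intro (isCompact_Icc (a := -R) (b := R)) fun x hx => hz x ?_
  by_contra h
  push Not at h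
  exact hx ⟨(abs_lt.1 h).1.le, (abs_lt.1 h).2.le⟩

theorem mem {R : ℝ} {F : ℝ → ℝ} (hc : Continuous F) (hz : ∀ x, R ≤ |x| → F x = 0) :
    MemLp F 2 volume := hc.memLp_of_hasCompactSupport (supp hz)

/-- The norm of a bounded function with bounded support. -/
theorem nrm {R ε : ℝ} (hR : 0 < R) (hε : 0 ≤ ε) {F : ℝ → ℝ} (hc : Continuous F)
    (hz : ∀ x, R ≤ |x| → F x = 0) (hb : ∀ x, |F x| ≤ ε) : ‖toL2 F‖ ≤ ε * √(2 * R) := by
  have h1 : ‖toL2 F‖ ^ 2 = ∫ x, F x ^ 2 := by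
    rw [ks_norm_sq]
    refine integral_congr_ae ?_
    filter_upwards [toL2_ae (mem hc hz)] with x hx
    rw [hx]
  have h2 : ∫ x, F x ^ 2 = ∫ x in Icc (-R) R, F x ^ 2 := by
    symm
    refine setIntegral_eq_integral_of_forall_compl_eq_zero fun x hx => ?_
    rw [hz x ?_]
    · norm_num
    · by_contra h
      push Not at h
      exact hx ⟨(abs_lt.1 h).1.le, (abs_lt.1 h).2.le⟩
  have h3 : ∫ x in Icc (-R) R, F x ^ 2 ≤ ε ^ 2 * (2 * R) := by
    have h4 : ∫ x in Icc (-R) R, F x ^ 2 ≤ ∫ _x in Icc (-R) R, ε ^ 2 := by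
      refine setIntegral_mono_on ?_ ?_ measurableSet_Icc fun x _ => ?_
      · exact (hc.pow 2).continuousOn.integrableOn_compact isCompact_Icc
      · exact continuousOn_const.integrableOn_compact isCompact_Icc
      · rw [← sq_abs]
        exact pow_le_pow_left₀ (abs_nonneg _) (hb x) 2
    refine h4.trans ?_
    rw [setIntegral_const, smul_eq_mul, mul_comm]
    have h5 : (volume : Measure ℝ).real (Icc (-R) R) = 2 * R := by
      rw [Real.volume_real_Icc_of_le (by linarith)]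
      ring
    rw [h5]
  have h6 : ‖toL2 F‖ ^ 2 ≤ (ε * √(2 * R)) ^ 2 := by
    rw [mul_pow, Real.sq_sqrt (by positivity), h1, h2]
    exact h3
  exact le_of_sq_le_sq h6 (by positivity)

theorem sub_eq {F G : ℝ → ℝ} (hF : MemLp F 2 volume) (hG : MemLp G 2 volume) :
    toL2 F - toL2 G = toL2 fun x => F x - G x := by
  symm
  refine toL2_eq ?_
  filter_upwards [Lp.coeFn_sub (toL2 F) (toL2 G), toL2_ae hF, toL2_ae hG] with x h1 h2 h3
  rw [h1, Pi.sub_apply, h2, h3]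

theorem smul_eq {F : ℝ → ℝ} (c : ℝ) (hF : MemLp F 2 volume) :
    c • toL2 F = toL2 fun x => c * F x := by
  symm
  refine toL2_eq ?_
  filter_upwards [Lp.coeFn_smul c (toL2 F), toL2_ae hF] with x h1 h2
  rw [h1, Pi.smul_apply, h2, smul_eq_mul]

theorem add_eq {F G : ℝ → ℝ} (hF : MemLp F 2 volume) (hG : MemLp G 2 volume) :
    toL2 F + toL2 G = toL2 fun x => F x + G x := by
  symm
  refine toL2_eq ?_
  filter_upwards [Lp.coeFn_add (toL2 F) (toL2 G), toL2_ae hF, toL2_ae hG] with x h1 h2 h3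
  rw [h1, Pi.add_apply, h2, h3]

section

variable {T R : ℝ} {ψ : ℝ → ℝ → ℝ}

theorem cts (hc : ContinuousOn (Function.uncurry ψ) (Icc 0 T ×ˢ univ)) {t : ℝ}
    (ht : t ∈ Icc 0 T) : Continuous (ψ t) := by
  have h1 : Continuous fun x : ℝ => ((t, x) : ℝ × ℝ) := by fun_prop
  have h2 := hc.comp_continuous h1 (fun x => ⟨ht, mem_univ x⟩)
  exact h2

/-- Uniform continuity in time. -/
theorem unif (hc : ContinuousOn (Function.uncurry ψ) (Icc 0 T ×ˢ univ))
    (hz : ∀ t ∈ Icc 0 T, ∀ x, R ≤ |x| → ψ t x = 0) {ε : ℝ} (hε : 0 < ε) :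
    ∃ δ : ℝ, 0 < δ ∧ ∀ s ∈ Icc 0 T, ∀ t ∈ Icc 0 T, |s - t| < δ → ∀ x, |ψ s x - ψ t x| ≤ ε := by
  have hK : IsCompact (Icc 0 T ×ˢ Icc (-R) R) := isCompact_Icc.prod isCompact_Icc
  have h1 : UniformContinuousOn (Function.uncurry ψ) (Icc 0 T ×ˢ Icc (-R) R) :=
    hK.uniformContinuousOn_of_continuous (hc.mono (prod_mono_right (subset_univ _)))
  obtain ⟨δ, hδ, h2⟩ := Metric.uniformContinuousOn_iff.1 h1 ε hε
  refine ⟨δ, hδ, fun s hs t ht hst x => ?_⟩
  by_cases hx : R ≤ |x|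
  · rw [hz s hs x hx, hz t ht x hx, sub_self, abs_zero]
    exact hε.le
  · push Not at hx
    have hx' : x ∈ Icc (-R) R := ⟨(abs_lt.1 hx).1.le, (abs_lt.1 hx).2.le⟩
    have h3 := h2 (s, x) ⟨hs, hx'⟩ (t, x) ⟨ht, hx'⟩ (by
      rw [Prod.dist_eq, dist_self, Real.dist_eq]
      exact max_lt hst hδ)
    rw [Real.dist_eq] at h3
    exact h3.le

/-- Continuity in `L²`. -/
theorem ctl (hR : 0 < R) (hc : ContinuousOn (Function.uncurry ψ) (Icc 0 T ×ˢ univ))
    (hz : ∀ t ∈ Icc 0 T, ∀ x, R ≤ |x| → ψ t x = 0) :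
    ContinuousOn (fun t => toL2 (ψ t)) (Icc 0 T) := by
  rw [Metric.continuousOn_iff]
  intro t ht ε hε
  have hq : 0 < √(2 * R) := Real.sqrt_pos.2 (by positivity)
  obtain ⟨δ, hδ, h⟩ := unif hc hz (ε := ε / (2 * √(2 * R))) (by positivity)
  refine ⟨δ, hδ, fun s hs hst => ?_⟩
  rw [dist_eq_norm, sub_eq (mem (cts hc hs) (hz s hs)) (mem (cts hc ht) (hz t ht))]
  have h1 := nrm hR (ε := ε / (2 * √(2 * R))) (by positivity)
    (F := fun x => ψ s x - ψ t x) ((cts hc hs).sub (cts hc ht))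
    (fun x hx => by rw [hz s hs x hx, hz t ht x hx, sub_self]) (h s hs t ht hst)
  refine lt_of_le_of_lt h1 ?_
  have h2 : ε / (2 * √(2 * R)) * √(2 * R) = ε / 2 := by
    field_simp
  rw [h2]
  linarith

variable {φt : ℝ → ℝ → ℝ}

/-- The derivative in `L²`. -/
theorem der (hR : 0 < R) (hψ : ContinuousOn (Function.uncurry ψ) (Icc 0 T ×ˢ univ))
    (hz : ∀ t ∈ Icc 0 T, ∀ x, R ≤ |x| → ψ t x = 0)
    (hc : ContinuousOn (Function.uncurry φt) (Icc 0 T ×ˢ univ))
    (hz' : ∀ t ∈ Icc 0 T, ∀ x, R ≤ |x| → φt t x = 0)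
    (hd : ∀ x, ∀ t ∈ Icc 0 T, HasDerivWithinAt (fun s => ψ s x) (φt t x) (Icc 0 T) t)
    {t : ℝ} (ht : t ∈ Ioo 0 T) : HasDerivAt (fun t => toL2 (ψ t)) (toL2 (φt t)) t := by
  rw [hasDerivAt_iff_isLittleO, Asymptotics.isLittleO_iff]
  intro c hc0
  have hq : 0 < √(2 * R) := Real.sqrt_pos.2 (by positivity)
  have htI : t ∈ Icc 0 T := Ioo_subset_Icc_self ht
  obtain ⟨δ, hδ, h⟩ := unif hc hz' (ε := c / √(2 * R)) (by positivity)
  have h1 : Ioo 0 T ∈ 𝓝 t := Ioo_mem_nhds ht.1 ht.2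
  filter_upwards [h1, Metric.ball_mem_nhds t hδ] with s hs hs2
  have hsI : s ∈ Icc 0 T := Ioo_subset_Icc_self hs
  have hst : |s - t| < δ := by
    rw [Metric.mem_ball, Real.dist_eq] at hs2
    exact hs2
  rw [sub_eq (mem (cts hψ hsI) (hz s hsI)) (mem (cts hψ htI) (hz t htI)),
    smul_eq (s - t) (mem (cts hc htI) (hz' t htI)), sub_eq (F := fun x => ψ s x - ψ t x)
      (G := fun x => (s - t) * φt t x) ((mem (cts hψ hsI) (hz s hsI)).sub (mem (cts hψ htI) (hz t htI)))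
      ((mem (cts hc htI) (hz' t htI)).const_mul (s - t))]
  have h2 : ∀ x, |ψ s x - ψ t x - (s - t) * φt t x| ≤ c / √(2 * R) * |s - t| := by
    intro x
    have hsub : uIcc t s ⊆ Icc 0 T := uIcc_subset_Icc htI hsI
    have h3 : ∀ r ∈ uIcc t s, HasDerivWithinAt (fun r => ψ r x - r * φt t x)
        (φt r x - φt t x) (uIcc t s) r := by
      intro r hr
      have h4 := (hd x r (hsub hr)).mono hsub
      have h5 : HasDerivWithinAt (fun r : ℝ => r * φt t x) (φt t x) (uIcc t s) r := by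
        simpa using (hasDerivWithinAt_id r (uIcc t s)).mul_const (φt t x)
      exact h4.sub h5
    have h6 : ∀ r ∈ uIcc t s, ‖φt r x - φt t x‖ ≤ c / √(2 * R) := by
      intro r hr
      rw [Real.norm_eq_abs]
      refine h r (hsub hr) t htI ?_ x
      refine lt_of_le_of_lt ?_ hst
      exact abs_sub_left_of_mem_uIcc hr
    have h7 := (convex_uIcc t s).norm_image_sub_le_of_norm_hasDerivWithin_le h3 h6
      (left_mem_uIcc) (right_mem_uIcc)
    rw [Real.norm_eq_abs, Real.norm_eq_abs] at h7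
    refine le_trans (le_of_eq ?_) h7
    congr 1
    ring
  have h8 := nrm hR (ε := c / √(2 * R) * |s - t|) (by positivity)
    (F := fun x => ψ s x - ψ t x - (s - t) * φt t x)
    (((cts hψ hsI).sub (cts hψ htI)).sub (continuous_const.mul (cts hc htI)))
    (fun x hx => by
      rw [hz s hsI x hx, hz t htI x hx, hz' t htI x hx]
      ring) h2
  refine le_trans h8 (le_of_eq ?_)
  rw [Real.norm_eq_abs]
  field_simp

end

end Inf12aAux

open Inf12aAux in
theorem bg_path {L μ : ℝ} (hL : 0 < L) (hμ : 0 < μ) {T R : ℝ} (hT : 0 < T) {φ φt : ℝ → ℝ → ℝ}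
    (h1 : ∀ t ∈ Icc 0 T, ContDiff ℝ ∞ (φ t)) (h2 : ∀ t ∈ Icc 0 T, ∀ x, R ≤ |x| → φ t x = 0)
    (h3 : ∀ x, ∀ t ∈ Icc 0 T, HasDerivWithinAt (fun s => φ s x) (φt t x) (Icc 0 T) t)
    (h4 : ContinuousOn (Function.uncurry φt) (Icc 0 T ×ˢ univ))
    (h5 : ∀ k ≤ 3, ContinuousOn (fun q : ℝ × ℝ => iteratedDeriv k (φ q.1) q.2) (Icc 0 T ×ˢ univ)) :
    ∃ v : ℝ → V1 L, (sm1 hL hμ).Path (toL2 (φ 0)) T
        (fun t => toL2 fun x => φt t x + μ * iteratedDeriv 3 (φ t) x) v ∧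
      (∀ t ∈ Icc 0 T, V1.u L (v t) = toL2 (φ t)) ∧
      (∀ t ∈ Icc 0 T, ∀ᵐ x ∂volume, x ∈ J L → V1.d L (v t) x = deriv (φ t) x) ∧
      ∀ t ∈ Icc 0 T, (sm1 hL hμ).traj (toL2 (φ 0))
        (fun t => toL2 fun x => φt t x + μ * iteratedDeriv 3 (φ t) x) t = toL2 (φ t) := by
  classical
  -- a common support
  obtain ⟨R', hR', hRR'⟩ : ∃ R' : ℝ, 0 < R' ∧ R < R' :=
    ⟨|R| + 1, by positivity, lt_of_le_of_lt (le_abs_self R) (lt_add_one _)⟩
  have hk : ∀ k, ∀ t ∈ Icc 0 T, ∀ x, R' ≤ |x| → iteratedDeriv k (φ t) x = 0 := by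
    intro k t ht x hx
    have e1 : φ t =ᶠ[𝓝 x] fun _ => (0 : ℝ) := by
      have h6 : {y : ℝ | R < |y|} ∈ 𝓝 x :=
        (isOpen_lt continuous_const continuous_abs).mem_nhds (lt_of_lt_of_le hRR' hx)
      filter_upwards [h6] with y hy
      exact h2 t ht y (le_of_lt hy)
    rw [e1.iteratedDeriv_eq, iteratedDeriv_const]
    split_ifs <;> rfl
  have hzφ : ∀ t ∈ Icc 0 T, ∀ x, R' ≤ |x| → φ t x = 0 := fun t ht x hx =>
    h2 t ht x (hRR'.le.trans hx)
  have hzt : ∀ t ∈ Icc 0 T, ∀ x, R' ≤ |x| → φt t x = 0 := by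
    intro t ht x hx
    have h6 := h3 x t ht
    have h7 : HasDerivWithinAt (fun s => φ s x) 0 (Icc 0 T) t :=
      (hasDerivWithinAt_const t (Icc 0 T) (0 : ℝ)).congr (fun s hs => hzφ s hs x hx)
        (hzφ t ht x hx)
    exact (uniqueDiffOn_Icc hT t ht).eq_deriv _ h6 h7
  have hcφ : ContinuousOn (Function.uncurry φ) (Icc 0 T ×ˢ univ) := by
    have h6 := h5 0 (by norm_num)
    simp only [iteratedDeriv_zero] at h6
    exact h6
  have hcd : ContinuousOn (Function.uncurry fun t => deriv (φ t)) (Icc 0 T ×ˢ univ) := by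
    have h6 := h5 1 (by norm_num)
    simp only [iteratedDeriv_one] at h6
    exact h6
  have hzd : ∀ t ∈ Icc 0 T, ∀ x, R' ≤ |x| → deriv (φ t) x = 0 := by
    intro t ht x hx
    rw [← iteratedDeriv_one]
    exact hk 1 t ht x hx
  have hc3 : ContinuousOn (Function.uncurry fun t => iteratedDeriv 3 (φ t))
      (Icc 0 T ×ˢ univ) := h5 3 le_rfl
  -- the curves in `L²`
  have cb := ctl hR' hcφ hzφ
  have cβ := ctl hR' h4 hzt
  have cG : ContinuousOn (fun t => μ • toL2 (iteratedDeriv 3 (φ t))) (Icc 0 T) :=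
    (ctl hR' hc3 (hk 3)).const_smul μ
  have hint : ∀ t ∈ Icc 0 T, toL2 (φ t) = toL2 (φ 0) + ∫ s in (0 : ℝ)..t, toL2 (φt s) := by
    intro t ht
    have h6 := intervalIntegral.integral_eq_sub_of_hasDerivAt_of_le (a := 0) (b := t) ht.1
      (f := fun t => toL2 (φ t)) (f' := fun t => toL2 (φt t))
      (cb.mono (Icc_subset_Icc_right ht.2))
      (fun s hs => der hR' hcφ hzφ h4 hzt h3 ⟨hs.1, lt_of_lt_of_le hs.2 ht.2⟩)
      ((cβ.mono (Icc_subset_Icc_right ht.2)).intervalIntegrable_of_Icc ht.1)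
    rw [h6]
    abel
  have hgen : ∀ t ∈ Icc 0 T, ∀ u, (sm1 hL hμ).U (-u) (toL2 (φ t)) = toL2 (φ t) +
      ∫ s in (0 : ℝ)..u, (sm1 hL hμ).U (-s) (μ • toL2 (iteratedDeriv 3 (φ t))) := by
    intro t ht u
    change airy (μ * (-u)) (toL2 (φ t)) = toL2 (φ t) +
      ∫ s in (0 : ℝ)..u, airy (μ * (-s)) (μ • toL2 (iteratedDeriv 3 (φ t)))
    rw [mul_neg, airy_gen (h1 t ht) (supp (hzφ t ht))]
    congr 1
    have e2 : ∀ s : ℝ, airy (μ * (-s)) (μ • toL2 (iteratedDeriv 3 (φ t))) =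
        μ • airy (-(μ * s)) (toL2 (iteratedDeriv 3 (φ t))) := by
      intro s
      rw [mul_neg, map_smul]
    simp only [e2]
    rw [intervalIntegral.integral_smul,
      intervalIntegral.smul_integral_comp_mul_left
        (fun s => airy (-s) (toL2 (iteratedDeriv 3 (φ t)))) μ, mul_zero]
  -- the force
  have hf : ∀ t ∈ Icc 0 T, (toL2 fun x => φt t x + μ * iteratedDeriv 3 (φ t) x) =
      toL2 (φt t) + μ • toL2 (iteratedDeriv 3 (φ t)) := by
    intro t ht
    have m1 := mem (cts h4 ht) (hzt t ht)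
    have m2 := mem (cts hc3 ht) (hk 3 t ht)
    rw [smul_eq μ m2, add_eq m1 (m2.const_mul μ)]
  have htraj : ∀ t ∈ Icc 0 T, (sm1 hL hμ).traj (toL2 (φ 0))
      (fun t => toL2 fun x => φt t x + μ * iteratedDeriv 3 (φ t) x) t = toL2 (φ t) := by
    intro t ht
    rw [Sm.traj_congr (g := fun t => toL2 (φt t) + μ • toL2 (iteratedDeriv 3 (φ t))) _ _ ht.1]
    · exact traj_of_curve (sm1 hL hμ) hT.le (b := fun t => toL2 (φ t)) cβ cG hint hgen t ht
    · filter_upwards [ae_restrict_mem measurableSet_Ioc] with s hs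
      exact hf s ⟨hs.1.le, hs.2.trans ht.2⟩
  -- the lift
  have hex : ∀ t, ∃ p : V1 L, t ∈ Icc 0 T → V1.u L p = toL2 (φ t) ∧
      ∀ᵐ x ∂volume, x ∈ J L → V1.d L p x = deriv (φ t) x := by
    intro t
    by_cases ht : t ∈ Icc 0 T
    · obtain ⟨p, hp1, hp2, _⟩ := V1.exists_of (L := L) (mem (cts hcφ ht) (hzφ t ht))
        (fun x => (((h1 t ht).differentiable (by simp)) x).hasDerivAt) (cts hcd ht)
      exact ⟨p, fun _ => ⟨hp1, hp2⟩⟩
    · exact ⟨0, fun h => absurd h ht⟩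
  choose v hv using hex
  have hvc : ContinuousOn v (Icc 0 T) := by
    rw [Topology.IsInducing.subtypeVal.continuousOn_iff]
    have h6 : ContinuousOn (fun t => V1.u L (v t)) (Icc 0 T) :=
      cb.congr fun t ht => (hv t ht).1
    have hm : Measurable ((J L).indicator (1 : ℝ → ℝ)) := by
      refine measurable_one.indicator ?_
      exact measurableSet_Ioo
    have hbd : ∃ C, ∀ x, |(J L).indicator (1 : ℝ → ℝ) x| ≤ C := by
      refine ⟨1, fun x => ?_⟩
      by_cases hx : x ∈ J L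
      · rw [indicator_of_mem hx]
        simp
      · rw [indicator_of_notMem hx]
        simp
    have h7 : ContinuousOn (fun t => V1.d L (v t)) (Icc 0 T) := by
      have h8 : ContinuousOn (fun t => mulOp ((J L).indicator (1 : ℝ → ℝ)) (toL2 (deriv (φ t))))
          (Icc 0 T) := (mulOp ((J L).indicator (1 : ℝ → ℝ))).continuous.comp_continuousOn
            (ctl hR' hcd hzd)
      refine h8.congr fun t ht => ?_
      apply Lp.ext
      have h9 : ∀ᵐ x ∂volume, x ∉ J L → V1.d L (v t) x = 0 := (v t).2.1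
      filter_upwards [mulOp_ae hm hbd (toL2 (deriv (φ t))), (hv t ht).2, h9,
        toL2_ae (mem (cts hcd ht) (hzd t ht))] with x g1 g2 g3 g4
      by_cases hx : x ∈ J L
      · rw [g1, g2 hx, g4, indicator_of_mem hx, Pi.one_apply, one_mul]
      · rw [g1, g3 hx, indicator_of_notMem hx, zero_mul]
    exact h6.prodMk h7
  refine ⟨v, ⟨?_, ?_, ?_, ?_⟩, fun t ht => (hv t ht).1, fun t ht => (hv t ht).2, htraj⟩
  · have h6 : ContinuousOn (fun t => toL2 fun x => φt t x + μ * iteratedDeriv 3 (φ t) x)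
        (Icc 0 T) := (cβ.add cG).congr hf
    exact (h6.integrableOn_compact isCompact_Icc).mono_set Ioc_subset_Icc_self
  · exact (hvc.mono Ioc_subset_Icc_self).aestronglyMeasurable measurableSet_Ioc
  · obtain ⟨C, hC⟩ := isCompact_Icc.exists_bound_of_continuousOn hvc
    have h6 : ∫⁻ t in Ioc (0 : ℝ) T, ‖v t‖ₑ ^ 2 ≤ ∫⁻ _t in Ioc (0 : ℝ) T,
        ENNReal.ofReal (C ^ 2) := by
      refine setLIntegral_mono measurable_const fun t ht => ?_
      rw [← ofReal_norm, ← ENNReal.ofReal_pow (norm_nonneg _)]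
      exact ENNReal.ofReal_le_ofReal
        (pow_le_pow_left₀ (norm_nonneg _) (hC t (Ioc_subset_Icc_self ht)) 2)
    refine lt_of_le_of_lt h6 ?_
    rw [setLIntegral_const]
    exact ENNReal.mul_lt_top ENNReal.ofReal_lt_top measure_Ioc_lt_top
  · filter_upwards [ae_restrict_mem measurableSet_Ioc] with t ht
    have ht' := Ioc_subset_Icc_self ht
    rw [htraj t ht']
    exact (hv t ht').1

end Pool.Agent.KG
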