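import Pool.Agent.Lib.KG.InfDef
import Pool.Agent.Lib.KG.Inf12a

/-!
# Smooth backgrounds (row Inf12)
-/

set_option autoImplicit false

namespace Pool.Agent.KG

open MeasureTheory Filter Topology Set
open Pool.Agent.Kdv
open scoped ENNReal ContDiff InnerProductSpace

variable {n : ℕ}

/-! ### Calculus -/

section calculus

variable {U : Set ℝ} {F : ℝ → ℝ → ℝ}

private theorem i12_mem {t : ℝ} (ht : t ∈ U) (x : ℝ) : (t, x) ∈ U ×ˢ (univ : Set ℝ) :=
  ⟨ht, mem_univ _⟩

private theorem i12_at (hU : IsOpen U)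
    (hF : ContDiffOn ℝ ∞ (fun q : ℝ × ℝ => F q.1 q.2) (U ×ˢ univ)) {t : ℝ} (ht : t ∈ U) (x : ℝ) :
    ContDiffAt ℝ ∞ (fun q : ℝ × ℝ => F q.1 q.2) (t, x) :=
  hF.contDiffAt ((hU.prod isOpen_univ).mem_nhds (i12_mem ht x))

private theorem i12_diff (hU : IsOpen U)
    (hF : ContDiffOn ℝ ∞ (fun q : ℝ × ℝ => F q.1 q.2) (U ×ˢ univ)) {t : ℝ} (ht : t ∈ U) (x : ℝ) :
    HasFDerivAt (fun q : ℝ × ℝ => F q.1 q.2) (fderiv ℝ (fun q : ℝ × ℝ => F q.1 q.2) (t, x))
      (t, x) :=
  ((i12_at hU hF ht x).differentiableAt (by simp)).hasFDerivAt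

private theorem i12_x (hU : IsOpen U)
    (hF : ContDiffOn ℝ ∞ (fun q : ℝ × ℝ => F q.1 q.2) (U ×ˢ univ)) {t : ℝ} (ht : t ∈ U) (x : ℝ) :
    HasDerivAt (fun x => F t x) (fderiv ℝ (fun q : ℝ × ℝ => F q.1 q.2) (t, x) (0, 1)) x := by
  have h1 : HasDerivAt (fun x : ℝ => (t, x)) ((0 : ℝ), (1 : ℝ)) x :=
    (hasDerivAt_const x t).prodMk (hasDerivAt_id x)
  exact (i12_diff hU hF ht x).comp_hasDerivAt x h1

private theorem i12_t (hU : IsOpen U)
    (hF : ContDiffOn ℝ ∞ (fun q : ℝ × ℝ => F q.1 q.2) (U ×ˢ univ)) {t : ℝ} (ht : t ∈ U) (x : ℝ) :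
    HasDerivAt (fun s => F s x) (fderiv ℝ (fun q : ℝ × ℝ => F q.1 q.2) (t, x) (1, 0)) t := by
  have h1 : HasDerivAt (fun s : ℝ => (s, x)) ((1 : ℝ), (0 : ℝ)) t :=
    (hasDerivAt_id t).prodMk (hasDerivAt_const t x)
  exact (i12_diff hU hF ht x).comp_hasDerivAt t h1

private theorem i12_cdx (hU : IsOpen U)
    (hF : ContDiffOn ℝ ∞ (fun q : ℝ × ℝ => F q.1 q.2) (U ×ˢ univ)) :
    ContDiffOn ℝ ∞ (fun q : ℝ × ℝ => deriv (fun x => F q.1 x) q.2) (U ×ˢ univ) := by
  have h1 : ContDiffOn ℝ ∞ (fderiv ℝ (fun q : ℝ × ℝ => F q.1 q.2)) (U ×ˢ univ) :=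
    hF.fderiv_of_isOpen (hU.prod isOpen_univ) (by simp)
  refine (h1.clm_apply (contDiffOn_const (c := ((0 : ℝ), (1 : ℝ))))).congr fun q hq => ?_
  exact (i12_x hU hF hq.1 q.2).deriv

private theorem i12_cdt (hU : IsOpen U)
    (hF : ContDiffOn ℝ ∞ (fun q : ℝ × ℝ => F q.1 q.2) (U ×ˢ univ)) :
    ContDiffOn ℝ ∞ (fun q : ℝ × ℝ => deriv (fun s => F s q.2) q.1) (U ×ˢ univ) := by
  have h1 : ContDiffOn ℝ ∞ (fderiv ℝ (fun q : ℝ × ℝ => F q.1 q.2)) (U ×ˢ univ) :=
    hF.fderiv_of_isOpen (hU.prod isOpen_univ) (by simp)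
  refine (h1.clm_apply (contDiffOn_const (c := ((1 : ℝ), (0 : ℝ))))).congr fun q hq => ?_
  exact (i12_t hU hF hq.1 q.2).deriv

private theorem i12_cdi (hU : IsOpen U)
    (hF : ContDiffOn ℝ ∞ (fun q : ℝ × ℝ => F q.1 q.2) (U ×ˢ univ)) (k : ℕ) :
    ContDiffOn ℝ ∞ (fun q : ℝ × ℝ => iteratedDeriv k (fun x => F q.1 x) q.2) (U ×ˢ univ) := by
  induction k with
  | zero => simpa using hF
  | succ k ih =>
    have h := i12_cdx (F := fun t x => iteratedDeriv k (fun x => F t x) x) hU ih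
    refine h.congr fun q _ => ?_
    rw [iteratedDeriv_succ]

private theorem i12_slice
    (hF : ContDiffOn ℝ ∞ (fun q : ℝ × ℝ => F q.1 q.2) (U ×ˢ univ)) {t : ℝ} (ht : t ∈ U) :
    ContDiff ℝ ∞ fun x => F t x := by
  rw [← contDiffOn_univ]
  have h1 : ContDiffOn ℝ ∞ (fun x : ℝ => (t, x)) univ := (contDiff_const.prodMk contDiff_id).contDiffOn
  exact hF.comp h1 fun x _ => i12_mem ht x

end calculus

/-- `bg_path` for a cut-off smooth function. -/
private theorem i12_path {L μ : ℝ} (hL : 0 < L) (hμ : 0 < μ) {T R : ℝ} (hT : 0 < T) {U : Set ℝ}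
    (hU : IsOpen U) (hU' : Icc 0 T ⊆ U) {F : ℝ → ℝ → ℝ}
    (hF : ContDiffOn ℝ ∞ (fun q : ℝ × ℝ => F q.1 q.2) (U ×ˢ univ)) {η : ℝ → ℝ}
    (hη : ContDiff ℝ ∞ η) (hη0 : ∀ x, R ≤ |x| → η x = 0) :
    ∃ v : ℝ → V1 L, (sm1 hL hμ).Path (toL2 fun x => η x * F 0 x) T
        (fun t => toL2 fun x => η x * deriv (fun s => F s x) t +
          μ * iteratedDeriv 3 (fun x => η x * F t x) x) v ∧
      (∀ t ∈ Icc 0 T, V1.u L (v t) = toL2 fun x => η x * F t x) ∧
      (∀ t ∈ Icc 0 T, ∀ᵐ x ∂volume, x ∈ J L → V1.d L (v t) x = deriv (fun x => η x * F t x) x) ∧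
      ∀ t ∈ Icc 0 T, (sm1 hL hμ).traj (toL2 fun x => η x * F 0 x)
        (fun t => toL2 fun x => η x * deriv (fun s => F s x) t +
          μ * iteratedDeriv 3 (fun x => η x * F t x) x) t = toL2 fun x => η x * F t x := by
  have hG : ContDiffOn ℝ ∞ (fun q : ℝ × ℝ => η q.2 * F q.1 q.2) (U ×ˢ univ) :=
    (hη.comp contDiff_snd).contDiffOn.mul hF
  refine bg_path hL hμ (R := R) (φ := fun t x => η x * F t x)
    (φt := fun t x => η x * deriv (fun s => F s x) t) hT ?_ ?_ ?_ ?_ ?_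
  · intro t ht
    exact hη.mul (i12_slice hF (hU' ht))
  · intro t _ x hx
    change η x * F t x = 0
    rw [hη0 x hx, zero_mul]
  · intro x t ht
    have h := (i12_t hU hF (hU' ht) x).const_mul (η x)
    rw [← (i12_t hU hF (hU' ht) x).deriv] at h
    exact h.hasDerivWithinAt
  · have h := ((hη.comp contDiff_snd).contDiffOn.mul (i12_cdt hU hF)).continuousOn
    exact h.mono (prod_mono hU' Subset.rfl)
  · intro k _
    have h := (i12_cdi (F := fun t x => η x * F t x) hU hG k).continuousOn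
    exact h.mono (prod_mono hU' Subset.rfl)

/-! ### Cut-offs -/

private theorem i12_st0 {x : ℝ} (hx : x ≤ 0) : st x = 0 := Real.smoothTransition.zero_of_nonpos hx

private theorem i12_st1 {x : ℝ} (hx : 1 ≤ x) : st x = 1 := Real.smoothTransition.one_of_one_le hx

private theorem i12_stc : ContDiff ℝ ∞ st := Real.smoothTransition.contDiff

private theorem i12_bb (L : ℝ) : ContDiff ℝ ∞ (bb L) :=
  (i12_stc.comp (contDiff_id.add contDiff_const)).mul
    (i12_stc.comp (contDiff_const.sub contDiff_id))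

private theorem i12_th (L : ℝ) : ContDiff ℝ ∞ (th L) :=
  (i12_stc.comp ((contDiff_const.mul contDiff_id).add contDiff_const)).mul
    (i12_stc.comp ((contDiff_const.mul (contDiff_const.sub contDiff_id)).add contDiff_const))

private theorem i12_bb0 {L x : ℝ} (hx : L + 4 ≤ |x|) (hL : 0 < L) : bb L x = 0 := by
  unfold bb
  rcases le_abs.1 hx with h | h
  · rw [i12_st0 (x := L + 4 - x) (by linarith), mul_zero]
  · rw [i12_st0 (x := x + 4) (by linarith), zero_mul]

private theorem i12_th0 {L x : ℝ} (hx : L + 4 ≤ |x|) (hL : 0 < L) : th L x = 0 := by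
  unfold th
  rcases le_abs.1 hx with h | h
  · rw [i12_st0 (x := 4 * (L - x) + 3) (by linarith), mul_zero]
  · rw [i12_st0 (x := 4 * x + 3) (by linarith), zero_mul]

private theorem i12_bb1 {L x : ℝ} (hx : x ∈ J L) : bb L x = 1 := by
  unfold bb
  rw [i12_st1 (x := x + 4) (by linarith [hx.1]), i12_st1 (x := L + 4 - x) (by linarith [hx.2]),
    mul_one]

private theorem i12_th1 {L x : ℝ} (hx : x ∈ Ioo 0 L) : th L x = 1 := by
  unfold th
  rw [i12_st1 (x := 4 * x + 3) (by linarith [hx.1]),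
    i12_st1 (x := 4 * (L - x) + 3) (by linarith [hx.2]), mul_one]

private theorem i12_chi1 {L x : ℝ} (hx : x ∈ Ioo 0 L) : chi L x = 1 := by
  unfold chi
  rw [min_eq_left (a := (1 : ℝ)) (le_min (by linarith [hx.1]) (by linarith [hx.2])),
    max_eq_right zero_le_one]

private theorem i12_dchi0 {L x : ℝ} (hx : x ∈ Ioo 0 L) : dchi L x = 0 := by
  unfold dchi
  rw [indicator_of_notMem (fun h => by linarith [h.2, hx.1]),
    indicator_of_notMem (fun h => by linarith [h.1, hx.2]), sub_zero]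

private theorem i12_one (L : ℝ) : Measurable (one L) ∧ ∃ C, ∀ x, |one L x| ≤ C := by
  refine ⟨measurable_const.indicator measurableSet_Ioo, 1, fun x => ?_⟩
  unfold one
  by_cases h : x ∈ Ioo 0 L <;> simp [h]

/-- Continuous functions with compact support. -/
private theorem i12_memLp {R : ℝ} {f : ℝ → ℝ} (hf : Continuous f) (h0 : ∀ x, R ≤ |x| → f x = 0) :
    MemLp f 2 volume := by
  refine hf.memLp_of_hasCompactSupport ?_
  refine HasCompactSupport.intro (K := Icc (-R) R) isCompact_Icc fun x hx => h0 x ?_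
  by_contra h
  push Not at h
  exact hx ⟨(abs_lt.1 h).1.le, (abs_lt.1 h).2.le⟩

private theorem i12_iter0 {R : ℝ} {f : ℝ → ℝ} (h0 : ∀ x, R ≤ |x| → f x = 0) (k : ℕ) :
    ∀ x, R + 1 ≤ |x| → iteratedDeriv k f x = 0 := by
  intro x hx
  have h1 : f =ᶠ[𝓝 x] fun _ => 0 := by
    have h2 : ∀ᶠ y in 𝓝 x, R < |y| :=
      continuous_abs.continuousAt.eventually_const_lt (by linarith)
    filter_upwards [h2] with y hy using h0 y hy.le
  rw [h1.iteratedDeriv_eq]
  rcases Nat.eq_zero_or_pos k with rfl | hk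
  · simp
  · rw [iteratedDeriv_const, if_neg hk.ne']

/-- A function into `HH n` with integrable components is integrable. -/
private theorem i12_int {f : ℝ → HH n} {s : Set ℝ} (h : ∀ j, IntegrableOn (fun t => f t j) s) :
    IntegrableOn f s := by
  classical
  set e : Fin n → L2 →L[ℝ] HH n := fun j =>
    mkH fun i => if i = j then ContinuousLinearMap.id ℝ L2 else 0 with he
  have h1 : f = fun t => ∑ j, e j (f t j) := by
    funext t
    refine PiLp.ext fun i => ?_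
    have h2 : (∑ j, e j (f t j)) i = ∑ j, e j (f t j) i := by
      rw [← prH_apply i (∑ j, e j (f t j)), map_sum]
      rfl
    rw [h2]
    have h3 : ∀ j, e j (f t j) i = if i = j then f t j else 0 := by
      intro j
      rw [he]
      simp only [mkH_apply]
      split_ifs <;> rfl
    simp only [h3, Finset.sum_ite_eq, Finset.mem_univ, if_true]
  rw [h1]
  exact integrable_finsetSum _ fun j _ => (e j).integrable_comp (h j)

private theorem i12_proj {τ : ℝ} (hτ : 0 ≤ τ) : ∃ pr : ℝ → ℝ, Continuous pr ∧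
    (∀ s, pr s ∈ Icc 0 τ) ∧ ∀ s ∈ Icc 0 τ, pr s = s := by
  refine ⟨fun s => max 0 (min s τ), by fun_prop,
    fun s => ⟨le_max_left _ _, max_le hτ (min_le_right _ _)⟩, fun s hs => ?_⟩
  simp only
  rw [min_eq_left hs.2, max_eq_right hs.1]

private theorem i12_res (p : Pr n) {U : Set ℝ} {w : ℝ → ℝ → Fin n → ℝ} (hU : IsOpen U)
    (hw : ∀ j, ContDiffOn ℝ ∞ (fun q : ℝ × ℝ => w q.1 q.2 j) (U ×ˢ univ)) (j : Fin n) :
    ContDiffOn ℝ ∞ (fun q : ℝ × ℝ => resid p w q.1 q.2 j) (U ×ˢ univ) := by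
  unfold resid
  refine (((i12_cdt (F := fun t x => w t x j) hU (hw j)).add
    (contDiffOn_const.mul (i12_cdi (F := fun t x => w t x j) hU (hw j) 3))).add
    (ContDiffOn.sum fun k _ =>
      contDiffOn_const.mul (i12_cdx (F := fun t x => w t x k) hU (hw k)))).add
    (ContDiffOn.sum fun k _ => ContDiffOn.sum fun l _ =>
      (contDiffOn_const.mul (hw k)).mul (i12_cdx (F := fun t x => w t x l) hU (hw l)))

/-- The equation at one time. -/
private theorem i12_eq (p : Pr n) {w : ℝ → ℝ → Fin n → ℝ} {t : ℝ} {f r : HH n} {v : VV n p.L}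
    (hu : ∀ k, ∀ᵐ x ∂volume, x ∈ J p.L → uu k v x = w t x k ∧
      dd k v x = deriv (fun x => w t x k) x)
    (hf : ∀ j, ∀ᵐ x ∂volume, f j x = bb p.L x * deriv (fun s => w s x j) t +
      p.mu j * iteratedDeriv 3 (fun x => bb p.L x * w t x j) x)
    (hr : ∀ j, ∀ᵐ x ∂volume, r j x = th p.L x * resid p w t x j) :
    PP n p.L f = PP n p.L (lmap n p.L p.S v + qmap n p.L p.g v + r) := by
  have hone := i12_one p.L
  refine PiLp.ext fun j => ?_
  change mulOp (one p.L) (f j) =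
    mulOp (one p.L) (lmap n p.L p.S v j + qmap n p.L p.g v j + r j)
  refine Lp.ext ?_
  filter_upwards [mulOp_ae hone.1 hone.2 (f j),
    mulOp_ae hone.1 hone.2 (lmap n p.L p.S v j + qmap n p.L p.g v j + r j), hf j, hr j,
    lmap_ae p.L p.S v j, qmap_ae p.hL p.g v j, ae_all_iff.2 hu,
    Lp.coeFn_add (lmap n p.L p.S v j + qmap n p.L p.g v j) (r j),
    Lp.coeFn_add (lmap n p.L p.S v j) (qmap n p.L p.g v j)] with x h1 h2 h3 h4 h5 h6 h7 h8 h9
  rw [h1, h2]
  by_cases hx : x ∈ Ioo 0 p.L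
  · have hxJ : x ∈ J p.L := ⟨by linarith [hx.1], by linarith [hx.2]⟩
    congr 1
    rw [h8, Pi.add_apply, h9, Pi.add_apply, h3, h4, h5, h6, i12_bb1 hxJ, i12_th1 hx,
      i12_chi1 hx, i12_dchi0 hx]
    have h10 : iteratedDeriv 3 (fun x => bb p.L x * w t x j) x =
        iteratedDeriv 3 (fun x => w t x j) x := by
      apply Filter.EventuallyEq.iteratedDeriv_eq
      filter_upwards [isOpen_Ioo.mem_nhds hxJ] with y hy
      rw [i12_bb1 hy, one_mul]
    rw [h10]
    have h11 : ∀ k, uu k v x = w t x k := fun k => (h7 k hxJ).1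
    have h12 : ∀ k, dd k v x = deriv (fun x => w t x k) x := fun k => (h7 k hxJ).2
    simp only [h11, h12]
    unfold resid
    have h13 : ∑ k, p.S j k * (1 * deriv (fun x => w t x k) x + 1 / 2 * (0 * w t x k)) =
        ∑ k, p.S j k * deriv (fun x => w t x k) x :=
      Finset.sum_congr rfl fun k _ => by ring
    have h14 : ∑ k, ∑ l, p.g j k l * (1 * w t x k * deriv (fun x => w t x l) x +
        1 / 3 * 0 * w t x k * w t x l) =
        ∑ k, ∑ l, p.g j k l * w t x k * deriv (fun x => w t x l) x :=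
      Finset.sum_congr rfl fun k _ => Finset.sum_congr rfl fun l _ => by ring
    rw [h13, h14]
    ring
  · have h10 : one p.L x = 0 := by
      unfold one
      exact indicator_of_notMem hx _
    rw [h10, zero_mul, zero_mul]

/-- Smooth backgrounds, with the state at all times. -/
theorem exists_bk' (p : Pr n) {τ : ℝ} (hτ : 0 < τ) {w : ℝ → ℝ → Fin n → ℝ} {U : Set ℝ}
    (hU : IsOpen U) (hU' : Icc 0 τ ⊆ U)
    (hw : ∀ j, ContDiffOn ℝ ∞ (fun q : ℝ × ℝ => w q.1 q.2 j) (U ×ˢ univ)) :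
    ∃ B : Bk p τ, (∀ t ∈ Icc 0 τ, ∀ x j, B.w t x j = w t x j) ∧
      (∀ t ∈ Icc 0 τ, ∀ x j, B.wx t x j = deriv (fun x => w t x j) x) ∧
      B.b0 = bg n p.L (w 0) ∧ (∀ t ∈ Icc 0 τ, p.sm.traj B.b0 B.fb t = bg n p.L (w t)) ∧
      ∀ t ∈ Icc 0 τ, B.r t = WithLp.toLp 2 fun j => toL2 fun x => th p.L x * resid p w t x j := by
  have hL := p.hL
  obtain ⟨pr, hpr, hprI, hprE⟩ := i12_proj hτ.le
  have hres := i12_res p hU hw
  have hc : ∀ {t : ℝ}, t ∈ Icc 0 τ → ∀ j, ContDiff ℝ ∞ fun x => w t x j := fun {t} ht j =>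
    i12_slice (F := fun t x => w t x j) (hw j) (hU' ht)
  choose v hv1 hv2 hv3 hv4 using fun j => i12_path (L := p.L) (R := p.L + 4) hL (p.hmu j) hτ hU hU'
    (F := fun t x => w t x j) (hw j) (i12_bb p.L) (fun x hx => i12_bb0 hx hL)
  choose v' hv1' hv2' hv3' hv4' using fun j => i12_path (L := p.L) (R := p.L + 4) hL (p.hmu j) hτ
    hU hU' (F := fun t x => resid p w t x j) (hres j) (i12_th p.L) (fun x hx => i12_th0 hx hL)
  obtain ⟨fb, hfb⟩ : ∃ fb : ℝ → HH n, fb = fun t => WithLp.toLp 2 fun j => toL2 fun x =>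
    bb p.L x * deriv (fun s => w s x j) t +
      p.mu j * iteratedDeriv 3 (fun x => bb p.L x * w t x j) x := ⟨_, rfl⟩
  have hfbint : IntegrableOn fb (Ioc 0 τ) := i12_int fun j => by
    rw [hfb]
    exact (hv1 j).int
  have htraj : ∀ t ∈ Icc 0 τ, p.sm.traj (bg n p.L (w 0)) fb t = bg n p.L (w t) := by
    intro t ht
    refine PiLp.ext fun j => ?_
    have h1 := traj_comp p.std (bg n p.L (w 0)) hfbint ht j
    refine h1.trans ?_
    rw [hfb]
    exact hv4 j t ht
  have hpath : p.sm.Path (bg n p.L (w 0)) τ fb (fun t j => v j t) := by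
    refine ⟨hfbint, ae_pi fun j => (hv1 j).meas, ?_, ?_⟩
    · have h1 : ∀ t, ‖(fun j => v j t : VV n p.L)‖ₑ ^ 2 ≤ ∑ j, ‖v j t‖ₑ ^ 2 := fun t =>
        enorm_pi_sq_le _
      refine (lintegral_mono fun t => h1 t).trans_lt ?_
      rw [lintegral_finsetSum' _ fun j _ => (hv1 j).meas.enorm.pow_const 2]
      exact ENNReal.sum_lt_top.2 fun j _ => (hv1 j).fin
    · filter_upwards [ae_restrict_mem measurableSet_Ioc] with t ht
      have ht' : t ∈ Icc 0 τ := ⟨ht.1.le, ht.2⟩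
      rw [htraj t ht']
      refine PiLp.ext fun j => ?_
      exact hv2 j t ht'
  have hrep : ∀ t ∈ Icc 0 τ, ∀ j, ∀ᵐ x ∂volume, x ∈ J p.L →
      uu j (fun j => v j t : VV n p.L) x = w t x j ∧
        dd j (fun j => v j t : VV n p.L) x = deriv (fun x => w t x j) x := by
    intro t ht j
    have hm : MemLp (fun x => bb p.L x * w t x j) 2 volume :=
      i12_memLp (R := p.L + 4) ((i12_bb p.L).mul (hc ht j)).continuous fun x hx => by
        rw [i12_bb0 hx hL, zero_mul]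
    filter_upwards [toL2_ae hm, hv3 j t ht] with x h1 h2 hx
    refine ⟨?_, ?_⟩
    · change V1.u p.L (v j t) x = w t x j
      rw [hv2 j t ht, h1, i12_bb1 hx, one_mul]
    · change V1.d p.L (v j t) x = deriv (fun x => w t x j) x
      rw [h2 hx]
      apply Filter.EventuallyEq.deriv_eq
      filter_upwards [isOpen_Ioo.mem_nhds hx] with y hy
      rw [i12_bb1 hy, one_mul]
  obtain ⟨r, hrdef⟩ : ∃ r : ℝ → HH n, r = fun t => WithLp.toLp 2 fun j => toL2 fun x =>
    th p.L x * resid p w (pr t) x j := ⟨_, rfl⟩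
  have hr : IntegrableOn r (Ioc 0 τ) := by
    refine i12_int fun j => ?_
    have h1 : ContinuousOn (fun t => toL2 fun x => th p.L x * resid p w t x j) (Icc 0 τ) :=
      ((sm1 hL (p.hmu j)).traj_cont _ hτ.le (hv1' j).int).congr fun t ht => (hv4' j t ht).symm
    have h3 : IntegrableOn (fun t => toL2 fun x => th p.L x * resid p w t x j) (Ioc 0 τ) :=
      h1.integrableOn_Icc.mono_set Ioc_subset_Icc_self
    refine h3.congr_fun (fun t ht => ?_) measurableSet_Ioc
    rw [hrdef]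
    change _ = toL2 fun x => th p.L x * resid p w (pr t) x j
    rw [hprE t ⟨ht.1.le, ht.2⟩]
  have hF : ∀ (F : ℝ → ℝ → ℝ), ContDiffOn ℝ ∞ (fun q : ℝ × ℝ => F q.1 q.2) (U ×ˢ univ) →
      Continuous fun q : ℝ × ℝ => F (pr q.1) q.2 := by
    intro F hF
    have h1 : Continuous fun q : ℝ × ℝ => (pr q.1, q.2) := by fun_prop
    exact hF.continuousOn.comp_continuous h1 fun q => ⟨hU' (hprI q.1), mem_univ _⟩
  refine ⟨{
    w := fun t x j => w (pr t) x j
    wx := fun t x j => deriv (fun x => w (pr t) x j) x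
    cw := fun j => hF (fun t x => w t x j) (hw j)
    cwx := fun j => hF (fun t x => deriv (fun x => w t x j) x)
      (i12_cdx (F := fun t x => w t x j) hU (hw j))
    hd := fun t x j => by
      have h := i12_x (F := fun t x => w t x j) hU (hw j) (hU' (hprI t)) x
      exact h.deriv ▸ h
    b0 := bg n p.L (w 0)
    fb := fb
    vb := fun t j => v j t
    path := hpath
    rep := ?_
    r := r
    hr := hr
    eq := ?_ }, ?_, ?_, rfl, htraj, ?_⟩
  · filter_upwards [ae_restrict_mem measurableSet_Ioc] with t ht j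
    have ht' : t ∈ Icc 0 τ := ⟨ht.1.le, ht.2⟩
    rw [hprE t ht']
    exact hrep t ht' j
  · filter_upwards [ae_restrict_mem measurableSet_Ioc] with t ht
    have ht' : t ∈ Icc 0 τ := ⟨ht.1.le, ht.2⟩
    refine i12_eq p (w := w) (t := t) (fun k => hrep t ht' k) (fun j => ?_) fun j => ?_
    · rw [hfb]
      refine toL2_ae (i12_memLp (R := p.L + 4 + 1) ?_ fun x hx => ?_)
      · have h1 : Continuous fun x => deriv (fun s => w s x j) t :=
          (i12_slice (F := fun t x => deriv (fun s => w s x j) t)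
            (i12_cdt (F := fun t x => w t x j) hU (hw j)) (hU' ht')).continuous
        have h2 : Continuous (iteratedDeriv 3 fun x => bb p.L x * w t x j) :=
          ((i12_bb p.L).mul (hc ht' j)).continuous_iteratedDeriv 3
            (WithTop.coe_le_coe.2 (le_top : (3 : ℕ∞) ≤ ⊤))
        exact ((i12_bb p.L).continuous.mul h1).add (continuous_const.mul h2)
      · have h1 : iteratedDeriv 3 (fun x => bb p.L x * w t x j) x = 0 :=
          i12_iter0 (R := p.L + 4) (fun y hy => by rw [i12_bb0 hy hL, zero_mul]) 3 x hx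
        rw [i12_bb0 (by linarith) hL, h1, zero_mul, mul_zero, add_zero]
    · have h1 : r t j = toL2 fun x => th p.L x * resid p w t x j := by
        rw [hrdef]
        change toL2 (fun x => th p.L x * resid p w (pr t) x j) = _
        rw [hprE t ht']
      rw [h1]
      refine toL2_ae (i12_memLp (R := p.L + 4) ?_ fun x hx => ?_)
      · exact (i12_th p.L).continuous.mul
          (i12_slice (F := fun t x => resid p w t x j) (hres j) (hU' ht')).continuous
      · rw [i12_th0 hx hL, zero_mul]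
  · intro t ht x j
    change w (pr t) x j = w t x j
    rw [hprE t ht]
  · intro t ht x j
    change deriv (fun x => w (pr t) x j) x = _
    rw [hprE t ht]
  · intro t ht
    change r t = _
    rw [hrdef]
    simp only
    rw [hprE t ht]

/-- INF12. Smooth backgrounds. -/
theorem exists_bk (p : Pr n) {τ : ℝ} (hτ : 0 < τ) {w : ℝ → ℝ → Fin n → ℝ} {U : Set ℝ}
    (hU : IsOpen U) (hU' : Icc 0 τ ⊆ U)
    (hw : ∀ j, ContDiffOn ℝ ∞ (fun q : ℝ × ℝ => w q.1 q.2 j) (U ×ˢ univ)) :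
    ∃ B : Bk p τ, (∀ t ∈ Icc 0 τ, ∀ x j, B.w t x j = w t x j) ∧
      (∀ t ∈ Icc 0 τ, ∀ x j, B.wx t x j = deriv (fun x => w t x j) x) ∧
      B.b0 = bg n p.L (w 0) ∧ p.sm.traj B.b0 B.fb τ = bg n p.L (w τ) ∧
      ∀ t ∈ Icc 0 τ, B.r t = WithLp.toLp 2 fun j => toL2 fun x => th p.L x * resid p w t x j := by
  obtain ⟨B, h1, h2, h3, h4, h5⟩ := exists_bk' p hτ hU hU' hw
  exact ⟨B, h1, h2, h3, h4 τ ⟨hτ.le, le_rfl⟩, h5⟩

end Pool.Agent.KG
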