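import Pool.Agent.Lib.KG.Defs
import Pool.Agent.Lib.KG.Inf01
import Pool.Agent.Lib.KG.Inf10
import Pool.Agent.Lib.MP_78c35a_an.Skew
import Pool.Agent.Lib.MP_78c35a_an.Local

/-!
# Existence of the perturbation (row Inf13)

`nsol` with `n t z = nl p (B.w t') (B.wx t') (D t') z`, `t' = projIcc t`, source `-B.r`.
-/

set_option autoImplicit false

namespace Pool.Agent.KG

open MeasureTheory Filter Topology Set
open Pool.Agent.Kdv
open scoped ENNReal ContDiff InnerProductSpace Uniformity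

variable {n : ℕ}

namespace RunAux

theorem st_cont : Continuous st := Real.smoothTransition.continuous

theorem th_smooth (L : ℝ) : ContDiff ℝ ∞ (th L) := by
  have h : ContDiff ℝ ∞ st := Real.smoothTransition.contDiff
  unfold th
  exact (h.comp (by fun_prop)).mul (h.comp (by fun_prop))

theorem th_zero {L x : ℝ} (hx : x ∉ Icc (-(3 / 4)) (L + 3 / 4)) : th L x = 0 := by
  unfold th st
  rw [mem_Icc, not_and_or, not_le, not_le] at hx
  rcases hx with h | h
  · rw [Real.smoothTransition.zero_of_nonpos (by linarith), zero_mul]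
  · rw [Real.smoothTransition.zero_of_nonpos (x := 4 * (L - x) + 3) (by linarith), mul_zero]

theorem th_out {L x : ℝ} (hx : x ∉ Icc (-1) (L + 1)) : th L x = 0 :=
  th_zero fun h => hx ⟨by linarith [h.1], by linarith [h.2]⟩

theorem dth_out {L x : ℝ} (hx : x ∉ Icc (-1) (L + 1)) : deriv (th L) x = 0 := by
  have h1 : x ∉ Icc (-(3 / 4)) (L + 3 / 4) := fun h => hx ⟨by linarith [h.1], by linarith [h.2]⟩
  have h2 : th L =ᶠ[𝓝 x] fun _ => 0 := by
    filter_upwards [isClosed_Icc.isOpen_compl.mem_nhds h1] with y hy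
    exact th_zero hy
  rw [h2.deriv_eq, deriv_const]

theorem damp_cont (L : ℝ) : Continuous (damp L) := by
  have h := st_cont
  unfold damp
  fun_prop

theorem damp_nonneg (L x : ℝ) : 0 ≤ damp L x := by
  unfold damp st
  have h1 := Real.smoothTransition.le_one (4 * x + 1)
  have h2 := Real.smoothTransition.le_one (4 * (L - x) + 1)
  have h3 := Real.smoothTransition.nonneg (4 * x + 1)
  have h4 := Real.smoothTransition.nonneg (4 * (L - x) + 1)
  nlinarith

theorem damp_le (L x : ℝ) : |damp L x| ≤ 1 := by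
  rw [abs_of_nonneg (damp_nonneg L x)]
  unfold damp st
  have h3 := Real.smoothTransition.nonneg (4 * x + 1)
  have h4 := Real.smoothTransition.nonneg (4 * (L - x) + 1)
  nlinarith

theorem mulOp_norm_le {m : ℝ → ℝ} (hm : Measurable m) {C : ℝ} (hC : 0 ≤ C)
    (hb : ∀ x, |m x| ≤ C) : ‖mulOp m‖ ≤ C := by
  refine ContinuousLinearMap.opNorm_le_bound _ hC fun f => ?_
  refine Lp.norm_le_mul_norm_of_ae_le_mul ?_
  filter_upwards [mulOp_ae hm ⟨C, hb⟩ f] with x hx
  rw [hx, norm_mul]
  exact mul_le_mul_of_nonneg_right (hb x) (norm_nonneg _)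

theorem mulOp_sub {m m' : ℝ → ℝ} (hm : Measurable m) (hb : ∃ C, ∀ x, |m x| ≤ C)
    (hm' : Measurable m') (hb' : ∃ C, ∀ x, |m' x| ≤ C) :
    mulOp m - mulOp m' = mulOp (fun x => m x - m' x) := by
  refine ContinuousLinearMap.ext fun f => ?_
  have hb2 : ∃ C, ∀ x, |m x - m' x| ≤ C := by
    obtain ⟨C, hC⟩ := hb
    obtain ⟨C', hC'⟩ := hb'
    exact ⟨C + C', fun x => (abs_sub _ _).trans (add_le_add (hC x) (hC' x))⟩
  rw [sub_apply]
  refine Lp.ext ?_
  filter_upwards [mulOp_ae hm hb f, mulOp_ae hm' hb' f, mulOp_ae (hm.sub hm') hb2 f,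
    Lp.coeFn_sub (mulOp m f) (mulOp m' f)] with x h1 h2 h3 h4
  rw [h4, Pi.sub_apply, h1, h2]
  refine Eq.trans ?_ h3.symm
  rw [Pi.sub_apply]
  ring

theorem mulOp_cont {K : Set ℝ} (hK : IsCompact K) {m : ℝ → ℝ → ℝ}
    (hc : Continuous fun q : ℝ × ℝ => m q.1 q.2) (ho : ∀ t x, x ∉ K → m t x = 0) :
    Continuous fun t => mulOp (m t) := by
  have hm1 : ∀ t, Continuous (m t) := fun t =>
    hc.comp (continuous_const.prodMk continuous_id)
  have hm : ∀ t, Measurable (m t) := fun t => (hm1 t).measurable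
  have hb : ∀ t, ∃ C, ∀ x, |m t x| ≤ C := by
    intro t
    obtain ⟨C, hC⟩ := hK.exists_bound_of_continuousOn (hm1 t).continuousOn
    refine ⟨max C 0, fun x => ?_⟩
    by_cases hx : x ∈ K
    · exact (hC x hx).trans (le_max_left _ _)
    · rw [ho t x hx, abs_zero]
      exact le_max_right _ _
  rw [Metric.continuous_iff]
  intro t ε hε
  have hu : {q : ℝ × ℝ | dist q.1 q.2 < ε / 2} ∈ 𝓤 ℝ := Metric.dist_mem_uniformity (half_pos hε)
  obtain ⟨v, hv, hv2⟩ := hK.mem_uniformity_of_prod (f := m) (s := univ) (q := t)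
    hc.continuousOn (mem_univ t) hu
  rw [nhdsWithin_univ, Metric.mem_nhds_iff] at hv
  obtain ⟨δ, hδ, hball⟩ := hv
  refine ⟨δ, hδ, fun s hs => ?_⟩
  rw [dist_eq_norm, mulOp_sub (hm s) (hb s) (hm t) (hb t)]
  refine (mulOp_norm_le ((hm s).sub (hm t)) (half_pos hε).le fun x => ?_).trans_lt
    (half_lt_self hε)
  by_cases hx : x ∈ K
  · have h := hv2 s (hball hs) x hx
    change dist (m s x) (m t x) < ε / 2 at h
    rw [Real.dist_eq] at h
    exact h.le
  · rw [Pi.sub_apply, ho s x hx, ho t x hx, sub_zero, abs_zero]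
    exact (half_pos hε).le

/-- The embedding of a component. -/
noncomputable def sgl (j : Fin n) : L2 →L[ℝ] HH n :=
  mkH fun i => if i = j then ContinuousLinearMap.id ℝ L2 else 0

theorem mkH_eq {X : Type} [NormedAddCommGroup X] [NormedSpace ℝ X] (A : Fin n → X →L[ℝ] L2) :
    mkH A = ∑ j, (sgl j).comp (A j) := by
  refine ContinuousLinearMap.ext fun x => ?_
  ext1 i
  rw [mkH_apply, sum_apply]
  change _ = prH i (∑ j, ((sgl j).comp (A j)) x)
  rw [map_sum]
  rw [Finset.sum_eq_single i]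
  · simp [sgl]
  · intro j _ hj
    simp [sgl, hj.symm]
  · intro h
    exact absurd (Finset.mem_univ i) h

theorem mkH_cont {X : Type} [NormedAddCommGroup X] [NormedSpace ℝ X]
    {A : Fin n → ℝ → X →L[ℝ] L2} (h : ∀ j, Continuous (A j)) :
    Continuous fun t => mkH fun j => A j t := by
  simp only [mkH_eq]
  exact continuous_finsetSum _ fun j _ => continuous_const.clm_comp (h j)

theorem Hm_cont (g : Fin n → Fin n → Fin n → ℝ) {w : ℝ → ℝ → Fin n → ℝ}
    (cw : ∀ j, Continuous fun q : ℝ × ℝ => w q.1 q.2 j) (j k : Fin n) :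
    Continuous fun q : ℝ × ℝ => Hm g (w q.1 q.2) j k := by
  unfold Hm
  exact continuous_finsetSum _ fun l _ => continuous_const.mul (cw l)

theorem tmap_cont (L : ℝ) (g : Fin n → Fin n → Fin n → ℝ) {w wx : ℝ → ℝ → Fin n → ℝ}
    (cw : ∀ j, Continuous fun q : ℝ × ℝ => w q.1 q.2 j)
    (cwx : ∀ j, Continuous fun q : ℝ × ℝ => wx q.1 q.2 j) :
    Continuous fun t => tmap n L g (w t) (wx t) := by
  have h1 : Continuous fun q : ℝ × ℝ => th L q.2 := (th_smooth L).continuous.comp continuous_snd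
  have h2 : Continuous fun q : ℝ × ℝ => deriv (th L) q.2 :=
    ((th_smooth L).continuous_deriv (by simp)).comp continuous_snd
  unfold tmap
  refine mkH_cont fun j => continuous_finsetSum _ fun k _ => ?_
  refine Continuous.add (Continuous.clm_comp ?_ continuous_const)
    (Continuous.clm_comp ?_ continuous_const)
  · refine mulOp_cont (K := Icc (-1) (L + 1)) isCompact_Icc
      (m := fun t x => -(th L x * Hm g (w t x) j k)) ?_ fun t x hx => ?_
    · exact (h1.mul (Hm_cont g cw j k)).neg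
    · simp only [th_out hx, zero_mul, neg_zero]
  · refine mulOp_cont (K := Icc (-1) (L + 1)) isCompact_Icc
      (m := fun t x => -(1 / 2 * deriv (th L) x * Hm g (w t x) j k +
        th L x * Hm g (wx t x) j k)) ?_ fun t x hx => ?_
    · exact (((continuous_const.mul h2).mul (Hm_cont g cw j k)).add
        (h1.mul (Hm_cont g cwx j k))).neg
    · simp only [th_out hx, dth_out hx, zero_mul, mul_zero, add_zero, neg_zero]

/-- The operator of the energy estimate. -/
noncomputable def R0 (n : ℕ) (L : ℝ) (g : Fin n → Fin n → Fin n → ℝ) (X1 : ℝ → Fin n → ℝ) :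
    HH n →L[ℝ] HH n :=
  mkH fun j => ∑ k, (mulOp fun x => th L x * Hm g (X1 x) j k).comp (prH k)

theorem R0_cont (L : ℝ) (g : Fin n → Fin n → Fin n → ℝ) {wx : ℝ → ℝ → Fin n → ℝ}
    (cwx : ∀ j, Continuous fun q : ℝ × ℝ => wx q.1 q.2 j) :
    Continuous fun t => R0 n L g (wx t) := by
  have h1 : Continuous fun q : ℝ × ℝ => th L q.2 := (th_smooth L).continuous.comp continuous_snd
  unfold R0
  refine mkH_cont fun j => continuous_finsetSum _ fun k _ => ?_
  refine Continuous.clm_comp ?_ continuous_const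
  refine mulOp_cont (K := Icc (-1) (L + 1)) isCompact_Icc
      (m := fun t x => th L x * Hm g (wx t x) j k) ?_ fun t x hx => ?_
  · exact h1.mul (Hm_cont g cwx j k)
  · simp only [th_out hx, zero_mul]

theorem R0_pair (L : ℝ) (g : Fin n → Fin n → Fin n → ℝ) {X1 : ℝ → Fin n → ℝ}
    (hX1 : ∀ j, Continuous fun x => X1 x j) (y : HH n) :
    inner ℝ (R0 n L g X1 y) y =
      ∫ x, th L x * ∑ j, ∑ k, Hm g (X1 x) j k * y j x * y k x := by
  have hm : ∀ j k, Continuous fun x => th L x * Hm g (X1 x) j k := by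
    intro j k
    refine (th_smooth L).continuous.mul ?_
    unfold Hm
    exact continuous_finsetSum _ fun l _ => continuous_const.mul (hX1 l)
  have hb : ∀ j k, ∃ C, ∀ x, |th L x * Hm g (X1 x) j k| ≤ C := by
    intro j k
    obtain ⟨C, hC⟩ := (isCompact_Icc (a := (-1 : ℝ)) (b := L + 1)).exists_bound_of_continuousOn
      (hm j k).continuousOn
    refine ⟨max C 0, fun x => ?_⟩
    by_cases hx : x ∈ Icc (-1) (L + 1)
    · exact (hC x hx).trans (le_max_left _ _)
    · rw [th_out hx, zero_mul, abs_zero]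
      exact le_max_right _ _
  rw [Skw.inner_HH]
  have h1 : ∀ j, ∀ᵐ x ∂volume, R0 n L g X1 y j x =
      ∑ k, th L x * Hm g (X1 x) j k * y k x := by
    intro j
    have e : R0 n L g X1 y j = ∑ k, mulOp (fun x => th L x * Hm g (X1 x) j k) (y k) := by
      unfold R0
      rw [mkH_apply, sum_apply]
      rfl
    rw [e]
    exact QuadrAux.sum_ae Finset.univ (fun k => mulOp (fun x => th L x * Hm g (X1 x) j k) (y k))
      (fun k x => th L x * Hm g (X1 x) j k * y k x) fun k =>
        mulOp_ae (hm j k).measurable (hb j k) (y k)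
  refine integral_congr_ae ?_
  filter_upwards [ae_all_iff.2 h1] with x hx
  rw [Finset.mul_sum]
  refine Finset.sum_congr rfl fun j _ => ?_
  rw [hx j, Finset.sum_mul, Finset.mul_sum]
  refine Finset.sum_congr rfl fun k _ => ?_
  ring

theorem damp_pair (L : ℝ) (y : HH n) : 0 ≤ inner ℝ (mulH (damp L) y) y := by
  rw [Skw.inner_HH]
  have h1 : ∀ j, ∀ᵐ x ∂volume, mulH (damp L) y j x = damp L x * y j x := fun j =>
    mulOp_ae (damp_cont L).measurable ⟨1, damp_le L⟩ (y j)
  have h2 : ∫ x, ∑ j, mulH (damp L) y j x * y j x = ∫ x, ∑ j, damp L x * y j x * y j x := by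
    refine integral_congr_ae ?_
    filter_upwards [ae_all_iff.2 h1] with x hx
    exact Finset.sum_congr rfl fun j _ => by rw [hx j]
  rw [h2]
  refine integral_nonneg fun x => Finset.sum_nonneg fun j _ => ?_
  rw [mul_assoc]
  exact mul_nonneg (damp_nonneg L x) (mul_self_nonneg _)

theorem abs_cont {V H : Type} [NormedAddCommGroup V] [NormedSpace ℝ V] [NormedAddCommGroup H]
    [NormedSpace ℝ H] (l : V →L[ℝ] H) {A : ℝ → V →L[ℝ] H} (hA : Continuous A) {D : ℝ → ℝ}
    {s : Set ℝ} (hD : ContinuousOn D s) (E : V →L[ℝ] H) :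
    ContinuousOn (fun t => l + A t - D t • E) s :=
  (continuous_const.add hA).continuousOn.sub (hD.smul continuousOn_const)

theorem abs_bdd {V H : Type} [NormedAddCommGroup V] [NormedSpace ℝ V] [NormedAddCommGroup H]
    [NormedSpace ℝ H] {M : ℝ → V →L[ℝ] H} {a b : ℝ} (hM : ContinuousOn M (Icc a b)) :
    ∃ K, ∀ t ∈ Icc a b, ‖M t‖ ≤ K :=
  isCompact_Icc.exists_bound_of_continuousOn hM

end RunAux

open RunAux

/-- INF13. Existence of the perturbation. -/
theorem exists_run (p : Pr n) {τ : ℝ} (hτ : 0 < τ) (B : Bk p τ) {D : ℝ → ℝ}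
    (hD : ContinuousOn D (Icc 0 τ)) (hD0 : ∀ t ∈ Icc 0 τ, 0 ≤ D t) (z0 : HH n) :
    ∃ (f : ℝ → HH n) (v : ℝ → VV n p.L), Run p B D z0 f v := by
  obtain ⟨Kq, hKq, hq1, -⟩ := q_bounds p.hL p.g
  -- the linear part
  let M : ℝ → VV n p.L →L[ℝ] HH n := fun s => lmap n p.L p.S +
    tmap n p.L p.g (B.w s) (B.wx s) - D s • (mulH (damp p.L)).comp (inc n p.L)
  have hM : ContinuousOn M (Icc 0 τ) := abs_cont _ (tmap_cont p.L p.g B.cw B.cwx) hD _
  have hR := R0_cont p.L p.g B.cwx
  obtain ⟨K1, hK1⟩ := abs_bdd hM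
  obtain ⟨K2, hK2⟩ := abs_bdd (a := 0) (b := τ) hR.continuousOn
  have hz : (0 : ℝ) ∈ Icc 0 τ := ⟨le_rfl, hτ.le⟩
  have hK1' : 0 ≤ K1 := (norm_nonneg _).trans (hK1 0 hz)
  have hK2' : 0 ≤ K2 := (norm_nonneg _).trans (hK2 0 hz)
  -- the time
  let pt : ℝ → ℝ := fun t => (projIcc 0 τ hτ.le t : ℝ)
  have hpt : Continuous pt := continuous_subtype_val.comp continuous_projIcc
  have hptm : ∀ t, pt t ∈ Icc 0 τ := fun t => (projIcc 0 τ hτ.le t).2
  have hpte : ∀ t ∈ Icc 0 τ, pt t = t := fun t ht => by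
    simp only [pt, projIcc_of_mem hτ.le ht]
  have hnl : ∀ t z, nl p (B.w (pt t)) (B.wx (pt t)) (D (pt t)) z =
      qmap n p.L p.g z + M (pt t) z := by
    intro t z
    simp only [nl, M, sub_apply, add_apply,
      smul_apply, ContinuousLinearMap.comp_apply]
    abel
  have hqq : p.sm.Quad (qmap n p.L p.g) Kq := hq1
  obtain ⟨f, v, hpath, heq⟩ := nsol p.sm (T := τ) (K := Kq + K1 + K2) hτ (by positivity)
    (n := fun t z => nl p (B.w (pt t)) (B.wx (pt t)) (D (pt t)) z) (by
      simp only [hnl]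
      refine Continuous.add ((LocalAux.quad_cont p.sm hqq).comp continuous_snd) ?_
      exact ((hM.comp_continuous hpt hptm).comp continuous_fst).clm_apply continuous_snd)
    (by
      intro t a b
      simp only [hnl]
      have h1 := hqq a b
      have h2 : ‖M (pt t) a - M (pt t) b‖ ≤ K1 * ‖a - b‖ := by
        rw [← map_sub]
        exact (M (pt t)).le_of_opNorm_le (hK1 _ (hptm t)) _
      have h3 : ‖qmap n p.L p.g a + M (pt t) a - (qmap n p.L p.g b + M (pt t) b)‖ ≤
          ‖qmap n p.L p.g a - qmap n p.L p.g b‖ + ‖M (pt t) a - M (pt t) b‖ := by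
        refine le_trans (le_of_eq ?_) (norm_add_le _ _)
        congr 1
        abel
      refine h3.trans ((add_le_add h1 h2).trans ?_)
      set X := √(‖p.sm.inc a‖ * ‖a‖)
      set Y := √(‖p.sm.inc b‖ * ‖b‖)
      set Z := √(‖p.sm.inc (a - b)‖ * ‖a - b‖)
      have hX : 0 ≤ X := Real.sqrt_nonneg _
      have hY : 0 ≤ Y := Real.sqrt_nonneg _
      have hZ : 0 ≤ Z := Real.sqrt_nonneg _
      have h4 : ‖a - b‖ ≤ ‖a - b‖ * (1 + X + Y) + Z * (‖a‖ + ‖b‖) := by
        have : 0 ≤ ‖a - b‖ * X + ‖a - b‖ * Y + Z * (‖a‖ + ‖b‖) := by positivity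
        linarith
      have h5 : 0 ≤ ‖a - b‖ * (1 + X + Y) + Z * (‖a‖ + ‖b‖) := by positivity
      have h6 := mul_le_mul_of_nonneg_left h4 hK1'
      have h7 := mul_nonneg hK2' h5
      linarith)
    (by
      intro t
      simp only [hnl, map_zero, add_zero]
      exact q_zero p.L p.g)
    (by
      intro t z
      have hinc : p.sm.inc = inc n p.L := rfl
      rw [hinc]
      have e1 : nl p (B.w (pt t)) (B.wx (pt t)) (D (pt t)) z = qmap n p.L p.g z +
        lmap n p.L p.S z + tmap n p.L p.g (B.w (pt t)) (B.wx (pt t)) z -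
          D (pt t) • mulH (damp p.L) (inc n p.L z) := rfl
      simp only [e1]
      rw [inner_sub_left, inner_add_left, inner_add_left, q_skew p.hL p.g12 p.g23,
        l_skew p.hL p.hS, inner_smul_left]
      have h1 := damp_pair p.L (inc n p.L z)
      have h2 := hD0 _ (hptm t)
      have h3 := energy_t p (X := B.w (pt t)) (X1 := B.wx (pt t)) (fun x j => B.hd _ x j)
        (fun j => (B.cwx j).comp (continuous_const.prodMk continuous_id)) z
      have h4 := R0_pair p.L p.g (X1 := B.wx (pt t))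
        (fun j => (B.cwx j).comp (continuous_const.prodMk continuous_id)) (inc n p.L z)
      simp only [inc_apply] at h4
      rw [← h4] at h3
      have h5 : |inner ℝ (R0 n p.L p.g (B.wx (pt t)) (inc n p.L z)) (inc n p.L z)| ≤
          K2 * ‖inc n p.L z‖ ^ 2 := by
        refine (abs_real_inner_le_norm _ _).trans ?_
        rw [sq, ← mul_assoc]
        exact mul_le_mul_of_nonneg_right
          ((R0 n p.L p.g (B.wx (pt t))).le_of_opNorm_le (hK2 _ (hptm t)) _) (norm_nonneg _)
      have h6 := (abs_le.1 h5).1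
      have h7 : 0 ≤ Kq * ‖inc n p.L z‖ ^ 2 := by positivity
      have h8 : 0 ≤ K1 * ‖inc n p.L z‖ ^ 2 := by positivity
      have h9 : 0 ≤ K2 * ‖inc n p.L z‖ ^ 2 := by positivity
      have h10 := mul_nonneg h2 h1
      simp only [RCLike.conj_to_real]
      linarith)
    (r := fun t => -B.r t) B.hr.neg z0
  refine ⟨f, v, hpath, ?_⟩
  filter_upwards [heq, ae_restrict_mem measurableSet_Ioc] with t ht htm
  rw [ht, hpte t ⟨htm.1.le, htm.2⟩, sub_eq_add_neg]

end Pool.Agent.KG
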