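import Pool.Agent.Lib.KG.Defs
import Pool.Agent.Lib.MP_78c35a_an.Skew

/-!
# The perturbed background is admissible (row Inf14)

The force is `B.fb + f`, the path `B.vb + v` (`Sm.traj_add`, restrict to `[0, t]`). On `(0, L)`:
`chi = th = 1`, `damp = 0`, `deriv th = 0`, and `q (b + z) = q b + q z - (H(b) z)_x` there, i.e.
`- (H(w) z_x + H(w_x) z)` with `B.rep` (`V1` functions on `J`); `nl`, `B.eq` give the claim.
Componentwise almost everywhere identities: `qmap_ae`, `lmap_ae` (Quadr.lean), `mulOp_ae`, `PP_ae`.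
-/

set_option autoImplicit false

namespace Pool.Agent.KG

open MeasureTheory Filter Topology Set
open Pool.Agent.Kdv
open scoped ENNReal ContDiff InnerProductSpace

variable {n : ℕ}

namespace Inf14Aux

theorem st_smooth : ContDiff ℝ ∞ st := Real.smoothTransition.contDiff

theorem st_one {x : ℝ} (h : 1 ≤ x) : st x = 1 := Real.smoothTransition.one_of_one_le h

theorem st_zero {x : ℝ} (h : x ≤ 0) : st x = 0 := Real.smoothTransition.zero_of_nonpos h

theorem th_smooth (L : ℝ) : ContDiff ℝ ∞ (th L) := by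
  unfold th
  exact (st_smooth.comp (by fun_prop)).mul (st_smooth.comp (by fun_prop))

theorem th_compact (L : ℝ) : HasCompactSupport (th L) := by
  refine HasCompactSupport.intro (isCompact_Icc (a := -(3 / 4 : ℝ)) (b := L + 3 / 4)) ?_
  intro x hx
  unfold th
  by_cases h : -(3 / 4 : ℝ) ≤ x
  · have h2 : L + 3 / 4 < x := by
      by_contra h3
      exact hx ⟨h, not_lt.mp h3⟩
    rw [st_zero (x := 4 * (L - x) + 3) (by linarith), mul_zero]
  · rw [st_zero (x := 4 * x + 3) (by linarith), zero_mul]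

theorem th_one {L x : ℝ} (h1 : -(1 / 2) ≤ x) (h2 : x ≤ L + 1 / 2) : th L x = 1 := by
  unfold th
  rw [st_one (by linarith), st_one (by linarith), mul_one]

theorem dth_zero {L x : ℝ} (hx : x ∈ Ioo 0 L) : deriv (th L) x = 0 := by
  have h : th L =ᶠ[𝓝 x] fun _ => (1 : ℝ) := by
    filter_upwards [isOpen_Ioo.mem_nhds hx] with y hy
    exact th_one (by linarith [hy.1]) (by linarith [hy.2])
  rw [h.deriv_eq, deriv_const]

theorem dth_cont (L : ℝ) : Continuous (deriv (th L)) :=
  (th_smooth L).continuous_deriv (by simp)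

theorem damp_zero {L x : ℝ} (hx : x ∈ Ioo 0 L) : damp L x = 0 := by
  unfold damp
  rw [st_one (by linarith [hx.1]), st_one (by linarith [hx.2])]
  norm_num

theorem damp_meas (L : ℝ) : Measurable (damp L) := by
  have h : Continuous (damp L) := by
    unfold damp
    exact continuous_const.sub ((st_smooth.continuous.comp (by fun_prop)).mul
      (st_smooth.continuous.comp (by fun_prop)))
  exact h.measurable

theorem st_abs (x : ℝ) : |st x| ≤ 1 := by
  unfold st
  rw [abs_of_nonneg (Real.smoothTransition.nonneg x)]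
  exact Real.smoothTransition.le_one x

theorem damp_bdd (L : ℝ) : ∃ C, ∀ x, |damp L x| ≤ C := by
  refine ⟨2, fun x => ?_⟩
  unfold damp
  refine (abs_sub _ _).trans ?_
  rw [abs_one, abs_mul]
  have := mul_le_mul (st_abs (4 * x + 1)) (st_abs (4 * (L - x) + 1)) (abs_nonneg _) zero_le_one
  linarith

theorem one_meas (L : ℝ) : Measurable (one L) := by
  unfold one
  exact measurable_const.indicator measurableSet_Ioo

theorem one_bdd (L : ℝ) : ∃ C, ∀ x, |one L x| ≤ C := by
  refine ⟨1, fun x => ?_⟩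
  unfold one
  by_cases h : x ∈ Ioo (0 : ℝ) L <;> simp [h]

theorem PP_ae (L : ℝ) (z : HH n) (j : Fin n) :
    ∀ᵐ x ∂volume, PP n L z j x = one L x * z j x :=
  mulOp_ae (one_meas L) (one_bdd L) (z j)

theorem Hm_cont (g : Fin n → Fin n → Fin n → ℝ) {X : ℝ → Fin n → ℝ}
    (hX : ∀ j, Continuous fun x => X x j) (j k : Fin n) : Continuous fun x => Hm g (X x) j k := by
  unfold Hm
  exact continuous_finsetSum _ fun l _ => continuous_const.mul (hX l)

theorem bdd_of {f : ℝ → ℝ} (hf : Continuous f) (hc : HasCompactSupport f) :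
    ∃ C, ∀ x, |f x| ≤ C := by
  obtain ⟨C, hC⟩ := hf.bounded_above_of_compact_support hc
  exact ⟨C, fun x => by simpa using hC x⟩

theorem tmap_ae (L : ℝ) (g : Fin n → Fin n → Fin n → ℝ) {X X1 : ℝ → Fin n → ℝ}
    (hX : ∀ j, Continuous fun x => X x j) (hX1 : ∀ j, Continuous fun x => X1 x j)
    (z : VV n L) (j : Fin n) : ∀ᵐ x ∂volume, tmap n L g X X1 z j x =
      ∑ k, (-(th L x * Hm g (X x) j k) * dd k z x +
        -(1 / 2 * deriv (th L) x * Hm g (X x) j k + th L x * Hm g (X1 x) j k) * uu k z x) := by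
  have h : tmap n L g X X1 z j = ∑ k, (mulOp (fun x => -(th L x * Hm g (X x) j k)) (dd k z) +
      mulOp (fun x => -(1 / 2 * deriv (th L) x * Hm g (X x) j k +
        th L x * Hm g (X1 x) j k)) (uu k z)) := by
    unfold tmap
    rw [mkH_apply]
    simp
  rw [h]
  refine QuadrAux.sum_ae Finset.univ _ (fun k x => -(th L x * Hm g (X x) j k) * dd k z x +
        -(1 / 2 * deriv (th L) x * Hm g (X x) j k + th L x * Hm g (X1 x) j k) * uu k z x) ?_
  intro k
  have c1 : Continuous fun x => -(th L x * Hm g (X x) j k) :=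
    ((th_smooth L).continuous.mul (Hm_cont g hX j k)).neg
  have c2 : Continuous fun x => -(1 / 2 * deriv (th L) x * Hm g (X x) j k +
      th L x * Hm g (X1 x) j k) :=
    (((continuous_const.mul (dth_cont L)).mul (Hm_cont g hX j k)).add
      ((th_smooth L).continuous.mul (Hm_cont g hX1 j k))).neg
  have s1 : HasCompactSupport fun x => -(th L x * Hm g (X x) j k) := by
    refine (th_compact L).mono fun x hx => ?_
    rw [Function.mem_support] at hx ⊢
    intro h0
    exact hx (by rw [h0]; ring)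
  have s2 : HasCompactSupport fun x => -(1 / 2 * deriv (th L) x * Hm g (X x) j k +
      th L x * Hm g (X1 x) j k) := by
    refine HasCompactSupport.intro (K := tsupport (th L)) (th_compact L) fun x hx => ?_
    have h0 : th L x = 0 := image_eq_zero_of_notMem_tsupport hx
    have h1 : deriv (th L) x = 0 := by
      by_contra h2
      exact hx (support_deriv_subset h2)
    rw [h0, h1]
    ring
  filter_upwards [Lp.coeFn_add (mulOp (fun x => -(th L x * Hm g (X x) j k)) (dd k z))
      (mulOp (fun x => -(1 / 2 * deriv (th L) x * Hm g (X x) j k +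
        th L x * Hm g (X1 x) j k)) (uu k z)), mulOp_ae c1.measurable (bdd_of c1 s1) (dd k z),
    mulOp_ae c2.measurable (bdd_of c2 s2) (uu k z)] with x h1 h2 h3
  rw [h1, Pi.add_apply, h2, h3]

theorem chi_in {L x : ℝ} (hx : x ∈ Ioo 0 L) : chi L x = 1 := by
  unfold chi
  rw [min_eq_left, max_eq_right zero_le_one]
  exact le_min (by linarith [hx.1]) (by linarith [hx.2])

theorem dchi_in {L x : ℝ} (hx : x ∈ Ioo 0 L) : dchi L x = 0 := by
  unfold dchi
  rw [indicator_of_notMem (fun h => by linarith [h.2, hx.1] : x ∉ Ioo (-1 : ℝ) 0),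
    indicator_of_notMem (fun h => by linarith [h.1, hx.2] : x ∉ Ioo L (L + 1))]
  simp

theorem alg (g : Fin n → Fin n → Fin n → ℝ) (g23 : ∀ j k l, g j k l = g j l k) (j : Fin n)
    (w w1 z z1 : Fin n → ℝ) :
    -∑ k, ∑ l, g j k l * ((w k + z k) * (w1 l + z1 l)) =
      -∑ k, ∑ l, g j k l * (w k * w1 l) + -∑ k, ∑ l, g j k l * (z k * z1 l) +
        ∑ k, (-(Hm g w j k) * z1 k + -(Hm g w1 j k) * z k) := by
  have e1 : ∑ k, -(Hm g w j k) * z1 k = -∑ k, ∑ l, g j k l * (w k * z1 l) := by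
    rw [Finset.sum_comm, ← Finset.sum_neg_distrib]
    refine Finset.sum_congr rfl fun k _ => ?_
    unfold Hm
    rw [neg_mul, Finset.sum_mul]
    congr 1
    refine Finset.sum_congr rfl fun l _ => ?_
    rw [g23 j k l]
    ring
  have e2 : ∑ k, -(Hm g w1 j k) * z k = -∑ k, ∑ l, g j k l * (z k * w1 l) := by
    rw [← Finset.sum_neg_distrib]
    refine Finset.sum_congr rfl fun k _ => ?_
    unfold Hm
    rw [neg_mul, Finset.sum_mul]
    congr 1
    refine Finset.sum_congr rfl fun l _ => ?_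
    ring
  rw [Finset.sum_add_distrib, e1, e2]
  simp only [← Finset.sum_neg_distrib, ← Finset.sum_add_distrib]
  refine Finset.sum_congr rfl fun k _ => Finset.sum_congr rfl fun l _ => ?_
  ring

/-- The nonlinear term of the sum. -/
theorem key (p : Pr n) {X X1 : ℝ → Fin n → ℝ}
    (hX : ∀ j, Continuous fun x => X x j) (hX1 : ∀ j, Continuous fun x => X1 x j)
    (b z : VV n p.L) (hb : ∀ j, ∀ᵐ x ∂volume, x ∈ J p.L → uu j b x = X x j ∧ dd j b x = X1 x j)
    (D : ℝ) :
    PP n p.L (lmap n p.L p.S (b + z) + qmap n p.L p.g (b + z)) =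
      PP n p.L (lmap n p.L p.S b + qmap n p.L p.g b) + PP n p.L (nl p X X1 D z) := by
  rw [← map_add]
  have e : lmap n p.L p.S (b + z) + qmap n p.L p.g (b + z) -
      (lmap n p.L p.S b + qmap n p.L p.g b + nl p X X1 D z) =
      qmap n p.L p.g (b + z) - qmap n p.L p.g b - qmap n p.L p.g z - tmap n p.L p.g X X1 z +
        D • mulH (damp p.L) (inc n p.L z) := by
    unfold nl
    rw [map_add]
    abel
  rw [← sub_eq_zero, ← map_sub, e]
  ext1 j
  refine Lp.ext ?_
  have hzero := Lp.coeFn_zero ℝ 2 (volume : Measure ℝ)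
  have a1 := PP_ae p.L (qmap n p.L p.g (b + z) - qmap n p.L p.g b - qmap n p.L p.g z -
    tmap n p.L p.g X X1 z + D • mulH (damp p.L) (inc n p.L z)) j
  have a2 := Lp.coeFn_add (qmap n p.L p.g (b + z) j - qmap n p.L p.g b j - qmap n p.L p.g z j -
    tmap n p.L p.g X X1 z j) (D • mulOp (damp p.L) (uu j z))
  have a3 := Lp.coeFn_sub (qmap n p.L p.g (b + z) j - qmap n p.L p.g b j - qmap n p.L p.g z j)
    (tmap n p.L p.g X X1 z j)
  have a4 := Lp.coeFn_sub (qmap n p.L p.g (b + z) j - qmap n p.L p.g b j) (qmap n p.L p.g z j)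
  have a5 := Lp.coeFn_sub (qmap n p.L p.g (b + z) j) (qmap n p.L p.g b j)
  have a6 := Lp.coeFn_smul D (mulOp (damp p.L) (uu j z))
  have a7 := mulOp_ae (damp_meas p.L) (damp_bdd p.L) (uu j z)
  have a8 := qmap_ae p.hL p.g (b + z) j
  have a9 := qmap_ae p.hL p.g b j
  have a10 := qmap_ae p.hL p.g z j
  have a11 := tmap_ae p.L p.g hX hX1 z j
  have a12 : ∀ᵐ x ∂volume, ∀ k, uu k (b + z) x = uu k b x + uu k z x :=
    ae_all_iff.mpr fun k => by
      rw [map_add]
      exact Lp.coeFn_add _ _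
  have a13 : ∀ᵐ x ∂volume, ∀ k, dd k (b + z) x = dd k b x + dd k z x :=
    ae_all_iff.mpr fun k => by
      rw [map_add]
      exact Lp.coeFn_add _ _
  filter_upwards [hzero, a1, a2, a3, a4, a5, a6, a7, a8, a9, a10, a11, a12, a13,
    ae_all_iff.mpr hb] with x hzero a1 a2 a3 a4 a5 a6 a7 a8 a9 a10 a11 a12 a13 hb
  change PP n p.L (qmap n p.L p.g (b + z) - qmap n p.L p.g b - qmap n p.L p.g z -
    tmap n p.L p.g X X1 z + D • mulH (damp p.L) (inc n p.L z)) j x = (0 : L2) x
  rw [a1, hzero, Pi.zero_apply]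
  by_cases hx : x ∈ Ioo 0 p.L
  · have hJ : x ∈ J p.L := ⟨by linarith [hx.1], by linarith [hx.2]⟩
    have a14 : (qmap n p.L p.g (b + z) - qmap n p.L p.g b - qmap n p.L p.g z -
      tmap n p.L p.g X X1 z + D • mulH (damp p.L) (inc n p.L z)) j x =
      (qmap n p.L p.g (b + z) j - qmap n p.L p.g b j - qmap n p.L p.g z j -
        tmap n p.L p.g X X1 z j + D • mulOp (damp p.L) (uu j z) : L2) x := rfl
    rw [a14, a2, Pi.add_apply, a3, Pi.sub_apply, a4, Pi.sub_apply, a5, Pi.sub_apply, a6,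
      Pi.smul_apply, a7, a8, a9, a10, a11, damp_zero hx, chi_in hx, dchi_in hx,
      th_one (by linarith [hx.1]) (by linarith [hx.2]), dth_zero hx]
    simp only [a12, a13]
    have h1 := alg p.g p.g23 j (fun k => X x k) (fun k => X1 x k) (fun k => uu k z x)
      (fun k => dd k z x)
    have e1 : ∀ k, uu k b x = X x k := fun k => (hb k hJ).1
    have e2 : ∀ k, dd k b x = X1 x k := fun k => (hb k hJ).2
    simp only [e1, e2, mul_zero, zero_mul, add_zero, one_mul, smul_eq_mul, zero_add]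
    have e3 : (fun k => X x k) = X x := rfl
    have e4 : (fun k => X1 x k) = X1 x := rfl
    rw [e3, e4] at h1
    rw [h1]
    ring
  · have h0 : one p.L x = 0 := indicator_of_notMem hx _
    rw [h0, zero_mul]

theorem fin_add {E : Type} [NormedAddCommGroup E] {t : ℝ} {a b : ℝ → E}
    (ha : ∫⁻ s in Ioc (0 : ℝ) t, ‖a s‖ₑ ^ 2 < ⊤) (hb : ∫⁻ s in Ioc (0 : ℝ) t, ‖b s‖ₑ ^ 2 < ⊤)
    (hm : AEStronglyMeasurable a (volume.restrict (Ioc 0 t))) :
    ∫⁻ s in Ioc (0 : ℝ) t, ‖a s + b s‖ₑ ^ 2 < ⊤ := by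
  have h1 : ∀ s, ‖a s + b s‖ₑ ^ 2 ≤ 2 * ‖a s‖ₑ ^ 2 + 2 * ‖b s‖ₑ ^ 2 := by
    intro s
    have h2 := enorm_add_le (a s) (b s)
    have h3 := ENNReal.rpow_add_le_mul_rpow_add_rpow ‖a s‖ₑ ‖b s‖ₑ (p := 2) (by norm_num)
    have e : (2 : ℝ) - 1 = 1 := by norm_num
    rw [e, ENNReal.rpow_one, ENNReal.rpow_two, ENNReal.rpow_two, ENNReal.rpow_two, mul_add] at h3
    exact (pow_le_pow_left' h2 2).trans h3
  refine (lintegral_mono h1).trans_lt ?_
  rw [lintegral_add_left' ((hm.enorm.pow_const 2).const_mul 2),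
    lintegral_const_mul' _ _ (by norm_num), lintegral_const_mul' _ _ (by norm_num)]
  exact ENNReal.add_lt_top.mpr ⟨ENNReal.mul_lt_top (by norm_num) ha,
    ENNReal.mul_lt_top (by norm_num) hb⟩

theorem path_add {H V : Type} [NormedAddCommGroup H] [InnerProductSpace ℝ H]
    [CompleteSpace H] [NormedAddCommGroup V] [NormedSpace ℝ V] {S : Sm H V} {y z : H} {t : ℝ}
    {f g : ℝ → H} {a b : ℝ → V} (h1 : S.Path y t f a) (h2 : S.Path z t g b) :
    S.Path (y + z) t (fun s => f s + g s) (fun s => a s + b s) := by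
  refine ⟨h1.int.add h2.int, h1.meas.add h2.meas, fin_add h1.fin h2.fin h1.meas, ?_⟩
  filter_upwards [h1.lift, h2.lift, ae_restrict_mem measurableSet_Ioc] with s e1 e2 hs
  rw [S.traj_add y z h1.int h2.int ⟨hs.1.le, hs.2⟩, map_add, e1, e2]

end Inf14Aux

open Inf14Aux in
/-- INF14. The perturbed background is admissible. -/
theorem Run.adm {p : Pr n} {τ : ℝ} (hτ : 0 ≤ τ) {B : Bk p τ} {D : ℝ → ℝ} {z0 : HH n}
    {f : ℝ → HH n} {v : ℝ → VV n p.L} (h : Run p B D z0 f v) {t : ℝ} (ht : t ∈ Icc 0 τ) :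
    p.Adm (B.b0 + z0) (p.sm.traj B.b0 B.fb t + p.sm.traj z0 f t) t := by
  have hs : Ioc (0 : ℝ) t ⊆ Ioc 0 τ := Ioc_subset_Ioc_right ht.2
  have hm : (volume : Measure ℝ).restrict (Ioc 0 t) ≤ volume.restrict (Ioc 0 τ) :=
    Measure.restrict_mono hs le_rfl
  refine ⟨fun s => B.fb s + f s, fun s => B.vb s + v s,
    path_add (B.path.mono ht.2) (h.path.mono ht.2), ?_, ?_⟩
  · filter_upwards [ae_mono hm h.eq, ae_mono hm B.eq, ae_mono hm B.rep] with s e1 e2 e3
    have hX : ∀ j, Continuous fun x => B.w s x j := fun j =>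
      (B.cw j).comp (continuous_const.prodMk continuous_id)
    have hX1 : ∀ j, Continuous fun x => B.wx s x j := fun j =>
      (B.cwx j).comp (continuous_const.prodMk continuous_id)
    rw [key p hX hX1 (B.vb s) (v s) e3 (D s), map_add, e2, e1, map_add, map_sub]
    abel
  · exact p.sm.traj_add B.b0 z0 B.path.int h.path.int ht

end Pool.Agent.KG
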