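import Pool.Agent.Lib.KG.Defs
import Pool.Agent.Lib.MP_78c35a_an.Glue

/-!
# INF15: concatenation of admissible steerings
-/

set_option autoImplicit false

namespace Pool.Agent.KG

open MeasureTheory Filter Topology Set
open Pool.Agent.Kdv
open scoped ENNReal ContDiff InnerProductSpace

variable {n : ℕ}

/-- INF15. -/
theorem Adm.trans {p : Pr n} {y0 y1 y2 : HH n} {a b : ℝ} (ha : 0 ≤ a) (hb : 0 ≤ b)
    (h1 : p.Adm y0 y1 a) (h2 : p.Adm y1 y2 b) : p.Adm y0 y2 (a + b) := by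
  obtain ⟨f, v, hp, hf, hT⟩ := h1
  obtain ⟨g, w, hq, hg, hT'⟩ := h2
  rw [← hT] at hq hT'
  refine ⟨glue a f g, glue a v w, hp.glue ha hb hq, ?_, ?_⟩
  · exact ae_glue (p := fun x y => PP n p.L x =
      PP n p.L (lmap n p.L p.S y + qmap n p.L p.g y)) ha hb hf hg
  · rw [Sm.traj_glue _ _ ha hb hp.int hq.int, hT']

end Pool.Agent.KG
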