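import Pool.Agent.Lib.MP_78c35a_an.Glue
import Pool.Agent.Lib.MP_78c35a_an.Rev

/-!
# Abstract control systems without a monotone functional
-/

set_option autoImplicit false
set_option linter.unusedSectionVars false

namespace Pool.Agent.KG

open MeasureTheory Filter Topology Set
open Pool.Agent.Kdv
open scoped ENNReal InnerProductSpace

/-- A control system: the group, a reversible skew-symmetric nonlinear term `l + q`, and the
projection `P` onto the states of the controlled region. -/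
structure Sys0 (H V : Type) [NormedAddCommGroup H] [InnerProductSpace ℝ H]
    [NormedAddCommGroup V] [NormedSpace ℝ V] extends Sm H V where
  /-- reversal of states -/
  rho : H →L[ℝ] H
  /-- reversal -/
  rhoV : V →L[ℝ] V
  rho_rho : ∀ y, rho (rho y) = y
  rho_norm : ∀ y, ‖rho y‖ = ‖y‖
  rho_U : ∀ t y, rho (U t y) = U (-t) (rho y)
  inc_rhoV : ∀ p, inc (rhoV p) = rho (inc p)
  /-- the projection onto the controlled region -/
  P : H →L[ℝ] H
  P_P : ∀ y, P (P y) = P y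
  P_symm : ∀ x y : H, inner ℝ (P x) y = inner ℝ x (P y)
  P_rho : ∀ y, P (rho y) = rho (P y)
  /-- linear part -/
  l : V →L[ℝ] H
  /-- quadratic part -/
  q : V → H
  l_skew : ∀ p, inner ℝ (l p) (inc p) = 0
  q_skew : ∀ p, inner ℝ (q p) (inc p) = 0
  l_rho : ∀ p, l (rhoV p) = -rho (l p)
  q_rho : ∀ p, q (rhoV p) = -rho (q p)
  q_zero : q 0 = 0
  /-- the constant of the quadratic part -/
  K : ℝ
  K_nonneg : 0 ≤ K
  q_quad : toSm.Quad q K
  q_lip : ∀ a b, ‖q a - q b‖ ≤ K * (‖a - b‖ * (‖a‖ + ‖b‖))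
  cpt : ∀ ε : ℝ, 0 < ε → ∃ (N : ℕ) (w : Fin N → H), ∀ p : V,
    ‖P (inc p)‖ ^ 2 ≤ ε * ‖p‖ ^ 2 + ∑ j, (inner ℝ (w j) (inc p)) ^ 2
  uniq : ∀ (T : ℝ) (y : H) (f : ℝ → H) (v : ℝ → V), 0 < T → toSm.Path y T f v →
    (∀ᵐ t ∂volume.restrict (Ioc (0 : ℝ) T), f t = l (v t)) →
    (∀ᵐ t ∂volume.restrict (Ioc (0 : ℝ) T), P (inc (v t)) = inc (v t)) → y = 0

section

variable {H V : Type} [NormedAddCommGroup H] [InnerProductSpace ℝ H]
  [NormedAddCommGroup V] [NormedSpace ℝ V]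

/-- The state `y0` can be steered to `y1` in time `T`. -/
def Sys0.Adm (S : Sys0 H V) (y0 y1 : H) (T : ℝ) : Prop :=
  ∃ (f : ℝ → H) (v : ℝ → V), S.toSm.Path y0 T f v ∧
    (∀ᵐ t ∂volume.restrict (Ioc (0 : ℝ) T), S.P (f t) = S.P (S.l (v t) + S.q (v t))) ∧
    S.toSm.traj y0 f T = y1

/-- The damped linear term. -/
noncomputable def Sys0.ld (S : Sys0 H V) : V →L[ℝ] H :=
  S.l - (ContinuousLinearMap.id ℝ H - S.P).comp S.inc

end

section

variable {H V : Type} [NormedAddCommGroup H] [InnerProductSpace ℝ H] [CompleteSpace H]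
  [NormedAddCommGroup V] [NormedSpace ℝ V]


theorem Sys0.Adm.refl (S : Sys0 H V) (y : H) : S.Adm y y 0 := by
  have e : (volume : Measure ℝ).restrict (Ioc 0 0) = 0 := by
    rw [Ioc_self, Measure.restrict_empty]
  refine ⟨fun _ => 0, fun _ => 0, ⟨?_, ?_, ?_, ?_⟩, ?_, S.toSm.traj_zero y _⟩
  · rw [Ioc_self]
    exact integrableOn_empty
  · rw [e]
    exact aestronglyMeasurable_zero_measure _
  · rw [e, lintegral_zero_measure]
    exact ENNReal.zero_lt_top
  · rw [e, ae_zero]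
    exact eventually_bot
  · rw [e, ae_zero]
    exact eventually_bot

theorem Sys0.Adm.trans {S : Sys0 H V} {y0 y1 y2 : H} {a b : ℝ} (ha : 0 ≤ a) (hb : 0 ≤ b)
    (h1 : S.Adm y0 y1 a) (h2 : S.Adm y1 y2 b) : S.Adm y0 y2 (a + b) := by
  obtain ⟨f, v, hp, hf, rfl⟩ := h1
  obtain ⟨g, w, hq, hg, rfl⟩ := h2
  exact ⟨glue a f g, glue a v w, hp.glue ha hb hq,
    ae_glue (p := fun x z => S.P x = S.P (S.l z + S.q z)) ha hb hf hg,
    S.toSm.traj_glue y0 ha hb hp.int hq.int⟩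



open Pool.Agent.Kdv.Rev

theorem Sys0.traj_rev (S : Sys0 H V) (y : H) {f : ℝ → H} {T : ℝ} (hf : IntegrableOn f (Ioc 0 T))
    {t : ℝ} (ht : t ∈ Icc 0 T) :
    S.toSm.traj (S.rho (S.toSm.traj y f T)) (fun s => -S.rho (f (T - s))) t =
      S.rho (S.toSm.traj y f (T - t)) := by
  have h0T : 0 ≤ T := ht.1.trans ht.2
  -- the integrand
  set g : ℝ → H := fun r => S.U (t - T + r) (S.rho (f r)) with hg
  have hU : ∀ a b z, S.U a (S.rho (S.U b z)) = S.U (a - b) (S.rho z) := by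
    intro a b z
    rw [S.rho_U, ← S.U_add, sub_eq_add_neg]
  have hU' : ∀ b z, S.rho (S.U b z) = S.U (-b) (S.rho z) := fun b z => S.rho_U b z
  have hgi : IntegrableOn g (Ioc 0 T) := by
    have h1 := S.toSm.traj_int hf T
    have h2 := (S.U t).integrable_comp (S.rho.integrable_comp h1)
    refine h2.congr (Eventually.of_forall fun r => ?_)
    simp only [hg]
    rw [hU]
    congr 2
    ring
  have hgI : ∀ a b, a ∈ Icc 0 T → b ∈ Icc 0 T → IntervalIntegrable g volume a b := by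
    intro a b ha hb
    rw [intervalIntegrable_iff]
    refine hgi.mono_set fun x hx => ?_
    rw [uIoc, mem_Ioc] at hx
    exact ⟨lt_of_le_of_lt (le_min ha.1 hb.1) hx.1, hx.2.trans (max_le ha.2 hb.2)⟩
  -- the first integral
  have hi : ∀ τ, τ ∈ Icc 0 T → IntervalIntegrable (fun s => S.U (τ - s) (f s)) volume 0 τ := by
    intro τ hτ
    rw [intervalIntegrable_iff, uIoc_of_le hτ.1]
    exact (S.toSm.traj_int hf τ).mono_set (Ioc_subset_Ioc_right hτ.2)
  have e1 : S.U t (S.rho (∫ s in (0 : ℝ)..T, S.U (T - s) (f s))) = ∫ r in (0 : ℝ)..T, g r := by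
    have h1 := (S.rho.intervalIntegral_comp_comm (hi T ⟨h0T, le_rfl⟩)).symm
    have h2 : IntervalIntegrable (fun s => S.rho (S.U (T - s) (f s))) volume 0 T := by
      rw [intervalIntegrable_iff, uIoc_of_le h0T]
      exact S.rho.integrable_comp (S.toSm.traj_int hf T)
    rw [h1, ← (S.U t).intervalIntegral_comp_comm h2]
    refine intervalIntegral.integral_congr fun r _ => ?_
    simp only [hg]
    rw [hU]
    congr 2
    ring
  have e2 : ∫ s in (0 : ℝ)..t, S.U (t - s) (-S.rho (f (T - s))) = -∫ r in (T - t)..T, g r := by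
    have h1 : ∀ s, S.U (t - s) (-S.rho (f (T - s))) = -g (T - s) := by
      intro s
      simp only [hg]
      rw [map_neg]
      congr 3
      ring
    simp only [h1]
    rw [intervalIntegral.integral_neg, intervalIntegral.integral_comp_sub_left, sub_zero]
  have e3 : S.rho (∫ s in (0 : ℝ)..(T - t), S.U (T - t - s) (f s)) =
      ∫ r in (0 : ℝ)..(T - t), g r := by
    have hT' : T - t ∈ Icc 0 T := ⟨by linarith [ht.2], by linarith [ht.1]⟩
    rw [← S.rho.intervalIntegral_comp_comm (hi _ hT')]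
    refine intervalIntegral.integral_congr fun r _ => ?_
    simp only [hg]
    rw [hU']
    congr 2
    ring
  have e4 : (∫ r in (0 : ℝ)..T, g r) = (∫ r in (0 : ℝ)..(T - t), g r) + ∫ r in (T - t)..T, g r :=
    (intervalIntegral.integral_add_adjacent_intervals
      (hgI _ _ ⟨le_rfl, h0T⟩ ⟨by linarith [ht.2], by linarith [ht.1]⟩)
      (hgI _ _ ⟨by linarith [ht.2], by linarith [ht.1]⟩ ⟨h0T, le_rfl⟩)).symm
  unfold Sm.traj
  rw [map_add, map_add, map_add, e1, e2, e3, e4, hU, hU']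
  have e5 : -(T - t) = t - T := by ring
  rw [e5]
  abel

theorem Sys0.path_rev (S : Sys0 H V) {y : H} {f : ℝ → H} {v : ℝ → V} {T : ℝ} (hT : 0 ≤ T)
    (h : S.toSm.Path y T f v) :
    S.toSm.Path (S.rho (S.toSm.traj y f T)) T (fun s => -S.rho (f (T - s)))
      (fun s => S.rhoV (v (T - s))) := by
  refine ⟨?_, ?_, ?_, ?_⟩
  · exact (S.rho.integrable_comp (int_rev h.int)).neg
  · exact S.rhoV.continuous.comp_aestronglyMeasurable
      (h.meas.comp_measurePreserving (mp_sub T))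
  · have h1 : ∫⁻ t in Ioc (0 : ℝ) T, ‖v (T - t)‖ₑ ^ 2 = ∫⁻ t in Ioc (0 : ℝ) T, ‖v t‖ₑ ^ 2 := by
      have hm : AEMeasurable (fun t => ‖v t‖ₑ ^ 2) (volume.restrict (Ioc (0 : ℝ) T)) :=
        h.meas.enorm.pow_const 2
      rw [← (mp_sub T).map_eq] at hm
      have h2 := lintegral_map' hm (mp_sub T).aemeasurable
      rw [(mp_sub T).map_eq] at h2
      exact h2.symm
    have h2 : ∫⁻ t in Ioc (0 : ℝ) T, ‖S.rhoV (v (T - t))‖ₑ ^ 2 ≤
        ∫⁻ t in Ioc (0 : ℝ) T, ‖S.rhoV‖ₑ ^ 2 * ‖v (T - t)‖ₑ ^ 2 := by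
      refine lintegral_mono fun t => ?_
      rw [← mul_pow]
      exact pow_le_pow_left' (S.rhoV.le_opENorm _) 2
    refine h2.trans_lt ?_
    rw [lintegral_const_mul' _ _ (by finiteness), h1]
    exact ENNReal.mul_lt_top (by finiteness) h.fin
  · have h1 := (mp_sub T).quasiMeasurePreserving.ae h.lift
    filter_upwards [h1, ae_restrict_mem measurableSet_Ioc] with t h2 h3
    rw [S.traj_rev y h.int ⟨h3.1.le, h3.2⟩, S.inc_rhoV, h2]

theorem Sys0.Adm.rev {S : Sys0 H V} {y0 y1 : H} {T : ℝ} (hT : 0 ≤ T) (h : S.Adm y0 y1 T) :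
    S.Adm (S.rho y1) (S.rho y0) T := by
  obtain ⟨f, v, h1, h2, h3⟩ := h
  refine ⟨fun s => -S.rho (f (T - s)), fun s => S.rhoV (v (T - s)), ?_, ?_, ?_⟩
  · rw [← h3]
    exact S.path_rev hT h1
  · filter_upwards [(mp_sub T).quasiMeasurePreserving.ae h2] with t ht
    rw [map_neg, S.P_rho, ht, S.l_rho, S.q_rho, ← S.P_rho, ← map_neg, map_add, neg_add]
  · rw [← h3, S.traj_rev y0 h1.int ⟨hT, le_rfl⟩, sub_self, S.toSm.traj_zero]



end

end Pool.Agent.KG
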