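import Pool.Agent.Lib.MP_78c35a_an.Contr
import Pool.Agent.Lib.KG.S0Abs
/-!
# The damped linear flow is a strict contraction
-/

set_option autoImplicit false
set_option linter.unusedSectionVars false

namespace Pool.Agent.KG

open MeasureTheory Filter Topology Set
open Pool.Agent.Kdv
open scoped ENNReal InnerProductSpace

variable {H V : Type} [NormedAddCommGroup H] [InnerProductSpace ℝ H] [CompleteSpace H]
  [NormedAddCommGroup V] [NormedSpace ℝ V] [CompleteSpace V]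

namespace Ctr0

omit [CompleteSpace H] [CompleteSpace V] in
theorem inner_Q (S : Sys0 H V) (x : H) : inner ℝ (x - S.P x) x = ‖x - S.P x‖ ^ 2 := by
  have h1 : inner ℝ (x - S.P x) (S.P x) = (0 : ℝ) := by
    rw [← S.P_symm, map_sub, S.P_P, sub_self, inner_zero_left]
  have h2 : inner ℝ (x - S.P x) (x - S.P x) = ‖x - S.P x‖ ^ 2 := real_inner_self_eq_norm_sq _
  rw [inner_sub_right, h1, sub_zero] at h2
  exact h2

omit [CompleteSpace H] [CompleteSpace V] in
theorem norm_split (S : Sys0 H V) (x : H) : ‖x‖ ^ 2 = ‖S.P x‖ ^ 2 + ‖x - S.P x‖ ^ 2 := by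
  have h1 : inner ℝ (S.P x) (x - S.P x) = (0 : ℝ) := by
    rw [S.P_symm, map_sub, S.P_P, sub_self, inner_zero_right]
  have h2 : ‖S.P x + (x - S.P x)‖ ^ 2 = ‖S.P x‖ ^ 2 + ‖x - S.P x‖ ^ 2 := by
    rw [norm_add_sq_real, h1]
    ring
  rwa [add_sub_cancel] at h2

/-- The damped linear flow. -/
noncomputable def W (S : Sys0 H V) {T : ℝ} (Fl : H × XL H T →L[ℝ] XL H T) (y : H) (t : ℝ) : H :=
  S.toSm.traj y (Fl (y, 0)) t

section

variable (S : Sys0 H V) {T : ℝ} {Lf : H × XL H T →L[ℝ] YL V T} {Fl : H × XL H T →L[ℝ] XL H T}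

omit [CompleteSpace H] in
theorem int_Lp (f : XL H T) : IntegrableOn f (Ioc 0 T) volume :=
  (Lp.memLp f).integrable le_rfl

omit [CompleteSpace V] in
theorem W_cont (hT : 0 < T) (y : H) : ContinuousOn (W S Fl y) (Icc 0 T) :=
  S.toSm.traj_cont y hT.le (int_Lp _)

omit [CompleteSpace V] in
theorem W_add (y z : H) {t : ℝ} (ht : t ∈ Icc 0 T) :
    W S Fl (y + z) t = W S Fl y t + W S Fl z t := by
  unfold W
  rw [← S.toSm.traj_add y z (int_Lp _) (int_Lp _) ht]
  refine S.toSm.traj_congr _ ht.1 ?_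
  have h1 : ((y + z, (0 : XL H T)) : H × XL H T) = (y, 0) + (z, 0) := by simp
  have h2 := Lp.coeFn_add (Fl (y, 0)) (Fl (z, 0))
  rw [← map_add, ← h1] at h2
  exact ae_restrict_of_ae_restrict_of_subset (Ioc_subset_Ioc_right ht.2) h2

omit [CompleteSpace V] in
theorem W_smul (c : ℝ) (y : H) {t : ℝ} (ht : t ∈ Icc 0 T) :
    W S Fl (c • y) t = c • W S Fl y t := by
  unfold W
  rw [← S.toSm.traj_smul c y _ t]
  refine S.toSm.traj_congr _ ht.1 ?_
  have h1 : ((c • y, (0 : XL H T)) : H × XL H T) = c • (y, 0) := by simp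
  have h2 := Lp.coeFn_smul c (Fl (y, 0))
  rw [← map_smul, ← h1] at h2
  exact ae_restrict_of_ae_restrict_of_subset (Ioc_subset_Ioc_right ht.2) h2

omit [CompleteSpace H] [CompleteSpace V] in
theorem F_eq (hFl : IsFlow S.ld T Lf Fl) (y : H) :
    ∀ᵐ t ∂volume.restrict (Ioc (0 : ℝ) T), (Fl (y, 0)) t =
      S.l (Lf (y, Fl (y, 0)) t) - (S.inc (Lf (y, Fl (y, 0)) t) -
        S.P (S.inc (Lf (y, Fl (y, 0)) t))) := by
  filter_upwards [hFl y 0, Lp.coeFn_zero H 1 (volume.restrict (Ioc (0 : ℝ) T))] with t h1 h2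
  rw [h1, h2]
  simp [Sys0.ld]

theorem W_energy (hLf : S.toSm.IsLift T Lf) (hFl : IsFlow S.ld T Lf Fl) (y : H) {t : ℝ}
    (ht : t ∈ Icc 0 T) :
    ‖W S Fl y t‖ ^ 2 = ‖y‖ ^ 2 - 2 * ∫ s in (0 : ℝ)..t, ‖W S Fl y s - S.P (W S Fl y s)‖ ^ 2 := by
  have h := S.toSm.energy y (int_Lp (Fl (y, 0))) ht
  have h2 : ∫ s in (0 : ℝ)..t, inner ℝ ((Fl (y, 0)) s) (S.toSm.traj y (Fl (y, 0)) s) =
      ∫ s in (0 : ℝ)..t, -‖W S Fl y s - S.P (W S Fl y s)‖ ^ 2 := by
    rw [intervalIntegral.integral_of_le ht.1, intervalIntegral.integral_of_le ht.1]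
    refine integral_congr_ae ?_
    refine ae_restrict_of_ae_restrict_of_subset (Ioc_subset_Ioc_right ht.2) ?_
    filter_upwards [F_eq S hFl y, hLf.eq y (Fl (y, 0))] with s h1 h2
    rw [← h2, h1, inner_sub_left, S.l_skew, inner_Q]
    simp only [W]
    rw [← h2]
    ring
  rw [h2, intervalIntegral.integral_neg] at h
  unfold W at h ⊢
  rw [h]
  ring

theorem W_norm (hLf : S.toSm.IsLift T Lf) (hFl : IsFlow S.ld T Lf Fl) (y : H) {t : ℝ}
    (ht : t ∈ Icc 0 T) : ‖W S Fl y t‖ ≤ ‖y‖ := by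
  have h := W_energy S hLf hFl y ht
  have h2 : 0 ≤ ∫ s in (0 : ℝ)..t, ‖W S Fl y s - S.P (W S Fl y s)‖ ^ 2 :=
    intervalIntegral.integral_nonneg ht.1 fun s _ => by positivity
  exact abs_le_of_sq_le_sq' (by linarith) (norm_nonneg _) |>.2

/-- The flow at time `t` as an operator. -/
noncomputable def WL (hLf : S.toSm.IsLift T Lf) (hFl : IsFlow S.ld T Lf Fl) {t : ℝ}
    (ht : t ∈ Icc 0 T) : H →L[ℝ] H :=
  LinearMap.mkContinuous
    { toFun := fun y => W S Fl y t
      map_add' := fun y z => W_add S y z ht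
      map_smul' := fun c y => W_smul S c y ht } 1 (fun y => by
        simpa using W_norm S hLf hFl y ht)

theorem W_weak (hLf : S.toSm.IsLift T Lf) (hFl : IsFlow S.ld T Lf Fl) {t : ℝ} (ht : t ∈ Icc 0 T)
    {y : ℕ → H} {y0 : H} (h : ∀ z : H, Tendsto (fun k => inner ℝ z (y k)) atTop (𝓝 (inner ℝ z y0)))
    (z : H) : Tendsto (fun k => inner ℝ z (W S Fl (y k) t)) atTop (𝓝 (inner ℝ z (W S Fl y0 t))) := by
  have h1 : ∀ x : H, inner ℝ z (W S Fl x t) = inner ℝ ((WL S hLf hFl ht).adjoint z) x := by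
    intro x
    rw [ContinuousLinearMap.adjoint_inner_left]
    rfl
  simp only [h1]
  exact h _

omit [CompleteSpace V] in
theorem int_cont (hT : 0 < T) {g : ℝ → ℝ} (hg : ContinuousOn g (Icc 0 T)) :
    IntervalIntegrable g volume 0 T :=
  hg.intervalIntegrable_of_Icc hT.le

/-- The dissipation. -/
noncomputable def e (S : Sys0 H V) {T : ℝ} (Fl : H × XL H T →L[ℝ] XL H T) (y : H) : ℝ :=
  ∫ s in (0 : ℝ)..T, ‖W S Fl y s - S.P (W S Fl y s)‖ ^ 2

omit [CompleteSpace V] in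
theorem Q_cont (hT : 0 < T) (y : H) :
    ContinuousOn (fun s => W S Fl y s - S.P (W S Fl y s)) (Icc 0 T) :=
  (W_cont S hT y).sub (S.P.continuous.comp_continuousOn (W_cont S hT y))

omit [CompleteSpace V] in
theorem e_smul (hT : 0 < T) (c : ℝ) (y : H) : e S Fl (c • y) = c ^ 2 * e S Fl y := by
  unfold e
  rw [← intervalIntegral.integral_const_mul]
  refine intervalIntegral.integral_congr fun s hs => ?_
  rw [uIcc_of_le hT.le] at hs
  rw [W_smul S c y hs, map_smul, ← smul_sub, norm_smul, mul_pow, Real.norm_eq_abs, sq_abs]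

omit [CompleteSpace V] in
theorem e_nonneg (hT : 0 < T) (y : H) : 0 ≤ e S Fl y :=
  intervalIntegral.integral_nonneg hT.le fun s _ => by positivity

omit [CompleteSpace H] [CompleteSpace V] in
theorem Q_le (x : H) : ‖x - S.P x‖ ≤ ‖x‖ := by
  have := norm_split S x
  exact abs_le_of_sq_le_sq' (by nlinarith [sq_nonneg ‖S.P x‖]) (norm_nonneg _) |>.2

omit [CompleteSpace H] [CompleteSpace V] in
theorem inner_QQ (x z : H) : inner ℝ (x - S.P x) (z - S.P z) = inner ℝ (x - S.P x) z := by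
  have h1 : inner ℝ (x - S.P x) (S.P z) = (0 : ℝ) := by
    rw [← S.P_symm, map_sub, S.P_P, sub_self, inner_zero_left]
  rw [inner_sub_right, h1, sub_zero]

/-- Dominated convergence for continuous functions on an interval. -/
theorem dct (hT : 0 < T) {F : ℕ → ℝ → ℝ} {G : ℝ → ℝ} {M : ℝ}
    (hF : ∀ k, ContinuousOn (F k) (Icc 0 T)) (hM : ∀ k, ∀ s ∈ Icc (0 : ℝ) T, ‖F k s‖ ≤ M)
    (hl : ∀ s ∈ Icc (0 : ℝ) T, Tendsto (fun k => F k s) atTop (𝓝 (G s))) :
    Tendsto (fun k => ∫ s in (0 : ℝ)..T, F k s) atTop (𝓝 (∫ s in (0 : ℝ)..T, G s)) := by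
  refine intervalIntegral.tendsto_integral_filter_of_dominated_convergence (fun _ => M) ?_ ?_ ?_ ?_
  · refine Eventually.of_forall fun k => ?_
    rw [uIoc_of_le hT.le]
    exact ((hF k).mono Ioc_subset_Icc_self).aestronglyMeasurable measurableSet_Ioc
  · refine Eventually.of_forall fun k => Eventually.of_forall fun s hs => ?_
    rw [uIoc_of_le hT.le] at hs
    exact hM k s (Ioc_subset_Icc_self hs)
  · exact intervalIntegrable_const
  · refine Eventually.of_forall fun s hs => ?_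
    rw [uIoc_of_le hT.le] at hs
    exact hl s (Ioc_subset_Icc_self hs)

/-- The weak limit is not damped. -/
theorem e_limit (hT : 0 < T) (hLf : S.toSm.IsLift T Lf) (hFl : IsFlow S.ld T Lf Fl)
    {y : ℕ → H} {y0 : H} (hy : ∀ k, ‖y k‖ ≤ 1)
    (h : ∀ z : H, Tendsto (fun k => inner ℝ z (y k)) atTop (𝓝 (inner ℝ z y0)))
    (he : Tendsto (fun k => e S Fl (y k)) atTop (𝓝 0)) : e S Fl y0 = 0 := by
  set b : ℝ → H := fun s => W S Fl y0 s - S.P (W S Fl y0 s) with hb
  set a : ℕ → ℝ → H := fun k s => W S Fl (y k) s - S.P (W S Fl (y k) s) with ha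
  have hbc : ContinuousOn b (Icc 0 T) := Q_cont S hT y0
  have hac : ∀ k, ContinuousOn (a k) (Icc 0 T) := fun k => Q_cont S hT (y k)
  have h1 : Tendsto (fun k => ∫ s in (0 : ℝ)..T, inner ℝ (b s) (a k s)) atTop
      (𝓝 (∫ s in (0 : ℝ)..T, inner ℝ (b s) (b s))) := by
    refine dct (M := ‖y0‖ * 1) hT (fun k => hbc.inner (𝕜 := ℝ) (hac k)) (fun k s hs => ?_)
      (fun s hs => ?_)
    · refine (norm_inner_le_norm _ _).trans ?_
      refine mul_le_mul ?_ ?_ (norm_nonneg _) (norm_nonneg _)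
      · exact (Q_le S _).trans (W_norm S hLf hFl y0 hs)
      · exact ((Q_le S _).trans (W_norm S hLf hFl (y k) hs)).trans (hy k)
    · simp only [hb, ha, inner_QQ]
      exact W_weak S hLf hFl hs h _
  have h2 : ∀ k, ∫ s in (0 : ℝ)..T, inner ℝ (b s) (a k s) ≤ e S Fl y0 / 2 + e S Fl (y k) / 2 := by
    intro k
    have hi1 : IntervalIntegrable (fun s => ‖b s‖ ^ 2) volume 0 T :=
      int_cont hT (hbc.norm.pow 2)
    have hi2 : IntervalIntegrable (fun s => ‖a k s‖ ^ 2) volume 0 T :=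
      int_cont hT ((hac k).norm.pow 2)
    have : e S Fl y0 / 2 + e S Fl (y k) / 2 =
        ∫ s in (0 : ℝ)..T, (‖b s‖ ^ 2 / 2 + ‖a k s‖ ^ 2 / 2) := by
      rw [intervalIntegral.integral_add (hi1.div_const 2) (hi2.div_const 2),
        intervalIntegral.integral_div, intervalIntegral.integral_div]
      rfl
    rw [this]
    refine intervalIntegral.integral_mono_on hT.le (int_cont hT (hbc.inner (𝕜 := ℝ) (hac k)))
      ((hi1.div_const 2).add (hi2.div_const 2)) fun s _ => ?_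
    have h3 := real_inner_le_norm (b s) (a k s)
    nlinarith [sq_nonneg (‖b s‖ - ‖a k s‖)]
  have h3 : (∫ s in (0 : ℝ)..T, inner ℝ (b s) (b s)) = e S Fl y0 := by
    unfold e
    simp only [real_inner_self_eq_norm_sq]
    rfl
  rw [h3] at h1
  have h4 : Tendsto (fun k => e S Fl y0 / 2 + e S Fl (y k) / 2) atTop
      (𝓝 (e S Fl y0 / 2 + 0 / 2)) := tendsto_const_nhds.add (he.div_const 2)
  have h5 := le_of_tendsto_of_tendsto' h1 h4 h2
  have h6 := e_nonneg S (Fl := Fl) hT y0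
  linarith

/-- An undamped solution vanishes. -/
theorem eq_zero_of_e (hT : 0 < T) (hLf : S.toSm.IsLift T Lf) (hFl : IsFlow S.ld T Lf Fl)
    {y : H} (he : e S Fl y = 0) : y = 0 := by
  have h1 : ∀ᵐ s ∂volume.restrict (Ioc (0 : ℝ) T), W S Fl y s - S.P (W S Fl y s) = 0 := by
    have hi : IntegrableOn (fun s => ‖W S Fl y s - S.P (W S Fl y s)‖ ^ 2) (Ioc 0 T) volume := by
      have := int_cont hT ((Q_cont S (Fl := Fl) hT y).norm.pow 2)
      rwa [intervalIntegrable_iff_integrableOn_Ioc_of_le hT.le] at this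
    unfold e at he
    rw [intervalIntegral.integral_of_le hT.le,
      integral_eq_zero_iff_of_nonneg (fun s => by positivity) hi] at he
    filter_upwards [he] with s hs
    have hs' : ‖W S Fl y s - S.P (W S Fl y s)‖ ^ 2 = 0 := hs
    exact norm_eq_zero.1 (pow_eq_zero_iff (two_ne_zero) |>.1 hs')
  set v := Lf (y, Fl (y, 0)) with hv
  have hl := hLf.eq y (Fl (y, 0))
  refine S.uniq T y (Fl (y, 0)) v hT ⟨int_Lp _, Lp.aestronglyMeasurable _, ?_, hl⟩ ?_ ?_
  · have h2 := (Lp.memLp v).2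
    have h3 := lintegral_rpow_enorm_lt_top_of_eLpNorm_lt_top (two_ne_zero) (by simp) h2
    simpa using h3
  · filter_upwards [F_eq S hFl y, hl, h1] with s hs1 hs2 hs3
    rw [hs1, ← hv, hs2]
    unfold W at hs3
    rw [hs3, sub_zero]
  · filter_upwards [hl, h1] with s hs2 hs3
    rw [← hv] at hs2
    rw [hs2]
    unfold W at hs3
    exact (sub_eq_zero.1 hs3).symm

/-- The inequality from the compactness property. -/
theorem P_bound (hT : 0 < T) (hLf : S.toSm.IsLift T Lf) {ε : ℝ} {N : ℕ} {w : Fin N → H}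
    (hw : ∀ p : V, ‖S.P (S.inc p)‖ ^ 2 ≤ ε * ‖p‖ ^ 2 + ∑ j, (inner ℝ (w j) (S.inc p)) ^ 2)
    (y : H) : ∫ s in (0 : ℝ)..T, ‖S.P (W S Fl y s)‖ ^ 2 ≤ ε * ‖Lf (y, Fl (y, 0))‖ ^ 2 +
      ∑ j, ∫ s in (0 : ℝ)..T, (inner ℝ (w j) (W S Fl y s)) ^ 2 := by
  set v := Lf (y, Fl (y, 0)) with hv
  have hvi : Integrable (fun s => ‖v s‖ ^ 2) (volume.restrict (Ioc (0 : ℝ) T)) :=
    (Lp.memLp v).norm.integrable_sq
  have hn : ‖v‖ ^ 2 = ∫ s in (0 : ℝ)..T, ‖v s‖ ^ 2 := by
    rw [intervalIntegral.integral_of_le hT.le, Lp.norm_def,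
      (Lp.memLp v).eLpNorm_eq_integral_rpow_norm two_ne_zero (by simp)]
    have h0 : 0 ≤ ∫ s, ‖v s‖ ^ (2 : ℝ) ∂volume.restrict (Ioc (0 : ℝ) T) := by positivity
    simp only [ENNReal.toReal_ofNat]
    rw [ENNReal.toReal_ofReal (by positivity), ← Real.rpow_natCast, ← Real.rpow_mul h0]
    norm_num
  have hc := W_cont S (Fl := Fl) hT y
  have hwi : ∀ j, IntervalIntegrable (fun s => (inner ℝ (w j) (W S Fl y s)) ^ 2) volume 0 T :=
    fun j => int_cont hT ((continuousOn_const.inner (𝕜 := ℝ) hc).pow 2)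
  have hvi' : IntervalIntegrable (fun s => ‖v s‖ ^ 2) volume 0 T := by
    rw [intervalIntegrable_iff_integrableOn_Ioc_of_le hT.le]
    exact hvi
  have hsum : IntervalIntegrable (fun s => ∑ j, (inner ℝ (w j) (W S Fl y s)) ^ 2) volume 0 T :=
    int_cont hT (continuousOn_finsetSum _ fun j _ => (continuousOn_const.inner (𝕜 := ℝ) hc).pow 2)
  have hvε : IntervalIntegrable (fun s => ε * ‖v s‖ ^ 2) volume 0 T := hvi'.const_mul ε
  rw [hn, ← intervalIntegral.integral_const_mul,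
    ← intervalIntegral.integral_finsetSum (fun j _ => hwi j),
    ← intervalIntegral.integral_add hvε hsum]
  have hPi : IntervalIntegrable (fun s => ‖S.P (W S Fl y s)‖ ^ 2) volume 0 T :=
    int_cont hT ((S.P.continuous.comp_continuousOn hc).norm.pow 2)
  have hri := hvε.add hsum
  rw [intervalIntegrable_iff_integrableOn_Ioc_of_le hT.le] at hPi hri
  rw [intervalIntegral.integral_of_le hT.le, intervalIntegral.integral_of_le hT.le]
  refine integral_mono_ae hPi hri ?_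
  filter_upwards [hLf.eq y (Fl (y, 0))] with s hs
  have h1 := hw (v s)
  rw [← hv] at hs
  rw [hs] at h1
  exact h1

end

end Ctr0

open Ctr0 in
theorem Sys0.contr [SecondCountableTopology H] (S : Sys0 H V) {T : ℝ} (hT : 0 < T)
    {Lf : H × XL H T →L[ℝ] YL V T} (hLf : S.toSm.IsLift T Lf)
    {Fl : H × XL H T →L[ℝ] XL H T} (hFl : IsFlow S.ld T Lf Fl) :
    ∃ θ : ℝ, 0 ≤ θ ∧ θ < 1 ∧ ∀ y : H, ‖S.toSm.traj y (Fl (y, 0)) T‖ ≤ θ * ‖y‖ := by
  have key : ∃ c : ℝ, 0 < c ∧ ∀ y : H, c * ‖y‖ ^ 2 ≤ e S Fl y := by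
    by_contra hcon
    push Not at hcon
    -- a sequence of unit vectors with small dissipation
    have hseq : ∀ k : ℕ, ∃ y : H, ‖y‖ = 1 ∧ e S Fl y ≤ 1 / ((k : ℝ) + 1) := by
      intro k
      obtain ⟨y, hy⟩ := hcon (1 / ((k : ℝ) + 1)) (by positivity)
      have hy0 : 0 < ‖y‖ := by
        rw [norm_pos_iff]
        rintro rfl
        have := e_nonneg S (Fl := Fl) hT 0
        simp at hy
        linarith
      refine ⟨‖y‖⁻¹ • y, ?_, ?_⟩
      · rw [norm_smul, norm_inv, norm_norm, inv_mul_cancel₀ hy0.ne']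
      · rw [e_smul S hT]
        calc ‖y‖⁻¹ ^ 2 * e S Fl y ≤ ‖y‖⁻¹ ^ 2 * (1 / ((k : ℝ) + 1) * ‖y‖ ^ 2) := by gcongr
          _ = 1 / ((k : ℝ) + 1) := by field_simp
    choose y hy1 hye using hseq
    obtain ⟨y0, φ, hφ, hw⟩ := exists_weak_limit y fun k => (hy1 k).le
    set z : ℕ → H := fun k => y (φ k) with hz
    have hz1 : ∀ k, ‖z k‖ = 1 := fun k => hy1 _
    have hze : Tendsto (fun k => e S Fl (z k)) atTop (𝓝 0) := by
      refine squeeze_zero (fun k => e_nonneg S hT _) (fun k => hye (φ k)) ?_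
      exact tendsto_one_div_add_atTop_nhds_zero_nat.comp hφ.tendsto_atTop
    have he0 : e S Fl y0 = 0 := e_limit S hT hLf hFl (fun k => (hz1 k).le) hw hze
    have hy0 : y0 = 0 := eq_zero_of_e S hT hLf hFl he0
    subst hy0
    -- the lower bound
    have hlow : ∀ k, T * (1 - 2 * e S Fl (z k)) ≤ ∫ s in (0 : ℝ)..T, ‖W S Fl (z k) s‖ ^ 2 := by
      intro k
      have h1 : T * (1 - 2 * e S Fl (z k)) = ∫ _s in (0 : ℝ)..T, (1 - 2 * e S Fl (z k)) := by
        rw [intervalIntegral.integral_const]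
        simp
      rw [h1]
      refine intervalIntegral.integral_mono_on hT.le intervalIntegrable_const
        (int_cont hT ((W_cont S hT _).norm.pow 2)) fun s hs => ?_
      rw [W_energy S hLf hFl (z k) hs, hz1]
      have h2 : ∫ r in (0 : ℝ)..s, ‖W S Fl (z k) r - S.P (W S Fl (z k) r)‖ ^ 2 ≤ e S Fl (z k) := by
        refine intervalIntegral.integral_mono_interval le_rfl hs.1 hs.2
          (Eventually.of_forall fun r => by positivity) ?_
        exact int_cont hT ((Q_cont S hT _).norm.pow 2)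
      linarith
    -- the operator norm
    set A : H →L[ℝ] YL V T := Lf.comp ((ContinuousLinearMap.id ℝ H).prod
      (Fl.comp (ContinuousLinearMap.inl ℝ H (XL H T)))) with hA
    have hAe : ∀ x, Lf (x, Fl (x, 0)) = A x := fun x => by simp [hA]
    set ε : ℝ := T / (2 * (‖A‖ ^ 2 + 1)) with hε
    have hεp : 0 < ε := by positivity
    obtain ⟨N, w, hcpt⟩ := S.cpt ε hεp
    have hup : ∀ k, ∫ s in (0 : ℝ)..T, ‖W S Fl (z k) s‖ ^ 2 ≤ (ε * ‖A‖ ^ 2 +
        ∑ j, ∫ s in (0 : ℝ)..T, (inner ℝ (w j) (W S Fl (z k) s)) ^ 2) + e S Fl (z k) := by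
      intro k
      have h1 := P_bound S (Fl := Fl) hT hLf hcpt (z k)
      have h2 : ∫ s in (0 : ℝ)..T, ‖W S Fl (z k) s‖ ^ 2 =
          (∫ s in (0 : ℝ)..T, ‖S.P (W S Fl (z k) s)‖ ^ 2) + e S Fl (z k) := by
        have hi1 : IntervalIntegrable (fun s => ‖S.P (W S Fl (z k) s)‖ ^ 2) volume 0 T :=
          int_cont hT ((S.P.continuous.comp_continuousOn (W_cont S hT _)).norm.pow 2)
        have hi2 : IntervalIntegrable (fun s => ‖W S Fl (z k) s - S.P (W S Fl (z k) s)‖ ^ 2)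
            volume 0 T := int_cont hT ((Q_cont S hT _).norm.pow 2)
        unfold e
        rw [← intervalIntegral.integral_add hi1 hi2]
        exact intervalIntegral.integral_congr fun s _ => norm_split S _
      have h3 : ε * ‖Lf (z k, Fl (z k, 0))‖ ^ 2 ≤ ε * ‖A‖ ^ 2 := by
        rw [hAe]
        have := A.le_opNorm (z k)
        rw [hz1, mul_one] at this
        gcongr
      rw [h2]
      linarith
    have hlim : Tendsto (fun k => (ε * ‖A‖ ^ 2 +
        ∑ j, ∫ s in (0 : ℝ)..T, (inner ℝ (w j) (W S Fl (z k) s)) ^ 2) + e S Fl (z k)) atTop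
        (𝓝 ((ε * ‖A‖ ^ 2 + ∑ _j : Fin N, ∫ _s in (0 : ℝ)..T, (0 : ℝ)) + 0)) := by
      refine (tendsto_const_nhds.add (tendsto_finsetSum _ fun j _ => ?_)).add hze
      refine dct (M := (‖w j‖ * 1) ^ 2) hT
        (fun k => (continuousOn_const.inner (𝕜 := ℝ) (W_cont S hT _)).pow 2)
        (fun k s hs => ?_) (fun s hs => ?_)
      · rw [norm_pow]
        refine pow_le_pow_left₀ (norm_nonneg _) ?_ 2
        refine (norm_inner_le_norm _ _).trans ?_
        gcongr
        exact (W_norm S hLf hFl _ hs).trans (hz1 k).le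
      · have h4 := W_weak S hLf hFl hs hw (w j)
        have h5 : W S Fl 0 s = 0 := by
          have := W_smul S (Fl := Fl) 0 0 hs
          simpa using this
        rw [h5, inner_zero_right] at h4
        simpa using h4.pow 2
    have hlim2 : Tendsto (fun k => T * (1 - 2 * e S Fl (z k))) atTop (𝓝 (T * (1 - 2 * 0))) :=
      tendsto_const_nhds.mul (tendsto_const_nhds.sub (tendsto_const_nhds.mul hze))
    have hfin := le_of_tendsto_of_tendsto' hlim2 hlim fun k => (hlow k).trans (hup k)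
    simp only [intervalIntegral.integral_zero, Finset.sum_const_zero, add_zero, mul_zero,
      sub_zero, mul_one] at hfin
    have h7 : ε * ‖A‖ ^ 2 ≤ T / 2 := by
      have h8 : ‖A‖ ^ 2 ≤ ‖A‖ ^ 2 + 1 := by linarith
      calc ε * ‖A‖ ^ 2 ≤ ε * (‖A‖ ^ 2 + 1) := by gcongr
        _ = T / 2 := by
          rw [hε]
          field_simp
    linarith
  obtain ⟨c, hc, hkey⟩ := key
  have hTm : T ∈ Icc 0 T := ⟨hT.le, le_rfl⟩
  have hb : ∀ y : H, ‖W S Fl y T‖ ^ 2 ≤ (1 - 2 * c) * ‖y‖ ^ 2 := by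
    intro y
    have h1 := W_energy S hLf hFl y hTm
    have h2 := hkey y
    unfold e at h2
    linarith
  refine ⟨√(max 0 (1 - 2 * c)), Real.sqrt_nonneg _, ?_, fun y => ?_⟩
  · rw [Real.sqrt_lt' one_pos]
    exact max_lt (by norm_num) (by linarith)
  · refine abs_le_of_sq_le_sq' ?_ (by positivity) |>.2
    rw [mul_pow, Real.sq_sqrt (le_max_left _ _)]
    refine (hb y).trans ?_
    gcongr
    exact le_max_right _ _

end Pool.Agent.KG
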