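import Pool.Agent.Lib.KG.S0Russ
import Pool.Agent.Lib.KG.S0Contr
import Pool.Agent.Lib.MP_78c35a_an.LocCtrl
/-!
# Local exact control
-/

set_option autoImplicit false

namespace Pool.Agent.KG

open MeasureTheory Filter Topology Set
open Pool.Agent.Kdv
open scoped ENNReal InnerProductSpace

variable {H V : Type} [NormedAddCommGroup H] [InnerProductSpace ℝ H] [CompleteSpace H]
  [NormedAddCommGroup V] [NormedSpace ℝ V] [CompleteSpace V]

namespace Loc0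

theorem norm_ofReal {E : Type} [NormedAddCommGroup E] {p : ℝ≥0∞} {μ : Measure ℝ} (a : Lp E p μ) :
    eLpNorm a p μ = ENNReal.ofReal ‖a‖ := by
  rw [Lp.norm_def, ENNReal.ofReal_toReal (Lp.eLpNorm_ne_top a)]

omit [InnerProductSpace ℝ H] [CompleteSpace H] [NormedSpace ℝ V] [CompleteSpace V] in
/-- The estimate of the differences. -/
theorem eLpNorm_diff_le {μ : Measure ℝ} {q : V → H} {K : ℝ} (hK : 0 ≤ K)
    (hq : ∀ a b, ‖q a - q b‖ ≤ K * (‖a - b‖ * (‖a‖ + ‖b‖))) (a b : Lp V 2 μ) :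
    eLpNorm (fun t => q (a t) - q (b t)) 1 μ ≤
      ENNReal.ofReal (K * (‖a - b‖ * (‖a‖ + ‖b‖))) := by
  have ha := Lp.aestronglyMeasurable a
  have hb := Lp.aestronglyMeasurable b
  have hab := Lp.aestronglyMeasurable (a - b)
  have h1 : eLpNorm (fun t => q (a t) - q (b t)) 1 μ ≤
      eLpNorm (fun t => (K * ‖(a - b) t‖) * (‖a t‖ + ‖b t‖)) 1 μ := by
    refine eLpNorm_mono_ae ?_
    filter_upwards [Lp.coeFn_sub a b] with t ht
    rw [ht, Pi.sub_apply, Real.norm_of_nonneg (by positivity)]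
    refine (hq _ _).trans (le_of_eq (by ring))
  refine h1.trans ?_
  have h2 := eLpNorm_le_eLpNorm_mul_eLpNorm'_of_norm (p := 2) (q := 2) (r := 1) (μ := μ)
    (f := fun t => K * ‖(a - b) t‖) (g := fun t => ‖a t‖ + ‖b t‖)
    (hab.norm.const_mul K) (ha.norm.add hb.norm) (fun x y => x * y) 1
    (Eventually.of_forall fun t => by rw [norm_mul, NNReal.coe_one, one_mul])
  refine h2.trans ?_
  have h3 : eLpNorm (fun t => K * ‖(a - b) t‖) 2 μ ≤ ENNReal.ofReal (K * ‖a - b‖) := by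
    have e : (fun t => K * ‖(a - b) t‖) = K • fun t => ‖(a - b) t‖ := rfl
    rw [e, eLpNorm_const_smul, eLpNorm_norm, norm_ofReal, ENNReal.ofReal_mul hK,
      Real.enorm_of_nonneg hK]
  have h4 : eLpNorm (fun t => ‖a t‖ + ‖b t‖) 2 μ ≤ ENNReal.ofReal (‖a‖ + ‖b‖) := by
    refine (eLpNorm_add_le ha.norm hb.norm (by norm_num)).trans ?_
    rw [eLpNorm_norm, eLpNorm_norm, norm_ofReal, norm_ofReal,
      ENNReal.ofReal_add (norm_nonneg _) (norm_nonneg _)]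
  rw [ENNReal.coe_one, one_mul]
  refine (mul_le_mul' h3 h4).trans (le_of_eq ?_)
  rw [← ENNReal.ofReal_mul (by positivity)]
  congr 1
  ring

omit [InnerProductSpace ℝ H] [CompleteSpace H] [NormedSpace ℝ V] [CompleteSpace V] in
theorem continuous_q {q : V → H} {K : ℝ}
    (hq : ∀ a b, ‖q a - q b‖ ≤ K * (‖a - b‖ * (‖a‖ + ‖b‖))) : Continuous q := by
  rw [continuous_iff_continuousAt]
  intro b
  rw [ContinuousAt, tendsto_iff_norm_sub_tendsto_zero]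
  have h : Tendsto (fun a => K * (‖a - b‖ * (‖a‖ + ‖b‖))) (𝓝 b) (𝓝 (K * (‖b - b‖ * (‖b‖ + ‖b‖)))) :=
    Continuous.tendsto (by fun_prop) b
  rw [sub_self, norm_zero, zero_mul, mul_zero] at h
  exact squeeze_zero (fun _ => norm_nonneg _) (fun a => hq a b) h

omit [InnerProductSpace ℝ H] [CompleteSpace H] [NormedSpace ℝ V] [CompleteSpace V] in
theorem memLp_q {μ : Measure ℝ} {q : V → H} {K : ℝ} (hK : 0 ≤ K) (hq0 : q 0 = 0)
    (hq : ∀ a b, ‖q a - q b‖ ≤ K * (‖a - b‖ * (‖a‖ + ‖b‖))) (a : Lp V 2 μ) :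
    MemLp (fun t => q (a t)) 1 μ := by
  refine ⟨(continuous_q hq).comp_aestronglyMeasurable (Lp.aestronglyMeasurable a), ?_⟩
  have h := eLpNorm_diff_le hK hq a 0
  have e : eLpNorm (fun t => q (a t) - q ((0 : Lp V 2 μ) t)) 1 μ =
      eLpNorm (fun t => q (a t)) 1 μ := by
    refine eLpNorm_congr_ae ?_
    filter_upwards [Lp.coeFn_zero V 2 μ] with t ht
    rw [ht, Pi.zero_apply, hq0, sub_zero]
  rw [e] at h
  exact h.trans_lt ENNReal.ofReal_lt_top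

/-- The quadratic term as a map from square integrable to integrable functions. -/
noncomputable def QQ {μ : Measure ℝ} {q : V → H} {K : ℝ} (hK : 0 ≤ K) (hq0 : q 0 = 0)
    (hq : ∀ a b, ‖q a - q b‖ ≤ K * (‖a - b‖ * (‖a‖ + ‖b‖))) (a : Lp V 2 μ) : Lp H 1 μ :=
  (memLp_q hK hq0 hq a).toLp _

theorem QQ_sub_le {μ : Measure ℝ} {q : V → H} {K : ℝ} (hK : 0 ≤ K) (hq0 : q 0 = 0)
    (hq : ∀ a b, ‖q a - q b‖ ≤ K * (‖a - b‖ * (‖a‖ + ‖b‖))) (a b : Lp V 2 μ) :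
    ‖QQ hK hq0 hq a - QQ hK hq0 hq b‖ ≤ K * (‖a - b‖ * (‖a‖ + ‖b‖)) := by
  unfold QQ
  rw [← MemLp.toLp_sub, Lp.norm_toLp]
  exact ENNReal.toReal_le_of_le_ofReal (by positivity) (eLpNorm_diff_le hK hq a b)

theorem QQ_zero {μ : Measure ℝ} {q : V → H} {K : ℝ} (hK : 0 ≤ K) (hq0 : q 0 = 0)
    (hq : ∀ a b, ‖q a - q b‖ ≤ K * (‖a - b‖ * (‖a‖ + ‖b‖))) :
    QQ (μ := μ) hK hq0 hq 0 = 0 := by
  apply Lp.ext
  filter_upwards [MemLp.coeFn_toLp (memLp_q hK hq0 hq (0 : Lp V 2 μ)), Lp.coeFn_zero V 2 μ,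
    Lp.coeFn_zero H 1 μ] with t h1 h2 h3
  unfold QQ
  rw [h1, h2, h3, Pi.zero_apply, hq0, Pi.zero_apply]

end Loc0

open Loc0 in
/-- The fixed point argument. -/
theorem Sys0.local_of_russell (S : Sys0 H V) {T : ℝ} (hT : 0 < T)
    {Lf : H × XL H T →L[ℝ] YL V T} (hLf : S.toSm.IsLift T Lf)
    {Th : H × H × XL H T →L[ℝ] XL H T}
    (hTh : ∀ (y0 y1 : H) (g : XL H T),
      S.toSm.traj y0 (Th (y0, y1, g)) T = y1 ∧
      ∀ᵐ t ∂volume.restrict (Ioc (0 : ℝ) T), S.P (Th (y0, y1, g) t) =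
        S.P (S.l (Lf (y0, Th (y0, y1, g)) t) + g t)) :
    ∃ ε : ℝ, 0 < ε ∧ ∀ y0 y1 : H, ‖y0‖ ≤ ε → ‖y1‖ ≤ ε → S.Adm y0 y1 T := by
  set N : H × H × XL H T →L[ℝ] YL V T :=
    Lf.comp ((ContinuousLinearMap.fst ℝ H (H × XL H T)).prod Th) with hN
  have hNa : ∀ y0 y1 g, N (y0, y1, g) = Lf (y0, Th (y0, y1, g)) := fun _ _ _ => rfl
  set A : ℝ := ‖N‖ + 1 with hA
  have hA0 : 0 < A := by positivity
  set K' : ℝ := S.K + 1 with hK'
  have hK0 : 0 < K' := by have := S.K_nonneg; positivity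
  set r : ℝ := 1 / (4 * K' * A ^ 2) with hr
  have hr0 : 0 < r := by positivity
  have hrK : K' * A ^ 2 * r = 1 / 4 := by
    rw [hr]
    field_simp
  have hNle : ∀ x : H × H × XL H T, ‖N x‖ ≤ A * ‖x‖ := fun x =>
    (N.le_opNorm x).trans (mul_le_mul_of_nonneg_right (by rw [hA]; linarith) (norm_nonneg _))
  refine ⟨r, hr0, fun y0 y1 h0 h1 => ?_⟩
  -- the map
  set Φ : XL H T → XL H T := fun g => QQ S.K_nonneg S.q_zero S.q_lip (N (y0, y1, g)) with hΦ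
  have hv : ∀ g : XL H T, ‖g‖ ≤ r → ‖N (y0, y1, g)‖ ≤ A * r := by
    intro g hg
    refine (hNle _).trans (mul_le_mul_of_nonneg_left ?_ hA0.le)
    rw [Prod.norm_mk, Prod.norm_mk]
    exact max_le h0 (max_le h1 hg)
  have hmaps : MapsTo Φ (Metric.closedBall 0 r) (Metric.closedBall 0 r) := by
    intro g hg
    rw [mem_closedBall_zero_iff] at hg ⊢
    have e1 := QQ_sub_le S.K_nonneg S.q_zero S.q_lip (N (y0, y1, g)) 0
    rw [QQ_zero, sub_zero, sub_zero, norm_zero, add_zero] at e1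
    have e2 := hv g hg
    have e3 : ‖N (y0, y1, g)‖ * ‖N (y0, y1, g)‖ ≤ (A * r) * (A * r) :=
      mul_le_mul e2 e2 (norm_nonneg _) (by positivity)
    have e4 : S.K * (‖N (y0, y1, g)‖ * ‖N (y0, y1, g)‖) ≤ K' * ((A * r) * (A * r)) :=
      mul_le_mul (by rw [hK']; linarith) e3 (by positivity) hK0.le
    have e5 : K' * ((A * r) * (A * r)) = (K' * A ^ 2 * r) * r := by ring
    rw [e5, hrK] at e4
    refine e1.trans (e4.trans ?_)
    linarith
  have hlip : ∀ g g' : XL H T, ‖g‖ ≤ r → ‖g'‖ ≤ r → ‖Φ g - Φ g'‖ ≤ 1 / 2 * ‖g - g'‖ := by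
    intro g g' hg hg'
    have e1 := QQ_sub_le S.K_nonneg S.q_zero S.q_lip (N (y0, y1, g)) (N (y0, y1, g'))
    have e2 : ‖N (y0, y1, g) - N (y0, y1, g')‖ ≤ A * ‖g - g'‖ := by
      rw [← map_sub]
      refine (hNle _).trans (le_of_eq ?_)
      rw [Prod.mk_sub_mk, Prod.mk_sub_mk, sub_self, sub_self, Prod.norm_mk, Prod.norm_mk,
        norm_zero, max_eq_right (norm_nonneg _), max_eq_right (norm_nonneg _)]
    have e3 : ‖N (y0, y1, g)‖ + ‖N (y0, y1, g')‖ ≤ 2 * (A * r) := by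
      linarith [hv g hg, hv g' hg']
    have e4 : ‖N (y0, y1, g) - N (y0, y1, g')‖ * (‖N (y0, y1, g)‖ + ‖N (y0, y1, g')‖) ≤
        (A * ‖g - g'‖) * (2 * (A * r)) :=
      mul_le_mul e2 e3 (by positivity) (by positivity)
    have e5 := mul_le_mul (show S.K ≤ K' by rw [hK']; linarith) e4 (by positivity) hK0.le
    have e6 : K' * ((A * ‖g - g'‖) * (2 * (A * r))) = (K' * A ^ 2 * r) * (2 * ‖g - g'‖) := by ring
    rw [e6, hrK] at e5
    refine e1.trans (e5.trans ?_)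
    linarith
  have hcontr : ContractingWith (1 / 2) (hmaps.restrict Φ _ _) := by
    refine ⟨by rw [← NNReal.coe_lt_coe]; norm_num, LipschitzWith.of_dist_le_mul fun g g' => ?_⟩
    rw [Subtype.dist_eq, Subtype.dist_eq, dist_eq_norm, dist_eq_norm]
    have := hlip g g' (mem_closedBall_zero_iff.1 g.2) (mem_closedBall_zero_iff.1 g'.2)
    push_cast
    exact this
  obtain ⟨g, -, hfix, -⟩ := hcontr.exists_fixedPoint' Metric.isClosed_closedBall.isComplete hmaps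
    (Metric.mem_closedBall_self hr0.le) (edist_ne_top _ _)
  obtain ⟨t1, t2⟩ := hTh y0 y1 g
  set f : XL H T := Th (y0, y1, g) with hf
  set v : YL V T := Lf (y0, f) with hvd
  have hNg : N (y0, y1, g) = v := rfl
  refine ⟨f, v, ⟨?_, Lp.aestronglyMeasurable v, ?_, hLf.eq y0 f⟩, ?_, t1⟩
  · exact L1.integrable_coeFn f
  · have h2 := Lp.eLpNorm_lt_top v
    rw [eLpNorm_lt_top_iff_lintegral_rpow_enorm_lt_top (by norm_num) (by norm_num)] at h2
    simpa using h2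
  · have h3 : ∀ᵐ t ∂volume.restrict (Ioc (0 : ℝ) T), g t = S.q (v t) := by
      have h4 : QQ S.K_nonneg S.q_zero S.q_lip v = g := hfix
      have h5 := MemLp.coeFn_toLp (memLp_q S.K_nonneg S.q_zero S.q_lip v)
      have h6 : (QQ S.K_nonneg S.q_zero S.q_lip v : XL H T) =ᵐ[volume.restrict (Ioc (0 : ℝ) T)]
        fun t => S.q (v t) := h5
      rw [h4] at h6
      exact h6
    filter_upwards [t2, h3] with t a1 a2
    rw [a1, a2]

theorem Sys0.local_control [SecondCountableTopology H] (S : Sys0 H V) :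
    ∃ (ε T : ℝ), 0 < ε ∧ 0 < T ∧ ∀ y0 y1 : H, ‖y0‖ ≤ ε → ‖y1‖ ≤ ε → S.Adm y0 y1 T := by
  obtain ⟨T, hT, hT1, h⟩ := S.toSm.exists_flow S.ld
  obtain ⟨Lf, hLf⟩ := S.toSm.exists_lift hT hT1
  obtain ⟨Fl, hFl⟩ := h T hT le_rfl Lf hLf
  obtain ⟨θ, h0, h1, hθ⟩ := S.contr hT hLf hFl
  obtain ⟨Th, hTh⟩ := S.russell hT hLf hFl h0 h1 hθ
  obtain ⟨ε, hε, he⟩ := S.local_of_russell hT hLf hTh
  exact ⟨ε, T, hε, hT, he⟩

end Pool.Agent.KG
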