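import Pool.Agent.Lib.MP_78c35a_an.Uniq

/-!
# Unique continuation, for arbitrary linear coefficients
-/

set_option autoImplicit false

namespace Pool.Agent.KG

open MeasureTheory Filter Topology Set
open Pool.Agent.Kdv
open scoped ENNReal ContDiff

variable {n : ℕ}

open UniqBAux ContDiff in
/-- The equation for the Laplace transforms of a solution supported in `[0, L]`. -/
theorem S0_laplace (p : Par n) (S : Fin n → Fin n → ℝ) {T : ℝ} (hT : 0 < T) {y : HH n} {f : ℝ → HH n}
    {v : ℝ → VV n p.L} (h : (smn p).Path y T f v)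
    (hf : ∀ᵐ t ∂volume.restrict (Ioc (0 : ℝ) T), f t = lmap n p.L S (v t))
    (hP : ∀ᵐ t ∂volume.restrict (Ioc (0 : ℝ) T), PP n p.L (inc n p.L (v t)) = inc n p.L (v t))
    {r : ℝ} (hr : 0 < r) (j : Fin n) {t : ℝ} (ht : t ∈ Icc 0 T) :
    (∫ x, Real.exp (r * x) * PP n p.L ((smn p).traj y f t) j x) =
      (∫ x, Real.exp (r * x) * PP n p.L y j x) + ∫ s in (0 : ℝ)..t,
        (r ^ 3 * p.mu j * (∫ x, Real.exp (r * x) * PP n p.L ((smn p).traj y f s) j x) +
          r * ∑ k, S j k * (∫ x, Real.exp (r * x) * PP n p.L ((smn p).traj y f s) k x)) := by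
  have hmu := p.hmu j
  obtain ⟨θ, h1, h2, h3⟩ := exists_bump p.hL
  set φ : ℝ → ℝ := fun x => Real.exp (r * x) * θ x with hφ
  have hφ1 : ContDiff ℝ ∞ φ := (by fun_prop : ContDiff ℝ ∞ fun x : ℝ => Real.exp (r * x)).mul h1
  have hφ2 : HasCompactSupport φ := h2.mul_left
  have hφ3 : ∀ x ∈ Icc (-1) (p.L + 1), φ x = Real.exp (r * x) := fun x hx => by
    simp only [hφ, h3 x hx, mul_one]
  have hφ4 : ∀ x ∈ J p.L, iteratedDeriv 3 φ x = r ^ 3 * Real.exp (r * x) := by
    intro x hx
    have e1 : φ =ᶠ[𝓝 x] fun x => Real.exp (r * x) := by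
      filter_upwards [isOpen_Ioo.mem_nhds hx] with y hy
      exact hφ3 y (Ioo_subset_Icc_self hy)
    rw [e1.iteratedDeriv_eq, iteratedDeriv_exp_const_mul]
  have hm : MemLp φ 2 volume := hφ1.continuous.memLp_of_hasCompactSupport hφ2
  have hφ5 : Continuous (iteratedDeriv 3 φ) :=
    hφ1.continuous_iteratedDeriv 3 (WithTop.coe_le_coe.mpr (le_top : (3 : ℕ∞) ≤ ⊤))
  have hφ6 : HasCompactSupport (iteratedDeriv 3 φ) := by
    simp only [iteratedDeriv_succ, iteratedDeriv_zero]
    exact hφ2.deriv.deriv.deriv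
  have hm3 : MemLp (iteratedDeriv 3 φ) 2 volume := hφ5.memLp_of_hasCompactSupport hφ6
  have hgen : ∀ t, (sm1 p.hL hmu).U (-t) (toL2 φ) = toL2 φ +
      ∫ s in (0 : ℝ)..t, (sm1 p.hL hmu).U (-s) (p.mu j • toL2 (iteratedDeriv 3 φ)) := by
    intro t
    have e1 : (sm1 p.hL hmu).U (-t) (toL2 φ) = airy (-(p.mu j * t)) (toL2 φ) := by
      change airy (p.mu j * (-t)) (toL2 φ) = _
      rw [mul_neg]
    have e2 : ∀ s, (sm1 p.hL hmu).U (-s) (p.mu j • toL2 (iteratedDeriv 3 φ)) =
        p.mu j • airy (-(p.mu j * s)) (toL2 (iteratedDeriv 3 φ)) := by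
      intro s
      change airy (p.mu j * (-s)) (p.mu j • toL2 (iteratedDeriv 3 φ)) = _
      rw [mul_neg, map_smul]
    rw [e1, airy_gen hφ1 hφ2]
    simp only [e2]
    rw [intervalIntegral.integral_smul,
      intervalIntegral.smul_integral_comp_mul_left
        (fun s => airy (-s) (toL2 (iteratedDeriv 3 φ))) (p.mu j), mul_zero]
  have hpath := path_comp p h j
  have hmain := (sm1 p.hL hmu).pair hgen (y j) hpath.int ht
  have hE : ∀ s ∈ Icc 0 T, inner ℝ (toL2 φ) ((sm1 p.hL hmu).traj (y j) (fun s => f s j) s) =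
      ∫ x, Real.exp (r * x) * PP n p.L ((smn p).traj y f s) j x := by
    intro s hs
    rw [← traj_comp p y h.int hs j,
      exp_pair r _ j (PP_traj p hT h hP hs) hm (c := 1) (fun x hx => by
        rw [hφ3 x ⟨by linarith [hx.1], by linarith [hx.2]⟩, one_mul]), one_mul]
  have hE3 : ∀ s ∈ Icc 0 T, inner ℝ (p.mu j • toL2 (iteratedDeriv 3 φ))
      ((sm1 p.hL hmu).traj (y j) (fun s => f s j) s) =
      r ^ 3 * p.mu j * ∫ x, Real.exp (r * x) * PP n p.L ((smn p).traj y f s) j x := by
    intro s hs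
    rw [← traj_comp p y h.int hs j, real_inner_smul_left,
      exp_pair r _ j (PP_traj p hT h hP hs) hm3 (c := r ^ 3) (fun x hx =>
        hφ4 x ⟨by linarith [hx.1], by linarith [hx.2]⟩)]
    ring
  have hy : (∫ x, Real.exp (r * x) * PP n p.L y j x) = inner ℝ (toL2 φ) (y j) := by
    have h0 := PP_traj p hT h hP (left_mem_Icc.mpr hT.le)
    rw [Sm.traj_zero] at h0
    rw [exp_pair r _ j h0 hm (c := 1) (fun x hx => by
        rw [hφ3 x ⟨by linarith [hx.1], by linarith [hx.2]⟩, one_mul]), one_mul]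
  rw [← hE t ht, hmain, hy]
  congr 1
  refine intervalIntegral.integral_congr_ae ?_
  have hsub : Ioc 0 t ⊆ Ioc 0 T := Ioc_subset_Ioc_right ht.2
  have hl := h.lift
  rw [ae_restrict_iff' measurableSet_Ioc] at hf hP hl
  filter_upwards [hf, hP, hl] with s g1 g2 g3 hs
  rw [uIoc_of_le ht.1] at hs
  have hs2 := hsub hs
  have hs3 : s ∈ Icc 0 T := Ioc_subset_Icc_self hs2
  rw [hE3 s hs3, g1 hs2, lmap_pair p.hL S r (v s) j (g2 hs2) hm hφ3]
  have g4 : inc n p.L (v s) = (smn p).traj y f s := g3 hs2
  rw [g4]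


open UniqAux in
theorem S0_uniq (p : Par n) (S : Fin n → Fin n → ℝ) {T : ℝ} (hT : 0 < T) {y : HH n} {f : ℝ → HH n}
    {v : ℝ → VV n p.L} (h : (smn p).Path y T f v)
    (hf : ∀ᵐ t ∂volume.restrict (Ioc (0 : ℝ) T), f t = lmap n p.L S (v t))
    (hP : ∀ᵐ t ∂volume.restrict (Ioc (0 : ℝ) T), PP n p.L (inc n p.L (v t)) = inc n p.L (v t)) :
    y = 0 := by
  have hc := (smn p).traj_cont y hT.le h.int
  have hy : PP n p.L y = y := by
    have := PP_traj p hT h hP (left_mem_Icc.mpr hT.le)
    rwa [Sm.traj_zero] at this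
  rcases isEmpty_or_nonempty (Fin n) with he | hne
  · ext1 j
    exact he.elim j
  obtain ⟨i0, hi0⟩ := Finite.exists_min p.mu
  -- the bound for the symmetric matrix
  set σ : ℝ := ∑ j, ∑ k, |S j k| with hσ
  set z := (smn p).traj y f with hz
  set K : ℝ := ∑ j, ‖er p.L 0‖ * ‖z T j‖ with hK
  have hK0 : 0 ≤ K := Finset.sum_nonneg fun j _ => by positivity
  have hσ0 : 0 ≤ σ := Finset.sum_nonneg fun j _ => Finset.sum_nonneg fun k _ => abs_nonneg _
  have key : ∀ r : ℝ, 0 < r → ∀ j, |inner ℝ (er p.L r) (y j)| ≤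
      K * Real.exp ((p.L + σ * T) * r - (p.mu i0 * T) * r ^ 3) := by
    intro r hr j
    -- the moments
    set m : Fin n → ℝ → ℝ := fun j t => inner ℝ (er p.L r) (z t j) with hm
    have hmc : ∀ j, ContinuousOn (m j) (Icc 0 T) := fun j => by
      have : Continuous fun w : HH n => (inner ℝ (er p.L r) (w j) : ℝ) :=
        (continuous_const.inner continuous_id).comp (prH (n := n) j).continuous
      exact this.comp_continuousOn hc
    set G : Fin n → ℝ → ℝ := fun j t => r ^ 3 * p.mu j * m j t + r * ∑ k, S j k * m k t with hG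
    have hGc : ∀ j, ContinuousOn (G j) (Icc 0 T) := fun j =>
      (continuousOn_const.mul (hmc j)).add (continuousOn_const.mul
        (continuousOn_finsetSum _ fun k _ => continuousOn_const.mul (hmc k)))
    have heq : ∀ j, ∀ t ∈ Icc 0 T, m j t = inner ℝ (er p.L r) (y j) +
        ∫ s in (0 : ℝ)..t, G j s := by
      intro j t ht
      have := S0_laplace p S hT h hf hP hr j ht
      simp only [er_inner] at this
      exact this
    have hder : ∀ j, ∀ t ∈ Ioo 0 T, HasDerivAt (m j) (G j t) t := by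
      intro j t ht
      have hd : HasDerivAt (fun t => (inner ℝ (er p.L r) (y j) : ℝ) + ∫ s in (0 : ℝ)..t, G j s)
          (G j t) t := by
        refine HasDerivAt.const_add _ ?_
        refine intervalIntegral.integral_hasDerivAt_right ?_ ?_ ?_
        · refine ContinuousOn.intervalIntegrable ?_
          rw [uIcc_of_le ht.1.le]
          exact (hGc j).mono (Icc_subset_Icc_right ht.2.le)
        · exact ((hGc j).mono Ioo_subset_Icc_self).stronglyMeasurableAtFilter isOpen_Ioo t ht
        · exact (hGc j).continuousAt (Icc_mem_nhds ht.1 ht.2)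
      refine hd.congr_of_eventuallyEq ?_
      filter_upwards [Ioo_mem_nhds ht.1 ht.2] with s hs
      exact heq j s (Ioo_subset_Icc_self hs)
    set a : ℝ := r ^ 3 * p.mu i0 - r * σ with ha
    set N : ℝ → ℝ := fun t => ∑ j, (m j t) ^ 2 with hN
    have hNc : ContinuousOn N (Icc 0 T) := continuousOn_finsetSum _ fun j _ => (hmc j).pow 2
    have hNd : ∀ t ∈ Ioo 0 T, HasDerivAt N (∑ j, 2 * m j t * G j t) t := by
      intro t ht
      have : HasDerivAt (fun t => ∑ j, (m j t) ^ 2) (∑ j, 2 * m j t * G j t) t := by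
        refine HasDerivAt.fun_sum fun j _ => ?_
        have h9 : HasDerivAt (m j ^ 2) (2 * m j t * G j t) t := by
          simpa using (hder j t ht).pow 2
        exact h9
      exact this
    have hge : ∀ t, 2 * a * N t ≤ ∑ j, 2 * m j t * G j t := by
      intro t
      have e1 : ∑ j, 2 * m j t * G j t = 2 * (r ^ 3 * ∑ j, p.mu j * m j t ^ 2) +
          2 * (r * ∑ j, ∑ k, S j k * (m j t * m k t)) := by
        simp only [hG, Finset.mul_sum]
        rw [← Finset.sum_add_distrib]
        refine Finset.sum_congr rfl fun j _ => ?_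
        rw [mul_add, Finset.mul_sum]
        congr 1
        · ring
        · refine Finset.sum_congr rfl fun k _ => ?_
          ring
      have e2 : p.mu i0 * N t ≤ ∑ j, p.mu j * m j t ^ 2 := by
        rw [hN]
        simp only
        rw [Finset.mul_sum]
        exact Finset.sum_le_sum fun j _ => mul_le_mul_of_nonneg_right (hi0 j) (sq_nonneg _)
      have e3 : -(σ * N t) ≤ ∑ j, ∑ k, S j k * (m j t * m k t) := by
        rw [hσ, Finset.sum_mul, ← Finset.sum_neg_distrib]
        refine Finset.sum_le_sum fun j _ => ?_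
        rw [Finset.sum_mul, ← Finset.sum_neg_distrib]
        refine Finset.sum_le_sum fun k _ => ?_
        have e4 : |m j t * m k t| ≤ N t := by
          have f1 : m j t ^ 2 ≤ N t := Finset.single_le_sum (f := fun j => m j t ^ 2)
            (fun j _ => sq_nonneg _) (Finset.mem_univ j)
          have f2 : m k t ^ 2 ≤ N t := Finset.single_le_sum (f := fun j => m j t ^ 2)
            (fun j _ => sq_nonneg _) (Finset.mem_univ k)
          rw [abs_le]
          constructor
          · nlinarith [sq_nonneg (m j t + m k t)]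
          · nlinarith [sq_nonneg (m j t - m k t)]
        calc -(|S j k| * N t) ≤ -(|S j k| * |m j t * m k t|) :=
              neg_le_neg (mul_le_mul_of_nonneg_left e4 (abs_nonneg _))
          _ = -|S j k * (m j t * m k t)| := by rw [abs_mul (S j k)]
          _ ≤ S j k * (m j t * m k t) := neg_abs_le _
      rw [e1, ha]
      have hr3 : 0 ≤ r ^ 3 := by positivity
      have g1 := mul_le_mul_of_nonneg_left e2 hr3
      have g2 := mul_le_mul_of_nonneg_left e3 hr.le
      nlinarith
    have hmono : MonotoneOn (fun t => Real.exp (-(2 * a) * t) * N t) (Icc 0 T) := by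
      refine monotoneOn_of_deriv_nonneg (convex_Icc 0 T) ?_ ?_ ?_
      · exact (by fun_prop : Continuous fun t : ℝ => Real.exp (-(2 * a) * t)).continuousOn.mul hNc
      · rw [interior_Icc]
        intro t ht
        exact (((by fun_prop : Differentiable ℝ fun t : ℝ => Real.exp (-(2 * a) * t)) t).mul
          (hNd t ht).differentiableAt).differentiableWithinAt
      · rw [interior_Icc]
        intro t ht
        have h1 : HasDerivAt (fun t : ℝ => Real.exp (-(2 * a) * t))
            (Real.exp (-(2 * a) * t) * (-(2 * a))) t := by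
          have := ((hasDerivAt_id t).const_mul (-(2 * a))).exp
          simpa using this
        have h2 := h1.mul (hNd t ht)
        have h3 : deriv (fun t => Real.exp (-(2 * a) * t) * N t) t =
            Real.exp (-(2 * a) * t) * (-(2 * a)) * N t +
              Real.exp (-(2 * a) * t) * ∑ j, 2 * m j t * G j t := h2.deriv
        rw [h3]
        have := hge t
        have h4 := (Real.exp_pos (-(2 * a) * t)).le
        nlinarith [mul_le_mul_of_nonneg_left this h4]
    have hNT : N 0 ≤ Real.exp (-(2 * a) * T) * N T := by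
      have := hmono (left_mem_Icc.mpr hT.le) (right_mem_Icc.mpr hT.le) hT.le
      simpa using this
    have hm0 : m j 0 ^ 2 ≤ N 0 := Finset.single_le_sum (f := fun j => m j 0 ^ 2)
            (fun j _ => sq_nonneg _) (Finset.mem_univ j)
    have hB : √(N T) ≤ K * Real.exp (r * p.L) := by
      refine Real.sqrt_le_iff.mpr ⟨by positivity, ?_⟩
      have h1 : ∀ j, |m j T| ≤ Real.exp (r * p.L) * (‖er p.L 0‖ * ‖z T j‖) := fun j => by
        calc |m j T| ≤ ‖er p.L r‖ * ‖z T j‖ := abs_real_inner_le_norm _ _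
          _ ≤ (Real.exp (r * p.L) * ‖er p.L 0‖) * ‖z T j‖ :=
              mul_le_mul_of_nonneg_right (er_norm hr.le) (norm_nonneg _)
          _ = _ := by ring
      calc N T = ∑ j, |m j T| ^ 2 := by simp only [hN, sq_abs]
        _ ≤ (∑ j, |m j T|) ^ 2 := Finset.sum_sq_le_sq_sum_of_nonneg fun j _ => abs_nonneg _
        _ ≤ (K * Real.exp (r * p.L)) ^ 2 := by
            refine pow_le_pow_left₀ (Finset.sum_nonneg fun j _ => abs_nonneg _) ?_ 2
            calc ∑ j, |m j T| ≤ ∑ j, Real.exp (r * p.L) * (‖er p.L 0‖ * ‖z T j‖) :=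
                  Finset.sum_le_sum fun j _ => h1 j
              _ = K * Real.exp (r * p.L) := by rw [← Finset.mul_sum, mul_comm]
    have hfin : |m j 0| ≤ Real.exp (-a * T) * √(N T) := by
      have h1 : |m j 0| ^ 2 ≤ (Real.exp (-a * T) * √(N T)) ^ 2 := by
        rw [sq_abs, mul_pow, Real.sq_sqrt (Finset.sum_nonneg fun j _ => sq_nonneg _),
          ← Real.exp_nat_mul]
        refine hm0.trans (hNT.trans (le_of_eq ?_))
        congr 2
        push_cast
        ring
      exact le_of_sq_le_sq h1 (by positivity)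
    have h0 : m j 0 = inner ℝ (er p.L r) (y j) := by
      simp only [hm, hz, Sm.traj_zero]
    rw [← h0]
    calc |m j 0| ≤ Real.exp (-a * T) * √(N T) := hfin
      _ ≤ Real.exp (-a * T) * (K * Real.exp (r * p.L)) :=
          mul_le_mul_of_nonneg_left hB (Real.exp_pos _).le
      _ = K * (Real.exp (-a * T) * Real.exp (r * p.L)) := by ring
      _ = K * Real.exp ((p.L + σ * T) * r - (p.mu i0 * T) * r ^ 3) := by
          rw [← Real.exp_add, ha]
          congr 2
          ring
  rw [← hy]
  have hμ : 0 < p.mu i0 * T := mul_pos (p.hmu i0) hT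
  ext1 j
  have : PP n p.L y j = 0 := by
    refine laplace_zero (C := max K (p.L + σ * T)) p.hL (PP n p.L y j) ?_ hμ fun r hr => ?_
    · filter_upwards [PP_ae p.L y j] with x hx hx2
      rw [hx]
      have : one p.L x = 0 := indicator_of_notMem hx2 _
      rw [this, zero_mul]
    · rw [er_inner]
      refine (key r hr j).trans ?_
      refine mul_le_mul (le_max_left _ _) (Real.exp_le_exp.mpr ?_) (Real.exp_pos _).le
        (hK0.trans (le_max_left _ _))
      exact sub_le_sub_right (mul_le_mul_of_nonneg_right (le_max_right _ _) hr.le) _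
  rw [this]
  rfl

end Pool.Agent.KG
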