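import Pool.Agent.Lib.KG.Defs
import Pool.Agent.Lib.KG.S0Loc
import Pool.Agent.Lib.KG.S0Uniq
import Pool.Agent.Lib.MP_78c35a_an.Glob
import Pool.Agent.Lib.MP_78c35a_an.Refl
import Pool.Agent.Lib.MP_78c35a_an.Skew
import Pool.Agent.Lib.MP_78c35a_an.Poinc

/-!
# Local control and reversal for arbitrary coefficients
-/

set_option autoImplicit false

namespace Pool.Agent.KG

open MeasureTheory Filter Topology Set
open Pool.Agent.Kdv
open scoped ENNReal ContDiff InnerProductSpace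

variable {n : ℕ}

/-- The control system on the line. -/
theorem Inf16_sys (p : Pr n) : ∃ S : Sys0 (HH n) (VV n p.L), S.toSm = p.sm ∧
    S.P = PP n p.L ∧ S.l = lmap n p.L p.S ∧ S.q = qmap n p.L p.g ∧ S.rho = rho n p.L := by
  obtain ⟨K, hK, hK1, hK2⟩ := q_bounds p.hL p.g
  exact ⟨{ toSm := p.sm
           rho := rho n p.L
           rhoV := rhoV n p.L
           rho_rho := rho_rho p.L
           rho_norm := rho_norm p.L
           rho_U := rho_UU p.std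
           inc_rhoV := inc_rhoV p.L
           P := PP n p.L
           P_P := PP_PP p.L
           P_symm := PP_symm p.L
           P_rho := PP_rho p.L
           l := lmap n p.L p.S
           q := qmap n p.L p.g
           l_skew := l_skew p.hL p.hS
           q_skew := q_skew p.hL p.g12 p.g23
           l_rho := l_rho p.L p.S
           q_rho := q_rho p.L p.g
           q_zero := q_zero p.L p.g
           K := K
           K_nonneg := hK
           q_quad := hK1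
           q_lip := hK2
           cpt := fun ε hε => cpt n p.hL hε
           uniq := fun T y f v hT h hf hP => S0_uniq p.std p.S hT h hf hP }, rfl, rfl, rfl, rfl, rfl⟩

section

variable {H V : Type} [NormedAddCommGroup H] [InnerProductSpace ℝ H] [CompleteSpace H]
  [NormedAddCommGroup V] [NormedSpace ℝ V] [CompleteSpace V]

/-- One can wait for an arbitrary time. -/
theorem Inf16_wait (S : Sys0 H V) {T : ℝ} (hT : 0 < T) (y0 : H) : ∃ y1 : H, S.Adm y0 y1 T := by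
  have hq : S.toSm.Quad (fun v => S.l v + S.q v) (‖S.l‖ + S.K) := by
    intro a b
    have h1 := S.q_quad a b
    obtain ⟨A, hA⟩ : ∃ A, A = ‖a - b‖ * (1 + √(‖S.inc a‖ * ‖a‖) + √(‖S.inc b‖ * ‖b‖)) +
      √(‖S.inc (a - b)‖ * ‖a - b‖) * (‖a‖ + ‖b‖) := ⟨_, rfl⟩
    rw [← hA] at h1 ⊢
    have hA1 : ‖a - b‖ ≤ A := by
      have h2 : 0 ≤ ‖a - b‖ * (√(‖S.inc a‖ * ‖a‖) + √(‖S.inc b‖ * ‖b‖)) := by positivity
      have h3 : 0 ≤ √(‖S.inc (a - b)‖ * ‖a - b‖) * (‖a‖ + ‖b‖) := by positivity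
      rw [hA]
      nlinarith
    have e : S.l a + S.q a - (S.l b + S.q b) = S.l (a - b) + (S.q a - S.q b) := by
      rw [map_sub]
      abel
    have h4 : ‖S.l (a - b)‖ ≤ ‖S.l‖ * ‖a - b‖ := S.l.le_opNorm _
    have h10 : ‖S.l‖ * ‖a - b‖ ≤ ‖S.l‖ * A := mul_le_mul_of_nonneg_left hA1 (norm_nonneg _)
    have h9 := norm_add_le (S.l (a - b)) (S.q a - S.q b)
    change ‖S.l a + S.q a - (S.l b + S.q b)‖ ≤ _
    rw [e]
    linarith
  obtain ⟨f, v, h1, h2⟩ := S.toSm.glob_sol (n := fun v => S.l v + S.q v)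
    (add_nonneg (norm_nonneg _) S.K_nonneg) hq (by rw [map_zero, S.q_zero, add_zero])
    (fun p => by rw [inner_add_left, S.l_skew, S.q_skew, add_zero]) y0 T hT
  refine ⟨_, f, v, h1, ?_, rfl⟩
  filter_upwards [h2] with t ht
  rw [ht]

/-- Exact control, from the attraction of a neighbourhood of zero. -/
theorem Inf16_global [SecondCountableTopology H] (S : Sys0 H V) (h : ∀ ε : ℝ, 0 < ε →
    ∃ T : ℝ, 0 < T ∧ ∀ y0 : H, ∃ y1 : H, ‖y1‖ ≤ ε ∧ S.Adm y0 y1 T) :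
    ∃ T0 : ℝ, 0 < T0 ∧ ∀ T : ℝ, T0 ≤ T → ∀ y0 y1 : H, S.Adm y0 y1 T := by
  obtain ⟨ε, T1, hε, hT1, h1⟩ := S.local_control
  obtain ⟨T2, hT2, h2⟩ := h ε hε
  have key : ∀ y0 y1 : H, S.Adm y0 y1 (T2 + (T1 + T2)) := by
    intro y0 y1
    obtain ⟨a, ha, hA⟩ := h2 y0
    obtain ⟨b, hb, hB⟩ := h2 (S.rho y1)
    have hB' := hB.rev hT2.le
    rw [S.rho_rho] at hB'
    exact hA.trans hT2.le (by positivity)
      ((h1 a (S.rho b) ha (by rw [S.rho_norm]; exact hb)).trans hT1.le hT2.le hB')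
  refine ⟨T2 + (T1 + T2) + 1, by positivity, fun T hT y0 y1 => ?_⟩
  obtain ⟨y', hy'⟩ := Inf16_wait S (T := T - (T2 + (T1 + T2))) (by linarith) y0
  have := hy'.trans (by linarith) (by positivity) (key y' y1)
  simpa using this

end

theorem Inf16_adm {p : Pr n} {S : Sys0 (HH n) (VV n p.L)} (h1 : S.toSm = p.sm)
    (h2 : S.P = PP n p.L) (h3 : S.l = lmap n p.L p.S) (h4 : S.q = qmap n p.L p.g)
    (y0 y1 : HH n) (T : ℝ) : S.Adm y0 y1 T ↔ p.Adm y0 y1 T := by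
  unfold Sys0.Adm Pr.Adm
  rw [h1, h2, h3, h4]

/-- INF16. -/
theorem global_of_attract (p : Pr n) (h : ∀ ε : ℝ, 0 < ε → ∃ T : ℝ, 0 < T ∧ ∀ y0 : HH n,
    ∃ y1 : HH n, ‖y1‖ ≤ ε ∧ p.Adm y0 y1 T) :
    ∃ T0 : ℝ, 0 < T0 ∧ ∀ T : ℝ, T0 ≤ T → ∀ y0 y1 : HH n, p.Adm y0 y1 T := by
  obtain ⟨S, h1, h2, h3, h4, -⟩ := Inf16_sys p
  have : Fact ((2 : ENNReal) ≠ ⊤) := ⟨by norm_num⟩
  obtain ⟨T0, hT0, h5⟩ := Inf16_global S (fun ε hε => by
    obtain ⟨T, hT, hh⟩ := h ε hε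
    refine ⟨T, hT, fun y0 => ?_⟩
    obtain ⟨y1, hy1, hA⟩ := hh y0
    exact ⟨y1, hy1, (Inf16_adm h1 h2 h3 h4 y0 y1 T).mpr hA⟩)
  exact ⟨T0, hT0, fun T hT y0 y1 => (Inf16_adm h1 h2 h3 h4 y0 y1 T).mp (h5 T hT y0 y1)⟩

end Pool.Agent.KG
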