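import Pool.Agent.Lib.KG.Defs

/-!
# Definitions used in the statements on backgrounds
-/

set_option autoImplicit false

namespace Pool.Agent.KG

open MeasureTheory Filter Topology Set
open Pool.Agent.Kdv
open scoped ENNReal ContDiff InnerProductSpace

variable {n : ℕ}

/-- The residual of a smooth background. -/
noncomputable def resid (p : Pr n) (w : ℝ → ℝ → Fin n → ℝ) (t x : ℝ) (j : Fin n) : ℝ :=
  deriv (fun s => w s x j) t + p.mu j * iteratedDeriv 3 (fun x => w t x j) x +
    (∑ k, p.S j k * deriv (fun x => w t x k) x) +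
    ∑ k, ∑ l, p.g j k l * w t x k * deriv (fun x => w t x l) x

/-- The state of a background. -/
noncomputable def bg (n : ℕ) (L : ℝ) (X : ℝ → Fin n → ℝ) : HH n :=
  WithLp.toLp 2 fun j => toL2 fun x => bb L x * X x j

end Pool.Agent.KG
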