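import Pool.Agent.Lib.KG.Inf01
import Pool.Agent.Lib.KG.Inf01b
import Pool.Agent.Lib.KG.Inf02
import Pool.Agent.Lib.KG.Inf02b
import Pool.Agent.Lib.KG.Inf03
import Pool.Agent.Lib.KG.Inf04
import Pool.Agent.Lib.KG.Inf05
import Pool.Agent.Lib.KG.Inf06
import Pool.Agent.Lib.KG.Inf06b
import Pool.Agent.Lib.KG.Inf07
import Pool.Agent.Lib.KG.Inf08
import Pool.Agent.Lib.KG.Inf09
import Pool.Agent.Lib.KG.Inf10
import Pool.Agent.Lib.KG.Inf11
import Pool.Agent.Lib.KG.Inf12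
import Pool.Agent.Lib.KG.Inf13
import Pool.Agent.Lib.KG.Inf14
import Pool.Agent.Lib.KG.Inf15
import Pool.Agent.Lib.KG.Inf16
import Pool.Agent.Lib.MP_78c35a_an.Skew
import Pool.Agent.Lib.MP_78c35a_an.Refl
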