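import Pool.Agent.Lib.KG.AttrN
import Pool.Agent.Lib.KG.Fin

/-!
# Global exact controllability of the Gear–Grimshaw system, all couplings
-/

set_option autoImplicit false

namespace Pool.Agent.KG

open Pool.Agent.Kdv

theorem controllable_all {L a a1 a2 b c r : ℝ} (hL : 0 < L) (hb : 0 < b) (hc : 0 < c)
    (ha : a ^ 2 * b < 1) :
    ∃ T0 : ℝ, 0 < T0 ∧ ∀ T : ℝ, T0 ≤ T → ExactlyControllable L a a1 a2 b c r T := by
  by_cases hd : 6 * a1 * a2 * b + 3 * a1 ^ 2 * a2 ^ 2 * b ^ 2 <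
      1 + 4 * a2 ^ 3 * b + 4 * a1 ^ 3 * b ^ 2
  · exact controllable hL hb hc ha hd
  · obtain ⟨E, mu, hA⟩ := exists_algF a a1 a2 r hb hc ha
    obtain ⟨T0, hT0, h⟩ := global_all (prOf hL hA) (det_nonpos (L := L) hb hc hA (not_lt.mp hd))
      (gg_ne hb hc hA)
    exact ⟨T0, hT0, fun T hT => controllable_of_adm hL hA (hT0.trans_le hT) (h T hT)⟩

end Pool.Agent.KG
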