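import Pool.Agent.Lib.KG.UpD

/-!
# Row C1: algebra of the cube case
-/

set_option autoImplicit false

namespace Pool.Agent.KG

open MeasureTheory Filter Topology Set
open Pool.Agent.Kdv
open scoped ENNReal ContDiff InnerProductSpace

variable {p : Pr 2} {e e' : Fin 2 → ℝ} {α s : ℝ}

private theorem c1_unit (h : Cub p e e' α s) : e 0 * e 0 + e 1 * e 1 = 1 := by
  have := h.cube.unit
  simpa [dot, Fin.sum_univ_two] using this

theorem Cub.qd_eq (h : Cub p e e' α s) (X ξ : Fin 2 → ℝ) :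
    qd (Hm p.g X) ξ = α * dot e X * dot e ξ ^ 2 := by
  simp only [qd, Hm, dot, Fin.sum_univ_two, h.cube.eq]
  ring

theorem Cub.bil_eq (h : Cub p e e' α s) (X Y : Fin 2 → ℝ) (j : Fin 2) :
    bil p.g X Y j = α * dot e X * dot e Y * e j := by
  simp only [bil, dot, Fin.sum_univ_two, h.cube.eq]
  ring

theorem Cub.isDir (h : Cub p e e' α s) : IsDir p.g e α := by
  refine ⟨⟨h.cube.unit, h.cube.pos, fun j => ?_⟩, fun ξ => ?_⟩
  · rw [Cub.bil_eq h, h.cube.unit]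
    ring
  · rw [Cub.qd_eq h, h.cube.unit, mul_one]
    refine mul_le_mul_of_nonneg_left ?_ h.cube.pos.le
    have h1 := c1_unit h
    simp only [dot, Fin.sum_univ_two]
    nlinarith [sq_nonneg (e 0 * ξ 1 - e 1 * ξ 0)]

theorem Cub.dots (h : Cub p e e' α s) : dot e e = 1 ∧ dot e' e' = 1 ∧ dot e e' = 0 := by
  have h1 := c1_unit h
  refine ⟨h.cube.unit, ?_, ?_⟩
  · simp only [dot, Fin.sum_univ_two, h.e0, h.e1]
    linarith
  · simp only [dot, Fin.sum_univ_two, h.e0, h.e1]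
    ring

theorem Cub.split (h : Cub p e e' α s) (z : HH 2) : emb e (cmp e z) + emb e' (cmp e' z) = z := by
  have h1 := c1_unit h
  ext1 j
  change e j • cmp e z + e' j • cmp e' z = z j
  simp only [cmp, Fin.sum_univ_two, smul_add, smul_smul]
  fin_cases j
  · simp only [Fin.zero_eta, h.e0, h.e1]
    have e1 : e 0 * e 0 = 1 - e 1 * e 1 := by linarith
    rw [e1]
    module
  · simp only [Fin.mk_one, h.e0, h.e1]
    have e1 : e 0 * e 0 = 1 - e 1 * e 1 := by linarith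
    rw [e1]
    module

private theorem c1_norm (a : Fin 2 → ℝ) (u : L2) (ha : a 0 * a 0 + a 1 * a 1 = 1) :
    ‖emb a u‖ = ‖u‖ := by
  have h1 : ‖emb a u‖ ^ 2 = ‖u‖ ^ 2 := by
    rw [PiLp.norm_sq_eq_of_L2, Fin.sum_univ_two]
    change ‖a 0 • u‖ ^ 2 + ‖a 1 • u‖ ^ 2 = ‖u‖ ^ 2
    rw [norm_smul, norm_smul, mul_pow, mul_pow, Real.norm_eq_abs, Real.norm_eq_abs, sq_abs,
      sq_abs, ← add_mul, sq (a 0), sq (a 1), ha, one_mul]
  exact (pow_left_inj₀ (norm_nonneg _) (norm_nonneg _) two_ne_zero).1 h1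

theorem Cub.norm_emb (h : Cub p e e' α s) (u : L2) : ‖emb e u‖ = ‖u‖ ∧ ‖emb e' u‖ = ‖u‖ := by
  have h1 := c1_unit h
  refine ⟨c1_norm e u h1, c1_norm e' u ?_⟩
  rw [h.e0, h.e1]
  linarith

theorem Cub.norm_sq (h : Cub p e e' α s) (z : HH 2) :
    ‖z‖ ^ 2 = ‖cmp e z‖ ^ 2 + ‖cmp e' z‖ ^ 2 := by
  have h1 := c1_unit h
  rw [PiLp.norm_sq_eq_of_L2, Fin.sum_univ_two]
  simp only [cmp, Fin.sum_univ_two, h.e0, h.e1]
  rw [norm_add_sq_real, norm_add_sq_real]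
  simp only [norm_smul, mul_pow, Real.norm_eq_abs, sq_abs, inner_smul_left, inner_smul_right,
    neg_sq, RCLike.conj_to_real]
  linear_combination (-(‖z 0‖ ^ 2 + ‖z 1‖ ^ 2)) * h1

end Pool.Agent.KG
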