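import Pool.Agent.Lib.KG.TR1

/-!
# Row TR2: speed-up
-/

set_option autoImplicit false

namespace Pool.Agent.KG.TR2

open MeasureTheory Filter Topology Set
open Pool.Agent.Kdv
open scoped ENNReal ContDiff InnerProductSpace

theorem speed_up (p : Pr 2) (b : Brg p.L) {e : Fin 2 → ℝ} {α : ℝ} (he : Dir p.g e α)
    (hS : ∀ j, mv p.S e j = 0) : ∃ C : ℝ, 0 < C ∧ ∀ x0 : ℝ, b.xs ≤ x0 → ∀ m : ℝ, 0 < m →
    ∀ z0 : HH 2, ∃ z1 : HH 2, ‖z1‖ ≤ Real.exp (C / x0) * (‖z0‖ + C / x0) ∧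
      p.Adm (bg 2 p.L (fun _ j => m * (x0 + b.G) * e j) + z0)
        (bg 2 p.L (fun x j => m * (x0 + x) * e j) + z1) ((p.L + 10) / (x0 * (α * m))) := by
  obtain ⟨C, hC, h⟩ := TR1.TR1_core p b he (Cz := 0) le_rfl
  refine ⟨C, hC, fun x0 hx0 m hm z0 => ?_⟩
  have hα := he.pos
  have hL := p.hL
  have hx0' : 0 < x0 := by have := b.hxs; linarith
  have hτ : α * m * ((p.L + 10) / (x0 * (α * m))) = (p.L + 10) / x0 := by field_simp
  obtain ⟨z1, h1, h2⟩ := h x0 hx0 m hm (-1) (by norm_num) ((p.L + 10) / x0) (fun t ht => by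
    have h3 : α * m * t ≤ (p.L + 10) / x0 := by
      rw [← hτ]
      exact mul_le_mul_of_nonneg_left ht.2 (by positivity)
    have h4 : 0 ≤ α * m * t := by have := ht.1; positivity
    constructor <;> linarith) 0 (fun j => by
      have h5 : bil p.g 0 e j = 0 := by
        unfold bil
        simp
      rw [hS, h5, add_zero, abs_zero]) z0
  refine ⟨z1, h1, ?_⟩
  have e1 : bg 2 p.L (fun x j => -1 * m * b.ff x0 ((p.L + 10) / x0 + -1 * (α * m) * 0) x * e j +
      (0 : Fin 2 → ℝ) j) = bg 2 p.L (fun _ j => m * (x0 + b.G) * e j) := by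
    refine bg_congr fun x hx j => ?_
    rw [mul_zero, add_zero, b.fin x0 hx0 x hx, Pi.zero_apply]
    ring
  have e2 : bg 2 p.L (fun x j => -1 * m * b.ff x0 ((p.L + 10) / x0 + -1 * (α * m) *
      ((p.L + 10) / (x0 * (α * m)))) x * e j + (0 : Fin 2 → ℝ) j) =
      bg 2 p.L (fun x j => m * (x0 + x) * e j) := by
    refine bg_congr fun x hx j => ?_
    have h6 : (p.L + 10) / x0 + -1 * (α * m) * ((p.L + 10) / (x0 * (α * m))) = 0 := by
      rw [mul_assoc (-1 : ℝ) (α * m), hτ]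
      ring
    rw [h6, b.start x0 hx0 x hx, Pi.zero_apply]
    ring
  rw [e1, e2] at h2
  exact h2

end Pool.Agent.KG.TR2

namespace Pool.Agent.KG

alias speed_up := TR2.speed_up

end Pool.Agent.KG
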