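import Pool.Agent.Lib.KG.InfS
import Pool.Agent.Lib.KG.Alg

/-!
# Row TR3: the linear system of the slow path
-/

set_option autoImplicit false

namespace Pool.Agent.KG.TR3

open MeasureTheory Filter Topology Set
open Pool.Agent.Kdv
open scoped ENNReal ContDiff InnerProductSpace

/-- The matrix `H(σ(v)) + k (S + (1 - v) H(Xc))` of the linear system of the slow path. -/
def tr3M (p : Pr 2) (e e' Xc : Fin 2 → ℝ) (q : ℝ × ℝ) (i j : Fin 2) : ℝ :=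
  Hm p.g (fun j => -(1 - q.2) * e j + q.2 * e' j) i j +
    q.1 * (p.S i j + (1 - q.2) * Hm p.g Xc i j)

/-- The right-hand side of the linear system of the slow path. -/
def tr3b (e e' Xc : Fin 2 → ℝ) (q : ℝ × ℝ) (j : Fin 2) : ℝ := -(e j + e' j - q.1 * Xc j)

/-- The solution of the linear system of the slow path. -/
noncomputable def tr3Y (p : Pr 2) (e e' Xc : Fin 2 → ℝ) (j : Fin 2) (q : ℝ × ℝ) : ℝ :=
  (if j = 0 then tr3M p e e' Xc q 1 1 * tr3b e e' Xc q 0 - tr3M p e e' Xc q 0 1 * tr3b e e' Xc q 1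
    else tr3M p e e' Xc q 0 0 * tr3b e e' Xc q 1 - tr3M p e e' Xc q 1 0 * tr3b e e' Xc q 0) /
    det2 (tr3M p e e' Xc q)

theorem tr3M_smooth (p : Pr 2) (e e' Xc : Fin 2 → ℝ) (i j : Fin 2) :
    ContDiff ℝ ∞ fun q : ℝ × ℝ => tr3M p e e' Xc q i j := by
  unfold tr3M Hm
  fun_prop

theorem tr3b_smooth (e e' Xc : Fin 2 → ℝ) (j : Fin 2) :
    ContDiff ℝ ∞ fun q : ℝ × ℝ => tr3b e e' Xc q j := by
  unfold tr3b
  fun_prop

theorem tr3det_smooth (p : Pr 2) (e e' Xc : Fin 2 → ℝ) :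
    ContDiff ℝ ∞ fun q : ℝ × ℝ => det2 (tr3M p e e' Xc q) := by
  unfold det2
  exact ((tr3M_smooth p e e' Xc 0 0).mul (tr3M_smooth p e e' Xc 1 1)).sub
    ((tr3M_smooth p e e' Xc 0 1).mul (tr3M_smooth p e e' Xc 1 0))

theorem tr3Y_smooth (p : Pr 2) (e e' Xc : Fin 2 → ℝ) (j : Fin 2) {q : ℝ × ℝ}
    (hq : det2 (tr3M p e e' Xc q) ≠ 0) : ContDiffAt ℝ ∞ (tr3Y p e e' Xc j) q := by
  unfold tr3Y
  refine ContDiffAt.div ?_ (tr3det_smooth p e e' Xc).contDiffAt hq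
  by_cases hj : j = 0
  · simp only [if_pos hj]
    exact (((tr3M_smooth p e e' Xc 1 1).mul (tr3b_smooth e e' Xc 0)).sub
      ((tr3M_smooth p e e' Xc 0 1).mul (tr3b_smooth e e' Xc 1))).contDiffAt
  · simp only [if_neg hj]
    exact (((tr3M_smooth p e e' Xc 0 0).mul (tr3b_smooth e e' Xc 1)).sub
      ((tr3M_smooth p e e' Xc 1 0).mul (tr3b_smooth e e' Xc 0))).contDiffAt

theorem tr3Y_solve (p : Pr 2) (e e' Xc : Fin 2 → ℝ) {q : ℝ × ℝ}
    (hq : det2 (tr3M p e e' Xc q) ≠ 0) (i : Fin 2) :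
    mv (tr3M p e e' Xc q) (fun j => tr3Y p e e' Xc j q) i = tr3b e e' Xc q i := by
  have h1 : (fun j => tr3Y p e e' Xc j q) 0 * det2 (tr3M p e e' Xc q) =
      tr3M p e e' Xc q 1 1 * tr3b e e' Xc q 0 - tr3M p e e' Xc q 0 1 * tr3b e e' Xc q 1 := by
    simp only [tr3Y, if_true]
    exact div_mul_cancel₀ _ hq
  have h2 : (fun j => tr3Y p e e' Xc j q) 1 * det2 (tr3M p e e' Xc q) =
      tr3M p e e' Xc q 0 0 * tr3b e e' Xc q 1 - tr3M p e e' Xc q 1 0 * tr3b e e' Xc q 0 := by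
    simp only [tr3Y, if_neg (show ¬ (1 : Fin 2) = 0 by decide)]
    exact div_mul_cancel₀ _ hq
  rw [mv, Fin.sum_univ_two]
  refine mul_right_cancel₀ hq ?_
  rw [add_mul, mul_assoc, mul_assoc, h1, h2]
  unfold det2
  fin_cases i
  · simp only [Fin.zero_eta]
    ring
  · simp only [Fin.mk_one]
    ring

theorem tr3_lin (p : Pr 2) (e e' Xc Y : Fin 2 → ℝ) {K v : ℝ} (hK : K ≠ 0) (i : Fin 2) :
    mv p.S Y i + bil p.g (fun j => K * (-(1 - v) * e j + v * e' j) + (1 - v) * Xc j) Y i =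
      K * mv (tr3M p e e' Xc (K⁻¹, v)) Y i := by
  rw [← mv_Hm p.sym]
  have h1 : K * K⁻¹ = 1 := mul_inv_cancel₀ hK
  simp only [mv, tr3M, Hm, Fin.sum_univ_two]
  linear_combination (-(p.S i 0 + (1 - v) * (p.g i 0 0 * Xc 0 + p.g i 0 1 * Xc 1)) * Y 0
    - (p.S i 1 + (1 - v) * (p.g i 1 0 * Xc 0 + p.g i 1 1 * Xc 1)) * Y 1) * h1

theorem exists_Y (p : Pr 2) {e e' Xc : Fin 2 → ℝ}
    (hd : ∀ v ∈ Icc (0 : ℝ) 1, det2 (Hm p.g fun j => -(1 - v) * e j + v * e' j) < 0) :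
    ∃ C K0 : ℝ, 0 < C ∧ 1 ≤ K0 ∧ ∀ K : ℝ, K0 ≤ K → ∃ Y : ℝ → Fin 2 → ℝ,
      (∀ v ∈ Icc (0 : ℝ) 1, ∀ j, ContDiffAt ℝ ∞ (fun v => Y v j) v ∧ |Y v j| ≤ C ∧
        |deriv (fun v => Y v j) v| ≤ C) ∧
      ∀ v ∈ Icc (0 : ℝ) 1, ∀ j,
        (K * (e j + e' j) - Xc j) + mv p.S (Y v) j +
          bil p.g (fun j => K * (-(1 - v) * e j + v * e' j) + (1 - v) * Xc j) (Y v) j = 0 := by
  -- the determinant is negative near `k = 0`
  have hopen : IsOpen {q : ℝ × ℝ | det2 (tr3M p e e' Xc q) < 0} :=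
    isOpen_lt (tr3det_smooth p e e' Xc).continuous continuous_const
  have hsub : ({0} : Set ℝ) ×ˢ Icc (0 : ℝ) 1 ⊆ {q : ℝ × ℝ | det2 (tr3M p e e' Xc q) < 0} := by
    rintro ⟨a, v⟩ ⟨ha, hv⟩
    rw [mem_singleton_iff] at ha
    change a = 0 at ha
    subst ha
    have h := hd v hv
    have e1 : tr3M p e e' Xc (0, v) = Hm p.g fun j => -(1 - v) * e j + v * e' j := by
      funext i j
      simp [tr3M]
    change det2 (tr3M p e e' Xc (0, v)) < 0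
    rw [e1]
    exact h
  obtain ⟨U, V, hU, -, h0U, hIV, hUV⟩ :=
    generalized_tube_lemma isCompact_singleton isCompact_Icc hopen hsub
  obtain ⟨ε, hε, hεU⟩ := Metric.isOpen_iff.1 hU 0 (h0U rfl)
  have hneg : ∀ k ∈ Icc (0 : ℝ) (ε / 2), ∀ v ∈ Icc (0 : ℝ) 1,
      det2 (tr3M p e e' Xc (k, v)) < 0 := by
    intro k hk v hv
    refine hUV (Set.mk_mem_prod (hεU ?_) (hIV hv))
    rw [Metric.mem_ball, Real.dist_eq, sub_zero, abs_of_nonneg hk.1]
    linarith [hk.2]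
  have hcomp : IsCompact (Icc (0 : ℝ) (ε / 2) ×ˢ Icc (0 : ℝ) 1) := isCompact_Icc.prod isCompact_Icc
  have hYc : ∀ j, ContinuousOn (tr3Y p e e' Xc j) (Icc (0 : ℝ) (ε / 2) ×ˢ Icc (0 : ℝ) 1) := by
    intro j q hq
    exact (tr3Y_smooth p e e' Xc j (hneg q.1 hq.1 q.2 hq.2).ne).continuousAt.continuousWithinAt
  have hDc : ∀ j, ContinuousOn (fun q => fderiv ℝ (tr3Y p e e' Xc j) q (0, 1))
      (Icc (0 : ℝ) (ε / 2) ×ˢ Icc (0 : ℝ) 1) := by
    intro j q hq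
    have h1 := tr3Y_smooth p e e' Xc j (hneg q.1 hq.1 q.2 hq.2).ne
    have h2 : ContDiffAt ℝ ∞ (fderiv ℝ (tr3Y p e e' Xc j)) q := h1.fderiv_right (by simp)
    exact (h2.continuousAt.clm_apply continuousAt_const).continuousWithinAt
  choose A hA using fun j => hcomp.exists_bound_of_continuousOn (hYc j)
  choose B hB using fun j => hcomp.exists_bound_of_continuousOn (hDc j)
  have hC : ∀ j, A j ≤ 1 + (|A 0| + |A 1|) + (|B 0| + |B 1|) ∧
      B j ≤ 1 + (|A 0| + |A 1|) + (|B 0| + |B 1|) := by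
    intro j
    have a0 := abs_nonneg (A 0)
    have a1 := abs_nonneg (A 1)
    have b0 := abs_nonneg (B 0)
    have b1 := abs_nonneg (B 1)
    fin_cases j
    · exact ⟨by simp only [Fin.zero_eta]; linarith [le_abs_self (A 0)],
        by simp only [Fin.zero_eta]; linarith [le_abs_self (B 0)]⟩
    · exact ⟨by simp only [Fin.mk_one]; linarith [le_abs_self (A 1)],
        by simp only [Fin.mk_one]; linarith [le_abs_self (B 1)]⟩
  refine ⟨1 + (|A 0| + |A 1|) + (|B 0| + |B 1|), max 1 (2 / ε), by positivity, le_max_left _ _,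
    fun K hK => ?_⟩
  have hK1 : 1 ≤ K := le_trans (le_max_left _ _) hK
  have hK0 : 0 < K := by linarith
  have hk : K⁻¹ ∈ Icc (0 : ℝ) (ε / 2) := by
    refine ⟨(inv_pos.2 hK0).le, ?_⟩
    have h1 : 2 / ε ≤ K := le_trans (le_max_right _ _) hK
    rw [inv_le_comm₀ hK0 (by positivity)]
    rw [inv_div]
    exact h1
  refine ⟨fun v j => tr3Y p e e' Xc j (K⁻¹, v), fun v hv j => ?_, fun v hv j => ?_⟩
  · have hq := (hneg K⁻¹ hk v hv).ne
    have hs := tr3Y_smooth p e e' Xc j hq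
    have hl : ContDiffAt ℝ ∞ (fun v : ℝ => (K⁻¹, v)) v := contDiffAt_const.prodMk contDiffAt_id
    refine ⟨ContDiffAt.comp v hs hl, ?_, ?_⟩
    · exact le_trans (hA j (K⁻¹, v) ⟨hk, hv⟩) (hC j).1
    · have h1 : HasDerivAt (fun v => tr3Y p e e' Xc j (K⁻¹, v))
          (fderiv ℝ (tr3Y p e e' Xc j) (K⁻¹, v) (0, 1)) v := by
        have h2 : HasDerivAt (fun v : ℝ => (K⁻¹, v)) ((0 : ℝ), (1 : ℝ)) v :=
          (hasDerivAt_const v K⁻¹).prodMk (hasDerivAt_id v)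
        exact (hs.differentiableAt (by simp)).hasFDerivAt.comp_hasDerivAt v h2
      rw [h1.deriv]
      exact le_trans (hB j (K⁻¹, v) ⟨hk, hv⟩) (hC j).2
  · have hq := (hneg K⁻¹ hk v hv).ne
    have h1 := tr3_lin p e e' Xc (fun j => tr3Y p e e' Xc j (K⁻¹, v)) (v := v) hK0.ne' j
    have h2 := tr3Y_solve p e e' Xc hq j
    rw [add_assoc]
    rw [h1, h2, tr3b]
    have h3 : K * K⁻¹ = 1 := mul_inv_cancel₀ hK0.ne'
    linear_combination Xc j * h3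
end Pool.Agent.KG.TR3

namespace Pool.Agent.KG

alias exists_Y := TR3.exists_Y

end Pool.Agent.KG
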