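import Pool.Agent.Lib.KG.TL
import Pool.Agent.Lib.KG.TR3

/-!
# Row TR4: slow path
-/

set_option autoImplicit false

namespace Pool.Agent.KG

open MeasureTheory Filter Topology Set
open Pool.Agent.Kdv
open scoped ENNReal ContDiff InnerProductSpace

/-! ### Row TR4: auxiliary lemmas -/

private theorem tr4_st : ContDiff ℝ ∞ st := Real.smoothTransition.contDiff

private theorem tr4_st1 : ContDiff ℝ ∞ (deriv st) :=
  (contDiff_infty_iff_deriv.mp tr4_st).2

private theorem tr4_bd : ∃ C : ℝ, 0 < C ∧ ∀ x ∈ Icc (0 : ℝ) 1,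
    |deriv st x| ≤ C ∧ |deriv (deriv st) x| ≤ C := by
  have h1 : Continuous (deriv st) := tr4_st1.continuous
  have h2 : Continuous (deriv (deriv st)) := (contDiff_infty_iff_deriv.mp tr4_st1).2.continuous
  obtain ⟨C1, hC1⟩ := (isCompact_Icc (a := (0 : ℝ)) (b := 1)).exists_bound_of_continuousOn
    h1.continuousOn
  obtain ⟨C2, hC2⟩ := (isCompact_Icc (a := (0 : ℝ)) (b := 1)).exists_bound_of_continuousOn
    h2.continuousOn
  refine ⟨max 1 (max C1 C2), lt_of_lt_of_le one_pos (le_max_left _ _), fun x hx => ⟨?_, ?_⟩⟩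
  · exact (hC1 x hx).trans ((le_max_left _ _).trans (le_max_right _ _))
  · exact (hC2 x hx).trans ((le_max_right _ _).trans (le_max_right _ _))

private theorem tr4_st_zero : st 0 = 0 := Real.smoothTransition.zero_of_nonpos le_rfl

private theorem tr4_st_one : st 1 = 1 := Real.smoothTransition.one_of_one_le le_rfl

private theorem tr4_d_zero : deriv st 0 = 0 := by
  apply IsLocalMin.deriv_eq_zero
  refine Filter.Eventually.of_forall fun x => ?_
  rw [tr4_st_zero]
  exact Real.smoothTransition.nonneg x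

private theorem tr4_d_one : deriv st 1 = 0 := by
  apply IsLocalMax.deriv_eq_zero
  refine Filter.Eventually.of_forall fun x => ?_
  rw [tr4_st_one]
  exact Real.smoothTransition.le_one x

/-- The sum of the absolute values of the coefficients. -/
private noncomputable def tr4G (g : Fin 2 → Fin 2 → Fin 2 → ℝ) : ℝ := ∑ j, ∑ k, ∑ l, |g j k l|

private theorem tr4G_nonneg (g : Fin 2 → Fin 2 → Fin 2 → ℝ) : 0 ≤ tr4G g :=
  Finset.sum_nonneg fun _ _ => Finset.sum_nonneg fun _ _ => Finset.sum_nonneg fun _ _ =>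
    abs_nonneg _

private theorem tr4_bil (g : Fin 2 → Fin 2 → Fin 2 → ℝ) {X Y : Fin 2 → ℝ} {B D : ℝ}
    (hB : ∀ k, |X k| ≤ B) (hD : ∀ k, |Y k| ≤ D) (j : Fin 2) :
    |∑ k, ∑ l, g j k l * X k * Y l| ≤ tr4G g * (B * D) := by
  have hB0 : 0 ≤ B := (abs_nonneg _).trans (hB 0)
  have h1 : |∑ k, ∑ l, g j k l * X k * Y l| ≤ ∑ k, ∑ l, |g j k l| * (B * D) := by
    refine (Finset.abs_sum_le_sum_abs _ _).trans (Finset.sum_le_sum fun k _ => ?_)
    refine (Finset.abs_sum_le_sum_abs _ _).trans (Finset.sum_le_sum fun l _ => ?_)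
    rw [mul_assoc, abs_mul, abs_mul]
    exact mul_le_mul_of_nonneg_left (mul_le_mul (hB k) (hD l) (abs_nonneg _) hB0) (abs_nonneg _)
  refine h1.trans ?_
  have h2 : ∑ k, ∑ l, |g j k l| * (B * D) = (∑ k, ∑ l, |g j k l|) * (B * D) := by
    rw [Finset.sum_mul]
    exact Finset.sum_congr rfl fun k _ => by rw [Finset.sum_mul]
  rw [h2]
  have hD0 : 0 ≤ D := (abs_nonneg _).trans (hD 0)
  refine mul_le_mul_of_nonneg_right ?_ (mul_nonneg hB0 hD0)
  exact Finset.single_le_sum (f := fun j => ∑ k, ∑ l, |g j k l|) (fun j _ =>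
    Finset.sum_nonneg fun _ _ => Finset.sum_nonneg fun _ _ => abs_nonneg _) (Finset.mem_univ j)

private theorem tr4_qd (g : Fin 2 → Fin 2 → Fin 2 → ℝ) {X : Fin 2 → ℝ} {B : ℝ}
    (hB : ∀ k, |X k| ≤ B) (ξ : Fin 2 → ℝ) :
    -qd (Hm g X) ξ ≤ 2 * (tr4G g * B) * dot ξ ξ := by
  have hB0 : 0 ≤ B := (abs_nonneg _).trans (hB 0)
  have hG := tr4G_nonneg g
  have hH : ∀ j k, |Hm g X j k| ≤ tr4G g * B := by
    intro j k
    unfold Hm
    have h1 : |∑ l, g j k l * X l| ≤ (∑ l, |g j k l|) * B := by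
      rw [Finset.sum_mul]
      refine (Finset.abs_sum_le_sum_abs _ _).trans (Finset.sum_le_sum fun l _ => ?_)
      rw [abs_mul]
      exact mul_le_mul_of_nonneg_left (hB l) (abs_nonneg _)
    refine h1.trans (mul_le_mul_of_nonneg_right ?_ hB0)
    refine le_trans (Finset.single_le_sum (f := fun k => ∑ l, |g j k l|) (fun j _ =>
      Finset.sum_nonneg fun _ _ => abs_nonneg _) (Finset.mem_univ k)) ?_
    exact Finset.single_le_sum (f := fun j => ∑ k, ∑ l, |g j k l|) (fun j _ =>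
      Finset.sum_nonneg fun _ _ => Finset.sum_nonneg fun _ _ => abs_nonneg _) (Finset.mem_univ j)
  have h2 : ∀ j k, -(Hm g X j k * ξ j * ξ k) ≤ tr4G g * B * ((ξ j ^ 2 + ξ k ^ 2) / 2) := by
    intro j k
    have h3 : |Hm g X j k * ξ j * ξ k| ≤ tr4G g * B * ((ξ j ^ 2 + ξ k ^ 2) / 2) := by
      rw [mul_assoc, abs_mul]
      refine mul_le_mul (hH j k) ?_ (abs_nonneg _) (mul_nonneg hG hB0)
      rw [abs_le]
      constructor
      · nlinarith [sq_nonneg (ξ j + ξ k)]
      · nlinarith [sq_nonneg (ξ j - ξ k)]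
    exact (neg_le_abs _).trans h3
  unfold qd dot
  rw [← Finset.sum_neg_distrib]
  have h4 : ∑ j, -∑ k, Hm g X j k * ξ j * ξ k ≤
      ∑ j, ∑ k, tr4G g * B * ((ξ j ^ 2 + ξ k ^ 2) / 2) := by
    refine Finset.sum_le_sum fun j _ => ?_
    rw [← Finset.sum_neg_distrib]
    exact Finset.sum_le_sum fun k _ => h2 j k
  refine h4.trans (le_of_eq ?_)
  simp only [Fin.sum_univ_two]
  ring

/-- The slow path itself, with explicit data. -/
private theorem tr4_core (p : Pr 2) {e e' Xc : Fin 2 → ℝ} {CY C1 : ℝ} (hCY : 0 < CY)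
    (hC1 : 0 < C1)
    (hst : ∀ x ∈ Icc (0 : ℝ) 1, |deriv st x| ≤ C1 ∧ |deriv (deriv st) x| ≤ C1)
    {K : ℝ} {Y : ℝ → Fin 2 → ℝ}
    (hY : ∀ v ∈ Icc (0 : ℝ) 1, ∀ j, ContDiffAt ℝ ∞ (fun v => Y v j) v ∧ |Y v j| ≤ CY ∧
        |deriv (fun v => Y v j) v| ≤ CY)
    (hE : ∀ v ∈ Icc (0 : ℝ) 1, ∀ j,
          (K * (e j + e' j) - Xc j) + mv p.S (Y v) j +
          bil p.g (fun j => K * (-(1 - v) * e j + v * e' j) + (1 - v) * Xc j) (Y v) j = 0)
    {T : ℝ} (hT : 1 ≤ T) (z0 : HH 2) : ∃ z1 : HH 2,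
      ‖z1‖ ≤ Real.exp (2 * (tr4G p.g * (C1 / T * CY)) * T / 2) * (‖z0‖ + 2 * (p.L + 2) *
        ((p.L + 1) * (C1 / T / T * CY + C1 / T * (CY * (C1 / T)) +
          tr4G p.g * (C1 / T * CY * (C1 / T * CY)))) * T) ∧
      p.Adm (bg 2 p.L (fun _ j => -K * e j + Xc j) + z0)
        (bg 2 p.L (fun _ j => K * e' j) + z1) T := by
  have hT0 : 0 < T := by linarith
  have hL := p.hL
  set a : ℝ → ℝ := fun t => st (t / T) with ha
  set a1 : ℝ → ℝ := fun t => deriv st (t / T) / T with ha1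
  have hdiv : ContDiff ℝ ∞ (fun t : ℝ => t / T) := contDiff_id.div_const T
  have sa : ContDiff ℝ ∞ a := tr4_st.comp hdiv
  have sa1 : ContDiff ℝ ∞ a1 := (tr4_st1.comp hdiv).div_const T
  have hdd : ∀ t : ℝ, HasDerivAt (fun t : ℝ => t / T) (1 / T) t :=
    fun t => (hasDerivAt_id t).div_const T
  have da : ∀ t, HasDerivAt a (a1 t) t := by
    intro t
    have h1 : HasDerivAt st (deriv st (t / T)) (t / T) :=
      (tr4_st.differentiable (by simp) _).hasDerivAt
    have h2 := h1.comp t (hdd t)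
    have h3 : deriv st (t / T) * (1 / T) = a1 t := by
      rw [ha1]
      ring
    rw [h3] at h2
    exact h2
  have da1 : ∀ t, HasDerivAt a1 (deriv (deriv st) (t / T) / T / T) t := by
    intro t
    have h1 : HasDerivAt (deriv st) (deriv (deriv st) (t / T)) (t / T) :=
      (tr4_st1.differentiable (by simp) _).hasDerivAt
    have h2 := (h1.comp t (hdd t)).div_const T
    have h3 : deriv (deriv st) (t / T) * (1 / T) / T = deriv (deriv st) (t / T) / T / T := by
      ring
    rw [h3] at h2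
    exact h2
  have ma : ∀ t, a t ∈ Icc (0 : ℝ) 1 := fun t =>
    ⟨Real.smoothTransition.nonneg _, Real.smoothTransition.le_one _⟩
  have sY : ∀ j, ContDiff ℝ ∞ (fun t => Y (a t) j) := by
    intro j
    rw [contDiff_iff_contDiffAt]
    intro t
    exact ContDiffAt.comp (g := fun v => Y v j) t (hY (a t) (ma t) j).1 sa.contDiffAt
  have dY : ∀ t j, HasDerivAt (fun t => Y (a t) j) (deriv (fun v => Y v j) (a t) * a1 t) t := by
    intro t j
    have h1 : HasDerivAt (fun v => Y v j) (deriv (fun v => Y v j) (a t)) (a t) :=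
      ((hY (a t) (ma t) j).1.differentiableAt (by simp)).hasDerivAt
    exact h1.comp t (da t)
  set X0 : ℝ → Fin 2 → ℝ := fun t j => K * (-(1 - a t) * e j + a t * e' j) + (1 - a t) * Xc j
    with hX0
  set X1 : ℝ → Fin 2 → ℝ := fun t j => a1 t * Y (a t) j with hX1
  have dX0 : ∀ t j, HasDerivAt (fun t => X0 t j) (a1 t * (K * (e j + e' j) - Xc j)) t := by
    intro t j
    have h1 : HasDerivAt (fun t => 1 - a t) (-a1 t) t := (da t).const_sub 1
    have h2 := (((h1.neg.mul_const (e j)).add ((da t).mul_const (e' j))).const_mul K).add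
      (h1.mul_const (Xc j))
    have h3 : K * (- -a1 t * e j + a1 t * e' j) + -a1 t * Xc j =
        a1 t * (K * (e j + e' j) - Xc j) := by ring
    rw [h3] at h2
    exact h2
  have dX1 : ∀ t j, HasDerivAt (fun t => X1 t j) (deriv (deriv st) (t / T) / T / T * Y (a t) j +
      a1 t * (deriv (fun v => Y v j) (a t) * a1 t)) t := fun t j => (da1 t).mul (dY t j)
  set w : ℝ → ℝ → Fin 2 → ℝ := fun t x j => X0 t j + x * X1 t j with hw
  have dwx : ∀ t x j, HasDerivAt (fun x => w t x j) (X1 t j) x := by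
    intro t x j
    have h1 := ((hasDerivAt_id x).mul_const (X1 t j)).const_add (X0 t j)
    rw [one_mul] at h1
    exact h1
  have ewx : ∀ t j, deriv (fun x => w t x j) = fun _ => X1 t j := by
    intro t j
    funext x
    exact (dwx t x j).deriv
  have ew3 : ∀ t x j, iteratedDeriv 3 (fun x => w t x j) x = 0 := by
    intro t x j
    rw [iteratedDeriv_succ', ewx, iteratedDeriv_succ']
    have h1 : deriv (fun _ : ℝ => X1 t j) = fun _ => 0 := by
      funext x
      exact deriv_const x _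
    rw [h1, iteratedDeriv_succ', iteratedDeriv_zero]
    exact deriv_const x _
  have dwt : ∀ t x j, deriv (fun s => w s x j) t = a1 t * (K * (e j + e' j) - Xc j) +
      x * (deriv (deriv st) (t / T) / T / T * Y (a t) j +
      a1 t * (deriv (fun v => Y v j) (a t) * a1 t)) := by
    intro t x j
    exact ((dX0 t j).add ((dX1 t j).const_mul x)).deriv
  have hres : ∀ t x j, resid p w t x j = x * (deriv (deriv st) (t / T) / T / T * Y (a t) j +
      a1 t * (deriv (fun v => Y v j) (a t) * a1 t) +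
      ∑ k, ∑ l, p.g j k l * X1 t k * X1 t l) := by
    intro t x j
    unfold resid
    rw [dwt, ew3]
    simp only [ewx]
    have h1 := hE (a t) (ma t) j
    unfold mv bil at h1
    have h2 : a1 t * (K * (e j + e' j) - Xc j) + ∑ k, p.S j k * X1 t k +
        ∑ k, ∑ l, p.g j k l * X0 t k * X1 t l = 0 := by
      have h3 : a1 t * ((K * (e j + e' j) - Xc j) + ∑ k, p.S j k * Y (a t) k +
          ∑ k, ∑ l, p.g j k l * ((K * (-(1 - a t) * e k + a t * e' k) + (1 - a t) * Xc k) *
            Y (a t) l)) = 0 := by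
        rw [h1, mul_zero]
      rw [← h3]
      simp only [hX0, hX1, Fin.sum_univ_two]
      ring
    have h4 : ∑ k, ∑ l, p.g j k l * w t x k * X1 t l =
        ∑ k, ∑ l, p.g j k l * X0 t k * X1 t l + x * ∑ k, ∑ l, p.g j k l * X1 t k * X1 t l := by
      simp only [hw, Fin.sum_univ_two]
      ring
    rw [h4]
    linear_combination h2
  have ba1 : ∀ t ∈ Icc 0 T, |a1 t| ≤ C1 / T := by
    intro t ht
    have h1 : t / T ∈ Icc (0 : ℝ) 1 :=
      ⟨div_nonneg ht.1 hT0.le, (div_le_one hT0).mpr ht.2⟩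
    rw [ha1, abs_div, abs_of_pos hT0]
    exact div_le_div_of_nonneg_right (hst _ h1).1 hT0.le
  have ba2 : ∀ t ∈ Icc 0 T, |deriv (deriv st) (t / T) / T / T| ≤ C1 / T / T := by
    intro t ht
    have h1 : t / T ∈ Icc (0 : ℝ) 1 :=
      ⟨div_nonneg ht.1 hT0.le, (div_le_one hT0).mpr ht.2⟩
    rw [abs_div, abs_div, abs_of_pos hT0]
    exact div_le_div_of_nonneg_right (div_le_div_of_nonneg_right (hst _ h1).2 hT0.le) hT0.le
  have bX1 : ∀ t ∈ Icc 0 T, ∀ j, |X1 t j| ≤ C1 / T * CY := by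
    intro t ht j
    rw [hX1, abs_mul]
    exact mul_le_mul (ba1 t ht) (hY (a t) (ma t) j).2.1 (abs_nonneg _) (by positivity)
  have hph := phase p hT0 (w := w) (U := univ) isOpen_univ (subset_univ _) (fun j => by
      apply ContDiff.contDiffOn
      have e1 : (fun q : ℝ × ℝ => w q.1 q.2 j) = fun q : ℝ × ℝ =>
        (K * (-(1 - a q.1) * e j + a q.1 * e' j) + (1 - a q.1) * Xc j) +
          q.2 * (a1 q.1 * Y (a q.1) j) := rfl
      rw [e1]
      have c1 : ContDiff ℝ ∞ (fun q : ℝ × ℝ => a q.1) := sa.comp contDiff_fst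
      have c2 : ContDiff ℝ ∞ (fun q : ℝ × ℝ => a1 q.1) := sa1.comp contDiff_fst
      have c3 : ContDiff ℝ ∞ (fun q : ℝ × ℝ => Y (a q.1) j) := (sY j).comp contDiff_fst
      have c4 : ContDiff ℝ ∞ (fun q : ℝ × ℝ => 1 - a q.1) := contDiff_const.sub c1
      exact ((contDiff_const.mul ((c4.neg.mul contDiff_const).add (c1.mul contDiff_const))).add
        (c4.mul contDiff_const)).add (contDiff_snd.mul (c2.mul c3)))
    (κ := 2 * (tr4G p.g * (C1 / T * CY)))
    (r := (p.L + 1) * (C1 / T / T * CY + C1 / T * (CY * (C1 / T)) +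
          tr4G p.g * (C1 / T * CY * (C1 / T * CY))))
    (by have := tr4G_nonneg p.g; positivity) (by have := tr4G_nonneg p.g; positivity)
    (by
      intro t ht x _ ξ
      have h1 : (fun j => deriv (fun x => w t x j) x) = X1 t := by
        funext j
        rw [ewx]
      rw [h1]
      exact tr4_qd p.g (bX1 t ht) ξ)
    (by
      intro t ht x hx j
      rw [hres, abs_mul]
      have hxL : |x| ≤ p.L + 1 := by
        rw [abs_le]
        constructor
        · linarith [hx.1]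
        · linarith [hx.2]
      refine mul_le_mul hxL ?_ (abs_nonneg _) (by linarith)
      refine (abs_add_le _ _).trans (add_le_add ((abs_add_le _ _).trans (add_le_add ?_ ?_)) ?_)
      · rw [abs_mul]
        exact mul_le_mul (ba2 t ht) (hY (a t) (ma t) j).2.1 (abs_nonneg _) (by positivity)
      · rw [abs_mul, abs_mul]
        exact mul_le_mul (ba1 t ht) (mul_le_mul (hY (a t) (ma t) j).2.2 (ba1 t ht)
          (abs_nonneg _) hCY.le) (by positivity) (by positivity)
      · exact tr4_bil p.g (bX1 t ht) (bX1 t ht) j)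
    z0
  obtain ⟨z1, hz1, hadm⟩ := hph
  refine ⟨z1, ?_, ?_⟩
  · exact_mod_cast hz1
  · have w0 : w 0 = fun _ j => -K * e j + Xc j := by
      funext x j
      have h1 : a 0 = 0 := by
        rw [ha]
        simp only [zero_div]
        exact tr4_st_zero
      have h2 : a1 0 = 0 := by
        rw [ha1]
        simp only [zero_div]
        rw [tr4_d_zero, zero_div]
      simp only [hw, hX0, hX1]
      rw [h1, h2]
      ring
    have wT : w T = fun _ j => K * e' j := by
      funext x j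
      have h1 : a T = 1 := by
        rw [ha]
        simp only [div_self hT0.ne']
        exact tr4_st_one
      have h2 : a1 T = 0 := by
        rw [ha1]
        simp only [div_self hT0.ne']
        rw [tr4_d_one, zero_div]
      simp only [hw, hX0, hX1]
      rw [h1, h2]
      ring
    rw [w0, wT] at hadm
    exact hadm

/-- `X0 t = K σ(v) + (1 - v) Xc` with `v = st (t / T)`, `X1 t = v' Y(v)`, `w = X0 + x X1`; the
residual is `x (X1' + T(X1, X1))`. -/
theorem slow_path (p : Pr 2) {e e' Xc : Fin 2 → ℝ}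
    (hd : ∀ v ∈ Icc (0 : ℝ) 1, det2 (Hm p.g fun j => -(1 - v) * e j + v * e' j) < 0) :
    ∃ C K0 : ℝ, 0 < C ∧ 0 < K0 ∧ ∀ K : ℝ, K0 ≤ K → ∀ T : ℝ, 1 ≤ T → ∀ z0 : HH 2, ∃ z1 : HH 2,
      ‖z1‖ ≤ C * (‖z0‖ + C / T) ∧
      p.Adm (bg 2 p.L (fun _ j => -K * e j + Xc j) + z0)
        (bg 2 p.L (fun _ j => K * e' j) + z1) T := by
  obtain ⟨CY, K0, hCY, hK0, hY⟩ := exists_Y p (Xc := Xc) hd
  obtain ⟨C1, hC1, hst⟩ := tr4_bd
  have hG := tr4G_nonneg p.g
  have hL := p.hL
  set E : ℝ := Real.exp (tr4G p.g * (C1 * CY)) with hEdef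
  set R : ℝ := 2 * (p.L + 2) * ((p.L + 1) * (C1 * CY + C1 * (CY * C1) +
    tr4G p.g * (C1 * CY * (C1 * CY)))) with hR
  have hE0 : 0 < E := Real.exp_pos _
  have hR0 : 0 ≤ R := by positivity
  refine ⟨max E R, K0, lt_of_lt_of_le hE0 (le_max_left _ _), by linarith, ?_⟩
  intro K hK T hT z0
  have hT0 : 0 < T := by linarith
  obtain ⟨Y, hY1, hY2⟩ := hY K hK
  obtain ⟨z1, hz1, hadm⟩ := tr4_core p hCY hC1 hst hY1 hY2 hT z0
  refine ⟨z1, hz1.trans ?_, hadm⟩
  have e1 : 2 * (tr4G p.g * (C1 / T * CY)) * T / 2 = tr4G p.g * (C1 * CY) := by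
    field_simp
  have e2 : 2 * (p.L + 2) * ((p.L + 1) * (C1 / T / T * CY + C1 / T * (CY * (C1 / T)) +
          tr4G p.g * (C1 / T * CY * (C1 / T * CY)))) * T = R / T := by
    rw [hR]
    field_simp
  rw [e1, e2, ← hEdef]
  have h1 : R / T ≤ max E R / T := div_le_div_of_nonneg_right (le_max_right _ _) hT0.le
  have h2 : 0 ≤ R / T := div_nonneg hR0 hT0.le
  exact mul_le_mul (le_max_left _ _) (by linarith) (by positivity)
    (hE0.le.trans (le_max_left _ _))

end Pool.Agent.KG
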