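import Pool.Agent.Lib.KG.WB

/-!
# Row TR5: Grönwall with a bootstrap
-/

set_option autoImplicit false

namespace Pool.Agent.KG

open MeasureTheory Filter Topology Set
open Pool.Agent.Kdv
open scoped ENNReal ContDiff InnerProductSpace

/-- Grönwall's inequality in integral form. -/
private theorem tr5_gron {T K : ℝ} (hT : 0 ≤ T) {φ : ℝ → ℝ} (hφ : Continuous φ)
    (h : ∀ t ∈ Icc 0 T, φ t ≤ φ 0 + ∫ s in (0 : ℝ)..t, K * φ s) (hK : 0 ≤ K) :
    ∀ t ∈ Icc 0 T, φ t ≤ φ 0 * Real.exp (K * t) := by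
  intro t ht
  set F : ℝ → ℝ := fun t => φ 0 + ∫ s in (0 : ℝ)..t, K * φ s with hF
  have hd : ∀ x, HasDerivAt F (K * φ x) x := fun x =>
    ((continuous_const.mul hφ).integral_hasStrictDerivAt 0 x).hasDerivAt.const_add _
  have hE : ∀ x, HasDerivAt (fun x => F x * Real.exp (-K * x))
      (K * φ x * Real.exp (-K * x) + F x * (Real.exp (-K * x) * (-K))) x := by
    intro x
    have h1 : HasDerivAt (fun x : ℝ => -K * x) (-K) x := by
      simpa using (hasDerivAt_id x).const_mul (-K)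
    exact (hd x).mul h1.exp
  have hanti : AntitoneOn (fun x => F x * Real.exp (-K * x)) (Icc 0 T) := by
    refine antitoneOn_of_deriv_nonpos (convex_Icc 0 T)
      (fun x _ => (hE x).continuousAt.continuousWithinAt)
      (fun x _ => (hE x).differentiableAt.differentiableWithinAt) fun x hx => ?_
    rw [interior_Icc] at hx
    rw [(hE x).deriv]
    have h1 := h x ⟨hx.1.le, hx.2.le⟩
    have h2 : K * φ x ≤ K * F x := mul_le_mul_of_nonneg_left h1 hK
    have h3 := Real.exp_pos (-K * x)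
    nlinarith [mul_le_mul_of_nonneg_right h2 h3.le]
  have h2 := hanti ⟨le_rfl, hT⟩ ht ht.1
  have h3 : F 0 = φ 0 := by simp [hF]
  have h4 : F t ≤ φ 0 * Real.exp (K * t) := by
    have h5 : F t * Real.exp (-K * t) ≤ φ 0 := by
      have h6 : F 0 * Real.exp (-K * 0) = φ 0 := by rw [h3]; simp
      calc _ ≤ _ := h2
        _ = _ := h6
    have h7 : Real.exp (-K * t) * Real.exp (K * t) = 1 := by
      rw [← Real.exp_add]; simp
    calc F t = F t * Real.exp (-K * t) * Real.exp (K * t) := by rw [mul_assoc, h7, mul_one]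
      _ ≤ _ := mul_le_mul_of_nonneg_right h5 (Real.exp_pos _).le
  exact (h t ht).trans h4

/-- The continuity argument. -/
private theorem tr5_cont {T M : ℝ} {u : ℝ → ℝ} (hu : Continuous u) (hM : M < 1)
    (h0 : u 0 ≤ M)
    (h : ∀ T' ∈ Icc 0 T, (∀ r ∈ Icc 0 T', u r ≤ 1) → ∀ t ∈ Icc 0 T', u t ≤ M) :
    ∀ t ∈ Icc 0 T, u t ≤ M := by
  have hs : IsClosed {t : ℝ | ∀ l ∈ Icc (0 : ℝ) 1, u (l * t) ≤ M} := by
    have h1 : {t : ℝ | ∀ l ∈ Icc (0 : ℝ) 1, u (l * t) ≤ M} =
        ⋂ l ∈ Icc (0 : ℝ) 1, {t : ℝ | u (l * t) ≤ M} := by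
      ext t; simp
    rw [h1]
    exact isClosed_biInter fun l _ =>
      isClosed_le (hu.comp (continuous_const.mul continuous_id)) continuous_const
  have key := IsClosed.Icc_subset_of_forall_exists_gt (a := (0 : ℝ)) (b := T)
    (s := {t : ℝ | ∀ l ∈ Icc (0 : ℝ) 1, u (l * t) ≤ M}) (hs.inter isClosed_Icc)
    (fun l _ => by simpa using h0) ?_
  · intro t ht
    simpa using key ht 1 ⟨zero_le_one, le_rfl⟩
  · rintro x ⟨hx, hx0, hxT⟩ y hy
    have hsx : ∀ r ∈ Icc 0 x, u r ≤ M := by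
      intro r hr
      rcases eq_or_lt_of_le hx0 with h1 | h1
      · have : r = 0 := le_antisymm (h1 ▸ hr.2) hr.1
        rw [this]; exact h0
      · have := hx (r / x) ⟨div_nonneg hr.1 hx0, (div_le_one h1).2 hr.2⟩
        rwa [div_mul_cancel₀ _ h1.ne'] at this
    have h2 : ∀ᶠ r in 𝓝 x, u r < 1 :=
      hu.continuousAt.eventually_lt continuousAt_const ((hsx x ⟨hx0, le_rfl⟩).trans_lt hM)
    obtain ⟨δ, hδ, h3⟩ := Metric.eventually_nhds_iff.1 h2
    set z := min (x + δ / 2) (min y T) with hz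
    have hzx : x < z := lt_min (by linarith) (lt_min hy hxT)
    have hzT : z ≤ T := (min_le_right _ _).trans (min_le_right _ _)
    have hzy : z ≤ y := (min_le_right _ _).trans (min_le_left _ _)
    have hzδ : z ≤ x + δ / 2 := min_le_left _ _
    refine ⟨z, ?_, hzx, hzy⟩
    have h4 := h z ⟨hx0.trans hzx.le, hzT⟩ fun r hr => by
      rcases le_or_gt r x with h5 | h5
      · exact (hsx r ⟨hr.1, h5⟩).trans hM.le
      · refine (h3 ?_).le
        rw [Real.dist_eq, abs_of_pos (by linarith)]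
        have := hr.2
        linarith
    intro l hl
    exact h4 _ ⟨mul_nonneg hl.1 (hx0.trans hzx.le), by
      have := mul_le_mul_of_nonneg_right hl.2 (hx0.trans hzx.le)
      linarith⟩

/-- Grönwall with a bootstrap: while `‖z‖ ≤ 1`, `wn' ≤ (C / c) wn`. -/
theorem boot (p : Pr 2) : ∃ C : ℝ, 0 < C ∧ ∀ c : ℝ, C ≤ c → ∀ (τ : ℝ), 0 ≤ τ →
    ∀ (B : Bk p τ), (∀ t ∈ Icc 0 τ, ∀ z : HH 2, trt p c (B.w t) (B.wx t) z ≤ 0) →
      (∀ t ∈ Icc 0 τ, B.r t = 0) → ∀ (z0 : HH 2) (f : ℝ → HH 2) (v : ℝ → VV 2 p.L),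
      Run p B (fun _ => 0) z0 f v → 2 * Real.exp (C / c * τ) * ‖z0‖ ≤ 1 / 2 →
      ∀ t ∈ Icc 0 τ, ‖p.sm.traj z0 f t‖ ≤ 2 * Real.exp (C / c * τ) * ‖z0‖ := by
  obtain ⟨C, m, hC, hm, hw⟩ := wbal p
  have hL := p.hL
  refine ⟨max (2 * C) (2 * (p.L + 4)), lt_max_of_lt_left (by positivity), ?_⟩
  intro c hc τ hτ B hB1 hB2 z0 f v hR hsmall
  have hc1 : 2 * (p.L + 4) ≤ c := (le_max_right _ _).trans hc
  have hc0 : 0 < c := by linarith
  have hCc : Real.exp (2 * C / c * τ) ≤
      Real.exp (max (2 * C) (2 * (p.L + 4)) / c * τ) := by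
    apply Real.exp_le_exp.2
    apply mul_le_mul_of_nonneg_right _ hτ
    exact div_le_div_of_nonneg_right (le_max_left _ _) hc0.le
  set E := Real.exp (max (2 * C) (2 * (p.L + 4)) / c * τ) with hE
  have hE1 : 1 ≤ E := Real.one_le_exp (by
    have : 0 ≤ max (2 * C) (2 * (p.L + 4)) := le_max_of_le_left (by positivity)
    positivity)
  -- the extension
  have hcont0 : ContinuousOn (p.sm.traj z0 f) (Icc 0 τ) := p.sm.traj_cont z0 hτ hR.path.int
  obtain ⟨pr, hpr, hprI, hprE⟩ : ∃ pr : ℝ → ℝ, Continuous pr ∧ (∀ s, pr s ∈ Icc 0 τ) ∧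
      ∀ s ∈ Icc 0 τ, pr s = s := by
    refine ⟨fun s => max 0 (min s τ), by fun_prop,
      fun s => ⟨le_max_left _ _, max_le hτ (min_le_right _ _)⟩, fun s hs => ?_⟩
    simp only
    rw [min_eq_left hs.2, max_eq_right hs.1]
  have hY : Continuous fun s => p.sm.traj z0 f (pr s) := hcont0.comp_continuous hpr hprI
  have hwn : Continuous fun s => wn p.L c (p.sm.traj z0 f (pr s)) := by
    unfold wn
    exact ((mulH (wt p.L c)).continuous.comp hY).inner hY
  have h0τ : (0 : ℝ) ∈ Icc 0 τ := ⟨le_rfl, hτ⟩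
  have hz0 : p.sm.traj z0 f (pr 0) = z0 := by rw [hprE 0 h0τ, Sm.traj_zero]
  have hint := wbal_int p c C m hτ hR continuousOn_const
  have main : ∀ t ∈ Icc 0 τ, ‖p.sm.traj z0 f (pr t)‖ ≤ 2 * E * ‖z0‖ := by
    refine tr5_cont hY.norm (by linarith : 2 * E * ‖z0‖ < 1) ?_ ?_
    · rw [hz0]
      nlinarith [norm_nonneg z0]
    · intro T' hT' h1
      have hg := tr5_gron (K := 4 * C / c) hT'.1 hwn ?_ (by positivity)
      · intro t ht
        have h2 := hg t ht
        rw [hz0] at h2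
        have h3 := (wn_bounds hL hc1 (p.sm.traj z0 f (pr t))).1
        have h4 := (wn_bounds hL hc1 z0).2.1
        have h5 : wn p.L c z0 * Real.exp (4 * C / c * t) ≤
            2 * c * ‖z0‖ ^ 2 * Real.exp (4 * C / c * τ) := by
          refine mul_le_mul h4 (Real.exp_le_exp.2 ?_) (Real.exp_pos _).le (by positivity)
          exact mul_le_mul_of_nonneg_left (ht.2.trans hT'.2) (by positivity)
        have h6 : Real.exp (4 * C / c * τ) = Real.exp (2 * C / c * τ) ^ 2 := by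
          rw [← Real.exp_nat_mul]
          congr 1
          push_cast
          ring
        have h7 : Real.exp (2 * C / c * τ) ^ 2 ≤ E ^ 2 :=
          pow_le_pow_left₀ (Real.exp_pos _).le hCc 2
        have h8 : c / 2 * ‖p.sm.traj z0 f (pr t)‖ ^ 2 ≤ 2 * c * ‖z0‖ ^ 2 * E ^ 2 := by
          calc _ ≤ _ := h3
            _ ≤ _ := h2
            _ ≤ _ := h5
            _ ≤ _ := by
              rw [h6]
              exact mul_le_mul_of_nonneg_left h7 (by positivity)
        have h9 : ‖p.sm.traj z0 f (pr t)‖ ^ 2 ≤ (2 * E * ‖z0‖) ^ 2 := by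
          have h10 : c / 2 * ‖p.sm.traj z0 f (pr t)‖ ^ 2 ≤ c / 2 * (2 * E * ‖z0‖) ^ 2 := by
            calc _ ≤ _ := h8
              _ = _ := by ring
          exact le_of_mul_le_mul_left h10 (by positivity)
        exact le_of_sq_le_sq h9 (by positivity)
      · intro t ht
        have htτ : t ∈ Icc 0 τ := ⟨ht.1, ht.2.trans hT'.2⟩
        have h2 := hw c hc1 τ B (fun _ => 0) z0 f v hR continuousOn_const 0 t le_rfl ht.1 htτ.2
        rw [hprE t htτ, hprE 0 h0τ]
        rw [sub_le_iff_le_add'] at h2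
        refine h2.trans (add_le_add le_rfl ?_)
        refine intervalIntegral.integral_mono_on ht.1 ?_ ?_ ?_
        · refine hint.1.mono_set ?_
          rw [uIcc_of_le ht.1, uIcc_of_le hτ]
          exact Icc_subset_Icc le_rfl htτ.2
        · exact (continuous_const.mul hwn).intervalIntegrable _ _
        · intro r hr
          have hrτ : r ∈ Icc 0 τ := ⟨hr.1, hr.2.trans htτ.2⟩
          have hrT : r ∈ Icc 0 T' := ⟨hr.1, hr.2.trans ht.2⟩
          have h3 : ‖p.sm.traj z0 f r‖ ≤ 1 := by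
            have := h1 r hrT
            rwa [hprE r hrτ] at this
          rw [hprE r hrτ, hB2 r hrτ, inner_zero_left]
          have h4 := hB1 r hrτ (p.sm.traj z0 f r)
          have h5 : 0 ≤ m * ∑ j, ‖dd j (v r)‖ ^ 2 :=
            mul_nonneg hm.le (Finset.sum_nonneg fun j _ => sq_nonneg _)
          have h6 : ‖p.sm.traj z0 f r‖ ^ (4 / 3 : ℝ) ≤ 1 :=
            Real.rpow_le_one (norm_nonneg _) h3 (by norm_num)
          have h7 : C * (‖p.sm.traj z0 f r‖ ^ 2 * (1 + ‖p.sm.traj z0 f r‖ ^ (4 / 3 : ℝ))) ≤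
              C * (‖p.sm.traj z0 f r‖ ^ 2 * 2) :=
            mul_le_mul_of_nonneg_left (mul_le_mul_of_nonneg_left (by linarith) (sq_nonneg _)) hC.le
          have h8 := (wn_bounds hL hc1 (p.sm.traj z0 f r)).1
          have h9 : C * (‖p.sm.traj z0 f r‖ ^ 2 * 2) ≤
              4 * C / c * wn p.L c (p.sm.traj z0 f r) := by
            calc C * (‖p.sm.traj z0 f r‖ ^ 2 * 2) =
                4 * C / c * (c / 2 * ‖p.sm.traj z0 f r‖ ^ 2) := by
                  field_simp
                  ring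
              _ ≤ _ := mul_le_mul_of_nonneg_left h8 (by positivity)
          linarith
  intro t ht
  have := main t ht
  rwa [hprE t ht] at this

end Pool.Agent.KG
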