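import Pool.Agent.Lib.KG.TL
import Pool.Agent.Lib.KG.TR5

/-!
# Row TR6: rarefaction
-/

set_option autoImplicit false

namespace Pool.Agent.KG.TR6

open MeasureTheory Filter Topology Set
open Pool.Agent.Kdv
open scoped ENNReal ContDiff InnerProductSpace

/-- The slope of the rarefaction. -/
private noncomputable def nu (α m t : ℝ) : ℝ := (1 / m + α * t)⁻¹

private theorem th_zero {L x : ℝ} (h : x ≤ -(3 / 4) ∨ L + 3 / 4 ≤ x) : th L x = 0 := by
  unfold th st
  rcases h with h | h
  · rw [Real.smoothTransition.zero_of_nonpos (by linarith), zero_mul]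
  · rw [Real.smoothTransition.zero_of_nonpos (x := 4 * (L - x) + 3) (by linarith), mul_zero]

private theorem bb_one {L x : ℝ} (h1 : -3 ≤ x) (h2 : x ≤ L + 3) : bb L x = 1 := by
  unfold bb st
  rw [Real.smoothTransition.one_of_one_le (by linarith),
    Real.smoothTransition.one_of_one_le (by linarith), mul_one]

private theorem wt_eq {L c x : ℝ} (hL : 0 < L) (h1 : -(3 / 4) ≤ x) (h2 : x ≤ L + 3 / 4) :
    wt L c x = c + x := by
  unfold wt
  have h : ∀ s ∈ uIcc 0 x, bb L s = 1 := by
    intro s hs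
    have h3 := hs.1
    have h4 := hs.2
    refine bb_one ?_ ?_
    · refine le_trans ?_ h3
      exact le_min (by norm_num) (by linarith)
    · refine h4.trans ?_
      exact max_le (by linarith) (by linarith)
  rw [intervalIntegral.integral_congr (g := fun _ => (1 : ℝ)) h]
  simp

private theorem toL2_zero {F : ℝ → ℝ} (h : ∀ x, F x = 0) : toL2 F = 0 := by
  refine toL2_eq ?_
  filter_upwards [Lp.coeFn_zero ℝ 2 (volume : Measure ℝ)] with x hx
  rw [hx, h x]
  rfl

/-- Row TR6. -/
theorem rarefaction (p : Pr 2) {e : Fin 2 → ℝ} {α : ℝ} (he : Dir p.g e α)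
    (hS : ∀ j, mv p.S e j = 0) : ∃ C : ℝ, 0 < C ∧ ∀ x0 : ℝ, C ≤ x0 → ∀ ν m : ℝ, 0 < ν → ν < m →
    ∀ z0 : HH 2, 2 * Real.exp (C / (x0 * ν)) * ‖z0‖ ≤ 1 / 2 → ∃ z1 : HH 2,
      ‖z1‖ ≤ 2 * Real.exp (C / (x0 * ν)) * ‖z0‖ ∧
      p.Adm (bg 2 p.L (fun x j => m * (x0 + x) * e j) + z0)
        (bg 2 p.L (fun x j => ν * (x0 + x) * e j) + z1) (1 / (α * ν) - 1 / (α * m)) := by
  obtain ⟨C0, hC0, hboot⟩ := boot p
  have hα := he.pos
  refine ⟨C0 + C0 / α, by positivity, fun x0 hx0 ν m hν hνm z0 hz0 => ?_⟩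
  have hC0x : C0 ≤ x0 := le_trans (by have : 0 < C0 / α := by positivity
                                      linarith) hx0
  have hx0p : 0 < x0 := lt_of_lt_of_le hC0 hC0x
  have hm : 0 < m := hν.trans hνm
  set τ : ℝ := 1 / (α * ν) - 1 / (α * m) with hτdef
  have hτ : 0 < τ := by
    rw [hτdef, sub_pos]
    exact one_div_lt_one_div_of_lt (by positivity) (mul_lt_mul_of_pos_left hνm hα)
  -- the slope
  have hpos : ∀ t ∈ Icc 0 τ, 0 < 1 / m + α * t := by
    intro t ht
    have h1 : 0 < 1 / m := by positivity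
    have h2 : 0 ≤ α * t := mul_nonneg hα.le ht.1
    linarith
  have hn0 : nu α m 0 = m := by
    unfold nu
    rw [mul_zero, add_zero, one_div, inv_inv]
  have hnτ : nu α m τ = ν := by
    unfold nu
    have h1 : 1 / m + α * τ = 1 / ν := by
      rw [hτdef]
      field_simp
      ring
    rw [h1, one_div, inv_inv]
  set h : ℝ → ℝ → ℝ := fun t x => nu α m t * (x0 + x) with hh
  set w : ℝ → ℝ → Fin 2 → ℝ := fun t x j => h t x * e j + (fun (_ : ℝ) (_ : Fin 2) => (0 : ℝ)) t j
    with hw
  have hwx : ∀ t x j, deriv (fun x => w t x j) x = nu α m t * e j := by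
    intro t x j
    have h1 : HasDerivAt (fun x => w t x j) (nu α m t * 1 * e j) x := by
      have h2 : HasDerivAt (fun x => x0 + x) 1 x := by
        simpa using (hasDerivAt_id x).const_add x0
      have h3 := ((h2.const_mul (nu α m t)).mul_const (e j)).add_const (0 : ℝ)
      exact h3
    rw [h1.deriv, mul_one]
  have hderx : ∀ t x, deriv (h t) x = nu α m t := by
    intro t x
    have h2 : HasDerivAt (fun x => x0 + x) 1 x := by
      simpa using (hasDerivAt_id x).const_add x0
    have h3 := h2.const_mul (nu α m t)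
    rw [mul_one] at h3
    exact h3.deriv
  have hdert : ∀ t ∈ Icc 0 τ, ∀ x, HasDerivAt (fun s => h s x)
      (-(α * nu α m t ^ 2) * (x0 + x)) t := by
    intro t ht x
    have h1 : HasDerivAt (fun s : ℝ => 1 / m + α * s) α t := by
      simpa using ((hasDerivAt_id t).const_mul α).const_add (1 / m)
    have h2 := (h1.inv (hpos t ht).ne').mul_const (x0 + x)
    refine h2.congr_deriv ?_
    unfold nu
    rw [inv_pow]
    ring
  have hd3 : ∀ t x, iteratedDeriv 3 (h t) x = 0 := by
    intro t x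
    have h1 : deriv (h t) = fun _ => nu α m t := funext fun x => hderx t x
    rw [iteratedDeriv_succ', h1, iteratedDeriv_const]
    simp
  have hsm : ∀ t, ContDiff ℝ ∞ (h t) := by
    intro t
    exact contDiff_const.mul (contDiff_const.add contDiff_id)
  have hres : ∀ t ∈ Icc 0 τ, ∀ x j, resid p w t x j = 0 := by
    intro t ht x j
    have h1 := resid_lin p he.eig (h := h) (Z := fun (_ : ℝ) (_ : Fin 2) => (0 : ℝ)) (t := t)
      (x := x) (hdert t ht x).differentiableAt (fun j => differentiableAt_const _) (hsm t) j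
    refine h1.trans ?_
    rw [(hdert t ht x).deriv, hderx, hd3, hS]
    have h2 : bil p.g (fun _ : Fin 2 => (0 : ℝ)) e j = 0 := by
      unfold bil
      simp
    have h3 : deriv (fun _ : ℝ => (0 : ℝ)) t = 0 := deriv_const t 0
    rw [h2, h3]
    simp only [hh]
    ring
  -- smoothness
  have hU : IsOpen (Ioi (-(1 / (α * m)))) := isOpen_Ioi
  have hUτ : Icc 0 τ ⊆ Ioi (-(1 / (α * m))) := by
    intro t ht
    have h1 : 0 < 1 / (α * m) := by positivity
    exact lt_of_lt_of_le (by linarith) ht.1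
  have hUpos : ∀ t ∈ Ioi (-(1 / (α * m))), 1 / m + α * t ≠ 0 := by
    intro t ht
    have h1 : -(1 / (α * m)) < t := ht
    have h2 : α * -(1 / (α * m)) < α * t := mul_lt_mul_of_pos_left h1 hα
    have h3 : α * -(1 / (α * m)) = -(1 / m) := by
      field_simp
    rw [h3] at h2
    linarith
  have hws : ∀ j, ContDiffOn ℝ ∞ (fun q : ℝ × ℝ => w q.1 q.2 j)
      (Ioi (-(1 / (α * m))) ×ˢ univ) := by
    intro j
    have h1 : ContDiffOn ℝ ∞ (fun q : ℝ × ℝ => nu α m q.1) (Ioi (-(1 / (α * m))) ×ˢ univ) := by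
      unfold nu
      refine ContDiffOn.inv ?_ fun q hq => hUpos q.1 hq.1
      exact (contDiff_const.add (contDiff_const.mul contDiff_fst)).contDiffOn
    have h2 : ContDiffOn ℝ ∞ (fun q : ℝ × ℝ => x0 + q.2) (Ioi (-(1 / (α * m))) ×ˢ univ) :=
      (contDiff_const.add contDiff_snd).contDiffOn
    exact ((h1.mul h2).mul contDiffOn_const).add contDiffOn_const
  obtain ⟨B, hB1, hB2, hB3, hB4, hB5⟩ := exists_bk p hτ hU hUτ hws
  obtain ⟨f, v, hrun⟩ := exists_run p hτ B (D := fun _ => 0) continuousOn_const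
    (fun _ _ => le_rfl) z0
  have hr0 : ∀ t ∈ Icc 0 τ, B.r t = 0 := by
    intro t ht
    rw [hB5 t ht]
    refine PiLp.ext fun j => ?_
    exact toL2_zero fun x => by rw [hres t ht x j, mul_zero]
  have htrt : ∀ t ∈ Icc 0 τ, ∀ z : HH 2, trt p x0 (B.w t) (B.wx t) z ≤ 0 := by
    intro t ht z
    have h1 : trt p x0 (B.w t) (B.wx t) z = 0 := by
      unfold trt
      have h2 : ∀ x, th p.L x * ∑ j, ∑ k, (Hm p.g (B.w t x) j k -
          wt p.L x0 x * Hm p.g (B.wx t x) j k) * z j x * z k x = 0 := by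
        intro x
        by_cases hx : x ≤ -(3 / 4) ∨ p.L + 3 / 4 ≤ x
        · rw [th_zero hx, zero_mul]
        · push Not at hx
          have h3 : ∀ j k, Hm p.g (B.w t x) j k - wt p.L x0 x * Hm p.g (B.wx t x) j k = 0 := by
            intro j k
            rw [wt_eq p.hL hx.1.le hx.2.le]
            unfold Hm
            rw [Finset.mul_sum, ← Finset.sum_sub_distrib]
            refine Finset.sum_eq_zero fun l _ => ?_
            rw [hB1 t ht x l, hB2 t ht x l, hwx]
            simp only [hw, hh]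
            ring
          rw [Finset.sum_eq_zero fun j _ => Finset.sum_eq_zero fun k _ => by
            rw [h3 j k, zero_mul, zero_mul], mul_zero]
      rw [integral_congr_ae (Eventually.of_forall h2), integral_zero]
    exact h1.le
  -- the bound
  have hexp : Real.exp (C0 / x0 * τ) ≤ Real.exp ((C0 + C0 / α) / (x0 * ν)) := by
    refine Real.exp_le_exp.2 ?_
    have h1 : τ ≤ 1 / (α * ν) := by
      have : 0 < 1 / (α * m) := by positivity
      rw [hτdef]
      linarith
    calc C0 / x0 * τ ≤ C0 / x0 * (1 / (α * ν)) :=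
          mul_le_mul_of_nonneg_left h1 (by positivity)
      _ = C0 / α / (x0 * ν) := by field_simp
      _ ≤ (C0 + C0 / α) / (x0 * ν) := by
          refine div_le_div_of_nonneg_right ?_ (by positivity)
          linarith
  have hbd : 2 * Real.exp (C0 / x0 * τ) * ‖z0‖ ≤
      2 * Real.exp ((C0 + C0 / α) / (x0 * ν)) * ‖z0‖ := by
    refine mul_le_mul_of_nonneg_right ?_ (norm_nonneg _)
    linarith
  have hb := hboot x0 hC0x τ hτ.le B htrt hr0 z0 f v hrun (hbd.trans hz0) τ ⟨hτ.le, le_rfl⟩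
  refine ⟨p.sm.traj z0 f τ, hb.trans hbd, ?_⟩
  have hadm := Run.adm hτ.le hrun (t := τ) ⟨hτ.le, le_rfl⟩
  rw [hB4, hB3] at hadm
  have hw0 : w 0 = fun x j => m * (x0 + x) * e j := by
    funext x j
    simp only [hw, hh, hn0, add_zero]
  have hwτ : w τ = fun x j => ν * (x0 + x) * e j := by
    funext x j
    simp only [hw, hh, hnτ, add_zero]
  rw [hw0, hwτ] at hadm
  exact hadm

end Pool.Agent.KG.TR6

namespace Pool.Agent.KG

alias rarefaction := TR6.rarefaction

end Pool.Agent.KG
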