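import Pool.Agent.Lib.KG.R_C1
import Pool.Agent.Lib.KG.TL
import Pool.Agent.Lib.KG.Trans

/-!
# Row C2: the negative slope
-/

set_option autoImplicit false

namespace Pool.Agent.KG

open MeasureTheory Filter Topology Set
open Pool.Agent.Kdv
open scoped ENNReal ContDiff InnerProductSpace

variable {p : Pr 2} {e e' : Fin 2 → ℝ} {α s : ℝ}

theorem C2_iter (f : ℝ → ℝ) (L x : ℝ) :
    iteratedDeriv 3 (fun x => f (L - x)) x = -iteratedDeriv 3 f (L - x) := by
  have h := congrFun (iteratedDeriv_comp_const_sub 3 f L) x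
  rw [h]
  norm_num

theorem resid_rev (p : Pr 2) (w : ℝ → ℝ → Fin 2 → ℝ) (T L t x : ℝ) (j : Fin 2) :
    resid p (fun t x => w (T - t) (L - x)) t x j = -resid p w (T - t) (L - x) j := by
  have h1 : ∀ k, deriv (fun x => w (T - t) (L - x) k) x =
      -deriv (fun x => w (T - t) x k) (L - x) := fun k =>
    deriv_comp_const_sub (f := fun x => w (T - t) x k) (a := L) (x := x)
  have h2 : deriv (fun s => w (T - s) (L - x) j) t =
      -deriv (fun s => w s (L - x) j) (T - t) :=
    deriv_comp_const_sub (f := fun s => w s (L - x) j) (a := T) (x := t)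
  unfold resid
  rw [h2, C2_iter (fun x => w (T - t) x j) L x]
  simp only [h1, mul_neg, Finset.sum_neg_distrib]
  ring

theorem cube_back (h : Cub p e e' α s) (b : Brg p.L) : ∃ C : ℝ, 0 < C ∧
    ∀ x0 : ℝ, b.xs ≤ x0 → ∀ m g1 : ℝ, 0 < m → ∀ z : HH 2, ∃ z1 : HH 2, ‖z1‖ ≤ ‖z‖ + C / x0 ∧
      p.Adm (bg 2 p.L (cst e e' (m * (x0 + b.G)) g1) + z)
        (bg 2 p.L (fun x j => -(m * (x0 + p.L - x)) * e j + g1 * e' j) + z1)
        ((p.L + 10) / (x0 * (α * m))) := by
  have hL := p.hL
  have hα : 0 < α := h.cube.pos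
  obtain ⟨de, de', dee'⟩ := h.dots
  have habs : ∀ a : Fin 2 → ℝ, dot a a = 1 → ∀ j, |a j| ≤ 1 := by
    intro a ha j
    have h1 : a 0 * a 0 + a 1 * a 1 = 1 := by
      have := ha
      unfold dot at this
      rwa [Fin.sum_univ_two] at this
    apply abs_le.2
    fin_cases j
    · constructor <;> simp only [Fin.zero_eta] <;> nlinarith [sq_nonneg (a 1)]
    · constructor <;> simp only [Fin.mk_one] <;> nlinarith [sq_nonneg (a 0)]
  set M : ℝ := p.mu 0 + p.mu 1 + |s| with hM
  have hM0 : 0 < M := by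
    have := p.hmu 0
    have := p.hmu 1
    have := abs_nonneg s
    linarith
  have hbC := b.hC
  refine ⟨2 * (p.L + 2) * (p.L + 10) * (b.C * M) / α, by positivity, ?_⟩
  intro x0 hx0 m g1 hm z
  have hx1 : 1 ≤ x0 := b.hxs.trans hx0
  have hx0' : 0 < x0 := by linarith
  set τ : ℝ := (p.L + 10) / (x0 * (α * m)) with hτ
  have hτ0 : 0 < τ := by positivity
  have hατ : α * m * τ = (p.L + 10) / x0 := by
    rw [hτ]
    field_simp
  set W : ℝ → ℝ → Fin 2 → ℝ := fun t x j => m * b.ff x0 (α * m * t) x * e j + g1 * e' j with hW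
  have hsm := b.smooth x0 hx0
  have hsm1 : ∀ t, ContDiff ℝ ∞ (b.ff x0 t) := by
    intro t
    have h1 : ContDiff ℝ ∞ fun x : ℝ => ((t, x) : ℝ × ℝ) := contDiff_const.prodMk contDiff_id
    exact hsm.comp h1
  have hsm2 : ∀ x, ContDiff ℝ ∞ (fun t => b.ff x0 t x) := by
    intro x
    have h1 : ContDiff ℝ ∞ fun t : ℝ => ((t, x) : ℝ × ℝ) := contDiff_id.prodMk contDiff_const
    exact hsm.comp h1
  have hwW : ∀ j, ContDiffOn ℝ ∞ (fun q : ℝ × ℝ => W (τ - q.1) (p.L - q.2) j)
      (univ ×ˢ univ) := by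
    intro j
    apply ContDiff.contDiffOn
    have h1 : ContDiff ℝ ∞ fun q : ℝ × ℝ => ((α * m * (τ - q.1), p.L - q.2) : ℝ × ℝ) := by
      fun_prop
    have h2 := hsm.comp h1
    exact ((contDiff_const.mul h2).mul contDiff_const).add contDiff_const
  have hrange : ∀ t ∈ Icc 0 τ, α * m * (τ - t) ∈ Icc 0 ((p.L + 10) / x0) := by
    intro t ht
    have h1 : 0 ≤ α * m := by positivity
    rw [← hατ]
    exact ⟨mul_nonneg h1 (by linarith [ht.2]), mul_le_mul_of_nonneg_left (by linarith [ht.1]) h1⟩
  have hderx : ∀ t x j, deriv (fun x => W t x j) x = m * deriv (b.ff x0 (α * m * t)) x * e j := by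
    intro t x j
    have hd : DifferentiableAt ℝ (b.ff x0 (α * m * t)) x :=
      ((hsm1 _).differentiable (by simp)) x
    simp only [hW]
    have := ((hd.hasDerivAt.const_mul m).mul_const (e j)).add_const (g1 * e' j)
    exact this.deriv
  have hSe : ∀ j, mv p.S e j + bil p.g (fun j => g1 * e' j) e j = s * e' j := by
    intro j
    rw [h.S, h.bil_eq]
    have : dot e (fun j => g1 * e' j) = 0 := by
      unfold dot at dee' ⊢
      rw [Fin.sum_univ_two] at dee' ⊢
      linear_combination g1 * dee'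
    rw [this]
    ring
  have hres : ∀ t ∈ Icc 0 τ, ∀ x ∈ Icc (-4) (p.L + 4), ∀ j, |resid p W t x j| ≤ m * (b.C * M) := by
    intro t ht x hx j
    have ht' : α * m * t ∈ Icc 0 ((p.L + 10) / x0) := by
      have := hrange (τ - t) ⟨by linarith [ht.2], by linarith [ht.1]⟩
      rwa [sub_sub_cancel] at this
    have hda : HasDerivAt (fun t : ℝ => α * m * t) (α * m) t := by
      simpa using (hasDerivAt_id t).const_mul (α * m)
    have hdt : HasDerivAt (fun t => b.ff x0 (α * m * t) x)
        (deriv (fun t => b.ff x0 t x) (α * m * t) * (α * m)) t :=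
      (((hsm2 x).differentiable (by simp)) (α * m * t)).hasDerivAt.comp t hda
    have hdx : deriv (fun x => m * b.ff x0 (α * m * t) x) x =
        m * deriv (b.ff x0 (α * m * t)) x := by
      rw [deriv_const_mul]
      exact ((hsm1 _).differentiable (by simp)) x
    have hd3 : iteratedDeriv 3 (fun x => m * b.ff x0 (α * m * t) x) x =
        m * iteratedDeriv 3 (b.ff x0 (α * m * t)) x := by
      have := iteratedDeriv_const_mul_field (n := 3) (x := x) m (b.ff x0 (α * m * t))
      exact this
    have key := resid_lin p h.cube.dir.eig (h := fun t x => m * b.ff x0 (α * m * t) x)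
      (Z := fun _ j => g1 * e' j) (t := t) (x := x) (hdt.const_mul m).differentiableAt
      (fun j => differentiableAt_const _) (contDiff_const.mul (hsm1 _)) j
    have hWe : resid p W t x j = resid p (fun t x j => m * b.ff x0 (α * m * t) x * e j +
      (fun (_ : ℝ) (j : Fin 2) => g1 * e' j) t j) t x j := rfl
    rw [hWe, key, hdx, hd3, hSe, (hdt.const_mul m).deriv, deriv_const]
    have hb := b.eq x0 hx0 _ ht' x
    obtain ⟨b1, b2, b3⟩ := b.bound x0 hx0 _ ht' x hx
    have e0 : (m * (deriv (fun t => b.ff x0 t x) (α * m * t) * (α * m)) +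
        α * (m * b.ff x0 (α * m * t) x) * (m * deriv (b.ff x0 (α * m * t)) x)) * e j +
        p.mu j * (m * iteratedDeriv 3 (b.ff x0 (α * m * t)) x) * e j +
        m * deriv (b.ff x0 (α * m * t)) x * (s * e' j) + 0 =
        m * (p.mu j * iteratedDeriv 3 (b.ff x0 (α * m * t)) x * e j +
          deriv (b.ff x0 (α * m * t)) x * (s * e' j)) := by
      linear_combination (α * m ^ 2 * e j) * hb
    rw [e0, abs_mul, abs_of_pos hm]
    refine mul_le_mul_of_nonneg_left ?_ hm.le
    have hmuj : 0 < p.mu j := p.hmu j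
    have hmj : p.mu j ≤ p.mu 0 + p.mu 1 := by
      have := p.hmu 0
      have := p.hmu 1
      fin_cases j
      · simp only [Fin.zero_eta]; linarith
      · simp only [Fin.mk_one]; linarith
    have i1 : |p.mu j * iteratedDeriv 3 (b.ff x0 (α * m * t)) x * e j| ≤ p.mu j * b.C := by
      rw [abs_mul, abs_mul, abs_of_pos hmuj]
      calc p.mu j * |iteratedDeriv 3 (b.ff x0 (α * m * t)) x| * |e j| ≤
          p.mu j * b.C * 1 := by
            gcongr
            exact habs e de j
        _ = p.mu j * b.C := mul_one _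
    have i2 : |deriv (b.ff x0 (α * m * t)) x * (s * e' j)| ≤ b.C * |s| := by
      rw [abs_mul, abs_mul]
      calc |deriv (b.ff x0 (α * m * t)) x| * (|s| * |e' j|) ≤ b.C * (|s| * 1) := by
            gcongr
            · exact abs_le.2 ⟨b1, b2.trans hbC.le⟩
            · exact habs e' de' j
        _ = b.C * |s| := by ring
    calc |p.mu j * iteratedDeriv 3 (b.ff x0 (α * m * t)) x * e j +
          deriv (b.ff x0 (α * m * t)) x * (s * e' j)| ≤ p.mu j * b.C + b.C * |s| :=
        (abs_add_le _ _).trans (add_le_add i1 i2)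
      _ ≤ (p.mu 0 + p.mu 1) * b.C + b.C * |s| := by gcongr
      _ = b.C * M := by rw [hM]; ring
  have hmC : 0 ≤ m * (b.C * M) := by positivity
  obtain ⟨z1, hz1, hadm⟩ := phase p hτ0 (w := fun t x => W (τ - t) (p.L - x)) isOpen_univ
    (subset_univ _) hwW (κ := 0) (r := m * (b.C * M)) le_rfl hmC (by
      intro t ht x hx ξ
      have hy : p.L - x ∈ Icc (-4) (p.L + 4) := ⟨by linarith [hx.2], by linarith [hx.1]⟩
      obtain ⟨b1, b2, b3⟩ := b.bound x0 hx0 _ (hrange t ht) _ hy
      rw [h.qd_eq]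
      have hdd : ∀ j, deriv (fun x => W (τ - t) (p.L - x) j) x =
          -(m * deriv (b.ff x0 (α * m * (τ - t))) (p.L - x)) * e j := by
        intro j
        have h1 : deriv (fun x => W (τ - t) (p.L - x) j) x =
            -deriv (fun x => W (τ - t) x j) (p.L - x) :=
          deriv_comp_const_sub (f := fun x => W (τ - t) x j) (a := p.L) (x := x)
        rw [h1, hderx]
        ring
      have hdot : dot e (fun j => deriv (fun x => W (τ - t) (p.L - x) j) x) =
          -(m * deriv (b.ff x0 (α * m * (τ - t))) (p.L - x)) := by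
        simp only [hdd]
        unfold dot at de ⊢
        rw [Fin.sum_univ_two] at de ⊢
        linear_combination (-(m * deriv (b.ff x0 (α * m * (τ - t))) (p.L - x))) * de
      rw [hdot, zero_mul]
      have h3 : 0 ≤ α * -(m * deriv (b.ff x0 (α * m * (τ - t))) (p.L - x)) * dot e ξ ^ 2 := by
        have : 0 ≤ -(m * deriv (b.ff x0 (α * m * (τ - t))) (p.L - x)) := by
          have := mul_nonpos_of_nonneg_of_nonpos hm.le b2
          linarith
        positivity
      linarith) (by
      intro t ht x hx j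
      have hy : p.L - x ∈ Icc (-4) (p.L + 4) := ⟨by linarith [hx.2], by linarith [hx.1]⟩
      rw [resid_rev, abs_neg]
      exact hres _ ⟨by linarith [ht.2], by linarith [ht.1]⟩ _ hy j) z
  refine ⟨z1, ?_, ?_⟩
  · have e1 : Real.exp (0 * τ / 2) = 1 := by simp
    rw [e1, one_mul] at hz1
    refine hz1.trans (le_of_eq ?_)
    have e2 : m * τ = (p.L + 10) / (x0 * α) := by
      rw [hτ]
      field_simp
    have e3 : ((2 : ℕ) : ℝ) * (p.L + 2) * (m * (b.C * M)) * τ =
        2 * (p.L + 2) * (b.C * M) * (m * τ) := by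
      push_cast
      ring
    rw [e3, e2]
    congr 1
    field_simp
  · have h0 : bg 2 p.L ((fun t x => W (τ - t) (p.L - x)) 0) =
        bg 2 p.L (cst e e' (m * (x0 + b.G)) g1) := by
      refine bg_congr fun x hx j => ?_
      have hy : p.L - x ∈ Icc (-4) (p.L + 4) := ⟨by linarith [hx.2], by linarith [hx.1]⟩
      simp only [hW, cst, sub_zero]
      rw [hατ, b.fin x0 hx0 _ hy]
      ring
    have h1 : bg 2 p.L ((fun t x => W (τ - t) (p.L - x)) τ) =
        bg 2 p.L (fun x j => -(m * (x0 + p.L - x)) * e j + g1 * e' j) := by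
      refine bg_congr fun x hx j => ?_
      have hy : p.L - x ∈ Icc (-4) (p.L + 4) := ⟨by linarith [hx.2], by linarith [hx.1]⟩
      simp only [hW, sub_self, mul_zero]
      rw [b.start x0 hx0 _ hy]
      ring
    rw [h0, h1] at hadm
    exact hadm

end Pool.Agent.KG
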