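import Pool.Agent.Lib.KG.R_D1
import Pool.Agent.Lib.KG.R_D2
import Pool.Agent.Lib.KG.R_D3

/-!
# Row F1: the derivative of the flush functional
-/

set_option autoImplicit false

namespace Pool.Agent.KG

open MeasureTheory Filter Topology Set
open Pool.Agent.Kdv
open scoped ENNReal ContDiff InnerProductSpace

variable {n : ℕ}

/-! ### Absolutely continuous curves -/

/-- `u` is absolutely continuous on `[0, T]` with the derivative `u'`. -/
def F1AC {H : Type} [NormedAddCommGroup H] [NormedSpace ℝ H] (T : ℝ) (u u' : ℝ → H) : Prop :=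
  IntegrableOn u' (Ioc 0 T) ∧ ∀ t ∈ Icc 0 T, u t = u 0 + ∫ r in (0 : ℝ)..t, u' r

section

variable {H : Type} [NormedAddCommGroup H] [NormedSpace ℝ H] {T : ℝ}

theorem F1AC.add {u u' v v' : ℝ → H} (h : F1AC T u u') (h' : F1AC T v v') :
    F1AC T (fun r => u r + v r) (fun r => u' r + v' r) := by
  refine ⟨h.1.add h'.1, fun t ht => ?_⟩
  change u t + v t = u 0 + v 0 + _
  rw [h.2 t ht, h'.2 t ht, intervalIntegral.integral_add (ii_of h.1 le_rfl ht.1 ht.2)
    (ii_of h'.1 le_rfl ht.1 ht.2)]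
  abel

theorem F1AC.smul {u u' : ℝ → H} (c : ℝ) (h : F1AC T u u') :
    F1AC T (fun r => c • u r) (fun r => c • u' r) := by
  refine ⟨Integrable.smul c h.1, fun t ht => ?_⟩
  change c • u t = c • u 0 + _
  rw [h.2 t ht, intervalIntegral.integral_smul, smul_add]

theorem F1AC.zero : F1AC T (fun _ => (0 : H)) (fun _ => 0) := by
  refine ⟨integrableOn_zero, fun t ht => ?_⟩
  simp

theorem F1AC.sum {ι : Type} (s : Finset ι) {u u' : ι → ℝ → H} (h : ∀ i ∈ s, F1AC T (u i) (u' i)) :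
    F1AC T (fun r => ∑ i ∈ s, u i r) (fun r => ∑ i ∈ s, u' i r) := by
  classical
  induction s using Finset.induction_on with
  | empty => simpa using F1AC.zero
  | insert i s hi ih =>
    simp only [Finset.sum_insert hi]
    exact (h i (Finset.mem_insert_self i s)).add
      (ih fun k hk => h k (Finset.mem_insert_of_mem hk))

theorem F1AC.clm [CompleteSpace H] {E : Type} [NormedAddCommGroup E] [NormedSpace ℝ E]
    [CompleteSpace E] (B : H →L[ℝ] E) {u u' : ℝ → H}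
    (h : F1AC T u u') : F1AC T (fun r => B (u r)) (fun r => B (u' r)) := by
  refine ⟨B.integrable_comp h.1, fun t ht => ?_⟩
  change B (u t) = B (u 0) + _
  rw [h.2 t ht, map_add, ContinuousLinearMap.intervalIntegral_comp_comm _
    (ii_of h.1 le_rfl ht.1 ht.2)]

theorem F1AC.sub_eq {u u' : ℝ → H} (h : F1AC T u u') {s t : ℝ} (hs : 0 ≤ s) (hst : s ≤ t)
    (ht : t ≤ T) : u t - u s = ∫ r in s..t, u' r := by
  rw [h.2 t ⟨hs.trans hst, ht⟩, h.2 s ⟨hs, hst.trans ht⟩, add_sub_add_left_eq_sub,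
    intervalIntegral.integral_interval_sub_left (ii_of h.1 le_rfl (hs.trans hst) ht)
      (ii_of h.1 le_rfl hs (hst.trans ht))]

end

theorem F1AC.cont {H : Type} [NormedAddCommGroup H] [InnerProductSpace ℝ H] [CompleteSpace H]
    {T : ℝ} (hT : 0 ≤ T) {u u' : ℝ → H} (h : F1AC T u u') : ContinuousOn u (Icc 0 T) :=
  (continuousOn_const.add (prim_cont hT h.1)).congr fun t ht => h.2 t ht

theorem F1AC.inn {H : Type} [NormedAddCommGroup H] [InnerProductSpace ℝ H] [CompleteSpace H]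
    {T : ℝ} (hT : 0 ≤ T) {u u' v v' : ℝ → H} (h : F1AC T u u') (h' : F1AC T v v') :
    F1AC T (fun r => inner ℝ (u r) (v r)) (fun r => inner ℝ (u' r) (v r) + inner ℝ (u r) (v' r)) := by
  refine ⟨?_, fun t ht => ?_⟩
  · refine (inner_int hT h.1 (h'.cont hT)).add ?_
    exact (inner_int hT h'.1 (h.cont hT)).congr
      (Eventually.of_forall fun r => real_inner_comm _ _)
  · have h1 := prod_rule (u 0) (v 0) ht.1 (h.1.mono_set (Ioc_subset_Ioc_right ht.2))
      (h'.1.mono_set (Ioc_subset_Ioc_right ht.2))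
    change inner ℝ (u t) (v t) = inner ℝ (u 0) (v 0) + _
    rw [h.2 t ht, h'.2 t ht, h1]
    congr 1
    refine intervalIntegral.integral_congr fun r hr => ?_
    rw [uIcc_of_le ht.1] at hr
    have hr' : r ∈ Icc 0 T := ⟨hr.1, hr.2.trans ht.2⟩
    change inner ℝ (u' r) (v 0 + ∫ q in (0 : ℝ)..r, v' q) +
      inner ℝ (u 0 + ∫ q in (0 : ℝ)..r, u' q) (v' r) = _
    rw [← h.2 r hr', ← h'.2 r hr']

theorem F1AC.mul {T : ℝ} (hT : 0 ≤ T) {u u' v v' : ℝ → ℝ} (h : F1AC T u u') (h' : F1AC T v v') :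
    F1AC T (fun r => u r * v r) (fun r => u' r * v r + u r * v' r) := by
  have h1 := h.inn hT h'
  have e1 : (fun r => inner ℝ (u r) (v r)) = fun r => u r * v r := by
    funext r
    simp [mul_comm]
  have e2 : (fun r => inner ℝ (u' r) (v r) + inner ℝ (u r) (v' r)) =
      fun r => u' r * v r + u r * v' r := by
    funext r
    simp [mul_comm]
  rwa [e1, e2] at h1

/-! ### Multiplication operators -/

theorem F1inner_eq (f g : L2) : inner ℝ f g = ∫ x, f x * g x := by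
  rw [L2.inner_def]
  refine integral_congr_ae (Eventually.of_forall fun x => ?_)
  change inner ℝ (f x) (g x) = f x * g x
  simp [mul_comm]

theorem F1bdd {m : ℝ → ℝ} (hm : Mlt m) : ∃ C, ∀ x, |m x| ≤ C := by
  obtain ⟨C, hC⟩ := hm.2 0
  exact ⟨C, fun x => by simpa using hC x⟩

theorem F1inner_mul {m : ℝ → ℝ} (hm : Mlt m) (f g : L2) :
    inner ℝ (mulOp m f) g = ∫ x, m x * (f x * g x) := by
  rw [F1inner_eq]
  refine integral_congr_ae ?_
  filter_upwards [mulOp_ae hm.1.continuous.measurable (F1bdd hm) f] with x hx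
  rw [hx]
  ring

theorem F1sym {m : ℝ → ℝ} (hm : Mlt m) (f g : L2) :
    inner ℝ (mulOp m f) g = inner ℝ (mulOp m g) f := by
  rw [F1inner_mul hm, F1inner_mul hm]
  refine integral_congr_ae (Eventually.of_forall fun x => ?_)
  ring

theorem F1sym2 {m a : ℝ → ℝ} (hm : Mlt m) (ha : Mlt a) (f g : L2) :
    inner ℝ (mulOp m (mulOp a f)) g = inner ℝ (mulOp m (mulOp a g)) f := by
  rw [F1inner_mul hm, F1inner_mul hm]
  refine integral_congr_ae ?_
  filter_upwards [mulOp_ae ha.1.continuous.measurable (F1bdd ha) f,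
    mulOp_ae ha.1.continuous.measurable (F1bdd ha) g] with x h1 h2
  rw [h1, h2]
  ring

theorem F1aM_sym {M : Fin n → Fin n → ℝ} (hM : ∀ j k, M j k = M k j) {m a : ℝ → ℝ} (hm : Mlt m)
    (ha : Mlt a) (X Y : Fin n → L2) :
    ∑ j, inner ℝ (mulOp m (aM M a X j)) (Y j) = ∑ j, inner ℝ (mulOp m (aM M a Y j)) (X j) := by
  have e : ∀ (X Y : Fin n → L2), ∑ j, inner ℝ (mulOp m (aM M a X j)) (Y j) =
      ∑ j, ∑ k, M j k * inner ℝ (mulOp m (mulOp a (X k))) (Y j) := by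
    intro X Y
    refine Finset.sum_congr rfl fun j _ => ?_
    unfold aM
    rw [map_sum, sum_inner]
    refine Finset.sum_congr rfl fun k _ => ?_
    rw [map_smul, real_inner_smul_left]
  rw [e, e, Finset.sum_comm]
  refine Finset.sum_congr rfl fun j _ => Finset.sum_congr rfl fun k _ => ?_
  rw [hM k j, F1sym2 hm ha]

/-! ### The derivative -/

theorem F1iter (i : ℕ) (k : ℝ → ℝ) : iteratedDeriv 3 (iteratedDeriv i k) = iteratedDeriv (i + 3) k := by
  simp only [iteratedDeriv_eq_iterate]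
  rw [← Function.iterate_add_apply, add_comm]

/-- The time derivative of the mollified state. -/
noncomputable def F1g (p : Pr n) (ε : ℝ) (i : ℕ) (z fz : HH n) (j : Fin n) : L2 :=
  -p.mu j • Mo (i + 3) ε (z j) + Mo i ε (fz j)

theorem F1lin (p : Pr n) {ε T : ℝ} (hε : 0 < ε) (hT : 0 ≤ T) {y : HH n} {f : ℝ → HH n}
    (hf : IntegrableOn f (Ioc 0 T)) (i : ℕ) (j : Fin n) :
    F1AC T (fun r => Zi i ε (p.sm.traj y f r) j)
      (fun r => F1g p ε i (p.sm.traj y f r) (f r) j) := by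
  obtain ⟨k1, k2, -, -, -, -⟩ := ker_smooth hε
  have hk := contDiff_iter k1 i
  have hc := hasCompactSupport_iter k2 i
  have hcont : ContinuousOn (p.sm.traj y f) (Icc 0 T) := p.sm.traj_cont y hT hf
  have hcj : ContinuousOn (fun r => p.sm.traj y f r j) (Icc 0 T) :=
    (prH (n := n) j).continuous.comp_continuousOn hcont
  have hfj : IntegrableOn (fun r => f r j) (Ioc 0 T) := (prH (n := n) j).integrable_comp hf
  have hhi : IntegrableOn (fun r => F1g p ε i (p.sm.traj y f r) (f r) j) (Ioc 0 T) := by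
    refine Integrable.add ?_ ((Mo i ε).integrable_comp hfj)
    have h0 : ContinuousOn (fun r => Mo (i + 3) ε (p.sm.traj y f r j)) (Icc 0 T) :=
      (Mo (i + 3) ε).continuous.comp_continuousOn hcj
    have h1 : ContinuousOn (fun r => -p.mu j • Mo (i + 3) ε (p.sm.traj y f r j)) (Icc 0 T) :=
      h0.const_smul (-p.mu j)
    exact (h1.integrableOn_compact isCompact_Icc).mono_set Ioc_subset_Icc_self
  refine ⟨hhi, fun t ht => ?_⟩
  have h := lin p hf (y := y) hk hc j ht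
  change cv (iteratedDeriv i (ker ε)) (p.sm.traj y f t j) =
    cv (iteratedDeriv i (ker ε)) (p.sm.traj y f 0 j) + _
  rw [h, Sm.traj_zero]
  congr 1
  refine intervalIntegral.integral_congr fun r _ => ?_
  change -p.mu j • cv (iteratedDeriv 3 (iteratedDeriv i (ker ε))) (p.sm.traj y f r j) +
    cv (iteratedDeriv i (ker ε)) (f r j) = _
  rw [F1iter]
  rfl

theorem F1der (p : Pr n) {ε : ℝ} (hε : 0 < ε) (z fz : HH n) (j : Fin n) :
    Der (F1g p ε 0 z fz j) (F1g p ε 1 z fz j) :=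
  ((Mo_der hε 3 (z j)).smul (-p.mu j)).add (Mo_der hε 0 (fz j))

/-- The derivative of the functional, before the integration by parts. -/
noncomputable def F1E (p : Pr n) (M : Fin n → Fin n → ℝ) (x0 ε h : ℝ) (z fz : HH n) : ℝ :=
  1 / 2 * ((-1 * (∑ j, p.mu j * inner ℝ (mulOp (ph p.L) (Zi 1 ε z j)) (Zi 1 ε z j)) +
    h * ∑ j, p.mu j * (inner ℝ (mulOp (ph p.L) (F1g p ε 1 z fz j)) (Zi 1 ε z j) +
      inner ℝ (mulOp (ph p.L) (Zi 1 ε z j)) (F1g p ε 1 z fz j))) +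
    ∑ j, (inner ℝ (mulOp (ph p.L) (aM M (aw p.L x0) (F1g p ε 0 z fz) j)) (Zi 0 ε z j) +
      inner ℝ (mulOp (ph p.L) (aM M (aw p.L x0) (Zi 0 ε z) j)) (F1g p ε 0 z fz j)))

theorem F1key (p : Pr n) {M : Fin n → Fin n → ℝ} (hM : ∀ j k, M j k = M k j) {x0 ε h : ℝ}
    (hε : 0 < ε) (hh : 0 < h) (z fz : HH n) :
    F1E p M x0 ε h z fz = h⁻¹ * Rf p M x0 ε h z (om p M x0 ε h z fz) := by
  obtain ⟨hφ, hφ', -, -⟩ := Mlt_ph p.hL
  have ha := Mlt_aw p.hL x0
  have hb := Mlt_bb p.hL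
  have eo : ∀ j, G1f p M x0 ε h z j + om p M x0 ε h z fz j = h • F1g p ε 0 z fz j := by
    intro j
    unfold G1f om F1g
    rw [smul_add, smul_smul, mul_neg, neg_smul]
    change _ - (h * p.mu j) • Zi 3 ε z j + _ = -((h * p.mu j) • Zi 3 ε z j) + h • Mo 0 ε (fz j)
    abel
  have e1 : ∀ j, inner ℝ (mulOp (ph p.L) (F1g p ε 1 z fz j)) (Zi 1 ε z j) =
      -inner ℝ (mulOp (ph p.L) (Zi 2 ε z j)) (F1g p ε 0 z fz j) -
        inner ℝ (mulOp (bb p.L) (Zi 1 ε z j)) (F1g p ε 0 z fz j) := by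
    intro j
    have h1 := (F1der p hε z fz j).parts (Mo_der hε 1 (z j)) hφ
    rw [hφ'] at h1
    change inner ℝ (mulOp (ph p.L) (F1g p ε 1 z fz j)) (Mo 1 ε (z j)) = _
    rw [h1, F1sym hφ, F1sym hb]
    rfl
  have e2 : ∀ j, inner ℝ (mulOp (ph p.L) (Gf p M x0 ε h z j)) (F1g p ε 0 z fz j) =
      inner ℝ (mulOp (ph p.L) (aM M (aw p.L x0) (Zi 0 ε z) j)) (F1g p ε 0 z fz j) -
        h * p.mu j * inner ℝ (mulOp (ph p.L) (Zi 2 ε z j)) (F1g p ε 0 z fz j) := by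
    intro j
    unfold Gf
    rw [map_sub, inner_sub_left, map_smul, real_inner_smul_left]
  have e3 : ∑ j, inner ℝ (mulOp (ph p.L) (aM M (aw p.L x0) (F1g p ε 0 z fz) j)) (Zi 0 ε z j) =
      ∑ j, inner ℝ (mulOp (ph p.L) (aM M (aw p.L x0) (Zi 0 ε z) j)) (F1g p ε 0 z fz j) :=
    F1aM_sym hM hφ ha _ _
  unfold F1E Rf
  simp only [eo, real_inner_smul_right, F1sym hφ (Zi 1 ε z _) (F1g p ε 1 z fz _), e2, e1]
  rw [Finset.sum_add_distrib, e3]
  have s1 : ∑ j, p.mu j * ((-inner ℝ (mulOp (ph p.L) (Zi 2 ε z j)) (F1g p ε 0 z fz j) -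
        inner ℝ (mulOp (bb p.L) (Zi 1 ε z j)) (F1g p ε 0 z fz j)) +
        (-inner ℝ (mulOp (ph p.L) (Zi 2 ε z j)) (F1g p ε 0 z fz j) -
        inner ℝ (mulOp (bb p.L) (Zi 1 ε z j)) (F1g p ε 0 z fz j))) =
      -2 * (∑ j, p.mu j * inner ℝ (mulOp (ph p.L) (Zi 2 ε z j)) (F1g p ε 0 z fz j)) -
        2 * ∑ j, p.mu j * inner ℝ (mulOp (bb p.L) (Zi 1 ε z j)) (F1g p ε 0 z fz j) := by
    rw [Finset.mul_sum, Finset.mul_sum, ← Finset.sum_sub_distrib]
    exact Finset.sum_congr rfl fun j _ => by ring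
  have s2 : ∑ j, h * (inner ℝ (mulOp (ph p.L) (aM M (aw p.L x0) (Zi 0 ε z) j)) (F1g p ε 0 z fz j) -
        h * p.mu j * inner ℝ (mulOp (ph p.L) (Zi 2 ε z j)) (F1g p ε 0 z fz j)) =
      h * (∑ j, inner ℝ (mulOp (ph p.L) (aM M (aw p.L x0) (Zi 0 ε z) j)) (F1g p ε 0 z fz j)) -
        h ^ 2 * ∑ j, p.mu j * inner ℝ (mulOp (ph p.L) (Zi 2 ε z j)) (F1g p ε 0 z fz j) := by
    rw [Finset.mul_sum, Finset.mul_sum, ← Finset.sum_sub_distrib]
    exact Finset.sum_congr rfl fun j _ => by ring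
  have s3 : ∑ j, p.mu j * (h * inner ℝ (mulOp (bb p.L) (Zi 1 ε z j)) (F1g p ε 0 z fz j)) =
      h * ∑ j, p.mu j * inner ℝ (mulOp (bb p.L) (Zi 1 ε z j)) (F1g p ε 0 z fz j) := by
    rw [Finset.mul_sum]
    exact Finset.sum_congr rfl fun j _ => by ring
  rw [s1, s2, s3]
  field_simp
  ring

theorem flush_deriv (p : Pr n) {M : Fin n → Fin n → ℝ} (hM : ∀ j k, M j k = M k j)
    {x0 ε ts T : ℝ} (hε : 0 < ε) (hT : T < ts) {y : HH n} {f : ℝ → HH n}
    (hf : IntegrableOn f (Ioc 0 T)) {s t : ℝ} (hs : 0 ≤ s) (hst : s ≤ t) (ht : t ≤ T) :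
    IntegrableOn (fun r => (ts - r)⁻¹ * Rf p M x0 ε (ts - r) (p.sm.traj y f r)
        (om p M x0 ε (ts - r) (p.sm.traj y f r) (f r))) (Ioc 0 T) ∧
    Ef p M x0 ε (ts - t) (p.sm.traj y f t) - Ef p M x0 ε (ts - s) (p.sm.traj y f s) =
      ∫ r in s..t, (ts - r)⁻¹ * Rf p M x0 ε (ts - r) (p.sm.traj y f r)
        (om p M x0 ε (ts - r) (p.sm.traj y f r) (f r)) := by
  have hT0 : 0 ≤ T := hs.trans (hst.trans ht)
  set z : ℝ → HH n := fun r => p.sm.traj y f r with hz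
  have a0 : ∀ j, F1AC T (fun r => Zi 0 ε (z r) j) (fun r => F1g p ε 0 (z r) (f r) j) :=
    fun j => F1lin p hε hT0 hf 0 j
  have a1 : ∀ j, F1AC T (fun r => Zi 1 ε (z r) j) (fun r => F1g p ε 1 (z r) (f r) j) :=
    fun j => F1lin p hε hT0 hf 1 j
  have ah : F1AC T (fun r => ts - r) (fun _ => (-1 : ℝ)) := by
    refine ⟨integrableOn_const (by simp), fun t _ => ?_⟩
    simp
    ring
  have b1 : F1AC T (fun r => ∑ j, p.mu j * inner ℝ (mulOp (ph p.L) (Zi 1 ε (z r) j))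
      (Zi 1 ε (z r) j)) (fun r => ∑ j, p.mu j *
        (inner ℝ (mulOp (ph p.L) (F1g p ε 1 (z r) (f r) j)) (Zi 1 ε (z r) j) +
          inner ℝ (mulOp (ph p.L) (Zi 1 ε (z r) j)) (F1g p ε 1 (z r) (f r) j))) :=
    F1AC.sum _ fun j _ => F1AC.smul (p.mu j) (((a1 j).clm (mulOp (ph p.L))).inn hT0 (a1 j))
  have b0 : F1AC T (fun r => ∑ j, inner ℝ (mulOp (ph p.L) (aM M (aw p.L x0) (Zi 0 ε (z r)) j))
      (Zi 0 ε (z r) j)) (fun r => ∑ j,
        (inner ℝ (mulOp (ph p.L) (aM M (aw p.L x0) (F1g p ε 0 (z r) (f r)) j)) (Zi 0 ε (z r) j) +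
          inner ℝ (mulOp (ph p.L) (aM M (aw p.L x0) (Zi 0 ε (z r)) j))
            (F1g p ε 0 (z r) (f r) j))) := by
    refine F1AC.sum _ fun j _ => ?_
    have h1 : F1AC T (fun r => aM M (aw p.L x0) (Zi 0 ε (z r)) j)
        (fun r => aM M (aw p.L x0) (F1g p ε 0 (z r) (f r)) j) :=
      F1AC.sum _ fun k _ => F1AC.smul (M j k) ((a0 k).clm (mulOp (aw p.L x0)))
    exact (h1.clm (mulOp (ph p.L))).inn hT0 (a0 j)
  have b2 := ((ah.mul hT0 b1).add b0).smul (1 / 2 : ℝ)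
  have b3 : F1AC T (fun r => Ef p M x0 ε (ts - r) (z r))
      (fun r => F1E p M x0 ε (ts - r) (z r) (f r)) := b2
  have hpos : ∀ r ∈ Icc 0 T, 0 < ts - r := fun r hr => by linarith [hr.2]
  refine ⟨?_, ?_⟩
  · refine (integrableOn_congr_fun (fun r hr => ?_) measurableSet_Ioc).1 b3.1
    exact F1key p hM hε (hpos r (Ioc_subset_Icc_self hr)) (z r) (f r)
  · have h1 := b3.sub_eq hs hst ht
    change Ef p M x0 ε (ts - t) (z t) - Ef p M x0 ε (ts - s) (z s) = _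
    refine h1.trans (intervalIntegral.integral_congr fun r hr => ?_)
    rw [uIcc_of_le hst] at hr
    exact F1key p hM hε (hpos r ⟨hs.trans hr.1, hr.2.trans ht⟩) (z r) (f r)

end Pool.Agent.KG
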