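import Pool.Agent.Lib.KG.R_D1
import Pool.Agent.Lib.KG.R_D2
import Pool.Agent.Lib.KG.R_D3
import Pool.Agent.Lib.KG.R_D4

/-!
# Row F2: the algebraic inequality for the rate of change of the flush functional
-/

set_option autoImplicit false

namespace Pool.Agent.KG.F2

open MeasureTheory Filter Topology Set
open Pool.Agent.Kdv
open scoped ENNReal ContDiff InnerProductSpace

variable {n : ℕ}

/-- Bounded measurable functions. -/
def Bm (m : ℝ → ℝ) : Prop := Measurable m ∧ ∃ C, ∀ x, |m x| ≤ C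

theorem Bm_of {m : ℝ → ℝ} (h : Mlt m) : Bm m := by
  obtain ⟨C, hC⟩ := h.2 0
  exact ⟨h.1.continuous.measurable, C, fun x => by simpa using hC x⟩

theorem Bm_mul {m m' : ℝ → ℝ} (h : Bm m) (h' : Bm m') : Bm (fun x => m x * m' x) := by
  obtain ⟨h1, C, hC⟩ := h
  obtain ⟨h1', C', hC'⟩ := h'
  refine ⟨h1.mul h1', C * C', fun x => ?_⟩
  rw [abs_mul]
  exact mul_le_mul (hC x) (hC' x) (abs_nonneg _) ((abs_nonneg _).trans (hC x))

/-- The weighted inner product. -/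
noncomputable def ip (m : ℝ → ℝ) (u v : L2) : ℝ := inner ℝ (mulOp m u) v

theorem mul_int {m : ℝ → ℝ} (h : Bm m) (u v : L2) :
    Integrable (fun x => m x * (u x * v x)) := by
  have h1 : Integrable (fun x => u x * v x) := MemLp.integrable_mul (Lp.memLp u) (Lp.memLp v)
  obtain ⟨h2, C, hC⟩ := h
  exact h1.bdd_mul (c := C) h2.aestronglyMeasurable (Eventually.of_forall fun x => hC x)

theorem ip_eq {m : ℝ → ℝ} (h : Bm m) (u v : L2) : ip m u v = ∫ x, m x * (u x * v x) := by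
  unfold ip
  rw [Skw.inner_eq]
  refine integral_congr_ae ?_
  filter_upwards [mulOp_ae h.1 h.2 u] with x hx
  rw [hx]
  ring

theorem ip_symm {m : ℝ → ℝ} (h : Bm m) (u v : L2) : ip m u v = ip m v u := by
  rw [ip_eq h, ip_eq h]
  exact integral_congr_ae (Eventually.of_forall fun x => by ring)

theorem ip_mul {m m' : ℝ → ℝ} (h : Bm m) (h' : Bm m') (u v : L2) :
    ip m u (mulOp m' v) = ip (fun x => m x * m' x) u v := by
  rw [ip_eq h, ip_eq (Bm_mul h h')]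
  refine integral_congr_ae ?_
  filter_upwards [mulOp_ae h'.1 h'.2 v] with x hx
  rw [hx]
  ring

theorem ip_add (m : ℝ → ℝ) (u v w : L2) : ip m u (v + w) = ip m u v + ip m u w := by
  unfold ip
  rw [inner_add_right]

theorem ip_sub (m : ℝ → ℝ) (u v w : L2) : ip m u (v - w) = ip m u v - ip m u w := by
  unfold ip
  rw [inner_sub_right]

theorem ip_smul (m : ℝ → ℝ) (u v : L2) (c : ℝ) : ip m u (c • v) = c * ip m u v := by
  unfold ip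
  rw [inner_smul_right]

theorem ip_sum (m : ℝ → ℝ) (u : L2) (v : Fin n → L2) :
    ip m u (∑ k, v k) = ∑ k, ip m u (v k) := by
  unfold ip
  rw [inner_sum]

theorem ip_subl (m : ℝ → ℝ) (u v w : L2) : ip m (u - w) v = ip m u v - ip m w v := by
  unfold ip
  rw [map_sub, inner_sub_left]

theorem ip_smull (m : ℝ → ℝ) (u v : L2) (c : ℝ) : ip m (c • u) v = c * ip m u v := by
  unfold ip
  rw [map_smul, real_inner_smul_left]

theorem ip_aM {m a : ℝ → ℝ} (h : Bm m) (h' : Bm a) (u : L2) (M : Fin n → Fin n → ℝ)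
    (Z : Fin n → L2) (j : Fin n) :
    ip m u (aM M a Z j) = ∑ k, M j k * ip (fun x => m x * a x) u (Z k) := by
  unfold aM
  rw [ip_sum]
  refine Finset.sum_congr rfl fun k _ => ?_
  rw [ip_smul, ip_mul h h']

theorem ip_nonneg {m : ℝ → ℝ} (h : Bm m) (h0 : ∀ x, 0 ≤ m x) (u : L2) : 0 ≤ ip m u u := by
  rw [ip_eq h]
  exact integral_nonneg fun x => mul_nonneg (h0 x) (mul_self_nonneg _)

theorem ip_le {m w : ℝ → ℝ} (h : Bm m) (h' : Bm w) {C : ℝ} (hC : ∀ x, |m x| ≤ C * w x)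
    (u v : L2) : |ip m u v| ≤ C / 2 * (ip w u u + ip w v v) := by
  rw [ip_eq h, ip_eq h', ip_eq h', ← integral_add (mul_int h' u u) (mul_int h' v v),
    ← integral_const_mul]
  refine (abs_integral_le_integral_abs).trans ?_
  refine integral_mono (mul_int h u v).abs
    (((mul_int h' u u).add (mul_int h' v v)).const_mul _) fun x => ?_
  have h1 := hC x
  have h2 : |u x * v x| ≤ (u x * u x + v x * v x) / 2 := by
    rw [abs_le]
    constructor <;> nlinarith [sq_nonneg (u x + v x), sq_nonneg (u x - v x)]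
  calc |m x * (u x * v x)| = |m x| * |u x * v x| := abs_mul _ _
    _ ≤ (C * w x) * ((u x * u x + v x * v x) / 2) :=
        mul_le_mul h1 h2 (abs_nonneg _) ((abs_nonneg _).trans h1)
    _ = C / 2 * (w x * (u x * u x) + w x * (v x * v x)) := by ring

theorem ip_cs {m : ℝ → ℝ} (h : Bm m) {C : ℝ} (hC : ∀ x, |m x| ≤ C) (u v : L2) :
    |ip m u v| ≤ C * (‖u‖ * ‖v‖) := by
  have h1 : ‖mulOp m u‖ ≤ C * ‖u‖ := by
    refine Lp.norm_le_mul_norm_of_ae_le_mul ?_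
    filter_upwards [mulOp_ae h.1 h.2 u] with x hx
    rw [hx, norm_mul]
    exact mul_le_mul_of_nonneg_right (hC x) (norm_nonneg _)
  calc |ip m u v| ≤ ‖mulOp m u‖ * ‖v‖ := abs_real_inner_le_norm _ _
    _ ≤ C * ‖u‖ * ‖v‖ := mul_le_mul_of_nonneg_right h1 (norm_nonneg _)
    _ = _ := by ring

/-! ### Derivatives -/

section

variable {L : ℝ}

theorem Bm_th (hL : 0 < L) : Bm (th L) := Bm_of (Mlt_th hL)

theorem ip_parts {u u1 v v1 : L2} (h : Der u u1) (h' : Der v v1) {m : ℝ → ℝ} (hm : Mlt m) :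
    ip m u1 v = -ip m u v1 - ip (deriv m) u v := Der.parts h h' hm

/-- `aM` of a smooth family. -/
theorem Der_aM {a : ℝ → ℝ} (ha : Mlt a) (M : Fin n → Fin n → ℝ) {Z Z1 : Fin n → L2}
    (h : ∀ k, Der (Z k) (Z1 k)) (j : Fin n) :
    Der (aM M a Z j) (aM M (deriv a) Z j + aM M a Z1 j) := by
  have h1 : Der (∑ k, M j k • mulOp a (Z k))
      (∑ k, M j k • (mulOp (deriv a) (Z k) + mulOp a (Z1 k))) :=
    Der.sum _ fun k _ => Der.smul _ (Der.mul ha (h k))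
  have h2 : (∑ k, M j k • (mulOp (deriv a) (Z k) + mulOp a (Z1 k))) =
      aM M (deriv a) Z j + aM M a Z1 j := by
    unfold aM
    rw [← Finset.sum_add_distrib]
    exact Finset.sum_congr rfl fun k _ => smul_add _ _ _
  rw [h2] at h1
  exact h1

/-- The rate of change of one component, after integration by parts. -/
theorem row_identity (hL : 0 < L) (M : Fin n → Fin n → ℝ) (x0 h μ : ℝ) {Z0 Z1 Z2 Z3 : Fin n → L2}
    (h0 : ∀ k, Der (Z0 k) (Z1 k)) (h1 : ∀ k, Der (Z1 k) (Z2 k)) (h2 : ∀ k, Der (Z2 k) (Z3 k))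
    (ρ : L2) (j : Fin n) {q : ℝ → ℝ} (hq : Mlt q) {B B1 Q Q1 : L2}
    (hB : B = aM M (aw L x0) Z0 j)
    (hB1 : B1 = aM M (deriv (aw L x0)) Z0 j + aM M (aw L x0) Z1 j)
    (hQ : Q = aM M q Z0 j) (hQ1 : Q1 = aM M (deriv q) Z0 j + aM M q Z1 j) :
    -(1 / 2) * h * (μ * ip (ph L) (Z1 j) (Z1 j)) +
      ip (ph L) (B - (h * μ) • Z2 j) ((B1 - (h * μ) • Z3 j) +
        ((-(1 / 2 : ℝ) • Q - mulOp (damp L) (Z0 j)) + ρ)) -
      h * (μ * ip (bb L) (Z1 j) ((B1 - (h * μ) • Z3 j) +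
        ((-(1 / 2 : ℝ) • Q - mulOp (damp L) (Z0 j)) + ρ))) =
    -(1 / 2) * h * (μ * ip (ph L) (Z1 j) (Z1 j)) - 1 / 2 * ip (bb L) B B -
      3 / 2 * (h * μ) ^ 2 * ip (bb L) (Z2 j) (Z2 j) - 2 * (h * μ) * ip (bb L) (Z1 j) B1 -
      (h * μ) * ip (deriv (bb L)) (Z1 j) B +
      1 / 2 * (h * μ) ^ 2 * ip (deriv (deriv (bb L))) (Z1 j) (Z1 j) -
      1 / 2 * ip (ph L) B Q - ip (ph L) B (mulOp (damp L) (Z0 j)) + ip (ph L) B ρ -
      1 / 2 * (h * μ) * ip (ph L) (Z1 j) Q1 -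
      (h * μ) * ip (ph L) (Z1 j) (mulOp (deriv (damp L)) (Z0 j)) -
      (h * μ) * ip (ph L) (Z1 j) (mulOp (damp L) (Z1 j)) - (h * μ) * ip (ph L) (Z2 j) ρ -
      (h * μ) * ip (bb L) (Z1 j) ρ := by
  have mbb := Mlt_bb hL
  have mph := (Mlt_ph hL).1
  have dph : deriv (ph L) = bb L := (Mlt_ph hL).2.1
  have maw := Mlt_aw hL x0
  have mdp := Mlt_damp hL
  have bbb := Bm_of mbb
  have bph := Bm_of mph
  have bbb' := Bm_of mbb.der
  obtain ⟨G, hG⟩ : ∃ G, G = B - (h * μ) • Z2 j := ⟨_, rfl⟩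
  obtain ⟨G1, hG1⟩ : ∃ G1, G1 = B1 - (h * μ) • Z3 j := ⟨_, rfl⟩
  have dB : Der B B1 := by
    rw [hB, hB1]
    exact Der_aM maw M h0 j
  have dQ : Der Q Q1 := by
    rw [hQ, hQ1]
    exact Der_aM hq M h0 j
  have dG : Der G G1 := by
    have e1 := Der.add dB (Der.smul (-(h * μ)) (h2 j))
    rw [neg_smul, neg_smul, ← sub_eq_add_neg, ← sub_eq_add_neg, ← hG, ← hG1] at e1
    exact e1
  have dD : Der (mulOp (damp L) (Z0 j))
      (mulOp (deriv (damp L)) (Z0 j) + mulOp (damp L) (Z1 j)) := Der.mul mdp (h0 j)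
  have P1 := ip_parts dG dG mph
  have P2 := ip_parts dG (h1 j) mbb
  have P3 := ip_parts (h1 j) dB mbb
  have P4 := ip_parts (h1 j) (h1 j) mbb.der
  have P5 := ip_parts (h1 j) dQ mph
  have P6 := ip_parts (h1 j) dD mph
  rw [dph] at P1 P5 P6
  rw [ip_symm bph G1 G] at P1
  rw [ip_symm bbb G1 (Z1 j), ip_symm bbb G (Z2 j), ip_symm bbb' G (Z1 j)] at P2
  rw [ip_symm bbb' (Z2 j) (Z1 j)] at P4
  rw [ip_add] at P6
  have E1 : ip (bb L) G G = ip (bb L) B B - 2 * (h * μ) * ip (bb L) (Z2 j) B +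
      (h * μ) ^ 2 * ip (bb L) (Z2 j) (Z2 j) := by
    rw [hG, ip_sub, ip_subl, ip_subl, ip_smul, ip_smull, ip_smul, ip_smull,
      ip_symm bbb B (Z2 j)]
    ring
  have E2 : ip (bb L) (Z2 j) G = ip (bb L) (Z2 j) B - h * μ * ip (bb L) (Z2 j) (Z2 j) := by
    rw [hG, ip_sub, ip_smul]
  have E3 : ip (deriv (bb L)) (Z1 j) G =
      ip (deriv (bb L)) (Z1 j) B - h * μ * ip (deriv (bb L)) (Z1 j) (Z2 j) := by
    rw [hG, ip_sub, ip_smul]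
  have E4 : ∀ u : L2, ip (ph L) G u = ip (ph L) B u - h * μ * ip (ph L) (Z2 j) u := by
    intro u
    rw [hG, ip_subl, ip_smull]
  have E5 : ∀ (m : ℝ → ℝ) (u : L2), ip m u ((-(1 / 2 : ℝ) • Q - mulOp (damp L) (Z0 j)) + ρ) =
      -(1 / 2) * ip m u Q - ip m u (mulOp (damp L) (Z0 j)) + ip m u ρ := by
    intro m u
    rw [ip_add, ip_sub, ip_smul]
  rw [← hG, ← hG1, ip_add (ph L) G G1, ip_add (bb L) (Z1 j) G1, E4 (_ + ρ), E5, E5, E5]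
  rw [E1] at P1
  rw [E2, E3] at P2
  linear_combination (1 / 2) * P1 - (h * μ) * P2 + 2 * (h * μ) * P3 -
    (1 / 2) * (h * μ) ^ 2 * P4 + 1 / 2 * (h * μ) * P5 + (h * μ) * P6

/-! ### Bounds -/

/-- The indicator function of the support of `th`. -/
noncomputable def wI (L : ℝ) : ℝ → ℝ := (Icc (-3 / 4) (L + 3 / 4)).indicator fun _ => 1

theorem Bm_wI : Bm (wI L) := by
  refine ⟨measurable_const.indicator measurableSet_Icc, 1, fun x => ?_⟩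
  unfold wI
  by_cases hx : x ∈ Icc (-3 / 4) (L + 3 / 4)
  · rw [indicator_of_mem hx, abs_one]
  · rw [indicator_of_notMem hx, abs_zero]
    exact zero_le_one

theorem wI_nonneg (x : ℝ) : 0 ≤ wI L x := indicator_nonneg (fun _ _ => zero_le_one) x

theorem wI_in {x : ℝ} (hx : x ∈ Icc (-3 / 4) (L + 3 / 4)) : wI L x = 1 := indicator_of_mem hx _

theorem ip_wI (u : L2) : ip (wI L) u u = ∫ x in Icc (-3 / 4) (L + 3 / 4), (u x) ^ 2 := by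
  rw [ip_eq Bm_wI, ← integral_indicator measurableSet_Icc]
  refine integral_congr_ae (Eventually.of_forall fun x => ?_)
  unfold wI
  by_cases hx : x ∈ Icc (-3 / 4) (L + 3 / 4)
  · simp only [indicator_of_mem hx]
    ring
  · simp only [indicator_of_notMem hx, zero_mul]

theorem sum_cs {m : ℝ → ℝ} (h : Bm m) {c K : ℝ} (hc : ∀ x, |m x| ≤ c) {M : Fin n → Fin n → ℝ}
    (hK : ∀ j k, |M j k| ≤ K) (u : L2) (Z : Fin n → L2) (j : Fin n) :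
    |∑ k, M j k * ip m u (Z k)| ≤ K * c * (‖u‖ * ∑ k, ‖Z k‖) := by
  have hc0 : 0 ≤ c := (abs_nonneg _).trans (hc 0)
  refine (Finset.abs_sum_le_sum_abs _ _).trans ?_
  rw [Finset.mul_sum, Finset.mul_sum]
  refine Finset.sum_le_sum fun k _ => ?_
  rw [abs_mul]
  calc |M j k| * |ip m u (Z k)| ≤ K * (c * (‖u‖ * ‖Z k‖)) :=
        mul_le_mul (hK j k) (ip_cs h hc u (Z k)) (abs_nonneg _) ((abs_nonneg _).trans (hK j k))
    _ = K * c * (‖u‖ * ‖Z k‖) := by ring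

theorem sum_le {m w : ℝ → ℝ} (h : Bm m) (h' : Bm w) (hw : ∀ x, 0 ≤ w x) {c K : ℝ} (hc0 : 0 ≤ c)
    (hc : ∀ x, |m x| ≤ c * w x) {M : Fin n → Fin n → ℝ} (hK0 : 0 ≤ K) (hK : ∀ j k, |M j k| ≤ K)
    (Z : Fin n → L2) (j : Fin n) :
    |∑ k, M j k * ip m (Z j) (Z k)| ≤ K * c * (n + 1) * ∑ k, ip w (Z k) (Z k) := by
  have h1 : ∀ k, 0 ≤ ip w (Z k) (Z k) := fun k => ip_nonneg h' hw _
  have h2 : ip w (Z j) (Z j) ≤ ∑ k, ip w (Z k) (Z k) :=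
    Finset.single_le_sum (f := fun k => ip w (Z k) (Z k)) (fun k _ => h1 k) (Finset.mem_univ j)
  have h3 : 0 ≤ ∑ k, ip w (Z k) (Z k) := Finset.sum_nonneg fun k _ => h1 k
  refine (Finset.abs_sum_le_sum_abs _ _).trans ?_
  calc ∑ k, |M j k * ip m (Z j) (Z k)| ≤ ∑ k, K * (c / 2 * (ip w (Z j) (Z j) + ip w (Z k) (Z k))) := by
        refine Finset.sum_le_sum fun k _ => ?_
        rw [abs_mul]
        exact mul_le_mul (hK j k) (ip_le h h' hc _ _) (abs_nonneg _) hK0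
    _ = K * c / 2 * (n * ip w (Z j) (Z j) + ∑ k, ip w (Z k) (Z k)) := by
        rw [← Finset.mul_sum, ← Finset.mul_sum, Finset.sum_add_distrib, Finset.sum_const,
          Finset.card_univ, Fintype.card_fin, nsmul_eq_mul]
        ring
    _ ≤ K * c / 2 * (n * (∑ k, ip w (Z k) (Z k)) + ∑ k, ip w (Z k) (Z k)) := by
        refine mul_le_mul_of_nonneg_left ?_ (by positivity)
        have := mul_le_mul_of_nonneg_left h2 (Nat.cast_nonneg (α := ℝ) n)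
        linarith
    _ ≤ K * c * (n + 1) * ∑ k, ip w (Z k) (Z k) := by
        have : 0 ≤ K * c * (n + 1) * ∑ k, ip w (Z k) (Z k) := by positivity
        linarith

theorem sum_sum_le {m w : ℝ → ℝ} (h : Bm m) (h' : Bm w) (hw : ∀ x, 0 ≤ w x) {c K : ℝ}
    (hc0 : 0 ≤ c) (hc : ∀ x, |m x| ≤ c * w x) {M : Fin n → Fin n → ℝ} (hK0 : 0 ≤ K)
    (hK : ∀ j k, |M j k| ≤ K) (Z : Fin n → L2) (j : Fin n) :
    |∑ l, M j l * ∑ k, M j k * ip m (Z l) (Z k)| ≤ K * K * c * n * ∑ k, ip w (Z k) (Z k) := by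
  have h1 : ∀ k, 0 ≤ ip w (Z k) (Z k) := fun k => ip_nonneg h' hw _
  refine (Finset.abs_sum_le_sum_abs _ _).trans ?_
  calc ∑ l, |M j l * ∑ k, M j k * ip m (Z l) (Z k)|
      ≤ ∑ l, K * ∑ k, K * (c / 2 * (ip w (Z l) (Z l) + ip w (Z k) (Z k))) := by
        refine Finset.sum_le_sum fun l _ => ?_
        rw [abs_mul]
        refine mul_le_mul (hK j l) ((Finset.abs_sum_le_sum_abs _ _).trans
          (Finset.sum_le_sum fun k _ => ?_)) (abs_nonneg _) hK0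
        rw [abs_mul]
        exact mul_le_mul (hK j k) (ip_le h h' hc _ _) (abs_nonneg _) hK0
    _ = K * K * c * n * ∑ k, ip w (Z k) (Z k) := by
        simp only [← Finset.mul_sum, Finset.sum_add_distrib, Finset.sum_const, Finset.card_univ,
          Fintype.card_fin, nsmul_eq_mul]
        ring

theorem ip_rho (hL : 0 < L) {ρ : L2} (hρ : ∀ᵐ x ∂volume, x ∉ Icc (-2) (L + 2) → ρ x = 0)
    (u : L2) : |ip (ph L) u ρ| ≤ 1 / 8 * ip (bb L) u u + 2 * (L + 8) ^ 2 * ‖ρ‖ ^ 2 := by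
  have bph := Bm_of (Mlt_ph hL).1
  have bbb := Bm_of (Mlt_bb hL)
  have b1 : Bm fun _ : ℝ => (1 : ℝ) := ⟨measurable_const, 1, fun _ => by rw [abs_one]⟩
  have h1 : ‖ρ‖ ^ 2 = ∫ x, 1 * (ρ x * ρ x) := by
    rw [← real_inner_self_eq_norm_sq, Skw.inner_eq]
    exact integral_congr_ae (Eventually.of_forall fun x => by ring)
  rw [ip_eq bph, ip_eq bbb, h1, ← integral_const_mul, ← integral_const_mul,
    ← integral_add ((mul_int bbb u u).const_mul _) ((mul_int b1 ρ ρ).const_mul _)]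
  refine (abs_integral_le_integral_abs).trans ?_
  refine integral_mono_ae (mul_int bph u ρ).abs
    (((mul_int bbb u u).const_mul _).add ((mul_int b1 ρ ρ).const_mul _)) ?_
  filter_upwards [hρ] with x hx
  have h2 := (Mlt_ph hL).2.2.2 x
  have h3 := (bb_facts' hL).1 x
  by_cases hx2 : x ∈ Icc (-2) (L + 2)
  · have h4 : bb L x = 1 := (bb_facts' hL).2.1 x ⟨by linarith [hx2.1], by linarith [hx2.2]⟩
    rw [h4, abs_mul, abs_of_nonneg h2.1, abs_mul]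
    have h5 : 0 ≤ |u x| := abs_nonneg _
    have h6 : 0 ≤ |ρ x| := abs_nonneg _
    have h7 : u x * u x = |u x| * |u x| := (abs_mul_abs_self _).symm
    have h8 : ρ x * ρ x = |ρ x| * |ρ x| := (abs_mul_abs_self _).symm
    rw [h7, h8]
    have h9 : ph L x * (|u x| * |ρ x|) ≤ (L + 8) * (|u x| * |ρ x|) :=
      mul_le_mul_of_nonneg_right h2.2 (by positivity)
    have h10 : 0 ≤ (|u x| - 4 * ((L + 8) * |ρ x|)) ^ 2 := sq_nonneg _
    nlinarith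
  · rw [hx hx2, mul_zero, mul_zero, abs_zero]
    have h5 : 0 ≤ u x * u x := mul_self_nonneg _
    have h6 : 0 ≤ bb L x * (u x * u x) := mul_nonneg h3.1 h5
    linarith

/-- The right side of `row_identity` is bounded. -/
theorem row_bound (hL : 0 < L) (M : Fin n → Fin n → ℝ) (x0 m0 : ℝ) (hm0 : 0 ≤ m0) {q : ℝ → ℝ}
    (hq : Mlt q) (hqI : ∀ x, x ∉ Ioo (-3 / 4) (L + 3 / 4) → q x = 0)
    (hqd : ∀ x ∈ Ioo (-1 / 2) (L + 1 / 2), q x = 0) : ∃ Ca Cb Cc Cd Ce : ℝ,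
    0 ≤ Ca ∧ 0 ≤ Cb ∧ 0 ≤ Cc ∧ 0 ≤ Cd ∧ 0 ≤ Ce ∧
    ∀ (h μ : ℝ) (Z0 Z1 Z2 : Fin n → L2) (ρ : L2) (j : Fin n), 0 < h → 0 < μ → μ ≤ m0 →
    (∀ᵐ x ∂volume, x ∉ Icc (-2) (L + 2) → ρ x = 0) →
    -(1 / 2) * h * (μ * ip (ph L) (Z1 j) (Z1 j)) - 1 / 2 * ip (bb L) (aM M (aw L x0) Z0 j)
        (aM M (aw L x0) Z0 j) -
      3 / 2 * (h * μ) ^ 2 * ip (bb L) (Z2 j) (Z2 j) - 2 * (h * μ) * ip (bb L) (Z1 j)
        (aM M (deriv (aw L x0)) Z0 j + aM M (aw L x0) Z1 j) -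
      (h * μ) * ip (deriv (bb L)) (Z1 j) (aM M (aw L x0) Z0 j) +
      1 / 2 * (h * μ) ^ 2 * ip (deriv (deriv (bb L))) (Z1 j) (Z1 j) -
      1 / 2 * ip (ph L) (aM M (aw L x0) Z0 j) (aM M q Z0 j) -
      ip (ph L) (aM M (aw L x0) Z0 j) (mulOp (damp L) (Z0 j)) +
      ip (ph L) (aM M (aw L x0) Z0 j) ρ -
      1 / 2 * (h * μ) * ip (ph L) (Z1 j) (aM M (deriv q) Z0 j + aM M q Z1 j) -
      (h * μ) * ip (ph L) (Z1 j) (mulOp (deriv (damp L)) (Z0 j)) -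
      (h * μ) * ip (ph L) (Z1 j) (mulOp (damp L) (Z1 j)) - (h * μ) * ip (ph L) (Z2 j) ρ -
      (h * μ) * ip (bb L) (Z1 j) ρ ≤
    -(1 / 4) * ip (bb L) (aM M (aw L x0) Z0 j) (aM M (aw L x0) Z0 j) +
      Ca * h * (‖Z1 j‖ * ∑ k, ‖Z0 k‖) + Cb * h * (∑ k, ip (wI L) (Z1 k) (Z1 k)) +
      Cc * h ^ 2 * ‖Z1 j‖ ^ 2 + Cd * (∑ k, ip (damp L) (Z0 k) (Z0 k)) + Ce * ‖ρ‖ ^ 2 := by
  have mbb := Mlt_bb hL
  have mph := (Mlt_ph hL).1
  have maw := Mlt_aw hL x0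
  have mdp := Mlt_damp hL
  have bbb := Bm_of mbb
  have bph := Bm_of mph
  have baw := Bm_of maw
  have baw' := Bm_of maw.der
  have bdp := Bm_of mdp
  have bdp' := Bm_of mdp.der
  have bbb' := Bm_of mbb.der
  have bbb2 := Bm_of mbb.der.der
  have bq := Bm_of hq
  have bq' := Bm_of hq.der
  have fth := th_facts hL
  have fdp := damp_facts hL
  have fbb := bb_facts' hL
  have fph := (Mlt_ph hL).2.2.2
  -- constants
  obtain ⟨c1, hc1⟩ := (Bm_mul bbb baw').2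
  obtain ⟨c2, hc2⟩ := (Bm_mul bbb baw).2
  obtain ⟨c4, hc4⟩ := bbb2.2
  obtain ⟨c5, hc5⟩ := (Bm_mul (Bm_mul bph bq) baw).2
  obtain ⟨c6, hc6⟩ := (Bm_mul bph baw).2
  obtain ⟨c7, hc7⟩ := (Bm_mul bph bq').2
  obtain ⟨c8, hc8⟩ := (Bm_mul bph bq).2
  obtain ⟨c9, hc9⟩ := (Bm_mul bph bdp').2
  have c1n : 0 ≤ c1 := (abs_nonneg _).trans (hc1 0)
  have c2n : 0 ≤ c2 := (abs_nonneg _).trans (hc2 0)
  have c4n : 0 ≤ c4 := (abs_nonneg _).trans (hc4 0)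
  have c5n : 0 ≤ c5 := (abs_nonneg _).trans (hc5 0)
  have c6n : 0 ≤ c6 := (abs_nonneg _).trans (hc6 0)
  have c7n : 0 ≤ c7 := (abs_nonneg _).trans (hc7 0)
  have c8n : 0 ≤ c8 := (abs_nonneg _).trans (hc8 0)
  have c9n : 0 ≤ c9 := (abs_nonneg _).trans (hc9 0)
  obtain ⟨K, hK0, hK⟩ : ∃ K : ℝ, 0 ≤ K ∧ ∀ j k, |M j k| ≤ K := by
    refine ⟨∑ j, ∑ k, |M j k|, Finset.sum_nonneg fun _ _ => Finset.sum_nonneg fun _ _ =>
      abs_nonneg _, fun j k => ?_⟩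
    exact (Finset.single_le_sum (f := fun k => |M j k|) (fun _ _ => abs_nonneg _)
      (Finset.mem_univ k)).trans (Finset.single_le_sum (f := fun j => ∑ k, |M j k|)
        (fun _ _ => Finset.sum_nonneg fun _ _ => abs_nonneg _) (Finset.mem_univ j))
  -- pointwise facts
  have aw0 : ∀ x, x ∉ Ioo (-3 / 4) (L + 3 / 4) → aw L x0 x = 0 := fun x hx => by
    unfold aw
    rw [(fth.2.2.1 x hx).1, zero_mul]
  have p2 : ∀ x, |bb L x * aw L x0 x| ≤ c2 * wI L x := fun x => by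
    by_cases hx : x ∈ Ioo (-3 / 4) (L + 3 / 4)
    · rw [wI_in (Ioo_subset_Icc_self hx), mul_one]
      exact hc2 x
    · rw [aw0 x hx, mul_zero, abs_zero]
      exact mul_nonneg c2n (wI_nonneg x)
  have p8 : ∀ x, |ph L x * q x| ≤ c8 * wI L x := fun x => by
    by_cases hx : x ∈ Ioo (-3 / 4) (L + 3 / 4)
    · rw [wI_in (Ioo_subset_Icc_self hx), mul_one]
      exact hc8 x
    · rw [hqI x hx, mul_zero, abs_zero]
      exact mul_nonneg c8n (wI_nonneg x)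
  have p3 : ∀ x, deriv (bb L) x * aw L x0 x = 0 := fun x => by
    by_cases hx : x ∈ Ioo (-3 / 4) (L + 3 / 4)
    · rw [(fbb.2.2.2 x ⟨by linarith [hx.1], by linarith [hx.2]⟩).1, zero_mul]
    · rw [aw0 x hx, mul_zero]
  have p5 : ∀ x, |ph L x * q x * aw L x0 x| ≤ c5 * damp L x := fun x => by
    by_cases hx : x ∈ Ioo (-1 / 2) (L + 1 / 2)
    · rw [hqd x hx, mul_zero, zero_mul, abs_zero]
      exact mul_nonneg c5n (fdp.1 x).1
    · rw [fdp.2.2.1 x fun h => hx ⟨by linarith [h.1], by linarith [h.2]⟩, mul_one]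
      exact hc5 x
  have p6 : ∀ x, |ph L x * damp L x * aw L x0 x| ≤ c6 * damp L x := fun x => by
    have e : ph L x * damp L x * aw L x0 x = (ph L x * aw L x0 x) * damp L x := by ring
    rw [e, abs_mul, abs_of_nonneg (fdp.1 x).1]
    exact mul_le_mul_of_nonneg_right (hc6 x) (fdp.1 x).1
  refine ⟨m0 * (2 * (K * c1) + K * c7 + c9), m0 * (2 * (K * c2 * (n + 1)) + K * c8 * (n + 1)),
    m0 ^ 2 * (c4 + 1), K * K * c5 * n + K * c6 * (n + 1), 4 * (L + 8) ^ 2 + 1, by positivity,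
    by positivity, by positivity, by positivity, by positivity, ?_⟩
  intro h μ Z0 Z1 Z2 ρ j hh hμ hμ0 hρ
  obtain ⟨N0, hN0⟩ : ∃ N0, N0 = ∑ k, ‖Z0 k‖ := ⟨_, rfl⟩
  obtain ⟨W1, hW1⟩ : ∃ W1, W1 = ∑ k, ip (wI L) (Z1 k) (Z1 k) := ⟨_, rfl⟩
  obtain ⟨Wd, hWd⟩ : ∃ Wd, Wd = ∑ k, ip (damp L) (Z0 k) (Z0 k) := ⟨_, rfl⟩
  obtain ⟨B, hB⟩ : ∃ B, B = aM M (aw L x0) Z0 j := ⟨_, rfl⟩
  have N0n : 0 ≤ N0 := hN0 ▸ Finset.sum_nonneg fun _ _ => norm_nonneg _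
  have W1n : 0 ≤ W1 := hW1 ▸ Finset.sum_nonneg fun _ _ => ip_nonneg Bm_wI wI_nonneg _
  have Wdn : 0 ≤ Wd := hWd ▸ Finset.sum_nonneg fun _ _ => ip_nonneg bdp (fun x => (fdp.1 x).1) _
  have zj : ‖Z0 j‖ ≤ N0 := hN0 ▸ Finset.single_le_sum (f := fun k => ‖Z0 k‖)
    (fun _ _ => norm_nonneg _) (Finset.mem_univ j)
  -- terms
  have t0 : 0 ≤ ip (ph L) (Z1 j) (Z1 j) := ip_nonneg bph (fun x => (fph x).1) _
  have t1 : 0 ≤ ip (bb L) B B := ip_nonneg bbb (fun x => (fbb.1 x).1) _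
  have t2 : 0 ≤ ip (bb L) (Z2 j) (Z2 j) := ip_nonneg bbb (fun x => (fbb.1 x).1) _
  have t3 : |ip (bb L) (Z1 j) (aM M (deriv (aw L x0)) Z0 j + aM M (aw L x0) Z1 j)| ≤
      K * c1 * (‖Z1 j‖ * N0) + K * c2 * (n + 1) * W1 := by
    rw [ip_add, ip_aM bbb baw', ip_aM bbb baw]
    refine (abs_add_le _ _).trans (add_le_add ?_ ?_)
    · rw [hN0]
      exact sum_cs (Bm_mul bbb baw') hc1 hK _ _ _
    · rw [hW1]
      exact sum_le (Bm_mul bbb baw) Bm_wI wI_nonneg c2n p2 hK0 hK _ _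
  have t4 : ip (deriv (bb L)) (Z1 j) B = 0 := by
    rw [hB, ip_aM bbb' baw]
    refine Finset.sum_eq_zero fun k _ => ?_
    rw [ip_eq (Bm_mul bbb' baw)]
    have e : ∀ x, deriv (bb L) x * aw L x0 x * (Z1 j x * Z0 k x) = 0 := fun x => by
      rw [p3 x, zero_mul]
    simp only [e, integral_zero, mul_zero]
  have t5 : |ip (deriv (deriv (bb L))) (Z1 j) (Z1 j)| ≤ c4 * (‖Z1 j‖ * ‖Z1 j‖) :=
    ip_cs bbb2 hc4 _ _
  have t6 : |ip (ph L) B (aM M q Z0 j)| ≤ K * K * c5 * n * Wd := by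
    rw [ip_aM bph bq, hWd]
    have e : ∀ l, M j l * ip (fun x => ph L x * q x) B (Z0 l) =
        M j l * ∑ k, M j k * ip (fun x => ph L x * q x * aw L x0 x) (Z0 l) (Z0 k) := fun l => by
      rw [ip_symm (Bm_mul bph bq), hB, ip_aM (Bm_mul bph bq) baw]
    rw [Finset.sum_congr rfl fun l _ => e l]
    exact sum_sum_le (Bm_mul (Bm_mul bph bq) baw) bdp (fun x => (fdp.1 x).1) c5n p5 hK0 hK _ _
  have t7 : |ip (ph L) B (mulOp (damp L) (Z0 j))| ≤ K * c6 * (n + 1) * Wd := by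
    rw [ip_mul bph bdp, ip_symm (Bm_mul bph bdp), hB, ip_aM (Bm_mul bph bdp) baw, hWd]
    exact sum_le (Bm_mul (Bm_mul bph bdp) baw) bdp (fun x => (fdp.1 x).1) c6n p6 hK0 hK _ _
  have t8 : |ip (ph L) B ρ| ≤ 1 / 8 * ip (bb L) B B + 2 * (L + 8) ^ 2 * ‖ρ‖ ^ 2 :=
    ip_rho hL hρ B
  have t9 : |ip (ph L) (Z1 j) (aM M (deriv q) Z0 j + aM M q Z1 j)| ≤
      K * c7 * (‖Z1 j‖ * N0) + K * c8 * (n + 1) * W1 := by
    rw [ip_add, ip_aM bph bq', ip_aM bph bq]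
    refine (abs_add_le _ _).trans (add_le_add ?_ ?_)
    · rw [hN0]
      exact sum_cs (Bm_mul bph bq') hc7 hK _ _ _
    · rw [hW1]
      exact sum_le (Bm_mul bph bq) Bm_wI wI_nonneg c8n p8 hK0 hK _ _
  have t10 : |ip (ph L) (Z1 j) (mulOp (deriv (damp L)) (Z0 j))| ≤ c9 * (‖Z1 j‖ * N0) := by
    rw [ip_mul bph bdp']
    refine (ip_cs (Bm_mul bph bdp') hc9 _ _).trans ?_
    gcongr
  have t11 : 0 ≤ ip (ph L) (Z1 j) (mulOp (damp L) (Z1 j)) := by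
    rw [ip_mul bph bdp]
    exact ip_nonneg (Bm_mul bph bdp) (fun x => mul_nonneg (fph x).1 (fdp.1 x).1) _
  have t12 : |h * μ * ip (ph L) (Z2 j) ρ| ≤
      1 / 8 * ((h * μ) ^ 2 * ip (bb L) (Z2 j) (Z2 j)) + 2 * (L + 8) ^ 2 * ‖ρ‖ ^ 2 := by
    have e := ip_rho hL hρ ((h * μ) • Z2 j)
    rw [ip_smull, ip_smull, ip_smul] at e
    calc |h * μ * ip (ph L) (Z2 j) ρ| ≤ _ := e
      _ = _ := by ring
  have t13 : |ip (bb L) (Z1 j) ρ| ≤ 1 * (‖Z1 j‖ * ‖ρ‖) :=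
    ip_cs bbb (fun x => by rw [abs_of_nonneg (fbb.1 x).1]; exact (fbb.1 x).2) _ _
  rw [← hN0, ← hW1, ← hWd, ← hB, t4]
  obtain ⟨a, ha⟩ : ∃ a, a = ‖Z1 j‖ := ⟨_, rfl⟩
  obtain ⟨r, hr⟩ : ∃ r, r = ‖ρ‖ := ⟨_, rfl⟩
  have an : 0 ≤ a := ha ▸ norm_nonneg _
  have rn : 0 ≤ r := hr ▸ norm_nonneg _
  rw [← ha] at t3 t5 t9 t10 t13
  rw [← hr] at t8 t12 t13
  rw [← ha, ← hr]
  have hμh : 0 ≤ h * μ := by positivity
  have hμm : h * μ ≤ h * m0 := mul_le_mul_of_nonneg_left hμ0 hh.le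
  -- combine
  have u0 : 0 ≤ 1 / 2 * h * (μ * ip (ph L) (Z1 j) (Z1 j)) := by positivity
  have u3 : -(2 * (h * μ) * ip (bb L) (Z1 j) (aM M (deriv (aw L x0)) Z0 j + aM M (aw L x0) Z1 j)) ≤
      2 * (h * m0) * (K * c1 * (a * N0) + K * c2 * (n + 1) * W1) := by
    have e1 := neg_abs_le (ip (bb L) (Z1 j) (aM M (deriv (aw L x0)) Z0 j + aM M (aw L x0) Z1 j))
    have e2 : 0 ≤ K * c1 * (a * N0) + K * c2 * (n + 1) * W1 := by positivity
    have e3 : (h * μ) * (K * c1 * (a * N0) + K * c2 * (n + 1) * W1) ≤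
        (h * m0) * (K * c1 * (a * N0) + K * c2 * (n + 1) * W1) :=
      mul_le_mul_of_nonneg_right hμm e2
    have e4 : (h * μ) * -(K * c1 * (a * N0) + K * c2 * (n + 1) * W1) ≤
        (h * μ) * ip (bb L) (Z1 j) (aM M (deriv (aw L x0)) Z0 j + aM M (aw L x0) Z1 j) :=
      mul_le_mul_of_nonneg_left (by linarith) hμh
    linarith
  have u5 : 1 / 2 * (h * μ) ^ 2 * ip (deriv (deriv (bb L))) (Z1 j) (Z1 j) ≤
      (h * m0) ^ 2 * (c4 * (a * a)) := by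
    have e1 := le_abs_self (ip (deriv (deriv (bb L))) (Z1 j) (Z1 j))
    have e2 : (h * μ) ^ 2 ≤ (h * m0) ^ 2 := pow_le_pow_left₀ hμh hμm 2
    have e3 : 0 ≤ c4 * (a * a) := by positivity
    have e4 : (h * μ) ^ 2 * ip (deriv (deriv (bb L))) (Z1 j) (Z1 j) ≤
        (h * μ) ^ 2 * (c4 * (a * a)) := mul_le_mul_of_nonneg_left (by linarith) (by positivity)
    have e5 : (h * μ) ^ 2 * (c4 * (a * a)) ≤ (h * m0) ^ 2 * (c4 * (a * a)) :=
      mul_le_mul_of_nonneg_right e2 e3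
    have e6 : 0 ≤ (h * m0) ^ 2 * (c4 * (a * a)) := by positivity
    linarith
  have u6 : -(1 / 2 * ip (ph L) B (aM M q Z0 j)) ≤ K * K * c5 * n * Wd := by
    have e1 := neg_abs_le (ip (ph L) B (aM M q Z0 j))
    have e2 : 0 ≤ K * K * c5 * n * Wd := by positivity
    linarith
  have u7 : -ip (ph L) B (mulOp (damp L) (Z0 j)) ≤ K * c6 * (n + 1) * Wd := by
    have e1 := neg_abs_le (ip (ph L) B (mulOp (damp L) (Z0 j)))
    linarith
  have u8 : ip (ph L) B ρ ≤ 1 / 8 * ip (bb L) B B + 2 * (L + 8) ^ 2 * r ^ 2 :=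
    (le_abs_self _).trans t8
  have u9 : -(1 / 2 * (h * μ) * ip (ph L) (Z1 j) (aM M (deriv q) Z0 j + aM M q Z1 j)) ≤
      (h * m0) * (K * c7 * (a * N0) + K * c8 * (n + 1) * W1) := by
    have e1 := neg_abs_le (ip (ph L) (Z1 j) (aM M (deriv q) Z0 j + aM M q Z1 j))
    have e2 : 0 ≤ K * c7 * (a * N0) + K * c8 * (n + 1) * W1 := by positivity
    have e3 : (h * μ) * (K * c7 * (a * N0) + K * c8 * (n + 1) * W1) ≤
        (h * m0) * (K * c7 * (a * N0) + K * c8 * (n + 1) * W1) :=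
      mul_le_mul_of_nonneg_right hμm e2
    have e4 : (h * μ) * -(K * c7 * (a * N0) + K * c8 * (n + 1) * W1) ≤
        (h * μ) * ip (ph L) (Z1 j) (aM M (deriv q) Z0 j + aM M q Z1 j) :=
      mul_le_mul_of_nonneg_left (by linarith) hμh
    have e5 : 0 ≤ (h * m0) * (K * c7 * (a * N0) + K * c8 * (n + 1) * W1) := by positivity
    linarith
  have u10 : -((h * μ) * ip (ph L) (Z1 j) (mulOp (deriv (damp L)) (Z0 j))) ≤
      (h * m0) * (c9 * (a * N0)) := by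
    have e1 := neg_abs_le (ip (ph L) (Z1 j) (mulOp (deriv (damp L)) (Z0 j)))
    have e3 : (h * μ) * (c9 * (a * N0)) ≤ (h * m0) * (c9 * (a * N0)) :=
      mul_le_mul_of_nonneg_right hμm (by positivity)
    have e4 : (h * μ) * -(c9 * (a * N0)) ≤
        (h * μ) * ip (ph L) (Z1 j) (mulOp (deriv (damp L)) (Z0 j)) :=
      mul_le_mul_of_nonneg_left (by linarith) hμh
    linarith
  have u11 : 0 ≤ (h * μ) * ip (ph L) (Z1 j) (mulOp (damp L) (Z1 j)) := mul_nonneg hμh t11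
  have u12 : -((h * μ) * ip (ph L) (Z2 j) ρ) ≤
      1 / 8 * ((h * μ) ^ 2 * ip (bb L) (Z2 j) (Z2 j)) + 2 * (L + 8) ^ 2 * r ^ 2 := by
    have e1 := neg_abs_le (h * μ * ip (ph L) (Z2 j) ρ)
    linarith
  have u13 : -((h * μ) * ip (bb L) (Z1 j) ρ) ≤ (h * m0) ^ 2 * (a * a) + r ^ 2 := by
    have e1 := neg_abs_le (ip (bb L) (Z1 j) ρ)
    have e4 : (h * μ) * -(a * r) ≤ (h * μ) * ip (bb L) (Z1 j) ρ :=
      mul_le_mul_of_nonneg_left (by linarith) hμh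
    have e3 : (h * μ) * (a * r) ≤ (h * m0) * (a * r) :=
      mul_le_mul_of_nonneg_right hμm (by positivity)
    have e5 : 0 ≤ (h * m0 * a - r) ^ 2 := sq_nonneg _
    have e6 : 0 ≤ (h * m0) ^ 2 * (a * a) := by positivity
    have e7 : 0 ≤ r ^ 2 := sq_nonneg _
    nlinarith
  have u2 : 0 ≤ (h * μ) ^ 2 * ip (bb L) (Z2 j) (Z2 j) := by positivity
  linarith [u0, u2, u3, u5, u6, u7, u8, u9, u10, u11, u12, u13, t1]

end

end Pool.Agent.KG.F2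

namespace Pool.Agent.KG

open MeasureTheory Filter Topology Set F2
open Pool.Agent.Kdv
open scoped ENNReal ContDiff InnerProductSpace

variable {n : ℕ}

/-! ### The result -/

theorem flush_alg (p : Pr n) {M : Fin n → Fin n → ℝ} (hM : ∀ j k, M j k = M k j) (x0 : ℝ) :
    ∃ C : ℝ, 0 ≤ C ∧ ∀ (h ε : ℝ) (z : HH n) (ρ : Fin n → L2), 0 < h → h ≤ 1 → 0 < ε → ε ≤ 1 / 8 →
      (∀ j, ∀ᵐ x ∂volume, x ∉ Icc (-2) (p.L + 2) → ρ j x = 0) →
      Rf p M x0 ε h z (fun j => k0 p.L x0 M (Zi 0 ε z) j + ρ j) ≤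
        -(1 / 4) * ∑ j, inner ℝ (mulOp (bb p.L) (aM M (aw p.L x0) (Zi 0 ε z) j))
            (aM M (aw p.L x0) (Zi 0 ε z) j) +
          C * ∑ j, inner ℝ (mulOp (damp p.L) (Zi 0 ε z j)) (Zi 0 ε z j) +
          C * (h * (∑ j, ∫ x in Icc (-3 / 4) (p.L + 3 / 4), (Zi 1 ε z j x) ^ 2) +
            h * (∑ j, ‖Zi 1 ε z j‖) * ‖z‖ + h ^ 2 * ∑ j, ‖Zi 1 ε z j‖ ^ 2 +
            ∑ j, ‖ρ j‖ ^ 2) := by
  have hL := p.hL
  have fth := th_facts hL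
  have hq : Mlt (fun x => deriv (th p.L) x * wt p.L x0 x) :=
    Mlt.mul (Mlt_th hL).der (Mlt_wt hL x0).1
  obtain ⟨m0, hm0, hmu⟩ : ∃ m0 : ℝ, 0 ≤ m0 ∧ ∀ j, p.mu j ≤ m0 :=
    ⟨∑ j, p.mu j, Finset.sum_nonneg fun j _ => (p.hmu j).le, fun j =>
      Finset.single_le_sum (f := p.mu) (fun k _ => (p.hmu k).le) (Finset.mem_univ j)⟩
  obtain ⟨Ca, Cb, Cc, Cd, Ce, ca, cb, cc, cd, ce, hR⟩ := row_bound hL M x0 m0 hm0 hq
    (fun x hx => by rw [(fth.2.2.1 x hx).2, zero_mul])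
    (fun x hx => by rw [fth.2.2.2 x hx, zero_mul])
  refine ⟨n * Ca + n * Cb + Cc + n * Cd + Ce, by positivity, ?_⟩
  intro h ε z ρ hh _ hε _ hρ
  have D0 : ∀ k, Der (Zi 0 ε z k) (Zi 1 ε z k) := fun k => Mo_der hε 0 (z k)
  have D1 : ∀ k, Der (Zi 1 ε z k) (Zi 2 ε z k) := fun k => Mo_der hε 1 (z k)
  have D2 : ∀ k, Der (Zi 2 ε z k) (Zi 3 ε z k) := fun k => Mo_der hε 2 (z k)
  have hN0 : ∑ k, ‖Zi 0 ε z k‖ ≤ n * ‖z‖ := by
    calc ∑ k, ‖Zi 0 ε z k‖ ≤ ∑ _k : Fin n, ‖z‖ := Finset.sum_le_sum fun k _ =>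
          (Mo_zero_norm hε (z k)).trans (PiLp.norm_apply_le z k)
      _ = n * ‖z‖ := by
          rw [Finset.sum_const, Finset.card_univ, Fintype.card_fin, nsmul_eq_mul]
  -- the sum of the rows
  have key : ∀ j, -(1 / 2) * h * (p.mu j * ip (ph p.L) (Zi 1 ε z j) (Zi 1 ε z j)) +
      ip (ph p.L) (Gf p M x0 ε h z j) (G1f p M x0 ε h z j + (k0 p.L x0 M (Zi 0 ε z) j + ρ j)) -
      h * (p.mu j * ip (bb p.L) (Zi 1 ε z j)
        (G1f p M x0 ε h z j + (k0 p.L x0 M (Zi 0 ε z) j + ρ j))) ≤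
      -(1 / 4) * ip (bb p.L) (aM M (aw p.L x0) (Zi 0 ε z) j) (aM M (aw p.L x0) (Zi 0 ε z) j) +
      Ca * h * (‖Zi 1 ε z j‖ * ∑ k, ‖Zi 0 ε z k‖) +
      Cb * h * (∑ k, ip (wI p.L) (Zi 1 ε z k) (Zi 1 ε z k)) +
      Cc * h ^ 2 * ‖Zi 1 ε z j‖ ^ 2 + Cd * (∑ k, ip (damp p.L) (Zi 0 ε z k) (Zi 0 ε z k)) +
      Ce * ‖ρ j‖ ^ 2 := by
    intro j
    refine le_trans (le_of_eq ?_) (hR h (p.mu j) (Zi 0 ε z) (Zi 1 ε z) (Zi 2 ε z) (ρ j) j hh
      (p.hmu j) (hmu j) (hρ j))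
    exact row_identity hL M x0 h (p.mu j) D0 D1 D2 (ρ j) j hq rfl rfl rfl rfl
  have hsum := Finset.sum_le_sum fun j (_ : j ∈ Finset.univ) => key j
  have eL : Rf p M x0 ε h z (fun j => k0 p.L x0 M (Zi 0 ε z) j + ρ j) =
      ∑ j, (-(1 / 2) * h * (p.mu j * ip (ph p.L) (Zi 1 ε z j) (Zi 1 ε z j)) +
      ip (ph p.L) (Gf p M x0 ε h z j) (G1f p M x0 ε h z j + (k0 p.L x0 M (Zi 0 ε z) j + ρ j)) -
      h * (p.mu j * ip (bb p.L) (Zi 1 ε z j)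
        (G1f p M x0 ε h z j + (k0 p.L x0 M (Zi 0 ε z) j + ρ j)))) := by
    unfold Rf ip
    rw [Finset.sum_sub_distrib, Finset.sum_add_distrib, Finset.mul_sum, Finset.mul_sum]
  rw [eL]
  refine hsum.trans ?_
  simp only [Finset.sum_add_distrib, ← Finset.mul_sum, Finset.sum_const, Finset.card_univ,
    Fintype.card_fin, nsmul_eq_mul, ← Finset.sum_mul]
  have e1 : (∑ k, ip (wI p.L) (Zi 1 ε z k) (Zi 1 ε z k)) =
      ∑ j, ∫ x in Icc (-3 / 4) (p.L + 3 / 4), (Zi 1 ε z j x) ^ 2 :=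
    Finset.sum_congr rfl fun k _ => ip_wI _
  rw [e1]
  unfold ip
  obtain ⟨S1, hS1⟩ : ∃ S1, S1 = ∑ j, inner ℝ (mulOp (bb p.L) (aM M (aw p.L x0) (Zi 0 ε z) j))
            (aM M (aw p.L x0) (Zi 0 ε z) j) := ⟨_, rfl⟩
  obtain ⟨S2, hS2⟩ : ∃ S2, S2 = ∑ j, inner ℝ (mulOp (damp p.L) (Zi 0 ε z j)) (Zi 0 ε z j) :=
    ⟨_, rfl⟩
  obtain ⟨S3, hS3⟩ : ∃ S3, S3 = ∑ j, ∫ x in Icc (-3 / 4) (p.L + 3 / 4), (Zi 1 ε z j x) ^ 2 :=
    ⟨_, rfl⟩
  obtain ⟨S4, hS4⟩ : ∃ S4, S4 = ∑ j, ‖Zi 1 ε z j‖ := ⟨_, rfl⟩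
  obtain ⟨S5, hS5⟩ : ∃ S5, S5 = ∑ j, ‖Zi 1 ε z j‖ ^ 2 := ⟨_, rfl⟩
  obtain ⟨S6, hS6⟩ : ∃ S6, S6 = ∑ j, ‖ρ j‖ ^ 2 := ⟨_, rfl⟩
  obtain ⟨N0, hN⟩ : ∃ N0, N0 = ∑ k, ‖Zi 0 ε z k‖ := ⟨_, rfl⟩
  have n2 : 0 ≤ S2 := hS2 ▸ Finset.sum_nonneg fun k _ =>
    ip_nonneg (Bm_of (Mlt_damp hL)) (fun x => ((damp_facts hL).1 x).1) _
  have n3 : 0 ≤ S3 := hS3 ▸ Finset.sum_nonneg fun k _ => integral_nonneg fun x => sq_nonneg _
  have n4 : 0 ≤ S4 := hS4 ▸ Finset.sum_nonneg fun k _ => norm_nonneg _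
  have n5 : 0 ≤ S5 := hS5 ▸ Finset.sum_nonneg fun k _ => sq_nonneg _
  have n6 : 0 ≤ S6 := hS6 ▸ Finset.sum_nonneg fun k _ => sq_nonneg _
  rw [← hS1, ← hS2, ← hS3, ← hS4, ← hS5, ← hS6, ← hN]
  rw [← hN] at hN0
  have nz : 0 ≤ ‖z‖ := norm_nonneg z
  have nn : (0 : ℝ) ≤ n := Nat.cast_nonneg n
  have f1 : Ca * h * (S4 * N0) ≤ Ca * h * (S4 * (n * ‖z‖)) := by gcongr
  have g1 : 0 ≤ h * S3 := by positivity
  have g2 : 0 ≤ h * S4 * ‖z‖ := by positivity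
  have g3 : 0 ≤ h ^ 2 * S5 := by positivity
  have k1 : 0 ≤ n * Ca := by positivity
  have k2 : 0 ≤ n * Cb := by positivity
  have k4 : 0 ≤ n * Cd := by positivity
  have r1 : (n * Cb) * (h * S3) ≤ (n * Ca + n * Cb + Cc + n * Cd + Ce) * (h * S3) :=
    mul_le_mul_of_nonneg_right (by linarith) g1
  have r2 : (n * Ca) * (h * S4 * ‖z‖) ≤ (n * Ca + n * Cb + Cc + n * Cd + Ce) * (h * S4 * ‖z‖) :=
    mul_le_mul_of_nonneg_right (by linarith) g2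
  have r3 : Cc * (h ^ 2 * S5) ≤ (n * Ca + n * Cb + Cc + n * Cd + Ce) * (h ^ 2 * S5) :=
    mul_le_mul_of_nonneg_right (by linarith) g3
  have r4 : (n * Cd) * S2 ≤ (n * Ca + n * Cb + Cc + n * Cd + Ce) * S2 :=
    mul_le_mul_of_nonneg_right (by linarith) n2
  have r5 : Ce * S6 ≤ (n * Ca + n * Cb + Cc + n * Cd + Ce) * S6 :=
    mul_le_mul_of_nonneg_right (by linarith) n6
  linarith

end Pool.Agent.KG
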