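import Pool.Agent.Lib.KG.R_D1
import Pool.Agent.Lib.KG.R_D2
import Pool.Agent.Lib.KG.R_D3
import Pool.Agent.Lib.KG.R_D4

/-!
# Row F3a: commutators of a multiplier and the mollifier
-/

set_option autoImplicit false

namespace Pool.Agent.KG

open MeasureTheory Filter Topology Set
open Pool.Agent.Kdv
open scoped ENNReal ContDiff InnerProductSpace

variable {n : ℕ}

private theorem f3a_lip {m : ℝ → ℝ} (hm : Mlt m) :
    ∃ C : ℝ, 0 ≤ C ∧ ∀ x y : ℝ, |m x - m y| ≤ C * |x - y| := by
  obtain ⟨C, hC⟩ := hm.2 1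
  have hC0 : 0 ≤ C := (abs_nonneg _).trans (hC 0)
  refine ⟨C, hC0, fun x y => ?_⟩
  have h := lipschitzWith_of_nnnorm_deriv_le (C := ⟨C, hC0⟩) (hm.1.differentiable (by simp))
    (fun x => by
      have h1 := hC x
      rw [iteratedDeriv_one] at h1
      exact h1)
  have h2 := h.dist_le_mul x y
  rwa [Real.dist_eq, Real.dist_eq] at h2

private theorem f3a_mul {m : ℝ → ℝ} (hm : Mlt m) (y : L2) :
    ∀ᵐ x ∂volume, mulOp m y x = m x * y x := by
  refine mulOp_ae hm.1.continuous.measurable ?_ y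
  obtain ⟨C, hC⟩ := hm.2 0
  refine ⟨C, fun x => ?_⟩
  have := hC x
  rwa [iteratedDeriv_zero] at this

private theorem f3a_int {k : ℝ → ℝ} (hk : Continuous k) (hc : HasCompactSupport k) (x : ℝ)
    (y : L2) : Integrable (fun s => k (x - s) * y s) volume := by
  have h1 : Continuous fun s => k (x - s) := hk.comp (continuous_sub_left x)
  have h2 : HasCompactSupport fun s => k (x - s) := hc.comp_homeomorph (Homeomorph.subLeft x)
  exact (h1.memLp_of_hasCompactSupport (p := 2) h2).integrable_mul (Lp.memLp y)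

theorem comm_bound {m : ℝ → ℝ} (hm : Mlt m) : ∃ C : ℝ, 0 ≤ C ∧ ∀ (ε : ℝ) (y : L2), 0 < ε →
    ‖Mo 0 ε (mulOp m y) - mulOp m (Mo 0 ε y)‖ ≤ C * ε * ‖y‖ := by
  obtain ⟨C, hC0, hC⟩ := f3a_lip hm
  refine ⟨C, hC0, fun ε y hε => ?_⟩
  obtain ⟨h1, h2, h3, h4, -, -⟩ := ker_smooth hε
  unfold Mo
  rw [iteratedDeriv_zero]
  have key : ‖cv (ker ε) (mulOp m y) - mulOp m (cv (ker ε) y)‖ ≤
      C * ε * ‖cv (ker ε) |y|‖ := by
    refine Lp.norm_le_mul_norm_of_ae_le_mul ?_
    filter_upwards [Lp.coeFn_sub (cv (ker ε) (mulOp m y)) (mulOp m (cv (ker ε) y)),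
      cv_ae h1.continuous h2 (mulOp m y), f3a_mul hm (cv (ker ε) y),
      cv_ae h1.continuous h2 y, cv_ae h1.continuous h2 |y|] with x a1 a2 a3 a4 a5
    rw [a1, Pi.sub_apply, a2, a3, a4, a5]
    have e1 : cvf (ker ε) (mulOp m y) x - m x * cvf (ker ε) y x =
        ∫ s, ker ε (x - s) * ((m s - m x) * y s) := by
      unfold cvf
      rw [← integral_const_mul, ← integral_sub (f3a_int h1.continuous h2 x _)
        ((f3a_int h1.continuous h2 x y).const_mul _)]
      refine integral_congr_ae ?_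
      filter_upwards [f3a_mul hm y] with s b1
      rw [b1]
      ring
    have e2 : cvf (ker ε) |y| x = ∫ s, ker ε (x - s) * |y s| := by
      unfold cvf
      refine integral_congr_ae ?_
      filter_upwards [Lp.coeFn_abs y] with s b1
      rw [b1]
    have i1 : Integrable (fun s => ker ε (x - s) * |y s|) volume := by
      refine (f3a_int h1.continuous h2 x y).norm.congr (Eventually.of_forall fun s => ?_)
      simp only [norm_mul, Real.norm_eq_abs]
      rw [abs_of_nonneg (h4 _)]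
    have e3 : ‖∫ s, ker ε (x - s) * ((m s - m x) * y s)‖ ≤
        ∫ s, C * ε * (ker ε (x - s) * |y s|) := by
      refine (norm_integral_le_integral_norm _).trans ?_
      refine integral_mono_of_nonneg (Eventually.of_forall fun s => norm_nonneg _)
        (i1.const_mul _) (Eventually.of_forall fun s => ?_)
      simp only [norm_mul, Real.norm_eq_abs]
      rw [abs_of_nonneg (h4 _)]
      by_cases hs : ε ≤ |x - s|
      · rw [h3 _ hs]
        simp
      · push Not at hs
        have b2 : |m s - m x| ≤ C * ε := by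
          refine (hC s x).trans (mul_le_mul_of_nonneg_left ?_ hC0)
          rw [abs_sub_comm]
          exact hs.le
        calc ker ε (x - s) * (|m s - m x| * |y s|)
            ≤ ker ε (x - s) * ((C * ε) * |y s|) := by
              refine mul_le_mul_of_nonneg_left ?_ (h4 _)
              exact mul_le_mul_of_nonneg_right b2 (abs_nonneg _)
          _ = C * ε * (ker ε (x - s) * |y s|) := by ring
    rw [e1]
    refine e3.trans ?_
    rw [integral_const_mul, ← e2]
    refine mul_le_mul_of_nonneg_left (Real.le_norm_self _) (by positivity)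
  refine key.trans ?_
  have h5 : ‖cv (ker ε) |y|‖ ≤ ‖y‖ := (cv_ker_norm hε _).trans_eq (norm_abs_eq_norm y)
  exact mul_le_mul_of_nonneg_left h5 (by positivity)

/-- The same with a derivative: `a ζ_x` and the mollification of `a v_x`, when the support of `a`
is in `[-3/4, L + 3/4]`. -/
theorem comm_deriv {L : ℝ} (hL : 0 < L) {m : ℝ → ℝ} (hm : Mlt m)
    (hm0 : ∀ x, x ∉ Icc (-3 / 4) (L + 3 / 4) → m x = 0) : ∃ C : ℝ, 0 ≤ C ∧
    ∀ (ε : ℝ) (v : V1 L), 0 < ε → ε ≤ 1 / 8 →
      ‖Mo 0 ε (mulOp m (V1.d L v)) - mulOp m (Mo 1 ε (V1.u L v))‖ ≤ C * ε * ‖V1.d L v‖ := by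
  obtain ⟨C, hC0, hC⟩ := comm_bound hm
  refine ⟨C, hC0, fun ε v hε hε' => ?_⟩
  have h1 : mulOp m (Mo 1 ε (V1.u L v)) = mulOp m (Mo 0 ε (V1.d L v)) := by
    refine Lp.ext ?_
    filter_upwards [f3a_mul hm (Mo 1 ε (V1.u L v)), f3a_mul hm (Mo 0 ε (V1.d L v)),
      (cv_ker_inside hL hε v).1] with x a1 a2 a3
    rw [a1, a2]
    by_cases hx : x ∈ Icc (-3 / 4) (L + 3 / 4)
    · have hx' : x ∈ Ioo (-1 + ε) (L + 1 - ε) := ⟨by linarith [hx.1], by linarith [hx.2]⟩
      unfold Mo
      rw [iteratedDeriv_one, iteratedDeriv_zero, a3 hx']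
    · rw [hm0 x hx, zero_mul, zero_mul]
  rw [h1]
  exact hC ε _ hε

end Pool.Agent.KG
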