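import Pool.Agent.Lib.KG.R_D1
import Pool.Agent.Lib.KG.R_D2
import Pool.Agent.Lib.KG.R_D3
import Pool.Agent.Lib.KG.R_D4

/-!
# Row F3b: the mollification of the quadratic term
-/

set_option autoImplicit false

namespace Pool.Agent.KG

open MeasureTheory Filter Topology Set
open Pool.Agent.Kdv
open scoped ENNReal ContDiff InnerProductSpace

variable {n : ℕ}

/-- Cauchy-Schwarz with a weight. -/
private theorem f3b_cs {a w : ℝ → ℝ} (hw : ∀ s, 0 ≤ w s) (i0 : Integrable w volume)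
    (i1 : Integrable (fun s => a s * w s) volume) (i2 : Integrable (fun s => a s ^ 2 * w s) volume) :
    (∫ s, a s * w s) ^ 2 ≤ (∫ s, a s ^ 2 * w s) * ∫ s, w s := by
  have h : ∀ t : ℝ, 0 ≤ (∫ s, w s) * (t * t) + (-(2 * ∫ s, a s * w s)) * t +
      ∫ s, a s ^ 2 * w s := by
    intro t
    have h1 : 0 ≤ ∫ s, (a s - t) ^ 2 * w s :=
      integral_nonneg fun s => mul_nonneg (sq_nonneg _) (hw s)
    have h2 : ∫ s, (a s - t) ^ 2 * w s = (∫ s, a s ^ 2 * w s) - 2 * t * (∫ s, a s * w s) +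
        t ^ 2 * ∫ s, w s := by
      have e1 : ∀ s, (a s - t) ^ 2 * w s = a s ^ 2 * w s - 2 * t * (a s * w s) + t ^ 2 * w s := by
        intro s
        ring
      have i3 : Integrable (fun s => a s ^ 2 * w s - 2 * t * (a s * w s)) volume :=
        i2.sub (i1.const_mul _)
      rw [integral_congr_ae (Eventually.of_forall e1), integral_add i3
        (i0.const_mul _), integral_sub i2 (i1.const_mul _), integral_const_mul,
        integral_const_mul]
    rw [h2] at h1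
    linarith
  have h3 := discrim_le_zero h
  unfold discrim at h3
  nlinarith [h3]

/-- The estimate `L¹ → L²`. -/
private theorem f3b_l1 {k : ℝ → ℝ} (hk : Continuous k) (hc : HasCompactSupport k) {y : L2}
    {F : ℝ → ℝ} (hF : Integrable F volume) (h : ∀ᵐ x ∂volume, |y x| ≤ F x) :
    ‖cv k y‖ ^ 2 ≤ (∫ s, k s ^ 2) * (∫ s, F s) ^ 2 := by
  have hF0 : 0 ≤ ∫ s, F s := by
    refine integral_nonneg_of_ae ?_
    filter_upwards [h] with s hs
    exact (abs_nonneg _).trans hs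
  have iy : Integrable (fun s => |y s|) volume := by
    refine Integrable.mono' hF (Lp.memLp y).1.norm ?_
    filter_upwards [h] with s hs
    rw [Real.norm_eq_abs, abs_abs]
    exact hs
  have hyF : ∫ s, |y s| ≤ ∫ s, F s := integral_mono_ae iy hF h
  have hy0 : 0 ≤ ∫ s, |y s| := integral_nonneg fun s => abs_nonneg _
  have ik2 : Integrable (fun s => k s ^ 2) volume := by
    have := (hk.memLp_of_hasCompactSupport (p := 2) (μ := volume) hc).integrable_sq
    exact this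
  obtain ⟨K, hK⟩ := hk.bounded_above_of_compact_support hc
  have hconv : ∀ x, (convolution (fun s => |y s|) (fun s => k s ^ 2)
      (ContinuousLinearMap.mul ℝ ℝ) volume) x = ∫ s, k (x - s) ^ 2 * |y s| := by
    intro x
    unfold convolution
    refine integral_congr_ae (Eventually.of_forall fun s => ?_)
    simp only [ContinuousLinearMap.mul_apply']
    exact mul_comm _ _
  have c1 := iy.integrable_convolution (ContinuousLinearMap.mul ℝ ℝ) ik2
  have c2 := integral_convolution (L := ContinuousLinearMap.mul ℝ ℝ) iy ik2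
  have c3 : (convolution (fun s => |y s|) (fun s => k s ^ 2)
      (ContinuousLinearMap.mul ℝ ℝ) volume) = fun x => ∫ s, k (x - s) ^ 2 * |y s| :=
    funext hconv
  rw [c3] at c1 c2
  simp only [ContinuousLinearMap.mul_apply'] at c2
  have key : ∀ᵐ x ∂volume, (cv k y) x ^ 2 ≤ (∫ s, k (x - s) ^ 2 * |y s|) * ∫ s, |y s| := by
    filter_upwards [cv_ae hk hc y] with x hx
    rw [hx]
    unfold cvf
    have hkx : Continuous fun s => k (x - s) := hk.comp (continuous_sub_left x)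
    have j1 : Integrable (fun s => |k (x - s)| * |y s|) volume := by
      refine iy.bdd_mul hkx.abs.aestronglyMeasurable (c := K)
        (Eventually.of_forall fun s => ?_)
      rw [Real.norm_eq_abs, abs_abs]
      exact hK _
    have j2 : Integrable (fun s => |k (x - s)| ^ 2 * |y s|) volume := by
      refine iy.bdd_mul (hkx.abs.pow 2).aestronglyMeasurable (c := K ^ 2)
        (Eventually.of_forall fun s => ?_)
      rw [norm_pow, Real.norm_eq_abs, abs_abs]
      exact pow_le_pow_left₀ (abs_nonneg _) (hK _) 2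
    have b1 : |∫ s, k (x - s) * y s| ≤ ∫ s, |k (x - s)| * |y s| := by
      refine abs_integral_le_integral_abs.trans_eq ?_
      exact integral_congr_ae (Eventually.of_forall fun s => abs_mul _ _)
    have b2 := f3b_cs (a := fun s => |k (x - s)|) (w := fun s => |y s|)
      (fun s => abs_nonneg _) iy j1 j2
    have b3 : (∫ s, k (x - s) * y s) ^ 2 ≤ (∫ s, |k (x - s)| * |y s|) ^ 2 :=
      sq_le_sq' (by linarith [(abs_le.1 b1).1]) (abs_le.1 b1).2
    refine b3.trans (b2.trans_eq ?_)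
    congr 1
    refine integral_congr_ae (Eventually.of_forall fun s => ?_)
    simp only [sq_abs]
  rw [AgmAux.norm_sq]
  calc ∫ x, (cv k y) x ^ 2 ≤ ∫ x, (∫ s, k (x - s) ^ 2 * |y s|) * ∫ s, |y s| :=
        integral_mono_of_nonneg (Eventually.of_forall fun x => sq_nonneg _) (c1.mul_const _) key
    _ = (∫ s, k s ^ 2) * (∫ s, |y s|) ^ 2 := by
        rw [integral_mul_const, c2]
        ring
    _ ≤ (∫ s, k s ^ 2) * (∫ s, F s) ^ 2 := by
        refine mul_le_mul_of_nonneg_left ?_ (integral_nonneg fun s => sq_nonneg _)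
        exact pow_le_pow_left₀ hy0 hyF 2

/-- The products. -/
private theorem f3b_T {L : ℝ} (hL : 0 < L) {w : ℝ → ℝ} (hw : QuadrAux.Good L w) (p : V1 L)
    (r : L2) {ε K : ℝ} (hε : 0 < ε) (hK0 : 0 ≤ K) (hK : (∫ s, ker ε s ^ 2) ≤ K ^ 2) :
    ‖cv (ker ε) (QuadrAux.T w p r)‖ ≤ K * (‖V1.u L p‖ * ‖r‖) := by
  obtain ⟨h1, h2, -⟩ := ker_smooth hε
  have i1 : Integrable (fun x => |V1.u L p x * r x|) volume := (AgmAux.mul_int (V1.u L p) r).abs
  have h3 : ∀ᵐ x ∂volume, |QuadrAux.T w p r x| ≤ |V1.u L p x * r x| := by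
    filter_upwards [QuadrAux.T_ae hL hw p r] with x hx
    rw [hx, mul_assoc, abs_mul]
    exact mul_le_of_le_one_left (abs_nonneg _) (hw.abs x)
  have h4 := f3b_l1 h1.continuous h2 i1 h3
  have h5 : ∫ x, |V1.u L p x * r x| ≤ ‖V1.u L p‖ * ‖r‖ := by
    have h6 := AgmAux.cs (S := univ) MeasurableSet.univ |V1.u L p| |r|
    rw [setIntegral_univ, norm_abs_eq_norm, norm_abs_eq_norm] at h6
    refine le_trans (le_of_eq ?_) ((le_abs_self _).trans h6)
    refine integral_congr_ae ?_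
    filter_upwards [Lp.coeFn_abs (V1.u L p), Lp.coeFn_abs r] with x a1 a2
    rw [a1, a2, abs_mul]
  have h7 : 0 ≤ ∫ x, |V1.u L p x * r x| := integral_nonneg fun x => abs_nonneg _
  have h8 : ‖cv (ker ε) (QuadrAux.T w p r)‖ ^ 2 ≤ (K * (‖V1.u L p‖ * ‖r‖)) ^ 2 := by
    rw [mul_pow]
    refine h4.trans (mul_le_mul hK (pow_le_pow_left₀ h7 h5 2) (sq_nonneg _) (sq_nonneg _))
  exact abs_le_of_sq_le_sq' h8 (by positivity) |>.2

/-- The mollification of the quadratic term: `L¹ → L²`. -/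
theorem moll_q (p : Pr n) : ∃ C : ℝ, 0 ≤ C ∧ ∀ (ε : ℝ) (z : VV n p.L) (j : Fin n), 0 < ε →
    ε ≤ 1 / 8 → ‖Mo 0 ε (qmap n p.L p.g z j)‖ ^ 2 ≤
      C * ε⁻¹ * ‖inc n p.L z‖ ^ 2 * (Vx z + ‖inc n p.L z‖ ^ 2) := by
  obtain ⟨C, hC, hker⟩ := ker_bounds
  set G : ℝ := ∑ j, ∑ k, ∑ l, |p.g j k l| with hG
  have hG0 : 0 ≤ G := Finset.sum_nonneg fun j _ => Finset.sum_nonneg fun k _ =>
    Finset.sum_nonneg fun l _ => abs_nonneg _
  refine ⟨2 * C * G ^ 2, by positivity, fun ε z j hε _ => ?_⟩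
  have hK2 : (√(C / ε)) ^ 2 = C / ε := Real.sq_sqrt (by positivity)
  set K : ℝ := √(C / ε) with hKdef
  have hK0 : 0 ≤ K := Real.sqrt_nonneg _
  have hK : (∫ s, ker ε s ^ 2) ≤ K ^ 2 := by
    rw [hK2]
    exact (hker ε hε).2.1
  have hVx : 0 ≤ Vx z := Finset.sum_nonneg fun j _ => sq_nonneg _
  set V : ℝ := √(Vx z) with hV
  have hV0 : 0 ≤ V := Real.sqrt_nonneg _
  have hV2 : V ^ 2 = Vx z := Real.sq_sqrt hVx
  have hu : ∀ k, ‖V1.u p.L (z k)‖ ≤ ‖inc n p.L z‖ := fun k =>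
    QuadrAux.norm_comp_le (inc n p.L z) k
  have hd : ∀ l, ‖V1.d p.L (z l)‖ ≤ V := by
    intro l
    refine Real.le_sqrt_of_sq_le ?_
    exact Finset.single_le_sum (f := fun j => ‖dd j z‖ ^ 2) (fun j _ => sq_nonneg _)
      (Finset.mem_univ l)
  have hB : ∀ k l, ‖Mo 0 ε (QuadrAux.B (z k) (z l))‖ ≤
      K * (‖inc n p.L z‖ * (V + ‖inc n p.L z‖)) := by
    intro k l
    unfold Mo QuadrAux.B
    rw [iteratedDeriv_zero, map_add]
    refine (norm_add_le _ _).trans ?_
    have a1 := f3b_T p.hL (QuadrAux.good_chi p.L) (z k) (V1.d p.L (z l)) hε hK0 hK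
    have a2 := f3b_T p.hL (QuadrAux.good_dchi p.hL) (z k) (V1.u p.L (z l)) hε hK0 hK
    calc _ ≤ K * (‖V1.u p.L (z k)‖ * ‖V1.d p.L (z l)‖) +
          K * (‖V1.u p.L (z k)‖ * ‖V1.u p.L (z l)‖) := add_le_add a1 a2
      _ ≤ K * (‖inc n p.L z‖ * V) + K * (‖inc n p.L z‖ * ‖inc n p.L z‖) := by
          gcongr
          · exact hu k
          · exact hd l
          · exact hu k
          · exact hu l
      _ = _ := by ring
  have h1 : ‖Mo 0 ε (qmap n p.L p.g z j)‖ ≤
      G * (K * (‖inc n p.L z‖ * (V + ‖inc n p.L z‖))) := by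
    rw [QuadrAux.qmap_comp p.hL, map_neg, norm_neg, map_sum]
    have e1 : ∀ k, Mo 0 ε (∑ l, p.g j k l • QuadrAux.B (z k) (z l)) =
        ∑ l, p.g j k l • Mo 0 ε (QuadrAux.B (z k) (z l)) := by
      intro k
      rw [map_sum]
      exact Finset.sum_congr rfl fun l _ => map_smul _ _ _
    rw [Finset.sum_congr rfl fun k _ => e1 k]
    have e2 : ‖∑ k, ∑ l, p.g j k l • Mo 0 ε (QuadrAux.B (z k) (z l))‖ ≤
        ∑ k, ∑ l, |p.g j k l| * (K * (‖inc n p.L z‖ * (V + ‖inc n p.L z‖))) := by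
      refine (norm_sum_le _ _).trans (Finset.sum_le_sum fun k _ => ?_)
      refine (norm_sum_le _ _).trans (Finset.sum_le_sum fun l _ => ?_)
      rw [norm_smul, Real.norm_eq_abs]
      exact mul_le_mul_of_nonneg_left (hB k l) (abs_nonneg _)
    refine e2.trans ?_
    rw [hG]
    simp only [← Finset.sum_mul]
    refine mul_le_mul_of_nonneg_right ?_ (by positivity)
    exact Finset.single_le_sum (f := fun j => ∑ k, ∑ l, |p.g j k l|)
      (fun j _ => Finset.sum_nonneg fun k _ => Finset.sum_nonneg fun l _ => abs_nonneg _)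
      (Finset.mem_univ j)
  have h2 : ‖Mo 0 ε (qmap n p.L p.g z j)‖ ^ 2 ≤
      (G * (K * (‖inc n p.L z‖ * (V + ‖inc n p.L z‖)))) ^ 2 :=
    pow_le_pow_left₀ (norm_nonneg _) h1 2
  refine h2.trans ?_
  have h3 : (G * (K * (‖inc n p.L z‖ * (V + ‖inc n p.L z‖)))) ^ 2 =
      G ^ 2 * (C / ε) * ‖inc n p.L z‖ ^ 2 * (V + ‖inc n p.L z‖) ^ 2 := by
    rw [← hK2]
    ring
  have h4 : (V + ‖inc n p.L z‖) ^ 2 ≤ 2 * (Vx z + ‖inc n p.L z‖ ^ 2) := by
    rw [← hV2]
    nlinarith [sq_nonneg (V - ‖inc n p.L z‖)]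
  rw [h3]
  calc G ^ 2 * (C / ε) * ‖inc n p.L z‖ ^ 2 * (V + ‖inc n p.L z‖) ^ 2
      ≤ G ^ 2 * (C / ε) * ‖inc n p.L z‖ ^ 2 * (2 * (Vx z + ‖inc n p.L z‖ ^ 2)) :=
        mul_le_mul_of_nonneg_left h4 (by positivity)
    _ = _ := by ring

end Pool.Agent.KG
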