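import Pool.Agent.Lib.KG.R_F3a
import Pool.Agent.Lib.KG.R_F3b
import Pool.Agent.Lib.KG.R_U1

/-!
# The rest of the rate of change (row F4)
-/

set_option autoImplicit false

namespace Pool.Agent.KG

open MeasureTheory Filter Topology Set
open Pool.Agent.Kdv
open scoped ENNReal ContDiff InnerProductSpace

variable {n : ℕ}

theorem F4_meas {m : ℝ → ℝ} (h : Mlt m) : Measurable m ∧ ∃ C, ∀ x, |m x| ≤ C :=
  ⟨h.1.continuous.measurable, by simpa using h.2 0⟩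

theorem F4_mul_ae {m : ℝ → ℝ} (h : Measurable m ∧ ∃ C, ∀ x, |m x| ≤ C) (y : L2) :
    ∀ᵐ x ∂volume, mulOp m y x = m x * y x := mulOp_ae h.1 h.2 y

/-- Linear combinations of multipliers. -/
theorem F4_comb {m1 m2 : ℝ → ℝ} (h1 : Measurable m1 ∧ ∃ C, ∀ x, |m1 x| ≤ C)
    (h2 : Measurable m2 ∧ ∃ C, ∀ x, |m2 x| ≤ C) (a b : ℝ) (y : L2) :
    mulOp (fun x => a * m1 x - b * m2 x) y = a • mulOp m1 y - b • mulOp m2 y := by
  have h : Measurable (fun x => a * m1 x - b * m2 x) ∧ ∃ C, ∀ x, |a * m1 x - b * m2 x| ≤ C := by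
    refine ⟨(h1.1.const_mul a).sub (h2.1.const_mul b), ?_⟩
    obtain ⟨C1, hC1⟩ := h1.2
    obtain ⟨C2, hC2⟩ := h2.2
    refine ⟨|a| * C1 + |b| * C2, fun x => ?_⟩
    refine (abs_sub _ _).trans ?_
    rw [abs_mul, abs_mul]
    exact add_le_add (mul_le_mul_of_nonneg_left (hC1 x) (abs_nonneg _))
      (mul_le_mul_of_nonneg_left (hC2 x) (abs_nonneg _))
  refine Lp.ext ?_
  filter_upwards [F4_mul_ae h y, F4_mul_ae h1 y, F4_mul_ae h2 y,
    Lp.coeFn_sub (a • mulOp m1 y) (b • mulOp m2 y), Lp.coeFn_smul a (mulOp m1 y),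
    Lp.coeFn_smul b (mulOp m2 y)] with x e1 e2 e3 e4 e5 e6
  rw [e1, e4, Pi.sub_apply, e5, e6, Pi.smul_apply, Pi.smul_apply, e2, e3, smul_eq_mul, smul_eq_mul]
  ring

/-! ### Supports -/

/-- The functions supported in an interval. -/
noncomputable def F4_S (a b : ℝ) : Submodule ℝ L2 where
  carrier := {y | ∀ᵐ x ∂volume, x ∉ Icc a b → y x = 0}
  add_mem' := by
    rintro y z hy hz
    filter_upwards [hy, hz, Lp.coeFn_add y z] with x h1 h2 h3 hx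
    rw [h3, Pi.add_apply, h1 hx, h2 hx, add_zero]
  zero_mem' := by
    filter_upwards [Lp.coeFn_zero ℝ 2 (volume : Measure ℝ)] with x h1 _
    rw [h1]
    rfl
  smul_mem' := by
    rintro c y hy
    filter_upwards [hy, Lp.coeFn_smul c y] with x h1 h2 hx
    rw [h2, Pi.smul_apply, h1 hx, smul_zero]

theorem F4_S_mo {L ε : ℝ} (hε : 0 < ε) (hε8 : ε ≤ 1 / 8) (i : ℕ) {y : L2}
    (hy : y ∈ F4_S (-1) (L + 1)) : Mo i ε y ∈ F4_S (-2) (L + 2) := by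
  filter_upwards [Mo_local hε i hy] with x h1 hx
  refine h1 fun h2 => hx ⟨?_, ?_⟩
  · linarith [h2.1]
  · linarith [h2.2]

theorem F4_S_mul {a b : ℝ} {m : ℝ → ℝ} (h : Measurable m ∧ ∃ C, ∀ x, |m x| ≤ C)
    (hm : ∀ x, x ∉ Icc a b → m x = 0) (y : L2) : mulOp m y ∈ F4_S a b := by
  filter_upwards [F4_mul_ae h y] with x h1 hx
  rw [h1, hm x hx, zero_mul]

theorem F4_S_le {L : ℝ} {y : L2} (hy : y ∈ F4_S (-1) (L + 1)) : y ∈ F4_S (-2) (L + 2) := by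
  have hy' : ∀ᵐ x ∂volume, x ∉ Icc (-1) (L + 1) → y x = 0 := hy
  have h3 : ∀ᵐ x ∂volume, x ∉ Icc (-2) (L + 2) → y x = 0 := by
    filter_upwards [hy'] with x h1 hx
    exact h1 fun h2 => hx ⟨by linarith [h2.1], by linarith [h2.2]⟩
  exact h3

theorem F4_J {L x : ℝ} (hx : x ∉ Icc (-1) (L + 1)) : x ∉ J L :=
  fun h => hx ⟨h.1.le, h.2.le⟩

theorem F4_th {L : ℝ} (hL : 0 < L) {x : ℝ} (hx : x ∉ Icc (-3 / 4) (L + 3 / 4)) :
    th L x = 0 ∧ deriv (th L) x = 0 :=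
  (th_facts hL).2.2.1 x fun h => hx ⟨h.1.le, h.2.le⟩

theorem F4_th' {L : ℝ} (hL : 0 < L) {x : ℝ} (hx : x ∉ Icc (-1) (L + 1)) :
    th L x = 0 ∧ deriv (th L) x = 0 :=
  F4_th hL fun h => hx ⟨by linarith [h.1], by linarith [h.2]⟩

theorem F4_qout (p : Pr n) (z : VV n p.L) (j : Fin n) :
    ∀ᵐ x ∂volume, x ∉ Icc (-1) (p.L + 1) → qmap n p.L p.g z j x = 0 := by
  filter_upwards [qmap_ae p.hL p.g z j] with x h1 hx
  rw [h1]
  simp only [QuadrAux.chi_out p.L (F4_J hx), QuadrAux.dchi_out p.hL (F4_J hx), mul_zero, zero_mul,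
    add_zero, Finset.sum_const_zero, neg_zero]

theorem F4_lout (p : Pr n) (z : VV n p.L) (j : Fin n) :
    ∀ᵐ x ∂volume, x ∉ Icc (-1) (p.L + 1) → lmap n p.L p.S z j x = 0 := by
  filter_upwards [lmap_ae p.L p.S z j] with x h1 hx
  rw [h1]
  simp only [QuadrAux.chi_out p.L (F4_J hx), QuadrAux.dchi_out p.hL (F4_J hx), mul_zero, zero_mul,
    add_zero, Finset.sum_const_zero, neg_zero]

/-! ### The commutators -/

/-- The commutator with a multiplier. -/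
noncomputable def F4_c (ε : ℝ) (m : ℝ → ℝ) (y : L2) : L2 :=
  Mo 0 ε (mulOp m y) - mulOp m (Mo 0 ε y)

/-- The commutator with the derivative. -/
noncomputable def F4_e {L : ℝ} (ε : ℝ) (m : ℝ → ℝ) (v : V1 L) : L2 :=
  Mo 0 ε (mulOp m (V1.d L v)) - mulOp m (Mo 1 ε (V1.u L v))

/-- The terms with the constant part of the background. -/
noncomputable def F4_H (p : Pr n) (Z : Fin n → ℝ) (z : VV n p.L) (j : Fin n) : L2 :=
  ∑ k, Hm p.g Z j k • (mulOp (th p.L) (dd k z) + (1 / 2 : ℝ) • mulOp (deriv (th p.L)) (uu k z))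

theorem F4_mth {L : ℝ} (hL : 0 < L) : Measurable (th L) ∧ ∃ C, ∀ x, |th L x| ≤ C :=
  F4_meas (Mlt_th hL)

theorem F4_mdth {L : ℝ} (hL : 0 < L) : Measurable (deriv (th L)) ∧ ∃ C, ∀ x, |deriv (th L) x| ≤ C :=
  F4_meas (Mlt_th hL).der

theorem F4_maw {L : ℝ} (hL : 0 < L) (c : ℝ) : Measurable (aw L c) ∧ ∃ C, ∀ x, |aw L c x| ≤ C :=
  F4_meas (Mlt_aw hL c)

theorem F4_Mtw {L : ℝ} (hL : 0 < L) (c : ℝ) : Mlt fun x => deriv (th L) x * wt L c x :=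
  (Mlt_th hL).der.mul (Mlt_wt hL c).1

theorem F4_mtw {L : ℝ} (hL : 0 < L) (c : ℝ) : Measurable (fun x => deriv (th L) x * wt L c x) ∧
    ∃ C, ∀ x, |deriv (th L) x * wt L c x| ≤ C := F4_meas (F4_Mtw hL c)

/-- The derivative of the coefficient `a`. -/
theorem F4_daw {L : ℝ} (hL : 0 < L) (c : ℝ) :
    deriv (aw L c) = fun x => 1 * (deriv (th L) x * wt L c x) - (-1) * th L x := by
  funext x
  have h1 : DifferentiableAt ℝ (th L) x :=
    ((Mlt_th hL).1.differentiable (by simp)).differentiableAt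
  have h2 : DifferentiableAt ℝ (wt L c) x :=
    ((Mlt_wt hL c).1.1.differentiable (by simp)).differentiableAt
  have h3 : deriv (aw L c) x = deriv (th L) x * wt L c x + th L x * deriv (wt L c) x := by
    have e : aw L c = fun x => th L x * wt L c x := rfl
    rw [e]
    exact deriv_fun_mul h1 h2
  rw [h3, (Mlt_wt hL c).2]
  by_cases hx : x ∈ Icc (-3 / 4) (L + 3 / 4)
  · rw [(bb_facts' hL).2.1 x ⟨by linarith [hx.1], by linarith [hx.2]⟩]
    ring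
  · rw [(F4_th hL hx).1]
    ring

section main

variable (p : Pr n) {e : Fin n → ℝ} {α : ℝ} (x0 : ℝ)

theorem F4_Hm {X : Fin n → ℝ} {c : ℝ} {Z : Fin n → ℝ} (h : ∀ j, X j = c * e j + Z j)
    (j k : Fin n) : Hm p.g X j k = c * Hm p.g e j k + Hm p.g Z j k := by
  unfold Hm
  rw [Finset.mul_sum, ← Finset.sum_add_distrib]
  refine Finset.sum_congr rfl fun l _ => ?_
  rw [h]
  ring

/-- The multiplication operators of the transport term. -/
theorem F4_t1 (hα : 0 < α) {h : ℝ} {X : ℝ → Fin n → ℝ} {Z : Fin n → ℝ}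
    (hX : ∀ x ∈ Icc (-1) (p.L + 1), ∀ j, X x j = -(α * h)⁻¹ * (x + x0) * e j + Z j)
    (j k : Fin n) (y : L2) : mulOp (fun x => -(th p.L x * Hm p.g (X x) j k)) y =
      (h⁻¹ * (Hm p.g e j k / α)) • mulOp (aw p.L x0) y - Hm p.g Z j k • mulOp (th p.L) y := by
  rw [← F4_comb (F4_maw p.hL x0) (F4_mth p.hL)]
  refine congrArg (fun m => mulOp m y) (funext fun x => ?_)
  by_cases hx : x ∈ Icc (-1) (p.L + 1)
  · rw [F4_Hm p (hX x hx)]
    unfold aw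
    rw [wt_J p.hL ⟨by linarith [hx.1], by linarith [hx.2]⟩, mul_inv]
    field_simp
    ring
  · unfold aw
    rw [(F4_th' p.hL hx).1]
    ring

theorem F4_t2 (hα : 0 < α) {h : ℝ} {X X1 : ℝ → Fin n → ℝ} {Z : Fin n → ℝ}
    (hX : ∀ x ∈ Icc (-1) (p.L + 1), ∀ j, X x j = -(α * h)⁻¹ * (x + x0) * e j + Z j)
    (hX1 : ∀ x ∈ Icc (-1) (p.L + 1), ∀ j, X1 x j = -(α * h)⁻¹ * e j)
    (j k : Fin n) (y : L2) : mulOp (fun x => -(1 / 2 * deriv (th p.L) x * Hm p.g (X x) j k +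
      th p.L x * Hm p.g (X1 x) j k)) y =
      (h⁻¹ * (Hm p.g e j k / α)) • ((1 / 2 : ℝ) • mulOp (fun x => deriv (th p.L) x * wt p.L x0 x) y +
        mulOp (th p.L) y) - (1 / 2 * Hm p.g Z j k) • mulOp (deriv (th p.L)) y := by
  have h1 : (1 / 2 : ℝ) • mulOp (fun x => deriv (th p.L) x * wt p.L x0 x) y +
      mulOp (th p.L) y = mulOp (fun x => 1 / 2 * (deriv (th p.L) x * wt p.L x0 x) -
        (-1) * th p.L x) y := by
    rw [F4_comb (F4_mtw p.hL x0) (F4_mth p.hL), neg_one_smul, sub_neg_eq_add]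
  have h2 : Measurable (fun x => 1 / 2 * (deriv (th p.L) x * wt p.L x0 x) -
      (-1) * th p.L x) ∧ ∃ C, ∀ x, |1 / 2 * (deriv (th p.L) x * wt p.L x0 x) -
      (-1) * th p.L x| ≤ C := by
    refine ⟨((F4_mtw p.hL x0).1.const_mul _).sub ((F4_mth p.hL).1.const_mul _), ?_⟩
    obtain ⟨C1, hC1⟩ := (F4_mtw p.hL x0).2
    obtain ⟨C2, hC2⟩ := (F4_mth p.hL).2
    refine ⟨1 / 2 * C1 + C2, fun x => ?_⟩
    have a1 := abs_le.1 (hC1 x)
    have a2 := abs_le.1 (hC2 x)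
    rw [abs_le]
    constructor <;> linarith [a1.1, a1.2, a2.1, a2.2]
  rw [h1, ← F4_comb h2 (F4_mdth p.hL)]
  refine congrArg (fun m => mulOp m y) (funext fun x => ?_)
  by_cases hx : x ∈ Icc (-1) (p.L + 1)
  · have h3 : Hm p.g (X1 x) j k = -(α * h)⁻¹ * Hm p.g e j k := by
      have h4 := F4_Hm p (e := e) (X := X1 x) (c := -(α * h)⁻¹) (Z := fun _ => 0)
        (fun j => by rw [hX1 x hx, add_zero]) j k
      rw [h4]
      unfold Hm
      simp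
    rw [F4_Hm p (hX x hx), h3, wt_J p.hL ⟨by linarith [hx.1], by linarith [hx.2]⟩, mul_inv]
    field_simp
    ring
  · rw [(F4_th' p.hL hx).1, (F4_th' p.hL hx).2]
    ring

/-- The difference `o - k0`. -/
theorem F4_diff (hα : 0 < α) {h ε : ℝ} (hh : 0 < h) {X X1 : ℝ → Fin n → ℝ} {Z : Fin n → ℝ}
    (hX : ∀ x ∈ Icc (-1) (p.L + 1), ∀ j, X x j = -(α * h)⁻¹ * (x + x0) * e j + Z j)
    (hX1 : ∀ x ∈ Icc (-1) (p.L + 1), ∀ j, X1 x j = -(α * h)⁻¹ * e j) (z : VV n p.L) (j : Fin n) :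
    om p (fun j k => Hm p.g e j k / α) x0 ε h (inc n p.L z) (nl p X X1 h⁻¹ z) j -
        k0 p.L x0 (fun j k => Hm p.g e j k / α) (Zi 0 ε (inc n p.L z)) j =
      h • Mo 0 ε (qmap n p.L p.g z j) + h • Mo 0 ε (lmap n p.L p.S z j) -
        h • Mo 0 ε (F4_H p Z z j) +
      (∑ k, (Hm p.g e j k / α) • (F4_e ε (aw p.L x0) (z k) +
        (1 / 2 : ℝ) • F4_c ε (fun x => deriv (th p.L) x * wt p.L x0 x) (uu k z) +
        F4_c ε (th p.L) (uu k z))) - F4_c ε (damp p.L) (uu j z) := by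
  have e1 : tmap n p.L p.g X X1 z j = (∑ k, (h⁻¹ * (Hm p.g e j k / α)) •
      (mulOp (aw p.L x0) (dd k z) + ((1 / 2 : ℝ) •
        mulOp (fun x => deriv (th p.L) x * wt p.L x0 x) (uu k z) + mulOp (th p.L) (uu k z)))) -
      F4_H p Z z j := by
    unfold tmap F4_H
    rw [mkH_apply, sum_apply, ← Finset.sum_sub_distrib]
    refine Finset.sum_congr rfl fun k _ => ?_
    rw [add_apply, ContinuousLinearMap.comp_apply,
      ContinuousLinearMap.comp_apply, F4_t1 p x0 hα hX, F4_t2 p x0 hα hX hX1]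
    module
  have e2 : nl p X X1 h⁻¹ z j = qmap n p.L p.g z j + lmap n p.L p.S z j +
      tmap n p.L p.g X X1 z j - h⁻¹ • mulOp (damp p.L) (uu j z) := rfl
  have e3 : ∀ y : L2, mulOp (deriv (aw p.L x0)) y =
      mulOp (fun x => deriv (th p.L) x * wt p.L x0 x) y + mulOp (th p.L) y := by
    intro y
    rw [F4_daw p.hL, F4_comb (F4_mtw p.hL x0) (F4_mth p.hL), neg_one_smul, sub_neg_eq_add,
      one_smul]
  have e4 : h • Mo 0 ε (nl p X X1 h⁻¹ z j) = h • Mo 0 ε (qmap n p.L p.g z j) +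
      h • Mo 0 ε (lmap n p.L p.S z j) - h • Mo 0 ε (F4_H p Z z j) +
      (∑ k, (Hm p.g e j k / α) • (Mo 0 ε (mulOp (aw p.L x0) (dd k z)) + ((1 / 2 : ℝ) •
        Mo 0 ε (mulOp (fun x => deriv (th p.L) x * wt p.L x0 x) (uu k z)) +
        Mo 0 ε (mulOp (th p.L) (uu k z))))) - Mo 0 ε (mulOp (damp p.L) (uu j z)) := by
    have e5 : h • Mo 0 ε (∑ k, (h⁻¹ * (Hm p.g e j k / α)) •
        (mulOp (aw p.L x0) (dd k z) + ((1 / 2 : ℝ) •
          mulOp (fun x => deriv (th p.L) x * wt p.L x0 x) (uu k z) +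
            mulOp (th p.L) (uu k z)))) = ∑ k, (Hm p.g e j k / α) •
        (Mo 0 ε (mulOp (aw p.L x0) (dd k z)) + ((1 / 2 : ℝ) •
          Mo 0 ε (mulOp (fun x => deriv (th p.L) x * wt p.L x0 x) (uu k z)) +
            Mo 0 ε (mulOp (th p.L) (uu k z)))) := by
      rw [map_sum, Finset.smul_sum]
      refine Finset.sum_congr rfl fun k _ => ?_
      rw [map_smul, smul_smul, mul_inv_cancel_left₀ hh.ne', map_add, map_add, map_smul]
    rw [e2, e1, map_sub, map_add, map_add, map_sub, map_smul, smul_sub, smul_add, smul_add,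
      smul_sub, e5, smul_smul, mul_inv_cancel₀ hh.ne', one_smul]
    abel
  have e6 : om p (fun j k => Hm p.g e j k / α) x0 ε h (inc n p.L z) (nl p X X1 h⁻¹ z) j -
        k0 p.L x0 (fun j k => Hm p.g e j k / α) (Zi 0 ε (inc n p.L z)) j =
      h • Mo 0 ε (nl p X X1 h⁻¹ z j) -
      (∑ k, (Hm p.g e j k / α) • (mulOp (aw p.L x0) (Mo 1 ε (uu k z)) +
        ((1 / 2 : ℝ) • mulOp (fun x => deriv (th p.L) x * wt p.L x0 x) (Mo 0 ε (uu k z)) +
        mulOp (th p.L) (Mo 0 ε (uu k z))))) + mulOp (damp p.L) (Mo 0 ε (uu j z)) := by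
    unfold om k0 aM Zi
    simp only [inc_apply, e3]
    have e7 : (∑ k, (Hm p.g e j k / α) • (mulOp (aw p.L x0) (Mo 1 ε (uu k z)) +
        ((1 / 2 : ℝ) • mulOp (fun x => deriv (th p.L) x * wt p.L x0 x) (Mo 0 ε (uu k z)) +
        mulOp (th p.L) (Mo 0 ε (uu k z))))) =
        (∑ k, (Hm p.g e j k / α) • (mulOp (fun x => deriv (th p.L) x * wt p.L x0 x)
          (Mo 0 ε (uu k z)) + mulOp (th p.L) (Mo 0 ε (uu k z)))) +
        (∑ k, (Hm p.g e j k / α) • mulOp (aw p.L x0) (Mo 1 ε (uu k z))) -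
        (1 / 2 : ℝ) • (∑ k, (Hm p.g e j k / α) •
          mulOp (fun x => deriv (th p.L) x * wt p.L x0 x) (Mo 0 ε (uu k z))) := by
      rw [Finset.smul_sum, ← Finset.sum_add_distrib, ← Finset.sum_sub_distrib]
      refine Finset.sum_congr rfl fun k _ => ?_
      module
    rw [e7]
    module
  rw [e6, e4]
  have e8 : (∑ k, (Hm p.g e j k / α) • (F4_e ε (aw p.L x0) (z k) +
        (1 / 2 : ℝ) • F4_c ε (fun x => deriv (th p.L) x * wt p.L x0 x) (uu k z) +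
        F4_c ε (th p.L) (uu k z))) =
      (∑ k, (Hm p.g e j k / α) • (Mo 0 ε (mulOp (aw p.L x0) (dd k z)) + ((1 / 2 : ℝ) •
        Mo 0 ε (mulOp (fun x => deriv (th p.L) x * wt p.L x0 x) (uu k z)) +
        Mo 0 ε (mulOp (th p.L) (uu k z))))) -
      (∑ k, (Hm p.g e j k / α) • (mulOp (aw p.L x0) (Mo 1 ε (uu k z)) +
        ((1 / 2 : ℝ) • mulOp (fun x => deriv (th p.L) x * wt p.L x0 x) (Mo 0 ε (uu k z)) +
        mulOp (th p.L) (Mo 0 ε (uu k z))))) := by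
    rw [← Finset.sum_sub_distrib]
    refine Finset.sum_congr rfl fun k _ => ?_
    have e9 : F4_e ε (aw p.L x0) (z k) = Mo 0 ε (mulOp (aw p.L x0) (dd k z)) -
      mulOp (aw p.L x0) (Mo 1 ε (uu k z)) := rfl
    rw [e9]
    unfold F4_c
    module
  rw [e8]
  unfold F4_c
  abel

/-- The norm of a commutator sum. -/
theorem F4_norm_sum {ι : Type} (s : Finset ι) (c : ι → ℝ) (y : ι → L2) {K B : ℝ}
    (hc : ∀ i ∈ s, |c i| ≤ K) (hy : ∀ i ∈ s, ‖y i‖ ≤ B) :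
    ‖∑ i ∈ s, c i • y i‖ ≤ s.card * (K * B) := by
  refine (norm_sum_le _ _).trans ?_
  rw [← nsmul_eq_mul, ← Finset.sum_const]
  refine Finset.sum_le_sum fun i hi => ?_
  rw [norm_smul, Real.norm_eq_abs]
  have h0 : 0 ≤ K := (abs_nonneg _).trans (hc i hi)
  exact mul_le_mul (hc i hi) (hy i hi) (norm_nonneg _) h0

end main

/-! ### Norms -/

/-- The size of a state. -/
noncomputable def F4_Y {L : ℝ} (z : VV n L) : ℝ := √(Vx z + ‖inc n L z‖ ^ 2)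

theorem F4_Vx {L : ℝ} (z : VV n L) : 0 ≤ Vx z := Finset.sum_nonneg fun _ _ => sq_nonneg _

theorem F4_Ysq {L : ℝ} (z : VV n L) : F4_Y z ^ 2 = Vx z + ‖inc n L z‖ ^ 2 :=
  Real.sq_sqrt (add_nonneg (F4_Vx z) (sq_nonneg _))

theorem F4_dd {L : ℝ} (z : VV n L) (k : Fin n) : ‖dd k z‖ ≤ F4_Y z := by
  refine Real.le_sqrt_of_sq_le ?_
  have h1 : ‖dd k z‖ ^ 2 ≤ Vx z :=
    Finset.single_le_sum (f := fun j => ‖dd j z‖ ^ 2) (fun _ _ => sq_nonneg _) (Finset.mem_univ k)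
  linarith [sq_nonneg ‖inc n L z‖]

theorem F4_uu {L : ℝ} (z : VV n L) (k : Fin n) : ‖uu k z‖ ≤ F4_Y z := by
  refine Real.le_sqrt_of_sq_le ?_
  have h1 : ‖uu k z‖ ≤ ‖inc n L z‖ := QuadrAux.norm_comp_le (inc n L z) k
  have h2 : ‖uu k z‖ ^ 2 ≤ ‖inc n L z‖ ^ 2 := pow_le_pow_left₀ (norm_nonneg _) h1 2
  linarith [F4_Vx z]

theorem F4_z {L : ℝ} (z : VV n L) : ‖z‖ ≤ F4_Y z := by
  refine (pi_norm_le_iff_of_nonneg (Real.sqrt_nonneg _)).2 fun k => ?_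
  have h1 : ‖z k‖ = max ‖uu k z‖ ‖dd k z‖ := rfl
  rw [h1]
  exact max_le (F4_uu z k) (F4_dd z k)

theorem F4_one_sub (L : ℝ) (hL : 0 < L) :
    Measurable (fun x => 1 - damp L x) ∧ ∃ C, ∀ x, |1 - damp L x| ≤ C := by
  refine ⟨measurable_const.sub (F4_meas (Mlt_damp hL)).1, 1, fun x => ?_⟩
  have h := (damp_facts hL).1 x
  rw [abs_le]
  constructor <;> linarith [h.1, h.2]

theorem F4_damp {L : ℝ} (hL : 0 < L) (y : L2) :
    mulOp (damp L) y = y - mulOp (fun x => 1 - damp L x) y := by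
  refine Lp.ext ?_
  filter_upwards [F4_mul_ae (F4_meas (Mlt_damp hL)) y, F4_mul_ae (F4_one_sub L hL) y,
    Lp.coeFn_sub y (mulOp (fun x => 1 - damp L x) y)] with x e1 e2 e3
  rw [e1, e3, Pi.sub_apply, e2]
  ring

theorem F4_cdamp {L ε : ℝ} (hL : 0 < L) (hε : 0 < ε) (hε8 : ε ≤ 1 / 8) (y : L2) :
    F4_c ε (damp L) y ∈ F4_S (-2) (L + 2) := by
  have hm : ∀ x, x ∉ Icc (-1) (L + 1) → 1 - damp L x = 0 := by
    intro x hx
    rw [(damp_facts hL).2.2.1 x fun h => hx ⟨by linarith [h.1], by linarith [h.2]⟩, sub_self]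
  have h1 : F4_c ε (damp L) y = mulOp (fun x => 1 - damp L x) (Mo 0 ε y) -
      Mo 0 ε (mulOp (fun x => 1 - damp L x) y) := by
    unfold F4_c
    rw [F4_damp hL, F4_damp hL, map_sub]
    abel
  rw [h1]
  exact Submodule.sub_mem _ (F4_S_le (F4_S_mul (F4_one_sub L hL) hm _))
    (F4_S_mo hε hε8 0 (F4_S_mul (F4_one_sub L hL) hm _))

theorem F4_cmem {L ε : ℝ} (hε : 0 < ε) (hε8 : ε ≤ 1 / 8) {m : ℝ → ℝ}
    (h : Measurable m ∧ ∃ C, ∀ x, |m x| ≤ C) (hm : ∀ x, x ∉ Icc (-1) (L + 1) → m x = 0)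
    (i : ℕ) (y y' : L2) : Mo 0 ε (mulOp m y) - mulOp m (Mo i ε y') ∈ F4_S (-2) (L + 2) :=
  Submodule.sub_mem _ (F4_S_mo hε hε8 0 (F4_S_mul h hm _)) (F4_S_le (F4_S_mul h hm _))

/-- Row F4. -/
theorem flush_comm (p : Pr n) {e : Fin n → ℝ} {α : ℝ} (hα : 0 < α) (x0 CZ : ℝ) :
    ∃ C : ℝ, 0 ≤ C ∧ ∀ (h ε : ℝ) (X X1 : ℝ → Fin n → ℝ) (Z : Fin n → ℝ) (z : VV n p.L),
      0 < h → h ≤ 1 → 0 < ε → ε ≤ 1 / 8 → (∀ j, |Z j| ≤ CZ) →
      (∀ j, Continuous fun x => X x j) → (∀ j, Continuous fun x => X1 x j) →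
      (∀ x ∈ Icc (-1) (p.L + 1), ∀ j, X x j = -(α * h)⁻¹ * (x + x0) * e j + Z j) →
      (∀ x ∈ Icc (-1) (p.L + 1), ∀ j, X1 x j = -(α * h)⁻¹ * e j) →
      (∀ j, ∀ᵐ x ∂volume, x ∉ Icc (-2) (p.L + 2) →
        om p (fun j k => Hm p.g e j k / α) x0 ε h (inc n p.L z) (nl p X X1 h⁻¹ z) j x =
          k0 p.L x0 (fun j k => Hm p.g e j k / α) (Zi 0 ε (inc n p.L z)) j x) ∧
      ∑ j, ‖om p (fun j k => Hm p.g e j k / α) x0 ε h (inc n p.L z) (nl p X X1 h⁻¹ z) j -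
        k0 p.L x0 (fun j k => Hm p.g e j k / α) (Zi 0 ε (inc n p.L z)) j‖ ^ 2 ≤
        C * (ε ^ 2 + h ^ 2 + h ^ 2 * ε⁻¹ * ‖inc n p.L z‖ ^ 2) *
        (Vx z + ‖inc n p.L z‖ ^ 2) := by
  have haw0 : ∀ x, x ∉ Icc (-3 / 4) (p.L + 3 / 4) → aw p.L x0 x = 0 := by
    intro x hx
    unfold aw
    rw [(F4_th p.hL hx).1, zero_mul]
  have haw1 : ∀ x, x ∉ Icc (-1) (p.L + 1) → aw p.L x0 x = 0 := by
    intro x hx
    unfold aw
    rw [(F4_th' p.hL hx).1, zero_mul]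
  obtain ⟨C1, hC1, h1⟩ := comm_deriv p.hL (Mlt_aw p.hL x0) haw0
  obtain ⟨C2, hC2, h2⟩ := comm_bound (F4_Mtw p.hL x0)
  obtain ⟨C3, hC3, h3⟩ := comm_bound (Mlt_th p.hL)
  obtain ⟨C4, hC4, h4⟩ := comm_bound (Mlt_damp p.hL)
  obtain ⟨C5, hC5, h5⟩ := moll_q p
  obtain ⟨KM, hKM⟩ : ∃ K : ℝ, K = ∑ j, ∑ k, |Hm p.g e j k / α| := ⟨_, rfl⟩
  obtain ⟨KG, hKG⟩ : ∃ K : ℝ, K = ∑ j, ∑ k, ∑ l, |p.g j k l| := ⟨_, rfl⟩
  have hKMle : ∀ j k, |Hm p.g e j k / α| ≤ KM := by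
    intro j k
    have a1 : |Hm p.g e j k / α| ≤ ∑ k, |Hm p.g e j k / α| :=
      Finset.single_le_sum (f := fun k => |Hm p.g e j k / α|) (fun _ _ => abs_nonneg _)
        (Finset.mem_univ k)
    have a2 : (∑ k, |Hm p.g e j k / α|) ≤ KM := by
      rw [hKM]
      exact Finset.single_le_sum (f := fun j => ∑ k, |Hm p.g e j k / α|)
        (fun _ _ => Finset.sum_nonneg fun _ _ => abs_nonneg _) (Finset.mem_univ j)
    exact a1.trans a2
  have hKM0 : 0 ≤ KM := by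
    rw [hKM]
    exact Finset.sum_nonneg fun _ _ => Finset.sum_nonneg fun _ _ => abs_nonneg _
  have hKG0 : 0 ≤ KG := by
    rw [hKG]
    exact Finset.sum_nonneg fun _ _ => Finset.sum_nonneg fun _ _ =>
      Finset.sum_nonneg fun _ _ => abs_nonneg _
  have hKGle : ∀ j k, ∀ Z : Fin n → ℝ, (∀ j, |Z j| ≤ CZ) → |Hm p.g Z j k| ≤ KG * |CZ| := by
    intro j k Z hZ
    unfold Hm
    have a1 : (∑ l, |p.g j k l|) ≤ ∑ k, ∑ l, |p.g j k l| :=
      Finset.single_le_sum (f := fun k => ∑ l, |p.g j k l|)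
        (fun _ _ => Finset.sum_nonneg fun _ _ => abs_nonneg _) (Finset.mem_univ k)
    have a2 : (∑ k, ∑ l, |p.g j k l|) ≤ KG := by
      rw [hKG]
      exact Finset.single_le_sum (f := fun j => ∑ k, ∑ l, |p.g j k l|)
        (fun _ _ => Finset.sum_nonneg fun _ _ => Finset.sum_nonneg fun _ _ => abs_nonneg _)
        (Finset.mem_univ j)
    refine (Finset.abs_sum_le_sum_abs _ _).trans ?_
    refine le_trans ?_ (mul_le_mul_of_nonneg_right (a1.trans a2) (abs_nonneg _))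
    rw [Finset.sum_mul]
    refine Finset.sum_le_sum fun l _ => ?_
    rw [abs_mul]
    exact mul_le_mul_of_nonneg_left ((hZ l).trans (le_abs_self _)) (abs_nonneg _)
  obtain ⟨A1, hA1⟩ : ∃ K : ℝ, K = ‖mulOp (th p.L)‖ := ⟨_, rfl⟩
  obtain ⟨A2, hA2⟩ : ∃ K : ℝ, K = ‖mulOp (deriv (th p.L))‖ := ⟨_, rfl⟩
  obtain ⟨A3, hA3⟩ : ∃ K : ℝ, K = ‖lmap n p.L p.S‖ := ⟨_, rfl⟩
  have hA10 : 0 ≤ A1 := hA1 ▸ norm_nonneg _
  have hA20 : 0 ≤ A2 := hA2 ▸ norm_nonneg _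
  have hA30 : 0 ≤ A3 := hA3 ▸ ContinuousLinearMap.opNorm_nonneg _
  obtain ⟨K1, hK1⟩ : ∃ K : ℝ, K = A3 + n * (KG * |CZ| * (A1 + 1 / 2 * A2)) := ⟨_, rfl⟩
  obtain ⟨K2, hK2⟩ : ∃ K : ℝ, K = n * (KM * (C1 + 1 / 2 * C2 + C3)) + C4 := ⟨_, rfl⟩
  have hK0 : 0 ≤ (n : ℝ) * (3 * (C5 + K1 ^ 2 + K2 ^ 2)) :=
    mul_nonneg (Nat.cast_nonneg n) (mul_nonneg (by norm_num)
      (add_nonneg (add_nonneg hC5 (sq_nonneg _)) (sq_nonneg _)))
  refine ⟨n * (3 * (C5 + K1 ^ 2 + K2 ^ 2)), hK0, ?_⟩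
  intro h ε X X1 Z z hh hh1 hε hε8 hZ _ _ hX hX1
  have hdiff := fun j => F4_diff p x0 (ε := ε) hα hh hX hX1 z j
  have htw1 : ∀ x, x ∉ Icc (-1) (p.L + 1) → deriv (th p.L) x * wt p.L x0 x = 0 := by
    intro x hx
    rw [(F4_th' p.hL hx).2, zero_mul]
  constructor
  · intro j
    have hmem : om p (fun j k => Hm p.g e j k / α) x0 ε h (inc n p.L z) (nl p X X1 h⁻¹ z) j -
        k0 p.L x0 (fun j k => Hm p.g e j k / α) (Zi 0 ε (inc n p.L z)) j ∈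
        F4_S (-2) (p.L + 2) := by
      rw [hdiff j]
      refine Submodule.sub_mem _ (Submodule.add_mem _ (Submodule.sub_mem _ (Submodule.add_mem _
        ?_ ?_) ?_) (Submodule.sum_mem _ fun k _ => Submodule.smul_mem _ _ ?_)) ?_
      · exact Submodule.smul_mem _ _ (F4_S_mo hε hε8 0 (F4_qout p z j))
      · exact Submodule.smul_mem _ _ (F4_S_mo hε hε8 0 (F4_lout p z j))
      · refine Submodule.smul_mem _ _ (F4_S_mo hε hε8 0 ?_)
        refine Submodule.sum_mem _ fun k _ => Submodule.smul_mem _ _ (Submodule.add_mem _ ?_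
          (Submodule.smul_mem _ _ ?_))
        · exact F4_S_mul (F4_mth p.hL) (fun x hx => (F4_th' p.hL hx).1) _
        · exact F4_S_mul (F4_mdth p.hL) (fun x hx => (F4_th' p.hL hx).2) _
      · refine Submodule.add_mem _ (Submodule.add_mem _ ?_ (Submodule.smul_mem _ _ ?_)) ?_
        · exact F4_cmem hε hε8 (F4_maw p.hL x0) haw1 1 _ _
        · exact F4_cmem hε hε8 (F4_mtw p.hL x0) htw1 0 _ _
        · exact F4_cmem hε hε8 (F4_mth p.hL) (fun x hx => (F4_th' p.hL hx).1) 0 _ _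
      · exact F4_cdamp p.hL hε hε8 _
    filter_upwards [hmem, Lp.coeFn_sub
      (om p (fun j k => Hm p.g e j k / α) x0 ε h (inc n p.L z) (nl p X X1 h⁻¹ z) j)
      (k0 p.L x0 (fun j k => Hm p.g e j k / α) (Zi 0 ε (inc n p.L z)) j)] with x a1 a2 hx
    have a3 := a1 hx
    rw [a2, Pi.sub_apply] at a3
    exact sub_eq_zero.1 a3
  · obtain ⟨Y, hY⟩ : ∃ K : ℝ, K = F4_Y z := ⟨_, rfl⟩
    have hY0 : 0 ≤ Y := hY ▸ Real.sqrt_nonneg _
    have hYsq : Y ^ 2 = Vx z + ‖inc n p.L z‖ ^ 2 := hY ▸ F4_Ysq z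
    have hYd : ∀ k, ‖dd k z‖ ≤ Y := fun k => hY ▸ F4_dd z k
    have hYu : ∀ k, ‖uu k z‖ ≤ Y := fun k => hY ▸ F4_uu z k
    have hYz : ‖z‖ ≤ Y := hY ▸ F4_z z
    have hbound : ∀ j, ‖om p (fun j k => Hm p.g e j k / α) x0 ε h (inc n p.L z)
        (nl p X X1 h⁻¹ z) j - k0 p.L x0 (fun j k => Hm p.g e j k / α)
        (Zi 0 ε (inc n p.L z)) j‖ ≤ h * ‖Mo 0 ε (qmap n p.L p.g z j)‖ + h * K1 * Y +
          ε * K2 * Y := by
      intro j
      rw [hdiff j]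
      have b1 : ‖h • Mo 0 ε (qmap n p.L p.g z j)‖ = h * ‖Mo 0 ε (qmap n p.L p.g z j)‖ := by
        rw [norm_smul, Real.norm_eq_abs, abs_of_pos hh]
      have b2 : ‖h • Mo 0 ε (lmap n p.L p.S z j)‖ ≤ h * (A3 * Y) := by
        rw [norm_smul, Real.norm_eq_abs, abs_of_pos hh]
        refine mul_le_mul_of_nonneg_left ?_ hh.le
        refine (Mo_zero_norm hε _).trans ((QuadrAux.norm_comp_le (lmap n p.L p.S z) j).trans ?_)
        rw [hA3]
        exact ((lmap n p.L p.S).le_opNorm z).trans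
          (mul_le_mul_of_nonneg_left hYz (norm_nonneg _))
      have b3 : ‖h • Mo 0 ε (F4_H p Z z j)‖ ≤ h * (n * (KG * |CZ| * (A1 + 1 / 2 * A2)) * Y) := by
        rw [norm_smul, Real.norm_eq_abs, abs_of_pos hh]
        refine mul_le_mul_of_nonneg_left ?_ hh.le
        refine (Mo_zero_norm hε _).trans ?_
        have c1 := F4_norm_sum Finset.univ (fun k => Hm p.g Z j k)
          (fun k => mulOp (th p.L) (dd k z) + (1 / 2 : ℝ) • mulOp (deriv (th p.L)) (uu k z))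
          (K := KG * |CZ|) (B := (A1 + 1 / 2 * A2) * Y) (fun k _ => hKGle j k Z hZ) (by
            intro k _
            refine (norm_add_le _ _).trans ?_
            have d1 : ‖mulOp (th p.L) (dd k z)‖ ≤ A1 * Y := by
              rw [hA1]
              exact ((mulOp (th p.L)).le_opNorm _).trans
                (mul_le_mul_of_nonneg_left (hYd k) (norm_nonneg _))
            have d2 : ‖mulOp (deriv (th p.L)) (uu k z)‖ ≤ A2 * Y := by
              rw [hA2]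
              exact ((mulOp (deriv (th p.L))).le_opNorm _).trans
                (mul_le_mul_of_nonneg_left (hYu k) (norm_nonneg _))
            rw [norm_smul, Real.norm_eq_abs, abs_of_pos (by norm_num : (0 : ℝ) < 1 / 2)]
            linarith)
        rw [Finset.card_univ, Fintype.card_fin] at c1
        refine c1.trans (le_of_eq ?_)
        ring
      have b4 : ‖∑ k, (Hm p.g e j k / α) • (F4_e ε (aw p.L x0) (z k) +
          (1 / 2 : ℝ) • F4_c ε (fun x => deriv (th p.L) x * wt p.L x0 x) (uu k z) +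
          F4_c ε (th p.L) (uu k z))‖ ≤ ε * (n * (KM * (C1 + 1 / 2 * C2 + C3)) * Y) := by
        have c1 := F4_norm_sum Finset.univ (fun k => Hm p.g e j k / α)
          (fun k => F4_e ε (aw p.L x0) (z k) +
            (1 / 2 : ℝ) • F4_c ε (fun x => deriv (th p.L) x * wt p.L x0 x) (uu k z) +
            F4_c ε (th p.L) (uu k z)) (K := KM) (B := ε * (C1 + 1 / 2 * C2 + C3) * Y)
          (fun k _ => hKMle j k) (by
            intro k _
            refine (norm_add_le _ _).trans ?_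
            have d0 : ‖F4_e ε (aw p.L x0) (z k) +
              (1 / 2 : ℝ) • F4_c ε (fun x => deriv (th p.L) x * wt p.L x0 x) (uu k z)‖ ≤ _ :=
              norm_add_le _ _
            have d1 : ‖F4_e ε (aw p.L x0) (z k)‖ ≤ C1 * ε * Y :=
              (h1 ε (z k) hε hε8).trans (mul_le_mul_of_nonneg_left (hYd k) (mul_nonneg hC1 hε.le))
            have d2 : ‖F4_c ε (fun x => deriv (th p.L) x * wt p.L x0 x) (uu k z)‖ ≤ C2 * ε * Y :=
              (h2 ε (uu k z) hε).trans (mul_le_mul_of_nonneg_left (hYu k) (mul_nonneg hC2 hε.le))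
            have d3 : ‖F4_c ε (th p.L) (uu k z)‖ ≤ C3 * ε * Y :=
              (h3 ε (uu k z) hε).trans (mul_le_mul_of_nonneg_left (hYu k) (mul_nonneg hC3 hε.le))
            rw [norm_smul, Real.norm_eq_abs, abs_of_pos (by norm_num : (0 : ℝ) < 1 / 2)] at d0
            linarith)
        rw [Finset.card_univ, Fintype.card_fin] at c1
        refine c1.trans (le_of_eq ?_)
        ring
      have b5 : ‖F4_c ε (damp p.L) (uu j z)‖ ≤ C4 * ε * Y :=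
        (h4 ε (uu j z) hε).trans (mul_le_mul_of_nonneg_left (hYu j) (mul_nonneg hC4 hε.le))
      refine (norm_sub_le _ _).trans ?_
      refine (add_le_add_left (norm_add_le _ _) _).trans ?_
      have b6 := norm_sub_le (h • Mo 0 ε (qmap n p.L p.g z j) + h • Mo 0 ε (lmap n p.L p.S z j))
        (h • Mo 0 ε (F4_H p Z z j))
      have b7 := norm_add_le (h • Mo 0 ε (qmap n p.L p.g z j)) (h • Mo 0 ε (lmap n p.L p.S z j))
      rw [b1] at b7
      have b8 : h * K1 * Y = h * (A3 * Y) + h * (n * (KG * |CZ| * (A1 + 1 / 2 * A2)) * Y) := by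
        rw [hK1]
        ring
      have b9 : ε * K2 * Y = ε * (n * (KM * (C1 + 1 / 2 * C2 + C3)) * Y) + C4 * ε * Y := by
        rw [hK2]
        ring
      rw [b8, b9]
      linarith [b2, b3, b4, b5, b6, b7]
    have hsq : ∀ j, ‖om p (fun j k => Hm p.g e j k / α) x0 ε h (inc n p.L z)
        (nl p X X1 h⁻¹ z) j - k0 p.L x0 (fun j k => Hm p.g e j k / α)
        (Zi 0 ε (inc n p.L z)) j‖ ^ 2 ≤ 3 * (C5 + K1 ^ 2 + K2 ^ 2) *
          (ε ^ 2 + h ^ 2 + h ^ 2 * ε⁻¹ * ‖inc n p.L z‖ ^ 2) * Y ^ 2 := by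
      intro j
      have c1 := pow_le_pow_left₀ (norm_nonneg _) (hbound j) 2
      have c2 : ‖Mo 0 ε (qmap n p.L p.g z j)‖ ^ 2 ≤ C5 * ε⁻¹ * ‖inc n p.L z‖ ^ 2 * Y ^ 2 := by
        rw [hYsq]
        exact h5 ε z j hε hε8
      generalize ‖Mo 0 ε (qmap n p.L p.g z j)‖ = q at c1 c2
      clear hbound hdiff h1 h2 h3 h4 h5 hKMle hKGle hYd hYu
      refine c1.trans ?_
      have c3 : (h * q + h * K1 * Y + ε * K2 * Y) ^ 2 ≤
          3 * (h ^ 2 * q ^ 2 + h ^ 2 * K1 ^ 2 * Y ^ 2 + ε ^ 2 * K2 ^ 2 * Y ^ 2) := by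
        nlinarith [sq_nonneg (h * q - h * K1 * Y), sq_nonneg (h * q - ε * K2 * Y),
          sq_nonneg (h * K1 * Y - ε * K2 * Y)]
      refine c3.trans ?_
      have c4 : h ^ 2 * q ^ 2 ≤ h ^ 2 * (C5 * ε⁻¹ * ‖inc n p.L z‖ ^ 2 * Y ^ 2) :=
        mul_le_mul_of_nonneg_left c2 (sq_nonneg h)
      have hεi : 0 ≤ ε⁻¹ := inv_nonneg.2 hε.le
      obtain ⟨w, hw⟩ : ∃ K : ℝ, K = h ^ 2 * ε⁻¹ * ‖inc n p.L z‖ ^ 2 := ⟨_, rfl⟩
      have hw0 : 0 ≤ w := hw ▸ mul_nonneg (mul_nonneg (sq_nonneg _) hεi) (sq_nonneg _)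
      have c5 : h ^ 2 * (C5 * ε⁻¹ * ‖inc n p.L z‖ ^ 2 * Y ^ 2) = C5 * w * Y ^ 2 := by
        rw [hw]
        ring
      rw [c5] at c4
      have g1 : 0 ≤ C5 * (ε ^ 2 + h ^ 2) * Y ^ 2 :=
        mul_nonneg (mul_nonneg hC5 (add_nonneg (sq_nonneg _) (sq_nonneg _))) (sq_nonneg _)
      have g2 : 0 ≤ K1 ^ 2 * (ε ^ 2 + w) * Y ^ 2 :=
        mul_nonneg (mul_nonneg (sq_nonneg _) (add_nonneg (sq_nonneg _) hw0)) (sq_nonneg _)
      have g3 : 0 ≤ K2 ^ 2 * (h ^ 2 + w) * Y ^ 2 :=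
        mul_nonneg (mul_nonneg (sq_nonneg _) (add_nonneg (sq_nonneg _) hw0)) (sq_nonneg _)
      rw [← hw]
      have c6 : 3 * (C5 + K1 ^ 2 + K2 ^ 2) * (ε ^ 2 + h ^ 2 + w) * Y ^ 2 =
          3 * (C5 * w * Y ^ 2 + h ^ 2 * K1 ^ 2 * Y ^ 2 + ε ^ 2 * K2 ^ 2 * Y ^ 2) +
          3 * (C5 * (ε ^ 2 + h ^ 2) * Y ^ 2 + K1 ^ 2 * (ε ^ 2 + w) * Y ^ 2 +
            K2 ^ 2 * (h ^ 2 + w) * Y ^ 2) := by ring
      rw [c6]
      linarith
    refine (Finset.sum_le_sum fun j _ => hsq j).trans ?_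
    rw [Finset.sum_const, Finset.card_univ, Fintype.card_fin, nsmul_eq_mul, ← hYsq]
    refine le_of_eq ?_
    ring

end Pool.Agent.KG
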