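import Pool.Agent.Lib.KG.R_D1
import Pool.Agent.Lib.KG.R_D2
import Pool.Agent.Lib.KG.R_D3
import Pool.Agent.Lib.KG.R_D4

/-!
# Row F5: bounds of the mollified state
-/

set_option autoImplicit false

namespace Pool.Agent.KG

open MeasureTheory Filter Topology Set
open Pool.Agent.Kdv
open scoped ENNReal ContDiff InnerProductSpace

variable {n : ℕ}

theorem F5_inner (y z : L2) : inner ℝ y z = ∫ x, y x * z x := by
  rw [L2.inner_def]
  refine integral_congr_ae (Eventually.of_forall fun x => ?_)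
  simp only [RCLike.inner_apply, conj_trivial]
  ring

theorem F5_norm_sq (y : L2) : ‖y‖ ^ 2 = ∫ x, y x ^ 2 := by
  rw [← real_inner_self_eq_norm_sq, F5_inner]
  refine integral_congr_ae (Eventually.of_forall fun x => ?_)
  simp only
  ring

theorem F5_sq_int (y : L2) : Integrable (fun x => y x ^ 2) volume :=
  (Lp.memLp y).integrable_sq

theorem F5_damp_meas {L : ℝ} (hL : 0 < L) : Measurable (damp L) :=
  ((Mlt_damp hL).1.continuous).measurable

theorem F5_damp_bd {L : ℝ} (hL : 0 < L) : ∃ C, ∀ x, |damp L x| ≤ C :=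
  ⟨1, fun x => abs_le.2 ⟨by linarith [((damp_facts hL).1 x).1], ((damp_facts hL).1 x).2⟩⟩

theorem F5_damp_ae {L : ℝ} (hL : 0 < L) (y : L2) :
    ∀ᵐ x ∂volume, mulOp (damp L) y x = damp L x * y x :=
  mulOp_ae (F5_damp_meas hL) (F5_damp_bd hL) y

theorem F5_damp_inner {L : ℝ} (hL : 0 < L) (y : L2) :
    inner ℝ (mulOp (damp L) y) y = ∫ x, damp L x * y x ^ 2 := by
  rw [F5_inner]
  refine integral_congr_ae ?_
  filter_upwards [F5_damp_ae hL y] with x hx
  rw [hx]
  ring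

theorem F5_damp_int {L : ℝ} (hL : 0 < L) {f : ℝ → ℝ} (hf : Integrable f volume) :
    Integrable (fun x => damp L x * f x) volume := by
  obtain ⟨C, hC⟩ := F5_damp_bd hL
  exact hf.bdd_mul (c := C) (F5_damp_meas hL).aestronglyMeasurable
    (Eventually.of_forall fun x => hC x)

/-- `damp` is Lipschitz. -/
theorem F5_lip {L : ℝ} (hL : 0 < L) : ∃ C : ℝ, 0 ≤ C ∧ ∀ x s, damp L x ≤ damp L s + C * |x - s| := by
  obtain ⟨C, hC⟩ := (Mlt_damp hL).2 1
  have hd : Differentiable ℝ (damp L) := (Mlt_damp hL).1.differentiable (by simp)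
  refine ⟨C, le_trans (abs_nonneg _) (hC 0), fun x s => ?_⟩
  have h := Convex.norm_image_sub_le_of_norm_deriv_le (f := damp L) (C := C) (s := univ)
    (fun y _ => hd y) (fun y _ => by
      have := hC y
      rw [iteratedDeriv_one] at this
      exact this) convex_univ (mem_univ s) (mem_univ x)
  have h2 := (le_abs_self _).trans h
  rw [Real.norm_eq_abs] at h2
  linarith

theorem F5_Mo0 (ε : ℝ) : Mo 0 ε = cv (ker ε) := by
  unfold Mo
  rw [iteratedDeriv_zero]

theorem F5_Mo1 (ε : ℝ) : Mo 1 ε = cv (deriv (ker ε)) := by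
  unfold Mo
  rw [iteratedDeriv_one]

/-- Cauchy-Schwarz (Jensen) for the mollification. -/
theorem F5_jensen {ε : ℝ} (hε : 0 < ε) (y : L2) (x : ℝ) :
    (cvf (ker ε) y x) ^ 2 ≤ ∫ s, ker ε (x - s) * y s ^ 2 := by
  obtain ⟨hk, hc, _, hk0, hk1, _⟩ := ker_smooth hε
  have hkc : Continuous (ker ε) := hk.continuous
  have hm : Continuous fun s => ker ε (x - s) := hkc.comp (continuous_const.sub continuous_id)
  have hc' : HasCompactSupport fun s => ker ε (x - s) := by
    have h := hc.comp_homeomorph (Homeomorph.subLeft x)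
    exact h
  have hkL : MemLp (fun s => √(ker ε (x - s))) 2 volume := by
    have h1 : Continuous fun s => √(ker ε (x - s)) := Real.continuous_sqrt.comp hm
    have h2 : HasCompactSupport fun s => √(ker ε (x - s)) :=
      hc'.comp_left (g := Real.sqrt) Real.sqrt_zero
    exact h1.memLp_of_hasCompactSupport h2
  obtain ⟨b, hb⟩ := hm.bounded_above_of_compact_support hc'
  have hkb : ∀ s, ker ε (x - s) ≤ b := fun s => (le_abs_self _).trans (hb s)
  have hyL : MemLp (fun s => √(ker ε (x - s)) * y s) 2 volume := by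
    refine MemLp.of_le_mul (c := √b) (Lp.memLp y)
      ((Real.continuous_sqrt.comp hm).aestronglyMeasurable.mul (Lp.memLp y).1)
      (Eventually.of_forall fun s => ?_)
    rw [norm_mul, Real.norm_eq_abs, abs_of_nonneg (Real.sqrt_nonneg _)]
    exact mul_le_mul_of_nonneg_right (Real.sqrt_le_sqrt (hkb s)) (norm_nonneg _)
  have h1 := integral_mul_le_Lp_mul_Lq_of_nonneg (μ := (volume : Measure ℝ))
    Real.HolderConjugate.two_two (f := fun s => |√(ker ε (x - s))|)
    (g := fun s => |√(ker ε (x - s)) * y s|)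
    (Eventually.of_forall fun s => abs_nonneg _) (Eventually.of_forall fun s => abs_nonneg _)
    (by simpa using hkL.norm) (by simpa using hyL.norm)
  have e1 : ∀ s, |√(ker ε (x - s))| * |√(ker ε (x - s)) * y s| = |ker ε (x - s) * y s| := by
    intro s
    rw [← abs_mul, ← mul_assoc, Real.mul_self_sqrt (hk0 _)]
  have e2 : (∫ s, |√(ker ε (x - s))| ^ (2 : ℝ)) = 1 := by
    rw [← hk1, ← integral_sub_left_eq_self (ker ε) volume x]
    refine integral_congr_ae (Eventually.of_forall fun s => ?_)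
    simp only [Real.rpow_two, sq_abs]
    exact Real.sq_sqrt (hk0 _)
  have e3 : (∫ s, |√(ker ε (x - s)) * y s| ^ (2 : ℝ)) = ∫ s, ker ε (x - s) * y s ^ 2 := by
    refine integral_congr_ae (Eventually.of_forall fun s => ?_)
    simp only [Real.rpow_two, sq_abs]
    rw [mul_pow, Real.sq_sqrt (hk0 _)]
  rw [e2, e3, Real.one_rpow, one_mul] at h1
  have h3 : |cvf (ker ε) y x| ≤ (∫ s, ker ε (x - s) * y s ^ 2) ^ (1 / 2 : ℝ) := by
    refine le_trans ?_ h1
    refine (abs_integral_le_integral_abs).trans (le_of_eq ?_)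
    exact integral_congr_ae (Eventually.of_forall fun s => (e1 s).symm)
  have hI : 0 ≤ ∫ s, ker ε (x - s) * y s ^ 2 :=
    integral_nonneg fun s => mul_nonneg (hk0 _) (sq_nonneg _)
  rw [← Real.sqrt_eq_rpow] at h3
  calc (cvf (ker ε) y x) ^ 2 = |cvf (ker ε) y x| ^ 2 := (sq_abs _).symm
    _ ≤ (√(∫ s, ker ε (x - s) * y s ^ 2)) ^ 2 := by
        exact pow_le_pow_left₀ (abs_nonneg _) h3 2
    _ = _ := Real.sq_sqrt hI

theorem F5_prod {ε : ℝ} (hε : 0 < ε) (y : L2) :
    Integrable (fun q : ℝ × ℝ => ker ε (q.1 - q.2) * y q.2 ^ 2) (volume.prod volume) := by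
  obtain ⟨hk, hc, _, hk0, hk1, _⟩ := ker_smooth hε
  have hki : Integrable (ker ε) volume := hk.continuous.integrable_of_hasCompactSupport hc
  have h := Integrable.convolution_integrand (ContinuousLinearMap.mul ℝ ℝ) (F5_sq_int y) hki
  refine h.congr (Eventually.of_forall fun q => ?_)
  simp only [ContinuousLinearMap.mul_apply']
  ring

theorem F5_prod' {L ε : ℝ} (hL : 0 < L) (hε : 0 < ε) (y : L2) :
    Integrable (fun q : ℝ × ℝ => damp L q.1 * (ker ε (q.1 - q.2) * y q.2 ^ 2))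
      (volume.prod volume) := by
  obtain ⟨C, hC⟩ := F5_damp_bd hL
  exact (F5_prod hε y).bdd_mul (c := C)
    ((F5_damp_meas hL).comp measurable_fst).aestronglyMeasurable
    (Eventually.of_forall fun q => hC q.1)

/-- The damped mass of the mollification. -/
theorem F5_mass {L : ℝ} (hL : 0 < L) : ∃ C : ℝ, 0 ≤ C ∧ ∀ (ε : ℝ) (y : L2), 0 < ε →
    inner ℝ (mulOp (damp L) (Mo 0 ε y)) (Mo 0 ε y) ≤
      inner ℝ (mulOp (damp L) y) y + C * ε * ‖y‖ ^ 2 := by
  obtain ⟨C, hC0, hC⟩ := F5_lip hL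
  refine ⟨C, hC0, fun ε y hε => ?_⟩
  obtain ⟨hk, hc, hks, hk0, hk1, hke⟩ := ker_smooth hε
  have hd0 : ∀ x, 0 ≤ damp L x := fun x => ((damp_facts hL).1 x).1
  have hki : Integrable (ker ε) volume := hk.continuous.integrable_of_hasCompactSupport hc
  rw [F5_damp_inner hL, F5_damp_inner hL, F5_norm_sq, F5_Mo0]
  have hP := F5_prod' hL hε y
  have s1 : (∫ x, damp L x * (cv (ker ε) y) x ^ 2) ≤
      ∫ x, ∫ s, damp L x * (ker ε (x - s) * y s ^ 2) := by
    refine integral_mono_ae (F5_damp_int hL (F5_sq_int _)) hP.integral_prod_left ?_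
    filter_upwards [cv_ae hk.continuous hc y] with x hx
    rw [hx, integral_const_mul]
    exact mul_le_mul_of_nonneg_left (F5_jensen hε y x) (hd0 x)
  refine s1.trans ?_
  rw [integral_integral_swap (f := fun x s => damp L x * (ker ε (x - s) * y s ^ 2)) hP,
    ← integral_const_mul, ← integral_add (F5_damp_int hL (F5_sq_int y))
      ((F5_sq_int y).const_mul _)]
  refine integral_mono hP.swap.integral_prod_left
    ((F5_damp_int hL (F5_sq_int y)).add ((F5_sq_int y).const_mul _)) fun s => ?_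
  have e1 : (∫ x, damp L x * (ker ε (x - s) * y s ^ 2)) =
      (∫ x, damp L x * ker ε (x - s)) * y s ^ 2 := by
    rw [← integral_mul_const]
    refine integral_congr_ae (Eventually.of_forall fun x => ?_)
    simp only
    ring
  show (∫ x, damp L x * (ker ε (x - s) * y s ^ 2)) ≤ damp L s * y s ^ 2 + C * ε * y s ^ 2
  rw [e1, ← add_mul]
  refine mul_le_mul_of_nonneg_right ?_ (sq_nonneg _)
  have hks' : Integrable (fun x => ker ε (x - s)) volume := hki.comp_sub_right s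
  have e2 : (∫ x, ker ε (x - s)) = 1 := by
    rw [integral_sub_right_eq_self (ker ε) s, hk1]
  calc (∫ x, damp L x * ker ε (x - s)) ≤ ∫ x, (damp L s + C * ε) * ker ε (x - s) := by
        refine integral_mono (F5_damp_int hL hks') (hks'.const_mul _) fun x => ?_
        by_cases hx : ε ≤ |x - s|
        · simp only [hks _ hx, mul_zero, le_refl]
        · refine mul_le_mul_of_nonneg_right ?_ (hk0 _)
          refine (hC x s).trans ?_
          have := mul_le_mul_of_nonneg_left (not_le.1 hx).le hC0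
          linarith
    _ = damp L s + C * ε := by rw [integral_const_mul, e2, mul_one]

theorem F5_out {L : ℝ} (hL : 0 < L) {C : ℝ} (hC0 : 0 ≤ C)
    (hC : ∀ ε : ℝ, 0 < ε → ∀ y : L2, ‖Mo 1 ε y‖ ≤ C / ε * ‖y‖) {ε : ℝ} (hε : 0 < ε)
    (hε8 : ε ≤ 1 / 8) (y : L2) :
    (∫ x in (Icc (-1 / 2) (L + 1 / 2))ᶜ, (Mo 1 ε y x) ^ 2) ≤
      C ^ 2 / ε ^ 2 * inner ℝ (mulOp (damp L) y) y := by
  classical
  set I : ℝ → ℝ := (Icc (-1 / 4 : ℝ) (L + 1 / 4)).indicator 1 with hI
  have hIm : Measurable I := measurable_one.indicator measurableSet_Icc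
  have hIb : ∃ C, ∀ x, |I x| ≤ C := by
    refine ⟨1, fun x => ?_⟩
    by_cases hx : x ∈ Icc (-1 / 4 : ℝ) (L + 1 / 4)
    · rw [hI, indicator_of_mem hx]; simp
    · rw [hI, indicator_of_notMem hx]; simp
  have hyi := mulOp_ae hIm hIb y
  set y1 : L2 := mulOp I y with hy1
  have hloc := Mo_local hε 1 (a := -1 / 4) (b := L + 1 / 4) (y := y1) (by
    filter_upwards [hyi] with x hx hx'
    rw [hx, hI, indicator_of_notMem hx', zero_mul])
  have hsplit : Mo 1 ε y = Mo 1 ε y1 + Mo 1 ε (y - y1) := by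
    rw [← map_add, add_sub_cancel]
  have hae : ∀ᵐ x ∂volume, x ∈ (Icc (-1 / 2) (L + 1 / 2))ᶜ →
      Mo 1 ε y x = Mo 1 ε (y - y1) x := by
    filter_upwards [hloc, Lp.coeFn_add (Mo 1 ε y1) (Mo 1 ε (y - y1))] with x h1 h2 hx
    rw [hsplit, h2, Pi.add_apply, h1, zero_add]
    intro h3
    apply hx
    exact ⟨by linarith [h3.1], by linarith [h3.2]⟩
  have hstep : (∫ x in (Icc (-1 / 2) (L + 1 / 2))ᶜ, (Mo 1 ε y x) ^ 2) ≤
      ‖Mo 1 ε (y - y1)‖ ^ 2 := by
    rw [F5_norm_sq]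
    have e1 : (∫ x in (Icc (-1 / 2) (L + 1 / 2))ᶜ, (Mo 1 ε y x) ^ 2) =
        ∫ x in (Icc (-1 / 2) (L + 1 / 2))ᶜ, (Mo 1 ε (y - y1) x) ^ 2 := by
      refine setIntegral_congr_ae measurableSet_Icc.compl ?_
      filter_upwards [hae] with x h1 hx
      rw [h1 hx]
    rw [e1]
    exact setIntegral_le_integral (F5_sq_int _) (Eventually.of_forall fun x => sq_nonneg _)
  have hn : ‖y - y1‖ ^ 2 ≤ inner ℝ (mulOp (damp L) y) y := by
    rw [F5_norm_sq, F5_damp_inner hL]
    refine integral_mono_ae (F5_sq_int _) (F5_damp_int hL (F5_sq_int _)) ?_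
    filter_upwards [hyi, Lp.coeFn_sub y y1] with x h1 h2
    rw [h2, Pi.sub_apply, h1]
    by_cases hx : x ∈ Icc (-1 / 4 : ℝ) (L + 1 / 4)
    · rw [hI, indicator_of_mem hx]
      simp only [Pi.one_apply, one_mul, sub_self]
      have := mul_nonneg ((damp_facts hL).1 x).1 (sq_nonneg (y x))
      simpa using this
    · rw [hI, indicator_of_notMem hx, zero_mul, sub_zero,
        (damp_facts hL).2.2.1 x (fun h => hx (Ioo_subset_Icc_self h)), one_mul]
  refine hstep.trans ?_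
  have h3 := hC ε hε (y - y1)
  calc ‖Mo 1 ε (y - y1)‖ ^ 2 ≤ (C / ε * ‖y - y1‖) ^ 2 :=
        pow_le_pow_left₀ (norm_nonneg _) h3 2
    _ = C ^ 2 / ε ^ 2 * ‖y - y1‖ ^ 2 := by rw [mul_pow, div_pow]
    _ ≤ _ := mul_le_mul_of_nonneg_left hn (by positivity)

theorem Zi_bounds (p : Pr n) : ∃ C : ℝ, 0 ≤ C ∧ ∀ (ε : ℝ) (z : VV n p.L), 0 < ε → ε ≤ 1 / 8 →
    (∑ j, ‖Zi 1 ε (inc n p.L z) j‖) ≤ C / ε * ‖inc n p.L z‖ ∧
    (∑ j, ∫ x in Icc (-3 / 4) (p.L + 3 / 4), (Zi 1 ε (inc n p.L z) j x) ^ 2) ≤ Vx z ∧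
    (∑ j, inner ℝ (mulOp (damp p.L) (Zi 0 ε (inc n p.L z) j)) (Zi 0 ε (inc n p.L z) j)) ≤
      Dw p.L (inc n p.L z) + C * ε * ‖inc n p.L z‖ ^ 2 ∧
    (∑ j, ∫ x in (Icc (-1 / 2) (p.L + 1 / 2))ᶜ, (Zi 1 ε (inc n p.L z) j x) ^ 2) ≤
      C / ε ^ 2 * Dw p.L (inc n p.L z) ∧
    (∑ j, ∫ x in Icc (-1 / 4) (p.L + 1 / 4), (Zi 0 ε (inc n p.L z) j x - uu j z x) ^ 2) ≤
      ε ^ 2 * Vx z := by
  obtain ⟨C1, hC10, hC1⟩ := Mo_one_norm
  obtain ⟨C3, hC30, hC3⟩ := F5_mass p.hL
  refine ⟨n * C1 + C3 + C1 ^ 2, by positivity, fun ε z hε hε8 => ?_⟩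
  have hj : ∀ j, ‖inc n p.L z j‖ ≤ ‖inc n p.L z‖ := fun j => PiLp.norm_apply_le _ j
  have hDw : Dw p.L (inc n p.L z) =
      ∑ j, inner ℝ (mulOp (damp p.L) (inc n p.L z j)) (inc n p.L z j) := by
    unfold Dw
    rw [PiLp.inner_apply]
    rfl
  have hD0 : ∀ y : L2, 0 ≤ inner ℝ (mulOp (damp p.L) y) y := by
    intro y
    rw [F5_damp_inner p.hL]
    exact integral_nonneg fun x => mul_nonneg ((damp_facts p.hL).1 x).1 (sq_nonneg _)
  have hDw0 : 0 ≤ Dw p.L (inc n p.L z) := by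
    rw [hDw]
    exact Finset.sum_nonneg fun j _ => hD0 _
  have hcd : ∀ j, (∀ᵐ x ∂volume, x ∈ Ioo (-1 + ε) (p.L + 1 - ε) →
      Zi 1 ε (inc n p.L z) j x = cv (ker ε) (dd j z) x) := by
    intro j
    have h := (cv_ker_inside p.hL hε (z j)).1
    filter_upwards [h] with x hx hx'
    unfold Zi
    rw [F5_Mo1]
    exact hx hx'
  refine ⟨?_, ?_, ?_, ?_, ?_⟩
  · calc (∑ j, ‖Zi 1 ε (inc n p.L z) j‖) ≤ ∑ _j : Fin n, C1 / ε * ‖inc n p.L z‖ := by
          refine Finset.sum_le_sum fun j _ => (hC1 ε hε _).trans ?_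
          exact mul_le_mul_of_nonneg_left (hj j) (by positivity)
      _ = (n * C1) / ε * ‖inc n p.L z‖ := by
          rw [Finset.sum_const, Finset.card_univ, Fintype.card_fin, nsmul_eq_mul]
          ring
      _ ≤ _ := by
          refine mul_le_mul_of_nonneg_right ?_ (norm_nonneg _)
          exact div_le_div_of_nonneg_right (by nlinarith [sq_nonneg C1]) hε.le
  · unfold Vx
    refine Finset.sum_le_sum fun j _ => ?_
    have e1 : (∫ x in Icc (-3 / 4) (p.L + 3 / 4), (Zi 1 ε (inc n p.L z) j x) ^ 2) =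
        ∫ x in Icc (-3 / 4) (p.L + 3 / 4), (cv (ker ε) (dd j z) x) ^ 2 := by
      refine setIntegral_congr_ae measurableSet_Icc ?_
      filter_upwards [hcd j] with x h1 hx
      rw [h1 ⟨by linarith [hx.1], by linarith [hx.2]⟩]
    rw [e1]
    calc (∫ x in Icc (-3 / 4) (p.L + 3 / 4), (cv (ker ε) (dd j z) x) ^ 2)
        ≤ ∫ x, (cv (ker ε) (dd j z) x) ^ 2 :=
          setIntegral_le_integral (F5_sq_int _) (Eventually.of_forall fun x => sq_nonneg _)
      _ = ‖cv (ker ε) (dd j z)‖ ^ 2 := (F5_norm_sq _).symm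
      _ ≤ ‖dd j z‖ ^ 2 := pow_le_pow_left₀ (norm_nonneg _) (cv_ker_norm hε _) 2
  · rw [hDw]
    have hn : ‖inc n p.L z‖ ^ 2 = ∑ j, ‖inc n p.L z j‖ ^ 2 := PiLp.norm_sq_eq_of_L2 _ _
    calc (∑ j, inner ℝ (mulOp (damp p.L) (Zi 0 ε (inc n p.L z) j)) (Zi 0 ε (inc n p.L z) j))
        ≤ ∑ j, (inner ℝ (mulOp (damp p.L) (inc n p.L z j)) (inc n p.L z j) +
            C3 * ε * ‖inc n p.L z j‖ ^ 2) :=
          Finset.sum_le_sum fun j _ => hC3 ε _ hε
      _ = (∑ j, inner ℝ (mulOp (damp p.L) (inc n p.L z j)) (inc n p.L z j)) +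
            C3 * ε * ‖inc n p.L z‖ ^ 2 := by
          rw [Finset.sum_add_distrib, ← Finset.mul_sum, hn]
      _ ≤ _ := by
          refine add_le_add le_rfl ?_
          refine mul_le_mul_of_nonneg_right ?_ (sq_nonneg _)
          refine mul_le_mul_of_nonneg_right ?_ hε.le
          have : (0 : ℝ) ≤ n * C1 := by positivity
          nlinarith [sq_nonneg C1]
  · calc (∑ j, ∫ x in (Icc (-1 / 2) (p.L + 1 / 2))ᶜ, (Zi 1 ε (inc n p.L z) j x) ^ 2)
        ≤ ∑ j, C1 ^ 2 / ε ^ 2 * inner ℝ (mulOp (damp p.L) (inc n p.L z j)) (inc n p.L z j) :=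
          Finset.sum_le_sum fun j _ => F5_out p.hL hC10 hC1 hε hε8 _
      _ = C1 ^ 2 / ε ^ 2 * Dw p.L (inc n p.L z) := by rw [← Finset.mul_sum, hDw]
      _ ≤ _ := by
          refine mul_le_mul_of_nonneg_right ?_ hDw0
          refine div_le_div_of_nonneg_right ?_ (by positivity)
          have : (0 : ℝ) ≤ n * C1 := by positivity
          linarith
  · unfold Vx
    rw [Finset.mul_sum]
    refine Finset.sum_le_sum fun j _ => ?_
    have h := (cv_ker_inside p.hL hε (z j)).2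
    have e1 : (∫ x in Icc (-1 / 4) (p.L + 1 / 4), (Zi 0 ε (inc n p.L z) j x - uu j z x) ^ 2) ≤
        ∫ x in Ioo (-1 + ε) (p.L + 1 - ε), (cv (ker ε) (V1.u p.L (z j)) x -
          V1.u p.L (z j) x) ^ 2 := by
      have e2 : (fun x => (Zi 0 ε (inc n p.L z) j x - uu j z x) ^ 2) =
          fun x => (cv (ker ε) (V1.u p.L (z j)) x - V1.u p.L (z j) x) ^ 2 := by
        unfold Zi
        rw [F5_Mo0]
        rfl
      rw [e2]
      refine setIntegral_mono_set ?_ (ae_of_all _ fun x => sq_nonneg _) ?_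
      · have h5 : Integrable (fun x => (cv (ker ε) (V1.u p.L (z j)) x -
            V1.u p.L (z j) x) ^ 2) volume := by
          refine (F5_sq_int (cv (ker ε) (V1.u p.L (z j)) - V1.u p.L (z j))).congr ?_
          filter_upwards [Lp.coeFn_sub (cv (ker ε) (V1.u p.L (z j))) (V1.u p.L (z j))] with x hx
          rw [hx, Pi.sub_apply]
        exact h5.integrableOn
      · refine ae_of_all _ fun x hx => ?_
        exact ⟨by linarith [hx.1], by linarith [hx.2]⟩
    exact e1.trans h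

end Pool.Agent.KG
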