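import Pool.Agent.Lib.KG.R_F1
import Pool.Agent.Lib.KG.R_F2
import Pool.Agent.Lib.KG.R_F4
import Pool.Agent.Lib.KG.R_F5
import Pool.Agent.Lib.KG.R_U1

/-!
# Row F6: the window
-/

set_option autoImplicit false

namespace Pool.Agent.KG

open MeasureTheory Filter Topology Set
open Pool.Agent.Kdv Pool.Agent.KG
open scoped ENNReal ContDiff InnerProductSpace

variable {n : ℕ}

theorem F6_inner {m : ℝ → ℝ} (hm : Measurable m) (hb : ∃ C, ∀ x, |m x| ≤ C) (u : L2) :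
    inner ℝ (mulOp m u) u = ∫ x, m x * u x ^ 2 := by
  rw [L2.inner_def]
  refine integral_congr_ae ?_
  filter_upwards [mulOp_ae hm hb u] with x hx
  rw [hx]
  change u x * (m x * u x) = _
  ring

theorem F6_inner_nonneg {m : ℝ → ℝ} (hm : Measurable m) (hb : ∃ C, ∀ x, |m x| ≤ C)
    (h0 : ∀ x, 0 ≤ m x) (u : L2) : 0 ≤ inner ℝ (mulOp m u) u := by
  rw [F6_inner hm hb]
  exact integral_nonneg fun x => mul_nonneg (h0 x) (sq_nonneg _)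

theorem F6_int_sq (u : L2) : Integrable (fun x => u x ^ 2) volume := (Lp.memLp u).integrable_sq

theorem F6_cover {m : ℝ → ℝ} (hm : Measurable m) {K L : ℝ} (h0 : ∀ x, 0 ≤ m x ∧ m x ≤ K)
    (hK : 0 ≤ K) (u : L2) : inner ℝ (mulOp m u) u ≤
      K * ((∫ x in Icc (-3 / 4) (L + 3 / 4), u x ^ 2) +
        ∫ x in (Icc (-1 / 2) (L + 1 / 2))ᶜ, u x ^ 2) := by
  have hb : ∃ C, ∀ x, |m x| ≤ C := ⟨K, fun x => by rw [abs_of_nonneg (h0 x).1]; exact (h0 x).2⟩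
  rw [F6_inner hm hb]
  have hi := F6_int_sq u
  have h1 : (∫ x, m x * u x ^ 2) ≤ ∫ x, K * u x ^ 2 := by
    refine integral_mono_of_nonneg (Eventually.of_forall fun x =>
      mul_nonneg (h0 x).1 (sq_nonneg _)) (hi.const_mul K) (Eventually.of_forall fun x => ?_)
    exact mul_le_mul_of_nonneg_right (h0 x).2 (sq_nonneg _)
  have h2 : (∫ x, K * u x ^ 2) = K * ((∫ x in Icc (-1 / 2) (L + 1 / 2), u x ^ 2) +
      ∫ x in (Icc (-1 / 2) (L + 1 / 2))ᶜ, u x ^ 2) := by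
    rw [integral_const_mul, integral_add_compl measurableSet_Icc hi]
  have h3 : (∫ x in Icc (-1 / 2) (L + 1 / 2), u x ^ 2) ≤
      ∫ x in Icc (-3 / 4) (L + 3 / 4), u x ^ 2 := by
    refine setIntegral_mono_set hi.integrableOn (Eventually.of_forall fun x => sq_nonneg _) ?_
    refine Eventually.of_forall (Icc_subset_Icc (by norm_num) (by linarith))
  rw [h2] at h1
  refine h1.trans (mul_le_mul_of_nonneg_left ?_ hK)
  linarith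

theorem F6_sum_sq (a : Fin n → ℝ) (ha : ∀ j, 0 ≤ a j) : ∑ j, a j ^ 2 ≤ (∑ j, a j) ^ 2 := by
  have h : ∀ j, a j ^ 2 ≤ a j * ∑ k, a k := by
    intro j
    rw [pow_two]
    exact mul_le_mul_of_nonneg_left
      (Finset.single_le_sum (f := a) (fun k _ => ha k) (Finset.mem_univ j)) (ha j)
  calc ∑ j, a j ^ 2 ≤ ∑ j, a j * ∑ k, a k := Finset.sum_le_sum fun j _ => h j
    _ = (∑ j, a j) ^ 2 := by rw [← Finset.sum_mul, pow_two]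

theorem F6_comp (z : HH n) (j : Fin n) : ‖z j‖ ≤ ‖z‖ := PiLp.norm_apply_le z j

/-- The bound of `a M ζ`. -/
theorem F6_aM (M : Fin n → Fin n → ℝ) (a : ℝ → ℝ) {ε : ℝ} (hε : 0 < ε) (z : HH n) (j : Fin n) :
    ‖aM M a (Zi 0 ε z) j‖ ≤ (∑ k, |M j k| * ‖mulOp a‖) * ‖z‖ := by
  unfold aM
  refine (norm_sum_le _ _).trans ?_
  rw [Finset.sum_mul]
  refine Finset.sum_le_sum fun k _ => ?_
  rw [norm_smul, Real.norm_eq_abs, mul_assoc]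
  refine mul_le_mul_of_nonneg_left ?_ (abs_nonneg _)
  refine ((mulOp a).le_opNorm _).trans (mul_le_mul_of_nonneg_left ?_ (norm_nonneg _))
  exact (Mo_zero_norm hε _).trans (F6_comp z k)

theorem F6_aM_cont (M : Fin n → Fin n → ℝ) (a : ℝ → ℝ) (ε : ℝ) (j : Fin n) :
    Continuous fun z : HH n => aM M a (Zi 0 ε z) j := by
  unfold aM Zi
  refine continuous_finsetSum _ fun k _ => ?_
  have h : Continuous fun z : HH n => mulOp a (Mo 0 ε (z k)) :=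
    (mulOp a).continuous.comp ((Mo 0 ε).continuous.comp (prH k).continuous)
  exact h.const_smul (M j k)

theorem F6_Qf_cont (p : Pr n) (M : Fin n → Fin n → ℝ) (x0 ε : ℝ) :
    Continuous fun z : HH n => Qf p M x0 ε z := by
  unfold Qf
  refine continuous_finsetSum _ fun j _ => ?_
  exact ((mulOp (bb p.L)).continuous.comp (F6_aM_cont M _ ε j)).inner (F6_aM_cont M _ ε j)

/-- The pointwise inequality, by arithmetic. -/
theorem F6_arith {h ε σ C2 C4 C5 c1 a V Dd Q G S1 N1 N2 S4 R : ℝ} (hh : 0 < h) (hh1 : h ≤ 1)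
    (hε : 0 < ε) (hσ0 : 0 ≤ σ) (hσ1 : σ ≤ 1) (hεh : ε ^ 2 ≤ h) (hhσ : h ≤ σ)
    (hhσε : h ≤ σ * ε) (hC2 : 0 ≤ C2) (hC4 : 0 ≤ C4) (hC5 : 0 ≤ C5) (ha : 0 ≤ a) (hac : a ≤ c1)
    (hV : 0 ≤ V)
    (hG : G ≤ Dd + C5 * ε * a ^ 2) (hS1 : S1 ≤ V) (hN1 : N1 ≤ C5 / ε * a) (hN1' : 0 ≤ N1)
    (hN2 : N2 ≤ N1 ^ 2)
    (hS4 : S4 ≤ C4 * (ε ^ 2 + h ^ 2 + h ^ 2 * ε⁻¹ * a ^ 2) * (V + a ^ 2))
    (hR : R ≤ -(1 / 4) * Q + C2 * G + C2 * (h * S1 + h * N1 * a + h ^ 2 * N2 + S4)) :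
    h⁻¹ * R ≤ -(1 / 4) * (h⁻¹ * Q) + C2 * (h⁻¹ * Dd) + C2 * (1 + C4 * (2 + c1 ^ 2)) * V +
      (C2 * C5 * c1 ^ 2 + C2 * (C5 * c1 ^ 2 + C5 ^ 2 * c1 ^ 2 + C4 * (2 + c1 ^ 2) * c1 ^ 2)) *
        (σ * h⁻¹) := by
  have hεσ : ε ≤ σ := by
    have h1 : ε * ε ≤ σ * ε := by rw [← pow_two]; exact hεh.trans hhσε
    exact le_of_mul_le_mul_right h1 hε
  have hc1 : 0 ≤ c1 := ha.trans hac
  have ha2 : a ^ 2 ≤ c1 ^ 2 := by gcongr
  have hε1 : ε ≤ 1 := hεσ.trans hσ1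
  -- h / ε ≤ σ
  have hhε : h * ε⁻¹ ≤ σ := by
    rw [← div_eq_mul_inv, div_le_iff₀ hε]; exact hhσε
  have hhε0 : 0 ≤ h * ε⁻¹ := by positivity
  -- T2
  have T2 : h * N1 * a ≤ σ * (C5 * c1 ^ 2) := by
    have h1 : h * N1 * a ≤ h * (C5 / ε * a) * a := by gcongr
    have h2 : h * (C5 / ε * a) * a = (h * ε⁻¹) * (C5 * a ^ 2) := by
      rw [div_eq_mul_inv]; ring
    rw [h2] at h1
    refine h1.trans ?_
    gcongr
  have T3 : h ^ 2 * N2 ≤ σ * (C5 ^ 2 * c1 ^ 2) := by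
    have h0 : N1 ^ 2 ≤ (C5 / ε * a) ^ 2 := by gcongr
    have h1 : h ^ 2 * N2 ≤ h ^ 2 * (C5 / ε * a) ^ 2 := by gcongr; exact hN2.trans h0
    have h2 : h ^ 2 * (C5 / ε * a) ^ 2 = (h * ε⁻¹) ^ 2 * (C5 ^ 2 * a ^ 2) := by
      rw [div_eq_mul_inv]; ring
    rw [h2] at h1
    have h3 : (h * ε⁻¹) ^ 2 ≤ σ := by
      calc (h * ε⁻¹) ^ 2 ≤ σ ^ 2 := by gcongr
        _ ≤ σ := pow_le_of_le_one hσ0 hσ1 two_ne_zero
    refine h1.trans ?_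
    gcongr
  have hP : ε ^ 2 + h ^ 2 + h ^ 2 * ε⁻¹ * a ^ 2 ≤ h * (2 + c1 ^ 2) := by
    have h1 : h ^ 2 ≤ h := pow_le_of_le_one hh.le hh1 two_ne_zero
    have h2 : h ^ 2 * ε⁻¹ * a ^ 2 ≤ h * c1 ^ 2 := by
      have h3 : h ^ 2 * ε⁻¹ = h * (h * ε⁻¹) := by ring
      rw [h3]
      have h4 : h * (h * ε⁻¹) ≤ h * 1 := by gcongr; exact hhε.trans hσ1
      calc h * (h * ε⁻¹) * a ^ 2 ≤ h * 1 * c1 ^ 2 := by gcongr
        _ = h * c1 ^ 2 := by ring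
    have h5 : h * (2 + c1 ^ 2) = h + h + h * c1 ^ 2 := by ring
    rw [h5]
    linarith
  have hP0 : 0 ≤ ε ^ 2 + h ^ 2 + h ^ 2 * ε⁻¹ * a ^ 2 := by positivity
  have hP' : h * (2 + c1 ^ 2) ≤ σ * (2 + c1 ^ 2) := by gcongr
  have T4 : S4 ≤ C4 * (2 + c1 ^ 2) * (h * V) + σ * (C4 * (2 + c1 ^ 2) * c1 ^ 2) := by
    refine hS4.trans ?_
    have h1 : C4 * (ε ^ 2 + h ^ 2 + h ^ 2 * ε⁻¹ * a ^ 2) * V ≤ C4 * (2 + c1 ^ 2) * (h * V) := by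
      calc C4 * (ε ^ 2 + h ^ 2 + h ^ 2 * ε⁻¹ * a ^ 2) * V ≤ C4 * (h * (2 + c1 ^ 2)) * V := by
            gcongr
        _ = C4 * (2 + c1 ^ 2) * (h * V) := by ring
    have h2 : C4 * (ε ^ 2 + h ^ 2 + h ^ 2 * ε⁻¹ * a ^ 2) * a ^ 2 ≤
        σ * (C4 * (2 + c1 ^ 2) * c1 ^ 2) := by
      calc C4 * (ε ^ 2 + h ^ 2 + h ^ 2 * ε⁻¹ * a ^ 2) * a ^ 2 ≤
            C4 * (σ * (2 + c1 ^ 2)) * c1 ^ 2 := by
            gcongr
            exact hP.trans hP'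
        _ = σ * (C4 * (2 + c1 ^ 2) * c1 ^ 2) := by ring
    rw [mul_add]
    linarith
  have T1 : h * S1 ≤ h * V := by gcongr
  have TG : C2 * G ≤ C2 * Dd + C2 * C5 * c1 ^ 2 * σ := by
    have h1 : C2 * G ≤ C2 * (Dd + C5 * ε * a ^ 2) := by gcongr
    have h2 : C2 * (C5 * ε * a ^ 2) ≤ C2 * (C5 * σ * c1 ^ 2) := by gcongr
    have h3 : C2 * (C5 * σ * c1 ^ 2) = C2 * C5 * c1 ^ 2 * σ := by ring
    rw [mul_add] at h1
    linarith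
  have TT : C2 * (h * S1 + h * N1 * a + h ^ 2 * N2 + S4) ≤
      C2 * (h * V + σ * (C5 * c1 ^ 2) + σ * (C5 ^ 2 * c1 ^ 2) +
        (C4 * (2 + c1 ^ 2) * (h * V) + σ * (C4 * (2 + c1 ^ 2) * c1 ^ 2))) := by
    gcongr
  have hfin : R ≤ -(1 / 4) * Q + C2 * Dd + C2 * (1 + C4 * (2 + c1 ^ 2)) * (h * V) +
      (C2 * C5 * c1 ^ 2 + C2 * (C5 * c1 ^ 2 + C5 ^ 2 * c1 ^ 2 + C4 * (2 + c1 ^ 2) * c1 ^ 2)) *
        σ := by
    have e1 : C2 * (h * V + σ * (C5 * c1 ^ 2) + σ * (C5 ^ 2 * c1 ^ 2) +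
        (C4 * (2 + c1 ^ 2) * (h * V) + σ * (C4 * (2 + c1 ^ 2) * c1 ^ 2))) =
        C2 * (1 + C4 * (2 + c1 ^ 2)) * (h * V) +
        C2 * (C5 * c1 ^ 2 + C5 ^ 2 * c1 ^ 2 + C4 * (2 + c1 ^ 2) * c1 ^ 2) * σ := by ring
    have e2 : (C2 * C5 * c1 ^ 2 + C2 * (C5 * c1 ^ 2 + C5 ^ 2 * c1 ^ 2 +
        C4 * (2 + c1 ^ 2) * c1 ^ 2)) * σ = C2 * C5 * c1 ^ 2 * σ +
        C2 * (C5 * c1 ^ 2 + C5 ^ 2 * c1 ^ 2 + C4 * (2 + c1 ^ 2) * c1 ^ 2) * σ := by ring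
    rw [e2]
    linarith
  have hi : 0 < h⁻¹ := inv_pos.2 hh
  have h5 := mul_le_mul_of_nonneg_left hfin hi.le
  have h6 : h⁻¹ * (h * V) = V := by
    rw [← mul_assoc, inv_mul_cancel₀ hh.ne', one_mul]
  calc h⁻¹ * R ≤ _ := h5
    _ = -(1 / 4) * (h⁻¹ * Q) + C2 * (h⁻¹ * Dd) + C2 * (1 + C4 * (2 + c1 ^ 2)) * (h⁻¹ * (h * V)) +
      (C2 * C5 * c1 ^ 2 + C2 * (C5 * c1 ^ 2 + C5 ^ 2 * c1 ^ 2 + C4 * (2 + c1 ^ 2) * c1 ^ 2)) *
        (σ * h⁻¹) := by ring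
    _ = _ := by rw [h6]

theorem F6_ph {L : ℝ} (hL : 0 < L) : Measurable (ph L) ∧ (∃ C, ∀ x, |ph L x| ≤ C) ∧
    ∀ x, 0 ≤ ph L x ∧ ph L x ≤ L + 8 := by
  obtain ⟨h1, _, _, h4⟩ := Mlt_ph hL
  exact ⟨h1.1.continuous.measurable,
    ⟨L + 8, fun x => by rw [abs_of_nonneg (h4 x).1]; exact (h4 x).2⟩, h4⟩

theorem F6_bb {L : ℝ} (hL : 0 < L) : Measurable (bb L) ∧ (∃ C, ∀ x, |bb L x| ≤ C) ∧
    ∀ x, 0 ≤ bb L x := by
  have h1 := Mlt_bb hL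
  have h4 := (bb_facts' hL).1
  exact ⟨h1.1.continuous.measurable,
    ⟨1, fun x => by rw [abs_of_nonneg (h4 x).1]; exact (h4 x).2⟩, fun x => (h4 x).1⟩

theorem F6_damp {L : ℝ} (hL : 0 < L) : Measurable (damp L) ∧ (∃ C, ∀ x, |damp L x| ≤ C) ∧
    ∀ x, 0 ≤ damp L x := by
  have h1 := Mlt_damp hL
  have h4 := (damp_facts hL).1
  exact ⟨h1.1.continuous.measurable,
    ⟨1, fun x => by rw [abs_of_nonneg (h4 x).1]; exact (h4 x).2⟩, fun x => (h4 x).1⟩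

theorem F6_Qf_nonneg (p : Pr n) (M : Fin n → Fin n → ℝ) (x0 ε : ℝ) (z : HH n) :
    0 ≤ Qf p M x0 ε z := by
  obtain ⟨h1, h2, h3⟩ := F6_bb p.hL
  exact Finset.sum_nonneg fun j _ => F6_inner_nonneg h1 h2 h3 _

theorem F6_Dw_nonneg (p : Pr n) (z : HH n) : 0 ≤ Dw p.L z := by
  obtain ⟨h1, h2, h3⟩ := F6_damp p.hL
  unfold Dw
  rw [PiLp.inner_apply]
  exact Finset.sum_nonneg fun j _ => F6_inner_nonneg h1 h2 h3 _

theorem F6_Vx_nonneg {L : ℝ} (v : VV n L) : 0 ≤ Vx v :=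
  Finset.sum_nonneg fun j _ => sq_nonneg _

/-- The bound of the second term of the functional. -/
theorem F6_Ef2 (p : Pr n) (M : Fin n → Fin n → ℝ) (x0 : ℝ) {ε c1 : ℝ} (hε : 0 < ε) (z : HH n)
    (hc : ‖z‖ ≤ c1) :
    |∑ j, inner ℝ (mulOp (ph p.L) (aM M (aw p.L x0) (Zi 0 ε z) j)) (Zi 0 ε z j)| ≤
      (∑ j, ‖mulOp (ph p.L)‖ * ∑ k, |M j k| * ‖mulOp (aw p.L x0)‖) * c1 ^ 2 := by
  have hc1 : 0 ≤ c1 := (norm_nonneg _).trans hc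
  rw [Finset.sum_mul]
  refine (Finset.abs_sum_le_sum_abs _ _).trans (Finset.sum_le_sum fun j _ => ?_)
  have b1 := F6_aM M (aw p.L x0) hε z j
  have hk : 0 ≤ ∑ k, |M j k| * ‖mulOp (aw p.L x0)‖ :=
    Finset.sum_nonneg fun k _ => mul_nonneg (abs_nonneg _) (norm_nonneg _)
  have b2 : ‖aM M (aw p.L x0) (Zi 0 ε z) j‖ ≤
      (∑ k, |M j k| * ‖mulOp (aw p.L x0)‖) * c1 :=
    b1.trans (mul_le_mul_of_nonneg_left hc hk)
  have b3 : ‖Zi 0 ε z j‖ ≤ c1 := ((Mo_zero_norm hε _).trans (F6_comp z j)).trans hc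
  calc |inner ℝ (mulOp (ph p.L) (aM M (aw p.L x0) (Zi 0 ε z) j)) (Zi 0 ε z j)| ≤
        ‖mulOp (ph p.L) (aM M (aw p.L x0) (Zi 0 ε z) j)‖ * ‖Zi 0 ε z j‖ :=
          abs_real_inner_le_norm _ _
    _ ≤ (‖mulOp (ph p.L)‖ * ((∑ k, |M j k| * ‖mulOp (aw p.L x0)‖) * c1)) * c1 := by
        refine mul_le_mul (((mulOp (ph p.L)).le_opNorm _).trans
          (mul_le_mul_of_nonneg_left b2 (norm_nonneg _))) b3 (norm_nonneg _) ?_
        exact mul_nonneg (norm_nonneg _) (mul_nonneg hk hc1)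
    _ = _ := by ring

theorem F6_Ef_ge (p : Pr n) (M : Fin n → Fin n → ℝ) (x0 : ℝ) {ε h c1 : ℝ} (hε : 0 < ε)
    (hh : 0 ≤ h) (z : HH n) (hc : ‖z‖ ≤ c1) :
    -(1 / 2 * ((∑ j, ‖mulOp (ph p.L)‖ * ∑ k, |M j k| * ‖mulOp (aw p.L x0)‖) * c1 ^ 2)) ≤
      Ef p M x0 ε h z := by
  obtain ⟨h1, h2, h3⟩ := F6_ph p.hL
  have h4 := fun x => (h3 x).1
  unfold Ef
  have a1 : 0 ≤ ∑ j, p.mu j * inner ℝ (mulOp (ph p.L) (Zi 1 ε z j)) (Zi 1 ε z j) :=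
    Finset.sum_nonneg fun j _ => mul_nonneg (p.hmu j).le (F6_inner_nonneg h1 h2 h4 _)
  have a2 := (abs_le.1 (F6_Ef2 p M x0 hε z hc)).1
  have a3 := mul_nonneg hh a1
  linarith

theorem F6_Ef_le (p : Pr n) (M : Fin n → Fin n → ℝ) (x0 : ℝ) {ε h C5 c1 : ℝ} (hh : 0 < h)
    (hε : 0 < ε) (hC5 : 0 ≤ C5) (z : VV n p.L)
    (hS1 : (∑ j, ∫ x in Icc (-3 / 4) (p.L + 3 / 4), (Zi 1 ε (inc n p.L z) j x) ^ 2) ≤ Vx z)
    (hS2 : (∑ j, ∫ x in (Icc (-1 / 2) (p.L + 1 / 2))ᶜ, (Zi 1 ε (inc n p.L z) j x) ^ 2) ≤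
      C5 / ε ^ 2 * Dw p.L (inc n p.L z))
    (hV : h * Vx z ≤ 1) (hD : h * Dw p.L (inc n p.L z) ≤ ε ^ 2) (hc : ‖inc n p.L z‖ ≤ c1) :
    Ef p M x0 ε h (inc n p.L z) ≤ 1 / 2 * ((∑ j, p.mu j) * (p.L + 8) * (1 + C5) +
      (∑ j, ‖mulOp (ph p.L)‖ * ∑ k, |M j k| * ‖mulOp (aw p.L x0)‖) * c1 ^ 2) := by
  obtain ⟨h1, h2, h3⟩ := F6_ph p.hL
  have hL8 : 0 ≤ p.L + 8 := by linarith [p.hL]
  have hmu : ∀ j, p.mu j ≤ ∑ k, p.mu k := fun j =>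
    Finset.single_le_sum (f := p.mu) (fun k _ => (p.hmu k).le) (Finset.mem_univ j)
  have hmu0 : 0 ≤ ∑ k, p.mu k := Finset.sum_nonneg fun k _ => (p.hmu k).le
  unfold Ef
  have a1 : ∑ j, p.mu j * inner ℝ (mulOp (ph p.L) (Zi 1 ε (inc n p.L z) j))
      (Zi 1 ε (inc n p.L z) j) ≤ (∑ k, p.mu k) * ((p.L + 8) * (Vx z +
        C5 / ε ^ 2 * Dw p.L (inc n p.L z))) := by
    have b1 : ∀ j, p.mu j * inner ℝ (mulOp (ph p.L) (Zi 1 ε (inc n p.L z) j))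
        (Zi 1 ε (inc n p.L z) j) ≤ (∑ k, p.mu k) * ((p.L + 8) *
          ((∫ x in Icc (-3 / 4) (p.L + 3 / 4), (Zi 1 ε (inc n p.L z) j x) ^ 2) +
            ∫ x in (Icc (-1 / 2) (p.L + 1 / 2))ᶜ, (Zi 1 ε (inc n p.L z) j x) ^ 2)) := by
      intro j
      have c1 := F6_cover (L := p.L) h1 h3 hL8 (Zi 1 ε (inc n p.L z) j)
      have c2 := F6_inner_nonneg h1 h2 (fun x => (h3 x).1) (Zi 1 ε (inc n p.L z) j)
      exact mul_le_mul (hmu j) c1 c2 hmu0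
    refine (Finset.sum_le_sum fun j _ => b1 j).trans ?_
    rw [← Finset.mul_sum, ← Finset.mul_sum, Finset.sum_add_distrib]
    gcongr
  have a1' : h * ∑ j, p.mu j * inner ℝ (mulOp (ph p.L) (Zi 1 ε (inc n p.L z) j))
      (Zi 1 ε (inc n p.L z) j) ≤ (∑ j, p.mu j) * (p.L + 8) * (1 + C5) := by
    have b1 := mul_le_mul_of_nonneg_left a1 hh.le
    have b2 : h * ((∑ k, p.mu k) * ((p.L + 8) * (Vx z + C5 / ε ^ 2 * Dw p.L (inc n p.L z)))) =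
        (∑ k, p.mu k) * (p.L + 8) * (h * Vx z + C5 / ε ^ 2 * (h * Dw p.L (inc n p.L z))) := by
      ring
    rw [b2] at b1
    have b3 : C5 / ε ^ 2 * (h * Dw p.L (inc n p.L z)) ≤ C5 := by
      calc C5 / ε ^ 2 * (h * Dw p.L (inc n p.L z)) ≤ C5 / ε ^ 2 * ε ^ 2 := by gcongr
        _ = C5 := by field_simp
    refine b1.trans ?_
    gcongr
  have a2 := (abs_le.1 (F6_Ef2 p M x0 hε (inc n p.L z) hc)).2
  linarith

theorem flush_window (p : Pr n) {e : Fin n → ℝ} {α x0 ts CZ : ℝ} (he : IsDir p.g e α)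
    (hx0 : 2 * (p.L + 4) ≤ x0) (hts : 0 < ts) (hCZ : 0 ≤ CZ) (C1 : ℝ) : ∃ C : ℝ, 0 < C ∧
    ∀ (t1 : ℝ) (B : Bk p t1) (Z : ℝ → Fin n → ℝ), 0 < t1 → t1 < ts →
    IsRay p B e x0 (fun t => -(α * (ts - t))⁻¹) Z →
    (∀ t ∈ Icc 0 t1, ∀ j, |Z t j| ≤ CZ) →
    ∀ (z0 : HH n) (f : ℝ → HH n) (v : ℝ → VV n p.L),
    Run p B (fun t => (ts - t)⁻¹) z0 f v →
    (∀ t ∈ Icc 0 t1, ‖p.sm.traj z0 f t‖ ≤ C1) →
    (∫ t in (0 : ℝ)..t1, Vx (v t)) ≤ C1 →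
    (∫ t in (0 : ℝ)..t1, (ts - t)⁻¹ * Dw p.L (p.sm.traj z0 f t)) ≤ C1 →
    ∀ (ta tb ε σ : ℝ), 0 ≤ ta → ta ≤ tb → tb ≤ t1 → ts - ta ≤ 1 → 0 < ε → ε ≤ 1 / 8 →
      0 ≤ σ → σ ≤ 1 → ε ^ 2 ≤ ts - tb → ts - ta ≤ σ → ts - ta ≤ σ * ε →
      (ts - ta) * Vx (v ta) ≤ 1 → (ts - ta) * Dw p.L (p.sm.traj z0 f ta) ≤ ε ^ 2 →
      inc n p.L (v ta) = p.sm.traj z0 f ta →
      (∫ t in ta..tb, (ts - t)⁻¹ *
          (Qf p (fun j k => Hm p.g e j k / α) x0 ε (p.sm.traj z0 f t) +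
            Dw p.L (p.sm.traj z0 f t) + (ts - t) * Vx (v t))) ≤
        C * (1 + σ * ∫ t in ta..tb, (ts - t)⁻¹) := by
  have hα : 0 < α := he.dir.pos
  have hM : ∀ j k, (fun j k => Hm p.g e j k / α) j k = (fun j k => Hm p.g e j k / α) k j :=
    fun j k => by
      change Hm p.g e j k / α = Hm p.g e k j / α
      rw [Hm_symm p.sym]
  obtain ⟨C2, hC2, h2⟩ := flush_alg p hM x0
  obtain ⟨C4, hC4, h4⟩ := flush_comm p (e := e) hα x0 CZ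
  obtain ⟨C5, hC5, h5⟩ := Zi_bounds p
  generalize hMdef : (fun j k => Hm p.g e j k / α) = M at *
  have hc0 : 0 ≤ |C1| := abs_nonneg _
  have hc1 : C1 ≤ |C1| := le_abs_self _
  generalize |C1| = c1 at hc0 hc1
  obtain ⟨A, hA⟩ : ∃ A, A = C2 * (1 + C4 * (2 + c1 ^ 2)) := ⟨_, rfl⟩
  obtain ⟨A', hA'⟩ : ∃ A', A' = C2 * C5 * c1 ^ 2 +
    C2 * (C5 * c1 ^ 2 + C5 ^ 2 * c1 ^ 2 + C4 * (2 + c1 ^ 2) * c1 ^ 2) := ⟨_, rfl⟩
  have hmu0 : 0 ≤ ∑ k, p.mu k := Finset.sum_nonneg fun k _ => (p.hmu k).le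
  have hL8 : 0 ≤ p.L + 8 := by linarith [p.hL]
  have hK : 0 ≤ ∑ j, ‖mulOp (ph p.L)‖ * ∑ k, |M j k| * ‖mulOp (aw p.L x0)‖ :=
    Finset.sum_nonneg fun k _ => by positivity
  obtain ⟨E0, hE0⟩ : ∃ E0, E0 = 1 / 2 * ((∑ j, p.mu j) * (p.L + 8) * (1 + C5) +
      (∑ j, ‖mulOp (ph p.L)‖ * ∑ k, |M j k| * ‖mulOp (aw p.L x0)‖) * c1 ^ 2) := ⟨_, rfl⟩
  have hA0 : 0 ≤ A := by rw [hA]; positivity
  have hA'0 : 0 ≤ A' := by rw [hA']; positivity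
  have hE00 : 0 ≤ E0 := by
    rw [hE0]
    positivity
  refine ⟨4 * (2 * E0 + C2 * c1 + A * c1) + 2 * c1 + 4 * A' + 1, by positivity, ?_⟩
  intro t1 B Z ht1 hts1 hB hZ z0 f v hrun hbd hVx hDw ta tb ε σ hta htab htb hta1 hε hε8 hσ0 hσ1
    hεh hhσ hhσε hV1 hD1 hinc
  have hpos : ∀ t ∈ Icc 0 t1, 0 < ts - t := fun t ht => by linarith [ht.2]
  have hD : ContinuousOn (fun t => (ts - t)⁻¹) (Icc 0 t1) :=
    ContinuousOn.inv₀ (by fun_prop) fun t ht => (hpos t ht).ne'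
  obtain ⟨hyc, hVi, hDc, -, -⟩ := wd_int p ht1.le hrun hD x0
  obtain ⟨hRi, hE⟩ := flush_deriv p hM (x0 := x0) hε hts1 hrun.path.int hta htab htb
  have hsub : Ioc ta tb ⊆ Ioc 0 t1 := Ioc_subset_Ioc hta htb
  have hsub' : Icc ta tb ⊆ Icc 0 t1 := Icc_subset_Icc hta htb
  -- the pointwise inequality
  have hpt : ∀ᵐ r ∂volume.restrict (Ioc ta tb),
      (ts - r)⁻¹ * Rf p M x0 ε (ts - r) (p.sm.traj z0 f r)
        (om p M x0 ε (ts - r) (p.sm.traj z0 f r) (f r)) ≤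
      -(1 / 4) * ((ts - r)⁻¹ * Qf p M x0 ε (p.sm.traj z0 f r)) +
        C2 * ((ts - r)⁻¹ * Dw p.L (p.sm.traj z0 f r)) + A * Vx (v r) +
        A' * (σ * (ts - r)⁻¹) := by
    filter_upwards [ae_restrict_of_ae_restrict_of_subset hsub hrun.path.lift,
      ae_restrict_of_ae_restrict_of_subset hsub hrun.eq, ae_restrict_mem measurableSet_Ioc]
      with r h1 h3 hr
    have hrI : r ∈ Icc 0 t1 := ⟨hta.trans hr.1.le, hr.2.trans htb⟩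
    have hh : 0 < ts - r := hpos r hrI
    have hinc' : inc n p.L (v r) = p.sm.traj z0 f r := h1
    rw [hB.r r hrI, sub_zero] at h3
    obtain ⟨g1, g2⟩ := h4 (ts - r) ε (B.w r) (B.wx r) (Z r) (v r) hh
      (by linarith [hr.1]) hε hε8 (hZ r hrI)
      (fun j => (B.cw j).comp (by fun_prop : Continuous fun x : ℝ => (r, x)))
      (fun j => (B.cwx j).comp (by fun_prop : Continuous fun x : ℝ => (r, x)))
      (fun x hx j => hB.w r hrI x hx j) (fun x hx j => hB.wx r hrI x hx j)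
    obtain ⟨k1, k2, k3, -, -⟩ := h5 ε (v r) hε hε8
    rw [← h3, hinc'] at g1 g2
    rw [hinc'] at k1 k2 k3
    have hR := h2 (ts - r) ε (p.sm.traj z0 f r)
      (fun j => om p M x0 ε (ts - r) (p.sm.traj z0 f r) (f r) j -
        k0 p.L x0 M (Zi 0 ε (p.sm.traj z0 f r)) j) hh (by linarith [hr.1]) hε hε8
      (fun j => by
        filter_upwards [g1 j, Lp.coeFn_sub (om p M x0 ε (ts - r) (p.sm.traj z0 f r) (f r) j)
          (k0 p.L x0 M (Zi 0 ε (p.sm.traj z0 f r)) j)] with x hx1 hx2 hx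
        rw [hx2, Pi.sub_apply, hx1 hx, sub_self])
    have hom : (fun j => k0 p.L x0 M (Zi 0 ε (p.sm.traj z0 f r)) j +
        (om p M x0 ε (ts - r) (p.sm.traj z0 f r) (f r) j -
          k0 p.L x0 M (Zi 0 ε (p.sm.traj z0 f r)) j)) =
        om p M x0 ε (ts - r) (p.sm.traj z0 f r) (f r) := by
      funext j
      abel
    rw [hom] at hR
    have hy := (hbd r hrI).trans hc1
    rw [hA, hA']
    exact F6_arith (Q := Qf p M x0 ε (p.sm.traj z0 f r)) hh (by linarith [hr.1]) hε hσ0 hσ1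
      (by linarith [hr.2]) (by linarith [hr.1]) (by linarith [hr.1]) hC2 hC4 hC5
      (norm_nonneg _) hy (F6_Vx_nonneg _) k3 k2 k1
      (Finset.sum_nonneg fun j _ => norm_nonneg _)
      (F6_sum_sq _ fun j => norm_nonneg _) g2 hR
  -- integrability
  have hD' : ContinuousOn (fun t => (ts - t)⁻¹) (Icc ta tb) := hD.mono hsub'
  have iR : IntegrableOn (fun r => (ts - r)⁻¹ * Rf p M x0 ε (ts - r) (p.sm.traj z0 f r)
        (om p M x0 ε (ts - r) (p.sm.traj z0 f r) (f r))) (Ioc ta tb) := hRi.mono_set hsub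
  have toI : ∀ {g : ℝ → ℝ}, ContinuousOn g (Icc ta tb) → IntegrableOn g (Ioc ta tb) :=
    fun hg => (hg.integrableOn_Icc).mono_set Ioc_subset_Icc_self
  have iQ : IntegrableOn (fun r => (ts - r)⁻¹ * Qf p M x0 ε (p.sm.traj z0 f r)) (Ioc ta tb) :=
    toI (hD'.mul ((F6_Qf_cont p M x0 ε).comp_continuousOn (hyc.mono hsub')))
  have iD0 : ContinuousOn (fun r => (ts - r)⁻¹ * Dw p.L (p.sm.traj z0 f r)) (Icc 0 t1) :=
    hD.mul hDc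
  have iD : IntegrableOn (fun r => (ts - r)⁻¹ * Dw p.L (p.sm.traj z0 f r)) (Ioc ta tb) :=
    toI (iD0.mono hsub')
  have iV : IntegrableOn (fun r => Vx (v r)) (Ioc ta tb) := hVi.mono_set hsub
  have iH : IntegrableOn (fun r => (ts - r)⁻¹) (Ioc ta tb) := toI hD'
  -- integrate
  have hmain : (∫ r in Ioc ta tb, (ts - r)⁻¹ * Rf p M x0 ε (ts - r) (p.sm.traj z0 f r)
        (om p M x0 ε (ts - r) (p.sm.traj z0 f r) (f r))) ≤
      -(1 / 4) * (∫ r in Ioc ta tb, (ts - r)⁻¹ * Qf p M x0 ε (p.sm.traj z0 f r)) +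
        C2 * (∫ r in Ioc ta tb, (ts - r)⁻¹ * Dw p.L (p.sm.traj z0 f r)) +
        A * (∫ r in Ioc ta tb, Vx (v r)) + A' * (σ * ∫ r in Ioc ta tb, (ts - r)⁻¹) := by
    have j1 := iQ.const_mul (-(1 / 4))
    have j2 := iD.const_mul C2
    have j3 := iV.const_mul A
    have j4 := (iH.const_mul σ).const_mul A'
    have j12 : Integrable (fun r => -(1 / 4) * ((ts - r)⁻¹ * Qf p M x0 ε (p.sm.traj z0 f r)) +
        C2 * ((ts - r)⁻¹ * Dw p.L (p.sm.traj z0 f r))) (volume.restrict (Ioc ta tb)) :=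
      j1.add j2
    have j123 : Integrable (fun r => -(1 / 4) * ((ts - r)⁻¹ * Qf p M x0 ε (p.sm.traj z0 f r)) +
        C2 * ((ts - r)⁻¹ * Dw p.L (p.sm.traj z0 f r)) + A * Vx (v r))
        (volume.restrict (Ioc ta tb)) := j12.add j3
    have j1234 : Integrable (fun r => -(1 / 4) * ((ts - r)⁻¹ * Qf p M x0 ε (p.sm.traj z0 f r)) +
        C2 * ((ts - r)⁻¹ * Dw p.L (p.sm.traj z0 f r)) + A * Vx (v r) + A' * (σ * (ts - r)⁻¹))
        (volume.restrict (Ioc ta tb)) := j123.add j4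
    refine (integral_mono_ae iR j1234 hpt).trans (le_of_eq ?_)
    rw [integral_add j123 j4, integral_add j12 j3, integral_add j1 j2,
      integral_const_mul, integral_const_mul, integral_const_mul, integral_const_mul,
      integral_const_mul]
  rw [← intervalIntegral.integral_of_le htab, ← intervalIntegral.integral_of_le htab,
    ← intervalIntegral.integral_of_le htab, ← intervalIntegral.integral_of_le htab,
    ← intervalIntegral.integral_of_le htab, ← hE] at hmain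
  -- the integrals over the window
  have bV : (∫ t in ta..tb, Vx (v t)) ≤ c1 := by
    refine le_trans ?_ (hVx.trans hc1)
    exact intervalIntegral.integral_mono_interval hta htab htb
      (Eventually.of_forall fun t => F6_Vx_nonneg _)
      ((intervalIntegrable_iff_integrableOn_Ioc_of_le ht1.le).2 hVi)
  have bD : (∫ t in ta..tb, (ts - t)⁻¹ * Dw p.L (p.sm.traj z0 f t)) ≤ c1 := by
    refine le_trans ?_ (hDw.trans hc1)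
    refine intervalIntegral.integral_mono_interval hta htab htb ?_
      (iD0.intervalIntegrable_of_Icc ht1.le)
    filter_upwards [ae_restrict_mem measurableSet_Ioc] with t ht
    exact mul_nonneg (inv_nonneg.2 (hpos t ⟨ht.1.le, ht.2⟩).le) (F6_Dw_nonneg p _)
  have bH : 0 ≤ ∫ t in ta..tb, (ts - t)⁻¹ :=
    intervalIntegral.integral_nonneg htab fun t ht => inv_nonneg.2 (hpos t (hsub' ht)).le
  have htbI : tb ∈ Icc 0 t1 := ⟨hta.trans htab, htb⟩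
  have bE : -E0 ≤ Ef p M x0 ε (ts - tb) (p.sm.traj z0 f tb) := by
    refine le_trans ?_ (F6_Ef_ge p M x0 hε (hpos tb htbI).le (p.sm.traj z0 f tb)
      ((hbd tb htbI).trans hc1))
    rw [hE0]
    have : 0 ≤ (∑ j, p.mu j) * (p.L + 8) * (1 + C5) := by positivity
    linarith
  have bEa : Ef p M x0 ε (ts - ta) (p.sm.traj z0 f ta) ≤ E0 := by
    obtain ⟨-, k2, -, k4, -⟩ := h5 ε (v ta) hε hε8
    rw [hE0, ← hinc]
    refine F6_Ef_le p M x0 (hpos ta ⟨hta, htab.trans htb⟩) hε hC5 (v ta) k2 k4 hV1 ?_ ?_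
    · rw [hinc]; exact hD1
    · rw [hinc]; exact (hbd ta ⟨hta, htab.trans htb⟩).trans hc1
  -- the conclusion
  have hfin : (∫ t in ta..tb, (ts - t)⁻¹ * (Qf p M x0 ε (p.sm.traj z0 f t) +
            Dw p.L (p.sm.traj z0 f t) + (ts - t) * Vx (v t))) =
      (∫ t in ta..tb, (ts - t)⁻¹ * Qf p M x0 ε (p.sm.traj z0 f t)) +
      (∫ t in ta..tb, (ts - t)⁻¹ * Dw p.L (p.sm.traj z0 f t)) + ∫ t in ta..tb, Vx (v t) := by
    have l1 := (intervalIntegrable_iff_integrableOn_Ioc_of_le htab).2 iQ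
    have l2 := (intervalIntegrable_iff_integrableOn_Ioc_of_le htab).2 iD
    have l3 := (intervalIntegrable_iff_integrableOn_Ioc_of_le htab).2 iV
    rw [← intervalIntegral.integral_add l1 l2, ← intervalIntegral.integral_add (l1.add l2) l3]
    refine intervalIntegral.integral_congr fun t ht => ?_
    rw [uIcc_of_le htab] at ht
    have := (hpos t (hsub' ht)).ne'
    change (ts - t)⁻¹ * (Qf p M x0 ε (p.sm.traj z0 f t) +
            Dw p.L (p.sm.traj z0 f t) + (ts - t) * Vx (v t)) = (ts - t)⁻¹ *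
            Qf p M x0 ε (p.sm.traj z0 f t) + (ts - t)⁻¹ * Dw p.L (p.sm.traj z0 f t) + Vx (v t)
    field_simp
  rw [hfin]
  have m1 := mul_le_mul_of_nonneg_left bD hC2
  have m2 := mul_le_mul_of_nonneg_left bV hA0
  have m3 : 0 ≤ σ * ∫ t in ta..tb, (ts - t)⁻¹ := mul_nonneg hσ0 bH
  have m4 : 0 ≤ (4 * (2 * E0 + C2 * c1 + A * c1) + 2 * c1 + 1) * (σ * ∫ t in ta..tb, (ts - t)⁻¹) :=
    mul_nonneg (by positivity) m3
  have m5 : (4 * (2 * E0 + C2 * c1 + A * c1) + 2 * c1 + 4 * A' + 1) *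
      (1 + σ * ∫ t in ta..tb, (ts - t)⁻¹) =
      (4 * (2 * E0 + C2 * c1 + A * c1) + 2 * c1 + 4 * A' + 1) +
      (4 * (2 * E0 + C2 * c1 + A * c1) + 2 * c1 + 1) * (σ * ∫ t in ta..tb, (ts - t)⁻¹) +
      4 * (A' * (σ * ∫ t in ta..tb, (ts - t)⁻¹)) := by ring
  rw [m5]
  linarith

end Pool.Agent.KG
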