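import Pool.Agent.Lib.KG.R_F5
import Pool.Agent.Lib.KG.R_U1
import Pool.Agent.Lib.MP_78c35a_an.Agm

/-!
# Row F7a: the end of the flush
-/

set_option autoImplicit false

namespace Pool.Agent.KG

open MeasureTheory Filter Topology Set
open Pool.Agent.Kdv
open scoped ENNReal ContDiff InnerProductSpace

variable {n : ℕ}

theorem F7a_inner_L2 (f g : L2) : inner ℝ f g = ∫ x, f x * g x := by
  rw [L2.inner_def]
  refine integral_congr_ae (Eventually.of_forall fun x => ?_)
  show inner ℝ (f x) (g x) = f x * g x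
  rw [real_inner_eq_re_inner, RCLike.inner_apply]
  simp [mul_comm]

theorem F7a_bdd {m : ℝ → ℝ} (hm : Mlt m) : ∃ C, ∀ x, |m x| ≤ C := by
  obtain ⟨C, hC⟩ := hm.2 0
  exact ⟨C, fun x => by simpa using hC x⟩

theorem F7a_mul_ae {m : ℝ → ℝ} (hm : Mlt m) (f : L2) :
    ∀ᵐ x ∂volume, mulOp m f x = m x * f x :=
  mulOp_ae hm.1.continuous.measurable (F7a_bdd hm) f

theorem F7a_sum_ae {ι : Type} (s : Finset ι) (f : ι → L2) :
    ∀ᵐ x ∂volume, (∑ i ∈ s, f i : L2) x = ∑ i ∈ s, f i x := by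
  classical
  induction s using Finset.induction_on with
  | empty =>
    filter_upwards [Lp.coeFn_zero ℝ 2 (volume : Measure ℝ)] with x hx
    rw [Finset.sum_empty, Finset.sum_empty, hx]
    rfl
  | insert a s ha ih =>
    rw [Finset.sum_insert ha]
    filter_upwards [ih, Lp.coeFn_add (f a) (∑ i ∈ s, f i)] with x h1 h2
    rw [h2, Pi.add_apply, h1, Finset.sum_insert ha]

theorem F7a_aM_ae (M : Fin n → Fin n → ℝ) {a : ℝ → ℝ} (ha : Mlt a) (Z : Fin n → L2) (j : Fin n) :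
    ∀ᵐ x ∂volume, aM M a Z j x = a x * mv M (fun k => Z k x) j := by
  have h1 := F7a_sum_ae Finset.univ (fun k => M j k • mulOp a (Z k))
  have h2 : ∀ᵐ x ∂volume, ∀ k, (M j k • mulOp a (Z k) : L2) x = M j k * (a x * Z k x) := by
    rw [ae_all_iff]
    intro k
    filter_upwards [Lp.coeFn_smul (M j k) (mulOp a (Z k)), F7a_mul_ae ha (Z k)] with x h3 h4
    rw [h3, Pi.smul_apply, smul_eq_mul, h4]
  filter_upwards [h1, h2] with x h3 h4
  rw [aM, h3, mv, Finset.mul_sum]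
  refine Finset.sum_congr rfl fun k _ => ?_
  rw [h4]
  ring

theorem F7a_norm_sq (z : HH n) : ‖z‖ ^ 2 = ∑ j, ∫ x, z j x ^ 2 := by
  rw [PiLp.norm_sq_eq_of_L2]
  exact Finset.sum_congr rfl fun j _ => AgmAux.norm_sq _

theorem F7a_sq_int (f : L2) : Integrable (fun x => f x ^ 2) volume := by
  have h := AgmAux.mul_int f f
  simpa only [pow_two] using h

theorem F7a_mul_sq_int {m : ℝ → ℝ} (hm : Mlt m) (f : L2) :
    Integrable (fun x => m x * f x ^ 2) volume := by
  refine (AgmAux.mul_int (mulOp m f) f).congr ?_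
  filter_upwards [F7a_mul_ae hm f] with x hx
  rw [hx]
  ring

theorem F7a_inner {m : ℝ → ℝ} (hm : Mlt m) (f : L2) :
    inner ℝ (mulOp m f) f = ∫ x, m x * f x ^ 2 := by
  rw [F7a_inner_L2]
  refine integral_congr_ae ?_
  filter_upwards [F7a_mul_ae hm f] with x hx
  rw [hx]
  ring

theorem F7a_Dw (p : Pr n) (z : HH n) : Dw p.L z = ∑ j, ∫ x, damp p.L x * z j x ^ 2 := by
  rw [Dw, PiLp.inner_apply]
  refine Finset.sum_congr rfl fun j _ => ?_
  exact F7a_inner (Mlt_damp p.hL) (z j)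

theorem flush_end (p : Pr n) {e : Fin n → ℝ} {α x0 c : ℝ} (he : IsDir p.g e α)
    (hinv : ∀ ξ : Fin n → ℝ, c * dot ξ ξ ≤ dot (mv (Hm p.g e) ξ) (mv (Hm p.g e) ξ)) (hc : 0 < c)
    (hx0 : 2 * (p.L + 4) ≤ x0) : ∃ C : ℝ, 0 < C ∧ ∀ (ε h : ℝ) (z : VV n p.L), 0 < ε →
      ε ≤ 1 / 8 → ε ^ 2 ≤ h → ‖inc n p.L z‖ ^ 2 ≤
        C * (Qf p (fun j k => Hm p.g e j k / α) x0 ε (inc n p.L z) + Dw p.L (inc n p.L z) +
          h * Vx z) := by
  obtain ⟨C0, hC0, hZ⟩ := Zi_bounds p
  have hα := he.dir.pos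
  set K : ℝ := 2 * α ^ 2 / c with hK
  have hK0 : 0 < K := by positivity
  refine ⟨K + 2, by positivity, fun ε h z hε hε8 hεh => ?_⟩
  obtain ⟨-, -, -, -, hlast⟩ := hZ ε z hε hε8
  set I : Set ℝ := Icc (-1 / 4) (p.L + 1 / 4) with hI
  set M : Fin n → Fin n → ℝ := fun j k => Hm p.g e j k / α with hM
  set ζ : Fin n → L2 := Zi 0 ε (inc n p.L z) with hζ
  set G : Fin n → L2 := aM M (aw p.L x0) ζ with hG
  have hdamp := damp_facts p.hL
  have hth := th_facts p.hL
  have hbb := bb_facts' p.hL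
  have hL := p.hL
  -- the three terms as integrals
  have hQ : Qf p M x0 ε (inc n p.L z) = ∑ j, ∫ x, bb p.L x * G j x ^ 2 := by
    rw [Qf]
    exact Finset.sum_congr rfl fun j _ => F7a_inner (Mlt_bb p.hL) (G j)
  have hD : Dw p.L (inc n p.L z) = ∑ j, ∫ x, damp p.L x * uu j z x ^ 2 := F7a_Dw p _
  have hN : ‖inc n p.L z‖ ^ 2 = ∑ j, ∫ x, uu j z x ^ 2 := F7a_norm_sq _
  have hQ0 : 0 ≤ Qf p M x0 ε (inc n p.L z) := by
    rw [hQ]
    exact Finset.sum_nonneg fun j _ => integral_nonneg fun x =>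
      mul_nonneg (hbb.1 x).1 (sq_nonneg _)
  have hD0 : 0 ≤ Dw p.L (inc n p.L z) := by
    rw [hD]
    exact Finset.sum_nonneg fun j _ => integral_nonneg fun x =>
      mul_nonneg (hdamp.1 x).1 (sq_nonneg _)
  have hV0 : 0 ≤ Vx z := Finset.sum_nonneg fun j _ => sq_nonneg _
  -- the pointwise inequality
  have hpt : ∀ᵐ x ∂volume, ∑ j, uu j z x ^ 2 ≤ ∑ j, (damp p.L x * uu j z x ^ 2 +
      K * (bb p.L x * G j x ^ 2) + 2 * I.indicator (fun x => (ζ j x - uu j z x) ^ 2) x) := by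
    have h1 : ∀ᵐ x ∂volume, ∀ j, G j x = aw p.L x0 x * mv M (fun k => ζ k x) j := by
      rw [ae_all_iff]
      exact fun j => F7a_aM_ae M (Mlt_aw p.hL x0) ζ j
    filter_upwards [h1] with x hx
    have hd0 := (hdamp.1 x).1
    have hb0 := (hbb.1 x).1
    by_cases hxI : x ∈ I
    · have hbx : bb p.L x = 1 := hbb.2.1 x ⟨by linarith [hxI.1], by linarith [hxI.2]⟩
      have htx : th p.L x = 1 := hth.2.1 x ⟨by linarith [hxI.1], by linarith [hxI.2]⟩
      have hwx := (wt_bounds p.hL hx0 x).1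
      have ha : 1 ≤ aw p.L x0 x := by
        rw [aw, htx, one_mul]
        linarith
      have ha2 : 1 ≤ aw p.L x0 x ^ 2 := by nlinarith
      have h2 := hinv (fun k => ζ k x)
      have h3 : ∀ j, mv (Hm p.g e) (fun k => ζ k x) j = α * mv M (fun k => ζ k x) j := by
        intro j
        rw [mv, mv, Finset.mul_sum]
        refine Finset.sum_congr rfl fun k _ => ?_
        rw [hM]
        field_simp
      have h4 : dot (mv (Hm p.g e) fun k => ζ k x) (mv (Hm p.g e) fun k => ζ k x) ≤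
          α ^ 2 * ∑ j, G j x ^ 2 := by
        rw [dot, Finset.mul_sum]
        refine Finset.sum_le_sum fun j _ => ?_
        rw [h3, hx j]
        have h5 : 0 ≤ mv M (fun k => ζ k x) j ^ 2 := sq_nonneg _
        have h6 : 0 ≤ α ^ 2 := sq_nonneg _
        calc α * mv M (fun k => ζ k x) j * (α * mv M (fun k => ζ k x) j) =
            α ^ 2 * (1 * mv M (fun k => ζ k x) j ^ 2) := by ring
          _ ≤ α ^ 2 * (aw p.L x0 x ^ 2 * mv M (fun k => ζ k x) j ^ 2) :=
            mul_le_mul_of_nonneg_left (mul_le_mul_of_nonneg_right ha2 h5) h6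
          _ = α ^ 2 * (aw p.L x0 x * mv M (fun k => ζ k x) j) ^ 2 := by ring
      have h7 : ∑ j, ζ j x ^ 2 ≤ α ^ 2 / c * ∑ j, G j x ^ 2 := by
        have h8 : c * ∑ j, ζ j x ^ 2 ≤ α ^ 2 * ∑ j, G j x ^ 2 := by
          refine le_trans (le_of_eq ?_) (h2.trans h4)
          rw [dot]
          congr 1
          exact Finset.sum_congr rfl fun j _ => by ring
        rw [div_mul_eq_mul_div, le_div_iff₀ hc]
        linarith
      have h9 : ∑ j, uu j z x ^ 2 ≤ ∑ j, (2 * ζ j x ^ 2 + 2 * (ζ j x - uu j z x) ^ 2) := by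
        refine Finset.sum_le_sum fun j _ => ?_
        nlinarith [sq_nonneg (2 * ζ j x - uu j z x)]
      have h10 : ∑ j, (2 * ζ j x ^ 2 + 2 * (ζ j x - uu j z x) ^ 2) =
          2 * ∑ j, ζ j x ^ 2 + 2 * ∑ j, (ζ j x - uu j z x) ^ 2 := by
        rw [Finset.sum_add_distrib, Finset.mul_sum, Finset.mul_sum]
      have h11 : ∑ j, (damp p.L x * uu j z x ^ 2 + K * (bb p.L x * G j x ^ 2) +
          2 * I.indicator (fun x => (ζ j x - uu j z x) ^ 2) x) =
          damp p.L x * ∑ j, uu j z x ^ 2 + K * ∑ j, G j x ^ 2 +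
            2 * ∑ j, (ζ j x - uu j z x) ^ 2 := by
        rw [Finset.sum_add_distrib, Finset.sum_add_distrib, Finset.mul_sum, Finset.mul_sum,
          Finset.mul_sum]
        congr 1
        · congr 1
          exact Finset.sum_congr rfl fun j _ => by rw [hbx, one_mul]
        · exact Finset.sum_congr rfl fun j _ => by rw [indicator_of_mem hxI]
      rw [h11]
      have h12 : 0 ≤ damp p.L x * ∑ j, uu j z x ^ 2 :=
        mul_nonneg hd0 (Finset.sum_nonneg fun j _ => sq_nonneg _)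
      have h13 : K * ∑ j, G j x ^ 2 = 2 * (α ^ 2 / c * ∑ j, G j x ^ 2) := by
        rw [hK]
        ring
      rw [h13]
      linarith
    · have hdx : damp p.L x = 1 := by
        refine hdamp.2.2.1 x fun h => hxI ⟨?_, ?_⟩
        · linarith [h.1]
        · linarith [h.2]
      refine Finset.sum_le_sum fun j _ => ?_
      rw [hdx, indicator_of_notMem hxI, mul_zero, add_zero, one_mul]
      have h5 : 0 ≤ K * (bb p.L x * G j x ^ 2) :=
        mul_nonneg hK0.le (mul_nonneg hb0 (sq_nonneg _))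
      linarith
  have hmI : MeasurableSet I := measurableSet_Icc
  have hi1 : ∀ j, Integrable (fun x => damp p.L x * uu j z x ^ 2) volume := fun j =>
    F7a_mul_sq_int (Mlt_damp p.hL) _
  have hi2 : ∀ j, Integrable (fun x => bb p.L x * G j x ^ 2) volume := fun j =>
    F7a_mul_sq_int (Mlt_bb p.hL) _
  have hi3 : ∀ j, Integrable (fun x => (ζ j x - uu j z x) ^ 2) volume := by
    intro j
    refine (F7a_sq_int (ζ j - uu j z)).congr ?_
    filter_upwards [Lp.coeFn_sub (ζ j) (uu j z)] with x hx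
    rw [hx, Pi.sub_apply]
  have hi4 : ∀ j, Integrable (I.indicator (fun x => (ζ j x - uu j z x) ^ 2)) volume := fun j =>
    (hi3 j).indicator hmI
  have hi5 : ∀ j, Integrable (fun x => damp p.L x * uu j z x ^ 2 +
      K * (bb p.L x * G j x ^ 2) +
      2 * I.indicator (fun x => (ζ j x - uu j z x) ^ 2) x) volume := fun j =>
    ((hi1 j).add ((hi2 j).const_mul K)).add ((hi4 j).const_mul 2)
  have hint : ∑ j, ∫ x, uu j z x ^ 2 ≤ ∑ j, ((∫ x, damp p.L x * uu j z x ^ 2) +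
      K * (∫ x, bb p.L x * G j x ^ 2) + 2 * ∫ x in I, (ζ j x - uu j z x) ^ 2) := by
    have e1 : ∑ j, ∫ x, uu j z x ^ 2 = ∫ x, ∑ j, uu j z x ^ 2 :=
      (integral_finsetSum _ fun j _ => F7a_sq_int _).symm
    have e2 : ∑ j, ((∫ x, damp p.L x * uu j z x ^ 2) +
        K * (∫ x, bb p.L x * G j x ^ 2) + 2 * ∫ x in I, (ζ j x - uu j z x) ^ 2) =
        ∫ x, ∑ j, (damp p.L x * uu j z x ^ 2 + K * (bb p.L x * G j x ^ 2) +
          2 * I.indicator (fun x => (ζ j x - uu j z x) ^ 2) x) := by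
      rw [integral_finsetSum _ fun j _ => hi5 j]
      refine Finset.sum_congr rfl fun j _ => ?_
      have e3 : ∫ x, (damp p.L x * uu j z x ^ 2 + K * (bb p.L x * G j x ^ 2) +
          2 * I.indicator (fun x => (ζ j x - uu j z x) ^ 2) x) =
          (∫ x, (damp p.L x * uu j z x ^ 2 + K * (bb p.L x * G j x ^ 2))) +
          ∫ x, 2 * I.indicator (fun x => (ζ j x - uu j z x) ^ 2) x :=
        integral_add ((hi1 j).add ((hi2 j).const_mul K)) ((hi4 j).const_mul 2)
      rw [e3, integral_add (hi1 j) ((hi2 j).const_mul K), integral_const_mul,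
        integral_const_mul, integral_indicator hmI]
    rw [e1, e2]
    exact integral_mono_ae (integrable_finsetSum _ fun j _ => F7a_sq_int _)
      (integrable_finsetSum _ fun j _ => hi5 j) hpt
  rw [Finset.sum_add_distrib, Finset.sum_add_distrib, ← Finset.mul_sum, ← Finset.mul_sum,
    ← hQ, ← hD, ← hN] at hint
  have hV1 : 2 * (ε ^ 2 * Vx z) ≤ 2 * (h * Vx z) :=
    mul_le_mul_of_nonneg_left (mul_le_mul_of_nonneg_right hεh hV0) (by norm_num)
  have hhV : 0 ≤ h * Vx z := mul_nonneg ((sq_nonneg ε).trans hεh) hV0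
  have hfin : ‖inc n p.L z‖ ^ 2 ≤ Dw p.L (inc n p.L z) + K * Qf p M x0 ε (inc n p.L z) +
      2 * (h * Vx z) := by
    refine hint.trans ?_
    have := hlast
    linarith
  refine hfin.trans ?_
  nlinarith [mul_nonneg hK0.le hD0, mul_nonneg hK0.le hhV, mul_nonneg hK0.le hQ0]

end Pool.Agent.KG
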