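import Pool.Agent.Lib.KG.R_F6
import Pool.Agent.Lib.KG.R_F7a
import Pool.Agent.Lib.KG.R_U4

/-!
# Row F7: the flush
-/

set_option autoImplicit false

namespace Pool.Agent.KG

open MeasureTheory Filter Topology Set
open Pool.Agent.Kdv
open scoped ENNReal ContDiff InnerProductSpace

variable {n : ℕ}

/-- A time at which a function is at most as large as another one. -/
theorem F7_exists {f g : ℝ → ℝ} {a b : ℝ} (hab : a < b) (hf : IntegrableOn f (Ioc a b))
    (hg : IntegrableOn g (Ioc a b)) {P : ℝ → Prop}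
    (hP : ∀ᵐ t ∂volume.restrict (Ioc a b), P t)
    (h : ∫ t in a..b, f t ≤ ∫ t in a..b, g t) : ∃ t ∈ Ioc a b, P t ∧ f t ≤ g t := by
  by_contra hcon
  push Not at hcon
  have h1 : ∀ᵐ t ∂volume.restrict (Ioc a b), g t < f t := by
    filter_upwards [hP, ae_restrict_mem measurableSet_Ioc] with t h1 h2
    exact hcon t h2 h1
  rw [intervalIntegral.integral_of_le hab.le, intervalIntegral.integral_of_le hab.le] at h
  have h2 : ∫ t in Ioc a b, (f t - g t) ≤ 0 := by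
    rw [integral_sub hf hg]
    linarith
  have h3 : 0 ≤ᵐ[volume.restrict (Ioc a b)] fun t => f t - g t := by
    filter_upwards [h1] with t ht
    show 0 ≤ f t - g t
    linarith
  have h4 := (integral_eq_zero_iff_of_nonneg_ae h3 (hf.sub hg)).1
    (le_antisymm h2 (integral_nonneg_of_ae h3))
  have h5 : ∀ᵐ t ∂(volume : Measure ℝ).restrict (Ioc a b), False := by
    filter_upwards [h1, h4] with t ht ht'
    have ht'' : f t - g t = 0 := ht'
    linarith
  rw [ae_iff] at h5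
  simp only [not_false_eq_true, Set.ofPred_true, Measure.restrict_apply_univ, Real.volume_Ioc,
    ENNReal.ofReal_eq_zero] at h5
  linarith

/-- The logarithmic integral. -/
theorem F7_log {ts a b : ℝ} (hab : a ≤ b) (hb : b < ts) :
    ∫ t in a..b, (ts - t)⁻¹ = Real.log ((ts - a) / (ts - b)) := by
  rw [intervalIntegral.integral_comp_sub_left (fun x => x⁻¹) ts,
    integral_inv_of_pos (by linarith) (by linarith)]

theorem F7_dot (ξ : Fin n → ℝ) (j k : Fin n) : |ξ j| * |ξ k| ≤ dot ξ ξ := by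
  have h : ∀ i, |ξ i| ^ 2 ≤ dot ξ ξ := by
    intro i
    unfold dot
    rw [sq_abs, sq]
    exact Finset.single_le_sum (f := fun i => ξ i * ξ i) (fun i _ => mul_self_nonneg _)
      (Finset.mem_univ i)
  have h1 := h j
  have h2 := h k
  nlinarith [sq_nonneg (|ξ j| - |ξ k|)]

theorem F7_qd (g : Fin n → Fin n → Fin n → ℝ) {CZ : ℝ} {Z : Fin n → ℝ}
    (hZ : ∀ j, |Z j| ≤ CZ) (ξ : Fin n → ℝ) :
    |qd (Hm g Z) ξ| ≤ (∑ j, ∑ k, ∑ l, |g j k l| * CZ) * dot ξ ξ := by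
  unfold qd Hm
  rw [Finset.sum_mul]
  refine (Finset.abs_sum_le_sum_abs _ _).trans (Finset.sum_le_sum fun j _ => ?_)
  rw [Finset.sum_mul]
  refine (Finset.abs_sum_le_sum_abs _ _).trans (Finset.sum_le_sum fun k _ => ?_)
  rw [mul_assoc, abs_mul, abs_mul]
  have h1 : |∑ l, g j k l * Z l| ≤ ∑ l, |g j k l| * CZ := by
    refine (Finset.abs_sum_le_sum_abs _ _).trans (Finset.sum_le_sum fun l _ => ?_)
    rw [abs_mul]
    exact mul_le_mul_of_nonneg_left (hZ l) (abs_nonneg _)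
  have h2 := F7_dot ξ j k
  have h3 : 0 ≤ ∑ l, |g j k l| * CZ := (abs_nonneg _).trans h1
  exact mul_le_mul h1 h2 (by positivity) h3

theorem F7_exp {x : ℝ} (hx : x < 0) : Real.exp x < 1 := by
  rw [← Real.exp_zero]
  exact Real.exp_lt_exp.2 hx

theorem F7_Vx {L : ℝ} (v : VV n L) : 0 ≤ Vx v := Finset.sum_nonneg fun _ _ => sq_nonneg _

theorem F7_Dw {L : ℝ} (hL : 0 < L) (z : HH n) : 0 ≤ Dw L z := by
  unfold Dw
  rw [PiLp.inner_apply]
  refine Finset.sum_nonneg fun j _ => ?_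
  have h1 : mulH (damp L) z j = mulOp (damp L) (z j) := rfl
  obtain ⟨hd, _⟩ := damp_facts hL
  have hm : Measurable (damp L) := (Mlt_damp hL).1.continuous.measurable
  rw [h1, Skw.inner_eq]
  refine integral_nonneg_of_ae ?_
  filter_upwards [mulOp_ae hm ⟨1, fun x => by
    rw [abs_of_nonneg (hd x).1]
    exact (hd x).2⟩ (z j)] with x hx
  show 0 ≤ mulOp (damp L) (z j) x * z j x
  rw [hx, mul_assoc]
  exact mul_nonneg (hd x).1 (mul_self_nonneg _)

theorem F7_Qf (p : Pr n) (M : Fin n → Fin n → ℝ) (x0 ε : ℝ) {z : ℝ → HH n} {s : Set ℝ}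
    (hz : ContinuousOn z s) : ContinuousOn (fun t => Qf p M x0 ε (z t)) s := by
  unfold Qf
  refine continuousOn_finsetSum _ fun j _ => ?_
  have h1 : ContinuousOn (fun t => aM M (aw p.L x0) (Zi 0 ε (z t)) j) s := by
    unfold aM Zi
    refine continuousOn_finsetSum _ fun k _ => ?_
    have h2 : ContinuousOn (fun t => z t k) s := (prH k).continuous.comp_continuousOn hz
    exact (M j k • ((mulOp (aw p.L x0)).comp (Mo 0 ε))).continuous.comp_continuousOn h2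
  exact ((mulOp (bb p.L)).continuous.comp_continuousOn h1).inner h1

theorem F7_inv {ts t1 : ℝ} (ht1 : t1 < ts) : ContinuousOn (fun t => (ts - t)⁻¹) (Icc 0 t1) := by
  refine ContinuousOn.inv₀ (by fun_prop) fun t ht => ?_
  have := ht.2
  linarith

/-- The choice of `ta`. -/
theorem F7_ta (p : Pr n) {ts C1 h0 K2 N t1 : ℝ} (hh0 : 0 < h0) (hh0t : h0 ≤ ts)
    (hK2 : 0 < K2) (hN : C1 * (1 + 1 / K2) ≤ N) (hN0 : 0 < N)
    (ht1 : t1 < ts) (ht1' : ts - h0 * Real.exp (-N) ≤ t1)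
    {B : Bk p t1} {D : ℝ → ℝ} {z0 : HH n} {f : ℝ → HH n} {v : ℝ → VV n p.L}
    (hR : Run p B D z0 f v)
    (hI : IntegrableOn (fun t => Vx (v t)) (Ioc 0 t1))
    (hV : (∫ t in (0 : ℝ)..t1, Vx (v t)) ≤ C1)
    (hW : (∫ t in (0 : ℝ)..t1, (ts - t)⁻¹ * Dw p.L (p.sm.traj z0 f t)) ≤ C1) :
    ∃ ta : ℝ, ts - h0 < ta ∧ ta ≤ ts - h0 * Real.exp (-N) ∧
      inc n p.L (v ta) = p.sm.traj z0 f ta ∧ (ts - ta) * Vx (v ta) ≤ 1 ∧
      Dw p.L (p.sm.traj z0 f ta) ≤ K2 := by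
  have hexp : Real.exp (-N) < 1 := F7_exp (by linarith)
  have hexp0 : 0 < Real.exp (-N) := Real.exp_pos _
  set h1 := h0 * Real.exp (-N) with hh1
  have hh10 : 0 < h1 := by positivity
  have hh1h : h1 < h0 := by
    calc h1 = h0 * Real.exp (-N) := hh1
      _ < h0 * 1 := mul_lt_mul_of_pos_left hexp hh0
      _ = h0 := mul_one _
  have ht10 : 0 ≤ t1 := by linarith
  have hab : ts - h0 < ts - h1 := by linarith
  have hz : ContinuousOn (fun r => p.sm.traj z0 f r) (Icc 0 t1) :=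
    p.sm.traj_cont z0 ht10 hR.path.int
  have hDc : ContinuousOn (fun r => Dw p.L (p.sm.traj z0 f r)) (Icc 0 t1) :=
    ((mulH (damp p.L)).continuous.comp_continuousOn hz).inner hz
  have hDi : IntegrableOn (fun t => (ts - t)⁻¹ * Dw p.L (p.sm.traj z0 f t)) (Ioc 0 t1) :=
    (((F7_inv ht1).mul hDc).integrableOn_Icc).mono_set Ioc_subset_Icc_self
  have hii : IntegrableOn (fun t => (ts - t)⁻¹) (Ioc 0 t1) :=
    ((F7_inv ht1).integrableOn_Icc).mono_set Ioc_subset_Icc_self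
  have hsub : Ioc (ts - h0) (ts - h1) ⊆ Ioc 0 t1 := Ioc_subset_Ioc (by linarith) ht1'
  have hFi : IntegrableOn (fun t => Vx (v t) + 1 / K2 *
      ((ts - t)⁻¹ * Dw p.L (p.sm.traj z0 f t))) (Ioc 0 t1) := hI.add (hDi.const_mul _)
  have hle1 : ∫ t in (ts - h0)..(ts - h1), (Vx (v t) + 1 / K2 *
      ((ts - t)⁻¹ * Dw p.L (p.sm.traj z0 f t))) ≤
      ∫ t in (0 : ℝ)..t1, (Vx (v t) + 1 / K2 *
      ((ts - t)⁻¹ * Dw p.L (p.sm.traj z0 f t))) := by
    rw [intervalIntegral.integral_of_le hab.le, intervalIntegral.integral_of_le ht10]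
    refine setIntegral_mono_set hFi ?_ (Eventually.of_forall hsub)
    rw [EventuallyLE, ae_restrict_iff' measurableSet_Ioc]
    refine Eventually.of_forall fun t ht => ?_
    have h2 : 0 < ts - t := by
      have := ht.2
      linarith
    have h3 := F7_Vx (v t)
    have h4 := F7_Dw p.hL (p.sm.traj z0 f t)
    show 0 ≤ Vx (v t) + 1 / K2 * ((ts - t)⁻¹ * Dw p.L (p.sm.traj z0 f t))
    positivity
  have hle2 : ∫ t in (0 : ℝ)..t1, (Vx (v t) + 1 / K2 *
      ((ts - t)⁻¹ * Dw p.L (p.sm.traj z0 f t))) ≤ N := by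
    rw [intervalIntegral.integral_add (ii_of hI le_rfl ht10 le_rfl)
      ((ii_of hDi le_rfl ht10 le_rfl).const_mul _), intervalIntegral.integral_const_mul]
    have h5 : 1 / K2 * (∫ t in (0 : ℝ)..t1, (ts - t)⁻¹ * Dw p.L (p.sm.traj z0 f t)) ≤
        1 / K2 * C1 := mul_le_mul_of_nonneg_left hW (by positivity)
    have h6 : C1 * (1 + 1 / K2) = C1 + 1 / K2 * C1 := by ring
    linarith
  have hlog : ∫ t in (ts - h0)..(ts - h1), (ts - t)⁻¹ = N := by
    rw [F7_log hab.le (by linarith)]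
    have h7 : (ts - (ts - h0)) / (ts - (ts - h1)) = Real.exp N := by
      rw [sub_sub_cancel, sub_sub_cancel, hh1, Real.exp_neg]
      field_simp
    rw [h7, Real.log_exp]
  have hP : ∀ᵐ t ∂volume.restrict (Ioc (ts - h0) (ts - h1)),
      inc n p.L (v t) = p.sm.traj z0 f t :=
    ae_mono (Measure.restrict_mono hsub le_rfl) hR.path.lift
  obtain ⟨ta, hta, hPa, hle⟩ := F7_exists hab (hFi.mono_set hsub) (hii.mono_set hsub) hP
    ((hle1.trans hle2).trans hlog.ge)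
  refine ⟨ta, hta.1, hta.2, hPa, ?_, ?_⟩
  all_goals
    have hpos : 0 < ts - ta := by
      have := hta.2
      linarith
    have h8 := F7_Vx (v ta)
    have h9 := F7_Dw p.hL (p.sm.traj z0 f ta)
    have h10 : (ts - ta) * (Vx (v ta) + 1 / K2 *
        ((ts - ta)⁻¹ * Dw p.L (p.sm.traj z0 f ta))) ≤ 1 := by
      calc _ ≤ (ts - ta) * (ts - ta)⁻¹ := mul_le_mul_of_nonneg_left hle hpos.le
        _ = 1 := mul_inv_cancel₀ hpos.ne'
    have h11 : (ts - ta) * (Vx (v ta) + 1 / K2 *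
        ((ts - ta)⁻¹ * Dw p.L (p.sm.traj z0 f ta))) =
        (ts - ta) * Vx (v ta) + Dw p.L (p.sm.traj z0 f ta) / K2 := by
      field_simp
    rw [h11] at h10
    have h12 : 0 ≤ (ts - ta) * Vx (v ta) := by positivity
    have h13 : 0 ≤ Dw p.L (p.sm.traj z0 f ta) / K2 := by positivity
  · linarith
  · have h14 : Dw p.L (p.sm.traj z0 f ta) / K2 ≤ 1 := by linarith
    rwa [div_le_one hK2] at h14

theorem flush (p : Pr n) {e : Fin n → ℝ} {α x0 ts CZ c : ℝ} (he : IsDir p.g e α)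
    (hinv : ∀ ξ : Fin n → ℝ, c * dot ξ ξ ≤ dot (mv (Hm p.g e) ξ) (mv (Hm p.g e) ξ)) (hc : 0 < c)
    (hx0 : 2 * (p.L + 4) ≤ x0) (hts : 0 < ts) (hCZ : 0 ≤ CZ) {R δ : ℝ} (hδ : 0 < δ) (K0 : ℝ) :
    ∃ t1 : ℝ, 0 < t1 ∧ t1 < ts ∧ ∀ (B : Bk p t1) (Z : ℝ → Fin n → ℝ),
    IsRay p B e x0 (fun t => -(α * (ts - t))⁻¹) Z →
    (∀ t ∈ Icc 0 t1, ∀ j, |Z t j| ≤ CZ) →
    ∀ (z0 : HH n) (f : ℝ → HH n) (v : ℝ → VV n p.L), ‖z0‖ ≤ R →
    Run p B (fun t => (ts - t)⁻¹) z0 f v →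
      ∃ t : ℝ, 0 < t ∧ t ≤ t1 ∧ K0 ≤ (ts - t)⁻¹ ∧ ‖p.sm.traj z0 f t‖ ≤ δ := by
  obtain ⟨C1, hC1, hup⟩ := up_bound p he hx0 hts
    (show 0 ≤ ∑ j, ∑ k, ∑ l, |p.g j k l| * CZ by positivity) R
  obtain ⟨C, hC, hwin⟩ := flush_window p he hx0 hts hCZ C1
  obtain ⟨Ce, hCe, hend⟩ := flush_end p he hinv hc hx0
  -- the constants
  set S : ℝ := 1 + 2 * C * Ce / δ ^ 2 with hS
  have hS1 : 1 ≤ S := by
    have : 0 ≤ 2 * C * Ce / δ ^ 2 := by positivity
    linarith
  have hS0 : 0 < S := by linarith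
  have hSδ : Ce * (2 * C / S) ≤ δ ^ 2 := by
    have h1 : 2 * C * Ce / δ ^ 2 ≤ S := by linarith
    rw [div_le_iff₀ (by positivity)] at h1
    have h2 : Ce * (2 * C / S) = 2 * C * Ce / S := by ring
    rw [h2, div_le_iff₀ hS0]
    linarith
  set K2 : ℝ := Real.exp (-S) with hK2d
  have hK2 : 0 < K2 := Real.exp_pos _
  have hK21 : K2 < 1 := F7_exp (by linarith)
  set σ : ℝ := S⁻¹ with hσ
  have hσ0 : 0 < σ := inv_pos.2 hS0
  have hσ1 : σ ≤ 1 := inv_le_one_of_one_le₀ hS1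
  set h0 : ℝ := min (K2 * σ ^ 2) (min (ts / 2) (min (1 / 64) (|K0| + 1)⁻¹)) with hh0d
  have hh0 : 0 < h0 := by
    have : 0 < |K0| + 1 := by positivity
    rw [hh0d]
    refine lt_min (by positivity) (lt_min (by positivity) (lt_min (by norm_num) (by positivity)))
  have e1 : h0 ≤ K2 * σ ^ 2 := min_le_left _ _
  have e2 : h0 ≤ ts / 2 := (min_le_right _ _).trans (min_le_left _ _)
  have e3 : h0 ≤ 1 / 64 := ((min_le_right _ _).trans (min_le_right _ _)).trans (min_le_left _ _)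
  have e4 : h0 ≤ (|K0| + 1)⁻¹ :=
    ((min_le_right _ _).trans (min_le_right _ _)).trans (min_le_right _ _)
  have hh0σ : h0 ≤ σ := by
    refine e1.trans ?_
    calc K2 * σ ^ 2 ≤ 1 * σ ^ 2 := by gcongr
      _ = σ * σ := by ring
      _ ≤ σ * 1 := by gcongr
      _ = σ := mul_one _
  set N : ℝ := C1 * (1 + 1 / K2) + 1 with hNd
  have hN0 : 0 < N := by positivity
  have hexp : Real.exp (-N) < 1 := F7_exp (by linarith)
  have hexp0 : 0 < Real.exp (-N) := Real.exp_pos _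
  set h1 : ℝ := h0 * Real.exp (-N) with hh1d
  have hh1 : 0 < h1 := by positivity
  have hh1h : h1 < h0 := by
    calc h1 = h0 * Real.exp (-N) := hh1d
      _ < h0 * 1 := mul_lt_mul_of_pos_left hexp hh0
      _ = h0 := mul_one _
  have hKh : K2 * h1 < h1 := by
    calc K2 * h1 < 1 * h1 := mul_lt_mul_of_pos_right hK21 hh1
      _ = h1 := one_mul _
  have hKh0 : 0 < K2 * h1 := by positivity
  obtain ⟨t1, ht1d⟩ : ∃ t1 : ℝ, t1 = ts - K2 * h1 := ⟨_, rfl⟩
  have ht1 : t1 < ts := by linarith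
  have ht10 : 0 < t1 := by linarith
  refine ⟨t1, ht10, ht1, ?_⟩
  intro B Z hray hZ z0 f v hz0 hR
  obtain ⟨hn, hI, hV, hW⟩ := hup t1 B Z ht10 ht1 hray (fun t ht ξ => F7_qd p.g (hZ t ht) ξ)
    z0 f v hz0 hR
  obtain ⟨ta, hta1, hta2, hinc, hVa, hDa⟩ := F7_ta p hh0 (by linarith) hK2
    (show C1 * (1 + 1 / K2) ≤ N by linarith) hN0 ht1 (by linarith) hR hI hV hW
  set H : ℝ := ts - ta with hH
  have hHh : H < h0 := by linarith
  have hHh1 : h1 ≤ H := by linarith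
  have hH0 : 0 < H := by linarith
  set tb : ℝ := ts - K2 * H with htb
  set ε : ℝ := √(K2 * H) with hε
  have hKH : 0 < K2 * H := by positivity
  have hε0 : 0 < ε := Real.sqrt_pos.2 hKH
  have hε2 : ε ^ 2 = K2 * H := Real.sq_sqrt hKH.le
  have hKHH : K2 * H < H := by
    calc K2 * H < 1 * H := mul_lt_mul_of_pos_right hK21 hH0
      _ = H := one_mul _
  have hKHt : K2 * h1 ≤ K2 * H := by gcongr
  have hab : ta < tb := by linarith
  have hbt : tb ≤ t1 := by linarith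
  have hbts : tb < ts := by linarith
  have hε8 : ε ≤ 1 / 8 := by
    have h2 : ε ^ 2 ≤ (1 / 8) ^ 2 := by
      rw [hε2]
      calc K2 * H ≤ H := hKHH.le
        _ ≤ 1 / 64 := by linarith
        _ = (1 / 8) ^ 2 := by norm_num
    exact le_of_pow_le_pow_left₀ two_ne_zero (by norm_num) h2
  have hHσε : H ≤ σ * ε := by
    have h2 : H ^ 2 ≤ (σ * ε) ^ 2 := by
      rw [mul_pow, hε2]
      have h3 : H ≤ K2 * σ ^ 2 := hHh.le.trans e1
      calc H ^ 2 = H * H := sq H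
        _ ≤ (K2 * σ ^ 2) * H := mul_le_mul_of_nonneg_right h3 hH0.le
        _ = σ ^ 2 * (K2 * H) := by ring
    exact le_of_pow_le_pow_left₀ two_ne_zero (by positivity) h2
  have hwin' := hwin t1 B Z ht10 ht1 hray hZ z0 f v hR hn hV hW ta tb ε σ (by linarith) hab.le hbt
    (by linarith) hε0 hε8 hσ0.le hσ1 (by rw [hε2]; linarith) (by linarith) hHσε hVa
    (by
      rw [hε2, mul_comm K2 H]
      exact mul_le_mul_of_nonneg_left hDa hH0.le) hinc
  have hlog : ∫ t in ta..tb, (ts - t)⁻¹ = S := by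
    rw [F7_log hab.le hbts]
    have h7 : (ts - ta) / (ts - tb) = Real.exp S := by
      rw [← hH, htb, sub_sub_cancel, hK2d, Real.exp_neg]
      field_simp
    rw [h7, Real.log_exp]
  rw [hlog, hσ, inv_mul_cancel₀ hS0.ne'] at hwin'
  -- the second choice
  have hz : ContinuousOn (fun r => p.sm.traj z0 f r) (Icc 0 t1) :=
    p.sm.traj_cont z0 ht10.le hR.path.int
  have hDc : ContinuousOn (fun r => Dw p.L (p.sm.traj z0 f r)) (Icc 0 t1) :=
    ((mulH (damp p.L)).continuous.comp_continuousOn hz).inner hz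
  have hii : IntegrableOn (fun t => (ts - t)⁻¹) (Ioc 0 t1) :=
    ((F7_inv ht1).integrableOn_Icc).mono_set Ioc_subset_Icc_self
  have hsub : Ioc ta tb ⊆ Ioc 0 t1 := Ioc_subset_Ioc (by linarith) hbt
  have hFi : IntegrableOn (fun t => (ts - t)⁻¹ *
      (Qf p (fun j k => Hm p.g e j k / α) x0 ε (p.sm.traj z0 f t) +
        Dw p.L (p.sm.traj z0 f t) + (ts - t) * Vx (v t))) (Ioc 0 t1) := by
    have h2 : IntegrableOn (fun t => (ts - t)⁻¹ *
        (Qf p (fun j k => Hm p.g e j k / α) x0 ε (p.sm.traj z0 f t) +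
          Dw p.L (p.sm.traj z0 f t)) + Vx (v t)) (Ioc 0 t1) :=
      ((((F7_inv ht1).mul ((F7_Qf p (fun j k => Hm p.g e j k / α) x0 ε hz).add
        hDc)).integrableOn_Icc).mono_set Ioc_subset_Icc_self).add hI
    refine Integrable.congr h2 ?_
    rw [EventuallyEq, ae_restrict_iff' measurableSet_Ioc]
    refine Eventually.of_forall fun t ht => ?_
    have h3 : ts - t ≠ 0 := by
      have := ht.2
      linarith
    show (ts - t)⁻¹ * (Qf p (fun j k => Hm p.g e j k / α) x0 ε (p.sm.traj z0 f t) +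
          Dw p.L (p.sm.traj z0 f t)) + Vx (v t) = _
    field_simp
  have hP : ∀ᵐ t ∂volume.restrict (Ioc ta tb), inc n p.L (v t) = p.sm.traj z0 f t :=
    ae_mono (Measure.restrict_mono hsub le_rfl) hR.path.lift
  have hg : ∫ t in ta..tb, (ts - t)⁻¹ * (2 * C / S) = 2 * C := by
    rw [intervalIntegral.integral_mul_const, hlog]
    field_simp
  obtain ⟨t, ht, hinct, hle⟩ := F7_exists hab (hFi.mono_set hsub)
    ((hii.mono_set hsub).mul_const (2 * C / S)) hP (by rw [hg]; linarith)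
  have htpos : 0 < ts - t := by
    have := ht.2
    linarith
  have hle' := le_of_mul_le_mul_left hle (inv_pos.2 htpos)
  refine ⟨t, by linarith [ht.1], ht.2.trans hbt, ?_, ?_⟩
  · have h2 : ts - t ≤ h0 := by linarith [ht.1]
    have h3 : 0 < |K0| + 1 := by positivity
    have h4 : |K0| + 1 ≤ (ts - t)⁻¹ := by
      rw [le_inv_comm₀ h3 htpos]
      exact h2.trans e4
    have := le_abs_self K0
    linarith
  · have h2 := hend ε (ts - t) (v t) hε0 hε8 (by rw [hε2]; linarith [ht.2])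
    rw [hinct] at h2
    have h3 : ‖p.sm.traj z0 f t‖ ^ 2 ≤ δ ^ 2 :=
      h2.trans ((mul_le_mul_of_nonneg_left hle' hCe.le).trans hSδ)
    exact le_of_pow_le_pow_left₀ two_ne_zero hδ.le h3

end Pool.Agent.KG
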