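import Pool.Agent.Lib.KG.R_X1
import Pool.Agent.Lib.KG.R_F7

/-!
# Row X2: explosion and flush
-/

set_option autoImplicit false

namespace Pool.Agent.KG

open MeasureTheory Filter Topology Set
open Pool.Agent.Kdv
open scoped ENNReal ContDiff InnerProductSpace

theorem hinv_of_det (p : Pr 2) {e : Fin 2 → ℝ} (hd : det2 (Hm p.g e) < 0) : ∃ c : ℝ, 0 < c ∧
    ∀ ξ : Fin 2 → ℝ, c * dot ξ ξ ≤ dot (mv (Hm p.g e) ξ) (mv (Hm p.g e) ξ) := by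
  set M := Hm p.g e with hM
  unfold det2 at hd
  set a := M 0 0
  set b := M 0 1
  set c' := M 1 0
  set d := M 1 1
  have hN : 0 < a ^ 2 + b ^ 2 + c' ^ 2 + d ^ 2 := by
    by_contra h
    have ha : a ^ 2 = 0 := by nlinarith [sq_nonneg a, sq_nonneg b, sq_nonneg c', sq_nonneg d]
    have hb : b ^ 2 = 0 := by nlinarith [sq_nonneg a, sq_nonneg b, sq_nonneg c', sq_nonneg d]
    have ha' : a = 0 := by simpa using ha
    have hb' : b = 0 := by simpa using hb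
    rw [ha', hb'] at hd
    simp at hd
  have hD : 0 < (a * d - b * c') ^ 2 := by
    have : a * d - b * c' ≠ 0 := ne_of_lt hd
    positivity
  refine ⟨(a * d - b * c') ^ 2 / (a ^ 2 + b ^ 2 + c' ^ 2 + d ^ 2), by positivity, fun ξ => ?_⟩
  rw [div_mul_eq_mul_div, div_le_iff₀ hN]
  simp only [dot, mv, Fin.sum_univ_two]
  change (a * d - b * c') ^ 2 * (ξ 0 * ξ 0 + ξ 1 * ξ 1) ≤
    ((a * ξ 0 + b * ξ 1) * (a * ξ 0 + b * ξ 1) + (c' * ξ 0 + d * ξ 1) * (c' * ξ 0 + d * ξ 1)) *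
      (a ^ 2 + b ^ 2 + c' ^ 2 + d ^ 2)
  have h1 : (a * d - b * c') ^ 2 * (ξ 0 * ξ 0 + ξ 1 * ξ 1) =
      (d * (a * ξ 0 + b * ξ 1) - b * (c' * ξ 0 + d * ξ 1)) ^ 2 +
        (a * (c' * ξ 0 + d * ξ 1) - c' * (a * ξ 0 + b * ξ 1)) ^ 2 := by ring
  rw [h1]
  have h2 : ∀ p q r s : ℝ, (p * r - q * s) ^ 2 ≤ (p ^ 2 + q ^ 2) * (r ^ 2 + s ^ 2) := by
    intro p q r s
    nlinarith [sq_nonneg (p * s + q * r)]
  have h3 := h2 d b (a * ξ 0 + b * ξ 1) (c' * ξ 0 + d * ξ 1)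
  have h4 := h2 a c' (c' * ξ 0 + d * ξ 1) (a * ξ 0 + b * ξ 1)
  nlinarith [h3, h4]

theorem explode_flush (p : Pr 2) {e Xc : Fin 2 → ℝ} {α : ℝ} (he : Dir p.g e α)
    (hd : det2 (Hm p.g e) < 0) (hX : ∀ j, bil p.g Xc e j = -mv p.S e j) :
    ∃ xs : ℝ, 0 < xs ∧ ∀ x0 : ℝ, xs ≤ x0 → ∀ R δ K0 : ℝ, 0 < δ → 1 / α < K0 →
      ∀ y0 : HH 2, ‖y0‖ ≤ R → ∃ (m : ℝ) (z1 : HH 2), K0 ≤ m ∧ ‖z1‖ ≤ δ ∧
        p.Adm y0 (bg 2 p.L (fun x j => -(m * (x0 + x)) * e j + Xc j) + z1) (1 - 1 / (α * m)) := by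
  obtain ⟨c, hc, hinv⟩ := hinv_of_det p hd
  have hα := he.pos
  have hdir : IsDir p.g e α := ⟨he, Dir.le p.sym he hd⟩
  refine ⟨2 * (p.L + 4), by have := p.hL; positivity, fun x0 hx0 R δ K0 hδ _ y0 hy0 => ?_⟩
  set b0 : HH 2 := bg 2 p.L (fun x j => -((α * 1)⁻¹ * (x0 + x)) * e j + Xc j) with hb0
  set CZ : ℝ := |Xc 0| + |Xc 1| with hCZ
  obtain ⟨t1, ht1, ht1', hfl⟩ := flush p (x0 := x0) (ts := 1) (CZ := CZ) (R := R + ‖b0‖) hdir hinv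
    hc hx0 one_pos (by positivity) hδ (α * K0)
  have hZ : ∀ j, ContDiffOn ℝ ∞ (fun t : ℝ => (fun _ : ℝ => Xc) t j) (Iio (1 : ℝ)) :=
    fun j => contDiffOn_const
  obtain ⟨B, hB, hBb, hBt⟩ := ray_bk p (x0 := x0) he ht1 ht1' hZ (fun t ht j => by
    have h1 : mv p.S e j + bil p.g Xc e j = 0 := by rw [hX j]; ring
    simp only [deriv_const]
    rw [h1, mul_zero])
  have hDc : ContinuousOn (fun t : ℝ => (1 - t)⁻¹) (Icc 0 t1) := by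
    refine ContinuousOn.inv₀ (by fun_prop) fun t ht => ?_
    have := ht.2
    linarith
  obtain ⟨f, v, hrun⟩ := exists_run p ht1 B hDc (fun t ht => by
    have := ht.2
    exact inv_nonneg.2 (by linarith)) (y0 - B.b0)
  have hBb' : B.b0 = b0 := hBb
  obtain ⟨t, ht, htt, hK, hz⟩ := hfl B (fun _ => Xc) hB (fun t ht j => by
    fin_cases j
    · simp [hCZ]
    · simp [hCZ]) (y0 - B.b0) f v (by
    rw [hBb']
    calc ‖y0 - b0‖ ≤ ‖y0‖ + ‖b0‖ := norm_sub_le _ _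
      _ ≤ R + ‖b0‖ := by gcongr) hrun
  have h1t : 0 < 1 - t := by linarith
  refine ⟨(α * (1 - t))⁻¹, p.sm.traj (y0 - B.b0) f t, ?_, hz, ?_⟩
  · rw [mul_inv]
    have h2 : K0 = α⁻¹ * (α * K0) := by field_simp
    rw [h2]
    gcongr
  · have h3 := hrun.adm ht1.le (t := t) ⟨ht.le, htt⟩
    rw [hBt t ⟨ht.le, htt⟩] at h3
    have h4 : B.b0 + (y0 - B.b0) = y0 := by abel
    rw [h4] at h3
    have h5 : 1 - 1 / (α * (α * (1 - t))⁻¹) = t := by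
      field_simp
      ring
    rw [h5]
    exact h3

end Pool.Agent.KG
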