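import Mathlib

/-!
# Row TL1: Grönwall for the norm
-/

set_option autoImplicit false

namespace Pool.Agent.KG.TL1

open MeasureTheory Filter Topology Set

/-- One step of the argument: the bound with a positive constant under the root. -/
theorem TL1_aux {τ : ℝ} {F f : ℝ → ℝ} (hF : ∀ t, HasDerivAt F (f t) t) {κ r δ : ℝ}
    (hκ : 0 ≤ κ) (hr : 0 ≤ r) (hδ : 0 < δ) (h0 : ∀ t ∈ Icc 0 τ, 0 ≤ F t)
    (h : ∀ t ∈ Icc 0 τ, f t ≤ κ * F t + 2 * r * √(F t)) {t : ℝ} (ht : t ∈ Icc 0 τ) :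
    √(F t + δ) ≤ Real.exp (κ * t / 2) * (√(F 0 + δ) + r * t) := by
  have hpos : ∀ s ∈ Icc 0 τ, 0 < F s + δ := fun s hs => by linarith [h0 s hs]
  have hd : ∀ s ∈ Icc 0 τ, HasDerivAt (fun s => Real.exp (-(κ * s / 2)) * √(F s + δ) - r * s)
      (Real.exp (-(κ * s / 2)) * (-(κ / 2)) * √(F s + δ) +
        Real.exp (-(κ * s / 2)) * (f s / (2 * √(F s + δ))) - r) s := by
    intro s hs
    have h1 : HasDerivAt (fun s => Real.exp (-(κ * s / 2)))
        (Real.exp (-(κ * s / 2)) * (-(κ / 2))) s := by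
      have h2 : HasDerivAt (fun s : ℝ => -(κ * s / 2)) (-(κ / 2)) s := by
        have h3 := (((hasDerivAt_id' s).const_mul κ).div_const 2).fun_neg
        rwa [mul_one] at h3
      exact h2.exp
    have h2 : HasDerivAt (fun s => √(F s + δ)) (f s / (2 * √(F s + δ))) s :=
      ((hF s).add_const δ).sqrt (hpos s hs).ne'
    have h3 : HasDerivAt (fun s : ℝ => r * s) r s := by
      simpa using (hasDerivAt_id s).const_mul r
    exact (h1.mul h2).sub h3
  have hanti : AntitoneOn (fun s => Real.exp (-(κ * s / 2)) * √(F s + δ) - r * s)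
      (Icc 0 τ) := by
    refine antitoneOn_of_deriv_nonpos (convex_Icc 0 τ)
      (fun s hs => (hd s hs).continuousAt.continuousWithinAt)
      (fun s hs => (hd s (interior_subset hs)).differentiableAt.differentiableWithinAt) ?_
    intro s hs
    have hs' := interior_subset hs
    rw [(hd s hs').deriv]
    have hG : 0 < √(F s + δ) := Real.sqrt_pos.2 (hpos s hs')
    have hG2 : √(F s + δ) ^ 2 = F s + δ := Real.sq_sqrt (hpos s hs').le
    have hFG : √(F s) ≤ √(F s + δ) := Real.sqrt_le_sqrt (by linarith)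
    have h1 : f s / (2 * √(F s + δ)) ≤ κ / 2 * √(F s + δ) + r := by
      rw [div_le_iff₀ (by positivity)]
      have h2 := h s hs'
      have h3 : 2 * r * √(F s) ≤ 2 * r * √(F s + δ) :=
        mul_le_mul_of_nonneg_left hFG (by positivity)
      have h4 : κ * F s ≤ κ * (F s + δ) := mul_le_mul_of_nonneg_left (by linarith) hκ
      nlinarith [h2, h3, h4, hG2]
    have he : 0 < Real.exp (-(κ * s / 2)) := Real.exp_pos _
    have he1 : Real.exp (-(κ * s / 2)) ≤ 1 := by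
      rw [Real.exp_le_one_iff]
      have : 0 ≤ κ * s := mul_nonneg hκ hs'.1
      linarith
    have h5 : Real.exp (-(κ * s / 2)) * (f s / (2 * √(F s + δ))) ≤
        Real.exp (-(κ * s / 2)) * (κ / 2 * √(F s + δ) + r) := mul_le_mul_of_nonneg_left h1 he.le
    have h6 : Real.exp (-(κ * s / 2)) * r ≤ 1 * r := mul_le_mul_of_nonneg_right he1 hr
    nlinarith [h5, h6]
  have hτ : 0 ≤ τ := ht.1.trans ht.2
  have h1 := hanti (left_mem_Icc.2 hτ) ht ht.1
  simp only [mul_zero, zero_div, neg_zero, Real.exp_zero, one_mul, sub_zero] at h1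
  have he : Real.exp (κ * t / 2) * Real.exp (-(κ * t / 2)) = 1 := by
    rw [← Real.exp_add, add_neg_cancel, Real.exp_zero]
  calc √(F t + δ) = Real.exp (κ * t / 2) * (Real.exp (-(κ * t / 2)) * √(F t + δ)) := by
        rw [← mul_assoc, he, one_mul]
    _ ≤ Real.exp (κ * t / 2) * (√(F 0 + δ) + r * t) :=
        mul_le_mul_of_nonneg_left (by linarith) (Real.exp_pos _).le

/-- If `u² (t) ≤ u² (0) + ∫ (κ u² + 2 r u)` then `u t ≤ e^{κ t / 2} (u 0 + r t)`. -/
theorem gron_norm {τ : ℝ} {u : ℝ → ℝ} (hu : ContinuousOn u (Icc 0 τ)) (h0 : ∀ t, 0 ≤ u t)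
    {κ r : ℝ} (hκ : 0 ≤ κ) (hr : 0 ≤ r)
    (h : ∀ t ∈ Icc 0 τ, u t ^ 2 ≤ u 0 ^ 2 + ∫ s in (0 : ℝ)..t, (κ * u s ^ 2 + 2 * r * u s))
    {t : ℝ} (ht : t ∈ Icc 0 τ) : u t ≤ Real.exp (κ * t / 2) * (u 0 + r * t) := by
  have hτ : 0 ≤ τ := ht.1.trans ht.2
  have hc : Continuous fun s : ℝ => u (max 0 (min s τ)) :=
    hu.comp_continuous (by fun_prop) fun s => ⟨le_max_left _ _, max_le hτ (min_le_right _ _)⟩
  have hcu : ∀ s ∈ Icc 0 τ, u (max 0 (min s τ)) = u s := fun s hs => by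
    rw [min_eq_left hs.2, max_eq_right hs.1]
  have hf : Continuous fun s : ℝ =>
      κ * u (max 0 (min s τ)) ^ 2 + 2 * r * u (max 0 (min s τ)) :=
    ((hc.pow 2).const_mul κ).add (hc.const_mul (2 * r))
  have hF : ∀ s, HasDerivAt (fun s => u 0 ^ 2 + ∫ q in (0 : ℝ)..s,
      (κ * u (max 0 (min q τ)) ^ 2 + 2 * r * u (max 0 (min q τ))))
      (κ * u (max 0 (min s τ)) ^ 2 + 2 * r * u (max 0 (min s τ))) s := fun s =>
    (intervalIntegral.integral_hasDerivAt_right (hf.intervalIntegrable _ _)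
      (hf.stronglyMeasurableAtFilter _ _) hf.continuousAt).const_add _
  have heq : ∀ s ∈ Icc 0 τ, u s ^ 2 ≤ u 0 ^ 2 + ∫ q in (0 : ℝ)..s,
      (κ * u (max 0 (min q τ)) ^ 2 + 2 * r * u (max 0 (min q τ))) := by
    intro s hs
    refine (h s hs).trans (le_of_eq ?_)
    congr 1
    refine intervalIntegral.integral_congr fun q hq => ?_
    rw [uIcc_of_le hs.1] at hq
    have hq' : q ∈ Icc 0 τ := ⟨hq.1, hq.2.trans hs.2⟩
    change κ * u q ^ 2 + 2 * r * u q = _
    simp only [hcu q hq']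
  have hroot : ∀ s ∈ Icc 0 τ, u s ≤ √(u 0 ^ 2 + ∫ q in (0 : ℝ)..s,
      (κ * u (max 0 (min q τ)) ^ 2 + 2 * r * u (max 0 (min q τ)))) := fun s hs =>
    Real.le_sqrt_of_sq_le (heq s hs)
  have hmain : ∀ ε : ℝ, 0 < ε → u t ≤ Real.exp (κ * t / 2) * (u 0 + ε + r * t) := by
    intro ε hε
    have h1 := TL1_aux hF hκ hr (δ := ε ^ 2) (by positivity)
      (fun s hs => (sq_nonneg _).trans (heq s hs)) (fun s hs => by
        rw [hcu s hs]
        exact add_le_add (mul_le_mul_of_nonneg_left (heq s hs) hκ)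
          (mul_le_mul_of_nonneg_left (hroot s hs) (by positivity))) ht
    refine (hroot t ht).trans ((Real.sqrt_le_sqrt (by nlinarith)).trans (h1.trans ?_))
    refine mul_le_mul_of_nonneg_left ?_ (Real.exp_pos _).le
    have h3 : (u 0 ^ 2 + ∫ q in (0 : ℝ)..(0 : ℝ),
        (κ * u (max 0 (min q τ)) ^ 2 + 2 * r * u (max 0 (min q τ)))) + ε ^ 2 =
        u 0 ^ 2 + ε ^ 2 := by
      rw [intervalIntegral.integral_same, add_zero]
    have h4 : √(u 0 ^ 2 + ε ^ 2) ≤ u 0 + ε := by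
      refine Real.sqrt_le_iff.2 ⟨by linarith [h0 0], ?_⟩
      nlinarith [h0 0, mul_nonneg (h0 0) hε.le]
    rw [h3]
    linarith
  refine le_of_forall_pos_le_add fun ε hε => ?_
  have h1 := hmain (ε / Real.exp (κ * t / 2)) (by positivity)
  have h2 : Real.exp (κ * t / 2) * (u 0 + ε / Real.exp (κ * t / 2) + r * t) =
      Real.exp (κ * t / 2) * (u 0 + r * t) + ε := by
    field_simp
    ring
  linarith

end Pool.Agent.KG.TL1

namespace Pool.Agent.KG

alias gron_norm := TL1.gron_norm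

end Pool.Agent.KG
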