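import Pool.Agent.Lib.KG.InfS
import Pool.Agent.Lib.KG.Alg
import Pool.Agent.Lib.KG.TL1
import Pool.Agent.Lib.MP_78c35a_an.Energy

/-!
# Row TL2: the transition lemma
-/

set_option autoImplicit false

namespace Pool.Agent.KG.TL2

open MeasureTheory Filter Topology Set
open Pool.Agent.Kdv
open scoped ENNReal ContDiff InnerProductSpace

variable {n : ℕ}

theorem st_nonneg (x : ℝ) : 0 ≤ st x := Real.smoothTransition.nonneg x

theorem st_le_one (x : ℝ) : st x ≤ 1 := Real.smoothTransition.le_one x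

theorem th_nonneg (L x : ℝ) : 0 ≤ th L x := mul_nonneg (st_nonneg _) (st_nonneg _)

theorem th_le_one (L x : ℝ) : th L x ≤ 1 := mul_le_one₀ (st_le_one _) (st_nonneg _) (st_le_one _)

theorem th_out {L x : ℝ} (hx : x ∉ Icc (-(3 / 4)) (L + 3 / 4)) : th L x = 0 := by
  unfold th
  by_cases h : x < -(3 / 4)
  · rw [show st (4 * x + 3) = 0 from Real.smoothTransition.zero_of_nonpos (by linarith), zero_mul]
  · have h1 : L + 3 / 4 < x := by
      by_contra h2
      exact hx ⟨not_lt.1 h, not_lt.1 h2⟩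
    rw [show st (4 * (L - x) + 3) = 0 from Real.smoothTransition.zero_of_nonpos (by linarith),
      mul_zero]

theorem damp_nonneg (L x : ℝ) : 0 ≤ damp L x := by
  unfold damp
  linarith [mul_le_one₀ (st_le_one (4 * x + 1)) (st_nonneg (4 * (L - x) + 1))
    (st_le_one (4 * (L - x) + 1))]

theorem damp_le_one (L x : ℝ) : damp L x ≤ 1 := by
  unfold damp
  linarith [mul_nonneg (st_nonneg (4 * x + 1)) (st_nonneg (4 * (L - x) + 1))]

theorem damp_cont (L : ℝ) : Continuous (damp L) := by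
  unfold damp st
  have h := Real.smoothTransition.continuous
  fun_prop

theorem damp_inner (L : ℝ) (y : HH n) : 0 ≤ inner ℝ (mulH (damp L) y) y := by
  rw [Skw.inner_HH]
  refine integral_nonneg_of_ae ?_
  have h : ∀ j, ∀ᵐ x ∂volume, mulH (damp L) y j x = damp L x * y j x := by
    intro j
    exact mulOp_ae (damp_cont L).measurable ⟨1, fun x => by
      rw [abs_of_nonneg (damp_nonneg L x)]
      exact damp_le_one L x⟩ (y j)
  filter_upwards [ae_all_iff.2 h] with x hx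
  refine Finset.sum_nonneg fun j _ => ?_
  rw [hx j, mul_assoc]
  exact mul_nonneg (damp_nonneg L x) (mul_self_nonneg _)

theorem norm_inc (p : Pr n) (z : VV n p.L) :
    Integrable (fun x => ∑ j, uu j z x * uu j z x) volume ∧
      ‖inc n p.L z‖ ^ 2 = ∫ x, ∑ j, uu j z x * uu j z x := by
  constructor
  · refine integrable_finsetSum _ fun j _ => ?_
    exact (Lp.memLp (uu j z)).integrable_mul (Lp.memLp (uu j z))
  · rw [← real_inner_self_eq_norm_sq, Skw.inner_HH]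
    rfl

theorem tmap_bound (p : Pr n) {X X1 : ℝ → Fin n → ℝ} (hX : ∀ x j, HasDerivAt (fun x => X x j)
    (X1 x j) x) (hX1 : ∀ j, Continuous fun x => X1 x j) {κ : ℝ} (hκ : 0 ≤ κ)
    (h1 : ∀ x ∈ Icc (-(3 / 4)) (p.L + 3 / 4), ∀ ξ : Fin n → ℝ,
      -qd (Hm p.g (X1 x)) ξ ≤ κ * dot ξ ξ) (z : VV n p.L) :
    2 * inner ℝ (tmap n p.L p.g X X1 z) (inc n p.L z) ≤ κ * ‖inc n p.L z‖ ^ 2 := by
  rw [energy_t p hX hX1 z, (norm_inc p z).2, ← integral_neg, ← integral_const_mul]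
  have hpt : ∀ x, -(th p.L x * ∑ j, ∑ k, Hm p.g (X1 x) j k * uu j z x * uu k z x) ≤
      κ * ∑ j, uu j z x * uu j z x := by
    intro x
    have h2 : 0 ≤ ∑ j, uu j z x * uu j z x := Finset.sum_nonneg fun j _ => mul_self_nonneg _
    by_cases hx : x ∈ Icc (-(3 / 4)) (p.L + 3 / 4)
    · have h3 : -(∑ j, ∑ k, Hm p.g (X1 x) j k * uu j z x * uu k z x) ≤
          κ * ∑ j, uu j z x * uu j z x := h1 x hx fun j => uu j z x
      have h4 := th_nonneg p.L x
      have h5 := th_le_one p.L x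
      calc -(th p.L x * ∑ j, ∑ k, Hm p.g (X1 x) j k * uu j z x * uu k z x) =
            th p.L x * -(∑ j, ∑ k, Hm p.g (X1 x) j k * uu j z x * uu k z x) := by ring
        _ ≤ th p.L x * (κ * ∑ j, uu j z x * uu j z x) := mul_le_mul_of_nonneg_left h3 h4
        _ ≤ 1 * (κ * ∑ j, uu j z x * uu j z x) :=
            mul_le_mul_of_nonneg_right h5 (mul_nonneg hκ h2)
        _ = _ := one_mul _
    · rw [th_out hx, zero_mul, neg_zero]
      exact mul_nonneg hκ h2
  by_cases hF : Integrable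
      (fun x => -(th p.L x * ∑ j, ∑ k, Hm p.g (X1 x) j k * uu j z x * uu k z x)) volume
  · exact integral_mono hF ((norm_inc p z).1.const_mul κ) hpt
  · rw [integral_undef hF]
    exact integral_nonneg fun x => mul_nonneg hκ
      (Finset.sum_nonneg fun j _ => mul_self_nonneg _)

theorem tl (p : Pr n) {τ : ℝ} (hτ : 0 ≤ τ) {B : Bk p τ} {D : ℝ → ℝ} {z0 : HH n}
    {f : ℝ → HH n} {v : ℝ → VV n p.L} (hD : ∀ t ∈ Icc 0 τ, 0 ≤ D t) (h : Run p B D z0 f v)
    {κ r : ℝ} (hκ : 0 ≤ κ) (hr : 0 ≤ r)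
    (h1 : ∀ t ∈ Icc 0 τ, ∀ x ∈ Icc (-(3 / 4)) (p.L + 3 / 4), ∀ ξ : Fin n → ℝ,
      -qd (Hm p.g (B.wx t x)) ξ ≤ κ * dot ξ ξ)
    (h2 : ∀ t ∈ Icc 0 τ, ‖B.r t‖ ≤ r) {t : ℝ} (ht : t ∈ Icc 0 τ) :
    ‖p.sm.traj z0 f t‖ ≤ Real.exp (κ * t / 2) * (‖z0‖ + r * t) := by
  have hint : IntegrableOn f (Ioc 0 τ) := h.path.int
  have hcont : ContinuousOn (fun t => ‖p.sm.traj z0 f t‖) (Icc 0 τ) :=
    (p.sm.traj_cont z0 hτ hint).norm
  have h0 : p.sm.traj z0 f 0 = z0 := p.sm.traj_zero z0 f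
  have key := gron_norm (u := fun t => ‖p.sm.traj z0 f t‖) hcont (fun t => norm_nonneg _) hκ hr
    (fun t ht => ?_) ht
  · simpa only [h0] using key
  simp only [h0]
  rw [p.sm.energy z0 hint ht, ← intervalIntegral.integral_const_mul,
    intervalIntegral.integral_of_le ht.1, intervalIntegral.integral_of_le ht.1]
  have hae : ∀ᵐ s ∂volume.restrict (Ioc (0 : ℝ) t),
      2 * inner ℝ (f s) (p.sm.traj z0 f s) ≤
        κ * ‖p.sm.traj z0 f s‖ ^ 2 + 2 * r * ‖p.sm.traj z0 f s‖ := by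
    filter_upwards [ae_restrict_of_ae_restrict_of_subset (Ioc_subset_Ioc_right ht.2) h.eq,
      ae_restrict_of_ae_restrict_of_subset (Ioc_subset_Ioc_right ht.2) h.path.lift,
      ae_restrict_mem measurableSet_Ioc] with s h3 h4 h5
    have hs : s ∈ Icc 0 τ := ⟨h5.1.le, h5.2.trans ht.2⟩
    rw [← h4, p.sm_inc, h3]
    unfold nl
    rw [inner_sub_left, inner_sub_left, inner_add_left, inner_add_left, inner_smul_left,
      q_skew p.hL p.g12 p.g23, l_skew p.hL p.hS]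
    have h6 := tmap_bound p (X := B.w s) (X1 := B.wx s) (fun x j => B.hd s x j)
      (fun j => (B.cwx j).comp (Continuous.prodMk_right s)) hκ (h1 s hs) (v s)
    have h7 := mul_nonneg (hD s hs) (damp_inner p.L (inc n p.L (v s)))
    have h8 : -(‖B.r s‖ * ‖inc n p.L (v s)‖) ≤ inner ℝ (B.r s) (inc n p.L (v s)) := by
      have := abs_real_inner_le_norm (B.r s) (inc n p.L (v s))
      exact (abs_le.1 this).1
    have h9 : ‖B.r s‖ * ‖inc n p.L (v s)‖ ≤ r * ‖inc n p.L (v s)‖ :=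
      mul_le_mul_of_nonneg_right (h2 s hs) (norm_nonneg _)
    simp only [RCLike.conj_to_real] at h7 ⊢
    nlinarith [h6, h7, h8, h9]
  have hGi : IntegrableOn (fun s => κ * ‖p.sm.traj z0 f s‖ ^ 2 + 2 * r * ‖p.sm.traj z0 f s‖)
      (Ioc 0 t) volume := by
    have hc : ContinuousOn (fun s => κ * ‖p.sm.traj z0 f s‖ ^ 2 + 2 * r * ‖p.sm.traj z0 f s‖)
        (Icc 0 t) := by
      have := hcont.mono (Icc_subset_Icc_right ht.2)
      fun_prop
    exact (hc.integrableOn_Icc).mono_set Ioc_subset_Icc_self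
  have hfin : ∫ s in Ioc 0 t, 2 * inner ℝ (f s) (p.sm.traj z0 f s) ≤
      ∫ s in Ioc 0 t, (κ * ‖p.sm.traj z0 f s‖ ^ 2 + 2 * r * ‖p.sm.traj z0 f s‖) := by
    by_cases hF : IntegrableOn (fun s => 2 * inner ℝ (f s) (p.sm.traj z0 f s)) (Ioc 0 t) volume
    · exact integral_mono_ae hF hGi hae
    · rw [integral_undef hF]
      exact integral_nonneg fun s => by positivity
  linarith

end Pool.Agent.KG.TL2

namespace Pool.Agent.KG

alias tl := TL2.tl

end Pool.Agent.KG
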