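import Pool.Agent.Lib.KG.TL2

/-!
# Row TL3: one phase
-/

set_option autoImplicit false

namespace Pool.Agent.KG.TL3

open MeasureTheory Filter Topology Set
open Pool.Agent.Kdv
open scoped ENNReal ContDiff InnerProductSpace

variable {n : ℕ}

theorem TL3_st_nonneg (x : ℝ) : 0 ≤ st x := Real.smoothTransition.nonneg x

theorem TL3_st_le (x : ℝ) : st x ≤ 1 := Real.smoothTransition.le_one x

theorem TL3_st_zero {x : ℝ} (h : x ≤ 0) : st x = 0 := Real.smoothTransition.zero_of_nonpos h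

theorem TL3_norm_toL2 {F : ℝ → ℝ} {a b M : ℝ} (hab : a ≤ b) (hM : 0 ≤ M)
    (hF : ∀ x, |F x| ≤ (Icc a b).indicator (fun _ => M) x) : ‖toL2 F‖ ≤ M * √(b - a) := by
  classical
  unfold toL2
  by_cases h : MemLp F 2 volume
  · rw [dif_pos h]
    have hs : volume (Icc a b) ≠ ⊤ := by
      rw [Real.volume_Icc]
      exact ENNReal.ofReal_ne_top
    have h1 : ‖h.toLp F‖ ≤ ‖indicatorConstLp 2 measurableSet_Icc hs M‖ := by
      refine Lp.norm_le_norm_of_ae_le ?_
      filter_upwards [h.coeFn_toLp, indicatorConstLp_coeFn (p := 2) (hs := measurableSet_Icc)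
        (hμs := hs) (c := M)] with x h1 h2
      rw [h1, h2, Real.norm_eq_abs]
      exact (hF x).trans (le_abs_self _)
    refine h1.trans (le_of_eq ?_)
    rw [norm_indicatorConstLp (by norm_num) (by norm_num), Real.norm_eq_abs, abs_of_nonneg hM,
      Measure.real, Real.volume_Icc, ENNReal.toReal_ofReal (by linarith), Real.sqrt_eq_rpow]
    norm_num
  · rw [dif_neg h, norm_zero]
    positivity

theorem TL3_norm_HH {y : HH n} {c : ℝ} (hc : 0 ≤ c) (h : ∀ j, ‖y j‖ ≤ c) : ‖y‖ ≤ n * c := by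
  rw [PiLp.norm_eq_of_L2]
  refine Real.sqrt_le_iff.2 ⟨by positivity, ?_⟩
  have h1 : ∑ j, ‖y j‖ ^ 2 ≤ ∑ _j : Fin n, c ^ 2 :=
    Finset.sum_le_sum fun j _ => pow_le_pow_left₀ (norm_nonneg _) (h j) 2
  rw [Finset.sum_const, Finset.card_univ, Fintype.card_fin, nsmul_eq_mul] at h1
  refine h1.trans ?_
  have h2 : (n : ℝ) ≤ (n : ℝ) ^ 2 := by
    exact_mod_cast Nat.le_self_pow (by norm_num) n
  nlinarith [mul_le_mul_of_nonneg_right h2 (sq_nonneg c)]

theorem bg_congr {L : ℝ} {X Y : ℝ → Fin n → ℝ} (h : ∀ x ∈ Icc (-4) (L + 4), ∀ j, X x j = Y x j) :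
    bg n L X = bg n L Y := by
  unfold bg
  congr 1
  funext j
  congr 1
  funext x
  by_cases hx : x ∈ Icc (-4) (L + 4)
  · rw [h x hx j]
  · have h0 : bb L x = 0 := by
      unfold bb
      rw [mem_Icc, not_and_or, not_le, not_le] at hx
      rcases hx with hx | hx
      · rw [TL3_st_zero (by linarith), zero_mul]
      · rw [TL3_st_zero (x := L + 4 - x) (by linarith), mul_zero]
    rw [h0, zero_mul, zero_mul]

/-- The size of a background. -/
theorem bg_norm {L : ℝ} (hL : 0 < L) {X : ℝ → Fin n → ℝ} (hX : ∀ j, Continuous fun x => X x j)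
    {M : ℝ} (hM : 0 ≤ M) (h : ∀ x ∈ Icc (-4) (L + 4), ∀ j, |X x j| ≤ M) :
    ‖bg n L X‖ ≤ n * (L + 8) * M := by
  have h1 : ∀ j, ‖(bg n L X) j‖ ≤ (L + 8) * M := by
    intro j
    have h2 : ‖toL2 fun x => bb L x * X x j‖ ≤ M * √((L + 4) - (-4)) := by
      refine TL3_norm_toL2 (by linarith) hM fun x => ?_
      by_cases hx : x ∈ Icc (-4) (L + 4)
      · rw [indicator_of_mem hx, abs_mul]
        have h3 : |bb L x| ≤ 1 := by
          unfold bb
          rw [abs_of_nonneg (mul_nonneg (TL3_st_nonneg _) (TL3_st_nonneg _))]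
          exact mul_le_one₀ (TL3_st_le _) (TL3_st_nonneg _) (TL3_st_le _)
        calc |bb L x| * |X x j| ≤ 1 * M :=
              mul_le_mul h3 (h x hx j) (abs_nonneg _) zero_le_one
          _ = M := one_mul M
      · have h0 : bb L x = 0 := by
          unfold bb
          rw [mem_Icc, not_and_or, not_le, not_le] at hx
          rcases hx with hx | hx
          · rw [TL3_st_zero (by linarith), zero_mul]
          · rw [TL3_st_zero (x := L + 4 - x) (by linarith), mul_zero]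
        rw [indicator_of_notMem hx, h0, zero_mul, abs_zero]
    have h4 : √((L + 4) - (-4)) ≤ L + 8 := by
      rw [Real.sqrt_le_iff]
      constructor <;> nlinarith
    calc _ ≤ M * √((L + 4) - (-4)) := h2
      _ ≤ M * (L + 8) := mul_le_mul_of_nonneg_left h4 hM
      _ = (L + 8) * M := mul_comm _ _
  calc _ ≤ n * ((L + 8) * M) := TL3_norm_HH (by positivity) h1
    _ = _ := by ring

theorem phase (p : Pr n) {τ : ℝ} (hτ : 0 < τ) {w : ℝ → ℝ → Fin n → ℝ} {U : Set ℝ}
    (hU : IsOpen U) (hU' : Icc 0 τ ⊆ U)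
    (hw : ∀ j, ContDiffOn ℝ ∞ (fun q : ℝ × ℝ => w q.1 q.2 j) (U ×ˢ univ))
    {κ r : ℝ} (hκ : 0 ≤ κ) (hr : 0 ≤ r)
    (h1 : ∀ t ∈ Icc 0 τ, ∀ x ∈ Icc (-(3 / 4)) (p.L + 3 / 4), ∀ ξ : Fin n → ℝ,
      -qd (Hm p.g fun j => deriv (fun x => w t x j) x) ξ ≤ κ * dot ξ ξ)
    (h2 : ∀ t ∈ Icc 0 τ, ∀ x ∈ Icc (-(3 / 4)) (p.L + 3 / 4), ∀ j, |resid p w t x j| ≤ r)
    (z0 : HH n) : ∃ z1 : HH n, ‖z1‖ ≤ Real.exp (κ * τ / 2) * (‖z0‖ + n * (p.L + 2) * r * τ) ∧
      p.Adm (bg n p.L (w 0) + z0) (bg n p.L (w τ) + z1) τ := by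
  obtain ⟨B, hB1, hB2, hB3, hB4, hB5⟩ := exists_bk p hτ hU hU' hw
  obtain ⟨f, v, hrun⟩ := exists_run p hτ B (D := fun _ => 0) continuousOn_const
    (fun _ _ => le_rfl) z0
  have hmem : τ ∈ Icc 0 τ := ⟨hτ.le, le_rfl⟩
  have hadm := hrun.adm hτ.le hmem
  rw [hB4, hB3] at hadm
  refine ⟨_, ?_, hadm⟩
  have hr' : 0 ≤ n * (p.L + 2) * r := by
    have := p.hL
    positivity
  have hres : ∀ t ∈ Icc 0 τ, ‖B.r t‖ ≤ n * (p.L + 2) * r := by
    intro t ht
    rw [hB5 t ht]
    have h3 : ∀ j, ‖(WithLp.toLp 2 fun j => toL2 fun x => th p.L x * resid p w t x j : HH n) j‖ ≤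
        (p.L + 2) * r := by
      intro j
      have h4 : ‖toL2 fun x => th p.L x * resid p w t x j‖ ≤
          r * √((p.L + 3 / 4) - (-(3 / 4))) := by
        refine TL3_norm_toL2 (by have := p.hL; linarith) hr fun x => ?_
        by_cases hx : x ∈ Icc (-(3 / 4)) (p.L + 3 / 4)
        · rw [indicator_of_mem hx, abs_mul]
          have h5 : |th p.L x| ≤ 1 := by
            unfold th
            rw [abs_of_nonneg (mul_nonneg (TL3_st_nonneg _) (TL3_st_nonneg _))]
            exact mul_le_one₀ (TL3_st_le _) (TL3_st_nonneg _) (TL3_st_le _)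
          calc |th p.L x| * |resid p w t x j| ≤ 1 * r :=
                mul_le_mul h5 (h2 t ht x hx j) (abs_nonneg _) zero_le_one
            _ = r := one_mul r
        · have h0 : th p.L x = 0 := by
            unfold th
            rw [mem_Icc, not_and_or, not_le, not_le] at hx
            rcases hx with hx | hx
            · rw [TL3_st_zero (by linarith), zero_mul]
            · rw [TL3_st_zero (x := 4 * (p.L - x) + 3) (by linarith), mul_zero]
          rw [indicator_of_notMem hx, h0, zero_mul, abs_zero]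
      have h6 : √((p.L + 3 / 4) - (-(3 / 4))) ≤ p.L + 2 := by
        have := p.hL
        rw [Real.sqrt_le_iff]
        constructor <;> nlinarith
      calc _ ≤ r * √((p.L + 3 / 4) - (-(3 / 4))) := h4
        _ ≤ r * (p.L + 2) := mul_le_mul_of_nonneg_left h6 hr
        _ = (p.L + 2) * r := mul_comm _ _
    calc _ ≤ n * ((p.L + 2) * r) := TL3_norm_HH (by have := p.hL; positivity) h3
      _ = _ := by ring
  refine tl p hτ.le (D := fun _ => 0) (fun _ _ => le_rfl) hrun hκ hr' ?_ hres hmem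
  intro t ht x hx ξ
  have h3 : B.wx t x = fun j => deriv (fun x => w t x j) x := funext fun j => hB2 t ht x j
  rw [h3]
  exact h1 t ht x hx ξ

/-- Waiting at a constant state. -/
theorem wait (p : Pr n) {τ : ℝ} (hτ : 0 ≤ τ) (X : Fin n → ℝ) (z0 : HH n) :
    ∃ z1 : HH n, ‖z1‖ ≤ ‖z0‖ ∧
      p.Adm (bg n p.L (fun _ => X) + z0) (bg n p.L (fun _ => X) + z1) τ := by
  rcases hτ.eq_or_lt with h | h
  · subst h
    refine ⟨z0, le_rfl, fun _ => 0, fun _ => 0, ⟨integrableOn_zero, aestronglyMeasurable_const,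
      ?_, ?_⟩, ?_, ?_⟩
    · simp
    · simp
    · simp
    · unfold Sm.traj
      rw [intervalIntegral.integral_same, p.sm.U_zero, add_zero]
  · obtain ⟨z1, h1, h2⟩ := phase p h (w := fun _ _ => X) (U := univ) isOpen_univ
      (subset_univ _) (fun j => contDiffOn_const) (κ := 0) (r := 0) le_rfl le_rfl
      (by
        intro t _ x _ ξ
        simp [Hm, qd]) (by
        intro t _ x _ j
        have h3 : iteratedDeriv 3 (fun _ : ℝ => X j) x = 0 := by
          rw [iteratedDeriv_const]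
          simp
        simp [resid, h3]) z0
    refine ⟨z1, ?_, h2⟩
    simpa using h1

end Pool.Agent.KG.TL3

namespace Pool.Agent.KG

alias bg_congr := TL3.bg_congr

alias bg_norm := TL3.bg_norm

alias phase := TL3.phase

alias wait := TL3.wait

end Pool.Agent.KG
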