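import Pool.Agent.Lib.KG.TL
import Pool.Agent.Lib.KG.Burg

/-!
# Row TR1: slow-down
-/

set_option autoImplicit false

namespace Pool.Agent.KG.TR1

open MeasureTheory Filter Topology Set
open Pool.Agent.Kdv
open scoped ENNReal ContDiff InnerProductSpace

theorem TR1_qd_smul (g : Fin 2 → Fin 2 → Fin 2 → ℝ) (a : ℝ) (e ξ : Fin 2 → ℝ) :
    qd (Hm g fun j => a * e j) ξ = a * qd (Hm g e) ξ := by
  simp only [qd, Hm, Fin.sum_univ_two]
  ring

/-- The sum of the absolute values of the entries. -/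
noncomputable def TR1_K (g : Fin 2 → Fin 2 → Fin 2 → ℝ) (e : Fin 2 → ℝ) : ℝ :=
  ∑ j, ∑ k, |Hm g e j k|

theorem TR1_K_nonneg (g : Fin 2 → Fin 2 → Fin 2 → ℝ) (e : Fin 2 → ℝ) : 0 ≤ TR1_K g e :=
  Finset.sum_nonneg fun _ _ => Finset.sum_nonneg fun _ _ => abs_nonneg _

theorem TR1_abs_qd (g : Fin 2 → Fin 2 → Fin 2 → ℝ) (e ξ : Fin 2 → ℝ) :
    |qd (Hm g e) ξ| ≤ TR1_K g e * dot ξ ξ := by
  have h : ∀ j k, |ξ j * ξ k| ≤ dot ξ ξ := by
    intro j k
    have h1 : ∀ i, ξ i ^ 2 ≤ dot ξ ξ := by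
      intro i
      have h2 : ξ i ^ 2 = ξ i * ξ i := by ring
      rw [h2]
      exact Finset.single_le_sum (f := fun i => ξ i * ξ i) (fun i _ => mul_self_nonneg _)
        (Finset.mem_univ i)
    rw [abs_le]
    constructor <;> nlinarith [h1 j, h1 k, sq_nonneg (ξ j - ξ k), sq_nonneg (ξ j + ξ k)]
  unfold qd TR1_K
  rw [Finset.sum_mul]
  refine (Finset.abs_sum_le_sum_abs _ _).trans (Finset.sum_le_sum fun j _ => ?_)
  rw [Finset.sum_mul]
  refine (Finset.abs_sum_le_sum_abs _ _).trans (Finset.sum_le_sum fun k _ => ?_)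
  rw [mul_assoc, abs_mul]
  exact mul_le_mul_of_nonneg_left (h j k) (abs_nonneg _)

theorem TR1_abs_le {e : Fin 2 → ℝ} (he : dot e e = 1) (j : Fin 2) : |e j| ≤ 1 := by
  have h2 : e j * e j ≤ dot e e :=
    Finset.single_le_sum (f := fun i => e i * e i) (fun i _ => mul_self_nonneg _)
      (Finset.mem_univ j)
  rw [abs_le]
  constructor <;> nlinarith

/-- The common part of slow-down (`σ = 1`) and speed-up (`σ = -1`). -/
theorem TR1_core (p : Pr 2) (b : Brg p.L) {e : Fin 2 → ℝ} {α : ℝ} (he : Dir p.g e α) {Cz : ℝ}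
    (hCz : 0 ≤ Cz) : ∃ C : ℝ, 0 < C ∧ ∀ x0 : ℝ, b.xs ≤ x0 → ∀ m : ℝ, 0 < m →
    ∀ σ : ℝ, σ * σ = 1 → ∀ s0 : ℝ, (∀ t ∈ Icc 0 ((p.L + 10) / (x0 * (α * m))),
      s0 + σ * (α * m) * t ∈ Icc 0 ((p.L + 10) / x0)) → ∀ Z : Fin 2 → ℝ,
    (∀ j, |mv p.S e j + bil p.g Z e j| ≤ Cz) → ∀ z0 : HH 2, ∃ z1 : HH 2,
      ‖z1‖ ≤ Real.exp (C / x0) * (‖z0‖ + C / x0) ∧
      p.Adm (bg 2 p.L (fun x j => σ * m * b.ff x0 (s0 + σ * (α * m) * 0) x * e j + Z j) + z0)
        (bg 2 p.L (fun x j => σ * m * b.ff x0 (s0 + σ * (α * m) *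
          ((p.L + 10) / (x0 * (α * m)))) x * e j + Z j) + z1)
        ((p.L + 10) / (x0 * (α * m))) := by
  obtain ⟨K, hK⟩ : ∃ K : ℝ, K = TR1_K p.g e := ⟨_, rfl⟩
  have hK0 : 0 ≤ K := by rw [hK]; exact TR1_K_nonneg _ _
  have hα := he.pos
  have hL := p.hL
  have hbC := b.hC
  obtain ⟨M, hM⟩ : ∃ M : ℝ, M = p.mu 0 + p.mu 1 := ⟨_, rfl⟩
  have hM0 : 0 ≤ M := by
    rw [hM]
    exact add_nonneg (p.hmu 0).le (p.hmu 1).le
  have hMj : ∀ j, p.mu j ≤ M := by
    intro j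
    rw [hM]
    fin_cases j
    · simpa using (p.hmu 1).le
    · simpa using (p.hmu 0).le
  obtain ⟨C1, hC1⟩ : ∃ C1 : ℝ, C1 = b.C * K * (p.L + 10) / (2 * α) := ⟨_, rfl⟩
  obtain ⟨C2, hC2⟩ : ∃ C2 : ℝ, C2 = 2 * (p.L + 2) * (b.C * (M + Cz)) * (p.L + 10) / α := ⟨_, rfl⟩
  have hC10 : 0 ≤ C1 := by rw [hC1]; positivity
  have hC20 : 0 ≤ C2 := by rw [hC2]; positivity
  refine ⟨C1 + C2 + 1, by positivity, ?_⟩
  intro x0 hx0 m hm σ hσ s0 hs Z hZ z0
  have hx0' : 0 < x0 := by have := b.hxs; linarith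
  obtain ⟨τ, hτ⟩ : ∃ τ : ℝ, τ = (p.L + 10) / (x0 * (α * m)) := ⟨_, rfl⟩
  have hτ0 : 0 < τ := by rw [hτ]; positivity
  have habsσ : |σ| = 1 := by
    have h1 : |σ| * |σ| = 1 := by rw [← abs_mul, hσ, abs_one]
    nlinarith [abs_nonneg σ]
  rw [← hτ] at hs ⊢
  -- the function `h`
  let h : ℝ → ℝ → ℝ := fun t x => σ * m * b.ff x0 (s0 + σ * (α * m) * t) x
  have hff := b.smooth x0 hx0
  have hh : ContDiff ℝ ∞ (fun q : ℝ × ℝ => h q.1 q.2) := by
    have h1 : ContDiff ℝ ∞ (fun q : ℝ × ℝ => (s0 + σ * (α * m) * q.1, q.2)) := by fun_prop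
    exact contDiff_const.mul (hff.comp h1)
  have hht : ∀ t, ContDiff ℝ ∞ (h t) := by
    intro t
    have h1 : ContDiff ℝ ∞ (fun x : ℝ => ((t, x) : ℝ × ℝ)) := by fun_prop
    exact hh.comp h1
  have hfs : ∀ s, ContDiff ℝ ∞ (b.ff x0 s) := by
    intro s
    have h1 : ContDiff ℝ ∞ (fun x : ℝ => ((s, x) : ℝ × ℝ)) := by fun_prop
    exact hff.comp h1
  have hfx : ∀ x, ContDiff ℝ ∞ (fun s => b.ff x0 s x) := by
    intro x
    have h1 : ContDiff ℝ ∞ (fun s : ℝ => ((s, x) : ℝ × ℝ)) := by fun_prop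
    exact hff.comp h1
  have hdx : ∀ t x, deriv (h t) x = σ * m * deriv (b.ff x0 (s0 + σ * (α * m) * t)) x := by
    intro t x
    exact deriv_const_mul _ ((hfs _).differentiable (by simp) x)
  have hd3 : ∀ t x, iteratedDeriv 3 (h t) x =
      σ * m * iteratedDeriv 3 (b.ff x0 (s0 + σ * (α * m) * t)) x := by
    intro t x
    exact iteratedDeriv_const_mul_field _ _
  have hdt : ∀ t x, HasDerivAt (fun s => h s x) (σ * m *
      (deriv (fun s => b.ff x0 s x) (s0 + σ * (α * m) * t) * (σ * (α * m)))) t := by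
    intro t x
    have h1 : HasDerivAt (fun s : ℝ => s0 + σ * (α * m) * s) (σ * (α * m)) t := by
      simpa using ((hasDerivAt_id t).const_mul (σ * (α * m))).const_add s0
    have h2 := ((hfx x).differentiable (by simp) (s0 + σ * (α * m) * t)).hasDerivAt
    exact (h2.comp t h1).const_mul (σ * m)
  -- apply the phase lemma
  obtain ⟨z1, hz1, hadm⟩ := phase p hτ0 (w := fun t x j => h t x * e j + Z j) (U := univ)
    isOpen_univ (subset_univ _) (fun j => by
      refine ContDiff.contDiffOn ?_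
      exact (hh.mul contDiff_const).add contDiff_const)
    (κ := m * b.C * K) (r := m * (b.C * (M + Cz))) (by positivity) (by positivity)
    (by
      intro t ht x hx ξ
      have hx' : x ∈ Icc (-4) (p.L + 4) := ⟨by linarith [hx.1], by linarith [hx.2]⟩
      have h1 : (fun j => deriv (fun x => h t x * e j + Z j) x) = fun j => deriv (h t) x * e j := by
        funext j
        rw [deriv_add_const, deriv_mul_const ((hht t).differentiable (by simp) x)]
      rw [h1, TR1_qd_smul, hdx]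
      obtain ⟨h2, h3, -⟩ := b.bound x0 hx0 _ (hs t ht) x hx'
      have h4 := TR1_abs_qd p.g e ξ
      rw [← hK] at h4
      have h5 : 0 ≤ dot ξ ξ := Finset.sum_nonneg fun i _ => mul_self_nonneg _
      have h6 : |deriv (b.ff x0 (s0 + σ * (α * m) * t)) x| ≤ b.C := by
        rw [abs_le]
        exact ⟨h2, h3.trans hbC.le⟩
      calc _ ≤ |σ * m * deriv (b.ff x0 (s0 + σ * (α * m) * t)) x * qd (Hm p.g e) ξ| := neg_le_abs _
        _ = m * |deriv (b.ff x0 (s0 + σ * (α * m) * t)) x| * |qd (Hm p.g e) ξ| := by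
          rw [abs_mul, abs_mul, abs_mul, habsσ, one_mul, abs_of_pos hm]
        _ ≤ m * b.C * (K * dot ξ ξ) := by
          refine mul_le_mul (mul_le_mul_of_nonneg_left h6 hm.le) h4 (abs_nonneg _) (by positivity)
        _ = _ := by ring)
    (by
      intro t ht x hx j
      have hx' : x ∈ Icc (-4) (p.L + 4) := ⟨by linarith [hx.1], by linarith [hx.2]⟩
      have h1 := resid_lin p (e := e) (α := α) he.eig (h := h) (Z := fun _ => Z) (t := t) (x := x)
        (hdt t x).differentiableAt (fun j => differentiableAt_const _) (hht t) j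
      rw [h1]
      obtain ⟨h2, h3, h4⟩ := b.bound x0 hx0 _ (hs t ht) x hx'
      have h5 := b.eq x0 hx0 _ (hs t ht) x
      have h6 : |deriv (b.ff x0 (s0 + σ * (α * m) * t)) x| ≤ b.C := by
        rw [abs_le]
        exact ⟨h2, h3.trans hbC.le⟩
      have h7 : deriv (fun s => h s x) t + α * h t x * deriv (h t) x = 0 := by
        rw [(hdt t x).deriv, hdx]
        have h8 : σ * m * (deriv (fun s => b.ff x0 s x) (s0 + σ * (α * m) * t) * (σ * (α * m))) +
            α * (σ * m * b.ff x0 (s0 + σ * (α * m) * t) x) *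
              (σ * m * deriv (b.ff x0 (s0 + σ * (α * m) * t)) x) =
            (σ * σ) * α * m ^ 2 * (deriv (fun s => b.ff x0 s x) (s0 + σ * (α * m) * t) +
              b.ff x0 (s0 + σ * (α * m) * t) x * deriv (b.ff x0 (s0 + σ * (α * m) * t)) x) := by
          ring
        exact h8.trans (by rw [h5, mul_zero])
      rw [h7, zero_mul, zero_add, deriv_const, add_zero, hd3, hdx]
      have hej := TR1_abs_le he.unit j
      have h9 : |p.mu j * (σ * m * iteratedDeriv 3 (b.ff x0 (s0 + σ * (α * m) * t)) x) * e j| ≤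
          m * (b.C * M) := by
        rw [abs_mul, abs_mul, abs_mul, abs_mul, habsσ, abs_of_pos hm, abs_of_pos (p.hmu j), one_mul]
        calc _ ≤ M * (m * b.C) * 1 := by
              refine mul_le_mul (mul_le_mul (hMj j) (mul_le_mul_of_nonneg_left h4 hm.le)
                (by positivity) hM0) hej (abs_nonneg _) (by positivity)
          _ = _ := by ring
      have h10 : |σ * m * deriv (b.ff x0 (s0 + σ * (α * m) * t)) x *
          (mv p.S e j + bil p.g Z e j)| ≤ m * (b.C * Cz) := by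
        rw [abs_mul, abs_mul, abs_mul, habsσ, abs_of_pos hm, one_mul]
        calc _ ≤ m * b.C * Cz := mul_le_mul (mul_le_mul_of_nonneg_left h6 hm.le) (hZ j)
              (abs_nonneg _) (by positivity)
          _ = _ := by ring
      calc _ ≤ m * (b.C * M) + m * (b.C * Cz) := (abs_add_le _ _).trans (add_le_add h9 h10)
        _ = _ := by ring) z0
  refine ⟨z1, hz1.trans ?_, hadm⟩
  have e1 : m * b.C * K * τ / 2 = C1 / x0 := by
    rw [hτ, hC1]
    field_simp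
  have e2 : ((2 : ℕ) : ℝ) * (p.L + 2) * (m * (b.C * (M + Cz))) * τ = C2 / x0 := by
    rw [hτ, hC2]
    push_cast
    field_simp
  rw [e1, e2]
  have h11 : C1 / x0 ≤ (C1 + C2 + 1) / x0 :=
    div_le_div_of_nonneg_right (by linarith) hx0'.le
  have h12 : C2 / x0 ≤ (C1 + C2 + 1) / x0 :=
    div_le_div_of_nonneg_right (by linarith) hx0'.le
  exact mul_le_mul (Real.exp_le_exp.2 h11) (by linarith) (by positivity) (Real.exp_pos _).le

theorem slow_down (p : Pr 2) (b : Brg p.L) {e : Fin 2 → ℝ} {α : ℝ} (he : Dir p.g e α) {Cz : ℝ}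
    (hCz : 0 ≤ Cz) : ∃ C : ℝ, 0 < C ∧ ∀ x0 : ℝ, b.xs ≤ x0 → ∀ m : ℝ, 0 < m → ∀ Z : Fin 2 → ℝ,
    (∀ j, |mv p.S e j + bil p.g Z e j| ≤ Cz) → ∀ z0 : HH 2, ∃ z1 : HH 2,
      ‖z1‖ ≤ Real.exp (C / x0) * (‖z0‖ + C / x0) ∧
      p.Adm (bg 2 p.L (fun x j => -(m * (x0 + x)) * e j + Z j) + z0)
        (bg 2 p.L (fun _ j => -(m * (x0 + b.G)) * e j + Z j) + z1)
        ((p.L + 10) / (x0 * (α * m))) := by
  obtain ⟨C, hC, h⟩ := TR1_core p b he hCz
  refine ⟨C, hC, fun x0 hx0 m hm Z hZ z0 => ?_⟩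
  have hα := he.pos
  have hL := p.hL
  have hx0' : 0 < x0 := by have := b.hxs; linarith
  have hτ : α * m * ((p.L + 10) / (x0 * (α * m))) = (p.L + 10) / x0 := by field_simp
  obtain ⟨z1, h1, h2⟩ := h x0 hx0 m hm 1 (by norm_num) 0 (fun t ht => by
    refine ⟨by have := ht.1; positivity, ?_⟩
    rw [zero_add, one_mul, ← hτ]
    exact mul_le_mul_of_nonneg_left ht.2 (by positivity)) Z hZ z0
  refine ⟨z1, h1, ?_⟩
  have e1 : bg 2 p.L (fun x j => 1 * m * b.ff x0 (0 + 1 * (α * m) * 0) x * e j + Z j) =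
      bg 2 p.L (fun x j => -(m * (x0 + x)) * e j + Z j) := by
    refine bg_congr fun x hx j => ?_
    rw [mul_zero, add_zero, b.start x0 hx0 x hx]
    ring
  have e2 : bg 2 p.L (fun x j => 1 * m * b.ff x0 (0 + 1 * (α * m) *
      ((p.L + 10) / (x0 * (α * m)))) x * e j + Z j) =
      bg 2 p.L (fun _ j => -(m * (x0 + b.G)) * e j + Z j) := by
    refine bg_congr fun x hx j => ?_
    rw [zero_add, one_mul (α * m), hτ, b.fin x0 hx0 x hx]
    ring
  rw [e1, e2] at h2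
  exact h2

end Pool.Agent.KG.TR1

namespace Pool.Agent.KG

alias slow_down := TR1.slow_down

end Pool.Agent.KG
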