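import Pool.Agent.Lib.KG.WB

/-!
# Definitions for sections 2, 3 and 8
-/

set_option autoImplicit false

namespace Pool.Agent.KG

open MeasureTheory Filter Topology Set
open Pool.Agent.Kdv
open scoped ENNReal ContDiff InnerProductSpace

variable {n : ℕ}

/-! ### Sections 2 and 3 -/

/-- The damped mass. -/
noncomputable def Dw (L : ℝ) (z : HH n) : ℝ := inner ℝ (mulH (damp L) z) z

/-- The square of the norm of the derivative on `J`. -/
noncomputable def Vx {L : ℝ} (v : VV n L) : ℝ := ∑ j, ‖dd j v‖ ^ 2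

/-- A background which is `ν(t)(x + x0) e + Z(t)` on `J`, without residual. -/
structure IsRay (p : Pr n) {τ : ℝ} (B : Bk p τ) (e : Fin n → ℝ) (x0 : ℝ) (ν : ℝ → ℝ)
    (Z : ℝ → Fin n → ℝ) : Prop where
  w : ∀ t ∈ Icc 0 τ, ∀ x ∈ Icc (-1) (p.L + 1), ∀ j, B.w t x j = ν t * (x + x0) * e j + Z t j
  wx : ∀ t ∈ Icc 0 τ, ∀ x ∈ Icc (-1) (p.L + 1), ∀ j, B.wx t x j = ν t * e j
  r : ∀ t ∈ Icc 0 τ, B.r t = 0

/-- The hypotheses on the direction: `Dir`, and `α` is the largest eigenvalue of `H(e)`. -/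
structure IsDir (g : Fin n → Fin n → Fin n → ℝ) (e : Fin n → ℝ) (α : ℝ) : Prop where
  dir : Dir g e α
  top : ∀ ξ : Fin n → ℝ, qd (Hm g e) ξ ≤ α * dot ξ ξ

/-! ### Calculus in `L²` -/

/-- `u1` is the derivative of `u`, which is continuously differentiable. -/
def Der (u u1 : L2) : Prop := ∃ F F1 : ℝ → ℝ, (∀ x, HasDerivAt F (F1 x) x) ∧ Continuous F1 ∧
  (∀ᵐ x ∂volume, u x = F x) ∧ ∀ᵐ x ∂volume, u1 x = F1 x

/-- Bounded smooth multipliers with bounded derivatives. -/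
def Mlt (m : ℝ → ℝ) : Prop := ContDiff ℝ ∞ m ∧ ∀ i : ℕ, ∃ C, ∀ x, |iteratedDeriv i m x| ≤ C

/-- The `i`-th derivative of the mollification at scale `ε`. -/
noncomputable def Mo (i : ℕ) (ε : ℝ) : L2 →L[ℝ] L2 := cv (iteratedDeriv i (ker ε))

/-! ### The flush functional -/

/-- The weight of the flush functional: `0` for `x ≤ -4`, nondecreasing, slope `bb`. -/
noncomputable def ph (L x : ℝ) : ℝ := wt L (-wt L 0 (-4)) x

/-- The coefficient `a = th ρ`. -/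
noncomputable def aw (L x0 x : ℝ) : ℝ := th L x * wt L x0 x

/-- The `i`-th derivative of the mollified state. -/
noncomputable def Zi (i : ℕ) (ε : ℝ) (z : HH n) (j : Fin n) : L2 := Mo i ε (z j)

/-- `(a M ζ)_j`, where `M` is a matrix. -/
noncomputable def aM (M : Fin n → Fin n → ℝ) (a : ℝ → ℝ) (Z : Fin n → L2) (j : Fin n) : L2 :=
  ∑ k, M j k • mulOp a (Z k)

/-- The flush functional. -/
noncomputable def Ef (p : Pr n) (M : Fin n → Fin n → ℝ) (x0 ε h : ℝ) (z : HH n) : ℝ :=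
  1 / 2 * (h * ∑ j, p.mu j * inner ℝ (mulOp (ph p.L) (Zi 1 ε z j)) (Zi 1 ε z j) +
    ∑ j, inner ℝ (mulOp (ph p.L) (aM M (aw p.L x0) (Zi 0 ε z) j)) (Zi 0 ε z j))

/-- `G = -h Λ ζ_xx + a M ζ`. -/
noncomputable def Gf (p : Pr n) (M : Fin n → Fin n → ℝ) (x0 ε h : ℝ) (z : HH n) (j : Fin n) : L2 :=
  aM M (aw p.L x0) (Zi 0 ε z) j - (h * p.mu j) • Zi 2 ε z j

/-- `G_x`. -/
noncomputable def G1f (p : Pr n) (M : Fin n → Fin n → ℝ) (x0 ε h : ℝ) (z : HH n) (j : Fin n) :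
    L2 :=
  aM M (deriv (aw p.L x0)) (Zi 0 ε z) j + aM M (aw p.L x0) (Zi 1 ε z) j -
    (h * p.mu j) • Zi 3 ε z j

/-- `o = h ζ_t - G_x`, where `fz` is the force. -/
noncomputable def om (p : Pr n) (M : Fin n → Fin n → ℝ) (x0 ε h : ℝ) (z fz : HH n) (j : Fin n) :
    L2 :=
  h • Mo 0 ε (fz j) - aM M (deriv (aw p.L x0)) (Zi 0 ε z) j - aM M (aw p.L x0) (Zi 1 ε z) j

/-- The rate of change of the flush functional (with respect to `s`, `ds = dt / h`). -/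
noncomputable def Rf (p : Pr n) (M : Fin n → Fin n → ℝ) (x0 ε h : ℝ) (z : HH n)
    (o : Fin n → L2) : ℝ :=
  -(1 / 2) * h * ∑ j, p.mu j * inner ℝ (mulOp (ph p.L) (Zi 1 ε z j)) (Zi 1 ε z j) +
    ∑ j, inner ℝ (mulOp (ph p.L) (Gf p M x0 ε h z j)) (G1f p M x0 ε h z j + o j) -
    h * ∑ j, p.mu j * inner ℝ (mulOp (bb p.L) (Zi 1 ε z j)) (G1f p M x0 ε h z j + o j)

/-- The main part of `o`. -/
noncomputable def k0 (L x0 : ℝ) (M : Fin n → Fin n → ℝ) (Z : Fin n → L2) (j : Fin n) : L2 :=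
  -(1 / 2 : ℝ) • aM M (fun x => deriv (th L) x * wt L x0 x) Z j - mulOp (damp L) (Z j)

/-- The quantity which is controlled by the flush. -/
noncomputable def Qf (p : Pr n) (M : Fin n → Fin n → ℝ) (x0 ε : ℝ) (z : HH n) : ℝ :=
  ∑ j, inner ℝ (mulOp (bb p.L) (aM M (aw p.L x0) (Zi 0 ε z) j)) (aM M (aw p.L x0) (Zi 0 ε z) j)

/-! ### Section 8 -/

/-- The cube case with its frame: `F(y) = α (e·y)³ / 6`, `|e| = 1`, `e' ⟂ e`, and `S e = s e'`. -/
structure Cub (p : Pr 2) (e e' : Fin 2 → ℝ) (α s : ℝ) : Prop where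
  cube : Cube p.g e α
  e0 : e' 0 = -e 1
  e1 : e' 1 = e 0
  S : ∀ j, mv p.S e j = s * e' j

/-- The component of a state in the direction `a`. -/
noncomputable def cmp (a : Fin 2 → ℝ) (z : HH 2) : L2 := ∑ j, a j • z j

/-- The state `u a`. -/
noncomputable def emb (a : Fin 2 → ℝ) (u : L2) : HH 2 := WithLp.toLp 2 fun j => a j • u

/-- The constant background `-K e + g0 e'`. -/
def cst (e e' : Fin 2 → ℝ) (K g0 : ℝ) (_ : ℝ) (j : Fin 2) : ℝ := -K * e j + g0 * e' j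

/-- The quantity which is controlled by damping at a large constant background. -/
noncomputable def Qa (p : Pr 2) (e : Fin 2 → ℝ) (K : ℝ) (v : VV 2 p.L) : ℝ :=
  Vx v + ‖inc 2 p.L v‖ ^ 2 + K * inner ℝ (mulOp (th p.L) (cmp e (inc 2 p.L v)))
    (cmp e (inc 2 p.L v)) + K * Dw p.L (inc 2 p.L v)

/-- The part of the state which is controlled. -/
noncomputable def yy (p : Pr 2) (e' : Fin 2 → ℝ) (v : VV 2 p.L) : L2 :=
  mulOp (fun x => 1 - damp p.L x) (cmp e' (inc 2 p.L v))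

/-- The scalar product of `Λ a` and `b`. -/
def Lmu (p : Pr 2) (a b : Fin 2 → ℝ) : ℝ := ∑ j, p.mu j * a j * b j

end Pool.Agent.KG
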