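import Pool.Agent.Lib.KG.WBD

/-!
# Row WB1
-/

set_option autoImplicit false

namespace Pool.Agent.KG.WB1

open MeasureTheory Filter Topology Set
open Pool.Agent.Kdv
open scoped ENNReal ContDiff InnerProductSpace

variable {n : ℕ}

lemma bb_cont (L : ℝ) : Continuous (bb L) := by
  unfold bb st
  exact (Real.smoothTransition.continuous.comp (by fun_prop)).mul
    (Real.smoothTransition.continuous.comp (by fun_prop))

lemma bb_nonneg (L x : ℝ) : 0 ≤ bb L x :=
  mul_nonneg (Real.smoothTransition.nonneg _) (Real.smoothTransition.nonneg _)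

lemma bb_le_one (L x : ℝ) : bb L x ≤ 1 :=
  mul_le_one₀ (Real.smoothTransition.le_one _) (Real.smoothTransition.nonneg _)
    (Real.smoothTransition.le_one _)

lemma bb_left {L x : ℝ} (h : x ≤ -4) : bb L x = 0 := by
  unfold bb st
  rw [Real.smoothTransition.zero_of_nonpos (by linarith), zero_mul]

lemma bb_right {L x : ℝ} (h : L + 4 ≤ x) : bb L x = 0 := by
  unfold bb st
  rw [Real.smoothTransition.zero_of_nonpos (x := L + 4 - x) (by linarith), mul_zero]

lemma int_bb (L a b : ℝ) : IntervalIntegrable (bb L) volume a b :=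
  (bb_cont L).intervalIntegrable a b

lemma int_bb_nonneg {L a b : ℝ} (h : a ≤ b) : 0 ≤ ∫ s in a..b, bb L s :=
  intervalIntegral.integral_nonneg h fun x _ => bb_nonneg L x

lemma int_bb_le {L a b : ℝ} (h : a ≤ b) : (∫ s in a..b, bb L s) ≤ b - a := by
  have h1 : (∫ s in a..b, bb L s) ≤ ∫ _s in a..b, (1 : ℝ) :=
    intervalIntegral.integral_mono_on h (int_bb L a b) (by simp) fun x _ => bb_le_one L x
  simpa using h1

lemma wt_cont (L c : ℝ) : Continuous (wt L c) := by
  unfold wt
  exact continuous_const.add (intervalIntegral.continuous_primitive (fun a b => int_bb L a b) 0)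

lemma wt_bounds {L : ℝ} (hL : 0 < L) (c x : ℝ) : c - 4 ≤ wt L c x ∧ wt L c x ≤ c + (L + 4) := by
  have hz1 : ∀ y, y ≤ -4 → (∫ s in y..(-4 : ℝ), bb L s) = 0 := by
    intro y hy
    have h : (∫ s in y..(-4 : ℝ), bb L s) = ∫ _s in y..(-4 : ℝ), (0 : ℝ) := by
      refine intervalIntegral.integral_congr fun s hs => ?_
      rw [uIcc_of_le hy] at hs
      exact bb_left hs.2
    rw [h]
    simp
  have hz2 : ∀ y, L + 4 ≤ y → (∫ s in (L + 4)..y, bb L s) = 0 := by
    intro y hy
    have h : (∫ s in (L + 4)..y, bb L s) = ∫ _s in (L + 4)..y, (0 : ℝ) := by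
      refine intervalIntegral.integral_congr fun s hs => ?_
      rw [uIcc_of_le hy] at hs
      exact bb_right hs.1
    rw [h]
    simp
  unfold wt
  constructor
  · rcases le_total 0 x with h | h
    · have := int_bb_nonneg (L := L) h
      linarith
    · rcases le_total (-4) x with h4 | h4
      · have h1 := int_bb_le (L := L) h
        rw [intervalIntegral.integral_symm]
        linarith
      · have h1 := intervalIntegral.integral_add_adjacent_intervals (int_bb L x (-4))
          (int_bb L (-4) 0)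
        have h2 := int_bb_le (L := L) (show (-4 : ℝ) ≤ 0 by norm_num)
        rw [hz1 x h4] at h1
        rw [intervalIntegral.integral_symm]
        linarith
  · rcases le_total 0 x with h | h
    · rcases le_total x (L + 4) with h4 | h4
      · have h1 := int_bb_le (L := L) h
        linarith
      · have h1 := intervalIntegral.integral_add_adjacent_intervals (int_bb L 0 (L + 4))
          (int_bb L (L + 4) x)
        have h2 := int_bb_le (L := L) (show (0 : ℝ) ≤ L + 4 by linarith)
        rw [hz2 x h4] at h1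
        linarith
    · have h1 := int_bb_nonneg (L := L) h
      rw [intervalIntegral.integral_symm]
      linarith

lemma sq_L2 (f : L2) : ‖f‖ ^ 2 = ∫ x, f x * f x := by
  rw [← real_inner_self_eq_norm_sq, L2.inner_def]
  exact integral_congr_ae (Eventually.of_forall fun x => by simp [pow_two])

lemma int_L2 (f g : L2) : Integrable (fun x => f x * g x) volume := by
  have := L2.integrable_inner (𝕜 := ℝ) g f
  refine this.congr (Eventually.of_forall fun x => ?_)
  simp

lemma inner_L2 (f g : L2) : inner ℝ f g = ∫ x, f x * g x := by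
  rw [L2.inner_def]
  exact integral_congr_ae (Eventually.of_forall fun x => by simp [mul_comm])

lemma comp_bounds {m : ℝ → ℝ} {A B : ℝ} (hm : Measurable m) (hA0 : 0 ≤ A)
    (hA : ∀ x, A ≤ m x) (hB : ∀ x, m x ≤ B) (f : L2) :
    A * ‖f‖ ^ 2 ≤ inner ℝ (mulOp m f) f ∧ inner ℝ (mulOp m f) f ≤ B * ‖f‖ ^ 2 ∧
      ‖mulOp m f‖ ^ 2 ≤ B ^ 2 * ‖f‖ ^ 2 := by
  have hbd : ∃ C, ∀ x, |m x| ≤ C := ⟨B, fun x => by
    rw [abs_of_nonneg (hA0.trans (hA x))]
    exact hB x⟩
  have hae := mulOp_ae hm hbd f
  rw [inner_L2, sq_L2 f, sq_L2 (mulOp m f), ← integral_const_mul, ← integral_const_mul,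
    ← integral_const_mul]
  refine ⟨?_, ?_, ?_⟩
  · refine integral_mono_ae ((int_L2 f f).const_mul A) (int_L2 _ f) ?_
    filter_upwards [hae] with x hx
    rw [hx]
    have := mul_le_mul_of_nonneg_right (hA x) (mul_self_nonneg (f x))
    linarith [(by ring : m x * f x * f x = m x * (f x * f x))]
  · refine integral_mono_ae (int_L2 _ f) ((int_L2 f f).const_mul B) ?_
    filter_upwards [hae] with x hx
    rw [hx]
    have := mul_le_mul_of_nonneg_right (hB x) (mul_self_nonneg (f x))
    linarith [(by ring : m x * f x * f x = m x * (f x * f x))]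
  · refine integral_mono_ae (int_L2 _ _) ((int_L2 f f).const_mul (B ^ 2)) ?_
    filter_upwards [hae] with x hx
    rw [hx]
    have h0 : 0 ≤ m x := hA0.trans (hA x)
    have h1 : m x ^ 2 ≤ B ^ 2 := pow_le_pow_left₀ h0 (hB x) 2
    have := mul_le_mul_of_nonneg_right h1 (mul_self_nonneg (f x))
    linarith [(by ring : m x * f x * (m x * f x) = m x ^ 2 * (f x * f x))]

/-- The weighted norm and the norm, for `c ≥ L + 4`. -/
theorem wn_bounds {L c : ℝ} (hL : 0 < L) (hc : 2 * (L + 4) ≤ c) (z : HH n) :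
    c / 2 * ‖z‖ ^ 2 ≤ wn L c z ∧ wn L c z ≤ 2 * c * ‖z‖ ^ 2 ∧
      ‖mulH (wt L c) z‖ ≤ 2 * c * ‖z‖ := by
  have hc0 : 0 < c := by linarith
  have hb := fun j => comp_bounds (A := c / 2) (B := 2 * c) (wt_cont L c).measurable
    (by linarith) (fun x => by linarith [(wt_bounds hL c x).1])
    (fun x => by linarith [(wt_bounds hL c x).2]) (z j)
  have hz : ‖z‖ ^ 2 = ∑ j, ‖z j‖ ^ 2 := by
    rw [PiLp.norm_sq_eq_of_L2]
  have hw : wn L c z = ∑ j, inner ℝ (mulOp (wt L c) (z j)) (z j) := by
    unfold wn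
    rw [PiLp.inner_apply]
    rfl
  have hmz : ‖mulH (wt L c) z‖ ^ 2 = ∑ j, ‖mulOp (wt L c) (z j)‖ ^ 2 := by
    rw [PiLp.norm_sq_eq_of_L2]
    rfl
  refine ⟨?_, ?_, ?_⟩
  · rw [hz, hw, Finset.mul_sum]
    exact Finset.sum_le_sum fun j _ => (hb j).1
  · rw [hz, hw, Finset.mul_sum]
    exact Finset.sum_le_sum fun j _ => (hb j).2.1
  · refine le_of_sq_le_sq ?_ (by positivity)
    rw [hmz, mul_pow, hz, Finset.mul_sum]
    exact Finset.sum_le_sum fun j _ => (hb j).2.2

end Pool.Agent.KG.WB1

namespace Pool.Agent.KG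

alias wn_bounds := WB1.wn_bounds

end Pool.Agent.KG
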