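import Pool.Agent.Lib.KG.WB1
import Pool.Agent.Lib.MP_78c35a_an.Energy

/-!
# Row WB2: the weighted balance
-/

set_option autoImplicit false

namespace Pool.Agent.KG

open MeasureTheory Filter Topology Set
open Pool.Agent.Kdv
open scoped ENNReal ContDiff InnerProductSpace

variable {n : ℕ}

theorem WB2_min (p : Pr n) : ∃ m : ℝ, 0 < m ∧ ∀ j, m ≤ p.mu j := by
  rcases isEmpty_or_nonempty (Fin n) with h | h
  · exact ⟨1, one_pos, fun j => (h.false j).elim⟩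
  · obtain ⟨j0, hj⟩ := Finite.exists_min p.mu
    exact ⟨p.mu j0, p.hmu j0, hj⟩

theorem WB2_rpow {a : ℝ} (ha : 0 ≤ a) : a ≤ 1 + a ^ (4 / 3 : ℝ) := by
  rcases le_total a 1 with h | h
  · have : 0 ≤ a ^ (4 / 3 : ℝ) := Real.rpow_nonneg ha _
    linarith
  · have h1 : a ^ (1 : ℝ) ≤ a ^ (4 / 3 : ℝ) :=
      Real.rpow_le_rpow_of_exponent_le h (by norm_num)
    rw [Real.rpow_one] at h1
    linarith

/-- The linear term. -/
theorem WB2_lin (L : ℝ) (S : Fin n → Fin n → ℝ) : ∃ C : ℝ, 0 ≤ C ∧ ∀ z : VV n L,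
    ∫ x, chi L x * ∑ j, ∑ k, S j k * uu j z x * uu k z x ≤ C * ‖inc n L z‖ ^ 2 := by
  refine ⟨∑ j, ∑ k, |S j k| * ‖mulOp (chi L)‖, by positivity, fun z => ?_⟩
  have h1 : ∫ x, chi L x * ∑ j, ∑ k, S j k * uu j z x * uu k z x =
      ∫ x, ∑ j, ∑ k, S j k * (mulOp (chi L) (uu j z) x * uu k z x) := by
    refine integral_congr_ae ?_
    have h2 : ∀ᵐ x ∂volume, ∀ j, mulOp (chi L) (uu j z) x = chi L x * uu j z x :=
      ae_all_iff.2 fun j =>
        mulOp_ae (QuadrAux.chi_cont L).measurable ⟨1, QuadrAux.chi_abs L⟩ (uu j z)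
    filter_upwards [h2] with x hx
    rw [Finset.mul_sum]
    refine Finset.sum_congr rfl fun j _ => ?_
    rw [Finset.mul_sum]
    refine Finset.sum_congr rfl fun k _ => ?_
    rw [hx j]
    ring
  have hint : ∀ j k, Integrable (fun x => S j k * (mulOp (chi L) (uu j z) x * uu k z x)) volume :=
    fun j k => ((Lp.memLp (mulOp (chi L) (uu j z))).integrable_mul (Lp.memLp (uu k z))).const_mul _
  rw [h1, integral_finsetSum _ fun j _ => integrable_finsetSum _ fun k _ => hint j k,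
    Finset.sum_mul]
  refine Finset.sum_le_sum fun j _ => ?_
  rw [integral_finsetSum _ fun k _ => hint j k, Finset.sum_mul]
  refine Finset.sum_le_sum fun k _ => ?_
  rw [integral_const_mul, ← Skw.inner_eq]
  have h2 : ‖uu j z‖ ≤ ‖inc n L z‖ := PiLp.norm_apply_le (inc n L z) j
  have h3 : ‖uu k z‖ ≤ ‖inc n L z‖ := PiLp.norm_apply_le (inc n L z) k
  calc S j k * inner ℝ (mulOp (chi L) (uu j z)) (uu k z)
      ≤ |S j k * inner ℝ (mulOp (chi L) (uu j z)) (uu k z)| := le_abs_self _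
    _ = |S j k| * |inner ℝ (mulOp (chi L) (uu j z)) (uu k z)| := abs_mul _ _
    _ ≤ |S j k| * (‖mulOp (chi L) (uu j z)‖ * ‖uu k z‖) := by
        gcongr
        exact abs_real_inner_le_norm _ _
    _ ≤ |S j k| * ((‖mulOp (chi L)‖ * ‖uu j z‖) * ‖uu k z‖) := by
        gcongr
        exact ContinuousLinearMap.le_opNorm _ _
    _ ≤ |S j k| * ((‖mulOp (chi L)‖ * ‖inc n L z‖) * ‖inc n L z‖) := by gcongr
    _ = |S j k| * ‖mulOp (chi L)‖ * ‖inc n L z‖ ^ 2 := by ring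

/-- The cut-off term. -/
theorem WB2_cut (p : Pr n) : ∃ C : ℝ, 0 ≤ C ∧ ∀ z : HH n,
    ∑ j, p.mu j * inner ℝ (mulOp (iteratedDeriv 2 (bb p.L)) (z j)) (z j) ≤ C * ‖z‖ ^ 2 := by
  refine ⟨∑ j, p.mu j * ‖mulOp (iteratedDeriv 2 (bb p.L))‖,
    Finset.sum_nonneg fun j _ => mul_nonneg (p.hmu j).le (norm_nonneg _), fun z => ?_⟩
  rw [Finset.sum_mul]
  refine Finset.sum_le_sum fun j _ => ?_
  have h2 : ‖z j‖ ≤ ‖z‖ := PiLp.norm_apply_le z j
  have h3 := (p.hmu j).le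
  rw [mul_assoc]
  refine mul_le_mul_of_nonneg_left ?_ h3
  calc inner ℝ (mulOp (iteratedDeriv 2 (bb p.L)) (z j)) (z j)
      ≤ ‖mulOp (iteratedDeriv 2 (bb p.L)) (z j)‖ * ‖z j‖ := real_inner_le_norm _ _
    _ ≤ (‖mulOp (iteratedDeriv 2 (bb p.L))‖ * ‖z j‖) * ‖z j‖ := by
        gcongr
        exact ContinuousLinearMap.le_opNorm _ _
    _ ≤ (‖mulOp (iteratedDeriv 2 (bb p.L))‖ * ‖z‖) * ‖z‖ := by gcongr
    _ = ‖mulOp (iteratedDeriv 2 (bb p.L))‖ * ‖z‖ ^ 2 := by ring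

theorem WB2_vint {p : Pr n} {τ : ℝ} {y : HH n} {f : ℝ → HH n} {v : ℝ → VV n p.L}
    (h : p.sm.Path y τ f v) : IntegrableOn (fun r => ‖v r‖ ^ 2) (Ioc 0 τ) := by
  refine ⟨h.meas.norm.pow 2, ?_⟩
  rw [HasFiniteIntegral]
  refine lt_of_le_of_lt (lintegral_mono fun r => ?_) h.fin
  rw [enorm_pow, enorm_norm]

theorem WB2_vint1 {p : Pr n} {τ : ℝ} {y : HH n} {f : ℝ → HH n} {v : ℝ → VV n p.L}
    (h : p.sm.Path y τ f v) : IntegrableOn (fun r => 1 + ‖v r‖ ^ 2) (Ioc 0 τ) := by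
  have h1 : IntegrableOn (fun _ : ℝ => (1 : ℝ)) (Ioc 0 τ) := integrableOn_const (by simp)
  exact h1.add (WB2_vint h)

theorem WB2_qcont (p : Pr n) : Continuous (qmap n p.L p.g) := by
  obtain ⟨K, hK, _, h⟩ := q_bounds p.hL p.g
  rw [continuous_iff_continuousAt]
  intro b
  rw [ContinuousAt, tendsto_iff_norm_sub_tendsto_zero]
  have h1 : Tendsto (fun a : VV n p.L => K * (‖a - b‖ * (‖a‖ + ‖b‖))) (𝓝 b) (𝓝 0) := by
    have h2 : Continuous fun a : VV n p.L => K * (‖a - b‖ * (‖a‖ + ‖b‖)) := by fun_prop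
    have h3 := h2.tendsto b
    simpa using h3
  exact squeeze_zero (fun _ => norm_nonneg _) (fun a => h a b) h1

theorem WB2_qint {p : Pr n} {τ : ℝ} {y : HH n} {f : ℝ → HH n} {v : ℝ → VV n p.L}
    (h : p.sm.Path y τ f v) : IntegrableOn (fun r => qmap n p.L p.g (v r)) (Ioc 0 τ) := by
  obtain ⟨K, hK, _, hq⟩ := q_bounds p.hL p.g
  refine Integrable.mono ((WB2_vint h).const_mul K)
    ((WB2_qcont p).comp_aestronglyMeasurable h.meas) (Eventually.of_forall fun r => ?_)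
  have h1 := hq (v r) 0
  rw [q_zero, sub_zero, sub_zero, norm_zero, add_zero] at h1
  rw [Real.norm_of_nonneg (by positivity)]
  calc ‖qmap n p.L p.g (v r)‖ ≤ K * (‖v r‖ * ‖v r‖) := h1
    _ = K * ‖v r‖ ^ 2 := by ring

theorem WB2_lint {p : Pr n} {τ : ℝ} {y : HH n} {f : ℝ → HH n} {v : ℝ → VV n p.L}
    (h : p.sm.Path y τ f v) : IntegrableOn (fun r => lmap n p.L p.S (v r)) (Ioc 0 τ) := by
  refine Integrable.mono ((WB2_vint1 h).const_mul ‖lmap n p.L p.S‖)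
    ((lmap n p.L p.S).continuous.comp_aestronglyMeasurable h.meas)
    (Eventually.of_forall fun r => ?_)
  rw [Real.norm_of_nonneg (by positivity)]
  refine ((lmap n p.L p.S).le_opNorm _).trans ?_
  gcongr
  nlinarith [sq_nonneg (‖v r‖ - 1)]

theorem WB2_dint {p : Pr n} {τ : ℝ} {y : HH n} {f : ℝ → HH n} {v : ℝ → VV n p.L}
    (h : p.sm.Path y τ f v) (j : Fin n) : IntegrableOn (fun r => ‖dd j (v r)‖ ^ 2) (Ioc 0 τ) := by
  refine Integrable.mono ((WB2_vint h).const_mul (‖(dd j : VV n p.L →L[ℝ] L2)‖ ^ 2))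
    (((dd j).continuous.comp_aestronglyMeasurable h.meas).norm.pow 2)
    (Eventually.of_forall fun r => ?_)
  rw [Real.norm_of_nonneg (by positivity), Real.norm_of_nonneg (by positivity), ← mul_pow]
  gcongr
  exact (dd j).le_opNorm _

/-- The equation paired with the weighted state. -/
theorem WB2_eq (p : Pr n) (c : ℝ) {τ : ℝ} {B : Bk p τ} {D : ℝ → ℝ} {z0 : HH n} {f : ℝ → HH n}
    {v : ℝ → VV n p.L} (h : Run p B D z0 f v) :
    ∀ᵐ r ∂volume.restrict (Ioc (0 : ℝ) τ), inc n p.L (v r) = p.sm.traj z0 f r ∧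
      2 * inner ℝ (f r) (mulH (wt p.L c) (p.sm.traj z0 f r)) =
        2 * inner ℝ (qmap n p.L p.g (v r)) (mulH (wt p.L c) (p.sm.traj z0 f r)) +
        2 * inner ℝ (lmap n p.L p.S (v r)) (mulH (wt p.L c) (p.sm.traj z0 f r)) +
        trt p c (B.w r) (B.wx r) (p.sm.traj z0 f r) -
        2 * D r * inner ℝ (mulH (damp p.L) (p.sm.traj z0 f r))
          (mulH (wt p.L c) (p.sm.traj z0 f r)) -
        2 * inner ℝ (B.r r) (mulH (wt p.L c) (p.sm.traj z0 f r)) := by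
  filter_upwards [h.path.lift, h.eq] with r h1 h2
  have h3 : inc n p.L (v r) = p.sm.traj z0 f r := h1
  refine ⟨h3, ?_⟩
  rw [← h3, h2, nl]
  have h4 : 2 * inner ℝ (tmap n p.L p.g (B.w r) (B.wx r) (v r))
      (mulH (wt p.L c) (inc n p.L (v r))) =
      trt p c (B.w r) (B.wx r) (inc n p.L (v r)) :=
    pair_t p c (fun x j => B.hd r x j)
      (fun j => (B.cwx j).comp (continuous_const.prodMk continuous_id)) (v r)
  rw [inner_sub_left, inner_sub_left, inner_add_left, inner_add_left, real_inner_smul_left, ← h4]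
  ring

/-- The parts of the integrand. -/
theorem WB2_parts (p : Pr n) (c : ℝ) {τ : ℝ} (hτ : 0 ≤ τ) {B : Bk p τ} {D : ℝ → ℝ}
    {z0 : HH n} {f : ℝ → HH n} {v : ℝ → VV n p.L} (h : Run p B D z0 f v)
    (hD : ContinuousOn D (Icc 0 τ)) :
    IntegrableOn (fun r => ∑ j, ‖dd j (v r)‖ ^ 2) (Ioc 0 τ) ∧
    IntegrableOn (fun r => ‖p.sm.traj z0 f r‖ ^ 2 * (1 + ‖p.sm.traj z0 f r‖ ^ (4 / 3 : ℝ)))
      (Ioc 0 τ) ∧
    IntegrableOn (fun r => trt p c (B.w r) (B.wx r) (p.sm.traj z0 f r)) (Ioc 0 τ) ∧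
    IntegrableOn (fun r => 2 * D r * inner ℝ (mulH (damp p.L) (p.sm.traj z0 f r))
          (mulH (wt p.L c) (p.sm.traj z0 f r))) (Ioc 0 τ) ∧
    IntegrableOn (fun r => 2 * inner ℝ (B.r r) (mulH (wt p.L c) (p.sm.traj z0 f r)))
      (Ioc 0 τ) ∧
    IntegrableOn (fun r => 2 * inner ℝ (f r) (mulH (wt p.L c) (p.sm.traj z0 f r)))
      (Ioc 0 τ) := by
  have hz : ContinuousOn (fun r => p.sm.traj z0 f r) (Icc 0 τ) :=
    p.sm.traj_cont z0 hτ h.path.int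
  have hW : ContinuousOn (fun r => mulH (wt p.L c) (p.sm.traj z0 f r)) (Icc 0 τ) :=
    (mulH (wt p.L c)).continuous.comp_continuousOn hz
  have hci : ∀ {g : ℝ → ℝ}, ContinuousOn g (Icc 0 τ) → IntegrableOn g (Ioc 0 τ) := fun {g} hg =>
    (hg.integrableOn_Icc).mono_set Ioc_subset_Icc_self
  have i1 : IntegrableOn (fun r => ∑ j, ‖dd j (v r)‖ ^ 2) (Ioc 0 τ) :=
    integrable_finsetSum _ fun j _ => WB2_dint h.path j
  have i2 : IntegrableOn (fun r => ‖p.sm.traj z0 f r‖ ^ 2 *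
      (1 + ‖p.sm.traj z0 f r‖ ^ (4 / 3 : ℝ))) (Ioc 0 τ) := by
    apply hci
    exact (hz.norm.pow 2).mul (continuousOn_const.add
      (hz.norm.rpow_const fun x _ => Or.inr (by norm_num)))
  have i4 : IntegrableOn (fun r => 2 * D r * inner ℝ (mulH (damp p.L) (p.sm.traj z0 f r))
          (mulH (wt p.L c) (p.sm.traj z0 f r))) (Ioc 0 τ) := by
    apply hci
    exact (continuousOn_const.mul hD).mul
      (((mulH (damp p.L)).continuous.comp_continuousOn hz).inner hW)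
  have i5 : IntegrableOn (fun r => 2 * inner ℝ (B.r r) (mulH (wt p.L c) (p.sm.traj z0 f r)))
      (Ioc 0 τ) := (inner_int hτ B.hr hW).const_mul 2
  have i6 : IntegrableOn (fun r => 2 * inner ℝ (f r) (mulH (wt p.L c) (p.sm.traj z0 f r)))
      (Ioc 0 τ) := (inner_int hτ h.path.int hW).const_mul 2
  have i7 : IntegrableOn (fun r => 2 * inner ℝ (qmap n p.L p.g (v r))
      (mulH (wt p.L c) (p.sm.traj z0 f r))) (Ioc 0 τ) :=
    (inner_int hτ (WB2_qint h.path) hW).const_mul 2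
  have i8 : IntegrableOn (fun r => 2 * inner ℝ (lmap n p.L p.S (v r))
      (mulH (wt p.L c) (p.sm.traj z0 f r))) (Ioc 0 τ) :=
    (inner_int hτ (WB2_lint h.path) hW).const_mul 2
  refine ⟨i1, i2, ?_, i4, i5, i6⟩
  refine Integrable.congr ((((i6.sub i7).sub i8).add i4).add i5) ?_
  filter_upwards [WB2_eq p c h] with r hr
  simp only [Pi.add_apply, Pi.sub_apply]
  rw [hr.2]
  ring

theorem WB2_all (p : Pr n) (c C m : ℝ) {τ : ℝ} (hτ : 0 ≤ τ) {B : Bk p τ} {D : ℝ → ℝ}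
    {z0 : HH n} {f : ℝ → HH n} {v : ℝ → VV n p.L} (h : Run p B D z0 f v)
    (hD : ContinuousOn D (Icc 0 τ)) :
    IntegrableOn (fun r => -m * (∑ j, ‖dd j (v r)‖ ^ 2) +
        C * (‖p.sm.traj z0 f r‖ ^ 2 * (1 + ‖p.sm.traj z0 f r‖ ^ (4 / 3 : ℝ))) +
        trt p c (B.w r) (B.wx r) (p.sm.traj z0 f r) -
        2 * D r * inner ℝ (mulH (damp p.L) (p.sm.traj z0 f r))
          (mulH (wt p.L c) (p.sm.traj z0 f r)) -
        2 * inner ℝ (B.r r) (mulH (wt p.L c) (p.sm.traj z0 f r))) (Ioc 0 τ) := by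
  obtain ⟨i1, i2, i3, i4, i5, _⟩ := WB2_parts p c hτ h hD
  exact ((((i1.const_mul (-m)).add (i2.const_mul C)).add i3).sub i4).sub i5

/-- From `wineq`, `pair_l`, `pair_q`, `pair_t`, `cubic_bound`. The constants do not depend on the
background, the damping and the weight. -/
theorem wbal (p : Pr n) : ∃ C m : ℝ, 0 < C ∧ 0 < m ∧ ∀ c : ℝ, 2 * (p.L + 4) ≤ c →
    ∀ (τ : ℝ) (B : Bk p τ) (D : ℝ → ℝ) (z0 : HH n) (f : ℝ → HH n) (v : ℝ → VV n p.L),
    Run p B D z0 f v → ContinuousOn D (Icc 0 τ) → ∀ s t : ℝ, 0 ≤ s → s ≤ t → t ≤ τ →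
    wn p.L c (p.sm.traj z0 f t) - wn p.L c (p.sm.traj z0 f s) ≤
      ∫ r in s..t, (-m * (∑ j, ‖dd j (v r)‖ ^ 2) +
        C * (‖p.sm.traj z0 f r‖ ^ 2 * (1 + ‖p.sm.traj z0 f r‖ ^ (4 / 3 : ℝ))) +
        trt p c (B.w r) (B.wx r) (p.sm.traj z0 f r) -
        2 * D r * inner ℝ (mulH (damp p.L) (p.sm.traj z0 f r))
          (mulH (wt p.L c) (p.sm.traj z0 f r)) -
        2 * inner ℝ (B.r r) (mulH (wt p.L c) (p.sm.traj z0 f r))) := by
  obtain ⟨m, hm, hmu⟩ := WB2_min p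
  obtain ⟨C1, hC1, hcub⟩ := cubic_bound p m hm
  obtain ⟨C2, hC2, hlin⟩ := WB2_lin p.L p.S
  obtain ⟨C3, hC3, hcut⟩ := WB2_cut p
  refine ⟨2 * C1 + C2 + C3 + 1, m, by positivity, hm, ?_⟩
  intro c _ τ B D z0 f v h hD s t hs hst ht
  have hτ : 0 ≤ τ := hs.trans (hst.trans ht)
  refine (wineq p h.path c hs hst ht).trans ?_
  obtain ⟨i1, i2, i3, i4, i5, i6⟩ := WB2_parts p c hτ h hD
  have hz : ContinuousOn (fun r => p.sm.traj z0 f r) (Icc 0 τ) :=
    p.sm.traj_cont z0 hτ h.path.int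
  have iF : IntegrableOn (fun r => -3 * ∑ j, p.mu j * ‖dd j (v r)‖ ^ 2 +
      ∑ j, p.mu j * inner ℝ (mulOp (iteratedDeriv 2 (bb p.L)) (p.sm.traj z0 f r j))
        (p.sm.traj z0 f r j) +
      2 * inner ℝ (f r) (mulH (wt p.L c) (p.sm.traj z0 f r))) (Ioc 0 τ) := by
    have j1 : IntegrableOn (fun r => -3 * ∑ j, p.mu j * ‖dd j (v r)‖ ^ 2) (Ioc 0 τ) :=
      (integrable_finsetSum _ fun j _ => (WB2_dint h.path j).const_mul (p.mu j)).const_mul (-3)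
    have j2 : IntegrableOn (fun r => ∑ j, p.mu j *
        inner ℝ (mulOp (iteratedDeriv 2 (bb p.L)) (p.sm.traj z0 f r j)) (p.sm.traj z0 f r j))
        (Ioc 0 τ) := by
      refine integrable_finsetSum _ fun j _ => Integrable.const_mul ?_ _
      have hc : ContinuousOn (fun r => inner ℝ (mulOp (iteratedDeriv 2 (bb p.L))
          (p.sm.traj z0 f r j)) (p.sm.traj z0 f r j)) (Icc 0 τ) := by
        have h1 : ContinuousOn (fun r => p.sm.traj z0 f r j) (Icc 0 τ) :=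
          (prH j).continuous.comp_continuousOn hz
        exact ((mulOp (iteratedDeriv 2 (bb p.L))).continuous.comp_continuousOn h1).inner h1
      exact (hc.integrableOn_Icc).mono_set Ioc_subset_Icc_self
    exact (j1.add j2).add i6
  refine intervalIntegral.integral_mono_ae_restrict hst (ii_of iF hs hst ht)
    (ii_of (WB2_all p c _ _ hτ h hD) hs hst ht) ?_
  have hmeas : ∀ᵐ r ∂volume.restrict (Ioc (0 : ℝ) τ), inc n p.L (v r) = p.sm.traj z0 f r ∧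
      -3 * ∑ j, p.mu j * ‖dd j (v r)‖ ^ 2 +
      ∑ j, p.mu j * inner ℝ (mulOp (iteratedDeriv 2 (bb p.L)) (p.sm.traj z0 f r j))
        (p.sm.traj z0 f r j) +
      2 * inner ℝ (f r) (mulH (wt p.L c) (p.sm.traj z0 f r)) ≤
      -m * (∑ j, ‖dd j (v r)‖ ^ 2) +
        (2 * C1 + C2 + C3 + 1) * (‖p.sm.traj z0 f r‖ ^ 2 *
          (1 + ‖p.sm.traj z0 f r‖ ^ (4 / 3 : ℝ))) +
        trt p c (B.w r) (B.wx r) (p.sm.traj z0 f r) -
        2 * D r * inner ℝ (mulH (damp p.L) (p.sm.traj z0 f r))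
          (mulH (wt p.L c) (p.sm.traj z0 f r)) -
        2 * inner ℝ (B.r r) (mulH (wt p.L c) (p.sm.traj z0 f r)) := by
    filter_upwards [WB2_eq p c h] with r hr
    obtain ⟨hr1, hr2⟩ := hr
    refine ⟨hr1, ?_⟩
    rw [hr2]
    have hq := pair_q p c (v r)
    have hl := pair_l p c (v r)
    have hcub' := hcub (v r)
    have hlin' := hlin (v r)
    have hcut' := hcut (p.sm.traj z0 f r)
    rw [hr1] at hq hl hcub' hlin'
    set z := p.sm.traj z0 f r with hzdef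
    set I := ∫ x, chi p.L x * ∑ j, ∑ k, ∑ l, p.g j k l * uu j (v r) x * uu k (v r) x *
      uu l (v r) x with hI
    have hI' : 2 / 3 * I ≤ 2 / 3 * |I| := by
      have := le_abs_self I
      linarith
    have hdd : -3 * ∑ j, p.mu j * ‖dd j (v r)‖ ^ 2 + m * ∑ j, ‖dd j (v r)‖ ^ 2 ≤
        -m * ∑ j, ‖dd j (v r)‖ ^ 2 := by
      have h1 : m * ∑ j, ‖dd j (v r)‖ ^ 2 ≤ ∑ j, p.mu j * ‖dd j (v r)‖ ^ 2 := by
        rw [Finset.mul_sum]
        exact Finset.sum_le_sum fun j _ => mul_le_mul_of_nonneg_right (hmu j) (sq_nonneg _)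
      have h2 : 0 ≤ m * ∑ j, ‖dd j (v r)‖ ^ 2 := by positivity
      linarith
    have ha := norm_nonneg z
    have hap : 0 ≤ ‖z‖ ^ (4 / 3 : ℝ) := Real.rpow_nonneg ha _
    have hr4 := WB2_rpow ha
    set a := ‖z‖ with hadef
    set P := a ^ (4 / 3 : ℝ) with hP
    have ha2 : 0 ≤ a ^ 2 := sq_nonneg a
    have e1 : C1 * (a ^ 2 * (a + P)) ≤ 2 * C1 * (a ^ 2 * (1 + P)) := by
      have h1 : a ^ 2 * (a + P) ≤ a ^ 2 * (2 * (1 + P)) := by
        apply mul_le_mul_of_nonneg_left _ ha2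
        linarith
      have h2 := mul_le_mul_of_nonneg_left h1 hC1
      linarith
    have e2 : a ^ 2 ≤ a ^ 2 * (1 + P) := by nlinarith
    have e3 : C2 * a ^ 2 ≤ C2 * (a ^ 2 * (1 + P)) := mul_le_mul_of_nonneg_left e2 hC2
    have e4 : C3 * a ^ 2 ≤ C3 * (a ^ 2 * (1 + P)) := mul_le_mul_of_nonneg_left e2 hC3
    have e5 : 0 ≤ a ^ 2 * (1 + P) := by positivity
    have e6 : (2 * C1 + C2 + C3 + 1) * (a ^ 2 * (1 + P)) = 2 * C1 * (a ^ 2 * (1 + P)) +
        C2 * (a ^ 2 * (1 + P)) + C3 * (a ^ 2 * (1 + P)) + a ^ 2 * (1 + P) := by ring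
    rw [e6]
    linarith
  have hle : (volume : Measure ℝ).restrict (Icc s t) ≤ volume.restrict (Icc 0 τ) :=
    Measure.restrict_mono (Icc_subset_Icc hs ht) le_rfl
  have h1 : ∀ᵐ r ∂(volume : Measure ℝ).restrict (Icc 0 τ), _ :=
    (Measure.restrict_congr_set (Ioc_ae_eq_Icc (μ := volume) (a := (0 : ℝ)) (b := τ))) ▸ hmeas
  filter_upwards [ae_mono hle h1] with r hr
  exact hr.2

/-- The integrand is integrable. -/
theorem wbal_int (p : Pr n) (c C m : ℝ) {τ : ℝ} (hτ : 0 ≤ τ) {B : Bk p τ} {D : ℝ → ℝ}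
    {z0 : HH n} {f : ℝ → HH n} {v : ℝ → VV n p.L} (h : Run p B D z0 f v)
    (hD : ContinuousOn D (Icc 0 τ)) :
    IntervalIntegrable (fun r => -m * (∑ j, ‖dd j (v r)‖ ^ 2) +
        C * (‖p.sm.traj z0 f r‖ ^ 2 * (1 + ‖p.sm.traj z0 f r‖ ^ (4 / 3 : ℝ))) +
        trt p c (B.w r) (B.wx r) (p.sm.traj z0 f r) -
        2 * D r * inner ℝ (mulH (damp p.L) (p.sm.traj z0 f r))
          (mulH (wt p.L c) (p.sm.traj z0 f r)) -
        2 * inner ℝ (B.r r) (mulH (wt p.L c) (p.sm.traj z0 f r))) volume 0 τ ∧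
    IntervalIntegrable (fun r => ∑ j, ‖dd j (v r)‖ ^ 2) volume 0 τ := by
  exact ⟨ii_of (WB2_all p c C m hτ h hD) le_rfl hτ le_rfl,
    ii_of (WB2_parts p c hτ h hD).1 le_rfl hτ le_rfl⟩

end Pool.Agent.KG
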