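import Pool.Agent.Lib.KG.InfS
import Pool.Agent.Lib.KG.Alg

/-!
# The weighted balance: definitions
-/

set_option autoImplicit false

namespace Pool.Agent.KG

open MeasureTheory Filter Topology Set
open Pool.Agent.Kdv
open scoped ENNReal ContDiff InnerProductSpace

variable {n : ℕ}

/-- The weighted square norm. -/
noncomputable def wn (L c : ℝ) (z : HH n) : ℝ := inner ℝ (mulH (wt L c) z) z

/-- The term `∫ θ z·(H(w) - ρ H(w_x)) z`. -/
noncomputable def trt (p : Pr n) (c : ℝ) (X X1 : ℝ → Fin n → ℝ) (z : HH n) : ℝ :=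
  ∫ x, th p.L x * ∑ j, ∑ k, (Hm p.g (X x) j k - wt p.L c x * Hm p.g (X1 x) j k) * z j x * z k x

end Pool.Agent.KG
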